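import Pool.Agent.Helper35.ARChan

/-! Positions, channel indices, letters. -/

namespace Pool.Agent.Helper35.AR

/-- number of channel-`r` positions below `y` -/
def chI (q r y : ℕ) : ℕ := (y + (q - 1 - 3 * r)) / q

/-- position is free -/
def isFree (q x : ℕ) : Bool := !(decide (x % q < 18) && decide (x % q % 3 = 0))

/-- number of free positions below `x` -/
def Fr (q : ℕ) : ℕ → ℕ
  | 0 => 0
  | x + 1 => Fr q x + if isFree q x = true then 1 else 0

variable {q : ℕ}

theorem chI_eq (hq : 19 ≤ q) (r : ℕ) (hr : r < 6) (y : ℕ) :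
    chI q r y = y / q + if y % q ≤ 3 * r then 0 else 1 := by
  have h1 := Nat.div_add_mod y q
  have h2 := Nat.mod_lt y (show 0 < q by omega)
  obtain ⟨u, hu⟩ : ∃ u, u = y / q := ⟨_, rfl⟩
  obtain ⟨v, hv⟩ : ∃ v, v = y % q := ⟨_, rfl⟩
  rw [← hu, ← hv] at h1 ⊢
  rw [← hv] at h2
  unfold chI
  rw [← h1, show q * u + v + (q - 1 - 3 * r) = (v + (q - 1 - 3 * r)) + q * u by ring,
    Nat.add_mul_div_left _ _ (by omega)]
  split_ifs with h
  · rw [Nat.div_eq_of_lt (by omega)]; ring
  · have : (v + (q - 1 - 3 * r)) / q = 1 := by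
      rw [Nat.div_eq_iff (by omega)]
      omega
    rw [this]; ring

theorem chI_succ (hq : 19 ≤ q) (r : ℕ) (hr : r < 6) (y : ℕ) :
    chI q r (y + 1) = chI q r y + if y % q = 3 * r then 1 else 0 := by
  have h1 := Nat.div_add_mod y q
  have h2 := Nat.mod_lt y (show 0 < q by omega)
  obtain ⟨u, hu⟩ : ∃ u, u = y / q := ⟨_, rfl⟩
  obtain ⟨v, hv⟩ : ∃ v, v = y % q := ⟨_, rfl⟩
  rw [chI_eq hq r hr, chI_eq hq r hr]
  rw [← hv] at h2
  rw [← hu, ← hv] at h1 ⊢
  rcases Nat.lt_or_ge (v + 1) q with hlt | hge
  · have e1 : (y + 1) / q = u := by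
      rw [← h1, show q * u + v + 1 = (v + 1) + q * u by ring, Nat.add_mul_div_left _ _ (by omega),
        Nat.div_eq_of_lt hlt]; ring
    have e2 : (y + 1) % q = v + 1 := by
      rw [← h1, show q * u + v + 1 = (v + 1) + q * u by ring, Nat.add_mul_mod_self_left, Nat.mod_eq_of_lt hlt]
    rw [e1, e2]
    split_ifs <;> omega
  · have e1 : (y + 1) / q = u + 1 := by
      rw [← h1, show q * u + v + 1 = q * (u + 1) by rw [mul_add]; omega, Nat.mul_div_cancel_left _ (by omega)]
    have e2 : (y + 1) % q = 0 := by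
      rw [← h1, show q * u + v + 1 = q * (u + 1) by rw [mul_add]; omega, Nat.mul_mod_right]
    rw [e1, e2]
    split_ifs <;> omega

theorem chI_at (hq : 19 ≤ q) (r : ℕ) (hr : r < 6) (y : ℕ) (hy : y % q = 3 * r) : chI q r y = y / q := by
  rw [chI_eq hq r hr, if_pos (by omega)]; ring

theorem chI_zero (hq : 19 ≤ q) (r : ℕ) (hr : r < 6) : chI q r 0 = 0 := by
  rw [chI_eq hq r hr]; simp

theorem chI_mono (r : ℕ) {x y : ℕ} (h : x ≤ y) : chI q r x ≤ chI q r y :=
  Nat.div_le_div_right (by omega)

theorem chI_add_mul (hq : 19 ≤ q) (r y n : ℕ) : chI q r (y + q * n) = chI q r y + n := by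
  unfold chI
  rw [show y + q * n + (q - 1 - 3 * r) = y + (q - 1 - 3 * r) + q * n by ring, Nat.add_mul_div_left _ _ (by omega)]

theorem chI_near (hq : 19 ≤ q) (r : ℕ) (hr : r + 1 < 6) (y : ℕ) :
    chI q (r + 1) y ≤ chI q r y ∧ chI q r y ≤ chI q (r + 1) y + 1 := by
  rw [chI_eq hq r (by omega), chI_eq hq (r + 1) hr]
  split_ifs <;> omega

/-! ### free positions -/

theorem Fr_succ (x : ℕ) : Fr q (x + 1) = Fr q x + if isFree q x = true then 1 else 0 := rfl

theorem Fr_succ_le (x : ℕ) : Fr q (x + 1) ≤ Fr q x + 1 := by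
  rw [Fr_succ]; split_ifs <;> omega

theorem Fr_le_succ (x : ℕ) : Fr q x ≤ Fr q (x + 1) := by
  rw [Fr_succ]; omega

theorem Fr_mono {x y : ℕ} (h : x ≤ y) : Fr q x ≤ Fr q y :=
  monotone_nat_of_le_succ (f := Fr q) Fr_le_succ h

theorem Fr_lip (x : ℕ) : ∀ n, Fr q (x + n) ≤ Fr q x + n := by
  intro n
  induction n with
  | zero => simp
  | succ n ih => have := Fr_succ_le (q := q) (x + n); rw [← Nat.add_assoc]; omega

theorem Fr_le (x : ℕ) : Fr q x ≤ x := by
  have := Fr_lip (q := q) 0 x
  simpa [Fr] using this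

theorem Fr_small (hq : 19 ≤ q) : ∀ x ≤ q, Fr q x = x - min 6 ((x + 2) / 3) := by
  intro x
  induction x with
  | zero => intro _; rfl
  | succ x ih =>
    intro hx
    rw [Fr_succ, ih (by omega)]
    unfold isFree
    rw [Nat.mod_eq_of_lt (show x < q by omega)]
    by_cases h : x < 18 ∧ x % 3 = 0
    · rw [if_neg (by simp [h.1, h.2])]
      omega
    · rw [if_pos]
      · omega
      · simp only [Bool.not_eq_true', Bool.and_eq_false_iff, decide_eq_false_iff_not]
        by_contra hc
        push Not at hc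
        exact h ⟨by omega, by omega⟩

theorem Fr_add_q (hq : 19 ≤ q) : ∀ x, Fr q (x + q) = Fr q x + (q - 6) := by
  intro x
  induction x with
  | zero =>
    rw [Nat.zero_add, Fr_small hq q le_rfl]
    simp only [Fr]
    omega
  | succ x ih =>
    rw [show x + 1 + q = (x + q) + 1 by ring, Fr_succ, Fr_succ, ih]
    have : isFree q (x + q) = isFree q x := by unfold isFree; rw [Nat.add_mod_right]
    rw [this]
    omega

theorem free_two (hq : 19 ≤ q) (x : ℕ) (h : isFree q x = false) :
    isFree q (x + 1) = true ∧ isFree q (x + 2) = true := by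
  have h2 := Nat.mod_lt x (show 0 < q by omega)
  unfold isFree at h ⊢
  simp only [Bool.not_eq_false', Bool.and_eq_true, decide_eq_true_eq] at h
  have e1 : (x + 1) % q = x % q + 1 := by
    rw [Nat.add_mod, Nat.mod_eq_of_lt (show 1 < q by omega), Nat.mod_eq_of_lt (by omega)]
  have e2 : (x + 2) % q = if x % q + 2 < q then x % q + 2 else 0 := by
    rw [Nat.add_mod, Nat.mod_eq_of_lt (show 2 < q by omega)]
    split_ifs with hc
    · rw [Nat.mod_eq_of_lt hc]
    · omega
  rw [e1, e2]
  simp only [Bool.not_eq_true', Bool.and_eq_false_iff, decide_eq_false_iff_not]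
  rw [if_pos (by omega)]
  omega

theorem Fr_two (hq : 19 ≤ q) (x : ℕ) : Fr q x + 1 ≤ Fr q (x + 2) := by
  rw [Fr_succ, Fr_succ]
  rcases hb : isFree q x with _ | _
  · have := free_two hq x hb
    simp [this.1]
  · simp

theorem Fr_three (hq : 19 ≤ q) (x : ℕ) : Fr q x + 2 ≤ Fr q (x + 3) := by
  rw [Fr_succ, Fr_succ, Fr_succ]
  rcases hb : isFree q x with _ | _
  · have := free_two hq x hb
    simp [this.1, this.2]
  · rcases hb1 : isFree q (x + 1) with _ | _
    · have := free_two hq (x + 1) hb1
      simp [this.1]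
    · simp

theorem Fr_lower (hq : 19 ≤ q) (x : ℕ) : ∀ m, 2 * m ≤ 3 * (Fr q (x + m) - Fr q x) + 2 := by
  intro m
  induction m using Nat.strong_induction_on with
  | _ m ih =>
    rcases Nat.lt_or_ge m 3 with h | h
    · interval_cases m
      · omega
      · omega
      · have := Fr_two hq x
        omega
    · have e := ih (m - 3) (by omega)
      have e2 := Fr_three hq (x + (m - 3))
      rw [show x + (m - 3) + 3 = x + m by omega] at e2
      have e3 := Fr_mono (q := q) (show x ≤ x + (m - 3) by omega)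
      omega

/-! ### the word -/

variable {f : ℕ}

/-- letter at position `x` -/
def letter (q J : ℕ) (Y : ℕ → Fin f) (x : ℕ) : (Fin 6 × Bool) ⊕ Fin f :=
  if isFree q x = true then Sum.inr (Y (Fr q x))
  else Sum.inl (Fin.ofNat 6 (x % q / 3), bit q J (x % q / 3 / 2) (x % q / 3 % 2) (x / q))

/-- block of letters -/
def blk (q J : ℕ) (Y : ℕ → Fin f) (a m : ℕ) : List ((Fin 6 × Bool) ⊕ Fin f) :=
  (List.range' a m).map (letter q J Y)

theorem blk_append (J : ℕ) (Y : ℕ → Fin f) (a m n : ℕ) :
    blk q J Y a (m + n) = blk q J Y a m ++ blk q J Y (a + m) n := by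
  unfold blk
  rw [← List.map_append, List.range'_append_1]

/-- channel test -/
def isL (r : ℕ) : (Fin 6 × Bool) ⊕ Fin f → Bool
  | Sum.inl (r', _) => decide (r'.val = r)
  | Sum.inr _ => false

/-- marked channel test -/
def isLT (r : ℕ) : (Fin 6 × Bool) ⊕ Fin f → Bool
  | Sum.inl (r', b) => decide (r'.val = r) && b
  | Sum.inr _ => false

theorem letter_ch (hq : 19 ≤ q) (J : ℕ) (Y : ℕ → Fin f) (r : ℕ) (hr : r < 6) (x : ℕ) (h : x % q = 3 * r) :
    letter q J Y x = Sum.inl (⟨r, hr⟩, bit q J (r / 2) (r % 2) (x / q)) := by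
  unfold letter
  rw [if_neg]
  · rw [h, show 3 * r / 3 = r by omega]
    congr 2
    apply Fin.ext
    simp only [Fin.ofNat]
    omega
  · unfold isFree
    rw [h]
    have h1 : 3 * r < 18 := by omega
    have h2 : 3 * r % 3 = 0 := by omega
    simp [h1]

theorem letter_notch (hq : 19 ≤ q) (J : ℕ) (Y : ℕ → Fin f) (r : ℕ) (hr : r < 6) (x : ℕ) (h : x % q ≠ 3 * r) :
    isL r (letter q J Y x) = false ∧ isLT r (letter q J Y x) = false := by
  unfold letter
  split_ifs with hf
  · exact ⟨rfl, rfl⟩
  · unfold isFree at hf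
    simp only [Bool.not_eq_true', Bool.and_eq_false_iff, decide_eq_false_iff_not, not_or, not_not] at hf
    have : (Fin.ofNat 6 (x % q / 3)).val ≠ r := by
      simp only [Fin.ofNat]
      omega
    constructor
    · show decide _ = false
      exact decide_eq_false this
    · show (decide _ && _) = false
      rw [decide_eq_false this]
      rfl

theorem count_L (hq : 19 ≤ q) (J : ℕ) (Y : ℕ → Fin f) (r : ℕ) (hr : r < 6) (a : ℕ) : ∀ m,
    (blk q J Y a m).countP (isL r) = chI q r (a + m) - chI q r a := by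
  intro m
  induction m with
  | zero => simp [blk]
  | succ m ih =>
    rw [blk_append, List.countP_append, ih, ← Nat.add_assoc, chI_succ hq r hr]
    have hm := chI_mono (q := q) r (show a ≤ a + m by omega)
    by_cases h : (a + m) % q = 3 * r
    · rw [if_pos h]
      have : (blk q J Y (a + m) 1).countP (isL r) = 1 := by
        unfold blk
        simp [letter_ch hq J Y r hr (a + m) h, isL]
      rw [this]
      omega
    · rw [if_neg h]
      have : (blk q J Y (a + m) 1).countP (isL r) = 0 := by
        unfold blk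
        simp [(letter_notch hq J Y r hr (a + m) h).1]
      rw [this]
      omega

theorem count_LT (hq : 19 ≤ q) (J : ℕ) (Y : ℕ → Fin f) (r : ℕ) (hr : r < 6) (a : ℕ) : ∀ m,
    ((blk q J Y a m).countP (isLT r) : ℤ) = cB q J (r / 2) (r % 2) (chI q r (a + m)) - cB q J (r / 2) (r % 2) (chI q r a) := by
  intro m
  induction m with
  | zero => simp [blk]
  | succ m ih =>
    rw [blk_append, List.countP_append, Nat.cast_add, ih, ← Nat.add_assoc, chI_succ hq r hr]
    by_cases h : (a + m) % q = 3 * r
    · rw [if_pos h, cB_succ q J (by omega)]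
      rw [chI_at hq r hr (a + m) h]
      have : (blk q J Y (a + m) 1).countP (isLT r) = if bit q J (r / 2) (r % 2) ((a + m) / q) = true then 1 else 0 := by
        unfold blk
        simp [letter_ch hq J Y r hr (a + m) h, isLT, List.countP_cons]
      rw [this]
      push_cast
      ring
    · rw [if_neg h]
      have : (blk q J Y (a + m) 1).countP (isLT r) = 0 := by
        unfold blk
        simp [(letter_notch hq J Y r hr (a + m) h).2]
      rw [this]
      simp

theorem free_part (J : ℕ) (Y : ℕ → Fin f) (a : ℕ) : ∀ m,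
    (blk q J Y a m).filterMap Sum.getRight? = (List.range' (Fr q a) (Fr q (a + m) - Fr q a)).map Y := by
  intro m
  induction m with
  | zero => simp [blk]
  | succ m ih =>
    rw [blk_append, List.filterMap_append, ih]
    have hm := Fr_mono (q := q) (show a ≤ a + m by omega)
    rw [← Nat.add_assoc, Fr_succ]
    rcases hb : isFree q (a + m) with _ | _
    · have : (blk q J Y (a + m) 1).filterMap Sum.getRight? = [] := by
        unfold blk letter
        simp [hb]
      rw [this]
      simp
    · have : (blk q J Y (a + m) 1).filterMap Sum.getRight? = [Y (Fr q (a + m))] := by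
        unfold blk letter
        simp [hb]
      rw [this, if_pos rfl, show Fr q (a + m) + 1 - Fr q a = (Fr q (a + m) - Fr q a) + 1 by omega,
        List.range'_1_concat, List.map_append]
      congr 1
      simp only [List.map_cons, List.map_nil]
      congr 2
      omega

end Pool.Agent.Helper35.AR
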