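import Pool.Agent.Helper35.ARTri

/-! Channels: binary words whose densities drift at every scale. -/

namespace Pool.Agent.Helper35.AR

/-- ratio parameter -/
def cA (q : ℕ) : ℕ := 2 ^ 16 * q ^ 2
/-- scales -/
def cH (q j : ℕ) : ℕ := 2 ^ 31 * q ^ 4 * (2 * cA q) ^ j
/-- weights -/
def cW (q J j : ℕ) : ℕ := (4 * cA q) ^ (J - j)
/-- half of the denominator -/
def cM (q J : ℕ) : ℕ := 2 * (2 ^ 31 * q ^ 4 * (4 * cA q) ^ J)

/-- numerator of the density at row `t` -/
def cV (q J c s t : ℕ) : ℤ :=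
  cM q J + ∑ j ∈ (Finset.range (J + 1)).filter (fun j => j % 3 = c),
    (cW q J j : ℤ) * tri (cH q j) (t + s * cH q j)

/-- accumulated numerators -/
def cS (q J c s t : ℕ) : ℤ := ∑ i ∈ Finset.range t, cV q J c s i

/-- number of marked rows -/
def cB (q J c s t : ℕ) : ℤ := cS q J c s t / (2 * cM q J)

variable (q J : ℕ)

theorem cA_pos (hq : 1 ≤ q) : 2 ≤ cA q := by
  unfold cA
  have : 1 ≤ q ^ 2 := Nat.one_le_pow _ _ hq
  omega

theorem cH_pos (hq : 1 ≤ q) (j : ℕ) : 0 < cH q j := by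
  have := cA_pos q hq
  unfold cH
  positivity

theorem cM_pos (hq : 1 ≤ q) : 0 < cM q J := by
  have := cA_pos q hq
  unfold cM
  positivity

theorem cW_succ (j : ℕ) (hj : j + 1 ≤ J) : cW q J j = 4 * cA q * cW q J (j + 1) := by
  unfold cW
  rw [show J - j = (J - (j + 1)) + 1 by omega, pow_succ]
  ring

theorem cWH_succ (j : ℕ) (hj : j + 1 ≤ J) : cW q J j * cH q j = 2 * (cW q J (j + 1) * cH q (j + 1)) := by
  rw [cW_succ q J j hj]
  unfold cH
  rw [pow_succ]
  ring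

theorem cWH_sum : ∀ n ≤ J, ∑ j ∈ Finset.range (n + 1), cW q J j * cH q j + cW q J n * cH q n = cM q J := by
  intro n
  induction n with
  | zero =>
    intro _
    simp only [zero_add, Finset.sum_range_one]
    unfold cW cH cM
    simp
    ring
  | succ n ih =>
    intro hn
    rw [Finset.sum_range_succ]
    have e := ih (by omega)
    rw [cWH_succ q J n hn] at e
    linarith

theorem cV_dev (hq : 1 ≤ q) (c s t : ℕ) : |∑ j ∈ (Finset.range (J + 1)).filter (fun j => j % 3 = c),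
    (cW q J j : ℤ) * tri (cH q j) (t + s * cH q j)| ≤ cM q J := by
  calc |∑ j ∈ (Finset.range (J + 1)).filter (fun j => j % 3 = c),
        (cW q J j : ℤ) * tri (cH q j) (t + s * cH q j)|
      ≤ ∑ j ∈ (Finset.range (J + 1)).filter (fun j => j % 3 = c),
        |(cW q J j : ℤ) * tri (cH q j) (t + s * cH q j)| := Finset.abs_sum_le_sum_abs _ _
    _ ≤ ∑ j ∈ (Finset.range (J + 1)).filter (fun j => j % 3 = c), ((cW q J j * cH q j : ℕ) : ℤ) := by
        apply Finset.sum_le_sum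
        intro j _
        rw [abs_mul, Nat.abs_cast, Nat.cast_mul]
        exact mul_le_mul_of_nonneg_left (tri_abs _ _ (by exact_mod_cast cH_pos q hq j)) (Int.natCast_nonneg _)
    _ ≤ ∑ j ∈ Finset.range (J + 1), ((cW q J j * cH q j : ℕ) : ℤ) := by
        apply Finset.sum_le_sum_of_subset_of_nonneg (Finset.filter_subset _ _)
        intro i _ _
        exact Int.natCast_nonneg _
    _ ≤ cM q J := by
        have := cWH_sum q J J le_rfl
        rw [← this]
        push_cast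
        have : (0 : ℤ) ≤ cW q J J * cH q J := by positivity
        linarith

theorem cV_nonneg (hq : 1 ≤ q) (c s t : ℕ) : 0 ≤ cV q J c s t := by
  have := cV_dev q J hq c s t
  unfold cV
  rw [abs_le] at this
  linarith [this.1]

theorem cV_le (hq : 1 ≤ q) (c s t : ℕ) : cV q J c s t ≤ 2 * cM q J := by
  have := cV_dev q J hq c s t
  unfold cV
  rw [abs_le] at this
  linarith [this.2]

theorem cB_step (hq : 1 ≤ q) (c s t : ℕ) :
    cB q J c s (t + 1) = cB q J c s t ∨ cB q J c s (t + 1) = cB q J c s t + 1 := by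
  have h1 := cV_nonneg q J hq c s t
  have h2 := cV_le q J hq c s t
  have hM : (0 : ℤ) < 2 * cM q J := by have := cM_pos q J hq; positivity
  have e : cS q J c s (t + 1) = cS q J c s t + cV q J c s t := by
    unfold cS; rw [Finset.sum_range_succ]
  have a1 : cB q J c s t ≤ cB q J c s (t + 1) := by
    unfold cB
    exact Int.ediv_le_ediv hM (by linarith)
  have a2 : cB q J c s (t + 1) ≤ cB q J c s t + 1 := by
    unfold cB
    have : (cS q J c s t) / (2 * cM q J) + 1 = (cS q J c s t + 1 * (2 * cM q J)) / (2 * cM q J) := by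
      rw [Int.add_mul_ediv_right _ _ (by omega)]
    rw [this]
    exact Int.ediv_le_ediv hM (by linarith)
  omega

/-- the bit of row `t` -/
def bit (c s t : ℕ) : Bool := decide (cB q J c s (t + 1) = cB q J c s t + 1)

theorem cB_succ (hq : 1 ≤ q) (c s t : ℕ) :
    cB q J c s (t + 1) = cB q J c s t + if bit q J c s t = true then 1 else 0 := by
  unfold bit
  rcases cB_step q J hq c s t with h | h
  · rw [if_neg]
    · rw [h]; ring
    · rw [decide_eq_true_iff, h]; omega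
  · rw [if_pos]
    · exact h
    · rw [decide_eq_true_iff]; exact h

theorem cB_zero (c s : ℕ) : cB q J c s 0 = 0 := by
  unfold cB cS; simp

theorem cS_add (c s x k : ℕ) : cS q J c s (x + k) - cS q J c s x = ∑ i ∈ Finset.range k, cV q J c s (x + i) := by
  unfold cS
  rw [Finset.sum_range_add]
  ring

/-- equal numbers of marked rows force nearly equal sums of densities -/
theorem cB_eq_bound (hq : 1 ≤ q) (c s x y k : ℕ)
    (h : cB q J c s (y + k) - cB q J c s y = cB q J c s (x + k) - cB q J c s x) :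
    |∑ i ∈ Finset.range k, (cV q J c s (y + i) - cV q J c s (x + i))| < 4 * cM q J := by
  have hM : (0 : ℤ) < 2 * cM q J := by have := cM_pos q J hq; positivity
  rw [Finset.sum_sub_distrib, ← cS_add, ← cS_add]
  have g : ∀ t, 0 ≤ cS q J c s t - (2 * cM q J) * cB q J c s t ∧
      cS q J c s t - (2 * cM q J) * cB q J c s t < 2 * cM q J := by
    intro t
    have e1 := Int.emod_nonneg (cS q J c s t) (show (2 * (cM q J : ℤ)) ≠ 0 by omega)
    have e2 := Int.emod_lt_of_pos (cS q J c s t) hM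
    have e3 := Int.mul_ediv_add_emod (cS q J c s t) (2 * cM q J)
    unfold cB
    constructor <;> linarith
  have g1 := g (y + k)
  have g2 := g y
  have g3 := g (x + k)
  have g4 := g x
  have h' : (2 * (cM q J : ℤ)) * (cB q J c s (y + k) - cB q J c s y) =
      (2 * (cM q J : ℤ)) * (cB q J c s (x + k) - cB q J c s x) := by rw [h]
  rw [mul_sub, mul_sub] at h'
  rw [abs_lt]
  constructor <;> linarith

/-- contribution of one scale -/
def cD (q s x y k j : ℕ) : ℤ :=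
  ∑ i ∈ Finset.range k, (tri (cH q j) (((y + i : ℕ) : ℤ) + s * cH q j) - tri (cH q j) (((x + i : ℕ) : ℤ) + s * cH q j))

theorem D_eq (c s x y k : ℕ) :
    ∑ i ∈ Finset.range k, (cV q J c s (y + i) - cV q J c s (x + i)) =
      ∑ j ∈ (Finset.range (J + 1)).filter (fun j => j % 3 = c), (cW q J j : ℤ) * cD q s x y k j := by
  unfold cD
  simp_rw [Finset.mul_sum]
  rw [Finset.sum_comm]
  apply Finset.sum_congr rfl
  intro i _
  unfold cV
  rw [add_sub_add_left_eq_sub, ← Finset.sum_sub_distrib]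
  apply Finset.sum_congr rfl
  intro j _
  ring

theorem cD_lip (hq : 1 ≤ q) (s x Δ k j : ℕ) : |cD q s x (x + Δ) k j| ≤ k * Δ := by
  have hh : (0 : ℤ) < cH q j := by exact_mod_cast cH_pos q hq j
  unfold cD
  calc _ ≤ ∑ i ∈ Finset.range k, |tri (cH q j) (((x + Δ + i : ℕ) : ℤ) + s * cH q j) - tri (cH q j) (((x + i : ℕ) : ℤ) + s * cH q j)| :=
        Finset.abs_sum_le_sum_abs _ _
    _ ≤ ∑ _i ∈ Finset.range k, (Δ : ℤ) := by
        apply Finset.sum_le_sum
        intro i _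
        have := tri_lip (cH q j) (((x + i : ℕ) : ℤ) + s * cH q j) hh Δ
        rw [show ((x + Δ + i : ℕ) : ℤ) + s * cH q j = ((x + i : ℕ) : ℤ) + s * cH q j + Δ by push_cast; ring]
        exact this
    _ = k * Δ := by rw [Finset.sum_const, Finset.card_range, nsmul_eq_mul]

theorem cD_low (hq : 1 ≤ q) (s x y k j : ℕ) : |cD q s x y k j| ≤ 8 * (cH q j * cH q j) := by
  have hh : 0 < cH q j := cH_pos q hq j
  unfold cD
  rw [Finset.sum_sub_distrib]
  have e1 := tri_sum_le (cH q j) hh k ((y : ℤ) + s * cH q j)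
  have e2 := tri_sum_le (cH q j) hh k ((x : ℤ) + s * cH q j)
  have f1 : ∑ i ∈ Finset.range k, tri (cH q j) (((y + i : ℕ) : ℤ) + s * cH q j) =
      ∑ i ∈ Finset.range k, tri (cH q j) ((y : ℤ) + s * cH q j + i) := by
    apply Finset.sum_congr rfl
    intro i _
    congr 1
    push_cast
    ring
  have f2 : ∑ i ∈ Finset.range k, tri (cH q j) (((x + i : ℕ) : ℤ) + s * cH q j) =
      ∑ i ∈ Finset.range k, tri (cH q j) ((x : ℤ) + s * cH q j + i) := by
    apply Finset.sum_congr rfl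
    intro i _
    congr 1
    push_cast
    ring
  rw [f1, f2]
  rw [abs_le] at e1 e2 ⊢
  constructor <;> linarith

theorem cD_main (hq : 1 ≤ q) (s x Δ k j : ℕ)
    (hb : ((x : ℤ) + s * cH q j) / (2 * cH q j) = (((x + Δ + k : ℕ) : ℤ) + s * cH q j) / (2 * cH q j)) :
    |cD q s x (x + Δ) k j| = k * Δ := by
  have hh : (0 : ℤ) < cH q j := by exact_mod_cast cH_pos q hq j
  obtain ⟨ε, hε⟩ : ∃ ε : ℤ, ε = if ((x : ℤ) + s * cH q j) / (2 * cH q j) % 2 = 0 then -1 else 1 := ⟨_, rfl⟩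
  have hε1 : |ε| = 1 := by rw [hε]; split_ifs <;> simp
  have hD : cD q s x (x + Δ) k j = ε * (k * Δ) := by
    unfold cD
    have : ∀ i ∈ Finset.range k, tri (cH q j) (((x + Δ + i : ℕ) : ℤ) + s * cH q j) - tri (cH q j) (((x + i : ℕ) : ℤ) + s * cH q j) = ε * Δ := by
      intro i hi
      rw [Finset.mem_range] at hi
      have hi' : (i : ℤ) < k := by exact_mod_cast hi
      have hΔ : (0 : ℤ) ≤ Δ := Int.natCast_nonneg _
      have hi0 : (0 : ℤ) ≤ i := Int.natCast_nonneg _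
      have m1 : (((x + i : ℕ) : ℤ) + s * cH q j) / (2 * cH q j) = ((x : ℤ) + s * cH q j) / (2 * cH q j) := by
        apply le_antisymm
        · rw [hb]; exact Int.ediv_le_ediv (by omega) (by push_cast; linarith)
        · exact Int.ediv_le_ediv (by omega) (by push_cast; linarith)
      have m2 : (((x + i : ℕ) : ℤ) + s * cH q j + Δ) / (2 * cH q j) = (((x + i : ℕ) : ℤ) + s * cH q j) / (2 * cH q j) := by
        rw [m1]
        apply le_antisymm
        · rw [hb]; exact Int.ediv_le_ediv (by omega) (by push_cast; linarith)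
        · exact Int.ediv_le_ediv (by omega) (by push_cast; linarith)
      have := tri_block (cH q j) (((x + i : ℕ) : ℤ) + s * cH q j) hh Δ m2
      rw [m1, ← hε] at this
      rw [show ((x + Δ + i : ℕ) : ℤ) + s * cH q j = ((x + i : ℕ) : ℤ) + s * cH q j + Δ by push_cast; ring]
      exact this
    rw [Finset.sum_congr rfl this, Finset.sum_const, Finset.card_range, nsmul_eq_mul]
    ring
  rw [hD, abs_mul, hε1, one_mul, abs_of_nonneg (by positivity)]

theorem upper_sum (hq : 1 ≤ q) (j0 : ℕ) : ∀ n, j0 + n ≤ J →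
    3 * ∑ j ∈ Finset.Ioc j0 (j0 + n), cW q J j + cW q J (j0 + n) ≤ cW q J j0 := by
  intro n
  induction n with
  | zero => intro _; simp
  | succ n ih =>
    intro hn
    have e := ih (by omega)
    have e2 := cW_succ q J (j0 + n) (by omega)
    rw [← Nat.add_assoc, Finset.sum_Ioc_succ_top (by omega)]
    have e3 : 4 * cW q J (j0 + n + 1) ≤ cW q J (j0 + n) := by
      rw [e2]
      have := cA_pos q hq
      nlinarith [Nat.zero_le (cW q J (j0 + n + 1))]
    omega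

theorem low_term (j : ℕ) (hj : j ≤ J) : cW q J j * (cH q j * cH q j) = (2 ^ 31 * q ^ 4) ^ 2 * (4 * cA q) ^ J * (cA q) ^ j := by
  unfold cW cH
  have e : (4 * cA q) ^ J = (4 * cA q) ^ (J - j) * (4 * cA q) ^ j := by
    rw [← pow_add]; congr 1; omega
  rw [e, show (4 * cA q) ^ j = (4 : ℕ) ^ j * (cA q) ^ j by rw [mul_pow],
    show (2 * cA q) ^ j = 2 ^ j * (cA q) ^ j by rw [mul_pow],
    show (4 : ℕ) ^ j = 2 ^ j * 2 ^ j by rw [← mul_pow]; norm_num]
  ring

theorem geo_sum (hq : 1 ≤ q) : ∀ n, cA q * ∑ j ∈ Finset.range n, (cA q) ^ j ≤ 2 * (cA q) ^ n := by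
  intro n
  induction n with
  | zero => simp
  | succ n ih =>
    rw [Finset.sum_range_succ, mul_add, pow_succ]
    have := cA_pos q hq
    nlinarith [Nat.zero_le ((cA q) ^ n)]

theorem main_num (hq : 1 ≤ q) (k Δ j0 : ℕ) (h1 : 1 ≤ j0) (hJ : j0 ≤ J)
    (hk : cH q (j0 - 1) ≤ 16 * q * k) (hΔ : cH q (j0 - 1) ≤ 16 * q * Δ) :
    (2 ^ 31 * q ^ 4) ^ 2 * (4 * cA q) ^ J * (cA q) ^ (j0 - 1) ≤
      4 * cA q * (256 * q ^ 2) * (cW q J j0 * (k * Δ)) := by
  rw [← low_term q J (j0 - 1) (by omega), cW_succ q J (j0 - 1) (by omega), show j0 - 1 + 1 = j0 by omega]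
  have := Nat.mul_le_mul hk hΔ
  calc 4 * cA q * cW q J j0 * (cH q (j0 - 1) * cH q (j0 - 1))
      ≤ 4 * cA q * cW q J j0 * (16 * q * k * (16 * q * Δ)) := Nat.mul_le_mul_left _ this
    _ = _ := by ring

theorem low_num (hq : 1 ≤ q) (k Δ j0 : ℕ) (h1 : 1 ≤ j0) (hJ : j0 ≤ J)
    (hk : cH q (j0 - 1) ≤ 16 * q * k) (hΔ : cH q (j0 - 1) ≤ 16 * q * Δ) :
    4 * ∑ j ∈ Finset.range (j0 - 2), cW q J j * (8 * (cH q j * cH q j)) ≤ cW q J j0 * (k * Δ) := by
  have hm := main_num q J hq k Δ j0 h1 hJ hk hΔ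
  have hA := cA_pos q hq
  have e1 : ∑ j ∈ Finset.range (j0 - 2), cW q J j * (8 * (cH q j * cH q j)) =
      8 * ((2 ^ 31 * q ^ 4) ^ 2 * (4 * cA q) ^ J) * ∑ j ∈ Finset.range (j0 - 2), (cA q) ^ j := by
    rw [Finset.mul_sum]
    apply Finset.sum_congr rfl
    intro j hj
    rw [Finset.mem_range] at hj
    have := low_term q J j (by omega)
    linear_combination 8 * this
  have e2 : cA q * cA q * ∑ j ∈ Finset.range (j0 - 2), (cA q) ^ j ≤ 2 * (cA q) ^ (j0 - 1) := by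
    rcases Nat.lt_or_ge j0 2 with h | h
    · rw [show j0 - 2 = 0 by omega]; simp
    · have := geo_sum q hq (j0 - 2)
      calc cA q * cA q * ∑ j ∈ Finset.range (j0 - 2), (cA q) ^ j
          = cA q * (cA q * ∑ j ∈ Finset.range (j0 - 2), (cA q) ^ j) := by ring
        _ ≤ cA q * (2 * (cA q) ^ (j0 - 2)) := Nat.mul_le_mul_left _ this
        _ = 2 * (cA q) ^ (j0 - 1) := by
            rw [show j0 - 1 = (j0 - 2) + 1 by omega, pow_succ]; ring
  obtain ⟨L, hL⟩ : ∃ L, L = ∑ j ∈ Finset.range (j0 - 2), cW q J j * (8 * (cH q j * cH q j)) := ⟨_, rfl⟩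
  rw [← hL] at e1 ⊢
  obtain ⟨X, hX⟩ : ∃ X, X = cW q J j0 * (k * Δ) := ⟨_, rfl⟩
  rw [← hX] at hm ⊢
  have e3 : cA q * cA q * L ≤ 16 * (4 * cA q * (256 * q ^ 2) * X) := by
    calc cA q * cA q * L = 8 * ((2 ^ 31 * q ^ 4) ^ 2 * (4 * cA q) ^ J) * (cA q * cA q * ∑ j ∈ Finset.range (j0 - 2), (cA q) ^ j) := by
          rw [e1]; ring
      _ ≤ 8 * ((2 ^ 31 * q ^ 4) ^ 2 * (4 * cA q) ^ J) * (2 * (cA q) ^ (j0 - 1)) := Nat.mul_le_mul_left _ e2
      _ = 16 * ((2 ^ 31 * q ^ 4) ^ 2 * (4 * cA q) ^ J * (cA q) ^ (j0 - 1)) := by ring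
      _ ≤ _ := Nat.mul_le_mul_left _ hm
  have e4 : (cA q * (2 ^ 14 * q ^ 2)) * (4 * L) ≤ (cA q * (2 ^ 14 * q ^ 2)) * X := by
    have hAe : cA q = 4 * (2 ^ 14 * q ^ 2) := by unfold cA; ring
    calc (cA q * (2 ^ 14 * q ^ 2)) * (4 * L) = cA q * (4 * (2 ^ 14 * q ^ 2)) * L := by ring
      _ = cA q * cA q * L := by rw [← hAe]
      _ ≤ 16 * (4 * cA q * (256 * q ^ 2) * X) := e3
      _ = _ := by ring
  exact Nat.le_of_mul_le_mul_left e4 (by positivity)

theorem M_num (hq : 1 ≤ q) (k Δ j0 : ℕ) (h1 : 1 ≤ j0) (hJ : j0 ≤ J)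
    (hk : cH q (j0 - 1) ≤ 16 * q * k) (hΔ : cH q (j0 - 1) ≤ 16 * q * Δ) :
    16 * cM q J ≤ cW q J j0 * (k * Δ) := by
  have hm := main_num q J hq k Δ j0 h1 hJ hk hΔ
  have hA := cA_pos q hq
  obtain ⟨X, hX⟩ : ∃ X, X = cW q J j0 * (k * Δ) := ⟨_, rfl⟩
  rw [← hX] at hm ⊢
  have e1 : (2 ^ 31 * q ^ 4) ^ 2 * (4 * cA q) ^ J ≤ (2 ^ 31 * q ^ 4) ^ 2 * (4 * cA q) ^ J * (cA q) ^ (j0 - 1) :=
    Nat.le_mul_of_pos_right _ (by positivity)
  have e2 : (2 ^ 26 * q ^ 4) * (16 * cM q J) ≤ (2 ^ 26 * q ^ 4) * X := by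
    calc (2 ^ 26 * q ^ 4) * (16 * cM q J) = (2 ^ 31 * q ^ 4) ^ 2 * (4 * cA q) ^ J := by unfold cM; ring
      _ ≤ 4 * cA q * (256 * q ^ 2) * X := e1.trans hm
      _ = (2 ^ 26 * q ^ 4) * X := by unfold cA; ring
  exact Nat.le_of_mul_le_mul_left e2 (by positivity)

theorem chan_key (hq : 1 ≤ q) (s x k Δ j0 : ℕ) (h1 : 1 ≤ j0) (hJ : j0 ≤ J)
    (hk : cH q (j0 - 1) ≤ 16 * q * k) (hΔ : cH q (j0 - 1) ≤ 16 * q * Δ)
    (hb : ((x : ℤ) + s * cH q j0) / (2 * cH q j0) = (((x + Δ + k : ℕ) : ℤ) + s * cH q j0) / (2 * cH q j0)) :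
    cB q J (j0 % 3) s (x + Δ + k) - cB q J (j0 % 3) s (x + Δ) ≠
      cB q J (j0 % 3) s (x + k) - cB q J (j0 % 3) s x := by
  intro hcon
  have hbd := cB_eq_bound q J hq (j0 % 3) s x (x + Δ) k hcon
  rw [D_eq] at hbd
  have hmem : j0 ∈ (Finset.range (J + 1)).filter (fun j => j % 3 = j0 % 3) := by
    rw [Finset.mem_filter, Finset.mem_range]
    exact ⟨by omega, rfl⟩
  rw [← Finset.add_sum_erase _ _ hmem] at hbd
  have hmain := cD_main q hq s x Δ k j0 hb
  have hrest : |∑ j ∈ ((Finset.range (J + 1)).filter (fun j => j % 3 = j0 % 3)).erase j0,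
      (cW q J j : ℤ) * cD q s x (x + Δ) k j| ≤
      ((∑ j ∈ Finset.Ioc j0 J, cW q J j * (k * Δ) + ∑ j ∈ Finset.range (j0 - 2), cW q J j * (8 * (cH q j * cH q j)) : ℕ) : ℤ) := by
    refine (Finset.abs_sum_le_sum_abs _ _).trans ?_
    have hdisj : Disjoint (Finset.Ioc j0 J) (Finset.range (j0 - 2)) := by
      rw [Finset.disjoint_left]
      intro z hz hz2
      rw [Finset.mem_Ioc] at hz
      rw [Finset.mem_range] at hz2
      omega
    have hsub : ((Finset.range (J + 1)).filter (fun j => j % 3 = j0 % 3)).erase j0 ⊆ Finset.Ioc j0 J ∪ Finset.range (j0 - 2) := by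
      intro z hz
      rw [Finset.mem_erase, Finset.mem_filter, Finset.mem_range] at hz
      rw [Finset.mem_union, Finset.mem_Ioc, Finset.mem_range]
      omega
    calc ∑ j ∈ ((Finset.range (J + 1)).filter (fun j => j % 3 = j0 % 3)).erase j0,
          |(cW q J j : ℤ) * cD q s x (x + Δ) k j|
        ≤ ∑ j ∈ Finset.Ioc j0 J ∪ Finset.range (j0 - 2), |(cW q J j : ℤ) * cD q s x (x + Δ) k j| :=
          Finset.sum_le_sum_of_subset_of_nonneg hsub (fun i _ _ => abs_nonneg _)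
      _ = ∑ j ∈ Finset.Ioc j0 J, |(cW q J j : ℤ) * cD q s x (x + Δ) k j| +
          ∑ j ∈ Finset.range (j0 - 2), |(cW q J j : ℤ) * cD q s x (x + Δ) k j| := Finset.sum_union hdisj
      _ ≤ ∑ j ∈ Finset.Ioc j0 J, (cW q J j : ℤ) * (k * Δ) +
          ∑ j ∈ Finset.range (j0 - 2), (cW q J j : ℤ) * (8 * (cH q j * cH q j)) := by
          apply add_le_add
          · apply Finset.sum_le_sum
            intro j _
            rw [abs_mul, Nat.abs_cast]
            exact mul_le_mul_of_nonneg_left (cD_lip q hq s x Δ k j) (Int.natCast_nonneg _)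
          · apply Finset.sum_le_sum
            intro j _
            rw [abs_mul, Nat.abs_cast]
            exact mul_le_mul_of_nonneg_left (cD_low q hq s x (x + Δ) k j) (Int.natCast_nonneg _)
      _ = _ := by push_cast; ring
  have hU : 3 * ∑ j ∈ Finset.Ioc j0 J, cW q J j * (k * Δ) ≤ cW q J j0 * (k * Δ) := by
    have := upper_sum q J hq j0 (J - j0) (by omega)
    rw [show j0 + (J - j0) = J by omega] at this
    rw [← Finset.sum_mul, ← mul_assoc]
    exact Nat.mul_le_mul_right _ (by omega)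
  have hL := low_num q J hq k Δ j0 h1 hJ hk hΔ
  have hM := M_num q J hq k Δ j0 h1 hJ hk hΔ
  have hMpos := cM_pos q J hq
  obtain ⟨U, hUe⟩ : ∃ U, U = ∑ j ∈ Finset.Ioc j0 J, cW q J j * (k * Δ) := ⟨_, rfl⟩
  obtain ⟨L, hLe⟩ : ∃ L, L = ∑ j ∈ Finset.range (j0 - 2), cW q J j * (8 * (cH q j * cH q j)) := ⟨_, rfl⟩
  rw [← hUe, ← hLe] at hrest
  rw [← hUe] at hU
  rw [← hLe] at hL
  obtain ⟨R, hR⟩ : ∃ R, R = ∑ j ∈ ((Finset.range (J + 1)).filter (fun j => j % 3 = j0 % 3)).erase j0,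
      (cW q J j : ℤ) * cD q s x (x + Δ) k j := ⟨_, rfl⟩
  rw [← hR] at hrest hbd
  have hmain2 : |(cW q J j0 : ℤ) * cD q s x (x + Δ) k j0| = ((cW q J j0 * (k * Δ) : ℕ) : ℤ) := by
    rw [abs_mul, Nat.abs_cast, hmain]; push_cast; ring
  obtain ⟨X, hX⟩ : ∃ X, X = cW q J j0 * (k * Δ) := ⟨_, rfl⟩
  rw [← hX] at hmain2 hU hL hM
  obtain ⟨Y, hY⟩ : ∃ Y, Y = (cW q J j0 : ℤ) * cD q s x (x + Δ) k j0 := ⟨_, rfl⟩
  rw [← hY] at hmain2 hbd
  have htri : |Y| ≤ |Y + R| + |R| := by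
    have := abs_sub (Y + R) R
    rwa [add_sub_cancel_right] at this
  rw [hmain2] at htri
  push_cast at hrest
  omega

end Pool.Agent.Helper35.AR
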