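import Mathlib

/-! Counting argument for words without short Abelian repetitions (free letters). -/

namespace Pool.Agent.Helper35.AR

variable {f : ℕ}

/-- the head event: the newest `φ` letters are a permutation of the `φ` letters at shift `δ` -/
def Ev (C : List (Fin f)) (φ δ : ℕ) : Prop :=
  φ ≤ δ ∧ δ + φ ≤ C.length ∧ (C.take φ).Perm ((C.drop δ).take φ)

/-- newly added letter is fine -/
def Ok (P Φ q : ℕ) (C : List (Fin f)) : Prop :=
  (∀ δ, 1 ≤ δ → δ ≤ P → ¬ Ev C 1 δ) ∧ ∀ φ δ, 2 ≤ φ → φ ≤ Φ → δ < 2 * φ * q → ¬ Ev C φ δ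

/-- all one-letter extensions -/
def Ext (S : Finset (List (Fin f))) : Finset (List (Fin f)) :=
  (S ×ˢ (Finset.univ : Finset (Fin f))).image (fun p => p.2 :: p.1)

theorem card_Ext (S : Finset (List (Fin f))) : (Ext S).card = f * S.card := by
  unfold Ext
  rw [Finset.card_image_of_injective, Finset.card_product, Finset.card_univ, Fintype.card_fin,
    Nat.mul_comm]
  rintro ⟨a, b⟩ ⟨a', b'⟩ h
  simp only [List.cons.injEq] at h
  exact Prod.ext h.2 h.1

theorem mem_Ext {S : Finset (List (Fin f))} {C : List (Fin f)} :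
    C ∈ Ext S ↔ ∃ b c, c ∈ S ∧ C = b :: c := by
  unfold Ext
  simp only [Finset.mem_image, Finset.mem_product, Finset.mem_univ, and_true, Prod.exists]
  constructor
  · rintro ⟨c, b, h1, rfl⟩; exact ⟨b, c, h1, rfl⟩
  · rintro ⟨b, c, h1, rfl⟩; exact ⟨c, b, h1, rfl⟩

open Classical in
/-- good codes of length `n` -/
noncomputable def G (f P Φ q : ℕ) : ℕ → Finset (List (Fin f))
  | 0 => {[]}
  | n + 1 => (Ext (G f P Φ q n)).filter (fun C => Ok P Φ q C)

variable {P Φ q : ℕ}

theorem mem_G_succ {n : ℕ} {C : List (Fin f)} :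
    C ∈ G f P Φ q (n + 1) ↔ C ∈ Ext (G f P Φ q n) ∧ Ok P Φ q C := by
  classical
  show C ∈ (Ext (G f P Φ q n)).filter (fun C => Ok P Φ q C) ↔ _
  rw [Finset.mem_filter]

theorem G_length : ∀ (n : ℕ) (C : List (Fin f)), C ∈ G f P Φ q n → C.length = n := by
  intro n
  induction n with
  | zero =>
    intro C h
    have : C = [] := by simpa [G] using h
    rw [this]; rfl
  | succ n ih =>
    intro C h
    rw [mem_G_succ] at h
    obtain ⟨b, c, h1, rfl⟩ := mem_Ext.mp h.1
    simp [ih c h1]

theorem G_drop : ∀ (k n : ℕ) (C : List (Fin f)), C ∈ G f P Φ q (n + k) → C.drop k ∈ G f P Φ q n := by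
  intro k
  induction k with
  | zero => intro n C h; simpa using h
  | succ k ih =>
    intro n C h
    rw [← Nat.add_assoc, mem_G_succ] at h
    obtain ⟨b, c, h1, rfl⟩ := mem_Ext.mp h.1
    exact ih n c h1

theorem G_ok (n k : ℕ) (C : List (Fin f)) (h : C ∈ G f P Φ q n) (hk : k < n) : Ok P Φ q (C.drop k) := by
  have h2 : C.drop k ∈ G f P Φ q ((n - k - 1) + 1) := by
    apply G_drop
    rwa [show n - k - 1 + 1 + k = n by omega]
  rw [mem_G_succ] at h2
  exact h2.2

open Classical in
/-- the number of words with a given head event -/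
theorem ev_bound (n φ δ l : ℕ) (hl : 1 ≤ l) (hlφ : l ≤ φ) (hn : φ ≤ n + 1) :
    ((Ext (G f P Φ q n)).filter (fun C => Ev C φ δ)).card ≤ l.factorial * (G f P Φ q (n + 1 - l)).card := by
  refine (Finset.card_le_mul_card_image_of_maps_to (f := fun C => C.drop l)
    (t := G f P Φ q (n + 1 - l)) ?_ l.factorial ?_)
  · intro C hC
    rw [Finset.mem_filter] at hC
    obtain ⟨b, c, hc, rfl⟩ := mem_Ext.mp hC.1
    obtain ⟨l', rfl⟩ : ∃ l', l = l' + 1 := ⟨l - 1, by omega⟩
    show c.drop l' ∈ _
    apply G_drop l'
    rw [show n + 1 - (l' + 1) + l' = n by omega]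
    exact hc
  · intro D hD
    rcases Finset.eq_empty_or_nonempty
      (((Ext (G f P Φ q n)).filter (fun C => Ev C φ δ)).filter (fun C => C.drop l = D)) with he | ⟨C0, hC0⟩
    · rw [he]; exact Nat.zero_le _
    · rw [Finset.mem_filter, Finset.mem_filter] at hC0
      obtain ⟨⟨h1, e1, e2, e3⟩, hd0⟩ := hC0
      have hlen0 : C0.length = n + 1 := by
        obtain ⟨b, c, hc, rfl⟩ := mem_Ext.mp h1
        simp [G_length n c hc]
      have hkey : ∀ C, C ∈ ((Ext (G f P Φ q n)).filter (fun C => Ev C φ δ)).filter (fun C => C.drop l = D) →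
          C = C.take l ++ D ∧ (C.take l).Perm (C0.take l) := by
        intro C hC
        rw [Finset.mem_filter, Finset.mem_filter] at hC
        obtain ⟨⟨h1', e1', e2', e3'⟩, hd'⟩ := hC
        have A1 : C = C.take l ++ D := by rw [← hd']; exact (List.take_append_drop l C).symm
        have A0 : C0 = C0.take l ++ D := by rw [← hd0]; exact (List.take_append_drop l C0).symm
        refine ⟨A1, ?_⟩
        have hsp : ∀ X : List (Fin f), X.drop l = D → X.take φ = X.take l ++ D.take (φ - l) := by
          intro X hX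
          conv_lhs => rw [show φ = l + (φ - l) by omega, List.take_add]
          rw [hX]
        have hdr : ∀ X : List (Fin f), X.drop l = D → X.drop δ = D.drop (δ - l) := by
          intro X hX
          rw [← hX, List.drop_drop]
          congr 1; omega
        rw [hsp C hd', hdr C hd'] at e3'
        rw [hsp C0 hd0, hdr C0 hd0] at e3
        have := e3'.trans e3.symm
        exact (List.perm_append_right_iff _).mp this
      calc (((Ext (G f P Φ q n)).filter (fun C => Ev C φ δ)).filter (fun C => C.drop l = D)).card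
          ≤ ((C0.take l).permutations.toFinset).card := by
            apply Finset.card_le_card_of_injOn (fun C => C.take l)
            · intro C hC
              have := (hkey C (by simpa using hC)).2
              simp only [Finset.mem_coe, List.mem_toFinset, List.mem_permutations]
              exact this
            · intro C1 h1 C2 h2 hE
              have a1 := (hkey C1 (by simpa using h1)).1
              have a2 := (hkey C2 (by simpa using h2)).1
              rw [a1, a2]
              have : C1.take l = C2.take l := hE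
              rw [this]
        _ ≤ (C0.take l).permutations.length := List.toFinset_card_le _
        _ = l.factorial := by
            rw [List.length_permutations, List.length_take]
            congr 1
            omega

open Classical in
theorem recursion (l0 : ℕ) (hl0 : 1 ≤ l0) (n : ℕ) :
    f * (G f P Φ q n).card ≤ (G f P Φ q (n + 1)).card + P * (G f P Φ q n).card
      + ∑ φ ∈ Finset.Icc 2 Φ, if φ ≤ n then 2 * φ * q * ((min φ l0).factorial * (G f P Φ q (n + 1 - min φ l0)).card) else 0 := by
  rw [← card_Ext]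
  have hsub : Ext (G f P Φ q n) ⊆ (G f P Φ q (n + 1) ∪
      (Finset.Icc 1 P).biUnion (fun δ => (Ext (G f P Φ q n)).filter (fun C => Ev C 1 δ))) ∪
      (Finset.Icc 2 Φ).biUnion (fun φ => (Finset.range (2 * φ * q)).biUnion
        (fun δ => (Ext (G f P Φ q n)).filter (fun C => Ev C φ δ))) := by
    intro C hC
    by_cases h1 : ∃ δ, 1 ≤ δ ∧ δ ≤ P ∧ Ev C 1 δ
    · obtain ⟨δ, a, b, c⟩ := h1
      refine Finset.mem_union_left _ (Finset.mem_union_right _ ?_)
      rw [Finset.mem_biUnion]
      exact ⟨δ, Finset.mem_Icc.mpr ⟨a, b⟩, Finset.mem_filter.mpr ⟨hC, c⟩⟩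
    · by_cases h2 : ∃ φ δ, 2 ≤ φ ∧ φ ≤ Φ ∧ δ < 2 * φ * q ∧ Ev C φ δ
      · obtain ⟨φ, δ, a, b, c, d⟩ := h2
        refine Finset.mem_union_right _ ?_
        rw [Finset.mem_biUnion]
        refine ⟨φ, Finset.mem_Icc.mpr ⟨a, b⟩, ?_⟩
        rw [Finset.mem_biUnion]
        exact ⟨δ, Finset.mem_range.mpr c, Finset.mem_filter.mpr ⟨hC, d⟩⟩
      · refine Finset.mem_union_left _ (Finset.mem_union_left _ ?_)
        rw [mem_G_succ]
        refine ⟨hC, ?_, ?_⟩
        · intro δ a b c; exact h1 ⟨δ, a, b, c⟩
        · intro φ δ a b c d; exact h2 ⟨φ, δ, a, b, c, d⟩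
  refine (Finset.card_le_card hsub).trans ((Finset.card_union_le _ _).trans ?_)
  refine Nat.add_le_add ((Finset.card_union_le _ _).trans (Nat.add_le_add_left ?_ _)) ?_
  · refine Finset.card_biUnion_le.trans ?_
    calc ∑ δ ∈ Finset.Icc 1 P, ((Ext (G f P Φ q n)).filter (fun C => Ev C 1 δ)).card
        ≤ ∑ δ ∈ Finset.Icc 1 P, (G f P Φ q n).card := by
          apply Finset.sum_le_sum
          intro δ _
          have := ev_bound (f := f) (P := P) (Φ := Φ) (q := q) n 1 δ 1 le_rfl le_rfl (by omega)
          simpa using this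
      _ = P * (G f P Φ q n).card := by
          rw [Finset.sum_const, Nat.card_Icc, smul_eq_mul]; congr 1
  · refine Finset.card_biUnion_le.trans (Finset.sum_le_sum ?_)
    intro φ hφ
    rw [Finset.mem_Icc] at hφ
    split_ifs with hn
    · refine Finset.card_biUnion_le.trans ?_
      calc ∑ δ ∈ Finset.range (2 * φ * q), ((Ext (G f P Φ q n)).filter (fun C => Ev C φ δ)).card
          ≤ ∑ δ ∈ Finset.range (2 * φ * q), (min φ l0).factorial * (G f P Φ q (n + 1 - min φ l0)).card := by
            apply Finset.sum_le_sum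
            intro δ _
            exact ev_bound n φ δ (min φ l0) (by omega) (by omega) (by omega)
        _ = _ := by rw [Finset.sum_const, Finset.card_range, smul_eq_mul]
    · rw [Nat.le_zero, Finset.card_eq_zero]
      apply Finset.eq_empty_of_forall_notMem
      intro C hC
      rw [Finset.mem_biUnion] at hC
      obtain ⟨δ, _, hC⟩ := hC
      rw [Finset.mem_filter] at hC
      obtain ⟨hC, e1, e2, _⟩ := hC
      obtain ⟨b, c, hc, rfl⟩ := mem_Ext.mp hC
      have := G_length n c hc
      simp only [List.length_cons] at e2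
      omega

end Pool.Agent.Helper35.AR
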