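import Pool.Agent.Helper35.ARCnt

/-! Improved counting: the shift is determined up to few choices by an old letter of the block. -/

namespace Pool.Agent.Helper35.AR

variable {f P Φ q : ℕ}

open Classical in
theorem fiber_card (S : Finset (List (Fin f))) (φ δ l : ℕ) (hlφ : l ≤ φ) (D : List (Fin f)) :
    (S.filter (fun C => Ev C φ δ ∧ C.drop l = D)).card ≤ l.factorial := by
  rcases Finset.eq_empty_or_nonempty (S.filter (fun C => Ev C φ δ ∧ C.drop l = D)) with he | ⟨C0, hC0⟩
  · rw [he]; exact Nat.zero_le _
  · rw [Finset.mem_filter] at hC0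
    obtain ⟨h1, ⟨e1, e2, e3⟩, hd0⟩ := hC0
    have hkey : ∀ C, C ∈ S.filter (fun C => Ev C φ δ ∧ C.drop l = D) →
        C = C.take l ++ D ∧ (C.take l).Perm (C0.take l) := by
      intro C hC
      rw [Finset.mem_filter] at hC
      obtain ⟨h1', ⟨e1', e2', e3'⟩, hd'⟩ := hC
      have A1 : C = C.take l ++ D := by rw [← hd']; exact (List.take_append_drop l C).symm
      refine ⟨A1, ?_⟩
      have hsp : ∀ X : List (Fin f), X.drop l = D → X.take φ = X.take l ++ D.take (φ - l) := by
        intro X hX
        conv_lhs => rw [show φ = l + (φ - l) by omega, List.take_add]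
        rw [hX]
      have hdr : ∀ X : List (Fin f), X.drop l = D → X.drop δ = D.drop (δ - l) := by
        intro X hX
        rw [← hX, List.drop_drop]
        congr 1; omega
      rw [hsp C hd', hdr C hd'] at e3'
      rw [hsp C0 hd0, hdr C0 hd0] at e3
      have := e3'.trans e3.symm
      exact (List.perm_append_right_iff _).mp this
    calc (S.filter (fun C => Ev C φ δ ∧ C.drop l = D)).card
        ≤ ((C0.take l).permutations.toFinset).card := by
          apply Finset.card_le_card_of_injOn (fun C => C.take l)
          · intro C hC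
            have := (hkey C (by simpa using hC)).2
            simp only [Finset.mem_coe, List.mem_toFinset, List.mem_permutations]
            exact this
          · intro C1 h1 C2 h2 hE
            have a1 := (hkey C1 (by simpa using h1)).1
            have a2 := (hkey C2 (by simpa using h2)).1
            rw [a1, a2]
            have : C1.take l = C2.take l := hE
            rw [this]
      _ ≤ (C0.take l).permutations.length := List.toFinset_card_le _
      _ = l.factorial := by
          rw [List.length_permutations, List.length_take]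
          congr 1
          omega

/-- equal letters of a good word are far apart -/
theorem G_far (n : ℕ) (D : List (Fin f)) (hD : D ∈ G f P Φ q n) (i j : ℕ) (hij : i < j) (hj : j < n)
    (h : D[i]? = D[j]?) : P + 1 ≤ j - i := by
  by_contra hcon
  have hok := G_ok n i D hD (by omega)
  have hlen := G_length n D hD
  apply hok.1 (j - i) (by omega) (by omega)
  refine ⟨by omega, ?_, ?_⟩
  · rw [List.length_drop]; omega
  · rw [List.drop_drop, show i + (j - i) = j by omega]
    rw [List.getElem?_eq_getElem (by omega), List.getElem?_eq_getElem (by omega), Option.some_inj] at h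
    have a1 : (D.drop i).take 1 = [D[i]] := by
      rw [List.drop_eq_getElem_cons (by omega : i < D.length)]; rfl
    have a2 : (D.drop j).take 1 = [D[j]] := by
      rw [List.drop_eq_getElem_cons (by omega : j < D.length)]; rfl
    rw [a1, a2, h]

theorem occ_card (n K : ℕ) (D : List (Fin f)) (hD : D ∈ G f P Φ q n) (hn : 1 ≤ n) (N : ℕ) (hN : N ≤ (P + 1) * K) :
    ((Finset.range N).filter (fun i => D[i]? = D[0]?)).card ≤ K := by
  have hlen := G_length n D hD
  have hlt : ∀ i, D[i]? = D[0]? → i < n := by
    intro i h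
    rw [List.getElem?_eq_getElem (show 0 < D.length by omega)] at h
    obtain ⟨h1, _⟩ := List.getElem?_eq_some_iff.mp h
    omega
  have key : ∀ i j, i < j → D[i]? = D[0]? → D[j]? = D[0]? → i / (P + 1) < j / (P + 1) := by
    intro i j hij hi hj
    have := G_far n D hD i j hij (hlt j hj) (hi.trans hj.symm)
    have h2 : i + (P + 1) ≤ j := by omega
    calc i / (P + 1) < i / (P + 1) + 1 := Nat.lt_succ_self _
      _ = (i + (P + 1)) / (P + 1) := by rw [Nat.add_div_right _ (by omega)]
      _ ≤ j / (P + 1) := Nat.div_le_div_right h2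
  calc ((Finset.range N).filter (fun i => D[i]? = D[0]?)).card ≤ (Finset.range K).card := by
        apply Finset.card_le_card_of_injOn (fun i => i / (P + 1))
        · intro i hi
          simp only [Finset.coe_filter, Finset.mem_range, Set.mem_ofPred_eq] at hi
          simp only [Finset.coe_range, Set.mem_Iio]
          rw [Nat.div_lt_iff_lt_mul (by omega), Nat.mul_comm]
          omega
        · intro i hi j hj hE
          simp only [Finset.coe_filter, Finset.mem_range, Set.mem_ofPred_eq] at hi hj
          have hE' : i / (P + 1) = j / (P + 1) := hE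
          rcases Nat.lt_trichotomy i j with h | h | h
          · have := key i j h hi.2 hj.2; omega
          · exact h
          · have := key j i h hj.2 hi.2; omega
    _ = K := Finset.card_range K

open Classical in
theorem ev_bound2 (n φ l : ℕ) (hl : 1 ≤ l) (hlφ : l < φ) (hn : φ ≤ n) (hP : 2 * q + 1 ≤ 4 * (P + 1)) :
    ((Ext (G f P Φ q n)).filter (fun C => ∃ δ, δ < 2 * φ * q ∧ Ev C φ δ)).card ≤
      4 * φ ^ 2 * (l.factorial * (G f P Φ q (n + 1 - l)).card) := by
  rw [← Nat.mul_assoc]
  refine (Finset.card_le_mul_card_image_of_maps_to (f := fun C => C.drop l)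
    (t := G f P Φ q (n + 1 - l)) ?_ (4 * φ ^ 2 * l.factorial) ?_)
  · intro C hC
    rw [Finset.mem_filter] at hC
    obtain ⟨b, c, hc, rfl⟩ := mem_Ext.mp hC.1
    obtain ⟨l', rfl⟩ : ∃ l', l = l' + 1 := ⟨l - 1, by omega⟩
    show c.drop l' ∈ _
    apply G_drop l'
    rw [show n + 1 - (l' + 1) + l' = n by omega]
    exact hc
  · intro D hD
    have hsub : ((Ext (G f P Φ q n)).filter (fun C => ∃ δ, δ < 2 * φ * q ∧ Ev C φ δ)).filter (fun C => C.drop l = D) ⊆
        ((((Finset.range (2 * φ * q + φ)).filter (fun i => D[i]? = D[0]?)) ×ˢ Finset.range φ).image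
          (fun p => p.1 + l - p.2)).biUnion
          (fun δ => (Ext (G f P Φ q n)).filter (fun C => Ev C φ δ ∧ C.drop l = D)) := by
      intro C hC
      rw [Finset.mem_filter, Finset.mem_filter] at hC
      obtain ⟨⟨h1, δ, hδ, hev⟩, hd⟩ := hC
      obtain ⟨e1, e2, e3⟩ := hev
      have hlC : l < C.length := by omega
      have hmem : C[l] ∈ C.take φ := by
        rw [List.mem_take_iff_getElem]
        exact ⟨l, by omega, rfl⟩
      have hmem2 := (e3.mem_iff).mp hmem
      rw [List.mem_take_iff_getElem] at hmem2
      obtain ⟨e, he, hee⟩ := hmem2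
      rw [List.length_drop] at he
      rw [List.getElem_drop] at hee
      rw [Finset.mem_biUnion]
      refine ⟨δ, ?_, ?_⟩
      · rw [Finset.mem_image]
        refine ⟨(δ + e - l, e), ?_, ?_⟩
        · rw [Finset.mem_product, Finset.mem_filter, Finset.mem_range, Finset.mem_range]
          refine ⟨⟨by simp only; omega, ?_⟩, by simp only; omega⟩
          simp only
          rw [← hd, List.getElem?_drop, List.getElem?_drop, Nat.add_zero,
            show l + (δ + e - l) = δ + e by omega, List.getElem?_eq_getElem (by omega),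
            List.getElem?_eq_getElem hlC, hee]
        · simp only; omega
      · rw [Finset.mem_filter]
        exact ⟨h1, ⟨e1, e2, e3⟩, hd⟩
    refine (Finset.card_le_card hsub).trans ?_
    refine (Finset.card_biUnion_le_card_mul _ _ l.factorial ?_).trans ?_
    · intro δ _
      exact fiber_card _ φ δ l (by omega) D
    · apply Nat.mul_le_mul_right
      refine Finset.card_image_le.trans ?_
      rw [Finset.card_product, Finset.card_range]
      have := occ_card (n + 1 - l) (4 * φ) D hD (by omega) (2 * φ * q + φ) (by nlinarith)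
      calc _ ≤ 4 * φ * φ := Nat.mul_le_mul_right _ this
        _ = 4 * φ ^ 2 := by ring

open Classical in
theorem recursion2 (l0 : ℕ) (hl0 : 1 ≤ l0) (hP : 2 * q + 1 ≤ 4 * (P + 1)) (n : ℕ) :
    f * (G f P Φ q n).card ≤ (G f P Φ q (n + 1)).card + P * (G f P Φ q n).card
      + ∑ φ ∈ Finset.Icc 2 Φ, if φ ≤ n then 4 * φ ^ 2 * ((min (φ - 1) l0).factorial * (G f P Φ q (n + 1 - min (φ - 1) l0)).card) else 0 := by
  rw [← card_Ext]
  have hsub : Ext (G f P Φ q n) ⊆ (G f P Φ q (n + 1) ∪
      (Finset.Icc 1 P).biUnion (fun δ => (Ext (G f P Φ q n)).filter (fun C => Ev C 1 δ))) ∪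
      (Finset.Icc 2 Φ).biUnion (fun φ => (Ext (G f P Φ q n)).filter (fun C => ∃ δ, δ < 2 * φ * q ∧ Ev C φ δ)) := by
    intro C hC
    by_cases h1 : ∃ δ, 1 ≤ δ ∧ δ ≤ P ∧ Ev C 1 δ
    · obtain ⟨δ, a, b, c⟩ := h1
      refine Finset.mem_union_left _ (Finset.mem_union_right _ ?_)
      rw [Finset.mem_biUnion]
      exact ⟨δ, Finset.mem_Icc.mpr ⟨a, b⟩, Finset.mem_filter.mpr ⟨hC, c⟩⟩
    · by_cases h2 : ∃ φ δ, 2 ≤ φ ∧ φ ≤ Φ ∧ δ < 2 * φ * q ∧ Ev C φ δ
      · obtain ⟨φ, δ, a, b, c, d⟩ := h2
        refine Finset.mem_union_right _ ?_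
        rw [Finset.mem_biUnion]
        exact ⟨φ, Finset.mem_Icc.mpr ⟨a, b⟩, Finset.mem_filter.mpr ⟨hC, δ, c, d⟩⟩
      · refine Finset.mem_union_left _ (Finset.mem_union_left _ ?_)
        rw [mem_G_succ]
        refine ⟨hC, ?_, ?_⟩
        · intro δ a b c; exact h1 ⟨δ, a, b, c⟩
        · intro φ δ a b c d; exact h2 ⟨φ, δ, a, b, c, d⟩
  refine (Finset.card_le_card hsub).trans ((Finset.card_union_le _ _).trans ?_)
  refine Nat.add_le_add ((Finset.card_union_le _ _).trans (Nat.add_le_add_left ?_ _)) ?_
  · refine Finset.card_biUnion_le.trans ?_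
    calc ∑ δ ∈ Finset.Icc 1 P, ((Ext (G f P Φ q n)).filter (fun C => Ev C 1 δ)).card
        ≤ ∑ δ ∈ Finset.Icc 1 P, (G f P Φ q n).card := by
          apply Finset.sum_le_sum
          intro δ _
          have := ev_bound (f := f) (P := P) (Φ := Φ) (q := q) n 1 δ 1 le_rfl le_rfl (by omega)
          simpa using this
      _ = P * (G f P Φ q n).card := by
          rw [Finset.sum_const, Nat.card_Icc, smul_eq_mul]; congr 1
  · refine Finset.card_biUnion_le.trans (Finset.sum_le_sum ?_)
    intro φ hφ
    rw [Finset.mem_Icc] at hφ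
    split_ifs with hn
    · exact ev_bound2 n φ (min (φ - 1) l0) (by omega) (by omega) hn hP
    · rw [Nat.le_zero, Finset.card_eq_zero]
      apply Finset.eq_empty_of_forall_notMem
      intro C hC
      rw [Finset.mem_filter] at hC
      obtain ⟨hC, δ, _, e1, e2, _⟩ := hC
      obtain ⟨b, c, hc, rfl⟩ := mem_Ext.mp hC
      have := G_length n c hc
      simp only [List.length_cons] at e2
      omega

end Pool.Agent.Helper35.AR
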