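import Pool.Agent.Helper35.ARCntB

/-! Growth of the number of good words, improved. -/

namespace Pool.Agent.Helper35.AR

variable (q β l0 : ℕ)

/-- number of good words, real version -/
noncomputable def Ad (n : ℕ) : ℝ := ((G (q - 5 + 2 * β) (q - 5) (2 ^ 31 * q ^ 4) q n).card : ℝ)

/-- weights of events -/
noncomputable def wT (φ : ℕ) : ℝ :=
  4 * (φ : ℝ) ^ 2 * ((min (φ - 1) l0).factorial : ℕ) / (β : ℝ) ^ (min (φ - 1) l0 - 1)

theorem Ad_nonneg (n : ℕ) : 0 ≤ Ad q β n := Nat.cast_nonneg _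

theorem Ad_zero : Ad q β 0 = 1 := by
  unfold Ad
  simp [G]

theorem rec_real2 (hq : 19 ≤ q) (hl0 : 1 ≤ l0) (n : ℕ) :
    2 * (β : ℝ) * Ad q β n ≤ Ad q β (n + 1)
      + ∑ φ ∈ Finset.Icc (2 : ℕ) (2 ^ 31 * q ^ 4), if φ ≤ n then
          4 * (φ : ℝ) ^ 2 * (((min (φ - 1) l0).factorial : ℕ) * Ad q β (n + 1 - min (φ - 1) l0)) else 0 := by
  have h := recursion2 (f := q - 5 + 2 * β) (P := q - 5) (Φ := 2 ^ 31 * q ^ 4) (q := q) l0 hl0 (by omega) n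
  unfold Ad
  have e : ∀ φ : ℕ, (((if φ ≤ n then 4 * φ ^ 2 * ((min (φ - 1) l0).factorial * (G (q - 5 + 2 * β) (q - 5) (2 ^ 31 * q ^ 4) q (n + 1 - min (φ - 1) l0)).card) else 0 : ℕ)) : ℝ)
      = if φ ≤ n then 4 * (φ : ℝ) ^ 2 * (((min (φ - 1) l0).factorial : ℕ) * ((G (q - 5 + 2 * β) (q - 5) (2 ^ 31 * q ^ 4) q (n + 1 - min (φ - 1) l0)).card : ℝ)) else 0 := by
    intro φ
    split_ifs
    · push_cast; ring
    · simp
  have h2 : ∑ φ ∈ Finset.Icc (2 : ℕ) (2 ^ 31 * q ^ 4), (if φ ≤ n then 4 * (φ : ℝ) ^ 2 * (((min (φ - 1) l0).factorial : ℕ) * ((G (q - 5 + 2 * β) (q - 5) (2 ^ 31 * q ^ 4) q (n + 1 - min (φ - 1) l0)).card : ℝ)) else 0)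
    = ((∑ φ ∈ Finset.Icc (2 : ℕ) (2 ^ 31 * q ^ 4), (if φ ≤ n then 4 * φ ^ 2 * ((min (φ - 1) l0).factorial * (G (q - 5 + 2 * β) (q - 5) (2 ^ 31 * q ^ 4) q (n + 1 - min (φ - 1) l0)).card) else 0 : ℕ) : ℕ) : ℝ) := by
    rw [Nat.cast_sum]
    exact Finset.sum_congr rfl (fun φ _ => (e φ).symm)
  rw [h2]
  have h3 := (Nat.cast_le (α := ℝ)).mpr h
  rw [Nat.cast_add, Nat.cast_add, Nat.cast_mul, Nat.cast_mul, Nat.cast_add, Nat.cast_mul] at h3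
  push_cast at h3 ⊢
  linarith

theorem wT_small (hβ : 2 * l0 + 6 ≤ β) : ∀ k, k + 1 ≤ l0 → wT β l0 (k + 2) ≤ 16 * (1 / 2) ^ k := by
  intro k
  induction k with
  | zero =>
    intro h
    unfold wT
    rw [show min (0 + 2 - 1) l0 = 1 by omega]
    norm_num
  | succ k ih =>
    intro h
    have e := ih (by omega)
    have hb : (2 * (k : ℝ) + 10) ≤ β := by
      have : 2 * k + 10 ≤ β := by omega
      exact_mod_cast this
    have hb0 : (0 : ℝ) < β := by have : (0 : ℝ) ≤ k := Nat.cast_nonneg _; linarith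
    have hk0 : (0 : ℝ) ≤ k := Nat.cast_nonneg _
    unfold wT at e ⊢
    rw [show min (k + 2 - 1) l0 = k + 1 by omega, show k + 1 - 1 = k by omega] at e
    rw [show min (k + 1 + 2 - 1) l0 = k + 1 + 1 by omega, show k + 1 + 1 - 1 = k + 1 by omega,
      Nat.factorial_succ (k + 1), pow_succ, pow_succ]
    rw [div_le_iff₀ (by positivity)] at e
    rw [div_le_iff₀ (by positivity)]
    push_cast at e ⊢
    have hf : (0 : ℝ) < ((k + 1).factorial : ℕ) := by exact_mod_cast Nat.factorial_pos _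
    have e2 : 2 * ((k : ℝ) + 3) ^ 2 ≤ (k + 2) * β := by nlinarith
    -- 4 (k+3)^2 (k+2) (k+1)! ≤ 4 (k+2)^2 (k+1)! * β / 2
    obtain ⟨F, hF⟩ : ∃ F : ℝ, F = ((k + 1).factorial : ℕ) := ⟨_, rfl⟩
    rw [← hF] at e hf ⊢
    calc 4 * ((k : ℝ) + 1 + 2) ^ 2 * (((k : ℝ) + 1 + 1) * F)
        = (2 * ((k : ℝ) + 3) ^ 2) * (2 * ((k : ℝ) + 2) * F) := by ring
      _ ≤ (((k : ℝ) + 2) * (β : ℝ)) * (2 * ((k : ℝ) + 2) * F) :=
          mul_le_mul_of_nonneg_right e2 (by positivity)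
      _ = (4 * ((k : ℝ) + 2) ^ 2 * F) * ((β : ℝ) / 2) := by ring
      _ ≤ (16 * (1 / 2) ^ k * (β : ℝ) ^ k) * ((β : ℝ) / 2) := mul_le_mul_of_nonneg_right e (by positivity)
      _ = _ := by ring

theorem wT_large (hl0 : 1 ≤ l0) (hβ : 2 * l0 + 6 ≤ β) (φ : ℕ) (hφ : l0 + 1 ≤ φ) :
    wT β l0 φ ≤ 8 * (φ : ℝ) ^ 2 / 2 ^ l0 := by
  have hb0 : (0 : ℝ) < β := by
    have : 0 < β := by omega
    exact_mod_cast this
  have e := wT_small β l0 hβ (l0 - 1) (by omega)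
  unfold wT at e ⊢
  rw [show min (l0 - 1 + 2 - 1) l0 = l0 by omega] at e
  rw [show min (φ - 1) l0 = l0 by omega]
  have e1 : (16 : ℝ) * (1 / 2) ^ (l0 - 1) = 32 / 2 ^ l0 := by
    obtain ⟨k, rfl⟩ : ∃ k, l0 = k + 1 := ⟨l0 - 1, by omega⟩
    rw [Nat.add_sub_cancel, pow_succ, one_div_pow]
    field_simp
    norm_num
  rw [e1, show ((l0 - 1 + 2 : ℕ) : ℝ) = (l0 : ℝ) + 1 by
    rw [show l0 - 1 + 2 = l0 + 1 by omega]; push_cast; ring] at e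
  have hl : (1 : ℝ) ≤ l0 := by exact_mod_cast hl0
  have hX : 0 ≤ ((l0.factorial : ℕ) : ℝ) / (β : ℝ) ^ (l0 - 1) := by positivity
  obtain ⟨X, hXe⟩ : ∃ X, X = ((l0.factorial : ℕ) : ℝ) / (β : ℝ) ^ (l0 - 1) := ⟨_, rfl⟩
  rw [mul_div_assoc, ← hXe] at e ⊢
  rw [← hXe] at hX
  have e2 : 4 * X ≤ 8 / 2 ^ l0 := by
    have : 16 * X ≤ 4 * ((l0 : ℝ) + 1) ^ 2 * X := by
      apply mul_le_mul_of_nonneg_right _ hX
      nlinarith
    have h3 : 16 * X ≤ 32 / 2 ^ l0 := this.trans e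
    have h4 : (32 : ℝ) / 2 ^ l0 = 4 * (8 / 2 ^ l0) := by ring
    linarith
  calc 4 * (φ : ℝ) ^ 2 * X = (4 * X) * (φ : ℝ) ^ 2 := by ring
    _ ≤ (8 / 2 ^ l0) * (φ : ℝ) ^ 2 := mul_le_mul_of_nonneg_right e2 (by positivity)
    _ = _ := by ring

/-- the weight sum is small -/
theorem wT_sum (hl0 : 1 ≤ l0) (hβ : 2 * l0 + 6 ≤ β) (Φ : ℕ) (hΦ : 8 * Φ ^ 3 ≤ 2 ^ l0) :
    ∑ φ ∈ Finset.Icc (2 : ℕ) Φ, wT β l0 φ ≤ 33 := by
  have hterm : ∀ φ ∈ Finset.Icc (2 : ℕ) Φ, wT β l0 φ ≤ 16 * (1 / 2) ^ (φ - 2) + 8 * (Φ : ℝ) ^ 2 / 2 ^ l0 := by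
    intro φ hφ
    rw [Finset.mem_Icc] at hφ
    rcases Nat.lt_or_ge φ (l0 + 2) with h | h
    · have := wT_small β l0 hβ (φ - 2) (by omega)
      rw [show φ - 2 + 2 = φ by omega] at this
      have h2 : 0 ≤ 8 * (Φ : ℝ) ^ 2 / 2 ^ l0 := by positivity
      linarith
    · have := wT_large β l0 hl0 hβ φ (by omega)
      have h2 : (0 : ℝ) ≤ 16 * (1 / 2) ^ (φ - 2) := by positivity
      have h3 : (φ : ℝ) ≤ Φ := by exact_mod_cast hφ.2
      have h4 : 8 * (φ : ℝ) ^ 2 / 2 ^ l0 ≤ 8 * (Φ : ℝ) ^ 2 / 2 ^ l0 := by gcongr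
      linarith
  refine (Finset.sum_le_sum hterm).trans ?_
  rw [Finset.sum_add_distrib, Finset.sum_const, Nat.card_Icc, nsmul_eq_mul]
  have h1 : ∑ φ ∈ Finset.Icc (2 : ℕ) Φ, 16 * (1 / 2 : ℝ) ^ (φ - 2) ≤ 32 := by
    have hind : ∀ N : ℕ, ∑ φ ∈ Finset.Icc (2 : ℕ) (N + 1), 16 * (1 / 2 : ℝ) ^ (φ - 2) ≤ 32 - 32 * (1 / 2) ^ N := by
      intro N
      induction N with
      | zero => simp
      | succ N ih =>
        rw [Finset.sum_Icc_succ_top (by omega), show N + 1 + 1 - 2 = N by omega, pow_succ]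
        linarith
    rcases Nat.eq_zero_or_pos Φ with h | h
    · subst h; simp
    · have := hind (Φ - 1)
      rw [show Φ - 1 + 1 = Φ by omega] at this
      have h2 : (0 : ℝ) ≤ 32 * (1 / 2) ^ (Φ - 1) := by positivity
      linarith
  have h2 : ((Φ + 1 - 2 : ℕ) : ℝ) * (8 * (Φ : ℝ) ^ 2 / 2 ^ l0) ≤ 1 := by
    have e1 : ((Φ + 1 - 2 : ℕ) : ℝ) ≤ Φ := by
      have : Φ + 1 - 2 ≤ Φ := by omega
      exact_mod_cast this
    have e2 : 8 * (Φ : ℝ) ^ 3 ≤ 2 ^ l0 := by exact_mod_cast hΦ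
    calc ((Φ + 1 - 2 : ℕ) : ℝ) * (8 * (Φ : ℝ) ^ 2 / 2 ^ l0) ≤ (Φ : ℝ) * (8 * (Φ : ℝ) ^ 2 / 2 ^ l0) :=
          mul_le_mul_of_nonneg_right e1 (by positivity)
      _ = 8 * (Φ : ℝ) ^ 3 / 2 ^ l0 := by ring
      _ ≤ 1 := by rw [div_le_one (by positivity)]; exact e2
  linarith

theorem growth2 (hq : 19 ≤ q) (hl0 : 1 ≤ l0) (hβ : 2 * l0 + 6 ≤ β) (hβ3 : 33 ≤ β)
    (hΦ : 8 * (2 ^ 31 * q ^ 4) ^ 3 ≤ 2 ^ l0) : ∀ n, β * Ad q β n ≤ Ad q β (n + 1) := by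
  have hb : (33 : ℝ) ≤ β := by exact_mod_cast hβ3
  have hb0 : (0 : ℝ) < β := by linarith
  intro n
  induction n using Nat.strong_induction_on with
  | _ n ih =>
    have h0 := Ad_nonneg q β n
    have hpow : ∀ k ≤ n, (β : ℝ) ^ k * Ad q β (n - k) ≤ Ad q β n := by
      intro k
      induction k with
      | zero => intro _; simp
      | succ k ihk =>
        intro hk
        have e1 := ihk (by omega)
        have e2 := ih (n - (k + 1)) (by omega)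
        rw [show n - (k + 1) + 1 = n - k by omega] at e2
        have hp : (0 : ℝ) ≤ (β : ℝ) ^ k := by positivity
        calc (β : ℝ) ^ (k + 1) * Ad q β (n - (k + 1))
            = (β : ℝ) ^ k * (β * Ad q β (n - (k + 1))) := by ring
          _ ≤ (β : ℝ) ^ k * Ad q β (n - k) := by
              apply mul_le_mul_of_nonneg_left _ hp
              linarith
          _ ≤ Ad q β n := e1
    have hrec := rec_real2 q β l0 hq hl0 n
    have hsum : ∑ φ ∈ Finset.Icc (2 : ℕ) (2 ^ 31 * q ^ 4), (if φ ≤ n then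
          4 * (φ : ℝ) ^ 2 * (((min (φ - 1) l0).factorial : ℕ) * Ad q β (n + 1 - min (φ - 1) l0)) else 0) ≤
        ∑ φ ∈ Finset.Icc (2 : ℕ) (2 ^ 31 * q ^ 4), wT β l0 φ * Ad q β n := by
      apply Finset.sum_le_sum
      intro φ hφ
      rw [Finset.mem_Icc] at hφ
      unfold wT
      split_ifs with hn
      · have e := hpow (min (φ - 1) l0 - 1) (by omega)
        rw [show n - (min (φ - 1) l0 - 1) = n + 1 - min (φ - 1) l0 by omega] at e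
        have e2 : Ad q β (n + 1 - min (φ - 1) l0) ≤ Ad q β n / (β : ℝ) ^ (min (φ - 1) l0 - 1) := by
          rw [le_div_iff₀ (by positivity)]; linarith
        calc 4 * (φ : ℝ) ^ 2 * (((min (φ - 1) l0).factorial : ℕ) * Ad q β (n + 1 - min (φ - 1) l0))
            = (4 * (φ : ℝ) ^ 2 * ((min (φ - 1) l0).factorial : ℕ)) * Ad q β (n + 1 - min (φ - 1) l0) := by ring
          _ ≤ (4 * (φ : ℝ) ^ 2 * ((min (φ - 1) l0).factorial : ℕ)) * (Ad q β n / (β : ℝ) ^ (min (φ - 1) l0 - 1)) :=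
              mul_le_mul_of_nonneg_left e2 (by positivity)
          _ = _ := by ring
      · positivity
    rw [← Finset.sum_mul] at hsum
    have hw : (∑ φ ∈ Finset.Icc (2 : ℕ) (2 ^ 31 * q ^ 4), wT β l0 φ) * Ad q β n ≤ β * Ad q β n :=
      mul_le_mul_of_nonneg_right ((wT_sum β l0 hl0 hβ _ hΦ).trans hb) h0
    have hfin : 2 * (β : ℝ) * Ad q β n ≤ Ad q β (n + 1) + β * Ad q β n :=
      hrec.trans (by gcongr; exact hsum.trans hw)
    have e : 2 * (β : ℝ) * Ad q β n = β * Ad q β n + β * Ad q β n := by ring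
    rw [e] at hfin
    exact le_of_add_le_add_right hfin

theorem G_nonempty2 (hq : 19 ≤ q) (hl0 : 1 ≤ l0) (hβ : 2 * l0 + 6 ≤ β) (hβ3 : 33 ≤ β)
    (hΦ : 8 * (2 ^ 31 * q ^ 4) ^ 3 ≤ 2 ^ l0) (n : ℕ) :
    (G (q - 5 + 2 * β) (q - 5) (2 ^ 31 * q ^ 4) q n).Nonempty := by
  have hpos : ∀ n, 0 < Ad q β n := by
    intro n
    induction n with
    | zero => rw [Ad_zero]; norm_num
    | succ n ih =>
      have := growth2 q β l0 hq hl0 hβ hβ3 hΦ n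
      have hb : (33 : ℝ) ≤ β := by exact_mod_cast hβ3
      nlinarith
  have := hpos n
  unfold Ad at this
  rw [← Finset.card_pos]
  exact_mod_cast this

end Pool.Agent.Helper35.AR
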