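import Pool.Agent.Helper35.ARAsm
import Pool.Agent.Helper35.ARGrowB

/-! No long or short Abelian repetitions of large exponent. -/

namespace Pool.Agent.Helper35.AR

variable {q f : ℕ}

theorem stagger (h x0 x1 L0 L1 m : ℤ) (hh : 4 * m + 8 ≤ h) (hm : 0 ≤ m)
    (hx : x1 ≤ x0) (hx' : x0 ≤ x1 + 1) (h0 : 0 ≤ L0) (h0' : L0 ≤ m) (h1 : 0 ≤ L1) (h1' : L1 ≤ m)
    (c0 : (x0 + 0 * h) / (2 * h) ≠ (x0 + L0 + 0 * h) / (2 * h))
    (c1 : (x1 + 1 * h) / (2 * h) ≠ (x1 + L1 + 1 * h) / (2 * h)) : False := by
  have hpos : 0 < 2 * h := by linarith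
  obtain ⟨z, hz⟩ : ∃ z, z = (x0 + L0 + 0 * h) / (2 * h) := ⟨_, rfl⟩
  obtain ⟨z', hz'⟩ : ∃ z', z' = (x1 + L1 + 1 * h) / (2 * h) := ⟨_, rfl⟩
  have a1 : z * (2 * h) ≤ x0 + L0 + 0 * h := by rw [hz]; exact Int.ediv_mul_le _ (by omega)
  have a2 : z' * (2 * h) ≤ x1 + L1 + 1 * h := by rw [hz']; exact Int.ediv_mul_le _ (by omega)
  have b1 : x0 + 0 * h < z * (2 * h) := by
    by_contra hcon
    push Not at hcon
    apply c0
    apply le_antisymm
    · exact Int.ediv_le_ediv hpos (by linarith)
    · rw [← hz]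
      exact (Int.le_ediv_iff_mul_le hpos).mpr hcon
  have b2 : x1 + 1 * h < z' * (2 * h) := by
    by_contra hcon
    push Not at hcon
    apply c1
    apply le_antisymm
    · exact Int.ediv_le_ediv hpos (by linarith)
    · rw [← hz']
      exact (Int.le_ediv_iff_mul_le hpos).mpr hcon
  -- compare
  have hh0 : 0 < h := by linarith
  have d1 : (2 * (z' - z) - 1) * h < h := by linarith
  have d2 : -h < (2 * (z' - z) - 1) * h := by linarith
  have e1 : 2 * (z' - z) - 1 < 1 := by
    by_contra hc
    push Not at hc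
    nlinarith
  have e2 : -1 < 2 * (z' - z) - 1 := by
    by_contra hc
    push Not at hc
    nlinarith
  omega

/-- no long repetition -/
theorem no_long (hq : 19 ≤ q) (J : ℕ) (Y : ℕ → Fin f) (a m d : ℕ) (hm : 2 ^ 31 * q ^ 4 ≤ m)
    (hJ : 4 * m + 8 ≤ cH q J) (hmd : m ≤ d) (hd : d ≤ m * (q - 1))
    (hperm : (blk q J Y a m).Perm (blk q J Y (a + d) m)) : False := by
  classical
  have hex : ∃ j, 4 * m + 8 ≤ cH q j := ⟨J, hJ⟩
  obtain ⟨j0, hj0⟩ : ∃ j0, j0 = Nat.find hex := ⟨_, rfl⟩
  have hf := Nat.find_spec hex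
  rw [← hj0] at hf
  have hjJ : j0 ≤ J := by rw [hj0]; exact Nat.find_min' hex hJ
  have hq4 : q ≤ q ^ 4 := Nat.le_self_pow (by norm_num) q
  have hmq : 2 * q ≤ m := by
    have : 2 * q ≤ 2 ^ 31 * q ^ 4 := Nat.mul_le_mul (by norm_num) hq4
    omega
  have h1 : 1 ≤ j0 := by
    rcases Nat.eq_zero_or_pos j0 with h | h
    · rw [h] at hf
      unfold cH at hf
      simp at hf
      omega
    · exact h
  have hprev : cH q (j0 - 1) < 4 * m + 8 := by
    have := Nat.find_min hex (m := j0 - 1) (by omega)
    omega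
  have key : ∀ r, r < 6 → r / 2 = j0 % 3 →
      ((chI q r a : ℤ) + (r % 2 : ℕ) * cH q j0) / (2 * cH q j0) ≠
        (((chI q r (a + d + m) : ℕ) : ℤ) + (r % 2 : ℕ) * cH q j0) / (2 * cH q j0) := by
    intro r hr hr2 hb
    have cL := hperm.countP_eq (isL r)
    rw [count_L hq J Y r hr, count_L hq J Y r hr] at cL
    have cT : ((blk q J Y a m).countP (isLT r) : ℤ) = (blk q J Y (a + d) m).countP (isLT r) := by
      rw [hperm.countP_eq (isLT r)]
    rw [count_LT hq J Y r hr, count_LT hq J Y r hr] at cT
    have m1 := chI_mono (q := q) r (show a ≤ a + m by omega)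
    have m2 := chI_mono (q := q) r (show a ≤ a + d by omega)
    have m3 := chI_mono (q := q) r (show a + d ≤ a + d + m by omega)
    obtain ⟨k, hk⟩ : ∃ k, chI q r (a + m) = chI q r a + k := ⟨_, (Nat.add_sub_of_le m1).symm⟩
    obtain ⟨Δ, hΔ⟩ : ∃ Δ, chI q r (a + d) = chI q r a + Δ := ⟨_, (Nat.add_sub_of_le m2).symm⟩
    have hdk : chI q r (a + d + m) = chI q r a + Δ + k := by omega
    rw [hk, hΔ, hdk, hr2] at cT
    rw [hdk] at hb
    have hqd : q * (m / q) + m % q = m := Nat.div_add_mod m q
    have hqm : m % q < q := Nat.mod_lt _ (by omega)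
    have kb : m / q ≤ k := by
      have := chI_mono (q := q) r (show a + q * (m / q) ≤ a + m by omega)
      rw [chI_add_mul hq] at this
      omega
    have Δb : m / q ≤ Δ := by
      have := chI_mono (q := q) r (show a + q * (m / q) ≤ a + d by omega)
      rw [chI_add_mul hq] at this
      omega
    have big : ∀ t, m / q ≤ t → cH q (j0 - 1) ≤ 16 * q * t := by
      intro t ht
      have : q * (m / q) ≤ q * t := Nat.mul_le_mul_left _ ht
      nlinarith
    exact chan_key q J (by omega) (r % 2) (chI q r a) k Δ j0 h1 hjJ (big k kb) (big Δ Δb) hb cT.symm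
  have hc3 : j0 % 3 < 3 := Nat.mod_lt _ (by norm_num)
  have key0 := key (2 * (j0 % 3)) (by omega) (by omega)
  have key1 := key (2 * (j0 % 3) + 1) (by omega) (by omega)
  rw [show 2 * (j0 % 3) % 2 = 0 by omega] at key0
  rw [show (2 * (j0 % 3) + 1) % 2 = 1 by omega] at key1
  obtain ⟨r, hr⟩ : ∃ r, r = 2 * (j0 % 3) := ⟨_, rfl⟩
  rw [← hr] at key0 key1
  have near := chI_near hq r (by omega) a
  have Lb : ∀ r, chI q r (a + d + m) ≤ chI q r a + m := by
    intro r
    rw [← chI_add_mul hq r a m]
    apply chI_mono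
    have : m * (q - 1) + m = q * m := by
      obtain ⟨p, rfl⟩ : ∃ p, q = p + 1 := ⟨q - 1, by omega⟩
      rw [Nat.add_sub_cancel]; ring
    omega
  have Lb0 := Lb r
  have Lb1 := Lb (r + 1)
  have mo0 := chI_mono (q := q) r (show a ≤ a + d + m by omega)
  have mo1 := chI_mono (q := q) (r + 1) (show a ≤ a + d + m by omega)
  refine stagger (cH q j0) (chI q r a) (chI q (r + 1) a)
    ((chI q r (a + d + m) : ℤ) - chI q r a) ((chI q (r + 1) (a + d + m) : ℤ) - chI q (r + 1) a) m
    (by exact_mod_cast hf) (by omega) (by omega) (by omega) (by omega) (by omega) (by omega) (by omega) ?_ ?_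
  · rw [add_sub_cancel]
    exact_mod_cast key0
  · rw [add_sub_cancel]
    exact_mod_cast key1

/-- the free word avoids short repetitions -/
structure FreeOk (q f N : ℕ) (Y : ℕ → Fin f) : Prop where
  one : ∀ e δ, 1 ≤ δ → δ ≤ q - 5 → e + δ < N → Y e ≠ Y (e + δ)
  big : ∀ e φ δ, 2 ≤ φ → φ ≤ 2 ^ 31 * q ^ 4 → φ ≤ δ → δ < 2 * φ * q → e + δ + φ ≤ N →
    ¬ ((List.range' e φ).map Y).Perm ((List.range' (e + δ) φ).map Y)

theorem no_viol (hq : 19 ≤ q) (J N : ℕ) (Y : ℕ → Fin f) (hY : FreeOk q f N Y) (hJ : 4 * N + 8 ≤ cH q J)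
    (a m d : ℕ) (hm : 1 ≤ m) (hmd : m ≤ d) (hd : d ≤ m * (q - 1)) (hN : a + d + m ≤ N)
    (hperm : (blk q J Y a m).Perm (blk q J Y (a + d) m)) : False := by
  obtain ⟨φ, hφ⟩ : ∃ φ, φ = Fr q (a + m) - Fr q a := ⟨_, rfl⟩
  obtain ⟨δ, hδ⟩ : ∃ δ, δ = Fr q (a + d) - Fr q a := ⟨_, rfl⟩
  have m1 := Fr_mono (q := q) (show a ≤ a + m by omega)
  have m2 := Fr_mono (q := q) (show a ≤ a + d by omega)
  have m3 := Fr_mono (q := q) (show a + m ≤ a + d by omega)
  have m4 := Fr_mono (q := q) (show a + d ≤ a + d + m by omega)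
  have hlow := Fr_lower hq a m
  rw [← hφ] at hlow
  have hfree := hperm.filterMap Sum.getRight?
  rw [free_part, free_part, ← hφ] at hfree
  have hlen := hfree.length_eq
  simp only [List.length_map, List.length_range'] at hlen
  rw [← hlen] at hfree
  have hle := Fr_le (q := q) (a + d + m)
  have hlip := Fr_lip (q := q) a d
  have hqq := Fr_add_q hq a
  have hch : ∀ r, r < 6 → chI q r (a + m) - chI q r a = chI q r (a + d + m) - chI q r (a + d) := by
    intro r hr
    have cL := hperm.countP_eq (isL r)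
    rwa [count_L hq J Y r hr, count_L hq J Y r hr] at cL
  rcases Nat.lt_or_ge (2 ^ 31 * q ^ 4) φ with hbig | hsmall
  · have hφm : φ ≤ m := by have := Fr_lip (q := q) a m; omega
    exact no_long hq J Y a m d (by omega) (by omega) hmd hd hperm
  rcases Nat.lt_or_ge φ 2 with h2 | h2
  · -- tiny
    have hclose : d ≤ q + 1 → φ = 1 → False := by
      intro hdq h1
      have hδ5 : δ ≤ q - 5 := by
        have e1 := Fr_mono (q := q) (show a + d ≤ (a + q) + 1 by omega)
        have e2 := Fr_succ_le (q := q) (a + q)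
        omega
      rw [h1, show Fr q (a + d) = Fr q a + δ by omega] at hfree
      simp only [List.range'_one, List.map_cons, List.map_nil, List.perm_singleton] at hfree
      have := List.singleton_injective hfree
      exact hY.one (Fr q a) δ (by omega) hδ5 (by omega) this
    have hm2 : m ≤ 2 := by omega
    rcases Nat.lt_or_ge m 2 with hm1 | hm1
    · have hm1' : m = 1 := by omega
      subst hm1'
      rcases Nat.lt_or_ge φ 1 with h0 | h0
      · -- channel letter
        have hfr : isFree q a = false := by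
          rw [Fr_succ] at hφ
          rcases hb : isFree q a with _ | _
          · rfl
          · rw [hb] at hφ; simp at hφ; omega
        unfold isFree at hfr
        simp only [Bool.not_eq_false', Bool.and_eq_true, decide_eq_true_eq] at hfr
        obtain ⟨r, hr⟩ : ∃ r, r = a % q / 3 := ⟨_, rfl⟩
        have hr3 : a % q = 3 * r := by omega
        have hr6 : r < 6 := by omega
        have c1 := hch r hr6
        rw [chI_succ hq r hr6, chI_succ hq r hr6, if_pos hr3] at c1
        have c2 : (a + d) % q = 3 * r := by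
          by_contra hcon
          rw [if_neg hcon] at c1
          omega
        have hmod : a ≡ a + d [MOD q] := by rw [Nat.ModEq, hr3, c2]
        have hdvd : q ∣ d := by
          have := (Nat.modEq_iff_dvd' (show a ≤ a + d by omega)).mp hmod
          rwa [Nat.add_sub_cancel_left] at this
        have := Nat.le_of_dvd (by omega) hdvd
        omega
      · exact hclose (by omega) (by omega)
    · have hm2' : m = 2 := by omega
      subst hm2'
      have hφ1 : φ = 1 := by omega
      refine hclose ?_ hφ1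
      by_contra hcon
      push Not at hcon
      -- some channel position among a, a+1
      have hnf : isFree q a = false ∨ isFree q (a + 1) = false := by
        rcases hb : isFree q a with _ | _
        · left; rfl
        · right
          rcases hb1 : isFree q (a + 1) with _ | _
          · rfl
          · exfalso
            rw [show a + 2 = (a + 1) + 1 by ring, Fr_succ, Fr_succ, hb, hb1] at hφ
            simp at hφ
            omega
      obtain ⟨x, hx1, hx2, hxf⟩ : ∃ x, a ≤ x ∧ x < a + 2 ∧ isFree q x = false := by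
        rcases hnf with h | h
        · exact ⟨a, le_rfl, by omega, h⟩
        · exact ⟨a + 1, by omega, by omega, h⟩
      unfold isFree at hxf
      simp only [Bool.not_eq_false', Bool.and_eq_true, decide_eq_true_eq] at hxf
      obtain ⟨r, hr⟩ : ∃ r, r = x % q / 3 := ⟨_, rfl⟩
      have hr3 : x % q = 3 * r := by omega
      have hr6 : r < 6 := by omega
      have c1 := hch r hr6
      have s1 := chI_succ hq r hr6 a
      have s2 := chI_succ hq r hr6 (a + 1)
      have s3 := chI_succ hq r hr6 (a + d)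
      have s4 := chI_succ hq r hr6 (a + d + 1)
      have hx : x = a ∨ x = a + 1 := by omega
      have hpos : 1 ≤ chI q r (a + 2) - chI q r a := by
        rcases hx with h | h
        · rw [h] at hr3; rw [if_pos hr3] at s1
          have : chI q r (a + 1) ≤ chI q r (a + 2) := chI_mono r (by omega)
          omega
        · rw [h] at hr3; rw [if_pos hr3] at s2
          have : chI q r a ≤ chI q r (a + 1) := chI_mono r (by omega)
          have e : chI q r (a + 1 + 1) = chI q r (a + 2) := rfl
          omega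
      obtain ⟨y, hy1, hy2, hy3⟩ : ∃ y, a + d ≤ y ∧ y < a + d + 2 ∧ y % q = 3 * r := by
        by_contra hno
        push Not at hno
        have n1 := hno (a + d) le_rfl (by omega)
        have n2 := hno (a + d + 1) (by omega) (by omega)
        rw [if_neg n1] at s3
        rw [if_neg n2] at s4
        have e : chI q r (a + d + 1 + 1) = chI q r (a + d + 2) := rfl
        omega
      have hmod : x ≡ y [MOD q] := by rw [Nat.ModEq, hr3, hy3]
      obtain ⟨c, hc⟩ : q ∣ y - x := (Nat.modEq_iff_dvd' (show x ≤ y by omega)).mp hmod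
      have hc2 : c < 2 := by
        by_contra hc2
        push Not at hc2
        have : q * 2 ≤ q * c := Nat.mul_le_mul_left _ hc2
        omega
      interval_cases c
      · omega
      · omega
  · -- medium
    have hm2 : m ≤ 2 * φ := by omega
    have hdlt : d < 2 * φ * q := by
      have e1 : m * (q - 1) ≤ 2 * φ * (q - 1) := Nat.mul_le_mul_right _ hm2
      have e2 : 2 * φ * (q - 1) < 2 * φ * q := Nat.mul_lt_mul_of_pos_left (by omega) (by omega)
      omega
    rw [show Fr q (a + d) = Fr q a + δ by omega] at hfree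
    exact hY.big (Fr q a) φ δ h2 hsmall (by omega) (by omega) (by omega) hfree

end Pool.Agent.Helper35.AR
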