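import Pool.Agent.Helper35.ARMain

/-! The free letters: nineteen interleaved periodic words. -/

namespace Pool.Agent.Helper35.AR

/-- period of class `s` -/
def pr (Q s : ℕ) : ℕ := Q + 2 * s % 19

/-- number of class-`s` positions below `y` -/
def cl (s y : ℕ) : ℕ := (y + (18 - s)) / 19

/-- number of indices below `i` congruent to `ρ` modulo `p` -/
def nr (p ρ i : ℕ) : ℕ := (i + (p - 1 - ρ)) / p

theorem cl_succ (s y : ℕ) (hs : s < 19) : cl s (y + 1) = cl s y + if y % 19 = s then 1 else 0 := by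
  unfold cl
  split_ifs <;> omega

theorem cl_at (s y : ℕ) (hs : s < 19) (h : y % 19 = s) : cl s y = y / 19 := by
  unfold cl
  omega

theorem nr_succ (p ρ i : ℕ) (hρ : ρ < p) : nr p ρ (i + 1) = nr p ρ i + if i % p = ρ then 1 else 0 := by
  have h1 := Nat.div_add_mod i p
  have h2 := Nat.mod_lt i (show 0 < p by omega)
  obtain ⟨u, hu⟩ : ∃ u, u = i / p := ⟨_, rfl⟩
  obtain ⟨v, hv⟩ : ∃ v, v = i % p := ⟨_, rfl⟩
  rw [← hu, ← hv] at h1
  rw [← hv] at h2 ⊢
  unfold nr
  rw [← h1, show p * u + v + 1 + (p - 1 - ρ) = (v + 1 + (p - 1 - ρ)) + p * u by ring,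
    show p * u + v + (p - 1 - ρ) = (v + (p - 1 - ρ)) + p * u by ring,
    Nat.add_mul_div_left _ _ (by omega), Nat.add_mul_div_left _ _ (by omega)]
  rcases Nat.lt_trichotomy v ρ with h | h | h
  · rw [if_neg (by omega), Nat.div_eq_of_lt (by omega), Nat.div_eq_of_lt (by omega)]
    rfl
  · rw [if_pos h, Nat.div_eq_of_lt (show v + (p - 1 - ρ) < p by omega),
      show v + 1 + (p - 1 - ρ) = p by omega, Nat.div_self (by omega)]
    ring
  · rw [if_neg (by omega)]
    have e1 : (v + 1 + (p - 1 - ρ)) / p = 1 := by rw [Nat.div_eq_iff (by omega)]; omega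
    have e2 : (v + (p - 1 - ρ)) / p = 1 := by rw [Nat.div_eq_iff (by omega)]; omega
    rw [e1, e2]
    rfl

theorem nr_self (p α x : ℕ) (hp : 1 ≤ p) : nr p (α % p) (α + x) = α / p + (x + (p - 1)) / p := by
  have h1 := Nat.div_add_mod α p
  have h2 := Nat.mod_lt α (show 0 < p by omega)
  unfold nr
  have e : α + x + (p - 1 - α % p) = (x + (p - 1)) + p * (α / p) := by omega
  rw [e, Nat.add_mul_div_left _ _ (show 0 < p by omega), Nat.add_comm]

theorem nr_pred (p α x : ℕ) (hp : 1 ≤ p) :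
    nr p ((α + (p - 1)) % p) (α + x) = (α + (p - 1)) / p + x / p := by
  have h1 := Nat.div_add_mod (α + (p - 1)) p
  have h2 := Nat.mod_lt (α + (p - 1)) (show 0 < p by omega)
  unfold nr
  have e : α + x + (p - 1 - (α + (p - 1)) % p) = x + p * ((α + (p - 1)) / p) := by omega
  rw [e, Nat.add_mul_div_left _ _ (show 0 < p by omega), Nat.add_comm]

/-- two intervals with equal residue counts -/
theorem interval_mod (p φ δ : ℕ) (hp : 1 ≤ p)
    (e1 : (φ + (p - 1)) / p + (δ + (p - 1)) / p = (δ + φ + (p - 1)) / p)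
    (e2 : φ / p + δ / p = (δ + φ) / p) : p ∣ φ ∨ p ∣ δ := by
  by_contra hcon
  push Not at hcon
  obtain ⟨c1, c2⟩ := hcon
  have a1 : 1 ≤ φ % p := by
    rcases Nat.eq_zero_or_pos (φ % p) with h | h
    · exact absurd (Nat.dvd_of_mod_eq_zero h) c1
    · exact h
  have a2 : 1 ≤ δ % p := by
    rcases Nat.eq_zero_or_pos (δ % p) with h | h
    · exact absurd (Nat.dvd_of_mod_eq_zero h) c2
    · exact h
  have b1 := Nat.div_add_mod φ p
  have b2 := Nat.div_add_mod δ p
  have d1 := Nat.mod_lt φ (show 0 < p by omega)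
  have d2 := Nat.mod_lt δ (show 0 < p by omega)
  obtain ⟨A, hA⟩ : ∃ A, A = φ / p := ⟨_, rfl⟩
  obtain ⟨a, ha⟩ : ∃ a, a = φ % p := ⟨_, rfl⟩
  obtain ⟨B, hB⟩ : ∃ B, B = δ / p := ⟨_, rfl⟩
  obtain ⟨b, hb⟩ : ∃ b, b = δ % p := ⟨_, rfl⟩
  rw [← ha] at a1 d1
  rw [← hb] at a2 d2
  rw [← hA, ← ha] at b1
  rw [← hB, ← hb] at b2
  rw [← hA, ← hB] at e2
  have g1 : (φ + (p - 1)) / p = A + 1 := by
    rw [← b1, show p * A + a + (p - 1) = (a + (p - 1)) + p * A by ring, Nat.add_mul_div_left _ _ (by omega)]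
    have : (a + (p - 1)) / p = 1 := by rw [Nat.div_eq_iff (by omega)]; omega
    rw [this]; ring
  have g2 : (δ + (p - 1)) / p = B + 1 := by
    rw [← b2, show p * B + b + (p - 1) = (b + (p - 1)) + p * B by ring, Nat.add_mul_div_left _ _ (by omega)]
    have : (b + (p - 1)) / p = 1 := by rw [Nat.div_eq_iff (by omega)]; omega
    rw [this]; ring
  have g3 : (δ + φ) / p = A + B + (a + b) / p := by
    rw [← b1, ← b2, show p * B + b + (p * A + a) = (a + b) + p * (A + B) by ring, Nat.add_mul_div_left _ _ (by omega)]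
    ring
  have g4 : (δ + φ + (p - 1)) / p = A + B + (a + b + (p - 1)) / p := by
    rw [← b1, ← b2, show p * B + b + (p * A + a) + (p - 1) = (a + b + (p - 1)) + p * (A + B) by ring,
      Nat.add_mul_div_left _ _ (by omega)]
    ring
  rw [g3] at e2
  rw [g1, g2, g4] at e1
  have f1 : (a + b) / p = 0 := by omega
  have f2 : (a + b + (p - 1)) / p = 2 := by omega
  have f3 : a + b < p := by
    by_contra hc
    push Not at hc
    have := Nat.div_pos hc (by omega)
    omega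
  have f4 : 2 * p ≤ a + b + (p - 1) := by
    have := Nat.div_mul_le_self (a + b + (p - 1)) p
    rw [f2] at this
    exact this
  omega

/-- letters of the free word -/
abbrev Lt (Q : ℕ) : Type := Σ s : Fin 19, Fin (pr Q s.val)

theorem card_Lt (Q : ℕ) : Fintype.card (Lt Q) = 19 * Q + 171 := by
  unfold Lt pr
  rw [Fintype.card_sigma]
  simp only [Fintype.card_fin]
  rw [Finset.sum_add_distrib, Finset.sum_const, Finset.card_univ, Fintype.card_fin, smul_eq_mul]
  congr 1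

/-- the free word -/
def Yw (Q : ℕ) (hQ : 1 ≤ Q) (x : ℕ) : Lt Q :=
  ⟨⟨x % 19, Nat.mod_lt _ (by norm_num)⟩, ⟨(x / 19) % pr Q (x % 19), Nat.mod_lt _ (by unfold pr; omega)⟩⟩

/-- class test -/
def isC (Q s : ℕ) (z : Lt Q) : Bool := decide (z.1.val = s)

/-- letter test -/
def isR (Q s ρ : ℕ) (z : Lt Q) : Bool := decide (z.1.val = s) && decide (z.2.val = ρ)

/-- block of the free word -/
def yb (Q : ℕ) (hQ : 1 ≤ Q) (a m : ℕ) : List (Lt Q) := (List.range' a m).map (Yw Q hQ)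

theorem yb_append (Q : ℕ) (hQ : 1 ≤ Q) (a m n : ℕ) : yb Q hQ a (m + n) = yb Q hQ a m ++ yb Q hQ (a + m) n := by
  unfold yb
  rw [← List.map_append, List.range'_append_1]

theorem count_C (Q : ℕ) (hQ : 1 ≤ Q) (s : ℕ) (hs : s < 19) (a : ℕ) : ∀ m,
    (yb Q hQ a m).countP (isC Q s) + cl s a = cl s (a + m) := by
  intro m
  induction m with
  | zero => simp [yb]
  | succ m ih =>
    rw [yb_append, List.countP_append, ← Nat.add_assoc, cl_succ s _ hs, ← ih]
    have : (yb Q hQ (a + m) 1).countP (isC Q s) = if (a + m) % 19 = s then 1 else 0 := by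
      unfold yb
      by_cases h : (a + m) % 19 = s
      · simp [isC, Yw, h]
      · simp [isC, Yw, h]
    rw [this]
    ring

theorem count_R (Q : ℕ) (hQ : 1 ≤ Q) (s ρ : ℕ) (hs : s < 19) (hρ : ρ < pr Q s) (a : ℕ) : ∀ m,
    (yb Q hQ a m).countP (isR Q s ρ) + nr (pr Q s) ρ (cl s a) = nr (pr Q s) ρ (cl s (a + m)) := by
  intro m
  induction m with
  | zero => simp [yb]
  | succ m ih =>
    rw [yb_append, List.countP_append, ← Nat.add_assoc, cl_succ s _ hs]
    by_cases h : (a + m) % 19 = s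
    · rw [if_pos h, nr_succ _ _ _ hρ, ← ih, cl_at s (a + m) hs h]
      have : (yb Q hQ (a + m) 1).countP (isR Q s ρ) = if (a + m) / 19 % pr Q s = ρ then 1 else 0 := by
        unfold yb
        by_cases h2 : (a + m) / 19 % pr Q s = ρ
        · simp [isR, Yw, h, h2]
        · simp [isR, Yw, h, h2]
      rw [this]
      ring
    · rw [if_neg h, Nat.add_zero, ← ih]
      have : (yb Q hQ (a + m) 1).countP (isR Q s ρ) = 0 := by
        unfold yb
        simp [isR, Yw, h]
      rw [this]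
      ring

/-- Abelian equivalence forces divisibility in every class -/
theorem class_dvd (Q : ℕ) (hQ : 1 ≤ Q) (s : ℕ) (hs : s < 19) (e φ δ : ℕ)
    (hp : (yb Q hQ e φ).Perm (yb Q hQ (e + δ) φ)) :
    (pr Q s ∣ cl s (e + φ) - cl s e) ∨ (pr Q s ∣ cl s (e + δ) - cl s e) := by
  have hpr : 1 ≤ pr Q s := by unfold pr; omega
  have c1 := hp.countP_eq (isC Q s)
  have k1 := count_C Q hQ s hs e φ
  have k2 := count_C Q hQ s hs (e + δ) φ
  have hmono : cl s e ≤ cl s (e + δ) := by unfold cl; omega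
  obtain ⟨α, hα⟩ : ∃ α, α = cl s e := ⟨_, rfl⟩
  obtain ⟨F, hF⟩ : ∃ F, F = cl s (e + φ) - cl s e := ⟨_, rfl⟩
  obtain ⟨D, hD⟩ : ∃ D, D = cl s (e + δ) - cl s e := ⟨_, rfl⟩
  have x1 : cl s (e + φ) = α + F := by omega
  have x2 : cl s (e + δ) = α + D := by omega
  have x3 : cl s (e + δ + φ) = α + (D + F) := by omega
  rw [← hF, ← hD]
  have key : ∀ ρ, ρ < pr Q s → nr (pr Q s) ρ (α + F) + nr (pr Q s) ρ (α + D) =
      nr (pr Q s) ρ (α + (D + F)) + nr (pr Q s) ρ (α + 0) := by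
    intro ρ hρ
    have d1 := hp.countP_eq (isR Q s ρ)
    have l1 := count_R Q hQ s ρ hs hρ e φ
    have l2 := count_R Q hQ s ρ hs hρ (e + δ) φ
    rw [x1, ← hα] at l1
    rw [x2, x3] at l2
    rw [Nat.add_zero]
    omega
  have q1 := key (α % pr Q s) (Nat.mod_lt _ (by omega))
  rw [nr_self _ _ _ hpr, nr_self _ _ _ hpr, nr_self _ _ _ hpr, nr_self _ _ _ hpr] at q1
  have q2 := key ((α + (pr Q s - 1)) % pr Q s) (Nat.mod_lt _ (by omega))
  rw [nr_pred _ _ _ hpr, nr_pred _ _ _ hpr, nr_pred _ _ _ hpr, nr_pred _ _ _ hpr] at q2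
  have z1 : (0 + (pr Q s - 1)) / pr Q s = 0 := Nat.div_eq_of_lt (by omega)
  have z2 : 0 / pr Q s = 0 := Nat.zero_div _
  rw [z1] at q1
  rw [z2] at q2
  exact interval_mod (pr Q s) F D hpr (by omega) (by omega)

end Pool.Agent.Helper35.AR
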