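import Pool.Agent.Helper35.ARPer

/-! The interleaved periodic word has no short Abelian repetition of large exponent. -/

namespace Pool.Agent.Helper35.AR

theorem gcd_prod_dvd (X : Finset ℕ) (a : ℕ → ℕ) (b : ℕ) :
    Nat.gcd b (∏ s ∈ X, a s) ∣ ∏ s ∈ X, Nat.gcd b (a s) := by
  classical
  induction X using Finset.induction_on with
  | empty => simp
  | insert t X ht ih =>
    rw [Finset.prod_insert ht, Finset.prod_insert ht]
    exact (Nat.gcd_mul_right_dvd_mul_gcd _ _ _).trans (Nat.mul_dvd_mul_left _ ih)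

theorem gcd_pr (Q s t : ℕ) (hs : s < 19) (ht : t < 19) (hst : s ≠ t) :
    Nat.gcd (pr Q t) (pr Q s) ≤ 18 := by
  have h1 := Nat.gcd_dvd_left (pr Q t) (pr Q s)
  have h2 := Nat.gcd_dvd_right (pr Q t) (pr Q s)
  unfold pr at h1 h2 ⊢
  rcases Nat.lt_or_ge (2 * s % 19) (2 * t % 19) with h | h
  · have h3 := Nat.dvd_sub h1 h2
    have := Nat.le_of_dvd (by omega) h3
    omega
  · have h3 := Nat.dvd_sub h2 h1
    have := Nat.le_of_dvd (by omega) h3
    omega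

theorem prod_bound (Q M : ℕ) (X : Finset ℕ) (hX : ∀ s ∈ X, s < 19) (hM : ∀ s ∈ X, pr Q s ∣ M) :
    ∃ G, 0 < G ∧ G ≤ 18 ^ (X.card ^ 2) ∧ (∏ s ∈ X, pr Q s) ∣ M * G := by
  classical
  induction X using Finset.induction_on with
  | empty => exact ⟨1, by norm_num, by simp, by simp⟩
  | insert t X ht ih =>
    obtain ⟨G, hG0, hG, hd⟩ := ih (fun s hs => hX s (Finset.mem_insert_of_mem hs))
      (fun s hs => hM s (Finset.mem_insert_of_mem hs))
    obtain ⟨A, hA⟩ : ∃ A, A = ∏ s ∈ X, pr Q s := ⟨_, rfl⟩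
    rw [← hA] at hd
    have htM := hM t (Finset.mem_insert_self t X)
    have ht19 := hX t (Finset.mem_insert_self t X)
    rcases Nat.eq_zero_or_pos (Nat.gcd (pr Q t) A) with h0 | hpos
    · rw [Nat.gcd_eq_zero_iff] at h0
      refine ⟨1, by norm_num, Nat.one_le_pow _ _ (by norm_num), ?_⟩
      rw [Finset.prod_insert ht, h0.1, Nat.zero_mul, mul_one]
      rw [h0.1] at htM
      exact htM
    · refine ⟨G * Nat.gcd (pr Q t) A, Nat.mul_pos hG0 hpos, ?_, ?_⟩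
      · have hle : Nat.gcd (pr Q t) A ≤ 18 ^ X.card := by
          have h1 : Nat.gcd (pr Q t) A ∣ ∏ s ∈ X, Nat.gcd (pr Q t) (pr Q s) := by
            rw [hA]; exact gcd_prod_dvd X (pr Q) (pr Q t)
          rcases Nat.eq_zero_or_pos (∏ s ∈ X, Nat.gcd (pr Q t) (pr Q s)) with hz | hz
          · rw [Finset.prod_eq_zero_iff] at hz
            obtain ⟨s, hs, hz⟩ := hz
            rw [Nat.gcd_eq_zero_iff] at hz
            have : A = 0 := by rw [hA]; exact Finset.prod_eq_zero hs hz.2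
            rw [hz.1, this] at hpos
            simp at hpos
          · refine (Nat.le_of_dvd hz h1).trans ?_
            calc ∏ s ∈ X, Nat.gcd (pr Q t) (pr Q s) ≤ ∏ _s ∈ X, 18 := by
                  apply Finset.prod_le_prod' 
                  intro s hs
                  exact gcd_pr Q s t (hX s (Finset.mem_insert_of_mem hs)) ht19 (fun h => ht (h ▸ hs))
              _ = 18 ^ X.card := Finset.prod_const _
        rw [Finset.card_insert_of_notMem ht]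
        calc G * Nat.gcd (pr Q t) A ≤ 18 ^ (X.card ^ 2) * 18 ^ X.card := Nat.mul_le_mul hG hle
          _ = 18 ^ (X.card ^ 2 + X.card) := by rw [pow_add]
          _ ≤ 18 ^ ((X.card + 1) ^ 2) := Nat.pow_le_pow_right (by norm_num) (by nlinarith)
      · rw [Finset.prod_insert ht, ← hA, ← Nat.gcd_mul_lcm (pr Q t) A]
        have hl : Nat.lcm (pr Q t) A ∣ M * G := Nat.lcm_dvd (htM.trans (Nat.dvd_mul_right _ _)) hd
        calc Nat.gcd (pr Q t) A * Nat.lcm (pr Q t) A ∣ Nat.gcd (pr Q t) A * (M * G) := Nat.mul_dvd_mul_left _ hl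
          _ = M * (G * Nat.gcd (pr Q t) A) := by ring

theorem lcm_bound (Q M k : ℕ) (hM0 : 0 < M) (X : Finset ℕ) (hX : ∀ s ∈ X, s < 19) (hM : ∀ s ∈ X, pr Q s ∣ M)
    (hk : k ≤ X.card) : Q ^ k ≤ M * 18 ^ (k ^ 2) := by
  obtain ⟨T, hT, hTk⟩ := Finset.exists_subset_card_eq hk
  obtain ⟨G, hG0, hG, hd⟩ := prod_bound Q M T (fun s hs => hX s (hT hs)) (fun s hs => hM s (hT hs))
  rw [hTk] at hG
  calc Q ^ k = ∏ _s ∈ T, Q := by rw [Finset.prod_const, hTk]
    _ ≤ ∏ s ∈ T, pr Q s := by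
        apply Finset.prod_le_prod'
        intro s _
        unfold pr
        omega
    _ ≤ M * G := Nat.le_of_dvd (Nat.mul_pos hM0 hG0) hd
    _ ≤ M * 18 ^ (k ^ 2) := Nat.mul_le_mul_left _ hG

/-- few letters -/
theorem per_few (Q : ℕ) (hQ : 1000 ≤ Q) (hQ1 : 1 ≤ Q) (e φ δ : ℕ) (h2 : 2 ≤ φ) (h19 : φ < 19) (hφδ : φ ≤ δ)
    (hδ : δ < 2 * φ * (19 * Q + 4)) (hp : (yb Q hQ1 e φ).Perm (yb Q hQ1 (e + δ) φ)) : False := by
  have k1 := class_dvd Q hQ1 (e % 19) (Nat.mod_lt _ (by norm_num)) e φ δ hp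
  have k2 := class_dvd Q hQ1 ((e + 1) % 19) (Nat.mod_lt _ (by norm_num)) e φ δ hp
  have a1 : cl (e % 19) (e + φ) - cl (e % 19) e = 1 := by unfold cl; omega
  have a2 : cl ((e + 1) % 19) (e + φ) - cl ((e + 1) % 19) e = 1 := by unfold cl; omega
  rw [a1] at k1
  rw [a2] at k2
  have n1 : ∀ s, ¬ pr Q s ∣ 1 := by
    intro s h
    have := Nat.le_of_dvd (by norm_num) h
    unfold pr at this
    omega
  obtain ⟨u, hu⟩ := k1.resolve_left (n1 _)
  obtain ⟨v, hv⟩ := k2.resolve_left (n1 _)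
  have hδ2 : δ < 36 * (19 * Q + 4) := by
    have : 2 * φ * (19 * Q + 4) ≤ 36 * (19 * Q + 4) := Nat.mul_le_mul_right _ (by omega)
    omega
  have b1 : cl (e % 19) (e + δ) - cl (e % 19) e ≤ δ / 19 + 1 := by unfold cl; omega
  have b2 : cl ((e + 1) % 19) (e + δ) - cl ((e + 1) % 19) e ≤ δ / 19 + 1 := by unfold cl; omega
  have b3 : δ / 19 ≤ cl (e % 19) (e + δ) - cl (e % 19) e := by unfold cl; omega
  have b4 : δ / 19 ≤ cl ((e + 1) % 19) (e + δ) - cl ((e + 1) % 19) e := by unfold cl; omega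
  have b5 : 1 ≤ cl (e % 19) (e + δ) - cl (e % 19) e := by unfold cl at a1 ⊢; omega
  have b6 : 1 ≤ cl ((e + 1) % 19) (e + δ) - cl ((e + 1) % 19) e := by unfold cl at a2 ⊢; omega
  rw [hu] at b1 b3 b5
  rw [hv] at b2 b4 b6
  unfold pr at b1 b2 b3 b4 b5 b6
  obtain ⟨a, ha⟩ : ∃ a, a = 2 * (e % 19) % 19 := ⟨_, rfl⟩
  obtain ⟨b, hb⟩ : ∃ b, b = 2 * ((e + 1) % 19) % 19 := ⟨_, rfl⟩
  have hab : a + 2 ≤ b ∨ b + 2 ≤ a := by omega
  have ha18 : a ≤ 18 := by omega
  have hb18 : b ≤ 18 := by omega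
  rw [← ha] at b1 b3 b5
  rw [← hb] at b2 b4 b6
  have hD : δ / 19 + 1 ≤ 36 * Q + 10 := by omega
  have hu36 : u ≤ 36 := by
    by_contra hc
    push Not at hc
    have : (Q + a) * 37 ≤ (Q + a) * u := Nat.mul_le_mul_left _ hc
    omega
  have hv36 : v ≤ 36 := by
    by_contra hc
    push Not at hc
    have : (Q + b) * 37 ≤ (Q + b) * v := Nat.mul_le_mul_left _ hc
    omega
  have hu1 : 1 ≤ u := by
    rcases Nat.eq_zero_or_pos u with h | h
    · rw [h] at b5; omega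
    · exact h
  have hv1 : 1 ≤ v := by
    rcases Nat.eq_zero_or_pos v with h | h
    · rw [h] at b6; omega
    · exact h
  have hua : a * u ≤ 18 * 36 := Nat.mul_le_mul ha18 hu36
  have hvb : b * v ≤ 18 * 36 := Nat.mul_le_mul hb18 hv36
  rcases Nat.lt_trichotomy u v with h | h | h
  · have : Q * (u + 1) ≤ Q * v := Nat.mul_le_mul_left _ h
    nlinarith
  · subst h
    rcases hab with h | h
    · have : (a + 2) * u ≤ b * u := Nat.mul_le_mul_right _ h
      nlinarith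
    · have : (b + 2) * u ≤ a * u := Nat.mul_le_mul_right _ h
      nlinarith
  · have : Q * (v + 1) ≤ Q * u := Nat.mul_le_mul_left _ h
    nlinarith

/-- many letters -/
theorem per_many (Q : ℕ) (hQ : 2 ^ 33 * 20 ^ 5 * 18 ^ 36 ≤ Q) (hQ1 : 1 ≤ Q) (e φ δ : ℕ) (h19 : 19 ≤ φ)
    (hφ : φ ≤ 2 ^ 31 * (19 * Q + 4) ^ 4) (hφδ : φ ≤ δ)
    (hδ : δ < 2 * φ * (19 * Q + 4)) (hp : (yb Q hQ1 e φ).Perm (yb Q hQ1 (e + δ) φ)) : False := by
  classical
  have hQ4 : 4 ≤ Q := le_trans (by norm_num) hQ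
  have hq20 : 19 * Q + 4 ≤ 20 * Q := by omega
  have hφ2 : φ ≤ 2 ^ 31 * (20 * Q) ^ 4 :=
    hφ.trans (Nat.mul_le_mul_left _ (Nat.pow_le_pow_left hq20 4))
  have hδ2 : δ ≤ 2 * (2 ^ 31 * (20 * Q) ^ 4) * (20 * Q) := by
    refine hδ.le.trans ?_
    exact Nat.mul_le_mul (Nat.mul_le_mul_left _ hφ2) hq20
  have hcover : Finset.range 19 ⊆ ((Finset.range 19).filter (fun s => pr Q s ∣ φ / 19)) ∪
      ((Finset.range 19).filter (fun s => pr Q s ∣ φ / 19 + 1)) ∪
      (((Finset.range 19).filter (fun s => pr Q s ∣ δ / 19)) ∪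
      ((Finset.range 19).filter (fun s => pr Q s ∣ δ / 19 + 1))) := by
    intro s hs
    have hs19 := Finset.mem_range.mp hs
    simp only [Finset.mem_union, Finset.mem_filter, hs, true_and]
    have k := class_dvd Q hQ1 s hs19 e φ δ hp
    have c1 : cl s (e + φ) - cl s e = φ / 19 ∨ cl s (e + φ) - cl s e = φ / 19 + 1 := by unfold cl; omega
    have c2 : cl s (e + δ) - cl s e = δ / 19 ∨ cl s (e + δ) - cl s e = δ / 19 + 1 := by unfold cl; omega
    rcases k with k | k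
    · left
      rcases c1 with c | c
      · left; rw [← c]; exact k
      · right; rw [← c]; exact k
    · right
      rcases c2 with c | c
      · left; rw [← c]; exact k
      · right; rw [← c]; exact k
  have hcard := Finset.card_le_card hcover
  rw [Finset.card_range] at hcard
  have hc2 := hcard.trans ((Finset.card_union_le _ _).trans
    (Nat.add_le_add (Finset.card_union_le _ _) (Finset.card_union_le _ _)))
  have hsmall : ∀ M, 0 < M → M ≤ φ → ((Finset.range 19).filter (fun s => pr Q s ∣ M)).card < 5 := by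
    intro M hM0 hM
    by_contra hcon
    push Not at hcon
    have := lcm_bound Q M 5 hM0 _ (fun s hs => Finset.mem_range.mp (Finset.mem_filter.mp hs).1)
      (fun s hs => (Finset.mem_filter.mp hs).2) hcon
    have h5 : Q ^ 4 * Q ≤ Q ^ 4 * (2 ^ 31 * 20 ^ 4 * 18 ^ 25) := by
      calc Q ^ 4 * Q = Q ^ 5 := by ring
        _ ≤ M * 18 ^ (5 ^ 2) := this
        _ ≤ (2 ^ 31 * (20 * Q) ^ 4) * 18 ^ (5 ^ 2) := Nat.mul_le_mul_right _ (hM.trans hφ2)
        _ = Q ^ 4 * (2 ^ 31 * 20 ^ 4 * 18 ^ 25) := by ring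
    have h6 := Nat.le_of_mul_le_mul_left h5 (by positivity)
    have h7 : 2 ^ 31 * 20 ^ 4 * 18 ^ 25 < 2 ^ 33 * 20 ^ 5 * 18 ^ 36 := by norm_num
    omega
  have hlarge : ∀ M, 0 < M → M ≤ δ → ((Finset.range 19).filter (fun s => pr Q s ∣ M)).card < 6 := by
    intro M hM0 hM
    by_contra hcon
    push Not at hcon
    have := lcm_bound Q M 6 hM0 _ (fun s hs => Finset.mem_range.mp (Finset.mem_filter.mp hs).1)
      (fun s hs => (Finset.mem_filter.mp hs).2) hcon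
    have h5 : Q ^ 5 * Q ≤ Q ^ 5 * (2 ^ 32 * 20 ^ 5 * 18 ^ 36) := by
      calc Q ^ 5 * Q = Q ^ 6 := by ring
        _ ≤ M * 18 ^ (6 ^ 2) := this
        _ ≤ (2 * (2 ^ 31 * (20 * Q) ^ 4) * (20 * Q)) * 18 ^ (6 ^ 2) := Nat.mul_le_mul_right _ (hM.trans hδ2)
        _ = Q ^ 5 * (2 ^ 32 * 20 ^ 5 * 18 ^ 36) := by ring
    have h6 := Nat.le_of_mul_le_mul_left h5 (by positivity)
    have h7 : 2 ^ 32 * 20 ^ 5 * 18 ^ 36 < 2 ^ 33 * 20 ^ 5 * 18 ^ 36 := by norm_num
    omega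
  have s1 := hsmall (φ / 19) (by omega) (by omega)
  have s2 := hsmall (φ / 19 + 1) (by omega) (by omega)
  have s3 := hlarge (δ / 19) (by omega) (by omega)
  have s4 := hlarge (δ / 19 + 1) (by omega) (by omega)
  omega

/-- single letters recur late -/
theorem per_one (Q : ℕ) (hQ1 : 1 ≤ Q) (e δ : ℕ) (h1 : 1 ≤ δ) (h2 : δ < 19 * Q) :
    Yw Q hQ1 e ≠ Yw Q hQ1 (e + δ) := by
  intro h
  have hc1 : e % 19 = (e + δ) % 19 := by
    have := congrArg (fun z : Lt Q => z.1.val) h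
    simpa [Yw] using this
  have hc2 : (e / 19) % pr Q (e % 19) = ((e + δ) / 19) % pr Q ((e + δ) % 19) := by
    have := congrArg (fun z : Lt Q => z.2.val) h
    simpa [Yw] using this
  rw [← hc1] at hc2
  have hmod : e / 19 ≡ (e + δ) / 19 [MOD pr Q (e % 19)] := hc2
  have hdvd := (Nat.modEq_iff_dvd' (show e / 19 ≤ (e + δ) / 19 by omega)).mp hmod
  have hpos : 0 < (e + δ) / 19 - e / 19 := by omega
  have := Nat.le_of_dvd hpos hdvd
  unfold pr at this
  omega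

theorem exists_free_per (Q N : ℕ) (hQ : 2 ^ 33 * 20 ^ 5 * 18 ^ 36 ≤ Q) :
    ∃ Y : ℕ → Fin (19 * Q + 171), FreeOk (19 * Q + 4) (19 * Q + 171) N Y := by
  have hQ1 : 1 ≤ Q := le_trans (by norm_num) hQ
  have hQ1000 : 1000 ≤ Q := le_trans (by norm_num) hQ
  obtain ⟨g⟩ : Nonempty (Lt Q ≃ Fin (19 * Q + 171)) := ⟨Fintype.equivFinOfCardEq (card_Lt Q)⟩
  refine ⟨fun x => g (Yw Q hQ1 x), ?_, ?_⟩
  · intro e δ h1 h2 _ h
    exact per_one Q hQ1 e δ h1 (by omega) (g.injective h)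
  · intro e φ δ h2 hφ hφδ hδ _ hp
    have hcomp : ∀ l : List ℕ, l.map (fun x => g (Yw Q hQ1 x)) = (l.map (Yw Q hQ1)).map g := by
      intro l; rw [List.map_map]; rfl
    rw [hcomp, hcomp, List.map_perm_map_iff g.injective] at hp
    rcases Nat.lt_or_ge φ 19 with h | h
    · exact per_few Q hQ1000 hQ1 e φ δ h2 h hφδ hδ hp
    · exact per_many Q hQ hQ1 e φ δ h hφ hφδ hδ hp

theorem cH_large' (q J : ℕ) (hq : 1 ≤ q) : J < cH q J := by
  have hA := cA_pos q hq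
  unfold cH
  have h1 : J < 2 ^ J := Nat.lt_two_pow_self
  have h2 : 2 ^ J ≤ (2 * cA q) ^ J := Nat.pow_le_pow_left (by omega) J
  have h3 : 1 ≤ 2 ^ 31 * q ^ 4 := Nat.one_le_iff_ne_zero.mpr (by positivity)
  nlinarith

/-- words of every length without Abelian repetition `m, d` with `d ≤ m (q-1)`, `q = 19 Q + 4`,
over `12 + (19 Q + 171)` letters -/
theorem exists_word_per (Q : ℕ) (hQ : 2 ^ 33 * 20 ^ 5 * 18 ^ 36 ≤ Q) (N : ℕ) :
    ∃ w : ℕ → (Fin 6 × Bool) ⊕ Fin (19 * Q + 171),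
      ∀ a m d : ℕ, 1 ≤ m → m ≤ d → d ≤ m * (19 * Q + 3) → a + d + m ≤ N →
        ¬ ((List.range' a m).map w).Perm ((List.range' (a + d) m).map w) := by
  obtain ⟨Y, hY⟩ := exists_free_per Q N hQ
  have hQ1 : 1 ≤ Q := le_trans (by norm_num) hQ
  refine ⟨letter (19 * Q + 4) (4 * N + 8) Y, ?_⟩
  intro a m d h1 h2 h3 h4 hp
  exact no_viol (by omega) (4 * N + 8) N Y hY (cH_large' (19 * Q + 4) (4 * N + 8) (by omega)).le a m d h1 h2
    (by simpa using h3) h4 hp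

end Pool.Agent.Helper35.AR
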