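import Mathlib

/-! Triangle waves. -/

namespace Pool.Agent.Helper35.AR

/-- triangle wave of period `4h` with values in `[-h,h]` -/
def tri (h x : ℤ) : ℤ := |x % (4 * h) - 2 * h| - h

theorem tri_abs (h x : ℤ) (hh : 0 < h) : |tri h x| ≤ h := by
  unfold tri
  have h1 := Int.emod_nonneg x (show (4 * h) ≠ 0 by omega)
  have h2 := Int.emod_lt_of_pos x (show 0 < 4 * h by omega)
  rw [abs_le]
  constructor
  · have := abs_nonneg (x % (4 * h) - 2 * h)
    linarith
  · have : |x % (4 * h) - 2 * h| ≤ 2 * h := by rw [abs_le]; constructor <;> linarith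
    linarith

theorem tri_step (h x : ℤ) (hh : 0 < h) :
    tri h (x + 1) - tri h x = if x / (2 * h) % 2 = 0 then -1 else 1 := by
  have h1 := Int.emod_nonneg x (show (4 * h) ≠ 0 by omega)
  have h2 := Int.emod_lt_of_pos x (show 0 < 4 * h by omega)
  have h3 := Int.mul_ediv_add_emod x (4 * h)
  obtain ⟨z, hz⟩ : ∃ z, z = x / (4 * h) := ⟨_, rfl⟩
  obtain ⟨y, hy⟩ : ∃ y, y = x % (4 * h) := ⟨_, rfl⟩
  have hx : x = y + (4 * h) * z := by rw [hz, hy]; linarith
  rw [← hy] at h1 h2
  have hdiv : x / (2 * h) = y / (2 * h) + 2 * z := by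
    rw [hx, show y + 4 * h * z = y + (2 * h) * (2 * z) by ring, Int.add_mul_ediv_left _ _ (by omega)]
  unfold tri
  rw [← hy]
  rcases lt_or_ge y (2 * h) with hlt | hge
  · have e1 : y / (2 * h) = 0 := Int.ediv_eq_zero_of_lt h1 hlt
    rw [hdiv, e1]
    have e2 : (x + 1) % (4 * h) = y + 1 := by
      rw [hx, show y + 4 * h * z + 1 = (y + 1) + (4 * h) * z by ring, Int.add_mul_emod_self_left]
      exact Int.emod_eq_of_lt (by omega) (by omega)
    rw [e2, if_pos (by omega)]
    rw [abs_of_nonpos (by linarith : y - 2 * h ≤ 0), abs_of_nonpos (by linarith : y + 1 - 2 * h ≤ 0)]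
    ring
  · have e1 : y / (2 * h) = 1 := by
      rw [Int.ediv_eq_iff_of_pos (by omega)]
      constructor <;> linarith
    rw [hdiv, e1, if_neg (by omega)]
    rcases lt_or_ge (y + 1) (4 * h) with hl2 | hg2
    · have e2 : (x + 1) % (4 * h) = y + 1 := by
        rw [hx, show y + 4 * h * z + 1 = (y + 1) + (4 * h) * z by ring, Int.add_mul_emod_self_left]
        exact Int.emod_eq_of_lt (by omega) hl2
      rw [e2, abs_of_nonneg (by linarith : 0 ≤ y - 2 * h), abs_of_nonneg (by linarith : 0 ≤ y + 1 - 2 * h)]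
      ring
    · have e2 : (x + 1) % (4 * h) = 0 := by
        rw [hx, show y + 4 * h * z + 1 = 0 + (4 * h) * (z + 1) + (y + 1 - 4 * h) by ring,
          show y + 1 - 4 * h = 0 by linarith, add_zero, Int.add_mul_emod_self_left]
        simp
      rw [e2, zero_sub, abs_neg, abs_of_pos (by linarith : 0 < 2 * h), abs_of_nonneg (by linarith : 0 ≤ y - 2 * h)]
      linarith

theorem tri_lip (h x : ℤ) (hh : 0 < h) : ∀ n : ℕ, |tri h (x + n) - tri h x| ≤ n := by
  intro n
  induction n with
  | zero => simp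
  | succ n ih =>
    have e := tri_step h (x + n) hh
    push_cast
    rw [show x + ((n : ℤ) + 1) = x + n + 1 by ring]
    rw [abs_le] at ih ⊢
    split_ifs at e <;> constructor <;> linarith

theorem tri_block (h x : ℤ) (hh : 0 < h) : ∀ n : ℕ, (x + n) / (2 * h) = x / (2 * h) →
    tri h (x + n) - tri h x = (if x / (2 * h) % 2 = 0 then -1 else 1) * n := by
  intro n
  induction n with
  | zero => simp
  | succ n ih =>
    intro hn
    push_cast at hn ⊢
    have hmid : (x + n) / (2 * h) = x / (2 * h) := by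
      apply le_antisymm
      · rw [← hn]
        exact Int.ediv_le_ediv (by omega) (by linarith)
      · exact Int.ediv_le_ediv (by omega) (by have : (0 : ℤ) ≤ n := Int.natCast_nonneg n; linarith)
    have e := tri_step h (x + n) hh
    rw [hmid] at e
    have e2 := ih hmid
    rw [show x + ((n : ℤ) + 1) = x + n + 1 by ring]
    split_ifs at e e2 ⊢ <;> linarith

theorem tri_anti (h x : ℤ) (hh : 0 < h) : tri h (x + 2 * h) = - tri h x := by
  have h1 := Int.emod_nonneg x (show (4 * h) ≠ 0 by omega)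
  have h2 := Int.emod_lt_of_pos x (show 0 < 4 * h by omega)
  have h3 := Int.mul_ediv_add_emod x (4 * h)
  obtain ⟨z, hz⟩ : ∃ z, z = x / (4 * h) := ⟨_, rfl⟩
  obtain ⟨y, hy⟩ : ∃ y, y = x % (4 * h) := ⟨_, rfl⟩
  have hx : x = y + (4 * h) * z := by rw [hz, hy]; linarith
  rw [← hy] at h1 h2
  unfold tri
  rw [← hy]
  rcases lt_or_ge y (2 * h) with hlt | hge
  · have e2 : (x + 2 * h) % (4 * h) = y + 2 * h := by
      rw [hx, show y + 4 * h * z + 2 * h = (y + 2 * h) + (4 * h) * z by ring, Int.add_mul_emod_self_left]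
      exact Int.emod_eq_of_lt (by omega) (by omega)
    rw [e2, abs_of_nonpos (by linarith : y - 2 * h ≤ 0), abs_of_nonneg (by linarith : 0 ≤ y + 2 * h - 2 * h)]
    ring
  · have e2 : (x + 2 * h) % (4 * h) = y - 2 * h := by
      rw [hx, show y + 4 * h * z + 2 * h = (y - 2 * h) + (4 * h) * (z + 1) by ring, Int.add_mul_emod_self_left]
      exact Int.emod_eq_of_lt (by omega) (by omega)
    rw [e2, abs_of_nonneg (by linarith : 0 ≤ y - 2 * h), abs_of_nonpos (by linarith : y - 2 * h - 2 * h ≤ 0)]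
    ring

theorem tri_period (h x : ℤ) (hh : 0 < h) : tri h (x + 4 * h) = tri h x := by
  rw [show x + 4 * h = (x + 2 * h) + 2 * h by ring, tri_anti _ _ hh, tri_anti _ _ hh, neg_neg]

/-- sum over a full period vanishes -/
theorem tri_sum_period (h : ℕ) (hh : 0 < h) (x : ℤ) :
    ∑ i ∈ Finset.range (4 * h), tri h (x + i) = 0 := by
  rw [show 4 * h = 2 * h + 2 * h by ring, Finset.sum_range_add]
  have : ∀ i ∈ Finset.range (2 * h), tri h (x + ((2 * h + i : ℕ) : ℤ)) = - tri h (x + i) := by
    intro i _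
    rw [show x + ((2 * h + i : ℕ) : ℤ) = (x + i) + 2 * h by push_cast; ring, tri_anti _ _ (by exact_mod_cast hh)]
  rw [Finset.sum_congr rfl this, Finset.sum_neg_distrib]
  ring

theorem tri_sum_le (h : ℕ) (hh : 0 < h) : ∀ (n : ℕ) (x : ℤ),
    |∑ i ∈ Finset.range n, tri h (x + i)| ≤ 4 * h * h := by
  intro n
  induction n using Nat.strong_induction_on with
  | _ n ih =>
    intro x
    rcases Nat.lt_or_ge n (4 * h) with hn | hn
    · calc |∑ i ∈ Finset.range n, tri h (x + i)| ≤ ∑ i ∈ Finset.range n, |tri h (x + i)| :=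
            Finset.abs_sum_le_sum_abs _ _
        _ ≤ ∑ _i ∈ Finset.range n, (h : ℤ) := Finset.sum_le_sum (fun i _ => tri_abs _ _ (by exact_mod_cast hh))
        _ = n * h := by rw [Finset.sum_const, Finset.card_range, nsmul_eq_mul]
        _ ≤ 4 * h * h := by
            have : (n : ℤ) ≤ 4 * h := by exact_mod_cast hn.le
            exact mul_le_mul_of_nonneg_right this (by positivity)
    · obtain ⟨n', rfl⟩ : ∃ n', n = 4 * h + n' := ⟨n - 4 * h, by omega⟩
      rw [Finset.sum_range_add, tri_sum_period h hh, zero_add]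
      have e := ih n' (by omega) x
      have : ∀ i ∈ Finset.range n', tri h (x + ((4 * h + i : ℕ) : ℤ)) = tri h (x + i) := by
        intro i _
        rw [show x + ((4 * h + i : ℕ) : ℤ) = (x + i) + 4 * h by push_cast; ring, tri_period _ _ (by exact_mod_cast hh)]
      rw [Finset.sum_congr rfl this]
      exact e

end Pool.Agent.Helper35.AR
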