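import Pool.Agent.Helper35.ARMain

/-! Existence of words of every length. -/

namespace Pool.Agent.Helper35.AR

/-- reading a list (newest letter first) as a function -/
def rd {f : ℕ} (y0 : Fin f) (C : List (Fin f)) (i : ℕ) : Fin f := C.getD (C.length - 1 - i) y0

theorem rd_block {f : ℕ} (y0 : Fin f) (C : List (Fin f)) (e φ : ℕ) (h : e + φ ≤ C.length) :
    (C.drop (C.length - e - φ)).take φ = ((List.range' e φ).map (rd y0 C)).reverse := by
  apply List.ext_getElem
  · simp only [List.length_take, List.length_drop, List.length_reverse, List.length_map, List.length_range']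
    omega
  · intro i h1 h2
    simp only [List.length_reverse, List.length_map, List.length_range'] at h2
    simp only [List.getElem_take, List.getElem_drop, List.getElem_reverse, List.getElem_map, List.getElem_range',
      List.length_map, List.length_range', one_mul]
    unfold rd
    have hidx : C.length - 1 - (e + (φ - 1 - i)) = C.length - e - φ + i := by omega
    rw [hidx, List.getD_eq_getElem?_getD, List.getElem?_eq_getElem (by omega), Option.getD_some]

theorem exists_free (q β l0 : ℕ) (hq : 19 ≤ q) (hl0 : 1 ≤ l0) (hβ : 2 * l0 + 6 ≤ β) (hβ3 : 33 ≤ β)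
    (hΦ : 8 * (2 ^ 31 * q ^ 4) ^ 3 ≤ 2 ^ l0) (N : ℕ) :
    ∃ Y : ℕ → Fin (q - 5 + 2 * β), FreeOk q (q - 5 + 2 * β) N Y := by
  obtain ⟨C, hC⟩ := G_nonempty2 q β l0 hq hl0 hβ hβ3 hΦ N
  have hlen := G_length N C hC
  have y0 : Fin (q - 5 + 2 * β) := ⟨0, by omega⟩
  refine ⟨rd y0 C, ?_, ?_⟩
  · intro e δ h1 h2 h3 heq
    have hok := G_ok N (N - e - δ - 1) C hC (by omega)
    apply hok.1 δ h1 h2
    refine ⟨h1, ?_, ?_⟩
    · rw [List.length_drop]; omega
    · have b1 := rd_block y0 C (e + δ) 1 (by omega)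
      have b2 := rd_block y0 C e 1 (by omega)
      rw [List.drop_drop]
      rw [show C.length - (e + δ) - 1 = N - e - δ - 1 by omega] at b1
      rw [show C.length - e - 1 = N - e - δ - 1 + δ by omega] at b2
      rw [b1, b2]
      simp [heq]
  · intro e φ δ h1 h2 h3 h4 h5 hp
    have hok := G_ok N (N - e - δ - φ) C hC (by omega)
    apply hok.2 φ δ h1 h2 h4
    refine ⟨h3, ?_, ?_⟩
    · rw [List.length_drop]; omega
    · have b1 := rd_block y0 C (e + δ) φ (by omega)
      have b2 := rd_block y0 C e φ (by omega)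
      rw [List.drop_drop]
      rw [show C.length - (e + δ) - φ = N - e - δ - φ by omega] at b1
      rw [show C.length - e - φ = N - e - δ - φ + δ by omega] at b2
      rw [b1, b2]
      exact (List.reverse_perm _).trans (hp.symm.trans (List.reverse_perm _).symm)

theorem cH_large (q J : ℕ) (hq : 1 ≤ q) : J < cH q J := by
  have hA := cA_pos q hq
  unfold cH
  have h1 : J < 2 ^ J := Nat.lt_two_pow_self
  have h2 : 2 ^ J ≤ (2 * cA q) ^ J := Nat.pow_le_pow_left (by omega) J
  have h3 : 1 ≤ 2 ^ 31 * q ^ 4 := Nat.one_le_iff_ne_zero.mpr (by positivity)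
  nlinarith

/-- words of every length without Abelian repetition `m, d` with `d ≤ m (q-1)` -/
theorem exists_word (q t : ℕ) (hq : 19 ≤ q) (ht : q ≤ 2 ^ t) (N : ℕ) :
    ∃ w : ℕ → (Fin 6 × Bool) ⊕ Fin (q - 5 + 2 * (198 + 24 * t)),
      ∀ a m d : ℕ, 1 ≤ m → m ≤ d → d ≤ m * (q - 1) → a + d + m ≤ N →
        ¬ ((List.range' a m).map w).Perm ((List.range' (a + d) m).map w) := by
  have hΦ : 8 * (2 ^ 31 * q ^ 4) ^ 3 ≤ 2 ^ (96 + 12 * t) := by
    calc 8 * (2 ^ 31 * q ^ 4) ^ 3 = 2 ^ 96 * q ^ 12 := by ring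
      _ ≤ 2 ^ 96 * (2 ^ t) ^ 12 := Nat.mul_le_mul_left _ (Nat.pow_le_pow_left ht 12)
      _ = 2 ^ (96 + 12 * t) := by rw [pow_add, ← pow_mul, Nat.mul_comm t 12]
  obtain ⟨Y, hY⟩ := exists_free q (198 + 24 * t) (96 + 12 * t) hq (by omega) (by omega) (by omega) hΦ N
  refine ⟨letter q (4 * N + 8) Y, ?_⟩
  intro a m d h1 h2 h3 h4 hp
  exact no_viol hq (4 * N + 8) N Y hY (cH_large q (4 * N + 8) (by omega)).le a m d h1 h2 h3 h4 hp

end Pool.Agent.Helper35.AR
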