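import Mathlib

set_option autoImplicit false

namespace Pool.Agent.Helper35

open Polynomial

theorem sylv_left (P Q : ℤ[X]) (x : ℝ) (j : Fin P.natDegree) :
    (∑ k : Fin (P.natDegree + Q.natDegree), x ^ (k : ℕ) *
      ((sylvester P Q P.natDegree Q.natDegree k (Fin.castAdd Q.natDegree j) : ℤ) : ℝ))
      = x ^ (j : ℕ) * aeval x Q := by
  have h1 : ∀ k : Fin (P.natDegree + Q.natDegree),
      ((sylvester P Q P.natDegree Q.natDegree k (Fin.castAdd Q.natDegree j) : ℤ) : ℝ)
        = ((X ^ (j : ℕ) * Q.map (Int.castRingHom ℝ)).coeff (k : ℕ)) := by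
    intro k
    simp only [sylvester, Matrix.of_apply, Fin.addCases_left, coeff_X_pow_mul', coeff_map]
    by_cases h : (j : ℕ) ≤ k
    · by_cases h2 : (k : ℕ) ≤ j + Q.natDegree
      · simp [h, h2]
      · have : Q.coeff ((k : ℕ) - j) = 0 := coeff_eq_zero_of_natDegree_lt (by omega)
        simp [h, h2, this]
    · simp [h]
  simp_rw [h1]
  have h2 : (X ^ (j : ℕ) * Q.map (Int.castRingHom ℝ)).natDegree < P.natDegree + Q.natDegree := by
    refine lt_of_le_of_lt natDegree_mul_le ?_
    have := natDegree_map_le (f := Int.castRingHom ℝ) (p := Q)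
    simp only [natDegree_X_pow]
    have := j.2
    omega
  have h3 := eval_eq_sum_range' h2 x
  rw [Finset.sum_range] at h3
  simp_rw [mul_comm (x ^ _)]
  rw [← h3]
  simp [aeval_def, eval₂_eq_eval_map, mul_comm]

theorem sylv_right (P Q : ℤ[X]) (x : ℝ) (j : Fin Q.natDegree) :
    (∑ k : Fin (P.natDegree + Q.natDegree), x ^ (k : ℕ) *
      ((sylvester P Q P.natDegree Q.natDegree k (Fin.natAdd P.natDegree j) : ℤ) : ℝ))
      = x ^ (j : ℕ) * aeval x P := by
  have h1 : ∀ k : Fin (P.natDegree + Q.natDegree),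
      ((sylvester P Q P.natDegree Q.natDegree k (Fin.natAdd P.natDegree j) : ℤ) : ℝ)
        = ((X ^ (j : ℕ) * P.map (Int.castRingHom ℝ)).coeff (k : ℕ)) := by
    intro k
    simp only [sylvester, Matrix.of_apply, Fin.addCases_right, coeff_X_pow_mul', coeff_map]
    by_cases h : (j : ℕ) ≤ k
    · by_cases h2 : (k : ℕ) ≤ j + P.natDegree
      · simp [h, h2]
      · have : P.coeff ((k : ℕ) - j) = 0 := coeff_eq_zero_of_natDegree_lt (by omega)
        simp [h, h2, this]
    · simp [h]
  simp_rw [h1]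
  have h2 : (X ^ (j : ℕ) * P.map (Int.castRingHom ℝ)).natDegree < P.natDegree + Q.natDegree := by
    refine lt_of_le_of_lt natDegree_mul_le ?_
    have := natDegree_map_le (f := Int.castRingHom ℝ) (p := P)
    simp only [natDegree_X_pow]
    have := j.2
    omega
  have h3 := eval_eq_sum_range' h2 x
  rw [Finset.sum_range] at h3
  simp_rw [mul_comm (x ^ _)]
  rw [← h3]
  simp [aeval_def, eval₂_eq_eval_map, mul_comm]

theorem res_ne_zero (P Q : ℤ[X])
    (hPQ : IsCoprime (P.map (Int.castRingHom ℚ)) (Q.map (Int.castRingHom ℚ))) :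
    (sylvester P Q P.natDegree Q.natDegree).det ≠ 0 := by
  have hinj : Function.Injective (Int.castRingHom ℚ) := RingHom.injective_int _
  have h := resultant_map_map P Q P.natDegree Q.natDegree (Int.castRingHom ℚ)
  have h1 : resultant (P.map (Int.castRingHom ℚ)) (Q.map (Int.castRingHom ℚ))
      P.natDegree Q.natDegree ≠ 0 := by
    have e1 : (P.map (Int.castRingHom ℚ)).natDegree = P.natDegree :=
      natDegree_map_eq_of_injective hinj P
    have e2 : (Q.map (Int.castRingHom ℚ)).natDegree = Q.natDegree :=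
      natDegree_map_eq_of_injective hinj Q
    rw [← e1, ← e2]
    exact resultant_ne_zero _ _ hPQ
  intro h0
  apply h1
  rw [h]
  unfold resultant
  rw [h0]
  simp

theorem one_le_res_pos (P Q : ℤ[X])
    (hPQ : IsCoprime (P.map (Int.castRingHom ℚ)) (Q.map (Int.castRingHom ℚ)))
    (hpos : 0 < P.natDegree + Q.natDegree) (x : ℝ) (hx : |x| ≤ 1) (M ε : ℝ) (hM : 0 < M)
    (hε : 0 < ε)
    (hP : ∀ i, |(P.coeff i : ℝ)| ≤ M) (hQ : ∀ i, |(Q.coeff i : ℝ)| ≤ M)
    (hPx : |aeval x P| ≤ ε) (hQx : |aeval x Q| ≤ ε) :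
    1 ≤ ((P.natDegree + Q.natDegree).factorial : ℝ) *
      M ^ (P.natDegree + Q.natDegree - 1) * ε := by
  set m := P.natDegree with hm
  set n := Q.natDegree with hn
  set S : Matrix (Fin (m + n)) (Fin (m + n)) ℝ :=
    (sylvester P Q m n).map (Int.cast : ℤ → ℝ) with hS
  have hSdet : S.det = (((sylvester P Q m n).det : ℤ) : ℝ) := by
    rw [hS]
    exact (Int.cast_det (R := ℝ) (sylvester P Q m n)).symm
  have h1 : 1 ≤ |S.det| := by
    rw [hSdet]
    have := Int.one_le_abs (res_ne_zero P Q hPQ)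
    exact_mod_cast this
  set z : Fin (m + n) := ⟨0, hpos⟩ with hz
  set S1 := S.updateRow z (∑ k : Fin (m + n), (x ^ (k : ℕ)) • S k) with hS1
  have hdet1 : S1.det = S.det := by
    rw [hS1, Matrix.det_updateRow_sum S z (fun k : Fin (m + n) => x ^ (k : ℕ))]
    simp [hz]
  have hrow : ∀ j, |S1 z j| ≤ ε := by
    intro j
    have hx' : ∀ i : ℕ, |x ^ i| ≤ 1 := fun i => by
      rw [abs_pow]; exact pow_le_one₀ (abs_nonneg _) hx
    have e : S1 z j = ∑ k : Fin (m + n), x ^ (k : ℕ) *
        ((sylvester P Q m n k j : ℤ) : ℝ) := by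
      rw [hS1, Matrix.updateRow_self, Finset.sum_apply]
      simp [hS]
    rw [e]
    refine Fin.addCases (fun j₁ => ?_) (fun j₁ => ?_) j
    · rw [sylv_left P Q x j₁, abs_mul]
      calc |x ^ (j₁ : ℕ)| * |aeval x Q| ≤ 1 * ε :=
            mul_le_mul (hx' _) hQx (abs_nonneg _) zero_le_one
        _ = ε := one_mul _
    · rw [sylv_right P Q x j₁, abs_mul]
      calc |x ^ (j₁ : ℕ)| * |aeval x P| ≤ 1 * ε :=
            mul_le_mul (hx' _) hPx (abs_nonneg _) zero_le_one
        _ = ε := one_mul _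
  have hent : ∀ i j, i ≠ z → |S1 i j| ≤ M := by
    intro i j hi
    rw [hS1, Matrix.updateRow_ne hi]
    simp only [hS, Matrix.map_apply]
    refine Fin.addCases (fun j₁ => ?_) (fun j₁ => ?_) j
    · simp only [sylvester, Matrix.of_apply, Fin.addCases_left]
      split_ifs
      · exact hQ _
      · simpa using hM.le
    · simp only [sylvester, Matrix.of_apply, Fin.addCases_right]
      split_ifs
      · exact hP _
      · simpa using hM.le
  set S2 := S1.updateRow z ((M / ε) • S1 z) with hS2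
  have hdet2 : S2.det = (M / ε) * S1.det := by
    rw [hS2, Matrix.det_updateRow_smul, Matrix.updateRow_eq_self]
  have hent2 : ∀ i j, AbsoluteValue.abs (S2 i j) ≤ M := by
    intro i j
    change |S2 i j| ≤ M
    by_cases hi : i = z
    · subst hi
      rw [hS2, Matrix.updateRow_self]
      simp only [Pi.smul_apply, smul_eq_mul]
      rw [abs_mul, abs_of_pos (div_pos hM hε)]
      calc M / ε * |S1 z j| ≤ M / ε * ε :=
            mul_le_mul_of_nonneg_left (hrow j) (div_pos hM hε).le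
        _ = M := by field_simp
    · rw [hS2, Matrix.updateRow_ne hi]
      exact hent i j hi
  have h3 := Matrix.det_le hent2
  rw [Fintype.card_fin] at h3
  change |S2.det| ≤ _ at h3
  rw [hdet2, hdet1, abs_mul, abs_of_pos (div_pos hM hε), nsmul_eq_mul] at h3
  have h4 : M / ε ≤ ((m + n).factorial : ℝ) * M ^ (m + n) := by
    calc M / ε = M / ε * 1 := (mul_one _).symm
      _ ≤ M / ε * |S.det| := mul_le_mul_of_nonneg_left h1 (div_pos hM hε).le
      _ ≤ _ := h3
  have h5 : M ^ (m + n) = M ^ (m + n - 1) * M := by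
    rw [← pow_succ]; congr 1; omega
  rw [h5, div_le_iff₀ hε] at h4
  have h6 : M * 1 ≤ M * (((m + n).factorial : ℝ) * M ^ (m + n - 1) * ε) := by
    calc M * 1 = M := mul_one _
      _ ≤ _ := h4
      _ = _ := by ring
  exact le_of_mul_le_mul_left h6 hM

theorem one_le_res (P Q : ℤ[X])
    (hPQ : IsCoprime (P.map (Int.castRingHom ℚ)) (Q.map (Int.castRingHom ℚ)))
    (hpos : 0 < P.natDegree + Q.natDegree) (x : ℝ) (hx : |x| ≤ 1) (M ε : ℝ) (hM : 0 < M)
    (hP : ∀ i, |(P.coeff i : ℝ)| ≤ M) (hQ : ∀ i, |(Q.coeff i : ℝ)| ≤ M)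
    (hPx : |aeval x P| ≤ ε) (hQx : |aeval x Q| ≤ ε) :
    1 ≤ ((P.natDegree + Q.natDegree).factorial : ℝ) *
      M ^ (P.natDegree + Q.natDegree - 1) * ε := by
  set K : ℝ := ((P.natDegree + Q.natDegree).factorial : ℝ) *
      M ^ (P.natDegree + Q.natDegree - 1) with hK
  have hKpos : 0 < K := by positivity
  by_contra hcon
  push Not at hcon
  have hε0 : 0 ≤ ε := (abs_nonneg _).trans hPx
  set ε' : ℝ := (ε + 1 / K) / 2 with hε'
  have h1 : ε < 1 / K := by rw [lt_div_iff₀ hKpos]; linarith [mul_comm K ε]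
  have h2 : ε ≤ ε' := by rw [hε']; linarith
  have h3 : 0 < ε' := by
    rw [hε']; have : 0 < 1 / K := by positivity
    linarith
  have h4 : ε' < 1 / K := by rw [hε']; linarith
  have h5 := one_le_res_pos P Q hPQ hpos x hx M ε' hM h3 hP hQ (hPx.trans h2) (hQx.trans h2)
  rw [← hK] at h5
  rw [lt_div_iff₀ hKpos] at h4
  linarith [mul_comm K ε']

end Pool.Agent.Helper35
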