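import Mathlib
import Pool.Agent.Helper35.Res

set_option autoImplicit false

namespace Pool.Agent.Helper35

open Polynomial

/-- Naive height of an integer polynomial. -/
noncomputable def ht (P : ℤ[X]) : ℕ := P.support.sup (fun i => (P.coeff i).natAbs)

theorem natAbs_coeff_le_ht (P : ℤ[X]) (i : ℕ) : (P.coeff i).natAbs ≤ ht P := by
  by_cases h : P.coeff i = 0
  · simp [h]
  · exact Finset.le_sup (f := fun i => (P.coeff i).natAbs) (mem_support_iff.mpr h)

theorem abs_coeff_le_ht (P : ℤ[X]) (i : ℕ) : |(P.coeff i : ℝ)| ≤ (ht P : ℝ) := by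
  have h := natAbs_coeff_le_ht P i
  have h2 : |(P.coeff i : ℝ)| = (((P.coeff i).natAbs : ℕ) : ℝ) := by
    rw [Nat.cast_natAbs]; simp
  rw [h2]
  exact_mod_cast h

theorem abs_coeff_le_ht_int (P : ℤ[X]) (i : ℕ) : |P.coeff i| ≤ (ht P : ℤ) := by
  have h := natAbs_coeff_le_ht P i
  rw [Int.abs_eq_natAbs]
  exact_mod_cast h

theorem ht_pos {P : ℤ[X]} (hP : P ≠ 0) : 1 ≤ ht P := by
  have h := natAbs_coeff_le_ht P P.natDegree
  have h2 : P.coeff P.natDegree ≠ 0 := by
    rw [coeff_natDegree]; exact leadingCoeff_ne_zero.mpr hP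
  have := Int.natAbs_pos.mpr h2
  omega

theorem ht_le_of {P : ℤ[X]} {M : ℕ} (h : ∀ i, (P.coeff i).natAbs ≤ M) : ht P ≤ M :=
  Finset.sup_le (fun i _ => h i)

theorem abs_pow_sub_pow_le' (x y : ℝ) (hx : |x| ≤ 1) (hy : |y| ≤ 1) (i : ℕ) :
    |x ^ i - y ^ i| ≤ i * |x - y| := by
  induction i with
  | zero => simp
  | succ i ih =>
    have e : x ^ (i + 1) - y ^ (i + 1) = x ^ i * (x - y) + (x ^ i - y ^ i) * y := by ring
    rw [e]
    have h1 : |x ^ i| ≤ 1 := by rw [abs_pow]; exact pow_le_one₀ (abs_nonneg _) hx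
    calc |x ^ i * (x - y) + (x ^ i - y ^ i) * y|
        ≤ |x ^ i * (x - y)| + |(x ^ i - y ^ i) * y| := abs_add_le _ _
      _ = |x ^ i| * |x - y| + |x ^ i - y ^ i| * |y| := by rw [abs_mul, abs_mul]
      _ ≤ 1 * |x - y| + (i * |x - y|) * 1 := by
          gcongr
      _ = ((i + 1 : ℕ) : ℝ) * |x - y| := by push_cast; ring

theorem aeval_eq_sum (P : ℤ[X]) (x : ℝ) :
    aeval x P = ∑ i ∈ Finset.range (P.natDegree + 1), (P.coeff i : ℝ) * x ^ i := by
  rw [aeval_eq_sum_range]
  simp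

theorem abs_aeval_sub_le (P : ℤ[X]) (x y : ℝ) (hx : |x| ≤ 1) (hy : |y| ≤ 1) :
    |aeval x P - aeval y P| ≤ ((P.natDegree : ℝ) + 1) ^ 2 * ht P * |x - y| := by
  rw [aeval_eq_sum, aeval_eq_sum, ← Finset.sum_sub_distrib]
  calc |∑ i ∈ Finset.range (P.natDegree + 1), ((P.coeff i : ℝ) * x ^ i - (P.coeff i : ℝ) * y ^ i)|
      ≤ ∑ i ∈ Finset.range (P.natDegree + 1),
          |(P.coeff i : ℝ) * x ^ i - (P.coeff i : ℝ) * y ^ i| := Finset.abs_sum_le_sum_abs _ _
    _ ≤ ∑ i ∈ Finset.range (P.natDegree + 1), ((P.natDegree : ℝ) + 1) * ht P * |x - y| := by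
        refine Finset.sum_le_sum (fun i hi => ?_)
        rw [← mul_sub, abs_mul]
        have hi' : (i : ℝ) ≤ (P.natDegree : ℝ) + 1 := by
          have := Finset.mem_range.mp hi
          exact_mod_cast this.le
        calc |(P.coeff i : ℝ)| * |x ^ i - y ^ i|
            ≤ ht P * ((i : ℝ) * |x - y|) :=
              mul_le_mul (abs_coeff_le_ht P i) (abs_pow_sub_pow_le' x y hx hy i)
                (abs_nonneg _) (Nat.cast_nonneg _)
          _ ≤ ht P * (((P.natDegree : ℝ) + 1) * |x - y|) := by gcongr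
          _ = _ := by ring
    _ = ((P.natDegree : ℝ) + 1) ^ 2 * ht P * |x - y| := by
        rw [Finset.sum_const, Finset.card_range, nsmul_eq_mul]; push_cast; ring

theorem abs_aeval_le (P : ℤ[X]) (x : ℝ) (hx : |x| ≤ 1) :
    |aeval x P| ≤ ((P.natDegree : ℝ) + 1) * ht P := by
  rw [aeval_eq_sum]
  calc |∑ i ∈ Finset.range (P.natDegree + 1), (P.coeff i : ℝ) * x ^ i|
      ≤ ∑ i ∈ Finset.range (P.natDegree + 1), |(P.coeff i : ℝ) * x ^ i| :=
        Finset.abs_sum_le_sum_abs _ _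
    _ ≤ ∑ i ∈ Finset.range (P.natDegree + 1), (ht P : ℝ) := by
        refine Finset.sum_le_sum (fun i hi => ?_)
        rw [abs_mul, abs_pow]
        calc |(P.coeff i : ℝ)| * |x| ^ i ≤ ht P * 1 :=
              mul_le_mul (abs_coeff_le_ht P i) (pow_le_one₀ (abs_nonneg _) hx)
                (by positivity) (Nat.cast_nonneg _)
          _ = _ := mul_one _
    _ = _ := by
        rw [Finset.sum_const, Finset.card_range, nsmul_eq_mul]; push_cast; ring

/-- Irreducibility over the rationals. -/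
def IrrQ (P : ℤ[X]) : Prop := Irreducible (P.map (Int.castRingHom ℚ))

theorem IrrQ.natDegree_map (P : ℤ[X]) :
    (P.map (Int.castRingHom ℚ)).natDegree = P.natDegree :=
  natDegree_map_eq_of_injective (RingHom.injective_int _) P

theorem IrrQ.natDegree_pos {P : ℤ[X]} (h : IrrQ P) : 0 < P.natDegree := by
  rw [← IrrQ.natDegree_map]
  exact Irreducible.natDegree_pos h

theorem IrrQ.ne_zero {P : ℤ[X]} (h : IrrQ P) : P ≠ 0 := by
  rintro rfl
  exact Irreducible.ne_zero h (by simp)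

/-- The constant in the derivative bound. -/
noncomputable def Kc (m : ℕ) : ℝ := ((2 * m).factorial : ℝ) * (m : ℝ) ^ (2 * m)

theorem Kc_pos {m : ℕ} (hm : 0 < m) : 0 < Kc m := by
  unfold Kc; positivity

theorem deriv_bound {P : ℤ[X]} (h : IrrQ P) (x : ℝ) (hx : |x| ≤ 1) (ε : ℝ)
    (h1 : |aeval x P| ≤ ε) (h2 : |aeval x (derivative P)| ≤ ε) :
    1 ≤ Kc P.natDegree * (ht P : ℝ) ^ (2 * P.natDegree) * ε := by
  set m := P.natDegree with hm
  have hmpos : 0 < m := h.natDegree_pos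
  have hH : (1 : ℝ) ≤ ht P := by exact_mod_cast ht_pos h.ne_zero
  have hsep : IsCoprime (P.map (Int.castRingHom ℚ))
      ((derivative P).map (Int.castRingHom ℚ)) := by
    rw [← derivative_map]
    exact Irreducible.separable h
  have hm1 : (1 : ℝ) ≤ m := by exact_mod_cast hmpos
  have hM : (0 : ℝ) < m * ht P := by positivity
  have hM1 : (1 : ℝ) ≤ m * ht P := by nlinarith
  have hc1 : ∀ i, |(P.coeff i : ℝ)| ≤ m * ht P := by
    intro i
    calc |(P.coeff i : ℝ)| ≤ ht P := abs_coeff_le_ht P i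
      _ = 1 * ht P := (one_mul _).symm
      _ ≤ m * ht P := by gcongr
  have hc2 : ∀ i, |((derivative P).coeff i : ℝ)| ≤ m * ht P := by
    intro i
    rw [coeff_derivative]
    push_cast
    by_cases hi : i + 1 ≤ m
    · rw [abs_mul]
      have : |(i : ℝ) + 1| ≤ m := by
        rw [abs_of_nonneg (by positivity)]; exact_mod_cast hi
      calc |(P.coeff (i + 1) : ℝ)| * |(i : ℝ) + 1| ≤ ht P * m :=
            mul_le_mul (abs_coeff_le_ht P _) this (abs_nonneg _) (Nat.cast_nonneg _)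
        _ = _ := mul_comm _ _
    · rw [coeff_eq_zero_of_natDegree_lt (by omega)]
      simp only [Int.cast_zero, zero_mul, abs_zero]
      exact hM.le
  have key := one_le_res P (derivative P) hsep (by omega) x hx (m * ht P) ε hM hc1 hc2 h1 h2
  have hε : 0 ≤ ε := (abs_nonneg _).trans h1
  have hd : (derivative P).natDegree ≤ m := (natDegree_derivative_le P).trans (by omega)
  calc 1 ≤ _ := key
    _ ≤ ((2 * m).factorial : ℝ) * (m * ht P) ^ (2 * m) * ε := by
        gcongr
        · omega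
        · omega
    _ = _ := by unfold Kc; rw [mul_pow]; ring

theorem exists_root_near {P : ℤ[X]} (hP : P ≠ 0) (x : ℝ) (δ η : ℝ) (hη : 0 < η)
    (h1 : |aeval x P| ≤ δ) (h2 : η ≤ |aeval x (derivative P)|) :
    ∃ z ∈ (P.map (Int.castRingHom ℂ)).roots, ‖(x : ℂ) - z‖ ≤ P.natDegree * δ / η := by
  set f : ℂ[X] := P.map (Int.castRingHom ℂ) with hf
  have hf0 : f ≠ 0 := by
    rw [hf, Ne, Polynomial.map_eq_zero_iff (RingHom.injective_int _)]; exact hP
  have hδ : 0 ≤ δ := (abs_nonneg _).trans h1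
  have ev : ∀ Q : ℤ[X], (Q.map (Int.castRingHom ℂ)).eval (x : ℂ) = ((aeval x Q : ℝ) : ℂ) := by
    intro Q
    rw [← eval₂_eq_eval_map, aeval_eq_sum, eval₂_eq_sum_range]
    push_cast
    rfl
  by_cases h0 : f.eval (x : ℂ) = 0
  · refine ⟨x, (mem_roots hf0).mpr h0, ?_⟩
    rw [sub_self, norm_zero]; positivity
  · have hsp : f.Splits := IsAlgClosed.splits f
    have e := hsp.eval_derivative_div_eval_of_ne_zero h0
    by_contra hcon
    push Not at hcon
    set ρ : ℝ := P.natDegree * δ / η with hρ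
    have hρ0 : 0 ≤ ρ := by positivity
    have hdeg : 0 < P.natDegree := by
      by_contra hd
      have hd0 : P.natDegree = 0 := by omega
      have : derivative P = 0 := by
        rw [eq_C_of_natDegree_eq_zero hd0]; simp
      rw [this] at h2
      simp at h2
      linarith
    have hδpos : 0 < δ := by
      rcases hδ.lt_or_eq with h | h
      · exact h
      · exfalso
        apply h0
        rw [ev P]
        rw [← h] at h1
        have : aeval x P = 0 := abs_eq_zero.mp (le_antisymm h1 (abs_nonneg _))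
        rw [this]; simp
    have hρpos : 0 < ρ := by positivity
    have hbd : ∀ z ∈ f.roots, ‖1 / ((x : ℂ) - z)‖ < 1 / ρ := by
      intro z hz
      rw [norm_div, norm_one]
      exact one_div_lt_one_div_of_lt hρpos (hcon z hz)
    have hcard : (f.roots.card : ℝ) ≤ P.natDegree := by
      have := f.card_roots'
      have h3 : f.natDegree ≤ P.natDegree := natDegree_map_le
      exact_mod_cast this.trans h3
    have hne : f.roots ≠ 0 := by
      intro hr
      rw [hr] at e
      simp only [Multiset.map_zero, Multiset.sum_zero] at e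
      rw [div_eq_zero_iff] at e
      rcases e with e | e
      · rw [hf, derivative_map, ev] at e
        have : aeval x (derivative P) = 0 := by exact_mod_cast e
        rw [this] at h2; simp at h2; linarith
      · exact h0 e
    have hsum : ‖(f.roots.map fun z ↦ 1 / ((x : ℂ) - z)).sum‖ ≤
        (f.roots.map fun z ↦ ‖1 / ((x : ℂ) - z)‖).sum := by
      have := norm_multiset_sum_le (f.roots.map fun z ↦ 1 / ((x : ℂ) - z))
      rwa [Multiset.map_map] at this
    have hsum2 : (f.roots.map fun z ↦ ‖1 / ((x : ℂ) - z)‖).sum < P.natDegree * (1 / ρ) := by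
      calc (f.roots.map fun z ↦ ‖1 / ((x : ℂ) - z)‖).sum
          < (f.roots.map fun _ ↦ (1 / ρ)).sum :=
            Multiset.sum_lt_sum_of_nonempty hne hbd
        _ = f.roots.card * (1 / ρ) := by simp
        _ ≤ P.natDegree * (1 / ρ) := by gcongr
    rw [← e, norm_div] at hsum
    have hval : ‖eval (x : ℂ) (derivative f)‖ = |aeval x (derivative P)| := by
      rw [hf, derivative_map, ev]
      exact Complex.norm_real _
    have hval2 : ‖eval (x : ℂ) f‖ = |aeval x P| := by
      rw [hf, ev]; exact Complex.norm_real _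
    rw [hval, hval2] at hsum
    have hPpos : 0 < |aeval x P| := by
      rw [← hval2]; exact norm_pos_iff.mpr h0
    have h5 : η / δ ≤ |aeval x (derivative P)| / |aeval x P| :=
      div_le_div₀ (abs_nonneg _) h2 hPpos h1
    have h6 : (P.natDegree : ℝ) * (1 / ρ) = η / δ := by
      rw [hρ]; field_simp
    linarith

theorem card_le_of_mem_interval (t : Finset ℤ) (u v : ℝ) (huv : u ≤ v + 1)
    (h : ∀ p ∈ t, u ≤ (p : ℝ) ∧ (p : ℝ) ≤ v) : (t.card : ℝ) ≤ v - u + 1 := by
  have h1 : t ⊆ Finset.Icc ⌈u⌉ ⌊v⌋ := by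
    intro p hp
    rw [Finset.mem_Icc]
    exact ⟨Int.ceil_le.mpr (h p hp).1, Int.le_floor.mpr (h p hp).2⟩
  have h2 := Finset.card_le_card h1
  rw [Int.card_Icc] at h2
  have h3 : ((⌊v⌋ + 1 - ⌈u⌉).toNat : ℝ) ≤ v - u + 1 := by
    by_cases hc : 0 ≤ ⌊v⌋ + 1 - ⌈u⌉
    · have : ((⌊v⌋ + 1 - ⌈u⌉).toNat : ℝ) = ((⌊v⌋ + 1 - ⌈u⌉ : ℤ) : ℝ) := by
        have := Int.toNat_of_nonneg hc
        exact_mod_cast this
      rw [this]
      push_cast
      have h4 := Int.floor_le v
      have h5 := Int.le_ceil u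
      linarith
    · have : (⌊v⌋ + 1 - ⌈u⌉).toNat = 0 := Int.toNat_eq_zero.mpr (by omega)
      rw [this]
      simp
      linarith
  have h6 : (t.card : ℝ) ≤ ((⌊v⌋ + 1 - ⌈u⌉).toNat : ℝ) := by exact_mod_cast h2
  linarith

/-- Counting the grid points at which an irreducible polynomial is small. -/
theorem count_grid {P : ℤ[X]} (h : IrrQ P) (N : ℕ) (hN : 0 < N) (δ : ℝ)
    (hδ0 : 0 ≤ δ)
    (hδ : Kc P.natDegree * (ht P : ℝ) ^ (2 * P.natDegree) * δ < 1) (s : Finset ℤ)
    (hs : ∀ p ∈ s, |(p : ℝ) / N| ≤ 1 ∧ |aeval ((p : ℝ) / N) P| ≤ δ) :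
    (s.card : ℝ) ≤ P.natDegree * (2 * (P.natDegree * δ *
      (Kc P.natDegree * (ht P : ℝ) ^ (2 * P.natDegree))) * N + 1) := by
  classical
  set m := P.natDegree with hm
  have hmpos : 0 < m := h.natDegree_pos
  have hH : (1 : ℝ) ≤ ht P := by exact_mod_cast ht_pos h.ne_zero
  set K : ℝ := Kc m * (ht P : ℝ) ^ (2 * m) with hK
  have hKpos : 0 < K := by have := Kc_pos hmpos; positivity
  set ρ : ℝ := m * δ * K with hρ
  have hρ0 : 0 ≤ ρ := by positivity
  set f : ℂ[X] := P.map (Int.castRingHom ℂ) with hf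
  have hnear : ∀ p ∈ s, ∃ z ∈ f.roots.toFinset, |(p : ℝ) / N - z.re| ≤ ρ := by
    intro p hp
    obtain ⟨h1, h2⟩ := hs p hp
    have h3 : 1 / K ≤ |aeval ((p : ℝ) / N) (derivative P)| := by
      by_contra hc
      push Not at hc
      obtain ⟨ε, hε1, hε2⟩ : ∃ ε, max δ |aeval ((p : ℝ) / N) (derivative P)| ≤ ε ∧
          ε < 1 / K := by
        refine ⟨max δ |aeval ((p : ℝ) / N) (derivative P)|, le_rfl, max_lt ?_ hc⟩
        rw [lt_div_iff₀ hKpos]; linarith [mul_comm K δ]
      have := deriv_bound h _ h1 ε (h2.trans ((le_max_left _ _).trans hε1))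
        ((le_max_right _ _).trans hε1)
      rw [← hm, ← hK] at this
      rw [lt_div_iff₀ hKpos] at hε2
      linarith [mul_comm K ε]
    obtain ⟨z, hz1, hz2⟩ := exists_root_near h.ne_zero ((p : ℝ) / N) δ (1 / K) (by positivity)
      h2 h3
    refine ⟨z, Multiset.mem_toFinset.mpr hz1, ?_⟩
    have h4 : |(((((p : ℝ) / N : ℝ) : ℂ) - z).re)| ≤ ‖((((p : ℝ) / N : ℝ) : ℂ) - z)‖ :=
      Complex.abs_re_le_norm _
    have h5 : ((((p : ℝ) / N : ℝ) : ℂ) - z).re = (p : ℝ) / N - z.re := by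
      rw [Complex.sub_re, Complex.ofReal_re]
    rw [h5] at h4
    refine h4.trans (hz2.trans (le_of_eq ?_))
    rw [hρ, ← hm]; field_simp
  have hsub : s ⊆ f.roots.toFinset.biUnion
      (fun z => s.filter (fun p : ℤ => |(p : ℝ) / N - z.re| ≤ ρ)) := by
    intro p hp
    obtain ⟨z, hz1, hz2⟩ := hnear p hp
    rw [Finset.mem_biUnion]
    exact ⟨z, hz1, Finset.mem_filter.mpr ⟨hp, hz2⟩⟩
  have hNr : (0 : ℝ) < N := by exact_mod_cast hN
  have hone : ∀ z ∈ f.roots.toFinset,
      ((s.filter (fun p : ℤ => |(p : ℝ) / N - z.re| ≤ ρ)).card : ℝ) ≤ 2 * ρ * N + 1 := by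
    intro z _
    have := card_le_of_mem_interval (s.filter (fun p : ℤ => |(p : ℝ) / N - z.re| ≤ ρ))
      (N * (z.re - ρ)) (N * (z.re + ρ)) (by nlinarith) (by
        intro p hp
        have hp2 := (Finset.mem_filter.mp hp).2
        rw [abs_le] at hp2
        constructor
        · have : z.re - ρ ≤ (p : ℝ) / N := by linarith
          rw [le_div_iff₀ hNr] at this
          linarith
        · have : (p : ℝ) / N ≤ z.re + ρ := by linarith
          rw [div_le_iff₀ hNr] at this
          linarith)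
    refine this.trans (le_of_eq ?_)
    ring
  have hcard : (f.roots.toFinset.card : ℝ) ≤ m := by
    have h1 := Multiset.toFinset_card_le f.roots
    have h2 := f.card_roots'
    have h3 : f.natDegree ≤ P.natDegree := natDegree_map_le
    exact_mod_cast h1.trans (h2.trans h3)
  calc (s.card : ℝ) ≤ ((f.roots.toFinset.biUnion
      (fun z => s.filter (fun p : ℤ => |(p : ℝ) / N - z.re| ≤ ρ))).card : ℝ) := by
        exact_mod_cast Finset.card_le_card hsub
    _ ≤ ((∑ z ∈ f.roots.toFinset,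
        (s.filter (fun p : ℤ => |(p : ℝ) / N - z.re| ≤ ρ)).card : ℕ) : ℝ) := by
        exact_mod_cast Finset.card_biUnion_le
    _ = ∑ z ∈ f.roots.toFinset,
        ((s.filter (fun p : ℤ => |(p : ℝ) / N - z.re| ≤ ρ)).card : ℝ) := by push_cast; rfl
    _ ≤ ∑ z ∈ f.roots.toFinset, (2 * ρ * N + 1) := Finset.sum_le_sum hone
    _ = f.roots.toFinset.card * (2 * ρ * N + 1) := by rw [Finset.sum_const, nsmul_eq_mul]
    _ ≤ m * (2 * ρ * N + 1) := by gcongr

end Pool.Agent.Helper35
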