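import Mathlib
import Pool.Agent.Helper35.Basic

set_option autoImplicit false

namespace Pool.Agent.Helper35

open Polynomial

/-- The valuation argument for leading coefficients. -/
theorem val_lemma (P Q : ℤ[X]) (m : ℕ) (hP : P.natDegree = m) (hP0 : P ≠ 0)
    (p : ℕ) (hp : p.Prime) (e : ℕ) (s D : ℤ) (hD0 : D ≠ 0) (hD : (p : ℤ) ^ e ∣ D)
    (hs : ¬ (p : ℤ) ∣ s) (γ : ℚ)
    (h : Q.map (Int.castRingHom ℚ) =
      C γ * (P.map (Int.castRingHom ℚ)).comp (X + C ((s : ℚ) / D))) :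
    (p : ℤ) ^ e ∣ P.leadingCoeff ∨ (p : ℤ) ^ (m * e) ∣ Q.leadingCoeff := by
  have hinj : Function.Injective (Int.castRingHom ℚ) := RingHom.injective_int _
  have hDq : (D : ℚ) ≠ 0 := by exact_mod_cast hD0
  have hlead : (Q.leadingCoeff : ℚ) = γ * P.leadingCoeff := by
    have h1 := congrArg leadingCoeff h
    rw [leadingCoeff_mul, leadingCoeff_C, leadingCoeff_comp (by simp),
      leadingCoeff_map_of_injective hinj, leadingCoeff_map_of_injective hinj,
      (monic_X_add_C _).leadingCoeff, one_pow, mul_one] at h1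
    simpa using h1
  set w : ℤ := ∑ j ∈ Finset.range m, P.coeff j * s ^ j * D ^ (m - 1 - j) with hw
  have h0 : (Q.coeff 0 : ℚ) * (D : ℚ) ^ m = γ * (P.leadingCoeff * (s : ℚ) ^ m + D * w) := by
    have h1 := congrArg (eval 0) h
    rw [eval_mul, eval_C, eval_comp] at h1
    simp only [eval_add, eval_X, eval_C, zero_add] at h1
    rw [← coeff_zero_eq_eval_zero, coeff_map] at h1
    have e1 : (Int.castRingHom ℚ) (Q.coeff 0) = (Q.coeff 0 : ℚ) := rfl
    rw [e1] at h1
    rw [h1, mul_assoc]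
    congr 1
    have hdeg : (P.map (Int.castRingHom ℚ)).natDegree = m := by
      rw [IrrQ.natDegree_map, hP]
    rw [eval_eq_sum_range, hdeg, Finset.sum_range_succ, add_mul, add_comm]
    congr 1
    · rw [coeff_map, leadingCoeff, hP, div_pow]
      simp only [eq_intCast]
      field_simp
    · rw [hw, Finset.sum_mul]
      push_cast
      rw [Finset.mul_sum]
      refine Finset.sum_congr rfl (fun j hj => ?_)
      have hj' := Finset.mem_range.mp hj
      rw [coeff_map, div_pow]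
      simp only [eq_intCast]
      have : (D : ℚ) ^ m = D ^ j * (D * D ^ (m - 1 - j)) := by
        rw [← pow_succ', ← pow_add]; congr 1; omega
      rw [this]
      field_simp
  have hint : P.leadingCoeff * (D ^ m * Q.coeff 0) =
      Q.leadingCoeff * (P.leadingCoeff * s ^ m + D * w) := by
    have : ((P.leadingCoeff * (D ^ m * Q.coeff 0) : ℤ) : ℚ) =
      ((Q.leadingCoeff * (P.leadingCoeff * s ^ m + D * w) : ℤ) : ℚ) := by
      push_cast
      rw [hlead, mul_comm ((D : ℚ) ^ m), h0]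
      ring
    exact_mod_cast this
  by_contra hcon
  push Not at hcon
  obtain ⟨hc1, hc2⟩ := hcon
  have ha : P.leadingCoeff ≠ 0 := leadingCoeff_ne_zero.mpr hP0
  have hfin : FiniteMultiplicity (p : ℤ) P.leadingCoeff := by
    rw [Int.finiteMultiplicity_iff]
    exact ⟨by simpa using hp.ne_one, ha⟩
  obtain ⟨a0, ha0, hna0⟩ := hfin.exists_eq_pow_mul_and_not_dvd
  set v := multiplicity (p : ℤ) P.leadingCoeff with hv
  have hve : v < e := by
    by_contra hc
    push Not at hc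
    apply hc1
    rw [ha0]
    exact (pow_dvd_pow _ hc).trans (dvd_mul_right _ _)
  obtain ⟨D', hD'⟩ := hD
  have hpz : (p : ℤ) ≠ 0 := by exact_mod_cast hp.ne_zero
  have hpv : (p : ℤ) ^ v ≠ 0 := pow_ne_zero _ hpz
  have hsplit : (p : ℤ) ^ e = (p : ℤ) ^ v * ((p : ℤ) * (p : ℤ) ^ (e - v - 1)) := by
    rw [← pow_succ', ← pow_add]; congr 1; omega
  set u : ℤ := a0 * s ^ m + (p : ℤ) * ((p : ℤ) ^ (e - v - 1) * D' * w) with hu
  have hcancel : a0 * (D ^ m * Q.coeff 0) = Q.leadingCoeff * u := by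
    apply mul_left_cancel₀ hpv
    calc (p : ℤ) ^ v * (a0 * (D ^ m * Q.coeff 0))
        = P.leadingCoeff * (D ^ m * Q.coeff 0) := by rw [ha0]; ring
      _ = Q.leadingCoeff * (P.leadingCoeff * s ^ m + D * w) := hint
      _ = (p : ℤ) ^ v * (Q.leadingCoeff * u) := by
          rw [hu, ha0, hD', hsplit]; ring
  have hpp : Prime (p : ℤ) := Nat.prime_iff_prime_int.mp hp
  have hnu : ¬ (p : ℤ) ∣ u := by
    intro hdu
    have h2 : (p : ℤ) ∣ a0 * s ^ m := by
      have := dvd_sub hdu (dvd_mul_right (p : ℤ) ((p : ℤ) ^ (e - v - 1) * D' * w))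
      rw [hu, add_sub_cancel_right] at this
      exact this
    rcases hpp.dvd_or_dvd h2 with h3 | h3
    · exact hna0 h3
    · exact hs (hpp.dvd_of_dvd_pow h3)
  have hdiv : (p : ℤ) ^ (m * e) ∣ Q.leadingCoeff * u := by
    rw [← hcancel]
    have h4 : (p : ℤ) ^ (m * e) ∣ D ^ m := by
      rw [mul_comm m e, pow_mul]
      exact pow_dvd_pow_of_dvd ⟨D', hD'⟩ m
    exact (h4.mul_right _).mul_left _
  have hcop : IsCoprime ((p : ℤ) ^ (m * e)) u := by
    apply IsCoprime.pow_left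
    exact (Prime.irreducible hpp).coprime_iff_not_dvd.mpr hnu
  exact hc2 (hcop.dvd_of_dvd_mul_right hdiv)

theorem assoc_of_not_coprime (P Q : ℚ[X]) (hP : Irreducible P) (hQ : Irreducible Q)
    (hdeg : P.natDegree = Q.natDegree) (h : ¬ IsCoprime P Q) :
    ∃ γ : ℚ, Q = C γ * P := by
  have hd : P ∣ Q := (hP.dvd_iff_not_isCoprime).mpr h
  obtain ⟨g, hg⟩ := hd
  have hg0 : g ≠ 0 := by
    rintro rfl
    rw [mul_zero] at hg
    exact hQ.ne_zero hg
  have hdg : g.natDegree = 0 := by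
    have := congrArg natDegree hg
    rw [natDegree_mul hP.ne_zero hg0] at this
    omega
  refine ⟨g.coeff 0, ?_⟩
  rw [hg, mul_comm]
  congr 1
  exact eq_C_of_natDegree_eq_zero hdg

/-- The integer polynomial `D ^ m * P (X + s / D)`. -/
noncomputable def shf (P : ℤ[X]) (D s : ℤ) : ℤ[X] :=
  ∑ j ∈ Finset.range (P.natDegree + 1),
    C (P.coeff j * D ^ (P.natDegree - j)) * (C D * X + C s) ^ j

theorem shf_map (P : ℤ[X]) (D s : ℤ) (hD : D ≠ 0) :
    (shf P D s).map (Int.castRingHom ℚ) = C ((D : ℚ) ^ P.natDegree) *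
      (P.map (Int.castRingHom ℚ)).comp (X + C ((s : ℚ) / D)) := by
  have hDq : (D : ℚ) ≠ 0 := by exact_mod_cast hD
  rw [comp_eq_sum_left, sum_over_range' _ (by simp) (P.natDegree + 1)
    (by rw [IrrQ.natDegree_map]; omega), shf, Polynomial.map_sum, Finset.mul_sum]
  refine Finset.sum_congr rfl (fun j hj => ?_)
  have hj' := Finset.mem_range.mp hj
  simp only [Polynomial.map_mul, Polynomial.map_pow, Polynomial.map_add, Polynomial.map_C,
    Polynomial.map_X, coeff_map, Int.coe_castRingHom]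
  have e1 : (C (D : ℚ) * X + C (s : ℚ) : ℚ[X]) = C (D : ℚ) * (X + C ((s : ℚ) / D)) := by
    rw [mul_add, ← C_mul, mul_div_cancel₀ _ hDq]
  push_cast
  rw [e1, mul_pow, ← C_pow, ← mul_assoc, ← mul_assoc, ← C_mul, ← C_mul]
  congr 2
  have : (D : ℚ) ^ P.natDegree = D ^ (P.natDegree - j) * D ^ j := by
    rw [← pow_add]; congr 1; omega
  rw [this]; ring

theorem shf_natDegree (P : ℤ[X]) (D s : ℤ) (hD : D ≠ 0) :
    (shf P D s).natDegree = P.natDegree := by
  have hDq : (D : ℚ) ≠ 0 := by exact_mod_cast hD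
  rw [← IrrQ.natDegree_map, shf_map P D s hD, natDegree_C_mul (pow_ne_zero _ hDq),
    natDegree_comp, natDegree_X_add_C, mul_one, IrrQ.natDegree_map]

theorem shf_irr (P : ℤ[X]) (D s : ℤ) (hD : D ≠ 0) (hP : IrrQ P) : IrrQ (shf P D s) := by
  have hDq : (D : ℚ) ≠ 0 := by exact_mod_cast hD
  unfold IrrQ
  rw [shf_map P D s hD]
  rw [irreducible_isUnit_mul (isUnit_C.mpr (IsUnit.mk0 _ (pow_ne_zero _ hDq)))]
  have h1 : (P.map (Int.castRingHom ℚ)).comp (X + C ((s : ℚ) / D)) =
      algEquivAevalXAddC ((s : ℚ) / D) (P.map (Int.castRingHom ℚ)) := by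
    simp [algEquivAevalXAddC, comp, aeval_def, eval₂_eq_eval_map]
  rw [h1, MulEquiv.irreducible_iff]
  exact hP

theorem shf_aeval (P : ℤ[X]) (D s : ℤ) (hD : D ≠ 0) (y : ℝ) :
    aeval y (shf P D s) = (D : ℝ) ^ P.natDegree * aeval (y + (s : ℝ) / D) P := by
  have hDr : (D : ℝ) ≠ 0 := by exact_mod_cast hD
  rw [shf, map_sum, aeval_eq_sum P, Finset.mul_sum]
  refine Finset.sum_congr rfl (fun j hj => ?_)
  have hj' := Finset.mem_range.mp hj
  simp only [_root_.map_mul, _root_.map_pow, _root_.map_add, aeval_C, aeval_X, algebraMap_int_eq,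
    Int.coe_castRingHom]
  have e1 : (D : ℝ) * y + s = D * (y + s / D) := by field_simp
  rw [e1, mul_pow]
  have : (D : ℝ) ^ P.natDegree = D ^ (P.natDegree - j) * D ^ j := by
    rw [← pow_add]; congr 1; omega
  rw [this]; ring

theorem coeff_linear_pow (D s : ℤ) (j i : ℕ) :
    |((((C D * X + C s) ^ j : ℤ[X])).coeff i : ℝ)| ≤ (|(D : ℝ)| + |(s : ℝ)|) ^ j := by
  induction j generalizing i with
  | zero =>
    rw [pow_zero, pow_zero, coeff_one]
    split_ifs <;> simp
  | succ j ih =>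
    have hb : (0 : ℝ) ≤ |(D : ℝ)| + |(s : ℝ)| := by positivity
    have e : ((C D * X + C s) ^ (j + 1) : ℤ[X]) =
        C D * (X * (C D * X + C s) ^ j) + C s * (C D * X + C s) ^ j := by ring
    rw [e, coeff_add, coeff_C_mul, coeff_C_mul]
    have h1 : |((X * (C D * X + C s) ^ j : ℤ[X]).coeff i : ℝ)| ≤
        (|(D : ℝ)| + |(s : ℝ)|) ^ j := by
      cases i with
      | zero => rw [coeff_X_mul_zero]; simp only [Int.cast_zero, abs_zero]; positivity
      | succ i => rw [coeff_X_mul]; exact ih i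
    push_cast
    calc |(D : ℝ) * ((X * (C D * X + C s) ^ j : ℤ[X]).coeff i : ℝ) +
          (s : ℝ) * (((C D * X + C s) ^ j : ℤ[X]).coeff i : ℝ)|
        ≤ |(D : ℝ) * ((X * (C D * X + C s) ^ j : ℤ[X]).coeff i : ℝ)| +
          |(s : ℝ) * (((C D * X + C s) ^ j : ℤ[X]).coeff i : ℝ)| := abs_add_le _ _
      _ = |(D : ℝ)| * |((X * (C D * X + C s) ^ j : ℤ[X]).coeff i : ℝ)| +
          |(s : ℝ)| * |(((C D * X + C s) ^ j : ℤ[X]).coeff i : ℝ)| := by
            rw [abs_mul, abs_mul]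
      _ ≤ |(D : ℝ)| * (|(D : ℝ)| + |(s : ℝ)|) ^ j +
          |(s : ℝ)| * (|(D : ℝ)| + |(s : ℝ)|) ^ j := by
            gcongr
            exact ih i
      _ = _ := by ring

theorem shf_coeff (P : ℤ[X]) (D s : ℤ) (i : ℕ) (M : ℝ)
    (hM : |(D : ℝ)| + |(s : ℝ)| ≤ M) :
    |((shf P D s).coeff i : ℝ)| ≤ ((P.natDegree : ℝ) + 1) * ht P * M ^ P.natDegree := by
  rw [shf, finsetSum_coeff]
  push_cast
  have hM0 : 0 ≤ M := le_trans (by positivity) hM
  calc |∑ j ∈ Finset.range (P.natDegree + 1),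
        (((C (P.coeff j * D ^ (P.natDegree - j)) * (C D * X + C s) ^ j : ℤ[X]).coeff i : ℤ) : ℝ)|
      ≤ ∑ j ∈ Finset.range (P.natDegree + 1),
        |(((C (P.coeff j * D ^ (P.natDegree - j)) * (C D * X + C s) ^ j : ℤ[X]).coeff i : ℤ) : ℝ)|
        := Finset.abs_sum_le_sum_abs _ _
    _ ≤ ∑ j ∈ Finset.range (P.natDegree + 1), (ht P : ℝ) * M ^ P.natDegree := by
        refine Finset.sum_le_sum (fun j hj => ?_)
        have hj' := Finset.mem_range.mp hj
        rw [coeff_C_mul]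
        push_cast
        rw [abs_mul, abs_mul, abs_pow]
        have hDM : |(D : ℝ)| ≤ M := le_trans (by linarith [abs_nonneg (s : ℝ)]) hM
        calc |(P.coeff j : ℝ)| * |(D : ℝ)| ^ (P.natDegree - j) *
              |((((C D * X + C s) ^ j : ℤ[X])).coeff i : ℝ)|
            ≤ ht P * M ^ (P.natDegree - j) * M ^ j := by
              gcongr
              · exact abs_coeff_le_ht P j
              · exact (coeff_linear_pow D s j i).trans (by gcongr)
          _ = ht P * M ^ P.natDegree := by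
              rw [mul_assoc, ← pow_add]; congr 2; omega
    _ = _ := by
        rw [Finset.sum_const, Finset.card_range, nsmul_eq_mul]; push_cast; ring

end Pool.Agent.Helper35
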