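import Mathlib
import Pool.Agent.Helper35.Shift

set_option autoImplicit false

namespace Pool.Agent.Helper35

open Polynomial

section

variable (p : ℕ) [hp : Fact p.Prime]

theorem norm_int_cast (k : ℤ) : ‖((k : ℤ) : PadicAlgCl p)‖ = ‖(k : ℚ_[p])‖ := by
  rw [← PadicAlgCl.norm_extends]
  congr 1

/-- Gauss norm at radius one. -/
noncomputable def GN (f : (PadicAlgCl p)[X]) : ℝ :=
  f.gaussNorm (NormedField.toAbsoluteValue (PadicAlgCl p)) 1

theorem nonarch : IsNonarchimedean (NormedField.toAbsoluteValue (PadicAlgCl p)) :=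
  PadicAlgCl.isNonarchimedean p

theorem GN_mul (f g : (PadicAlgCl p)[X]) : GN p (f * g) = GN p f * GN p g :=
  gaussNorm_mul (nonarch p) one_pos f g

theorem GN_nonneg (f : (PadicAlgCl p)[X]) : 0 ≤ GN p f :=
  gaussNorm_nonneg _ _ zero_le_one

theorem GN_C (a : PadicAlgCl p) : GN p (C a) = ‖a‖ :=
  gaussNorm_C _ _ a

theorem coeff_le_GN (f : (PadicAlgCl p)[X]) (i : ℕ) : ‖f.coeff i‖ ≤ GN p f := by
  have := le_gaussNorm (NormedField.toAbsoluteValue (PadicAlgCl p)) f (c := 1) zero_le_one i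
  rw [one_pow, mul_one] at this
  exact this

theorem GN_le_one_of_int (P : ℤ[X]) : GN p (P.map (Int.castRingHom (PadicAlgCl p))) ≤ 1 := by
  obtain ⟨i, hi⟩ := exists_eq_gaussNorm (NormedField.toAbsoluteValue (PadicAlgCl p)) 1
    (P.map (Int.castRingHom (PadicAlgCl p)))
  unfold GN
  rw [hi, one_pow, mul_one, coeff_map]
  change ‖((P.coeff i : ℤ) : PadicAlgCl p)‖ ≤ 1
  rw [norm_int_cast]
  exact Padic.norm_int_le_one _

theorem GN_multiset (t : PadicAlgCl p) (s : Multiset (PadicAlgCl p)) :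
    ‖t‖ ^ s.card ≤ GN p ((s.map fun α => X - C α).prod) *
      GN p ((s.map fun α => X + C t - C α).prod) := by
  induction s using Multiset.induction_on with
  | empty =>
    simp only [Multiset.card_zero, pow_zero, Multiset.map_zero, Multiset.prod_zero]
    rw [← C_1, GN_C]; simp
  | cons a s ih =>
    rw [Multiset.card_cons, Multiset.map_cons, Multiset.map_cons, Multiset.prod_cons,
      Multiset.prod_cons, GN_mul, GN_mul, pow_succ]
    have h1 : (1 : ℝ) ≤ GN p (X - C a) := by
      have := coeff_le_GN p (X - C a) 1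
      simpa using this
    have h2 : ‖a‖ ≤ GN p (X - C a) := by
      have := coeff_le_GN p (X - C a) 0
      simpa using this
    have h3 : (1 : ℝ) ≤ GN p (X + C t - C a) := by
      have := coeff_le_GN p (X + C t - C a) 1
      simpa using this
    have h4 : ‖t - a‖ ≤ GN p (X + C t - C a) := by
      have := coeff_le_GN p (X + C t - C a) 0
      simpa using this
    have h5 : ‖t‖ ≤ max ‖t - a‖ ‖a‖ := by
      have := PadicAlgCl.isNonarchimedean p (t - a) a
      rwa [sub_add_cancel] at this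
    have h6 : ‖t‖ ≤ GN p (X - C a) * GN p (X + C t - C a) := by
      rcases le_max_iff.mp h5 with h | h
      · calc ‖t‖ ≤ ‖t - a‖ := h
          _ ≤ 1 * GN p (X + C t - C a) := by rw [one_mul]; exact h4
          _ ≤ _ := by gcongr
      · calc ‖t‖ ≤ ‖a‖ := h
          _ ≤ GN p (X - C a) * 1 := by rw [mul_one]; exact h2
          _ ≤ _ := by gcongr
    calc ‖t‖ ^ s.card * ‖t‖ ≤ (GN p ((s.map fun α => X - C α).prod) *
      GN p ((s.map fun α => X + C t - C α).prod)) *
        (GN p (X - C a) * GN p (X + C t - C a)) := by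
          gcongr
          exact mul_nonneg (GN_nonneg _ _) (GN_nonneg _ _)
      _ = _ := by ring

end

theorem strong_val (P Q : ℤ[X]) (m : ℕ) (hP : P.natDegree = m) (p : ℕ) (hp : p.Prime) (e : ℕ)
    (s : ℤ) (hs : ¬ (p : ℤ) ∣ s) (γ : ℚ)
    (h : Q.map (Int.castRingHom ℚ) =
      C γ * (P.map (Int.castRingHom ℚ)).comp (X + C ((s : ℚ) / (((p : ℤ) ^ e : ℤ) : ℚ)))) :
    (p : ℤ) ^ (e * m) ∣ P.leadingCoeff * Q.leadingCoeff := by
  have : Fact p.Prime := ⟨hp⟩
  set K := PadicAlgCl p with hK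
  set φ : ℚ →+* K := Rat.castHom K with hφ
  have hcomp : φ.comp (Int.castRingHom ℚ) = Int.castRingHom K := RingHom.ext_int _ _
  set f : K[X] := P.map (Int.castRingHom K) with hf
  set g : K[X] := Q.map (Int.castRingHom K) with hg
  set t : K := φ ((s : ℚ) / (((p : ℤ) ^ e : ℤ) : ℚ)) with ht
  have hgf : g = C (φ γ) * f.comp (X + C t) := by
    have := congrArg (Polynomial.map φ) h
    rw [Polynomial.map_map, hcomp, Polynomial.map_mul, Polynomial.map_comp, Polynomial.map_map,
      hcomp, map_C, Polynomial.map_add, map_X, map_C] at this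
    exact this
  have hinj : Function.Injective (Int.castRingHom K) := RingHom.injective_int _
  have hsp : f.Splits := IsAlgClosed.splits f
  have hfe := hsp.eq_prod_roots
  have hflead : f.leadingCoeff = ((P.leadingCoeff : ℤ) : K) := by
    rw [hf, leadingCoeff_map_of_injective hinj]; rfl
  have hglead : g.leadingCoeff = ((Q.leadingCoeff : ℤ) : K) := by
    rw [hg, leadingCoeff_map_of_injective hinj]; rfl
  have hglead2 : g.leadingCoeff = φ γ * f.leadingCoeff := by
    rw [hgf, leadingCoeff_mul, leadingCoeff_C, leadingCoeff_comp (by simp),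
      (monic_X_add_C _).leadingCoeff, one_pow, mul_one]
  have hge : g = C g.leadingCoeff * (f.roots.map fun α => X + C t - C α).prod := by
    rw [hglead2]
    conv_lhs => rw [hgf, hfe]
    rw [mul_comp, C_comp, C_mul, mul_assoc]
    congr 2
    rw [multiset_prod_comp, Multiset.map_map]
    congr 1
    apply Multiset.map_congr rfl
    intro α _
    simp
  have hcard : f.roots.card = m := by
    rw [← hsp.natDegree_eq_card_roots, hf, natDegree_map_eq_of_injective hinj, hP]
  have h1 : GN p f ≤ 1 := GN_le_one_of_int p P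
  have h2 : GN p g ≤ 1 := GN_le_one_of_int p Q
  have h3 : GN p f * GN p g ≤ 1 := by
    calc GN p f * GN p g ≤ 1 * 1 := mul_le_mul h1 h2 (GN_nonneg _ _) zero_le_one
      _ = 1 := one_mul 1
  have h4 : GN p f = ‖f.leadingCoeff‖ * GN p ((f.roots.map fun α => X - C α).prod) := by
    conv_lhs => rw [hfe]
    rw [GN_mul, GN_C]
  have h5 : GN p g = ‖g.leadingCoeff‖ * GN p ((f.roots.map fun α => X + C t - C α).prod) := by
    conv_lhs => rw [hge]
    rw [GN_mul, GN_C]
  have h6 := GN_multiset p t f.roots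
  rw [hcard] at h6
  have h7 : ‖f.leadingCoeff‖ * ‖g.leadingCoeff‖ * ‖t‖ ^ m ≤ 1 := by
    calc ‖f.leadingCoeff‖ * ‖g.leadingCoeff‖ * ‖t‖ ^ m
        ≤ ‖f.leadingCoeff‖ * ‖g.leadingCoeff‖ * (GN p ((f.roots.map fun α => X - C α).prod) *
          GN p ((f.roots.map fun α => X + C t - C α).prod)) := by gcongr
      _ = GN p f * GN p g := by rw [h4, h5]; ring
      _ ≤ 1 := h3
  have hpr : (0 : ℝ) < p := by exact_mod_cast hp.pos
  have hts : ‖t‖ = (p : ℝ) ^ e := by
    rw [ht, map_div₀, norm_div]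
    have e1 : ‖φ (s : ℚ)‖ = 1 := by
      have : φ (s : ℚ) = ((s : ℤ) : K) := by simp
      rw [this, norm_int_cast]
      have hc : IsCoprime s (p : ℤ) := by
        have := (Nat.prime_iff_prime_int.mp hp).irreducible.coprime_iff_not_dvd.mpr hs
        exact this.symm
      exact Padic.norm_intCast_eq_one_iff.mpr hc
    have e2 : ‖φ (((p : ℤ) ^ e : ℤ) : ℚ)‖ = ((p : ℝ) ^ e)⁻¹ := by
      have : φ (((p : ℤ) ^ e : ℤ) : ℚ) = ((((p : ℤ) ^ e : ℤ) : ℤ) : K) := by
        simp
      rw [this, norm_int_cast]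
      push_cast
      rw [norm_pow, Padic.norm_p, inv_pow]
    rw [e1, e2, one_div, inv_inv]
  rw [hts, hflead, hglead, ← norm_mul] at h7
  have h8 : ((P.leadingCoeff : ℤ) : K) * ((Q.leadingCoeff : ℤ) : K) =
      ((P.leadingCoeff * Q.leadingCoeff : ℤ) : K) := (Int.cast_mul _ _).symm
  rw [h8, norm_int_cast] at h7
  have h9 : ‖((P.leadingCoeff * Q.leadingCoeff : ℤ) : ℚ_[p])‖ ≤
      (p : ℝ) ^ (-(e * m : ℕ) : ℤ) := by
    rw [zpow_neg, zpow_natCast, pow_mul, ← one_div, le_div_iff₀ (by positivity)]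
    exact h7
  have h10 := (Padic.norm_int_le_pow_iff_dvd _ _).mp h9
  exact_mod_cast h10

end Pool.Agent.Helper35
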