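import Mathlib
import Pool.Agent.Helper35.StrongVal

set_option autoImplicit false

namespace Pool.Agent.Helper35

open Polynomial

/-- Two points differing by `s / p ^ e` cannot both be very close to roots of small irreducible
polynomials of degree `m`. -/
theorem shift_pair (m : ℕ) (p : ℕ) (hp : p.Prime) (e : ℕ)
    (s : ℤ) (hs : ¬ (p : ℤ) ∣ s) (hsr : |(s : ℝ)| ≤ (p : ℝ) ^ e)
    (H : ℕ) (hH : H ^ 2 < (p ^ e) ^ m) (y δ : ℝ) (hy : |y| ≤ 1)
    (P Q : ℤ[X]) (hPi : IrrQ P) (hQi : IrrQ Q) (hPd : P.natDegree = m) (hQd : Q.natDegree = m)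
    (hPh : ht P ≤ H) (hQh : ht Q ≤ H)
    (hQs : |aeval y Q| ≤ δ) (hPs : |aeval (y + (s : ℝ) / (p : ℝ) ^ e) P| ≤ δ)
    (hnum : ((2 * m).factorial : ℝ) * (((m : ℝ) + 1) * H * (2 * (p : ℝ) ^ e) ^ m) ^ (2 * m - 1) *
      (((p : ℝ) ^ e) ^ m * δ) < 1) : False := by
  have hmpos : 0 < m := by rw [← hPd]; exact hPi.natDegree_pos
  have hHpos : 1 ≤ H := le_trans (ht_pos hPi.ne_zero) hPh
  have hp1 : (1 : ℝ) ≤ (p : ℝ) ^ e := one_le_pow₀ (by exact_mod_cast hp.one_lt.le)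
  have hδ0 : 0 ≤ δ := (abs_nonneg _).trans hQs
  set D : ℤ := (p : ℤ) ^ e with hD
  have hD0 : D ≠ 0 := pow_ne_zero _ (by exact_mod_cast hp.ne_zero)
  have hDr : (D : ℝ) = (p : ℝ) ^ e := by rw [hD]; push_cast; rfl
  have hDabs : |(D : ℝ)| = (p : ℝ) ^ e := by rw [hDr, abs_of_nonneg (by positivity)]
  have hM : |(D : ℝ)| + |(s : ℝ)| ≤ 2 * (p : ℝ) ^ e := by rw [hDabs]; linarith
  set T := shf P D s with hT
  have hTdeg : T.natDegree = m := by rw [hT, shf_natDegree _ _ _ hD0, hPd]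
  have hTy : |aeval y T| ≤ ((p : ℝ) ^ e) ^ m * δ := by
    rw [hT, shf_aeval _ _ _ hD0, hPd, hDr, abs_mul, abs_of_nonneg (by positivity)]
    gcongr
  have hQy : |aeval y Q| ≤ ((p : ℝ) ^ e) ^ m * δ := by
    refine hQs.trans ?_
    calc δ = 1 * δ := (one_mul _).symm
      _ ≤ ((p : ℝ) ^ e) ^ m * δ := by
        gcongr
        exact one_le_pow₀ hp1
  have hMM : (0 : ℝ) < ((m : ℝ) + 1) * H * (2 * (p : ℝ) ^ e) ^ m := by
    have : (0 : ℝ) < H := by exact_mod_cast hHpos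
    positivity
  have hncop : ¬ IsCoprime (Q.map (Int.castRingHom ℚ)) (T.map (Int.castRingHom ℚ)) := by
    intro hcop
    have hc1 : ∀ j, |(Q.coeff j : ℝ)| ≤ ((m : ℝ) + 1) * H * (2 * (p : ℝ) ^ e) ^ m := by
      intro j
      have h1 : (1 : ℝ) ≤ (2 * (p : ℝ) ^ e) ^ m := one_le_pow₀ (by nlinarith)
      have h2 : (ht Q : ℝ) ≤ H := by exact_mod_cast hQh
      calc |(Q.coeff j : ℝ)| ≤ ht Q := abs_coeff_le_ht _ _
        _ ≤ H := h2
        _ = 1 * H * 1 := by ring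
        _ ≤ ((m : ℝ) + 1) * H * (2 * (p : ℝ) ^ e) ^ m := by
            gcongr
            linarith [Nat.cast_nonneg (α := ℝ) m]
    have hc2 : ∀ j, |(T.coeff j : ℝ)| ≤ ((m : ℝ) + 1) * H * (2 * (p : ℝ) ^ e) ^ m := by
      intro j
      have h1 := shf_coeff P D s j _ hM
      rw [hPd] at h1
      have h2 : (ht P : ℝ) ≤ H := by exact_mod_cast hPh
      refine h1.trans ?_
      gcongr
    have key := one_le_res Q T hcop (by rw [hQd]; omega) y hy _ _ hMM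
      hc1 hc2 hQy hTy
    rw [hQd, hTdeg] at key
    have e2 : m + m = 2 * m := by ring
    rw [e2] at key
    linarith
  obtain ⟨γ, hγ⟩ := assoc_of_not_coprime _ _ (shf_irr P D s hD0 hPi) hQi
    (by rw [IrrQ.natDegree_map, IrrQ.natDegree_map, hTdeg, hQd])
    (fun hc => hncop hc.symm)
  rw [shf_map _ _ _ hD0, ← mul_assoc, ← C_mul] at hγ
  have hdvd := strong_val P Q m hPd p hp e s hs _ hγ
  have hlP : P.leadingCoeff ≠ 0 := leadingCoeff_ne_zero.mpr hPi.ne_zero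
  have hlQ : Q.leadingCoeff ≠ 0 := leadingCoeff_ne_zero.mpr hQi.ne_zero
  have h2 := Int.le_of_dvd (abs_pos.mpr (mul_ne_zero hlP hlQ)) ((dvd_abs _ _).mpr hdvd)
  have h3 : |P.leadingCoeff| ≤ (ht P : ℤ) := abs_coeff_le_ht_int _ _
  have h4 : |Q.leadingCoeff| ≤ (ht Q : ℤ) := abs_coeff_le_ht_int _ _
  have h5 : (ht P : ℤ) ≤ H := by exact_mod_cast hPh
  have h6 : (ht Q : ℤ) ≤ H := by exact_mod_cast hQh
  have h7 : (H : ℤ) ^ 2 < (p : ℤ) ^ (e * m) := by
    rw [pow_mul]; exact_mod_cast hH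
  rw [abs_mul] at h2
  have h8 : |P.leadingCoeff| * |Q.leadingCoeff| ≤ (H : ℤ) * H :=
    mul_le_mul (h3.trans h5) (h4.trans h6) (abs_nonneg _) (by positivity)
  nlinarith

theorem card_shift_bad (m p e A L : ℕ) (hp : p.Prime) (heA : e ≤ A)
    (hL : L ≤ p) (hLe : L ≤ p ^ e) (H : ℕ) (hH : H ^ 2 < (p ^ e) ^ m) (δ : ℝ)
    (hnum : ((2 * m).factorial : ℝ) * (((m : ℝ) + 1) * H * (2 * (p : ℝ) ^ e) ^ m) ^ (2 * m - 1) *
      (((p : ℝ) ^ e) ^ m * δ) < 1) (a w : ℝ) (ha : 0 ≤ a) (hw : 0 ≤ w) (haw : a + w ≤ 1)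
    (B : Finset ℤ)
    (hB : ∀ n ∈ B, a ≤ (n : ℝ) / (p : ℝ) ^ A ∧ (n : ℝ) / (p : ℝ) ^ A ≤ a + w ∧
      ∃ P : ℤ[X], IrrQ P ∧ P.natDegree = m ∧ ht P ≤ H ∧
        |aeval ((n : ℝ) / (p : ℝ) ^ A) P| ≤ δ) :
    (B.card : ℝ) * L ≤ (p : ℝ) ^ A * (w + L / (p : ℝ) ^ e) + 1 := by
  have hp0 : (0 : ℝ) < p := by exact_mod_cast hp.pos
  have hA0 : (0 : ℝ) < (p : ℝ) ^ A := by positivity
  have he0 : (0 : ℝ) < (p : ℝ) ^ e := by positivity
  have hsplit : (p : ℝ) ^ A = (p : ℝ) ^ e * (p : ℝ) ^ (A - e) := by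
    rw [← pow_add]; congr 1; omega
  set F : ℤ × ℕ → ℤ := fun q => q.1 + (q.2 : ℤ) * (p : ℤ) ^ (A - e) with hF
  have hinj : Set.InjOn F (B ×ˢ Finset.range L : Finset (ℤ × ℕ)) := by
    rintro ⟨n, s⟩ h1 ⟨n', s'⟩ h2 heq
    simp only [Finset.coe_product, Set.mem_prod, Finset.mem_coe, Finset.mem_range] at h1 h2
    simp only [hF] at heq
    by_cases hss : s = s'
    · subst hss
      have : n = n' := by linarith
      rw [this]
    · exfalso
      obtain ⟨h1a, h1b, P, hPi, hPd, hPh, hPs⟩ := hB n h1.1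
      obtain ⟨h2a, h2b, Q, hQi, hQd, hQh, hQs⟩ := hB n' h2.1
      have hnn : (n : ℝ) / (p : ℝ) ^ A = (n' : ℝ) / (p : ℝ) ^ A +
          (((s' : ℤ) - (s : ℤ) : ℤ) : ℝ) / (p : ℝ) ^ e := by
        have : (n : ℝ) = n' + ((s' : ℝ) - s) * (p : ℝ) ^ (A - e) := by
          have : (n : ℤ) = n' + ((s' : ℤ) - s) * (p : ℤ) ^ (A - e) := by linarith
          exact_mod_cast this
        rw [this, hsplit]
        push_cast
        field_simp
      rw [hnn] at hPs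
      have habs : |(((s' : ℤ) - (s : ℤ) : ℤ))| < (L : ℤ) := by
        rw [abs_lt]; constructor <;> omega
      refine shift_pair m p hp e ((s' : ℤ) - s) ?_ ?_ H hH _ δ ?_ P Q hPi hQi hPd hQd hPh hQh
        hQs hPs hnum
      · intro hd
        have hne : ((s' : ℤ) - s) ≠ 0 := by omega
        have h3 := Int.le_of_dvd (abs_pos.mpr hne) ((dvd_abs _ _).mpr hd)
        have h4 : (L : ℤ) ≤ p := by exact_mod_cast hL
        omega
      · have h5 : |((((s' : ℤ) - (s : ℤ) : ℤ)) : ℝ)| < (L : ℝ) := by exact_mod_cast habs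
        have h6 : (L : ℝ) ≤ (p : ℝ) ^ e := by exact_mod_cast hLe
        linarith
      · rw [abs_le]; constructor <;> linarith
  have hcard : ((B ×ˢ Finset.range L).image F).card = B.card * L := by
    rw [Finset.card_image_of_injOn hinj, Finset.card_product, Finset.card_range]
  have hbound := card_le_of_mem_interval ((B ×ˢ Finset.range L).image F)
    ((p : ℝ) ^ A * a) ((p : ℝ) ^ A * (a + w + L / (p : ℝ) ^ e))
    (by
      have : (0 : ℝ) ≤ (p : ℝ) ^ A * (w + L / (p : ℝ) ^ e) := by positivity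
      nlinarith) (by
      intro q hq
      rw [Finset.mem_image] at hq
      obtain ⟨⟨n, s⟩, hns, rfl⟩ := hq
      rw [Finset.mem_product, Finset.mem_range] at hns
      obtain ⟨h1, h2⟩ := hns
      simp only at h1 h2
      obtain ⟨h1a, h1b, _⟩ := hB n h1
      rw [le_div_iff₀ hA0] at h1a
      rw [div_le_iff₀ hA0] at h1b
      simp only [hF]
      push_cast
      have hs0 : (0 : ℝ) ≤ (s : ℝ) * (p : ℝ) ^ (A - e) := by positivity
      have hs1 : (s : ℝ) * (p : ℝ) ^ (A - e) ≤ (p : ℝ) ^ A * (L / (p : ℝ) ^ e) := by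
        have : (p : ℝ) ^ A * (L / (p : ℝ) ^ e) = L * (p : ℝ) ^ (A - e) := by
          rw [hsplit]; field_simp
        rw [this]
        have : (s : ℝ) ≤ L := by exact_mod_cast h2.le
        gcongr
      constructor <;> nlinarith)
  rw [hcard] at hbound
  push_cast at hbound
  linarith

end Pool.Agent.Helper35
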