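import Mathlib
import Pool.Agent.Helper35.ShiftPair

set_option autoImplicit false

namespace Pool.Agent.Helper35

open Polynomial

/-- The integer polynomials of degree at most `m` with coefficients of size at most `H`. -/
noncomputable def boxF (m H : ℕ) : Finset ℤ[X] :=
  (Fintype.piFinset (fun _ : Fin (m + 1) => Finset.Icc (-(H : ℤ)) (H : ℤ))).image
    (fun c => ∑ i : Fin (m + 1), monomial (i : ℕ) (c i))

theorem card_boxF (m H : ℕ) : (boxF m H).card ≤ (2 * H + 1) ^ (m + 1) := by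
  refine Finset.card_image_le.trans ?_
  rw [Fintype.card_piFinset]
  simp only [Int.card_Icc, Finset.prod_const, Finset.card_univ, Fintype.card_fin]
  apply le_of_eq
  congr 1
  omega

theorem mem_boxF {m H : ℕ} {P : ℤ[X]} (hd : P.natDegree ≤ m) (hH : ht P ≤ H) :
    P ∈ boxF m H := by
  rw [boxF, Finset.mem_image]
  refine ⟨fun i => P.coeff i, ?_, ?_⟩
  · rw [Fintype.mem_piFinset]
    intro i
    rw [Finset.mem_Icc, ← abs_le]
    exact (abs_coeff_le_ht_int P i).trans (by exact_mod_cast hH)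
  · conv_rhs => rw [as_sum_range' P (m + 1) (by omega)]
    rw [Finset.sum_range]

theorem liouville {P : ℤ[X]} (h : IrrQ P) (hm : 2 ≤ P.natDegree) (n : ℤ) (N : ℕ) (hN : 0 < N) :
    1 ≤ |aeval ((n : ℝ) / N) P| * (N : ℝ) ^ P.natDegree := by
  have hNr : (0 : ℝ) < N := by exact_mod_cast hN
  set m := P.natDegree with hmdef
  set z : ℤ := ∑ i ∈ Finset.range (m + 1), P.coeff i * (n ^ i * (N : ℤ) ^ (m - i)) with hz
  have hval : aeval ((n : ℝ) / N) P * (N : ℝ) ^ m = (z : ℝ) := by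
    rw [aeval_eq_sum, Finset.sum_mul, hz]
    push_cast
    refine Finset.sum_congr rfl (fun i hi => ?_)
    have hi' := Finset.mem_range.mp hi
    have : (N : ℝ) ^ m = N ^ i * N ^ (m - i) := by rw [← pow_add]; congr 1; omega
    rw [this, div_pow]
    field_simp
  have hz0 : z ≠ 0 := by
    intro hz0
    rw [hz0, Int.cast_zero] at hval
    have h1 : aeval ((n : ℝ) / N) P = 0 := by
      rcases mul_eq_zero.mp hval with h1 | h1
      · exact h1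
      · exact absurd h1 (by positivity)
    have h2 : (P.map (Int.castRingHom ℚ)).eval ((n : ℚ) / N) = 0 := by
      have h3 : (((P.map (Int.castRingHom ℚ)).eval ((n : ℚ) / N) : ℚ) : ℝ) =
          aeval ((n : ℝ) / N) P := by
        rw [aeval_eq_sum, eval_eq_sum_range, IrrQ.natDegree_map]
        push_cast
        refine Finset.sum_congr rfl (fun i hi => ?_)
        rw [coeff_map]
        simp
      rw [h1] at h3
      exact_mod_cast h3
    exact Irreducible.not_isRoot_of_natDegree_ne_one h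
      (by rw [IrrQ.natDegree_map]; omega) h2
  rw [← abs_of_pos (a := (N : ℝ) ^ m) (by positivity), ← abs_mul, hval]
  have := Int.one_le_abs hz0
  exact_mod_cast this

/-- Counting grid points where some irreducible polynomial of given degree and height is small. -/
theorem low_count_one (m H N : ℕ) (hN : 0 < N) (δ : ℝ) (hδ0 : 0 ≤ δ)
    (hδ : Kc m * (H : ℝ) ^ (2 * m) * δ < 1) (s : Finset ℤ)
    (hs : ∀ n ∈ s, |(n : ℝ) / N| ≤ 1 ∧ ∃ P : ℤ[X], IrrQ P ∧ P.natDegree = m ∧ ht P = H ∧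
      |aeval ((n : ℝ) / N) P| ≤ δ) :
    (s.card : ℝ) ≤ (2 * (H : ℝ) + 1) ^ (m + 1) *
      (m * (2 * (m * δ * (Kc m * (H : ℝ) ^ (2 * m))) * N + 1)) := by
  classical
  set G := (boxF m H).filter (fun P => IrrQ P ∧ P.natDegree = m ∧ ht P = H) with hG
  have hsub : s ⊆ G.biUnion (fun P => s.filter (fun n : ℤ => |aeval ((n : ℝ) / N) P| ≤ δ)) := by
    intro n hn
    obtain ⟨h1, P, hP1, hP2, hP3, hP4⟩ := hs n hn
    rw [Finset.mem_biUnion]
    refine ⟨P, ?_, Finset.mem_filter.mpr ⟨hn, hP4⟩⟩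
    rw [hG, Finset.mem_filter]
    exact ⟨mem_boxF hP2.le hP3.le, hP1, hP2, hP3⟩
  have hnn : 0 ≤ Kc m := by unfold Kc; positivity
  have hone : ∀ P ∈ G, ((s.filter (fun n : ℤ => |aeval ((n : ℝ) / N) P| ≤ δ)).card : ℝ) ≤
      m * (2 * (m * δ * (Kc m * (H : ℝ) ^ (2 * m))) * N + 1) := by
    intro P hP
    rw [hG, Finset.mem_filter] at hP
    obtain ⟨_, h1, h2, h3⟩ := hP
    have := count_grid h1 N hN δ hδ0 (by rw [h2, h3]; exact hδ)
      (s.filter (fun n : ℤ => |aeval ((n : ℝ) / N) P| ≤ δ)) (by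
        intro n hn
        rw [Finset.mem_filter] at hn
        exact ⟨(hs n hn.1).1, hn.2⟩)
    rw [h2, h3] at this
    exact this
  have hcardG : (G.card : ℝ) ≤ (2 * (H : ℝ) + 1) ^ (m + 1) := by
    have h1 : G.card ≤ (2 * H + 1) ^ (m + 1) := (Finset.card_filter_le _ _).trans (card_boxF m H)
    exact_mod_cast h1
  calc (s.card : ℝ) ≤ ((G.biUnion
      (fun P => s.filter (fun n : ℤ => |aeval ((n : ℝ) / N) P| ≤ δ))).card : ℝ) := by
        exact_mod_cast Finset.card_le_card hsub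
    _ ≤ ((∑ P ∈ G, (s.filter (fun n : ℤ => |aeval ((n : ℝ) / N) P| ≤ δ)).card : ℕ) : ℝ) := by
        exact_mod_cast Finset.card_biUnion_le
    _ = ∑ P ∈ G, ((s.filter (fun n : ℤ => |aeval ((n : ℝ) / N) P| ≤ δ)).card : ℝ) := by
        push_cast; rfl
    _ ≤ ∑ P ∈ G, (m * (2 * (m * δ * (Kc m * (H : ℝ) ^ (2 * m))) * N + 1) : ℝ) :=
        Finset.sum_le_sum hone
    _ = G.card * (m * (2 * (m * δ * (Kc m * (H : ℝ) ^ (2 * m))) * N + 1)) := by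
        rw [Finset.sum_const, nsmul_eq_mul]
    _ ≤ _ := by gcongr

/-- The constant of the low regime. -/
noncomputable def cc (m : ℕ) : ℝ := 3 ^ (m + 1) * (4 * (m : ℝ) ^ 2 * Kc m)

theorem cc_nonneg (m : ℕ) : 0 ≤ cc m := by unfold cc Kc; positivity

/-- Low regime count for a fixed degree, with `N = T ^ 4`. -/
theorem low_count (m : ℕ) (hm : 1 ≤ m) (T N0 : ℕ) (hT : 0 < T) (hN0 : 1 ≤ N0)
    (hK : 2 * Kc m < N0) (s : Finset ℤ)
    (hs : ∀ n ∈ s, |(n : ℝ) / (T ^ 4 : ℕ)| ≤ 1 ∧ ∃ P : ℤ[X], IrrQ P ∧ P.natDegree = m ∧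
      N0 ^ 3 ≤ (ht P) ^ (m + 1) ∧ (ht P) ^ (2 * (m + 1)) ≤ T ^ 4 ∧
      |aeval ((n : ℝ) / (T ^ 4 : ℕ)) P| ≤ 2 / (ht P : ℝ) ^ (40 * (m + 1))) :
    (s.card : ℝ) ≤ 2 * cc m * (T : ℝ) ^ 4 / (N0 : ℝ) ^ 111 + m * 3 ^ (m + 1) * (T : ℝ) ^ 3 := by
  classical
  have hTr : (1 : ℝ) ≤ T := by exact_mod_cast hT
  have hN0r : (1 : ℝ) ≤ N0 := by exact_mod_cast hN0
  have hKn : 0 < Kc m := Kc_pos (by omega)
  set SH := (Finset.Ioo 0 (T + 1)).filter (fun H : ℕ => N0 ^ 3 ≤ H ^ (m + 1) ∧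
    H ^ (2 * (m + 1)) ≤ T ^ 4) with hSH
  set sH : ℕ → Finset ℤ := fun H => s.filter (fun n : ℤ => ∃ P : ℤ[X], IrrQ P ∧ P.natDegree = m ∧
      ht P = H ∧ |aeval ((n : ℝ) / (T ^ 4 : ℕ)) P| ≤ 2 / (H : ℝ) ^ (40 * (m + 1))) with hsH
  have hsub : s ⊆ SH.biUnion sH := by
    intro n hn
    obtain ⟨h1, P, hP1, hP2, hP3, hP4, hP5⟩ := hs n hn
    rw [Finset.mem_biUnion]
    refine ⟨ht P, ?_, ?_⟩
    · rw [hSH, Finset.mem_filter, Finset.mem_Ioo]
      refine ⟨⟨ht_pos hP1.ne_zero, ?_⟩, hP3, hP4⟩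
      have h2 : (ht P) ^ 4 ≤ T ^ 4 := by
        refine le_trans (Nat.pow_le_pow_right (ht_pos hP1.ne_zero) ?_) hP4
        omega
      have := (Nat.pow_le_pow_iff_left (by norm_num : (4 : ℕ) ≠ 0)).mp h2
      omega
    · rw [hsH, Finset.mem_filter]
      exact ⟨hn, P, hP1, hP2, rfl, hP5⟩
  have hone : ∀ H ∈ SH, ((sH H).card : ℝ) ≤
      cc m * (T : ℝ) ^ 4 / (N0 : ℝ) ^ 111 * ((H : ℝ) ^ 2)⁻¹ + m * 3 ^ (m + 1) * (T : ℝ) ^ 2 := by
    intro H hH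
    rw [hSH, Finset.mem_filter, Finset.mem_Ioo] at hH
    obtain ⟨⟨hH0, hHT⟩, hH1, hH2⟩ := hH
    have hHr : (1 : ℝ) ≤ H := by exact_mod_cast hH0
    have hH1r : (N0 : ℝ) ^ 3 ≤ (H : ℝ) ^ (m + 1) := by exact_mod_cast hH1
    have hH2r : ((H : ℝ) ^ (m + 1)) ^ 2 ≤ ((T : ℝ) ^ 2) ^ 2 := by
      have : (H : ℝ) ^ (2 * (m + 1)) ≤ (T : ℝ) ^ 4 := by exact_mod_cast hH2
      rw [← pow_mul, ← pow_mul, mul_comm (m + 1) 2]
      exact this
    have hH3r : (H : ℝ) ^ (m + 1) ≤ (T : ℝ) ^ 2 :=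
      (pow_le_pow_iff_left₀ (by positivity) (by positivity) two_ne_zero).mp hH2r
    set δ : ℝ := 2 / (H : ℝ) ^ (40 * (m + 1)) with hδ
    have hδ0 : 0 ≤ δ := by positivity
    have hδ1 : Kc m * (H : ℝ) ^ (2 * m) * δ < 1 := by
      rw [hδ, mul_div_assoc', div_lt_one (by positivity)]
      have e1 : (H : ℝ) ^ (40 * (m + 1)) = (H : ℝ) ^ (2 * m) * (H : ℝ) ^ (38 * m + 40) := by
        rw [← pow_add]; congr 1; ring
      rw [e1]
      have e2 : 2 * Kc m < (H : ℝ) ^ (38 * m + 40) := by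
        calc 2 * Kc m < N0 := hK
          _ = (N0 : ℝ) ^ 1 := (pow_one _).symm
          _ ≤ (N0 : ℝ) ^ 3 := pow_le_pow_right₀ hN0r (by norm_num)
          _ ≤ (H : ℝ) ^ (m + 1) := hH1r
          _ ≤ (H : ℝ) ^ (38 * m + 40) := pow_le_pow_right₀ hHr (by omega)
      have e3 : (0 : ℝ) < (H : ℝ) ^ (2 * m) := by positivity
      nlinarith
    have hT4 : (0 : ℕ) < T ^ 4 := by positivity
    have key := low_count_one m H (T ^ 4) hT4 δ hδ0 hδ1 (sH H) (by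
      intro n hn
      rw [hsH, Finset.mem_filter] at hn
      exact ⟨(hs n hn.1).1, hn.2⟩)
    refine key.trans ?_
    have h3H : (2 * (H : ℝ) + 1) ^ (m + 1) ≤ 3 ^ (m + 1) * (H : ℝ) ^ (m + 1) := by
      rw [← mul_pow]
      exact pow_le_pow_left₀ (by positivity) (by linarith) _
    have hA : (H : ℝ) ^ (40 * (m + 1)) = (H : ℝ) ^ (m + 1) * (H : ℝ) ^ (2 * m) *
        (((H : ℝ) ^ (m + 1)) ^ 37 * (H : ℝ) ^ 2) := by
      rw [← pow_mul, ← pow_add, ← pow_add, ← pow_add]; congr 1; ring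
    have hB : (N0 : ℝ) ^ 111 ≤ ((H : ℝ) ^ (m + 1)) ^ 37 := by
      calc (N0 : ℝ) ^ 111 = ((N0 : ℝ) ^ 3) ^ 37 := by rw [← pow_mul]
        _ ≤ _ := pow_le_pow_left₀ (by positivity) hH1r 37
    calc (2 * (H : ℝ) + 1) ^ (m + 1) *
          (m * (2 * (m * δ * (Kc m * (H : ℝ) ^ (2 * m))) * (T ^ 4 : ℕ) + 1))
        ≤ (3 ^ (m + 1) * (H : ℝ) ^ (m + 1)) *
          (m * (2 * (m * δ * (Kc m * (H : ℝ) ^ (2 * m))) * (T ^ 4 : ℕ) + 1)) := by
          gcongr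
      _ = cc m * (T : ℝ) ^ 4 * ((H : ℝ) ^ (m + 1) * (H : ℝ) ^ (2 * m) / (H : ℝ) ^ (40 * (m + 1)))
          + m * 3 ^ (m + 1) * (H : ℝ) ^ (m + 1) := by
          rw [hδ, cc]; push_cast; ring
      _ = cc m * (T : ℝ) ^ 4 * (((H : ℝ) ^ (m + 1)) ^ 37)⁻¹ * ((H : ℝ) ^ 2)⁻¹
          + m * 3 ^ (m + 1) * (H : ℝ) ^ (m + 1) := by
          rw [hA]
          field_simp
      _ ≤ cc m * (T : ℝ) ^ 4 * ((N0 : ℝ) ^ 111)⁻¹ * ((H : ℝ) ^ 2)⁻¹
          + m * 3 ^ (m + 1) * (T : ℝ) ^ 2 := by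
          have := cc_nonneg m
          gcongr
      _ = _ := by ring
  calc (s.card : ℝ) ≤ ((SH.biUnion sH).card : ℝ) := by
        exact_mod_cast Finset.card_le_card hsub
    _ ≤ ((∑ H ∈ SH, (sH H).card : ℕ) : ℝ) := by exact_mod_cast Finset.card_biUnion_le
    _ = ∑ H ∈ SH, ((sH H).card : ℝ) := by push_cast; rfl
    _ ≤ ∑ H ∈ SH, (cc m * (T : ℝ) ^ 4 / (N0 : ℝ) ^ 111 * ((H : ℝ) ^ 2)⁻¹ +
          m * 3 ^ (m + 1) * (T : ℝ) ^ 2) := Finset.sum_le_sum hone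
    _ ≤ ∑ H ∈ Finset.Ioo 0 (T + 1), (cc m * (T : ℝ) ^ 4 / (N0 : ℝ) ^ 111 * ((H : ℝ) ^ 2)⁻¹ +
          m * 3 ^ (m + 1) * (T : ℝ) ^ 2) := by
        apply Finset.sum_le_sum_of_subset_of_nonneg (Finset.filter_subset _ _)
        intro H _ _
        have := cc_nonneg m
        positivity
    _ = cc m * (T : ℝ) ^ 4 / (N0 : ℝ) ^ 111 * (∑ H ∈ Finset.Ioo 0 (T + 1), ((H : ℝ) ^ 2)⁻¹) +
          T * (m * 3 ^ (m + 1) * (T : ℝ) ^ 2) := by
        rw [Finset.sum_add_distrib, ← Finset.mul_sum, Finset.sum_const, Nat.card_Ioo,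
          nsmul_eq_mul]
        simp
    _ ≤ cc m * (T : ℝ) ^ 4 / (N0 : ℝ) ^ 111 * 2 + T * (m * 3 ^ (m + 1) * (T : ℝ) ^ 2) := by
        have h1 := sum_Ioo_inv_sq_le (α := ℝ) 0 (T + 1)
        have := cc_nonneg m
        have h2 : (∑ H ∈ Finset.Ioo 0 (T + 1), ((H : ℝ) ^ 2)⁻¹) ≤ 2 := by
          refine h1.trans ?_
          norm_num
        gcongr
    _ = _ := by ring

end Pool.Agent.Helper35
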