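import Mathlib
import Pool.Agent.Helper35.Count

set_option autoImplicit false

namespace Pool.Agent.Helper35

open Polynomial

theorem exists_pow_gt (p : ℕ) (hp : 2 ≤ p) (B : ℝ) : ∃ A0 : ℕ, ∀ A ≥ A0, B < (p : ℝ) ^ A := by
  have hp1 : (1 : ℝ) < p := by exact_mod_cast (by omega : 1 < p)
  obtain ⟨A0, hA0⟩ := pow_unbounded_of_one_lt B hp1
  exact ⟨A0, fun A hA => hA0.trans_le (pow_le_pow_right₀ hp1.le hA)⟩

theorem shift_params (m p : ℕ) (hm : 19 ≤ m) (hp : 2 ≤ p) (B : ℝ) : ∃ A0 : ℕ, ∀ A ≥ A0,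
    (6 * A / (m * (m + 1)) + 2) ≤ A ∧ B ≤ (p : ℝ) ^ (6 * A / (m * (m + 1)) + 2) ∧
    (p ^ (3 * A / (m + 1) + 1)) ^ 2 < (p ^ (6 * A / (m * (m + 1)) + 2)) ^ m ∧
    ((2 * m).factorial : ℝ) * (((m : ℝ) + 1) * ((p ^ (3 * A / (m + 1) + 1) : ℕ) : ℝ) *
      (2 * (p : ℝ) ^ (6 * A / (m * (m + 1)) + 2)) ^ m) ^ (2 * m - 1) *
      (((p : ℝ) ^ (6 * A / (m * (m + 1)) + 2)) ^ m * (1 / ((p : ℝ) ^ A) ^ 19)) < 1 := by
  obtain ⟨A1, hA1⟩ := exists_pow_gt p hp B
  set c : ℝ := ((2 * m).factorial : ℝ) * ((m : ℝ) + 1) ^ (2 * m - 1) *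
    (2 ^ m) ^ (2 * m - 1) with hc
  obtain ⟨A2, hA2⟩ := exists_pow_gt p hp (c * (p : ℝ) ^ (4 * m ^ 2 + 2 * m))
  refine ⟨max (max 4 A2) (m * (m + 1) * A1), fun A hA => ?_⟩
  have hA4 : 4 ≤ A := le_trans (le_trans (le_max_left _ _) (le_max_left _ _)) hA
  have hAA2 : A2 ≤ A := le_trans (le_trans (le_max_right _ _) (le_max_left _ _)) hA
  have hAA1 : m * (m + 1) * A1 ≤ A := le_trans (le_max_right _ _) hA
  have hmm : 380 ≤ m * (m + 1) := by nlinarith
  have hmmpos : 0 < m * (m + 1) := by omega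
  set e := 6 * A / (m * (m + 1)) + 2 with he
  set h := 3 * A / (m + 1) + 1 with hh
  have hp1 : (1 : ℝ) < p := by exact_mod_cast (by omega : 1 < p)
  have hp0 : (0 : ℝ) < p := by linarith
  -- bounds for e and h
  have he1 : 6 * A / (m * (m + 1)) * (m * (m + 1)) ≤ 6 * A := Nat.div_mul_le_self _ _
  have he2 : 6 * A < (6 * A / (m * (m + 1)) + 1) * (m * (m + 1)) := by
    have := Nat.lt_mul_div_succ (6 * A) hmmpos
    linarith [mul_comm (m * (m + 1)) (6 * A / (m * (m + 1)) + 1)]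
  have hh1 : 3 * A / (m + 1) * (m + 1) ≤ 3 * A := Nat.div_mul_le_self _ _
  refine ⟨?_, ?_, ?_, ?_⟩
  · have : 6 * A / (m * (m + 1)) ≤ 6 * A / 380 := Nat.div_le_div_left hmm (by norm_num)
    omega
  · have h1 : A1 ≤ e := by
      have h2 : A1 ≤ 6 * A / (m * (m + 1)) := by
        rw [Nat.le_div_iff_mul_le hmmpos]
        nlinarith
      omega
    exact (hA1 e h1).le
  · rw [← pow_mul, ← pow_mul]
    apply Nat.pow_lt_pow_right (by omega)
    -- h * 2 < e * m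
    have h3 : h * 2 * (m + 1) < e * m * (m + 1) := by
      have e1 : e * m * (m + 1) = (6 * A / (m * (m + 1)) + 1) * (m * (m + 1)) +
        m * (m + 1) := by rw [he]; ring
      have e2 : h * 2 * (m + 1) = 2 * (3 * A / (m + 1) * (m + 1)) + 2 * (m + 1) := by
        rw [hh]; ring
      rw [e1, e2]
      nlinarith
    exact lt_of_mul_lt_mul_right h3 (Nat.zero_le _)
  · have hexp : h * (2 * m - 1) + (e * m) * (2 * m) ≤ 18 * A + (4 * m ^ 2 + 2 * m) := by
      have h3 : (h * (2 * m - 1) + (e * m) * (2 * m)) * (m + 1) ≤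
          (18 * A + (4 * m ^ 2 + 2 * m)) * (m + 1) := by
        have e1 : e * m * (m + 1) ≤ 6 * A + 2 * (m * (m + 1)) := by
          have : e * m * (m + 1) = 6 * A / (m * (m + 1)) * (m * (m + 1)) +
            2 * (m * (m + 1)) := by rw [he]; ring
          omega
        have e2 : h * (m + 1) ≤ 3 * A + (m + 1) := by
          have : h * (m + 1) = 3 * A / (m + 1) * (m + 1) + (m + 1) := by rw [hh]; ring
          omega
        calc (h * (2 * m - 1) + (e * m) * (2 * m)) * (m + 1)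
            = (h * (m + 1)) * (2 * m - 1) + (e * m * (m + 1)) * (2 * m) := by ring
          _ ≤ (3 * A + (m + 1)) * (2 * m - 1) + (6 * A + 2 * (m * (m + 1))) * (2 * m) := by
              gcongr
          _ ≤ (3 * A + (m + 1)) * (2 * m) + (6 * A + 2 * (m * (m + 1))) * (2 * m) := by
              gcongr; omega
          _ ≤ (18 * A + (4 * m ^ 2 + 2 * m)) * (m + 1) := by nlinarith
      exact le_of_mul_le_mul_right h3 (by omega)
    have hlhs : ((2 * m).factorial : ℝ) * (((m : ℝ) + 1) * ((p ^ h : ℕ) : ℝ) *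
      (2 * (p : ℝ) ^ e) ^ m) ^ (2 * m - 1) * (((p : ℝ) ^ e) ^ m * (1 / ((p : ℝ) ^ A) ^ 19))
        = c * (p : ℝ) ^ (h * (2 * m - 1) + (e * m) * (2 * m)) / ((p : ℝ) ^ A) ^ 19 := by
      have e3 : (p : ℝ) ^ (h * (2 * m - 1) + (e * m) * (2 * m)) =
          ((p : ℝ) ^ h) ^ (2 * m - 1) * (((p : ℝ) ^ e) ^ m) ^ (2 * m - 1) *
            ((p : ℝ) ^ e) ^ m := by
        have e4 : (((p : ℝ) ^ e) ^ m) ^ (2 * m) =
            (((p : ℝ) ^ e) ^ m) ^ (2 * m - 1) * ((p : ℝ) ^ e) ^ m := by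
          rw [← pow_succ]; congr 1; omega
        rw [pow_add, pow_mul (p : ℝ) h, pow_mul (p : ℝ) (e * m), pow_mul (p : ℝ) e m, e4,
          mul_assoc]
      rw [e3, hc]
      push_cast
      rw [mul_pow, mul_pow, mul_pow 2 ((p : ℝ) ^ e), mul_pow]
      field_simp
    rw [hlhs, div_lt_one (by positivity)]
    calc c * (p : ℝ) ^ (h * (2 * m - 1) + (e * m) * (2 * m))
        ≤ c * (p : ℝ) ^ (18 * A + (4 * m ^ 2 + 2 * m)) := by
          gcongr
          exact hp1.le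
      _ = (c * (p : ℝ) ^ (4 * m ^ 2 + 2 * m)) * (p : ℝ) ^ (18 * A) := by
          rw [pow_add]; ring
      _ < (p : ℝ) ^ A * (p : ℝ) ^ (18 * A) := by
          have := hA2 A hAA2
          have h5 : (0 : ℝ) < (p : ℝ) ^ (18 * A) := by positivity
          exact mul_lt_mul_of_pos_right this h5
      _ = ((p : ℝ) ^ A) ^ 19 := by
          rw [← pow_mul, ← pow_add]; congr 1; ring

end Pool.Agent.Helper35
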