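import Mathlib
import Pool.Agent.Helper35.Step

set_option autoImplicit false

namespace Pool.Agent.Helper35

open Polynomial

theorem step (k : ℕ) : ∃ Φ : ℕ, ∀ N0 : ℕ, Φ ≤ N0 → ∀ a : ℝ, 0 ≤ a →
    a + 1 / (4 * (N0 : ℝ) ^ 90) ≤ 1 → ∀ M0 : ℕ, ∃ N : ℕ, M0 ≤ N ∧ 1 ≤ N ∧ ∃ n : ℤ,
    a ≤ (n : ℝ) / N ∧ (n : ℝ) / N ≤ a + 1 / (4 * (N0 : ℝ) ^ 90) ∧
    (∀ P : ℤ[X], IrrQ P → P.natDegree ≤ k → N0 ^ 3 ≤ (ht P) ^ (P.natDegree + 1) →
      (ht P) ^ (2 * (P.natDegree + 1)) ≤ N →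
      2 < |aeval ((n : ℝ) / N) P| * (ht P : ℝ) ^ (40 * (P.natDegree + 1))) ∧
    (∀ P : ℤ[X], IrrQ P → 2 ≤ P.natDegree → P.natDegree ≤ k →
      (ht P) ^ (P.natDegree + 1) ≤ N ^ 3 →
      1 < |aeval ((n : ℝ) / N) P| * (N : ℝ) ^ 19) := by
  classical
  set SK : ℝ := ∑ m ∈ Finset.range (k + 1), Kc m with hSK
  set SC : ℝ := ∑ m ∈ Finset.range (k + 1), cc m with hSC
  set SD : ℝ := ∑ m ∈ Finset.range (k + 1), (m : ℝ) * 3 ^ (m + 1) with hSD
  have hKnn : ∀ m, 0 ≤ Kc m := fun m => by unfold Kc; positivity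
  have hSK0 : 0 ≤ SK := Finset.sum_nonneg (fun m _ => hKnn m)
  have hSC0 : 0 ≤ SC := Finset.sum_nonneg (fun m _ => cc_nonneg m)
  have hSD0 : 0 ≤ SD := Finset.sum_nonneg (fun m _ => by positivity)
  obtain ⟨p, hpL, hp⟩ := Nat.exists_infinite_primes (24 * (k + 1))
  set L := 24 * (k + 1) with hL
  have hp2 : 2 ≤ p := hp.two_le
  have hp1r : (1 : ℝ) < p := by exact_mod_cast hp.one_lt
  refine ⟨⌈2 * SK + 64 * SC⌉₊ + 2, fun N0 hN0 a ha haw M0 => ?_⟩
  have hN02 : 2 ≤ N0 := by omega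
  have hN0r : (2 : ℝ) ≤ N0 := by exact_mod_cast hN02
  have hN0big : 2 * SK + 64 * SC < N0 := by
    have h1 := Nat.le_ceil (2 * SK + 64 * SC)
    have h2 : ((⌈2 * SK + 64 * SC⌉₊ : ℕ) : ℝ) + 2 ≤ N0 := by exact_mod_cast hN0
    linarith
  set w : ℝ := 1 / (4 * (N0 : ℝ) ^ 90) with hw
  have hwpos : 0 < w := by positivity
  have hw1 : w ≤ 1 := by linarith
  -- parameters for the shift regime
  have hpar : ∀ m : ℕ, ∃ A0 : ℕ, 19 ≤ m → ∀ A ≥ A0,
      (6 * A / (m * (m + 1)) + 2) ≤ A ∧ (L : ℝ) / w ≤ (p : ℝ) ^ (6 * A / (m * (m + 1)) + 2) ∧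
      (p ^ (3 * A / (m + 1) + 1)) ^ 2 < (p ^ (6 * A / (m * (m + 1)) + 2)) ^ m ∧
      ((2 * m).factorial : ℝ) * (((m : ℝ) + 1) * ((p ^ (3 * A / (m + 1) + 1) : ℕ) : ℝ) *
        (2 * (p : ℝ) ^ (6 * A / (m * (m + 1)) + 2)) ^ m) ^ (2 * m - 1) *
        (((p : ℝ) ^ (6 * A / (m * (m + 1)) + 2)) ^ m * (1 / ((p : ℝ) ^ A) ^ 19)) < 1 := by
    intro m
    by_cases hm : 19 ≤ m
    · obtain ⟨A0, hA0⟩ := shift_params m p hm hp2 ((L : ℝ) / w)
      exact ⟨A0, fun _ => hA0⟩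
    · exact ⟨0, fun h => absurd h hm⟩
  choose A0 hA0 using hpar
  set A1 : ℕ := ∑ m ∈ Finset.range (k + 1), A0 m with hA1
  have hA1le : ∀ m, m ≤ k → A0 m ≤ A1 := by
    intro m hm
    exact Finset.single_le_sum (f := A0) (fun _ _ => Nat.zero_le _)
      (Finset.mem_range.mpr (by omega))
  obtain ⟨A2, hA2⟩ := exists_pow_gt p hp2 (8 * SD / w + 8 / w)
  set A' : ℕ := max (max A1 A2) (M0 + 1) with hA'
  have hA'1 : A1 ≤ A' := le_trans (le_max_left _ _) (le_max_left _ _)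
  have hA'2 : A2 ≤ A' := le_trans (le_max_right _ _) (le_max_left _ _)
  have hA'3 : M0 + 1 ≤ A' := le_max_right _ _
  set T := p ^ A' with hT
  have hTpos : 0 < T := by positivity
  have hTr : (1 : ℝ) ≤ T := by exact_mod_cast hTpos
  have hTbig : 8 * SD / w + 8 / w < T := by
    have := hA2 A' hA'2
    rw [hT]; push_cast; exact this
  have hTA : A' < T := Nat.lt_pow_self hp.one_lt
  have hN : p ^ (4 * A') = T ^ 4 := by rw [hT, ← pow_mul]; congr 1; ring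
  have hTT : T ≤ T ^ 4 := Nat.le_self_pow (by norm_num) T
  have hTTr : (T : ℝ) ≤ (T : ℝ) ^ 4 := by exact_mod_cast hTT
  have hNr : (p : ℝ) ^ (4 * A') = ((T ^ 4 : ℕ) : ℝ) := by exact_mod_cast hN
  refine ⟨T ^ 4, by omega, by omega, ?_⟩
  set N : ℕ := T ^ 4 with hNdef
  have hNpos : 0 < N := by positivity
  have hNrpos : (0 : ℝ) < N := by exact_mod_cast hNpos
  have hNT : (N : ℝ) = (T : ℝ) ^ 4 := by rw [hNdef]; push_cast; rfl
  have hwN : 8 ≤ w * N := by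
    have h1 : 8 / w < T := by
      have : 0 ≤ 8 * SD / w := by positivity
      linarith
    rw [div_lt_iff₀ hwpos] at h1
    calc (8 : ℝ) ≤ T * w := h1.le
      _ ≤ (T : ℝ) ^ 4 * w := by gcongr
      _ = w * N := by rw [hNT]; ring
  by_contra hcon
  push Not at hcon
  set All := Finset.Icc ⌈a * N⌉ ⌊(a + w) * N⌋ with hAll
  have hmem : ∀ n ∈ All, a ≤ (n : ℝ) / N ∧ (n : ℝ) / N ≤ a + w := by
    intro n hn
    rw [hAll, Finset.mem_Icc] at hn
    rw [le_div_iff₀ hNrpos, div_le_iff₀ hNrpos]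
    exact ⟨Int.ceil_le.mp hn.1, Int.le_floor.mp hn.2⟩
  have habs : ∀ n ∈ All, |(n : ℝ) / N| ≤ 1 := by
    intro n hn
    obtain ⟨h1, h2⟩ := hmem n hn
    rw [abs_le]; constructor <;> linarith
  have hcardAll : w * N - 1 ≤ (All.card : ℝ) := by
    rw [hAll, Int.card_Icc]
    have h1 : ((⌊(a + w) * N⌋ + 1 - ⌈a * N⌉ : ℤ) : ℝ) ≤
        (((⌊(a + w) * N⌋ + 1 - ⌈a * N⌉).toNat : ℕ) : ℝ) := by
      exact_mod_cast Int.self_le_toNat _
    refine le_trans ?_ h1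
    push_cast
    have h2 := Int.lt_floor_add_one ((a + w) * N)
    have h3 := Int.ceil_lt_add_one (a * N)
    linarith
  set LB : ℕ → Finset ℤ := fun m => All.filter (fun n : ℤ => ∃ P : ℤ[X], IrrQ P ∧
    P.natDegree = m ∧ N0 ^ 3 ≤ (ht P) ^ (m + 1) ∧ (ht P) ^ (2 * (m + 1)) ≤ T ^ 4 ∧
      |aeval ((n : ℝ) / (T ^ 4 : ℕ)) P| ≤ 2 / (ht P : ℝ) ^ (40 * (m + 1))) with hLB
  set SB : ℕ → Finset ℤ := fun m => All.filter (fun n : ℤ => ∃ P : ℤ[X], IrrQ P ∧
    P.natDegree = m ∧ ht P ≤ p ^ (3 * (4 * A') / (m + 1) + 1) ∧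
      |aeval ((n : ℝ) / (p : ℝ) ^ (4 * A')) P| ≤ 1 / ((p : ℝ) ^ (4 * A')) ^ 19) with hSB
  have hsub : All ⊆ (Finset.Icc 1 k).biUnion LB ∪ (Finset.Icc 19 k).biUnion SB := by
    intro n hn
    obtain ⟨hn1, hn2⟩ := hmem n hn
    rw [Finset.mem_union, Finset.mem_biUnion, Finset.mem_biUnion]
    by_cases hlow : ∀ P : ℤ[X], IrrQ P → P.natDegree ≤ k → N0 ^ 3 ≤ (ht P) ^ (P.natDegree + 1) →
      (ht P) ^ (2 * (P.natDegree + 1)) ≤ N →
      2 < |aeval ((n : ℝ) / N) P| * (ht P : ℝ) ^ (40 * (P.natDegree + 1))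
    · right
      obtain ⟨P, hP1, hP2, hP3, hP4, hP5⟩ := hcon n hn1 hn2 hlow
      have hm19 : 19 ≤ P.natDegree := by
        by_contra hc
        have h1 := liouville hP1 hP2 n N hNpos
        have h2 : |aeval ((n : ℝ) / N) P| * (N : ℝ) ^ P.natDegree * (N : ℝ) ≤
            |aeval ((n : ℝ) / N) P| * (N : ℝ) ^ 19 := by
          rw [mul_assoc, ← pow_succ]
          have hN1 : (1 : ℝ) ≤ N := by exact_mod_cast hNpos
          have := pow_le_pow_right₀ hN1 (by omega : P.natDegree + 1 ≤ 19)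
          exact mul_le_mul_of_nonneg_left this (abs_nonneg _)
        have h3 : (8 : ℝ) ≤ N := by
          calc (8 : ℝ) ≤ w * N := hwN
            _ ≤ 1 * N := by gcongr
            _ = N := one_mul _
        nlinarith
      refine ⟨P.natDegree, Finset.mem_Icc.mpr ⟨hm19, hP3⟩, ?_⟩
      rw [hSB, Finset.mem_filter]
      refine ⟨hn, P, hP1, rfl, ?_, ?_⟩
      · by_contra hc
        push Not at hc
        have h1 : p ^ (3 * (4 * A')) < p ^ ((3 * (4 * A') / (P.natDegree + 1) + 1) *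
            (P.natDegree + 1)) := by
          apply Nat.pow_lt_pow_right hp.one_lt
          calc 3 * (4 * A') < (P.natDegree + 1) * (3 * (4 * A') / (P.natDegree + 1) + 1) :=
                Nat.lt_mul_div_succ _ (Nat.succ_pos P.natDegree)
            _ = _ := Nat.mul_comm _ _
        have h2 : p ^ ((3 * (4 * A') / (P.natDegree + 1) + 1) *
            (P.natDegree + 1)) ≤ (ht P) ^ (P.natDegree + 1) := by
          rw [pow_mul]; exact Nat.pow_le_pow_left hc.le _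
        have h3 : p ^ (3 * (4 * A')) = N ^ 3 := by
          rw [mul_comm, pow_mul, hN]
        omega
      · rw [hNr]
        rw [le_div_iff₀ (by positivity)]
        exact hP5
    · left
      push Not at hlow
      obtain ⟨P, hP1, hP2, hP3, hP4, hP5⟩ := hlow
      refine ⟨P.natDegree, Finset.mem_Icc.mpr ⟨hP1.natDegree_pos, hP2⟩, ?_⟩
      rw [hLB, Finset.mem_filter]
      refine ⟨hn, P, hP1, rfl, hP3, hP4, ?_⟩
      have hhp : (0 : ℝ) < ht P := by exact_mod_cast ht_pos hP1.ne_zero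
      rw [le_div_iff₀ (by positivity)]
      exact hP5
  have hLBcard : ∀ m ∈ Finset.Icc 1 k, ((LB m).card : ℝ) ≤
      2 * cc m * (T : ℝ) ^ 4 / (N0 : ℝ) ^ 111 + m * 3 ^ (m + 1) * (T : ℝ) ^ 3 := by
    intro m hm
    rw [Finset.mem_Icc] at hm
    refine low_count m hm.1 T N0 hTpos (by omega) ?_ (LB m) ?_
    · have h1 : Kc m ≤ SK := Finset.single_le_sum (f := Kc) (fun i _ => hKnn i)
        (Finset.mem_range.mpr (by omega))
      linarith
    · intro n hn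
      rw [hLB, Finset.mem_filter] at hn
      exact ⟨habs n hn.1, hn.2⟩
  have hSBcard : ∀ m ∈ Finset.Icc 19 k, ((SB m).card : ℝ) ≤ w * N / (8 * (k + 1)) := by
    intro m hm
    rw [Finset.mem_Icc] at hm
    have hAA : A0 m ≤ 4 * A' :=
      (hA1le m hm.2).trans (hA'1.trans (Nat.le_mul_of_pos_left _ (by norm_num)))
    obtain ⟨h1, h2, h3, h4⟩ := hA0 m hm.1 (4 * A') hAA
    have hLp : L ≤ p ^ (6 * (4 * A') / (m * (m + 1)) + 2) :=
      hpL.trans (Nat.le_self_pow (Nat.succ_ne_zero _) p)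
    have key := card_shift_bad m p _ (4 * A') L hp h1 hpL hLp _ h3 _ h4 a w ha hwpos.le haw
      (SB m) (by
        intro n hn
        rw [hSB, Finset.mem_filter] at hn
        obtain ⟨g1, g2⟩ := hmem n hn.1
        rw [hNr]
        exact ⟨g1, g2, by rw [← hNr]; exact hn.2⟩)
    rw [hNr] at key
    have hpe : (0 : ℝ) < (p : ℝ) ^ (6 * (4 * A') / (m * (m + 1)) + 2) := by positivity
    have h5 : (L : ℝ) / (p : ℝ) ^ (6 * (4 * A') / (m * (m + 1)) + 2) ≤ w := by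
      rw [div_le_iff₀ hpe]
      rw [div_le_iff₀ hwpos] at h2
      linarith
    have hLr : (L : ℝ) = 24 * (k + 1) := by rw [hL]; push_cast; ring
    have h6 : ((SB m).card : ℝ) * L ≤ 3 * (w * N) := by
      have h7 : (N : ℝ) * (w + (L : ℝ) / (p : ℝ) ^ (6 * (4 * A') / (m * (m + 1)) + 2)) ≤
          (N : ℝ) * (w + w) :=
        mul_le_mul_of_nonneg_left (by linarith only [h5]) hNrpos.le
      have h8 : (N : ℝ) * (w + w) = 2 * (w * N) := by ring
      linarith only [key, h7, h8, hwN]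
    rw [le_div_iff₀ (by positivity)]
    rw [hLr] at h6
    linarith
  have hcardle : (All.card : ℝ) ≤ ∑ m ∈ Finset.Icc 1 k, ((LB m).card : ℝ) +
      ∑ m ∈ Finset.Icc 19 k, ((SB m).card : ℝ) := by
    have h1 : All.card ≤ ∑ m ∈ Finset.Icc 1 k, (LB m).card +
        ∑ m ∈ Finset.Icc 19 k, (SB m).card :=
      (Finset.card_le_card hsub).trans ((Finset.card_union_le _ _).trans
        (add_le_add Finset.card_biUnion_le Finset.card_biUnion_le))
    exact_mod_cast h1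
  have hs1 : ∑ m ∈ Finset.Icc 1 k, ((LB m).card : ℝ) ≤
      2 * SC * (T : ℝ) ^ 4 / (N0 : ℝ) ^ 111 + SD * (T : ℝ) ^ 3 := by
    calc ∑ m ∈ Finset.Icc 1 k, ((LB m).card : ℝ)
        ≤ ∑ m ∈ Finset.Icc 1 k, (2 * cc m * (T : ℝ) ^ 4 / (N0 : ℝ) ^ 111 +
          m * 3 ^ (m + 1) * (T : ℝ) ^ 3) := Finset.sum_le_sum hLBcard
      _ ≤ ∑ m ∈ Finset.range (k + 1), (2 * cc m * (T : ℝ) ^ 4 / (N0 : ℝ) ^ 111 +
          m * 3 ^ (m + 1) * (T : ℝ) ^ 3) := by
          apply Finset.sum_le_sum_of_subset_of_nonneg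
          · intro m hm
            rw [Finset.mem_Icc] at hm
            exact Finset.mem_range.mpr (by omega)
          · intro m _ _
            have := cc_nonneg m
            positivity
      _ = _ := by
          rw [Finset.sum_add_distrib, hSC, hSD, Finset.mul_sum, Finset.sum_mul, Finset.sum_div,
            Finset.sum_mul]
  have hs2 : ∑ m ∈ Finset.Icc 19 k, ((SB m).card : ℝ) ≤ w * N / 8 := by
    calc ∑ m ∈ Finset.Icc 19 k, ((SB m).card : ℝ)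
        ≤ ∑ m ∈ Finset.Icc 19 k, (w * N / (8 * (k + 1)) : ℝ) := Finset.sum_le_sum hSBcard
      _ = (Finset.Icc 19 k).card * (w * N / (8 * (k + 1))) := by
          rw [Finset.sum_const, nsmul_eq_mul]
      _ ≤ ((k : ℝ) + 1) * (w * N / (8 * (k + 1))) := by
          gcongr
          rw [Nat.card_Icc]
          have : k + 1 - 19 ≤ k + 1 := Nat.sub_le _ _
          exact_mod_cast this
      _ = w * N / 8 := by field_simp
  have hs3 : 2 * SC * (T : ℝ) ^ 4 / (N0 : ℝ) ^ 111 ≤ w * N / 8 := by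
    have h1 : 64 * SC ≤ (N0 : ℝ) ^ 21 := by
      calc 64 * SC ≤ N0 := by linarith
        _ = (N0 : ℝ) ^ 1 := (pow_one _).symm
        _ ≤ (N0 : ℝ) ^ 21 := pow_le_pow_right₀ (by linarith) (by norm_num)
    rw [hw, hNT, div_le_iff₀ (by positivity)]
    have e1 : (N0 : ℝ) ^ 111 = (N0 : ℝ) ^ 90 * (N0 : ℝ) ^ 21 := by rw [← pow_add]
    have e2 : 1 / (4 * (N0 : ℝ) ^ 90) * (T : ℝ) ^ 4 / 8 * (N0 : ℝ) ^ 111 =
        (T : ℝ) ^ 4 * (N0 : ℝ) ^ 21 / 32 := by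
      rw [e1]; field_simp; ring
    rw [e2]
    have hT4 : (0 : ℝ) < (T : ℝ) ^ 4 := by positivity
    nlinarith
  have hs4 : SD * (T : ℝ) ^ 3 ≤ w * N / 8 := by
    have h1 : 8 * SD / w ≤ T := by
      have : 0 ≤ 8 / w := by positivity
      linarith
    rw [div_le_iff₀ hwpos] at h1
    rw [hNT]
    have hT3 : (0 : ℝ) < (T : ℝ) ^ 3 := by positivity
    have : SD ≤ w * T / 8 := by linarith
    calc SD * (T : ℝ) ^ 3 ≤ (w * T / 8) * (T : ℝ) ^ 3 := by gcongr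
      _ = _ := by ring
  linarith

end Pool.Agent.Helper35
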