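import Mathlib
import Pool.Agent.Helper35.StepMain

set_option autoImplicit false

namespace Pool.Agent.Helper35

open Polynomial

/-- Properties linking two consecutive stages. -/
structure Rel (k : ℕ) (N N' : ℕ) (n n' : ℤ) : Prop where
  grow : 4 * N ≤ N'
  lo : (n : ℝ) / N + 1 / (2 * (N : ℝ) ^ 90) ≤ (n' : ℝ) / N'
  hi : (n' : ℝ) / N' ≤ (n : ℝ) / N + 3 / (4 * (N : ℝ) ^ 90)
  low : ∀ P : ℤ[X], IrrQ P → P.natDegree ≤ k → N ^ 3 ≤ (ht P) ^ (P.natDegree + 1) →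
      (ht P) ^ (2 * (P.natDegree + 1)) ≤ N' →
      2 < |aeval ((n' : ℝ) / N') P| * (ht P : ℝ) ^ (40 * (P.natDegree + 1))
  shift : ∀ P : ℤ[X], IrrQ P → 2 ≤ P.natDegree → P.natDegree ≤ k →
      (ht P) ^ (P.natDegree + 1) ≤ N' ^ 3 →
      1 < |aeval ((n' : ℝ) / N') P| * (N' : ℝ) ^ 19

theorem constr : ∃ (ξ : ℝ) (N : ℕ → ℕ) (n : ℕ → ℤ),
    (∀ k, 1 ≤ N k) ∧ (∀ k, 0 ≤ (n k : ℝ) / N k) ∧ ξ ≤ 1 ∧
    (∀ k, 1 / (2 * (N k : ℝ) ^ 90) ≤ ξ - (n k : ℝ) / N k) ∧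
    (∀ k, ξ - (n k : ℝ) / N k ≤ 1 / (N k : ℝ) ^ 90) ∧
    (∀ k, Rel k (N k) (N (k + 1)) (n k) (n (k + 1))) := by
  choose Φ hΦ using step
  let St : ℕ → Type := fun k => {s : ℕ × ℤ // Φ k ≤ s.1 ∧ 1 ≤ s.1 ∧ 0 ≤ (s.2 : ℝ) / s.1 ∧
    (s.2 : ℝ) / s.1 + 1 / (s.1 : ℝ) ^ 90 ≤ 1}
  have hnext : ∀ k (s : St k), ∃ s' : St (k + 1),
      Rel k s.1.1 s'.1.1 s.1.2 s'.1.2 := by
    rintro k ⟨⟨N, n⟩, h1, h2, h3, h4⟩
    simp only at h1 h2 h3 h4
    have hNr : (1 : ℝ) ≤ N := by exact_mod_cast h2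
    have hNp : (0 : ℝ) < (N : ℝ) ^ 90 := by positivity
    obtain ⟨N', hN'1, hN'2, n', hlo, hhi, hlow, hshift⟩ :=
      hΦ k N h1 ((n : ℝ) / N + 1 / (2 * (N : ℝ) ^ 90)) (by positivity) (by
        have e0 : (n : ℝ) / N + 1 / (2 * (N : ℝ) ^ 90) + 1 / (4 * (N : ℝ) ^ 90) =
            (n : ℝ) / N + 3 / 4 * (1 / (N : ℝ) ^ 90) := by
          rw [add_assoc]; congr 1; field_simp; ring
        rw [e0]
        have : 0 < 1 / (N : ℝ) ^ 90 := by positivity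
        linarith) (max (Φ (k + 1)) (4 * N))
    have hN'4 : 4 * N ≤ N' := (le_max_right _ _).trans hN'1
    have hN'Φ : Φ (k + 1) ≤ N' := (le_max_left _ _).trans hN'1
    have hhi' : (n' : ℝ) / N' ≤ (n : ℝ) / N + 3 / (4 * (N : ℝ) ^ 90) := by
      refine hhi.trans (le_of_eq ?_)
      rw [add_assoc]; congr 1; field_simp; ring
    have hN'r : (4 : ℝ) * N ≤ N' := by exact_mod_cast hN'4
    have hpow : 1 / (N' : ℝ) ^ 90 ≤ 1 / (4 * (N : ℝ) ^ 90) := by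
      apply one_div_le_one_div_of_le (by positivity)
      calc 4 * (N : ℝ) ^ 90 ≤ 4 ^ 90 * (N : ℝ) ^ 90 := by
            gcongr; norm_num
        _ = (4 * (N : ℝ)) ^ 90 := by rw [mul_pow]
        _ ≤ (N' : ℝ) ^ 90 := by gcongr
    refine ⟨⟨(N', n'), hN'Φ, hN'2, ?_, ?_⟩, ⟨hN'4, hlo, hhi', hlow, hshift⟩⟩
    · simp only
      have : 0 ≤ 1 / (2 * (N : ℝ) ^ 90) := by positivity
      linarith
    · simp only
      have e : 3 / (4 * (N : ℝ) ^ 90) + 1 / (4 * (N : ℝ) ^ 90) = 1 / (N : ℝ) ^ 90 := by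
        field_simp; ring
      linarith
  choose nxt hnxt using hnext
  have hs0 : ∃ s : ℕ × ℤ, Φ 0 ≤ s.1 ∧ 1 ≤ s.1 ∧ 0 ≤ (s.2 : ℝ) / s.1 ∧
    (s.2 : ℝ) / s.1 + 1 / (s.1 : ℝ) ^ 90 ≤ 1 := by
    refine ⟨(max (Φ 0) 1, 0), le_max_left _ _, le_max_right _ _, ?_, ?_⟩
    · simp
    · simp only [Int.cast_zero, zero_div, zero_add]
      have : (1 : ℝ) ≤ ((max (Φ 0) 1 : ℕ) : ℝ) := by exact_mod_cast le_max_right (Φ 0) 1
      rw [div_le_one (by positivity)]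
      exact one_le_pow₀ this
  let s0 : St 0 := ⟨hs0.choose, hs0.choose_spec⟩
  let sq : (k : ℕ) → St k := fun k => Nat.rec s0 (fun k s => nxt k s) k
  have hsq : ∀ k, sq (k + 1) = nxt k (sq k) := fun k => rfl
  set N : ℕ → ℕ := fun k => (sq k).1.1 with hN
  set n : ℕ → ℤ := fun k => (sq k).1.2 with hn
  have hrel : ∀ k, Rel k (N k) (N (k + 1)) (n k) (n (k + 1)) := by
    intro k
    simp only [hN, hn]
    rw [hsq k]
    exact hnxt k (sq k)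
  have hN1 : ∀ k, 1 ≤ N k := fun k => (sq k).2.2.1
  have hx0 : ∀ k, 0 ≤ (n k : ℝ) / N k := fun k => (sq k).2.2.2.1
  have hy1 : ∀ k, (n k : ℝ) / N k + 1 / (N k : ℝ) ^ 90 ≤ 1 := fun k => (sq k).2.2.2.2
  set x : ℕ → ℝ := fun k => (n k : ℝ) / N k with hx
  set y : ℕ → ℝ := fun k => (n k : ℝ) / N k + 1 / (N k : ℝ) ^ 90 with hy
  have hNpos : ∀ k, (0 : ℝ) < (N k : ℝ) ^ 90 := by
    intro k
    have : (0 : ℝ) < N k := by exact_mod_cast hN1 k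
    positivity
  have hmono : Monotone x := by
    apply monotone_nat_of_le_succ
    intro k
    have h1 := (hrel k).lo
    have h2 : 0 ≤ 1 / (2 * (N k : ℝ) ^ 90) := by have := hNpos k; positivity
    simp only [hx]; linarith
  have hanti : Antitone y := by
    apply antitone_nat_of_succ_le
    intro k
    have h1 := (hrel k).hi
    have h2 : (4 : ℝ) * N k ≤ N (k + 1) := by exact_mod_cast (hrel k).grow
    have h3 := hNpos k
    have hpow : 1 / (N (k + 1) : ℝ) ^ 90 ≤ 1 / (4 * (N k : ℝ) ^ 90) := by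
      apply one_div_le_one_div_of_le (by positivity)
      calc 4 * (N k : ℝ) ^ 90 ≤ 4 ^ 90 * (N k : ℝ) ^ 90 := by
            gcongr; norm_num
        _ = (4 * (N k : ℝ)) ^ 90 := by rw [mul_pow]
        _ ≤ (N (k + 1) : ℝ) ^ 90 := by gcongr
    have e : 3 / (4 * (N k : ℝ) ^ 90) + 1 / (4 * (N k : ℝ) ^ 90) = 1 / (N k : ℝ) ^ 90 := by
      field_simp; ring
    simp only [hy]; linarith
  have hxy : ∀ i j, x i ≤ y j := by
    intro i j
    have h1 : x i ≤ x (max i j) := hmono (le_max_left _ _)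
    have h2 : y (max i j) ≤ y j := hanti (le_max_right _ _)
    have h3 : x (max i j) ≤ y (max i j) := by
      simp only [hx, hy]
      have := hNpos (max i j)
      have : 0 ≤ 1 / (N (max i j) : ℝ) ^ 90 := by positivity
      linarith
    linarith
  have hbdd : BddAbove (Set.range x) := ⟨y 0, by rintro _ ⟨i, rfl⟩; exact hxy i 0⟩
  refine ⟨⨆ k, x k, N, n, hN1, hx0, ?_, ?_, ?_, hrel⟩
  · exact ciSup_le (fun i => (hxy i 0).trans (hy1 0))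
  · intro k
    have h1 : x (k + 1) ≤ ⨆ k, x k := le_ciSup hbdd (k + 1)
    have h2 := (hrel k).lo
    simp only [hx] at h1
    linarith
  · intro k
    have h1 : (⨆ k, x k) ≤ y k := ciSup_le (fun i => hxy i k)
    simp only [hy] at h1
    linarith

end Pool.Agent.Helper35
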