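import Mathlib
import Pool.Agent.Helper35.Constr

set_option autoImplicit false

namespace Pool.Agent.Helper35

open Polynomial

/-- Mahler measure of an integer polynomial. -/
noncomputable def mm (P : ℤ[X]) : ℝ := (P.map (Int.castRingHom ℂ)).mahlerMeasure

theorem mm_mul (P Q : ℤ[X]) : mm (P * Q) = mm P * mm Q := by
  unfold mm; rw [Polynomial.map_mul, mahlerMeasure_mul]

theorem one_le_mm {P : ℤ[X]} (hP : P ≠ 0) : 1 ≤ mm P := one_le_mahlerMeasure_of_ne_zero hP

theorem ht_le_mm (P : ℤ[X]) : (ht P : ℝ) ≤ 2 ^ P.natDegree * mm P := by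
  have hdeg : (P.map (Int.castRingHom ℂ)).natDegree = P.natDegree :=
    natDegree_map_eq_of_injective (RingHom.injective_int _) P
  have h : ∀ i, ((P.coeff i).natAbs : ℝ) ≤ 2 ^ P.natDegree * mm P := by
    intro i
    have h1 := norm_coeff_le_choose_mul_mahlerMeasure i (P.map (Int.castRingHom ℂ))
    rw [coeff_map, hdeg] at h1
    have h2 : ‖(Int.castRingHom ℂ) (P.coeff i)‖ = ((P.coeff i).natAbs : ℝ) := by
      simp [Nat.cast_natAbs]
    rw [h2] at h1
    refine h1.trans ?_
    have h3 : ((P.natDegree.choose i : ℕ) : ℝ) ≤ 2 ^ P.natDegree := by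
      exact_mod_cast Nat.choose_le_two_pow _ _
    have h4 : 0 ≤ mm P := mahlerMeasure_nonneg _
    exact mul_le_mul_of_nonneg_right h3 h4
  by_cases hP : P = 0
  · subst hP
    simp only [ht, support_zero, Finset.sup_empty, bot_eq_zero, Nat.cast_zero]
    have : 0 ≤ mm 0 := mahlerMeasure_nonneg _
    positivity
  · obtain ⟨i, _, hi⟩ := Finset.exists_mem_eq_sup P.support
      (by simpa using hP) (fun i => (P.coeff i).natAbs)
    have : ht P = (P.coeff i).natAbs := hi
    rw [this]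
    exact h i

theorem mm_le_ht (P : ℤ[X]) : mm P ≤ ((P.natDegree : ℝ) + 1) * ht P := by
  unfold mm
  refine (mahlerMeasure_le_sum_norm_coeff _).trans ?_
  have hdeg : (P.map (Int.castRingHom ℂ)).natDegree = P.natDegree :=
    natDegree_map_eq_of_injective (RingHom.injective_int _) P
  rw [sum_over_range' _ (by simp) (P.natDegree + 1) (by rw [hdeg]; omega)]
  calc ∑ i ∈ Finset.range (P.natDegree + 1), ‖(P.map (Int.castRingHom ℂ)).coeff i‖
      ≤ ∑ i ∈ Finset.range (P.natDegree + 1), (ht P : ℝ) := by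
        refine Finset.sum_le_sum (fun i _ => ?_)
        rw [coeff_map]
        have h2 : ‖(Int.castRingHom ℂ) (P.coeff i)‖ = ((P.coeff i).natAbs : ℝ) := by
          simp [Nat.cast_natAbs]
        rw [h2]
        exact_mod_cast natAbs_coeff_le_ht P i
    _ = _ := by rw [Finset.sum_const, Finset.card_range, nsmul_eq_mul]; push_cast; ring

theorem ht_intCast_mul (K : ℤ) (P : ℤ[X]) : ht (C K * P) = K.natAbs * ht P := by
  by_cases hP : P = 0
  · subst hP; simp [ht]
  apply le_antisymm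
  · apply ht_le_of
    intro i
    rw [coeff_C_mul, Int.natAbs_mul]
    exact Nat.mul_le_mul_left _ (natAbs_coeff_le_ht P i)
  · obtain ⟨i, _, hi⟩ := Finset.exists_mem_eq_sup P.support
      (by simpa using hP) (fun i => (P.coeff i).natAbs)
    have h1 : ht P = (P.coeff i).natAbs := hi
    rw [h1, ← Int.natAbs_mul, ← coeff_C_mul]
    exact natAbs_coeff_le_ht _ i

theorem IrrQ.C_mul {P : ℤ[X]} (h : IrrQ P) (K : ℤ) (hK : K ≠ 0) : IrrQ (C K * P) := by
  unfold IrrQ
  rw [Polynomial.map_mul, Polynomial.map_C]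
  have hKq : (Int.castRingHom ℚ) K ≠ 0 := by
    simpa using hK
  rw [irreducible_isUnit_mul (isUnit_C.mpr (IsUnit.mk0 _ hKq))]
  exact h

theorem general_bound (ξ : ℝ) (n E : ℕ)
    (h : ∀ m, 1 ≤ m → m ≤ n → ∃ H0 : ℕ, ∀ P : ℤ[X], IrrQ P → P.natDegree = m → H0 ≤ ht P →
      1 ≤ |aeval ξ P| * (ht P : ℝ) ^ E) :
    ∃ c : ℝ, 0 < c ∧ ∀ P : ℤ[X], P ≠ 0 → P.natDegree ≤ n → c ≤ |aeval ξ P| * (ht P : ℝ) ^ E := by
  classical
  -- nonvanishing
  have hne : ∀ P : ℤ[X], IrrQ P → P.natDegree ≤ n → aeval ξ P ≠ 0 := by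
    intro P hP hPn h0
    obtain ⟨H0, hH0⟩ := h P.natDegree hP.natDegree_pos hPn
    have hK : ((H0 : ℤ) + 1) ≠ 0 := by omega
    have h1 := hH0 (C ((H0 : ℤ) + 1) * P) (hP.C_mul _ hK)
      (natDegree_C_mul hK) (by
        rw [ht_intCast_mul]
        have : 1 ≤ ht P := ht_pos hP.ne_zero
        have h2 : ((H0 : ℤ) + 1).natAbs = H0 + 1 := by omega
        rw [h2]
        nlinarith)
    rw [map_mul, h0, mul_zero, abs_zero, zero_mul] at h1
    linarith
  choose! H0 hH0 using h
  set Hmax : ℕ := ∑ m ∈ Finset.range (n + 1), H0 m with hHmax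
  have hHle : ∀ m, m ≤ n → H0 m ≤ Hmax := fun m hm =>
    Finset.single_le_sum (f := H0) (fun _ _ => Nat.zero_le _) (Finset.mem_range.mpr (by omega))
  -- small polynomials
  set S : Finset ℤ[X] := (boxF n Hmax).filter (fun P => aeval ξ P ≠ 0) with hS
  obtain ⟨κ, hκ0, hκ⟩ : ∃ κ : ℝ, 0 < κ ∧ ∀ P ∈ S, κ ≤ |aeval ξ P| := by
    by_cases hSe : S.Nonempty
    · obtain ⟨P0, hP0, hmin⟩ := S.exists_min_image (fun P => |aeval ξ P|) hSe
      refine ⟨|aeval ξ P0|, ?_, hmin⟩
      rw [hS, Finset.mem_filter] at hP0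
      exact abs_pos.mpr hP0.2
    · exact ⟨1, one_pos, fun P hP => absurd ⟨P, hP⟩ hSe⟩
  set c1 : ℝ := 1 / (2 ^ n) ^ E with hc1
  have hc1pos : 0 < c1 := by positivity
  set c : ℝ := min (min c1 κ) 1 with hc
  have hcpos : 0 < c := lt_min (lt_min hc1pos hκ0) one_pos
  have hc_1 : c ≤ 1 := min_le_right _ _
  have hcc1 : c ≤ c1 := (min_le_left _ _).trans (min_le_left _ _)
  have hcκ : c ≤ κ := (min_le_left _ _).trans (min_le_right _ _)
  have hirr : ∀ q : ℤ[X], IrrQ q → q.natDegree ≤ n → c ≤ |aeval ξ q| * mm q ^ E := by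
    intro q hq hqn
    have hmq : 1 ≤ mm q := one_le_mm hq.ne_zero
    by_cases hbig : H0 q.natDegree ≤ ht q
    · have h1 := hH0 q.natDegree hq.natDegree_pos hqn q hq rfl hbig
      have h2 : (ht q : ℝ) ≤ 2 ^ n * mm q := by
        refine (ht_le_mm q).trans ?_
        gcongr
        norm_num
      have h3 : (1 : ℝ) ≤ |aeval ξ q| * ((2 ^ n) ^ E * mm q ^ E) := by
        calc (1 : ℝ) ≤ |aeval ξ q| * (ht q : ℝ) ^ E := h1
          _ ≤ |aeval ξ q| * (2 ^ n * mm q) ^ E := by gcongr
          _ = _ := by rw [mul_pow]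
      refine hcc1.trans ?_
      rw [hc1, div_le_iff₀ (by positivity)]
      linarith
    · push Not at hbig
      have h1 : q ∈ S := by
        rw [hS, Finset.mem_filter]
        refine ⟨mem_boxF hqn ?_, hne q hq hqn⟩
        exact hbig.le.trans (hHle _ hqn)
      calc c ≤ κ := hcκ
        _ ≤ |aeval ξ q| := hκ q h1
        _ = |aeval ξ q| * 1 := (mul_one _).symm
        _ ≤ |aeval ξ q| * mm q ^ E := by
            gcongr
            exact one_le_pow₀ hmq
  have hall : ∀ P : ℤ[X], P ≠ 0 → P.natDegree ≤ n →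
      c ^ P.natDegree ≤ |aeval ξ P| * mm P ^ E := by
    intro P
    induction P using WfDvdMonoid.induction_on_irreducible with
    | zero => intro h0; exact absurd rfl h0
    | unit u hu =>
      intro _ _
      obtain ⟨r, hr, rfl⟩ := Polynomial.isUnit_iff.mp hu
      rw [natDegree_C, pow_zero]
      have h1 : 1 ≤ mm (C r) := one_le_mm (by
        intro h0
        exact hr.ne_zero (by simpa using h0))
      have h2 : |aeval ξ (C r : ℤ[X])| = 1 := by
        rcases Int.isUnit_iff.mp hr with h | h <;> simp [h]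
      rw [h2, one_mul]
      exact one_le_pow₀ h1
    | mul a q ha hq ih =>
      intro hne0 hdeg
      have hq0 : q ≠ 0 := hq.ne_zero
      have hdeg2 : (q * a).natDegree = q.natDegree + a.natDegree := natDegree_mul hq0 ha
      rw [hdeg2] at hdeg ⊢
      have iha := ih ha (by omega)
      rw [map_mul, abs_mul, mm_mul, mul_pow, pow_add]
      have hmq : 1 ≤ mm q := one_le_mm hq0
      have hma : 1 ≤ mm a := one_le_mm ha
      have hfac : c ^ q.natDegree ≤ |aeval ξ q| * mm q ^ E := by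
        by_cases hq1 : q.natDegree = 0
        · rw [hq1, pow_zero]
          obtain ⟨r, rfl⟩ : ∃ r, q = C r := ⟨_, eq_C_of_natDegree_eq_zero hq1⟩
          have hr0 : r ≠ 0 := by rintro rfl; simp at hq0
          have h2 : 1 ≤ |aeval ξ (C r : ℤ[X])| := by
            rw [aeval_C]
            simp only [algebraMap_int_eq, eq_intCast]
            exact_mod_cast Int.one_le_abs hr0
          calc (1 : ℝ) = 1 * 1 := (one_mul 1).symm
            _ ≤ _ := mul_le_mul h2 (one_le_pow₀ hmq) zero_le_one (abs_nonneg _)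
        · have hprim : q.IsPrimitive := hq.isPrimitive hq1
          have hirrq : IrrQ q :=
            (IsPrimitive.Int.irreducible_iff_irreducible_map_cast hprim).mp hq
          have h1 := hirr q hirrq (by omega)
          calc c ^ q.natDegree ≤ c ^ 1 :=
                pow_le_pow_of_le_one hcpos.le hc_1 (by omega)
            _ = c := pow_one c
            _ ≤ _ := h1
      calc c ^ q.natDegree * c ^ a.natDegree ≤
            (|aeval ξ q| * mm q ^ E) * (|aeval ξ a| * mm a ^ E) :=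
            mul_le_mul hfac iha (by positivity) (by positivity)
        _ = _ := by ring
  refine ⟨c ^ n / (((n : ℝ) + 1) ^ E), by positivity, ?_⟩
  intro P hP hPn
  have h1 := hall P hP hPn
  have h2 : c ^ n ≤ c ^ P.natDegree := pow_le_pow_of_le_one hcpos.le hc_1 hPn
  have h3 : mm P ≤ ((n : ℝ) + 1) * ht P := by
    refine (mm_le_ht P).trans ?_
    gcongr
  have hmP : 1 ≤ mm P := one_le_mm hP
  rw [div_le_iff₀ (by positivity)]
  calc c ^ n ≤ |aeval ξ P| * mm P ^ E := h2.trans h1
    _ ≤ |aeval ξ P| * (((n : ℝ) + 1) * ht P) ^ E := by gcongr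
    _ = |aeval ξ P| * (ht P : ℝ) ^ E * ((n : ℝ) + 1) ^ E := by rw [mul_pow]; ring

end Pool.Agent.Helper35
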