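import Mathlib
import Pool.Agent.Helper35.Bound

set_option autoImplicit false

namespace Pool.Agent.Helper35

open Polynomial

theorem growth {N : ℕ → ℕ} (h1 : ∀ k, 1 ≤ N k) (h4 : ∀ k, 4 * N k ≤ N (k + 1)) (k : ℕ) :
    4 ^ k ≤ N k := by
  induction k with
  | zero => simpa using h1 0
  | succ k ih => rw [pow_succ]; have := h4 k; omega

theorem sq_le_four_pow (k : ℕ) : (k + 1) ^ 2 ≤ 4 ^ k := by
  induction k with
  | zero => norm_num
  | succ k ih =>
    calc (k + 1 + 1) ^ 2 ≤ (2 * (k + 1)) ^ 2 := Nat.pow_le_pow_left (by omega) 2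
      _ = (k + 1) ^ 2 * 4 := by ring
      _ ≤ 4 ^ k * 4 := Nat.mul_le_mul_right 4 ih
      _ = 4 ^ (k + 1) := (pow_succ 4 k).symm

theorem linear_case {P : ℤ[X]} (hd : P.natDegree = 1) (ξ x : ℝ) :
    aeval ξ P = aeval x P + (P.coeff 1 : ℝ) * (ξ - x) := by
  rw [aeval_eq_sum, aeval_eq_sum, hd]
  simp [Finset.sum_range_succ]
  ring

theorem main_irr {ξ : ℝ} {N : ℕ → ℕ} {n : ℕ → ℤ} (hN1 : ∀ k, 1 ≤ N k)
    (hx0 : ∀ k, 0 ≤ (n k : ℝ) / N k) (hξ1 : ξ ≤ 1)
    (hlo : ∀ k, 1 / (2 * (N k : ℝ) ^ 90) ≤ ξ - (n k : ℝ) / N k)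
    (hhi : ∀ k, ξ - (n k : ℝ) / N k ≤ 1 / (N k : ℝ) ^ 90)
    (hrel : ∀ k, Rel k (N k) (N (k + 1)) (n k) (n (k + 1))) (m : ℕ) (hm : 1 ≤ m) :
    ∃ H0 : ℕ, ∀ P : ℤ[X], IrrQ P → P.natDegree = m → H0 ≤ ht P →
      1 ≤ |aeval ξ P| * (ht P : ℝ) ^ (max (40 * (m + 1)) 400) := by
  have h4 : ∀ k, 4 * N k ≤ N (k + 1) := fun k => (hrel k).grow
  have hgr := growth hN1 h4
  refine ⟨N m ^ 3, fun P hP hd hH0 => ?_⟩
  set H := ht P with hH
  have hH1 : 1 ≤ H := ht_pos hP.ne_zero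
  have hHr : (1 : ℝ) ≤ H := by exact_mod_cast hH1
  -- choose the stage
  have hex : ∃ j, H ^ (m + 1) < N (j + 1) ^ 3 := by
    refine ⟨H ^ (m + 1), ?_⟩
    have h1 := hgr (H ^ (m + 1) + 1)
    have h2 : H ^ (m + 1) + 1 < 4 ^ (H ^ (m + 1) + 1) := Nat.lt_pow_self (by norm_num)
    have h3 : N (H ^ (m + 1) + 1) ≤ N (H ^ (m + 1) + 1) ^ 3 := Nat.le_self_pow (by norm_num) _
    omega
  obtain ⟨hj1, hj2⟩ : H ^ (m + 1) < N (Nat.find hex + 1) ^ 3 ∧
      ∀ i < Nat.find hex, ¬ (H ^ (m + 1) < N (i + 1) ^ 3) :=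
    ⟨Nat.find_spec hex, fun i hi => Nat.find_min hex hi⟩
  set j := Nat.find hex with hj
  have hNm : N m ^ 3 ≤ H ^ (m + 1) := by
    calc N m ^ 3 ≤ H := hH0
      _ ≤ H ^ (m + 1) := Nat.le_self_pow (by omega) _
  have hmonoN : Monotone N := monotone_nat_of_le_succ (fun k => by have := h4 k; omega)
  have hmj : m ≤ j := by
    by_contra hc
    push Not at hc
    have h1 : N (j + 1) ≤ N m := hmonoN (by omega)
    have h2 : N (j + 1) ^ 3 ≤ N m ^ 3 := Nat.pow_le_pow_left h1 3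
    omega
  have hNj : N j ^ 3 ≤ H ^ (m + 1) := by
    obtain ⟨i, hi⟩ : ∃ i, j = i + 1 := ⟨j - 1, by omega⟩
    have := hj2 i (by omega)
    rw [hi]
    omega
  obtain ⟨hgrow, _, _, hlow, hshift⟩ := hrel j
  set M := N (j + 1) with hM
  set x : ℝ := (n (j + 1) : ℝ) / M with hx
  have hM1 : 1 ≤ M := hN1 (j + 1)
  have hM4 : 4 ≤ M := by have := hN1 j; omega
  have hMr : (4 : ℝ) ≤ M := by exact_mod_cast hM4
  have hM1r : (1 : ℝ) ≤ M := by linarith
  have hx0' : 0 ≤ x := hx0 (j + 1)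
  have hlo' := hlo (j + 1)
  have hhi' := hhi (j + 1)
  rw [← hM, ← hx] at hlo' hhi'
  have hpos90 : 0 < 1 / (2 * (M : ℝ) ^ 90) := by positivity
  have hξx : x ≤ ξ := by linarith
  have hxabs : |x| ≤ 1 := by rw [abs_le]; constructor <;> linarith
  have hξabs : |ξ| ≤ 1 := by rw [abs_le]; constructor <;> linarith
  have hmM : ((m : ℝ) + 1) ^ 2 ≤ M := by
    have h1 : (m + 1) ^ 2 ≤ (j + 1) ^ 2 := Nat.pow_le_pow_left (by omega) 2
    have h2 := sq_le_four_pow j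
    have h3 := hgr (j + 1)
    have h5 : 4 ^ j ≤ 4 ^ (j + 1) := Nat.pow_le_pow_right (by norm_num) (by omega)
    have h6 : (m + 1) ^ 2 ≤ M := by rw [hM]; omega
    exact_mod_cast h6
  -- perturbation
  have hpert : |aeval ξ P - aeval x P| ≤ H / (M : ℝ) ^ 89 := by
    have h1 := abs_aeval_sub_le P ξ x hξabs hxabs
    rw [hd] at h1
    have h2 : |ξ - x| ≤ 1 / (M : ℝ) ^ 90 := by
      rw [abs_of_nonneg (by linarith)]; exact hhi'
    calc |aeval ξ P - aeval x P| ≤ ((m : ℝ) + 1) ^ 2 * H * |ξ - x| := h1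
      _ ≤ M * H * (1 / (M : ℝ) ^ 90) := by gcongr
      _ = H / (M : ℝ) ^ 89 := by
          rw [pow_succ (M : ℝ) 89]
          field_simp
  have hpert2 : |aeval x P| - H / (M : ℝ) ^ 89 ≤ |aeval ξ P| := by
    have h1 : |aeval x P| ≤ |aeval ξ P| + |aeval ξ P - aeval x P| := by
      have := abs_sub_abs_le_abs_sub (aeval x P) (aeval ξ P)
      rw [abs_sub_comm] at this
      linarith
    linarith
  have hsuff : ∀ e : ℕ, e ≤ max (40 * (m + 1)) 400 → 1 ≤ |aeval ξ P| * (H : ℝ) ^ e →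
      1 ≤ |aeval ξ P| * (H : ℝ) ^ (max (40 * (m + 1)) 400) := by
    intro e he h
    refine h.trans ?_
    have := pow_le_pow_right₀ hHr he
    exact mul_le_mul_of_nonneg_left this (abs_nonneg _)
  by_cases hcase : H ^ (2 * (m + 1)) ≤ M
  · -- low regime
    apply hsuff (40 * (m + 1)) (le_max_left _ _)
    have h1 := hlow P hP (by omega) (by rw [hd]; exact hNj) (by rw [hd]; exact hcase)
    rw [hd] at h1
    change 2 < |aeval x P| * (H : ℝ) ^ (40 * (m + 1)) at h1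
    have h2 : (H : ℝ) ^ (40 * (m + 1)) ≤ (M : ℝ) ^ 20 := by
      have e1 : (H : ℝ) ^ (40 * (m + 1)) = ((H : ℝ) ^ (2 * (m + 1))) ^ 20 := by
        rw [← pow_mul]; congr 1; ring
      rw [e1]
      have : (H : ℝ) ^ (2 * (m + 1)) ≤ M := by exact_mod_cast hcase
      gcongr
    have h3 : (H : ℝ) ≤ M := by
      have : H ≤ H ^ (2 * (m + 1)) := Nat.le_self_pow (by omega) _
      exact_mod_cast this.trans hcase
    have h5 : H / (M : ℝ) ^ 89 * (H : ℝ) ^ (40 * (m + 1)) ≤ 1 := by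
      calc H / (M : ℝ) ^ 89 * (H : ℝ) ^ (40 * (m + 1))
          ≤ M / (M : ℝ) ^ 89 * (M : ℝ) ^ 20 := by gcongr
        _ = (M : ℝ) ^ 21 / (M : ℝ) ^ 89 := by ring
        _ ≤ 1 := by
          rw [div_le_one (by positivity)]
          exact pow_le_pow_right₀ hM1r (by norm_num)
    have h6 : (|aeval x P| - H / (M : ℝ) ^ 89) * (H : ℝ) ^ (40 * (m + 1)) ≤
        |aeval ξ P| * (H : ℝ) ^ (40 * (m + 1)) := by gcongr
    rw [sub_mul] at h6
    linarith
  · push Not at hcase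
    have hcr : (M : ℝ) ≤ (H : ℝ) ^ (2 * (m + 1)) := by exact_mod_cast hcase.le
    have hHM : (H : ℝ) ^ (m + 1) ≤ (M : ℝ) ^ 3 := by exact_mod_cast hj1.le
    have hHM3 : (H : ℝ) ≤ (M : ℝ) ^ 3 := by
      have : (H : ℝ) ≤ (H : ℝ) ^ (m + 1) := by
        exact_mod_cast Nat.le_self_pow (by omega) H
      linarith
    by_cases hm2 : 2 ≤ m
    · apply hsuff (40 * (m + 1)) (le_max_left _ _)
      have h1 := hshift P hP (by omega) (by omega) (by rw [hd]; exact hj1.le)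
      change 1 < |aeval x P| * (M : ℝ) ^ 19 at h1
      have h2 : H / (M : ℝ) ^ 89 * (M : ℝ) ^ 19 ≤ 1 / 2 := by
        calc H / (M : ℝ) ^ 89 * (M : ℝ) ^ 19 ≤ (M : ℝ) ^ 3 / (M : ℝ) ^ 89 * (M : ℝ) ^ 19 := by
              gcongr
          _ = (M : ℝ) ^ 22 / (M : ℝ) ^ 89 := by ring
          _ ≤ 1 / 2 := by
              rw [div_le_div_iff₀ (by positivity) (by norm_num)]
              have e1 : (M : ℝ) ^ 89 = (M : ℝ) ^ 22 * ((M : ℝ) ^ 66 * M) := by ring
              rw [e1]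
              have h7 : (1 : ℝ) ≤ (M : ℝ) ^ 66 := one_le_pow₀ hM1r
              have h8 : (0 : ℝ) < (M : ℝ) ^ 22 := by positivity
              have h9 : (2 : ℝ) ≤ (M : ℝ) ^ 66 * M := by nlinarith
              nlinarith
      have h3 : 1 / 2 ≤ |aeval ξ P| * (M : ℝ) ^ 19 := by
        have h6 : (|aeval x P| - H / (M : ℝ) ^ 89) * (M : ℝ) ^ 19 ≤
            |aeval ξ P| * (M : ℝ) ^ 19 := by gcongr
        rw [sub_mul] at h6
        linarith
      have h5 : (M : ℝ) ^ 20 ≤ (H : ℝ) ^ (40 * (m + 1)) := by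
        have e1 : (H : ℝ) ^ (40 * (m + 1)) = ((H : ℝ) ^ (2 * (m + 1))) ^ 20 := by
          rw [← pow_mul]; congr 1; ring
        rw [e1]; gcongr
      calc (1 : ℝ) ≤ 1 / 2 * M := by linarith
        _ ≤ (|aeval ξ P| * (M : ℝ) ^ 19) * M := by gcongr
        _ = |aeval ξ P| * (M : ℝ) ^ 20 := by ring
        _ ≤ _ := by gcongr
    · -- linear polynomials
      have hm1 : m = 1 := by omega
      subst hm1
      apply hsuff 400 (le_max_right _ _)
      have hlin := linear_case hd ξ x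
      have hb0 : P.coeff 1 ≠ 0 := by
        have : P.coeff P.natDegree ≠ 0 := by
          rw [coeff_natDegree]; exact leadingCoeff_ne_zero.mpr hP.ne_zero
        rwa [hd] at this
      have hb1 : (1 : ℝ) ≤ |(P.coeff 1 : ℝ)| := by exact_mod_cast Int.one_le_abs hb0
      have hlower : 1 / (2 * (M : ℝ) ^ 90) ≤ |aeval ξ P| := by
        by_cases h0 : aeval x P = 0
        · rw [hlin, h0, zero_add, abs_mul]
          calc 1 / (2 * (M : ℝ) ^ 90) ≤ ξ - x := hlo'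
            _ ≤ |ξ - x| := le_abs_self _
            _ = 1 * |ξ - x| := (one_mul _).symm
            _ ≤ |(P.coeff 1 : ℝ)| * |ξ - x| := by gcongr
        · have h1 : 1 / (M : ℝ) ≤ |aeval x P| := by
            have h2 : aeval x P * M = ((P.coeff 0 * M + P.coeff 1 * n (j + 1) : ℤ) : ℝ) := by
              rw [aeval_eq_sum, hd, hx]
              have : (M : ℝ) ≠ 0 := by positivity
              simp [Finset.sum_range_succ]
              field_simp
            have h3 : (P.coeff 0 * M + P.coeff 1 * n (j + 1) : ℤ) ≠ 0 := by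
              intro hz
              rw [hz, Int.cast_zero] at h2
              rcases mul_eq_zero.mp h2 with h2 | h2
              · exact h0 h2
              · have : (M : ℝ) ≠ 0 := by positivity
                exact this h2
            have h5 : (1 : ℝ) ≤ |aeval x P| * M := by
              rw [← abs_of_pos (a := (M : ℝ)) (by positivity), ← abs_mul, h2]
              exact_mod_cast Int.one_le_abs h3
            rw [div_le_iff₀ (by positivity)]
            exact h5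
          have h2 : H / (M : ℝ) ^ 89 ≤ 1 / (2 * (M : ℝ)) := by
            rw [div_le_div_iff₀ (by positivity) (by positivity)]
            calc (H : ℝ) * (2 * M) ≤ (M : ℝ) ^ 3 * (2 * M) := by gcongr
              _ ≤ (M : ℝ) ^ 3 * (M * M) := by gcongr; linarith
              _ = (M : ℝ) ^ 5 := by ring
              _ ≤ (M : ℝ) ^ 89 := pow_le_pow_right₀ hM1r (by norm_num)
              _ = 1 * (M : ℝ) ^ 89 := (one_mul _).symm
          have h3 : 1 / (2 * (M : ℝ) ^ 90) ≤ 1 / (2 * (M : ℝ)) := by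
            apply one_div_le_one_div_of_le (by positivity)
            gcongr
            exact le_self_pow₀ hM1r (by norm_num)
          have h5 : 1 / (M : ℝ) = 1 / (2 * (M : ℝ)) + 1 / (2 * (M : ℝ)) := by field_simp; ring
          linarith
      have h5 : 2 * (M : ℝ) ^ 90 ≤ (H : ℝ) ^ 400 := by
        have e1 : (H : ℝ) ^ 400 = ((H : ℝ) ^ (2 * (1 + 1))) ^ 100 := by
          rw [← pow_mul]
        rw [e1]
        calc 2 * (M : ℝ) ^ 90 ≤ M * (M : ℝ) ^ 90 := by gcongr; linarith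
          _ = (M : ℝ) ^ 91 := by ring
          _ ≤ (M : ℝ) ^ 100 := pow_le_pow_right₀ hM1r (by norm_num)
          _ ≤ _ := by gcongr
      calc (1 : ℝ) = 1 / (2 * (M : ℝ) ^ 90) * (2 * (M : ℝ) ^ 90) := by field_simp
        _ ≤ |aeval ξ P| * (H : ℝ) ^ 400 := by gcongr

/-- The main existence theorem. -/
theorem main_xi : ∃ (ξ : ℝ) (N : ℕ → ℕ) (n : ℕ → ℤ),
    StrictMono N ∧ (∀ k, 1 ≤ N k) ∧ (∀ k, 0 ≤ (n k : ℝ) / N k) ∧ (∀ k, (n k : ℝ) / N k ≤ 1) ∧
    0 ≤ ξ ∧ ξ ≤ 1 ∧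
    (∀ k, 0 < ξ - (n k : ℝ) / N k) ∧ (∀ k, ξ - (n k : ℝ) / N k ≤ 1 / (N k : ℝ) ^ 90) ∧
    (∀ d : ℕ, ∃ c : ℝ, 0 < c ∧ ∀ P : ℤ[X], P ≠ 0 → P.natDegree ≤ d →
      c ≤ |aeval ξ P| * (ht P : ℝ) ^ (max (40 * (d + 1)) 400)) := by
  obtain ⟨ξ, N, n, hN1, hx0, hξ1, hlo, hhi, hrel⟩ := constr
  have h4 : ∀ k, 4 * N k ≤ N (k + 1) := fun k => (hrel k).grow
  have hpos : ∀ k, 0 < ξ - (n k : ℝ) / N k := by
    intro k
    have h1 : (0 : ℝ) < N k := by exact_mod_cast hN1 k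
    have h2 : 0 < 1 / (2 * (N k : ℝ) ^ 90) := by positivity
    linarith [hlo k]
  refine ⟨ξ, N, n, strictMono_nat_of_lt_succ (fun k => by have := h4 k; have := hN1 k; omega),
    hN1, hx0, fun k => by linarith [hpos k], by linarith [hpos 0, hx0 0], hξ1, hpos, hhi, ?_⟩
  intro d
  apply general_bound
  intro m hm hmd
  obtain ⟨H0, hH0⟩ := main_irr hN1 hx0 hξ1 hlo hhi hrel m hm
  refine ⟨H0, fun P hP hd hH => (hH0 P hP hd hH).trans ?_⟩
  have hHr : (1 : ℝ) ≤ ht P := by exact_mod_cast ht_pos hP.ne_zero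
  have : max (40 * (m + 1)) 400 ≤ max (40 * (d + 1)) 400 := by
    apply max_le_max _ le_rfl; omega
  exact mul_le_mul_of_nonneg_left (pow_le_pow_right₀ hHr this) (abs_nonneg _)

end Pool.Agent.Helper35
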