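import Mathlib
import Pool.Agent.Helper35.Xi

set_option autoImplicit false

namespace Pool.Agent.Helper35

open Polynomial

/-- The exponents `w` admitting infinitely many solutions in polynomials of degree at most `n`. -/
def WSet (ξ : ℝ) (n : ℕ) : Set ℝ :=
  {w : ℝ | {P : ℤ[X] | P ≠ 0 ∧ P.natDegree ≤ n ∧ 0 < |aeval ξ P| ∧
    |aeval ξ P| ≤ (ht P : ℝ) ^ (-w)}.Infinite}

theorem exists_ht_gt {n : ℕ} {S : Set ℤ[X]} (hS : S.Infinite) (hd : ∀ P ∈ S, P.natDegree ≤ n)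
    (H : ℕ) : ∃ P ∈ S, H < ht P := by
  by_contra hcon
  push Not at hcon
  apply hS
  apply (boxF n H).finite_toSet.subset
  intro P hP
  exact mem_boxF (hd P hP) (hcon P hP)

theorem dirichlet (ξ : ℝ) (hξ0 : 0 ≤ ξ) (hξ1 : ξ ≤ 1) (n H : ℕ) (hn : 1 ≤ n) (hH : 1 ≤ H) :
    ∃ P : ℤ[X], P ≠ 0 ∧ P.natDegree ≤ n ∧ ht P ≤ H ∧
      |aeval ξ P| * (H : ℝ) ^ n ≤ (n : ℝ) + 1 := by
  classical
  have hHr : (1 : ℝ) ≤ H := by exact_mod_cast hH
  set D : Finset (Fin (n + 1) → ℕ) := Fintype.piFinset (fun _ => Finset.range (H + 1)) with hD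
  have hcardD : D.card = (H + 1) ^ (n + 1) := by
    rw [hD, Fintype.card_piFinset]; simp
  set v : (Fin (n + 1) → ℕ) → ℝ := fun c => ∑ i : Fin (n + 1), (c i : ℝ) * ξ ^ (i : ℕ) with hv
  have hv0 : ∀ c, 0 ≤ v c := fun c => Finset.sum_nonneg (fun i _ => by positivity)
  have hv1 : ∀ c ∈ D, v c ≤ (n + 1) * H := by
    intro c hc
    rw [hD, Fintype.mem_piFinset] at hc
    calc v c ≤ ∑ i : Fin (n + 1), (H : ℝ) := by
          refine Finset.sum_le_sum (fun i _ => ?_)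
          have h1 : (c i : ℝ) ≤ H := by
            have := Finset.mem_range.mp (hc i)
            exact_mod_cast Nat.lt_succ_iff.mp this
          calc (c i : ℝ) * ξ ^ (i : ℕ) ≤ H * 1 :=
                mul_le_mul h1 (pow_le_one₀ hξ0 hξ1) (by positivity) (by positivity)
            _ = H := mul_one _
      _ = (n + 1) * H := by simp
  set g : (Fin (n + 1) → ℕ) → ℕ := fun c => ⌊v c * (H : ℝ) ^ n / (n + 1)⌋₊ with hg
  have hmaps : ∀ c ∈ D, g c ∈ Finset.range (H ^ (n + 1) + 1) := by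
    intro c hc
    rw [Finset.mem_range, Nat.lt_succ_iff]
    apply Nat.floor_le_of_le
    rw [div_le_iff₀ (by positivity)]
    calc v c * (H : ℝ) ^ n ≤ ((n + 1) * H) * (H : ℝ) ^ n := by
          have := hv1 c hc
          gcongr
      _ = ((H ^ (n + 1) : ℕ) : ℝ) * (n + 1) := by push_cast; ring
  have hlt : (Finset.range (H ^ (n + 1) + 1)).card < D.card := by
    rw [Finset.card_range, hcardD]
    have h1 : H ^ n * H + 1 < (H + 1) ^ n * (H + 1) := by
      have h2 : H ^ n + 1 ≤ (H + 1) ^ n := by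
        have : H ^ n < (H + 1) ^ n := Nat.pow_lt_pow_left (by omega) (by omega)
        omega
      calc H ^ n * H + 1 < (H ^ n + 1) * (H + 1) := by
            have e : (H ^ n + 1) * (H + 1) = H ^ n * H + H ^ n + H + 1 := by ring
            have : 0 < H ^ n := by positivity
            omega
        _ ≤ (H + 1) ^ n * (H + 1) := Nat.mul_le_mul_right _ h2
    rw [pow_succ, pow_succ]; exact h1
  obtain ⟨c, hc, c', hc', hne, heq⟩ := Finset.exists_ne_map_eq_of_card_lt_of_maps_to hlt hmaps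
  set P : ℤ[X] := ∑ i : Fin (n + 1), monomial (i : ℕ) ((c i : ℤ) - (c' i : ℤ)) with hP
  have hcoeff : ∀ i : Fin (n + 1), P.coeff i = (c i : ℤ) - (c' i : ℤ) := by
    intro i
    rw [hP, finsetSum_coeff, Finset.sum_eq_single i]
    · rw [coeff_monomial, if_pos rfl]
    · intro j _ hj
      rw [coeff_monomial, if_neg]
      intro h; exact hj (Fin.ext h)
    · intro h; exact absurd (Finset.mem_univ _) h
  have hcoeff2 : ∀ i, n < i → P.coeff i = 0 := by
    intro i hi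
    rw [hP, finsetSum_coeff]
    apply Finset.sum_eq_zero
    intro j _
    rw [coeff_monomial, if_neg]
    have := j.2
    omega
  have hval : aeval ξ P = v c - v c' := by
    rw [hP, map_sum, hv]
    simp only
    rw [← Finset.sum_sub_distrib]
    refine Finset.sum_congr rfl (fun i _ => ?_)
    rw [aeval_monomial]
    simp
    ring
  refine ⟨P, ?_, ?_, ?_, ?_⟩
  · intro h0
    apply hne
    funext i
    have := hcoeff i
    rw [h0, coeff_zero] at this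
    omega
  · rw [natDegree_le_iff_coeff_eq_zero]
    intro i hi
    exact hcoeff2 i hi
  · apply ht_le_of
    intro i
    by_cases hi : i ≤ n
    · have h1 := hcoeff ⟨i, by omega⟩
      simp only at h1
      rw [h1]
      rw [hD, Fintype.mem_piFinset] at hc hc'
      have h2 := Finset.mem_range.mp (hc ⟨i, by omega⟩)
      have h3 := Finset.mem_range.mp (hc' ⟨i, by omega⟩)
      omega
    · rw [hcoeff2 i (by omega)]; simp
  · have h1 : (g c : ℝ) ≤ v c * (H : ℝ) ^ n / (n + 1) :=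
      Nat.floor_le (by have := hv0 c; positivity)
    have h2 : v c * (H : ℝ) ^ n / (n + 1) < g c + 1 := Nat.lt_floor_add_one _
    have h3 : (g c' : ℝ) ≤ v c' * (H : ℝ) ^ n / (n + 1) :=
      Nat.floor_le (by have := hv0 c'; positivity)
    have h4 : v c' * (H : ℝ) ^ n / (n + 1) < g c' + 1 := Nat.lt_floor_add_one _
    rw [heq] at h1 h2
    have h5 : |v c * (H : ℝ) ^ n / (n + 1) - v c' * (H : ℝ) ^ n / (n + 1)| ≤ 1 := by
      rw [abs_le]; constructor <;> linarith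
    have h6 : v c * (H : ℝ) ^ n / (n + 1) - v c' * (H : ℝ) ^ n / (n + 1) =
        (v c - v c') * (H : ℝ) ^ n / (n + 1) := by ring
    rw [h6, abs_div, abs_mul, abs_of_pos (by positivity : (0 : ℝ) < (H : ℝ) ^ n),
      abs_of_pos (by positivity : (0 : ℝ) < (n : ℝ) + 1), div_le_one (by positivity)] at h5
    rw [hval]; exact h5

theorem mem_WSet_of_lt (ξ : ℝ) (hξ0 : 0 ≤ ξ) (hξ1 : ξ ≤ 1) (n : ℕ) (hn : 1 ≤ n)
    (hne : ∀ P : ℤ[X], P ≠ 0 → aeval ξ P ≠ 0) (w : ℝ) (hw0 : 0 ≤ w) (hw : w < n) :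
    w ∈ WSet ξ n := by
  classical
  unfold WSet
  intro hfin
  set S := {P : ℤ[X] | P ≠ 0 ∧ P.natDegree ≤ n ∧ 0 < |aeval ξ P| ∧
    |aeval ξ P| ≤ (ht P : ℝ) ^ (-w)} with hS
  obtain ⟨κ, hκ0, hκ⟩ : ∃ κ : ℝ, 0 < κ ∧ ∀ P ∈ S, κ ≤ |aeval ξ P| := by
    by_cases hSe : S.Nonempty
    · obtain ⟨P0, hP0, hmin⟩ := Set.exists_min_image S (fun P => |aeval ξ P|) hfin hSe
      exact ⟨|aeval ξ P0|, hP0.2.2.1, hmin⟩
    · exact ⟨1, one_pos, fun P hP => absurd ⟨P, hP⟩ hSe⟩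
  have hlim1 : Filter.Tendsto (fun H : ℕ => (H : ℝ) ^ ((n : ℝ) - w)) Filter.atTop Filter.atTop :=
    (tendsto_rpow_atTop (by linarith)).comp tendsto_natCast_atTop_atTop
  have hlim2 : Filter.Tendsto (fun H : ℕ => (H : ℝ) ^ n * κ) Filter.atTop Filter.atTop :=
    ((Filter.tendsto_pow_atTop (by omega)).comp tendsto_natCast_atTop_atTop).atTop_mul_const hκ0
  obtain ⟨H, hH1, hH2, hH3⟩ := ((hlim1.eventually_ge_atTop ((n : ℝ) + 1)).and
    ((hlim2.eventually_gt_atTop ((n : ℝ) + 1)).and (Filter.eventually_ge_atTop 1))).exists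
  obtain ⟨P, hP0, hPd, hPh, hPv⟩ := dirichlet ξ hξ0 hξ1 n H hn hH3
  have hHr : (1 : ℝ) ≤ H := by exact_mod_cast hH3
  have hHpos : (0 : ℝ) < H := by linarith
  have hhtr : (1 : ℝ) ≤ ht P := by exact_mod_cast ht_pos hP0
  have hmem : P ∈ S := by
    refine ⟨hP0, hPd, abs_pos.mpr (hne P hP0), ?_⟩
    have h1 : |aeval ξ P| * (H : ℝ) ^ n ≤ (H : ℝ) ^ ((n : ℝ) - w) := hPv.trans hH1
    have h2 : (H : ℝ) ^ ((n : ℝ) - w) = (H : ℝ) ^ (-w) * (H : ℝ) ^ n := by
      rw [← Real.rpow_natCast (H : ℝ) n, ← Real.rpow_add hHpos]; congr 1; ring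
    rw [h2] at h1
    have h3 : |aeval ξ P| ≤ (H : ℝ) ^ (-w) := le_of_mul_le_mul_right h1 (by positivity)
    refine h3.trans ?_
    apply Real.rpow_le_rpow_of_nonpos (by linarith) (by exact_mod_cast hPh) (by linarith)
  have h4 := hκ P hmem
  have h5 : κ * (H : ℝ) ^ n ≤ (n : ℝ) + 1 := by
    calc κ * (H : ℝ) ^ n ≤ |aeval ξ P| * (H : ℝ) ^ n := by gcongr
      _ ≤ _ := hPv
  linarith [mul_comm κ ((H : ℝ) ^ n)]

theorem WSet_le (ξ : ℝ) (n E : ℕ) (c : ℝ) (hc : 0 < c)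
    (h : ∀ P : ℤ[X], P ≠ 0 → P.natDegree ≤ n → c ≤ |aeval ξ P| * (ht P : ℝ) ^ E)
    (w : ℝ) (hw : w ∈ WSet ξ n) : w ≤ E := by
  by_contra hcon
  push Not at hcon
  have hlim : Filter.Tendsto (fun H : ℕ => (H : ℝ) ^ (w - E)) Filter.atTop Filter.atTop :=
    (tendsto_rpow_atTop (by linarith)).comp tendsto_natCast_atTop_atTop
  obtain ⟨H, hH⟩ := Filter.eventually_atTop.mp (hlim.eventually_gt_atTop (1 / c))
  obtain ⟨P, hP, hPH⟩ := exists_ht_gt hw (fun P hP => hP.2.1) (max H 1)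
  obtain ⟨hP0, hPd, hPpos, hPle⟩ := hP
  have h1 := h P hP0 hPd
  have h2 := hH (ht P) (by omega)
  have hhtr : (1 : ℝ) ≤ ht P := by exact_mod_cast ht_pos hP0
  have hhtpos : (0 : ℝ) < ht P := by linarith
  have h3 : c ≤ (ht P : ℝ) ^ (-w) * (ht P : ℝ) ^ E := h1.trans (by gcongr)
  have h4 : (ht P : ℝ) ^ (-w) * (ht P : ℝ) ^ E = ((ht P : ℝ) ^ (w - E))⁻¹ := by
    rw [← Real.rpow_natCast (ht P : ℝ) E, ← Real.rpow_add hhtpos, ← Real.rpow_neg hhtpos.le]
    congr 1; ring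
  rw [h4] at h3
  have h5 : ((ht P : ℝ) ^ (w - E))⁻¹ < c := by
    rw [inv_lt_comm₀ (by positivity) hc, ← one_div]
    exact h2
  linarith

end Pool.Agent.Helper35
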