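import Mathlib
import Pool.Agent.Helper35.Exps

set_option autoImplicit false

namespace Pool.Agent.Helper35

open Polynomial

theorem ht_linear (N : ℕ) (n : ℤ) (hN : 1 ≤ N) (h0 : 0 ≤ (n : ℝ) / N) (h1 : (n : ℝ) / N ≤ 1) :
    ht (C (N : ℤ) * X - C n) = N := by
  have hNr : (0 : ℝ) < N := by exact_mod_cast hN
  have hn0 : 0 ≤ n := by
    have : (0 : ℝ) ≤ n := by
      by_contra hc
      push Not at hc
      have := div_neg_of_neg_of_pos hc hNr
      linarith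
    exact_mod_cast this
  have hn1 : n ≤ N := by
    rw [div_le_one hNr] at h1
    exact_mod_cast h1
  have hc : ∀ i, (C (N : ℤ) * X - C n : ℤ[X]).coeff i =
      if i = 1 then (N : ℤ) else if i = 0 then -n else 0 := by
    intro i
    rw [coeff_sub, coeff_C_mul, coeff_X, coeff_C]
    rcases Nat.lt_trichotomy i 1 with h | h | h
    · have : i = 0 := by omega
      subst this; simp
    · subst h; simp
    · have h2 : i ≠ 1 := by omega
      have h3 : i ≠ 0 := by omega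
      simp [h2, h3, Ne.symm h2]
  apply le_antisymm
  · apply ht_le_of
    intro i
    rw [hc i]
    split_ifs
    · simp
    · omega
    · simp
  · have := natAbs_coeff_le_ht (C (N : ℤ) * X - C n) 1
    rw [hc 1] at this
    simpa using this

theorem aeval_linear (ξ : ℝ) (N : ℕ) (n : ℤ) :
    aeval ξ (C (N : ℤ) * X - C n : ℤ[X]) = N * ξ - n := by
  simp

theorem main_f : ∃ (ξ : ℝ) (N : ℕ → ℕ) (n : ℕ → ℤ) (f : ℕ → ℝ),
    StrictMono N ∧ (∀ k, 1 ≤ N k) ∧ (∀ k, 0 ≤ (n k : ℝ) / N k) ∧ (∀ k, (n k : ℝ) / N k ≤ 1) ∧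
    0 ≤ ξ ∧ ξ ≤ 1 ∧
    (∀ k, 0 < ξ - (n k : ℝ) / N k) ∧ (∀ k, ξ - (n k : ℝ) / N k ≤ 1 / (N k : ℝ) ^ 90) ∧
    (∀ d : ℕ, ∃ c : ℝ, 0 < c ∧ ∀ P : ℤ[X], P ≠ 0 → P.natDegree ≤ d →
      c ≤ |aeval ξ P| * (ht P : ℝ) ^ (max (40 * (d + 1)) 400)) ∧
    (∀ m : ℕ, 1 ≤ m → IsLUB (WSet ξ m) (f m)) ∧
    (∀ m : ℕ, 1 ≤ m → (m : ℝ) ≤ f m) ∧
    (∀ m : ℕ, 1 ≤ m → f m ≤ ((max (40 * (m + 1)) 400 : ℕ) : ℝ)) ∧ 89 ≤ f 1 := by
  obtain ⟨ξ, N, n, hmono, hN1, hx0, hx1, hξ0, hξ1, hpos, hhi, hbd⟩ := main_xi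
  have hne : ∀ P : ℤ[X], P ≠ 0 → aeval ξ P ≠ 0 := by
    intro P hP h0
    obtain ⟨c, hc, hcc⟩ := hbd P.natDegree
    have := hcc P hP le_rfl
    rw [h0, abs_zero, zero_mul] at this
    linarith
  have hlub : ∀ m : ℕ, 1 ≤ m → IsLUB (WSet ξ m) (sSup (WSet ξ m)) := by
    intro m hm
    obtain ⟨c, hc, hcc⟩ := hbd m
    apply isLUB_csSup
    · exact ⟨0, mem_WSet_of_lt ξ hξ0 hξ1 m hm hne 0 le_rfl (by exact_mod_cast hm)⟩
    · exact ⟨_, fun w hw => WSet_le ξ m _ c hc hcc w hw⟩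
  refine ⟨ξ, N, n, fun m => sSup (WSet ξ m), hmono, hN1, hx0, hx1, hξ0, hξ1, hpos, hhi, hbd,
    hlub, ?_, ?_, ?_⟩
  · intro m hm
    apply le_of_forall_lt
    intro w hw
    rcases lt_or_ge w 0 with h | h
    · have h1 := (hlub m hm).1 (mem_WSet_of_lt ξ hξ0 hξ1 m hm hne 0 le_rfl
        (by exact_mod_cast hm))
      exact lt_of_lt_of_le h h1
    · obtain ⟨w', hw'1, hw'2⟩ := exists_between hw
      have h1 := (hlub m hm).1 (mem_WSet_of_lt ξ hξ0 hξ1 m hm hne w' (by linarith) hw'2)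
      exact lt_of_lt_of_le hw'1 h1
  · intro m hm
    obtain ⟨c, hc, hcc⟩ := hbd m
    exact (hlub m hm).2 (fun w hw => WSet_le ξ m _ c hc hcc w hw)
  · apply (hlub 1 le_rfl).1
    unfold WSet
    apply Set.infinite_of_injective_forall_mem (f := fun k => (C (N k : ℤ) * X - C (n k) : ℤ[X]))
    · intro i j hij
      simp only at hij
      have h1 := ht_linear (N i) (n i) (hN1 i) (hx0 i) (hx1 i)
      have h2 := ht_linear (N j) (n j) (hN1 j) (hx0 j) (hx1 j)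
      rw [hij, h2] at h1
      exact hmono.injective h1.symm
    · intro k
      have hNr : (0 : ℝ) < N k := by exact_mod_cast hN1 k
      have hval : aeval ξ (C (N k : ℤ) * X - C (n k) : ℤ[X]) = N k * (ξ - (n k : ℝ) / N k) := by
        rw [aeval_linear]; field_simp
      have hp : 0 < (N k : ℝ) * (ξ - (n k : ℝ) / N k) := mul_pos hNr (hpos k)
      refine ⟨?_, ?_, ?_, ?_⟩
      · intro h0
        have := ht_linear (N k) (n k) (hN1 k) (hx0 k) (hx1 k)
        rw [h0] at this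
        simp [ht] at this
        have := hN1 k
        omega
      · refine (natDegree_sub_le _ _).trans ?_
        rw [natDegree_C]
        exact max_le ((natDegree_C_mul_le _ _).trans natDegree_X_le) (Nat.zero_le _)
      · rw [hval, abs_of_pos hp]; exact hp
      · rw [hval, abs_of_pos hp, ht_linear (N k) (n k) (hN1 k) (hx0 k) (hx1 k)]
        have h89 : (N k : ℝ) ^ (-(89 : ℝ)) = 1 / (N k : ℝ) ^ 89 := by
          rw [Real.rpow_neg hNr.le, one_div]
          congr 1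
          exact_mod_cast Real.rpow_natCast (N k : ℝ) 89
        rw [h89]
        calc (N k : ℝ) * (ξ - (n k : ℝ) / N k) ≤ N k * (1 / (N k : ℝ) ^ 90) := by
              have := hhi k
              gcongr
          _ = 1 / (N k : ℝ) ^ 89 := by rw [pow_succ (N k : ℝ) 89]; field_simp

end Pool.Agent.Helper35
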