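import Mathlib

set_option autoImplicit false

namespace Pool.Agent.Helper35.PadeJob

open Polynomial

theorem sum_w_zero {ι : Type*} [DecidableEq ι] (S : Finset ι) (z : ι → ℝ) (hz : Set.InjOn z S)
    (hS : 2 ≤ S.card) : ∑ i ∈ S, ∏ j ∈ S.erase i, (z i - z j)⁻¹ = 0 := by
  have h := Lagrange.coeff_eq_sum (s := S) (v := z) hz (P := (1 : ℝ[X])) (by
    rw [degree_one]
    have : (0:ℕ) < S.card := by omega
    exact_mod_cast this)
  rw [coeff_one, if_neg (by omega)] at h
  rw [h]
  apply Finset.sum_congr rfl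
  intro i _
  rw [eval_one, one_div, Finset.prod_inv_distrib]

theorem dd_bounds {ι : Type*} [DecidableEq ι] (S : Finset ι) (z : ι → ℝ) (hz : Set.InjOn z S)
    (B : ℝ) (hz0 : ∀ i ∈ S, 0 ≤ z i) (hzB : ∀ i ∈ S, z i ≤ B) (k : ℕ) (hk : S.card = k + 1)
    (t : ℝ) (ht : 0 ≤ t) :
    t ^ k / k.factorial ≤ ∑ i ∈ S, Real.exp (t * z i) * ∏ j ∈ S.erase i, (z i - z j)⁻¹ ∧
    ∑ i ∈ S, Real.exp (t * z i) * ∏ j ∈ S.erase i, (z i - z j)⁻¹ ≤
      Real.exp (t * B) * t ^ k / k.factorial := by
  induction S using Finset.induction_on generalizing k t with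
  | empty => simp at hk
  | insert a S ha ih =>
    rw [Finset.card_insert_of_notMem ha] at hk
    have hk' : S.card = k := by omega
    have hinj : Set.InjOn z S := hz.mono (by intro x hx; exact Finset.mem_insert_of_mem hx)
    have hza0 : 0 ≤ z a := hz0 a (Finset.mem_insert_self _ _)
    have hzaB : z a ≤ B := hzB a (Finset.mem_insert_self _ _)
    have ih' := fun (m : ℕ) (hm : S.card = m + 1) (t : ℝ) (ht : 0 ≤ t) =>
      ih hinj (fun i hi => hz0 i (Finset.mem_insert_of_mem hi)) (fun i hi => hzB i (Finset.mem_insert_of_mem hi)) m hm t ht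
    rcases Nat.eq_zero_or_pos k with h0 | h0
    · subst h0
      have hS : S = ∅ := Finset.card_eq_zero.mp hk'
      subst hS
      simp only [pow_zero, Nat.factorial_zero, Nat.cast_one, div_one, mul_one]
      rw [Finset.sum_insert (by simp), Finset.sum_empty, add_zero]
      have e : (insert a (∅ : Finset ι)).erase a = ∅ := by simp
      rw [e, Finset.prod_empty, mul_one]
      refine ⟨Real.one_le_exp (by positivity), Real.exp_le_exp.mpr (by gcongr)⟩
    · obtain ⟨m, rfl⟩ : ∃ m, k = m + 1 := ⟨k - 1, by omega⟩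
      set F : ℝ → ℝ := fun t => ∑ i ∈ insert a S, Real.exp (t * z i) * ∏ j ∈ (insert a S).erase i, (z i - z j)⁻¹ with hF
      set G : ℝ → ℝ := fun t => ∑ i ∈ S, Real.exp (t * z i) * ∏ j ∈ S.erase i, (z i - z j)⁻¹ with hG
      have hF0 : F 0 = 0 := by
        simp only [hF, zero_mul, Real.exp_zero, one_mul]
        exact sum_w_zero _ _ hz (by rw [Finset.card_insert_of_notMem ha]; omega)
      have hFd : ∀ t, HasDerivAt F (z a * F t + G t) t := by
        intro t
        have h1 : HasDerivAt F (∑ i ∈ insert a S, (Real.exp (t * z i) * z i) * ∏ j ∈ (insert a S).erase i, (z i - z j)⁻¹) t := by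
          apply HasDerivAt.fun_sum
          intro i _
          have : HasDerivAt (fun t : ℝ => Real.exp (t * z i)) (Real.exp (t * z i) * z i) t := by
            have := ((hasDerivAt_id t).mul_const (z i)).exp
            simpa using this
          exact this.mul_const _
        have h2 : (∑ i ∈ insert a S, (Real.exp (t * z i) * z i) * ∏ j ∈ (insert a S).erase i, (z i - z j)⁻¹) = z a * F t + G t := by
          simp only [hF, hG]
          rw [Finset.mul_sum, Finset.sum_insert ha, Finset.sum_insert ha, add_assoc, ← Finset.sum_add_distrib]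
          congr 1
          · ring
          · apply Finset.sum_congr rfl
            intro i hi
            have hia : i ≠ a := fun h => ha (h ▸ hi)
            have e1 : (insert a S).erase i = insert a (S.erase i) := by
              rw [Finset.erase_insert_of_ne (Ne.symm hia)]
            have e2 : a ∉ S.erase i := fun h => ha (Finset.mem_of_mem_erase h)
            rw [e1, Finset.prod_insert e2]
            have hne : z i - z a ≠ 0 := by
              intro h
              apply hia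
              exact hz (Finset.mem_insert_of_mem hi) (Finset.mem_insert_self _ _) (by linarith)
            field_simp
            ring
        rw [h2] at h1
        exact h1
      have hG1 : ∀ t, 0 ≤ t → t ^ m / m.factorial ≤ G t := fun t ht => (ih' m (by omega) t ht).1
      have hG2 : ∀ t, 0 ≤ t → G t ≤ Real.exp (t * B) * t ^ m / m.factorial := fun t ht => (ih' m (by omega) t ht).2
      have hG0 : ∀ t, 0 ≤ t → 0 ≤ G t := fun t ht => le_trans (by positivity) (hG1 t ht)
      -- general monotonicity helper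
      have mono : ∀ (f f' : ℝ → ℝ), (∀ t, HasDerivAt f (f' t) t) → (∀ t, 0 ≤ t → 0 ≤ f' t) → ∀ t, 0 ≤ t → f 0 ≤ f t := by
        intro f f' hf hf' t ht
        have : MonotoneOn f (Set.Ici 0) := by
          apply monotoneOn_of_deriv_nonneg (convex_Ici 0)
          · exact fun x _ => (hf x).continuousAt.continuousWithinAt
          · exact fun x _ => (hf x).differentiableAt.differentiableWithinAt
          · intro x hx
            rw [interior_Ici] at hx
            rw [(hf x).deriv]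
            exact hf' x hx.le
        exact this Set.self_mem_Ici ht ht
      have hFpos : ∀ t, 0 ≤ t → 0 ≤ F t := by
        intro t ht
        have := mono (fun t => Real.exp (-(z a) * t) * F t) (fun t => Real.exp (-(z a) * t) * G t) (by
          intro t
          have h1 : HasDerivAt (fun t : ℝ => Real.exp (-(z a) * t)) (Real.exp (-(z a) * t) * (-(z a))) t := by
            have := ((hasDerivAt_id t).const_mul (-(z a))).exp
            simpa using this
          have h2 := h1.mul (hFd t)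
          refine h2.congr_deriv ?_
          ring) (by
          intro t ht
          exact mul_nonneg (Real.exp_pos _).le (hG0 t ht)) t ht
        simp only [hF0, mul_zero] at this
        exact nonneg_of_mul_nonneg_right this (Real.exp_pos _)
      have hpow : ∀ t : ℝ, HasDerivAt (fun t : ℝ => t ^ (m+1) / ((m+1).factorial : ℝ)) (t ^ m / m.factorial) t := by
        intro t
        have := (hasDerivAt_pow (m+1) t).div_const ((m+1).factorial : ℝ)
        refine this.congr_deriv ?_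
        rw [Nat.factorial_succ, Nat.add_sub_cancel]
        push_cast
        have : ((m:ℝ) + 1) ≠ 0 := by positivity
        field_simp
      constructor
      · have := mono (fun t => F t - t ^ (m+1) / ((m+1).factorial : ℝ)) (fun t => z a * F t + G t - t ^ m / m.factorial)
          (fun t => (hFd t).sub (hpow t)) (by
            intro t ht
            have h1 := hG1 t ht
            have h2 := mul_nonneg hza0 (hFpos t ht)
            linarith) t ht
        simp only [hF0] at this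
        have e : (0:ℝ) ^ (m+1) / ((m+1).factorial : ℝ) = 0 := by simp
        rw [e] at this
        linarith
      · have := mono (fun t => t ^ (m+1) / ((m+1).factorial : ℝ) - Real.exp (-B * t) * F t)
          (fun t => t ^ m / m.factorial - (Real.exp (-B * t) * (G t - (B - z a) * F t))) (by
            intro t
            have h1 : HasDerivAt (fun t : ℝ => Real.exp (-B * t)) (Real.exp (-B * t) * (-B)) t := by
              have := ((hasDerivAt_id t).const_mul (-B)).exp
              simpa using this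
            have h2 := (hpow t).sub (h1.mul (hFd t))
            refine h2.congr_deriv ?_
            ring) (by
            intro t ht
            have h1 := hG2 t ht
            have h2 : 0 ≤ (B - z a) * F t := mul_nonneg (by linarith) (hFpos t ht)
            have h3 : Real.exp (-B * t) * (G t - (B - z a) * F t) ≤ Real.exp (-B * t) * (Real.exp (t * B) * t ^ m / m.factorial) := by
              gcongr
              linarith
            have h4 : Real.exp (-B * t) * (Real.exp (t * B) * t ^ m / m.factorial) = t ^ m / m.factorial := by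
              have : Real.exp (-B * t) * Real.exp (t * B) = 1 := by
                rw [← Real.exp_add]; ring_nf; exact Real.exp_zero
              calc _ = (Real.exp (-B * t) * Real.exp (t * B)) * t ^ m / m.factorial := by ring
                _ = _ := by rw [this, one_mul]
            linarith) t ht
        simp only [hF0, mul_zero, sub_zero] at this
        have e : (0:ℝ) ^ (m+1) / ((m+1).factorial : ℝ) = 0 := by simp
        rw [e] at this
        have h5 : Real.exp (-B * t) * F t ≤ t ^ (m+1) / ((m+1).factorial : ℝ) := by linarith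
        have h6 : F t = Real.exp (t * B) * (Real.exp (-B * t) * F t) := by
          rw [← mul_assoc, ← Real.exp_add]
          ring_nf
          rw [Real.exp_zero, one_mul]
        change F t ≤ _
        rw [h6]
        calc _ ≤ Real.exp (t * B) * (t ^ (m+1) / ((m+1).factorial : ℝ)) := by gcongr
          _ = _ := by ring


open Finset in
theorem prod_erase_product (A B : Finset ℕ) {i j : ℕ} (hi : i ∈ A) (hj : j ∈ B) (f : ℕ × ℕ → ℝ) :
    ∏ p ∈ (A ×ˢ B).erase (i, j), f p =
      (∏ j' ∈ B.erase j, f (i, j')) * ∏ i' ∈ A.erase i, ∏ j' ∈ B, f (i', j') := by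
  have e : (A ×ˢ B).erase (i, j) = (({i} : Finset ℕ) ×ˢ B.erase j) ∪ (A.erase i ×ˢ B) := by
    ext ⟨a, b⟩
    simp only [mem_erase, mem_product, mem_union, mem_singleton, ne_eq, Prod.mk.injEq]
    by_cases ha : a = i
    · subst ha
      simp [hi]
    · simp [ha]
  rw [e, Finset.prod_union, Finset.prod_product, Finset.prod_product, Finset.prod_singleton]
  rw [Finset.disjoint_left]
  rintro ⟨a, b⟩ h1 h2
  simp only [mem_erase, mem_product, mem_singleton] at h1 h2
  exact h2.1.1 h1.1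

open Finset in
theorem prod_sub_range (j r : ℕ) :
    ∏ j' ∈ (range (j + 1 + r)).erase j, ((j:ℝ) - j') = (-1) ^ r * (j.factorial * r.factorial) := by
  have e1 : ∏ j' ∈ (range (j + 1 + r)).erase j, ((j:ℝ) - j') =
      ∏ j' ∈ range (j + 1 + r), (if j' = j then (1:ℝ) else (j:ℝ) - j') := by
    rw [← Finset.prod_erase (range (j + 1 + r)) (a := j) (f := fun j' => if j' = j then (1:ℝ) else (j:ℝ) - j') (by simp)]
    apply Finset.prod_congr rfl
    intro x hx
    rw [if_neg (Finset.ne_of_mem_erase hx)]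
  rw [e1, Finset.prod_range_add, Finset.prod_range_succ, if_pos rfl, mul_one]
  have e2 : ∏ x ∈ range j, (if x = j then (1:ℝ) else (j:ℝ) - x) = j.factorial := by
    have : ∏ x ∈ range j, (if x = j then (1:ℝ) else (j:ℝ) - x) = ∏ x ∈ range j, (((j - 1 - x : ℕ) : ℝ) + 1) := by
      apply Finset.prod_congr rfl
      intro x hx
      have hx' := Finset.mem_range.mp hx
      rw [if_neg (by omega)]
      have : j = (j - 1 - x) + 1 + x := by omega
      conv_lhs => rw [this]
      push_cast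
      ring
    rw [this, Finset.prod_range_reflect (fun x => ((x:ℝ) + 1)) j, ← Finset.prod_range_add_one_eq_factorial]
    push_cast
    rfl
  have e3 : ∏ x ∈ range r, (if j + 1 + x = j then (1:ℝ) else (j:ℝ) - (j + 1 + x : ℕ)) = (-1) ^ r * r.factorial := by
    have : ∏ x ∈ range r, (if j + 1 + x = j then (1:ℝ) else (j:ℝ) - (j + 1 + x : ℕ)) = ∏ x ∈ range r, ((-1) * ((x:ℝ) + 1)) := by
      apply Finset.prod_congr rfl
      intro x hx
      rw [if_neg (by omega)]
      push_cast
      ring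
    rw [this, Finset.prod_mul_distrib, Finset.prod_const, Finset.card_range, ← Finset.prod_range_add_one_eq_factorial]
    push_cast
    rfl
  rw [e2, e3]
  ring

/-- signed binomial coefficient -/
def cc (n j : ℕ) : ℤ := (-1) ^ (n - 1 - j) * ((n - 1).choose j : ℤ)

open Finset in
theorem cc_eq {n j : ℕ} (hj : j < n) :
    ((n - 1).factorial : ℝ) * ∏ j' ∈ (range n).erase j, ((j:ℝ) - j')⁻¹ = (cc n j : ℝ) := by
  obtain ⟨r, rfl⟩ : ∃ r, n = j + 1 + r := ⟨n - (j + 1), by omega⟩
  rw [Finset.prod_inv_distrib, prod_sub_range]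
  have h1 : j + 1 + r - 1 = j + r := by omega
  have h2 : j + 1 + r - 1 - j = r := by omega
  unfold cc
  rw [h2, h1]
  have h3 := Nat.add_choose_mul_factorial_mul_factorial j r
  push_cast
  rw [← Nat.choose_symm_add] at h3
  have h4 : ((j + r).factorial : ℝ) = ((j + r).choose j : ℝ) * j.factorial * r.factorial := by exact_mod_cast h3.symm
  rw [h4]
  have h5 : (j.factorial : ℝ) ≠ 0 := by positivity
  have h6 : (r.factorial : ℝ) ≠ 0 := by positivity
  have h7 : ((-1:ℝ) ^ r) * (-1) ^ r = 1 := by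
    rw [← mul_pow]; norm_num
  have h8 : ((-1:ℝ) ^ r) ≠ 0 := by positivity
  field_simp
  rw [← pow_mul, mul_comm r 2, pow_mul]
  norm_num

theorem cc_abs (n j : ℕ) : |cc n j| = ((n - 1).choose j : ℤ) := by
  unfold cc
  rw [abs_mul, abs_pow, abs_neg, abs_one, one_pow, one_mul]
  exact abs_of_nonneg (by positivity)

open Finset in
theorem sum_choose_le {n : ℕ} (hn : 1 ≤ n) : ∑ l ∈ range n, ((n - 1).choose l : ℤ) = 2 ^ (n - 1) := by
  have := Nat.sum_range_choose (n - 1)
  rw [Nat.sub_add_cancel hn] at this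
  exact_mod_cast this

/-- the integer a_l -/
def aa (d i i' j l : ℕ) : ℤ := (d:ℤ) * ((j:ℤ) - l) + ((i:ℤ) - i')

theorem aa_ne {d i i' j l : ℕ} (hi : i < d) (hi' : i' < d) (hne : i' ≠ i) : aa d i i' j l ≠ 0 := by
  unfold aa
  intro h
  have h1 : (d:ℤ) ∣ ((i:ℤ) - i') := ⟨-((j:ℤ) - l), by linarith⟩
  have h2 : |((i:ℤ) - i')| < d := by
    rw [abs_lt]; constructor <;> omega
  have := Int.eq_zero_of_abs_lt_dvd h1 h2
  omega

theorem aa_dvd {d i i' j l n : ℕ} (hi : i < d) (hi' : i' < d) (hne : i' ≠ i) (hj : j < n) (hl : l < n) :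
    aa d i i' j l ∣ (Nat.lcmUpto (d * n) : ℤ) := by
  have h0 := aa_ne (j := j) (l := l) hi hi' hne
  rw [← Int.natAbs_dvd, Int.natCast_dvd_natCast]
  unfold Nat.lcmUpto
  apply Finset.dvd_lcm (f := id)
  rw [Finset.mem_Icc]
  refine ⟨Int.natAbs_pos.mpr h0, ?_⟩
  have h1 : |aa d i i' j l| ≤ d * n := by
    unfold aa
    have a1 : |(d:ℤ) * ((j:ℤ) - l)| ≤ d * (n - 1) := by
      rw [abs_mul, abs_of_nonneg (by positivity : (0:ℤ) ≤ d)]
      apply mul_le_mul_of_nonneg_left _ (by positivity)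
      rw [abs_le]; constructor <;> omega
    have a2 : |(i:ℤ) - i'| ≤ d := by
      rw [abs_le]; constructor <;> omega
    calc _ ≤ |(d:ℤ) * ((j:ℤ) - l)| + |(i:ℤ) - i'| := abs_add_le _ _
      _ ≤ d * (n - 1) + d := add_le_add a1 a2
      _ = _ := by ring
  have h2 : ((aa d i i' j l).natAbs : ℤ) = |aa d i i' j l| := Int.natCast_natAbs _
  have : ((aa d i i' j l).natAbs : ℤ) ≤ ((d * n : ℕ) : ℤ) := by rw [h2]; push_cast; exact h1
  exact_mod_cast this

/-- the integer replacing (n-1)! L prod (u - l)^(-1) -/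
def ee (d n i i' j : ℕ) : ℤ :=
  ∑ l ∈ Finset.range n, cc n l * (d * ((Nat.lcmUpto (d * n) : ℤ) / aa d i i' j l))

open Finset in
theorem ee_eq {d n i i' j : ℕ} (hi : i < d) (hi' : i' < d) (hne : i' ≠ i) (hj : j < n) :
    ((n - 1).factorial : ℝ) * (Nat.lcmUpto (d * n) : ℝ) *
      ∏ l ∈ range n, (((i:ℝ) / d + j) - ((i':ℝ) / d + l))⁻¹ = (ee d n i i' j : ℝ) := by
  have hd : (d:ℝ) ≠ 0 := by
    have : d ≠ 0 := by omega
    exact_mod_cast this
  set u : ℝ := (j:ℝ) + ((i:ℝ) - i') / d with hu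
  have hul : ∀ l : ℕ, u - l = (aa d i i' j l : ℝ) / d := by
    intro l
    rw [hu]; unfold aa
    push_cast
    field_simp
    ring
  have hune : ∀ l : ℕ, u - l ≠ 0 := by
    intro l
    rw [hul]
    have := aa_ne (j := j) (l := l) hi hi' hne
    have : (aa d i i' j l : ℝ) ≠ 0 := by exact_mod_cast this
    exact div_ne_zero this hd
  have hprod : ∏ l ∈ range n, (((i:ℝ) / d + j) - ((i':ℝ) / d + l))⁻¹ = ∏ l ∈ range n, (u - l)⁻¹ := by
    apply Finset.prod_congr rfl
    intro l _
    congr 1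
    rw [hu]; ring
  rw [hprod]
  have hinj : Set.InjOn (fun l : ℕ => (l:ℝ)) (range n) := fun a _ b _ h => Nat.cast_injective (R := ℝ) h
  have hne' : (range n).Nonempty := ⟨j, Finset.mem_range.mpr hj⟩
  have h1 := Lagrange.eval_interpolate_not_at_node (s := range n) (v := fun l : ℕ => (l:ℝ)) (x := u) 1
    (fun l _ h => hune l (by rw [h]; simp))
  rw [Lagrange.interpolate_one hinj hne', eval_one, Lagrange.eval_nodal] at h1
  simp only [Pi.one_apply, mul_one] at h1
  have hP : ∏ l ∈ range n, (u - l) ≠ 0 := Finset.prod_ne_zero_iff.mpr (fun l _ => hune l)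
  have h2 : ∏ l ∈ range n, (u - l)⁻¹ = ∑ l ∈ range n, Lagrange.nodalWeight (range n) (fun l : ℕ => (l:ℝ)) l * (u - l)⁻¹ := by
    rw [Finset.prod_inv_distrib]
    exact inv_eq_of_mul_eq_one_right h1.symm
  rw [h2, Finset.mul_sum]
  unfold ee
  push_cast
  apply Finset.sum_congr rfl
  intro l hl
  have hl' := Finset.mem_range.mp hl
  have h3 := cc_eq hl'
  rw [Lagrange.nodalWeight]
  have h4 : ((((Nat.lcmUpto (d * n) : ℤ) / aa d i i' j l : ℤ)) : ℝ) = (Nat.lcmUpto (d * n) : ℝ) / (aa d i i' j l : ℝ) := by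
    rw [Int.cast_div (aa_dvd hi hi' hne hj hl') (by exact_mod_cast aa_ne (j := j) (l := l) hi hi' hne)]
    push_cast
    rfl
  rw [h4, ← h3, hul, inv_div]
  ring

open Finset in
theorem ee_abs {d n i i' j : ℕ} (hn : 1 ≤ n) :
    |ee d n i i' j| ≤ 2 ^ (n - 1) * (d * Nat.lcmUpto (d * n)) := by
  unfold ee
  refine (Finset.abs_sum_le_sum_abs _ _).trans ?_
  rw [← sum_choose_le hn, Finset.sum_mul]
  apply Finset.sum_le_sum
  intro l _
  rw [abs_mul, cc_abs]
  apply mul_le_mul_of_nonneg_left _ (by positivity)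
  rw [abs_mul, abs_of_nonneg (by positivity : (0:ℤ) ≤ d)]
  apply mul_le_mul_of_nonneg_left _ (by positivity)
  have h := Int.natAbs_ediv_le_natAbs (Nat.lcmUpto (d * n) : ℤ) (aa d i i' j l)
  have : |(Nat.lcmUpto (d * n) : ℤ) / aa d i i' j l| = (((Nat.lcmUpto (d * n) : ℤ) / aa d i i' j l).natAbs : ℤ) := (Int.natCast_natAbs _).symm
  rw [this]
  have h' : ((Nat.lcmUpto (d * n) : ℤ)).natAbs = Nat.lcmUpto (d * n) := Int.natAbs_natCast _
  rw [h'] at h
  exact_mod_cast h

/-- the integer coefficients -/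
def bb (K d n i j : ℕ) : ℤ := cc n j * ∏ i' ∈ (Finset.range K).erase i, ee d n i i' j

open Finset in
theorem bb_eq {K d n i j : ℕ} (hd : K ≤ d) (hi : i < K) (hj : j < n) :
    ((n - 1).factorial : ℝ) ^ K * (Nat.lcmUpto (d * n) : ℝ) ^ (K - 1) *
      ∏ p ∈ (range K ×ˢ range n).erase (i, j), (((i:ℝ) / d + j) - ((p.1:ℝ) / d + p.2))⁻¹ = (bb K d n i j : ℝ) := by
  rw [prod_erase_product (range K) (range n) (Finset.mem_range.mpr hi) (Finset.mem_range.mpr hj)
    (fun p => (((i:ℝ) / d + j) - ((p.1:ℝ) / d + p.2))⁻¹)]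
  have hcard : ((range K).erase i).card = K - 1 := by
    rw [Finset.card_erase_of_mem (Finset.mem_range.mpr hi), Finset.card_range]
  have e1 : ((n - 1).factorial : ℝ) ^ K * (Nat.lcmUpto (d * n) : ℝ) ^ (K - 1) =
      ((n - 1).factorial : ℝ) * ∏ _i' ∈ (range K).erase i, (((n - 1).factorial : ℝ) * (Nat.lcmUpto (d * n) : ℝ)) := by
    rw [Finset.prod_const, hcard, mul_pow, ← mul_assoc, ← pow_succ', Nat.sub_add_cancel (by omega)]
  rw [e1]
  unfold bb
  push_cast
  rw [← cc_eq hj]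
  have e2 : ∏ x ∈ (range n).erase j, (((i:ℝ) / d + j) - ((i:ℝ) / d + x))⁻¹ = ∏ j' ∈ (range n).erase j, ((j:ℝ) - j')⁻¹ := by
    apply Finset.prod_congr rfl
    intro x _
    congr 1; ring
  rw [e2]
  have e3 : ∏ i' ∈ (range K).erase i, (ee d n i i' j : ℝ) = ∏ i' ∈ (range K).erase i,
      ((((n - 1).factorial : ℝ) * (Nat.lcmUpto (d * n) : ℝ)) * ∏ l ∈ range n, (((i:ℝ) / d + j) - ((i':ℝ) / d + l))⁻¹) := by
    apply Finset.prod_congr rfl
    intro i' hi'
    have h1 := Finset.ne_of_mem_erase hi'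
    have h2 := Finset.mem_range.mp (Finset.mem_of_mem_erase hi')
    rw [ee_eq (by omega) (by omega) h1 hj]
  have e4 : ∏ i' ∈ (range K).erase i,
      ((((n - 1).factorial : ℝ) * (Nat.lcmUpto (d * n) : ℝ)) * ∏ l ∈ range n, (((i:ℝ) / d + j) - ((i':ℝ) / d + l))⁻¹) =
      (∏ _i' ∈ (range K).erase i, (((n - 1).factorial : ℝ) * (Nat.lcmUpto (d * n) : ℝ))) *
      ∏ i' ∈ (range K).erase i, ∏ l ∈ range n, (((i:ℝ) / d + j) - ((i':ℝ) / d + l))⁻¹ := Finset.prod_mul_distrib
  rw [e3, e4]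
  ring

theorem bb_abs {K d n i j : ℕ} (hn : 1 ≤ n) (hi : i < K) :
    |bb K d n i j| ≤ 2 ^ n * (2 ^ n * (d * Nat.lcmUpto (d * n))) ^ (K - 1) := by
  unfold bb
  rw [abs_mul, Finset.abs_prod, cc_abs]
  have hcard : ((Finset.range K).erase i).card = K - 1 := by
    rw [Finset.card_erase_of_mem (Finset.mem_range.mpr hi), Finset.card_range]
  have h1 : ((n - 1).choose j : ℤ) ≤ 2 ^ n := by
    have a1 : (n-1).choose j ≤ 2 ^ (n-1) := Nat.choose_le_two_pow _ _
    have a2 : 2 ^ (n - 1) ≤ 2 ^ n := Nat.pow_le_pow_right (by norm_num) (by omega)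
    exact_mod_cast a1.trans a2
  have h2 : ∏ i' ∈ (Finset.range K).erase i, |ee d n i i' j| ≤ (2 ^ n * (d * Nat.lcmUpto (d * n)) : ℤ) ^ (K - 1) := by
    rw [← hcard, ← Finset.prod_const]
    apply Finset.prod_le_prod
    · intro _ _; exact abs_nonneg _
    · intro i' _
      refine (ee_abs hn).trans ?_
      apply mul_le_mul_of_nonneg_right _ (by positivity)
      exact pow_le_pow_right₀ (by norm_num) (by omega)
  exact mul_le_mul h1 h2 (Finset.prod_nonneg (fun _ _ => abs_nonneg _)) (by positivity)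


/-- integer coefficients of the form -/
def qq (K d n M i : ℕ) : ℤ := ∑ j ∈ Finset.range n, bb K d n i j * (((M:ℤ) + 1) ^ j * (M:ℤ) ^ (n - 1 - j))

/-- the polynomial -/
noncomputable def QQ (K d n M : ℕ) : ℤ[X] := ∑ i ∈ Finset.range K, C (qq K d n M i) * X ^ (K - 1 - i)

theorem QQ_natDegree (K d n M : ℕ) : (QQ K d n M).natDegree ≤ K - 1 := by
  unfold QQ
  apply natDegree_sum_le_of_forall_le
  intro i _
  refine (natDegree_C_mul_X_pow_le _ _).trans (by omega)

theorem QQ_coeff (K d n M m : ℕ) : (QQ K d n M).coeff m = if m < K then qq K d n M (K - 1 - m) else 0 := by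
  unfold QQ
  rw [finsetSum_coeff]
  simp only [coeff_C_mul_X_pow]
  split_ifs with hm
  · rw [Finset.sum_eq_single (K - 1 - m)]
    · rw [if_pos (by omega)]
    · intro b hb hne
      rw [if_neg]
      intro h
      have := Finset.mem_range.mp hb
      omega
    · intro h
      exfalso
      apply h
      rw [Finset.mem_range]; omega
  · apply Finset.sum_eq_zero
    intro b hb
    rw [if_neg]
    have := Finset.mem_range.mp hb
    omega

open Finset in
theorem QQ_aeval {K d n M : ℕ} (hd : K ≤ d) (hK : 2 ≤ K) (hM : 1 ≤ M) :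
    aeval (((M : ℝ) / (M + 1)) ^ ((1 : ℝ) / d)) (QQ K d n M) =
      (((M : ℝ) / (M + 1)) ^ ((1 : ℝ) / d)) ^ (K - 1) * (M:ℝ) ^ (n - 1) *
      ((((n - 1).factorial : ℝ) ^ K * (Nat.lcmUpto (d * n) : ℝ) ^ (K - 1)) *
        ∑ p ∈ range K ×ˢ range n, Real.exp (Real.log ((M + 1) / M) * ((p.1:ℝ) / d + p.2)) *
          ∏ p' ∈ (range K ×ˢ range n).erase p, (((p.1:ℝ) / d + p.2) - ((p'.1:ℝ) / d + p'.2))⁻¹) := by
  have hM0 : (0:ℝ) < M := by exact_mod_cast hM
  have hd0 : (d:ℝ) ≠ 0 := by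
    have : d ≠ 0 := by omega
    exact_mod_cast this
  set t := Real.log (((M:ℝ) + 1) / M) with ht
  have het : Real.exp t = ((M:ℝ) + 1) / M := by rw [ht, Real.exp_log (by positivity)]
  have hθ : ((M : ℝ) / (M + 1)) ^ ((1 : ℝ) / d) = Real.exp (-(t / d)) := by
    rw [Real.rpow_def_of_pos (by positivity)]
    congr 1
    have : Real.log ((M:ℝ) / (M+1)) = - t := by
      rw [ht, ← Real.log_inv, inv_div]
    rw [this]; ring
  rw [hθ]
  unfold QQ
  rw [map_sum, Finset.sum_product, Finset.mul_sum, Finset.mul_sum]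
  apply Finset.sum_congr rfl
  intro i hi
  have hi' := Finset.mem_range.mp hi
  rw [map_mul, map_pow, aeval_X, aeval_C]
  unfold qq
  simp only [algebraMap_int_eq, eq_intCast]
  push_cast
  rw [Finset.sum_mul, Finset.mul_sum, Finset.mul_sum]
  apply Finset.sum_congr rfl
  intro j hj
  have hj' := Finset.mem_range.mp hj
  rw [← bb_eq hd hi' hj']
  have e1 : Real.exp (-(t / d)) ^ (K - 1) = Real.exp (-(t/d)) ^ (K - 1 - i) * Real.exp (-(t/d)) ^ i := by
    rw [← pow_add]; congr 1; omega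
  have e2 : Real.exp (t * ((i:ℝ) / d + j)) = (Real.exp (t / d)) ^ i * (Real.exp t) ^ j := by
    rw [← Real.exp_nat_mul, ← Real.exp_nat_mul, ← Real.exp_add]
    congr 1; ring
  have e3 : Real.exp (-(t/d)) ^ i * Real.exp (t / d) ^ i = 1 := by
    rw [← mul_pow, ← Real.exp_add]; simp
  have e4 : (M:ℝ) ^ (n - 1) * (Real.exp t) ^ j = ((M:ℝ) + 1) ^ j * (M:ℝ) ^ (n - 1 - j) := by
    rw [het, div_pow]
    have : (M:ℝ) ^ (n - 1) = (M:ℝ) ^ j * (M:ℝ) ^ (n - 1 - j) := by
      rw [← pow_add]; congr 1; omega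
    rw [this]
    field_simp
  rw [e2, e1]
  calc _ = (Real.exp (-(t/d)) ^ (K - 1 - i)) * (((M:ℝ) + 1) ^ j * (M:ℝ) ^ (n - 1 - j)) *
        (((n - 1).factorial : ℝ) ^ K * (Nat.lcmUpto (d * n) : ℝ) ^ (K - 1) *
      ∏ p ∈ (range K ×ˢ range n).erase (i, j), (((i:ℝ) / d + j) - ((p.1:ℝ) / d + p.2))⁻¹) := by ring
    _ = (Real.exp (-(t/d)) ^ (K - 1 - i)) * ((M:ℝ) ^ (n - 1) * (Real.exp t) ^ j) * (Real.exp (-(t/d)) ^ i * Real.exp (t / d) ^ i) *
        (((n - 1).factorial : ℝ) ^ K * (Nat.lcmUpto (d * n) : ℝ) ^ (K - 1) *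
      ∏ p ∈ (range K ×ˢ range n).erase (i, j), (((i:ℝ) / d + j) - ((p.1:ℝ) / d + p.2))⁻¹) := by rw [e3, e4, mul_one]
    _ = _ := by ring

theorem lcm_le {d n : ℕ} : (Nat.lcmUpto (d * n) : ℝ) ≤ (Real.exp ((Real.log 4 + 4) * d)) ^ n := by
  have h1 := Chebyshev.psi_eq_log_lcmUpto (d * n)
  have h2 := Chebyshev.psi_le_const_mul_self (x := ((d * n : ℕ) : ℝ)) (Nat.cast_nonneg _)
  rw [h1] at h2
  have h3 : (0:ℝ) < Nat.lcmUpto (d * n) := by exact_mod_cast Nat.lcmUpto_pos _
  rw [← Real.exp_nat_mul, ← Real.log_le_iff_le_exp h3]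
  calc _ ≤ _ := h2
    _ = _ := by push_cast; ring

theorem fac_pow_le (a K : ℕ) : a.factorial ^ K ≤ (K * a).factorial := by
  induction K with
  | zero => simp
  | succ K ih =>
    calc a.factorial ^ (K+1) = a.factorial ^ K * a.factorial := pow_succ _ _
      _ ≤ (K * a).factorial * a.factorial := Nat.mul_le_mul_right _ ih
      _ ≤ (K * a + a).factorial := Nat.le_of_dvd (Nat.factorial_pos _) (Nat.factorial_mul_factorial_dvd_factorial_add _ _)
      _ = _ := by congr 1; ring

theorem fac_le_pow (n K : ℕ) : (K * n).factorial ≤ 2 ^ (n * K ^ 2) * n.factorial ^ K := by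
  induction K with
  | zero => simp
  | succ K ih =>
    have h1 := Nat.add_choose_mul_factorial_mul_factorial (K * n) n
    have h2 : (K * n + n).choose n ≤ 2 ^ (K * n + n) := Nat.choose_le_two_pow _ _
    have e : (K + 1) * n = K * n + n := by ring
    rw [e, ← h1]
    calc (K * n + n).choose n * (K * n).factorial * n.factorial ≤
        2 ^ (K * n + n) * (2 ^ (n * K ^ 2) * n.factorial ^ K) * n.factorial := by gcongr
      _ = 2 ^ (K * n + n + n * K ^ 2) * n.factorial ^ (K + 1) := by rw [pow_add 2 (K * n + n)]; ring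
      _ ≤ 2 ^ (n * (K + 1) ^ 2) * n.factorial ^ (K + 1) := by
        gcongr
        · norm_num
        · nlinarith [Nat.zero_le (n * K)]

theorem fac_final {n K : ℕ} (hn : 1 ≤ n) :
    (K * n - 1).factorial ≤ (2 ^ (K ^ 2 + K)) ^ n * (n - 1).factorial ^ K := by
  have h1 : (K * n - 1).factorial ≤ (K * n).factorial := Nat.factorial_le (by omega)
  have h2 := fac_le_pow n K
  have h3 : n.factorial = n * (n - 1).factorial := (Nat.mul_factorial_pred (by omega)).symm
  have h4 : n ≤ 2 ^ n := Nat.lt_two_pow_self.le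
  calc _ ≤ 2 ^ (n * K ^ 2) * n.factorial ^ K := h1.trans h2
    _ = 2 ^ (n * K ^ 2) * (n ^ K * (n - 1).factorial ^ K) := by rw [h3, mul_pow]
    _ ≤ 2 ^ (n * K ^ 2) * ((2 ^ n) ^ K * (n - 1).factorial ^ K) := by gcongr
    _ = _ := by
      rw [← mul_assoc, ← pow_mul 2 n K, ← pow_add, ← pow_mul]
      congr 2; ring


theorem pade (K d : ℕ) (hK : 2 ≤ K) (hd : K ≤ d) : ∃ C : ℝ, 1 ≤ C ∧ ∀ M : ℕ, 1 ≤ M →
    ∀ n : ℕ, 1 ≤ n → ∃ Q : ℤ[X], Q.natDegree ≤ K - 1 ∧
      (∀ i, |(Q.coeff i : ℝ)| ≤ (C * M) ^ n) ∧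
      1 ≤ |aeval (((M : ℝ) / (M + 1)) ^ ((1 : ℝ) / d)) Q| * (C * (M : ℝ) ^ (K - 1)) ^ n ∧
      |aeval (((M : ℝ) / (M + 1)) ^ ((1 : ℝ) / d)) Q| * ((M : ℝ) ^ (K - 1)) ^ n ≤ C ^ n := by
  set Λ : ℝ := Real.exp ((Real.log 4 + 4) * d) with hΛ
  have hΛ1 : 1 ≤ Λ := by
    apply Real.one_le_exp
    have : 0 ≤ Real.log 4 := Real.log_nonneg (by norm_num)
    positivity
  have hd1 : (1:ℝ) ≤ d := by
    have : 1 ≤ d := by omega
    exact_mod_cast this
  set C1 : ℝ := 8 * (2 * d * Λ) ^ (K - 1) with hC1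
  set C2 : ℝ := 2 ^ (K - 1) * 2 ^ K * 2 ^ (K ^ 2 + K) with hC2
  set C3 : ℝ := Λ ^ (K - 1) * Real.exp 1 with hC3
  have hC10 : 0 ≤ C1 := by positivity
  have hC20 : 0 ≤ C2 := by positivity
  have hC30 : 0 ≤ C3 := by positivity
  have hC31 : 1 ≤ C3 := by
    have a1 : 1 ≤ Λ ^ (K - 1) := one_le_pow₀ hΛ1
    have a2 : 1 ≤ Real.exp 1 := Real.one_le_exp (by norm_num)
    nlinarith
  refine ⟨C1 + C2 + C3, by linarith, ?_⟩
  intro M hM n hn
  have hM1 : (1:ℝ) ≤ M := by exact_mod_cast hM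
  have hM0 : (0:ℝ) < M := by linarith
  have hd0 : (0:ℝ) < d := by linarith
  have hL1 : (1:ℝ) ≤ Nat.lcmUpto (d * n) := by exact_mod_cast Nat.lcmUpto_pos _
  have hLΛ : (Nat.lcmUpto (d * n) : ℝ) ≤ Λ ^ n := lcm_le
  have hn2 : (n:ℝ) ≤ 2 ^ n := by exact_mod_cast Nat.lt_two_pow_self.le
  refine ⟨QQ K d n M, QQ_natDegree K d n M, ?_, ?_⟩
  · -- height
    intro m
    rw [QQ_coeff]
    have hCM : (0:ℝ) ≤ ((C1 + C2 + C3) * M) ^ n := by positivity
    split_ifs with hm
    swap
    · simpa using hCM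
    have hi : K - 1 - m < K := by omega
    generalize K - 1 - m = i at hi
    have h1 : |(qq K d n M i : ℝ)| ≤ ∑ j ∈ Finset.range n, (2 ^ n * (2 ^ n * (d * Λ ^ n)) ^ (K - 1)) * (2 * (M:ℝ)) ^ n := by
      unfold qq
      push_cast
      refine (Finset.abs_sum_le_sum_abs _ _).trans ?_
      apply Finset.sum_le_sum
      intro j hj
      have hj' := Finset.mem_range.mp hj
      rw [abs_mul]
      have b1 : |(bb K d n i j : ℝ)| ≤ 2 ^ n * (2 ^ n * (d * Λ ^ n)) ^ (K - 1) := by
        have := bb_abs (K := K) (d := d) (n := n) (i := i) (j := j) hn hi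
        have : |(bb K d n i j : ℝ)| ≤ 2 ^ n * (2 ^ n * (d * (Nat.lcmUpto (d * n) : ℝ))) ^ (K - 1) := by exact_mod_cast this
        refine this.trans ?_
        gcongr
      have b2 : |((M:ℝ) + 1) ^ j * (M:ℝ) ^ (n - 1 - j)| ≤ (2 * (M:ℝ)) ^ n := by
        rw [abs_of_nonneg (by positivity)]
        calc ((M:ℝ) + 1) ^ j * (M:ℝ) ^ (n - 1 - j) ≤ (2 * (M:ℝ)) ^ j * (2 * (M:ℝ)) ^ (n - 1 - j) := by
              gcongr
              · linarith
              · linarith
          _ = (2 * (M:ℝ)) ^ (n - 1) := by rw [← pow_add]; congr 1; omega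
          _ ≤ (2 * (M:ℝ)) ^ n := pow_le_pow_right₀ (by linarith) (by omega)
      gcongr
    have h2 : ∑ j ∈ Finset.range n, (2 ^ n * (2 ^ n * (d * Λ ^ n)) ^ (K - 1)) * (2 * (M:ℝ)) ^ n ≤ (C1 * M) ^ n := by
      rw [Finset.sum_const, Finset.card_range, nsmul_eq_mul]
      have hdn : (d:ℝ) ≤ (d:ℝ) ^ n := le_self_pow₀ hd1 (by omega)
      calc (n:ℝ) * ((2 ^ n * (2 ^ n * (d * Λ ^ n)) ^ (K - 1)) * (2 * (M:ℝ)) ^ n) ≤
          2 ^ n * ((2 ^ n * (2 ^ n * ((d:ℝ) ^ n * Λ ^ n)) ^ (K - 1)) * (2 * (M:ℝ)) ^ n) := by gcongr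
        _ = (C1 * M) ^ n := by
          rw [hC1]
          have : (2 ^ n * ((d:ℝ) ^ n * Λ ^ n)) ^ (K - 1) = ((2 * d * Λ) ^ (K - 1)) ^ n := by
            rw [← mul_pow, ← mul_pow, ← pow_mul, ← pow_mul, mul_comm n (K - 1), ← mul_assoc]
          rw [this]
          have e8 : (8:ℝ) ^ n = 2 ^ n * 2 ^ n * 2 ^ n := by
            rw [← mul_pow, ← mul_pow]; norm_num
          rw [mul_pow (8 * (2 * (d:ℝ) * Λ) ^ (K - 1)), mul_pow (8:ℝ), e8, mul_pow (2:ℝ) (M:ℝ)]
          ring
    refine h1.trans (h2.trans ?_)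
    gcongr
    linarith
  · -- the value
    rw [QQ_aeval hd hK hM]
    set θ : ℝ := ((M : ℝ) / (M + 1)) ^ ((1 : ℝ) / d) with hθ
    set t : ℝ := Real.log (((M:ℝ) + 1) / M) with ht
    set E : ℝ := ∑ p ∈ Finset.range K ×ˢ Finset.range n, Real.exp (t * ((p.1:ℝ) / d + p.2)) *
          ∏ p' ∈ (Finset.range K ×ˢ Finset.range n).erase p, (((p.1:ℝ) / d + p.2) - ((p'.1:ℝ) / d + p'.2))⁻¹ with hE
    -- bounds on theta
    have hr : (1:ℝ)/2 ≤ (M:ℝ) / (M + 1) := by
      rw [div_le_div_iff₀ (by norm_num) (by positivity)]; linarith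
    have hr1 : (M:ℝ) / (M + 1) ≤ 1 := by
      rw [div_le_one (by positivity)]; linarith
    have hr0 : 0 < (M:ℝ) / (M + 1) := by positivity
    have hθ1 : θ ≤ 1 := Real.rpow_le_one hr0.le hr1 (by positivity)
    have hθ2 : 1/2 ≤ θ := by
      refine hr.trans ?_
      have : ((M:ℝ) / (M + 1)) ^ (1:ℝ) ≤ ((M:ℝ) / (M + 1)) ^ ((1 : ℝ) / d) := by
        apply Real.rpow_le_rpow_of_exponent_ge hr0 hr1
        rw [div_le_one hd0]; exact hd1
      rwa [Real.rpow_one] at this
    have hθ0 : 0 < θ := by linarith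
    -- bounds on t
    have hx0 : 0 < ((M:ℝ) + 1) / M := by positivity
    have ht1 : t ≤ 1 / M := by
      have := Real.log_le_sub_one_of_pos hx0
      have e : ((M:ℝ) + 1) / M - 1 = 1 / M := by field_simp; ring
      rw [e] at this; exact this
    have ht2 : 1 / (2 * M) ≤ t := by
      have := Real.one_sub_inv_le_log_of_pos hx0
      have e : 1 - (((M:ℝ) + 1) / M)⁻¹ = 1 / (M + 1) := by field_simp; ring
      rw [e] at this
      refine le_trans ?_ this
      apply one_div_le_one_div_of_le (by positivity); linarith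
    have ht0 : 0 ≤ t := le_trans (by positivity) ht2
    have htle1 : t ≤ 1 := ht1.trans (by rw [div_le_one hM0]; exact hM1)
    -- dd bounds
    have hinj : Set.InjOn (fun p : ℕ × ℕ => ((p.1:ℝ) / d + p.2)) (Finset.range K ×ˢ Finset.range n : Finset (ℕ × ℕ)) := by
      rintro ⟨a, b⟩ hab ⟨a', b'⟩ hab' h
      simp only [Finset.coe_product, Finset.coe_range, Set.mem_prod, Set.mem_Iio] at hab hab'
      simp only at h
      have h2 : (a:ℝ) + d * b = a' + d * b' := by
        field_simp at h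
        linarith
      have h3 : a + d * b = a' + d * b' := by exact_mod_cast h2
      have h4 : a = a' := by
        have := congrArg (· % d) h3
        simp only [Nat.add_mul_mod_self_left] at this
        rwa [Nat.mod_eq_of_lt (by omega), Nat.mod_eq_of_lt (by omega)] at this
      subst h4
      have h5 : d * b = d * b' := by omega
      have h6 : b = b' := Nat.eq_of_mul_eq_mul_left (by omega) h5
      rw [h6]
    have hKn : 1 ≤ K * n := Nat.mul_pos (by omega) (by omega)
    have hcard : (Finset.range K ×ˢ Finset.range n : Finset (ℕ × ℕ)).card = (K * n - 1) + 1 := by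
      rw [Finset.card_product, Finset.card_range, Finset.card_range]; omega
    obtain ⟨E1, E2⟩ := dd_bounds (Finset.range K ×ˢ Finset.range n : Finset (ℕ × ℕ)) (fun p : ℕ × ℕ => ((p.1:ℝ) / d + p.2)) hinj
      (n:ℝ) (fun p _ => by positivity) (by
        rintro ⟨a, b⟩ hab
        rw [Finset.mem_product, Finset.mem_range, Finset.mem_range] at hab
        simp only at hab ⊢
        have h1 : (a:ℝ) / d ≤ 1 := by
          rw [div_le_one hd0]
          have : a ≤ d := by omega
          exact_mod_cast this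
        have h2 : (b:ℝ) + 1 ≤ n := by exact_mod_cast hab.2
        linarith) (K * n - 1) hcard t ht0
    change t ^ (K * n - 1) / ((K * n - 1).factorial : ℝ) ≤ E at E1
    change E ≤ Real.exp (t * n) * t ^ (K * n - 1) / ((K * n - 1).factorial : ℝ) at E2
    set N : ℕ := K * n - 1 with hN
    have hNf : (0:ℝ) < (N.factorial : ℝ) := by positivity
    have hf0 : (0:ℝ) < ((n-1).factorial : ℝ) := by positivity
    have hE0 : 0 ≤ E := le_trans (by positivity) E1
    have hpos : 0 ≤ θ ^ (K - 1) * (M:ℝ) ^ (n - 1) * ((((n - 1).factorial : ℝ) ^ K * (Nat.lcmUpto (d * n) : ℝ) ^ (K - 1)) * E) := by positivity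
    rw [abs_of_nonneg hpos]
    have hMexp : (M:ℝ) ^ (n - 1) * ((M:ℝ) ^ (K - 1)) ^ n = (M:ℝ) ^ N := by
      rw [← pow_mul, ← pow_add]
      congr 1
      rw [hN]
      obtain ⟨k, rfl⟩ : ∃ k, K = k + 1 := ⟨K - 1, by omega⟩
      simp only [Nat.add_sub_cancel]
      have : (k + 1) * n = k * n + n := by ring
      omega
    constructor
    · -- lower
      have h1 : (1/2:ℝ) ^ (K - 1) * (M:ℝ) ^ (n - 1) * ((((n - 1).factorial : ℝ) ^ K * 1) * ((1 / (2 * M)) ^ N / (N.factorial : ℝ))) ≤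
          θ ^ (K - 1) * (M:ℝ) ^ (n - 1) * ((((n - 1).factorial : ℝ) ^ K * (Nat.lcmUpto (d * n) : ℝ) ^ (K - 1)) * E) := by
        have a1 : (1:ℝ) ≤ (Nat.lcmUpto (d * n) : ℝ) ^ (K - 1) := one_le_pow₀ hL1
        have a2 : (1 / (2 * (M:ℝ))) ^ N / (N.factorial : ℝ) ≤ E := by
          refine le_trans ?_ E1
          gcongr
        gcongr
      have h2 : (C2 * (M:ℝ) ^ (K - 1)) ^ n ≤ ((C1 + C2 + C3) * (M:ℝ) ^ (K - 1)) ^ n := by
        gcongr
        linarith
      have h3 : 1 ≤ ((1/2:ℝ) ^ (K - 1) * (M:ℝ) ^ (n - 1) * ((((n - 1).factorial : ℝ) ^ K * 1) * ((1 / (2 * M)) ^ N / (N.factorial : ℝ)))) *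
          (C2 * (M:ℝ) ^ (K - 1)) ^ n := by
        have e1 : ((1/2:ℝ) ^ (K - 1) * (M:ℝ) ^ (n - 1) * ((((n - 1).factorial : ℝ) ^ K * 1) * ((1 / (2 * M)) ^ N / (N.factorial : ℝ)))) *
          (C2 * (M:ℝ) ^ (K - 1)) ^ n = C2 ^ n * ((n - 1).factorial : ℝ) ^ K / (2 ^ (K - 1) * 2 ^ N * (N.factorial : ℝ)) := by
          have : ((1/2:ℝ) ^ (K - 1) * (M:ℝ) ^ (n - 1) * ((((n - 1).factorial : ℝ) ^ K * 1) * ((1 / (2 * M)) ^ N / (N.factorial : ℝ)))) *
            (C2 * (M:ℝ) ^ (K - 1)) ^ n = (1/2:ℝ) ^ (K - 1) * ((M:ℝ) ^ (n - 1) * ((M:ℝ) ^ (K - 1)) ^ n) * C2 ^ n *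
              (((n - 1).factorial : ℝ) ^ K * ((1 / (2 * M)) ^ N / (N.factorial : ℝ))) := by
            rw [mul_pow]; ring
          rw [this, hMexp, div_pow, div_pow, mul_pow, one_pow, one_pow]
          field_simp
          rw [mul_pow]
          ring
        rw [e1, le_div_iff₀ (by positivity), one_mul]
        have f1 : (N.factorial : ℝ) ≤ (2 ^ (K ^ 2 + K)) ^ n * ((n - 1).factorial : ℝ) ^ K := by
          exact_mod_cast fac_final (K := K) hn
        have f2 : (2:ℝ) ^ (K - 1) ≤ (2 ^ (K - 1)) ^ n := le_self_pow₀ (one_le_pow₀ (by norm_num)) (by omega)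
        have f3 : (2:ℝ) ^ N ≤ (2 ^ K) ^ n := by
          rw [← pow_mul]
          exact pow_le_pow_right₀ (by norm_num) (by omega)
        calc (2:ℝ) ^ (K - 1) * 2 ^ N * (N.factorial : ℝ) ≤
            (2 ^ (K - 1)) ^ n * (2 ^ K) ^ n * ((2 ^ (K ^ 2 + K)) ^ n * ((n - 1).factorial : ℝ) ^ K) := by gcongr
          _ = C2 ^ n * ((n - 1).factorial : ℝ) ^ K := by
            rw [hC2, mul_pow, mul_pow]; ring
      calc (1:ℝ) ≤ _ := h3
        _ ≤ _ := by gcongr
    · -- upper
      have hE2' : E ≤ Real.exp 1 ^ n * (1 / M) ^ N / (N.factorial : ℝ) := by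
        refine E2.trans ?_
        have : Real.exp (t * n) ≤ Real.exp 1 ^ n := by
          rw [← Real.exp_nat_mul]
          apply Real.exp_le_exp.mpr
          rw [mul_one]
          have : (0:ℝ) ≤ n := Nat.cast_nonneg n
          nlinarith
        gcongr
      have f1 : ((n - 1).factorial : ℝ) ^ K ≤ (N.factorial : ℝ) := by
        have h1 := fac_pow_le (n - 1) K
        have h2 : (K * (n - 1)).factorial ≤ N.factorial := by
          apply Nat.factorial_le
          rw [hN, Nat.mul_sub]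
          omega
        exact_mod_cast h1.trans h2
      calc θ ^ (K - 1) * (M:ℝ) ^ (n - 1) * ((((n - 1).factorial : ℝ) ^ K * (Nat.lcmUpto (d * n) : ℝ) ^ (K - 1)) * E) *
          ((M:ℝ) ^ (K - 1)) ^ n ≤ 1 ^ (K - 1) * (M:ℝ) ^ (n - 1) * (((N.factorial : ℝ) * (Λ ^ n) ^ (K - 1)) *
          (Real.exp 1 ^ n * (1 / M) ^ N / (N.factorial : ℝ))) * ((M:ℝ) ^ (K - 1)) ^ n := by gcongr
        _ = ((M:ℝ) ^ (n - 1) * ((M:ℝ) ^ (K - 1)) ^ n) * (1 / M) ^ N * ((Λ ^ n) ^ (K - 1) * Real.exp 1 ^ n) := by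
          field_simp
          ring
        _ = C3 ^ n := by
          rw [hMexp, ← mul_pow, mul_one_div, div_self hM0.ne', one_pow, one_mul, hC3, mul_pow, ← pow_mul, ← pow_mul, mul_comm n]
        _ ≤ _ := by
          gcongr
          linarith

end Pool.Agent.Helper35.PadeJob
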