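import Mathlib
import Pool.Agent.Helper35.Basic

set_option autoImplicit false

namespace Pool.Agent.Helper35

open Polynomial

/-- Asymmetric resultant lower bound (positive parameters). -/
theorem one_le_res2_pos (P Q : ℤ[X])
    (hPQ : IsCoprime (P.map (Int.castRingHom ℚ)) (Q.map (Int.castRingHom ℚ)))
    (hpos : 0 < P.natDegree + Q.natDegree) (x : ℝ) (hx : |x| ≤ 1) (A B ε : ℝ) (hA : 0 < A)
    (hB : 0 < B) (hε : 0 < ε)
    (hP : ∀ i, |(P.coeff i : ℝ)| ≤ A) (hQ : ∀ i, |(Q.coeff i : ℝ)| ≤ B)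
    (hPx : |aeval x P| ≤ A * ε) (hQx : |aeval x Q| ≤ B * ε) :
    1 ≤ ((P.natDegree + Q.natDegree).factorial : ℝ) *
      (A ^ Q.natDegree * B ^ P.natDegree) * ε := by
  set m := P.natDegree with hm
  set n := Q.natDegree with hn
  set S : Matrix (Fin (m + n)) (Fin (m + n)) ℝ :=
    (sylvester P Q m n).map (Int.cast : ℤ → ℝ) with hS
  have hSdet : S.det = (((sylvester P Q m n).det : ℤ) : ℝ) := by
    rw [hS]
    exact (Int.cast_det (R := ℝ) (sylvester P Q m n)).symm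
  have h1 : 1 ≤ |S.det| := by
    rw [hSdet]
    have := Int.one_le_abs (res_ne_zero P Q hPQ)
    exact_mod_cast this
  set z : Fin (m + n) := ⟨0, hpos⟩ with hz
  set S1 := S.updateRow z (∑ k : Fin (m + n), (x ^ (k : ℕ)) • S k) with hS1
  have hdet1 : S1.det = S.det := by
    rw [hS1, Matrix.det_updateRow_sum S z (fun k : Fin (m + n) => x ^ (k : ℕ))]
    simp [hz]
  -- column scaling
  set v : Fin (m + n) → ℝ := Fin.addCases (fun _ : Fin m => B⁻¹) (fun _ : Fin n => A⁻¹) with hv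
  have hvprod : ∏ j, v j = (B⁻¹) ^ m * (A⁻¹) ^ n := by
    rw [Fin.prod_univ_add]
    simp [hv]
  have hvpos : ∀ j, 0 < v j := by
    intro j
    refine Fin.addCases (fun j₁ => ?_) (fun j₁ => ?_) j
    · simp [hv, hB]
    · simp [hv, hA]
  set S2 : Matrix (Fin (m + n)) (Fin (m + n)) ℝ := Matrix.of fun i j => v j * S1 i j with hS2
  have hdet2 : S2.det = (∏ j, v j) * S1.det := by
    rw [hS2]
    exact Matrix.det_mul_row v S1
  have hrow : ∀ j, |S2 z j| ≤ ε := by
    intro j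
    have hx' : ∀ i : ℕ, |x ^ i| ≤ 1 := fun i => by
      rw [abs_pow]; exact pow_le_one₀ (abs_nonneg _) hx
    have e : S1 z j = ∑ k : Fin (m + n), x ^ (k : ℕ) *
        ((sylvester P Q m n k j : ℤ) : ℝ) := by
      rw [hS1, Matrix.updateRow_self, Finset.sum_apply]
      simp [hS]
    have e2 : S2 z j = v j * S1 z j := by simp [hS2]
    rw [e2, abs_mul, abs_of_pos (hvpos j), e]
    refine Fin.addCases (fun j₁ => ?_) (fun j₁ => ?_) j
    · rw [sylv_left P Q x j₁, abs_mul]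
      have e3 : v (Fin.castAdd n j₁) = B⁻¹ := by simp [hv]
      rw [e3]
      have h3 : |x ^ (j₁ : ℕ)| * |aeval x Q| ≤ 1 * (B * ε) :=
        mul_le_mul (hx' _) hQx (abs_nonneg _) zero_le_one
      calc B⁻¹ * (|x ^ (j₁ : ℕ)| * |aeval x Q|) ≤ B⁻¹ * (1 * (B * ε)) := by gcongr
        _ = ε := by field_simp
    · rw [sylv_right P Q x j₁, abs_mul]
      have e3 : v (Fin.natAdd m j₁) = A⁻¹ := by simp [hv]
      rw [e3]
      have h3 : |x ^ (j₁ : ℕ)| * |aeval x P| ≤ 1 * (A * ε) :=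
        mul_le_mul (hx' _) hPx (abs_nonneg _) zero_le_one
      calc A⁻¹ * (|x ^ (j₁ : ℕ)| * |aeval x P|) ≤ A⁻¹ * (1 * (A * ε)) := by gcongr
        _ = ε := by field_simp
  have hent : ∀ i j, i ≠ z → |S2 i j| ≤ 1 := by
    intro i j hi
    have e2 : S2 i j = v j * S1 i j := by simp [hS2]
    rw [e2, abs_mul, abs_of_pos (hvpos j), hS1, Matrix.updateRow_ne hi]
    simp only [hS, Matrix.map_apply]
    refine Fin.addCases (fun j₁ => ?_) (fun j₁ => ?_) j
    · have e3 : v (Fin.castAdd n j₁) = B⁻¹ := by simp [hv]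
      rw [e3]
      have h3 : |((sylvester P Q m n i (Fin.castAdd n j₁) : ℤ) : ℝ)| ≤ B := by
        simp only [sylvester, Matrix.of_apply, Fin.addCases_left]
        split_ifs
        · exact hQ _
        · simpa using hB.le
      calc B⁻¹ * |((sylvester P Q m n i (Fin.castAdd n j₁) : ℤ) : ℝ)| ≤ B⁻¹ * B := by gcongr
        _ = 1 := inv_mul_cancel₀ hB.ne'
    · have e3 : v (Fin.natAdd m j₁) = A⁻¹ := by simp [hv]
      rw [e3]
      have h3 : |((sylvester P Q m n i (Fin.natAdd m j₁) : ℤ) : ℝ)| ≤ A := by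
        simp only [sylvester, Matrix.of_apply, Fin.addCases_right]
        split_ifs
        · exact hP _
        · simpa using hA.le
      calc A⁻¹ * |((sylvester P Q m n i (Fin.natAdd m j₁) : ℤ) : ℝ)| ≤ A⁻¹ * A := by gcongr
        _ = 1 := inv_mul_cancel₀ hA.ne'
  set S3 := S2.updateRow z ((1 / ε) • S2 z) with hS3
  have hdet3 : S3.det = (1 / ε) * S2.det := by
    rw [hS3, Matrix.det_updateRow_smul, Matrix.updateRow_eq_self]
  have hent3 : ∀ i j, AbsoluteValue.abs (S3 i j) ≤ 1 := by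
    intro i j
    change |S3 i j| ≤ 1
    by_cases hi : i = z
    · subst hi
      rw [hS3, Matrix.updateRow_self]
      simp only [Pi.smul_apply, smul_eq_mul]
      rw [abs_mul, abs_of_pos (div_pos one_pos hε)]
      calc 1 / ε * |S2 z j| ≤ 1 / ε * ε :=
            mul_le_mul_of_nonneg_left (hrow j) (div_pos one_pos hε).le
        _ = 1 := by field_simp
    · rw [hS3, Matrix.updateRow_ne hi]
      exact hent i j hi
  have h3 := Matrix.det_le hent3
  rw [Fintype.card_fin] at h3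
  change |S3.det| ≤ _ at h3
  rw [hdet3, hdet2, hdet1, hvprod, abs_mul, abs_mul, abs_of_pos (div_pos one_pos hε),
    abs_of_pos (by positivity : 0 < (B⁻¹) ^ m * (A⁻¹) ^ n), one_pow, nsmul_eq_mul, mul_one] at h3
  have h4 : 1 / ε * ((B⁻¹) ^ m * (A⁻¹) ^ n) ≤ ((m + n).factorial : ℝ) := by
    calc 1 / ε * ((B⁻¹) ^ m * (A⁻¹) ^ n) = 1 / ε * ((B⁻¹) ^ m * (A⁻¹) ^ n * 1) := by rw [mul_one]
      _ ≤ 1 / ε * ((B⁻¹) ^ m * (A⁻¹) ^ n * |S.det|) := by gcongr
      _ ≤ _ := h3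
  have h5 : 1 / ε * ((B⁻¹) ^ m * (A⁻¹) ^ n) = 1 / (ε * (A ^ n * B ^ m)) := by
    rw [inv_pow, inv_pow]; field_simp
  rw [h5, div_le_iff₀ (by positivity)] at h4
  linarith

/-- Asymmetric resultant lower bound. -/
theorem one_le_res2 (P Q : ℤ[X])
    (hPQ : IsCoprime (P.map (Int.castRingHom ℚ)) (Q.map (Int.castRingHom ℚ)))
    (hpos : 0 < P.natDegree + Q.natDegree) (x : ℝ) (hx : |x| ≤ 1) (A B ε : ℝ) (hA : 0 < A)
    (hB : 0 < B)
    (hP : ∀ i, |(P.coeff i : ℝ)| ≤ A) (hQ : ∀ i, |(Q.coeff i : ℝ)| ≤ B)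
    (hPx : |aeval x P| ≤ A * ε) (hQx : |aeval x Q| ≤ B * ε) :
    1 ≤ ((P.natDegree + Q.natDegree).factorial : ℝ) *
      (A ^ Q.natDegree * B ^ P.natDegree) * ε := by
  set K : ℝ := ((P.natDegree + Q.natDegree).factorial : ℝ) *
      (A ^ Q.natDegree * B ^ P.natDegree) with hK
  have hKpos : 0 < K := by positivity
  by_contra hcon
  push Not at hcon
  have hε0 : 0 ≤ ε := by
    have := (abs_nonneg _).trans hPx
    by_contra hc
    push Not at hc
    nlinarith
  set ε' : ℝ := (ε + 1 / K) / 2 with hε'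
  have h1 : ε < 1 / K := by rw [lt_div_iff₀ hKpos]; linarith [mul_comm K ε]
  have h2 : ε ≤ ε' := by rw [hε']; linarith
  have h3 : 0 < ε' := by
    rw [hε']; have : 0 < 1 / K := by positivity
    linarith
  have h4 : ε' < 1 / K := by rw [hε']; linarith
  have h5 := one_le_res2_pos P Q hPQ hpos x hx A B ε' hA hB h3 hP hQ
    (hPx.trans (by gcongr)) (hQx.trans (by gcongr))
  rw [← hK] at h5
  rw [lt_div_iff₀ hKpos] at h4
  linarith [mul_comm K ε']

end Pool.Agent.Helper35
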