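import Mathlib
import Pool.Agent.Helper35.TRes
import Pool.Agent.Helper35.Bound
import Pool.Agent.Helper35.PadeJob

set_option autoImplicit false

namespace Pool.Agent.Helper35

open Polynomial

/-- If an irreducible `P` is not coprime to `Q` then its primitive part divides `Q`. -/
theorem exists_prim_dvd (P Q : ℤ[X]) (hP : IrrQ P) (hQ : Q ≠ 0)
    (hnc : ¬ IsCoprime (P.map (Int.castRingHom ℚ)) (Q.map (Int.castRingHom ℚ))) :
    ∃ (g : ℤ) (P0 R : ℤ[X]), g ≠ 0 ∧ P = C g * P0 ∧ Q = P0 * R ∧ P0 ≠ 0 ∧ R ≠ 0 := by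
  have hdvd : (P.map (Int.castRingHom ℚ)) ∣ (Q.map (Int.castRingHom ℚ)) := by
    exact (Irreducible.dvd_iff_not_isCoprime hP).mpr hnc
  have hP0 : P ≠ 0 := hP.ne_zero
  have hc : P.content ≠ 0 := by rwa [Ne, content_eq_zero_iff]
  have hcQ : Q.content ≠ 0 := by rwa [Ne, content_eq_zero_iff]
  have h1 : (P.primPart.map (Int.castRingHom ℚ)) ∣ (Q.primPart.map (Int.castRingHom ℚ)) := by
    have e1 : P.map (Int.castRingHom ℚ) = C ((P.content : ℤ) : ℚ) *
        P.primPart.map (Int.castRingHom ℚ) := by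
      conv_lhs => rw [P.eq_C_content_mul_primPart]
      rw [Polynomial.map_mul, map_C]; rfl
    have e2 : Q.map (Int.castRingHom ℚ) = C ((Q.content : ℤ) : ℚ) *
        Q.primPart.map (Int.castRingHom ℚ) := by
      conv_lhs => rw [Q.eq_C_content_mul_primPart]
      rw [Polynomial.map_mul, map_C]; rfl
    have hu : IsUnit (C ((Q.content : ℤ) : ℚ)) := by
      rw [isUnit_C, isUnit_iff_ne_zero]; exact_mod_cast hcQ
    have h2 : (P.primPart.map (Int.castRingHom ℚ)) ∣ (Q.map (Int.castRingHom ℚ)) :=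
      (Dvd.intro_left _ e1.symm).trans hdvd
    rw [e2] at h2
    exact (hu.dvd_mul_left).mp h2
  have h3 : P.primPart ∣ Q.primPart :=
    (IsPrimitive.Int.dvd_iff_map_cast_dvd_map_cast _ _ P.isPrimitive_primPart).mpr h1
  have h4 : P.primPart ∣ Q := h3.trans ⟨C Q.content, by
    conv_lhs => rw [Q.eq_C_content_mul_primPart]
    ring⟩
  obtain ⟨R, hR⟩ := h4
  refine ⟨P.content, P.primPart, R, hc, P.eq_C_content_mul_primPart, hR, ?_, ?_⟩
  · intro h0
    rw [h0, zero_mul] at hR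
    exact hQ hR
  · intro h0
    rw [h0, mul_zero] at hR
    exact hQ hR

/-- A factor of an integer polynomial is not much larger at a point of the unit interval. -/
theorem factor_bound (P0 R : ℤ[X]) (x : ℝ) (hx : |x| ≤ 1) (hP0 : P0 ≠ 0) (hR : R ≠ 0) (n : ℕ)
    (hn : (P0 * R).natDegree ≤ n) :
    |aeval x R| ≤ (((n : ℝ) + 1) ^ 2 * 2 ^ n) * ht (P0 * R) := by
  have hdeg : R.natDegree ≤ n := by
    rw [natDegree_mul hP0 hR] at hn; omega
  have hdr : (R.natDegree : ℝ) ≤ n := by exact_mod_cast hdeg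
  have hdr2 : ((P0 * R).natDegree : ℝ) ≤ n := by exact_mod_cast hn
  have h1 := abs_aeval_le R x hx
  have h2 := ht_le_mm R
  have h3 : mm R ≤ mm (P0 * R) := by
    rw [mm_mul]
    have h4 := one_le_mm hP0
    have h5 := one_le_mm hR
    nlinarith
  have h4 := mm_le_ht (P0 * R)
  have h5 : (1 : ℝ) ≤ mm R := one_le_mm hR
  calc |aeval x R| ≤ ((R.natDegree : ℝ) + 1) * ht R := h1
    _ ≤ ((n : ℝ) + 1) * (2 ^ n * ((((n : ℝ)) + 1) * ht (P0 * R))) := by
        have h6 : (ht R : ℝ) ≤ 2 ^ n * ((((n : ℝ)) + 1) * ht (P0 * R)) := by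
          calc (ht R : ℝ) ≤ 2 ^ R.natDegree * mm R := h2
            _ ≤ 2 ^ n * ((((n : ℝ)) + 1) * ht (P0 * R)) := by
              have h7 : mm R ≤ (((n : ℝ)) + 1) * ht (P0 * R) :=
                h3.trans (h4.trans (by gcongr))
              have h8 : (2 : ℝ) ^ R.natDegree ≤ 2 ^ n :=
                pow_le_pow_right₀ (by norm_num) hdeg
              exact mul_le_mul h8 h7 (by linarith) (by positivity)
        gcongr
    _ = _ := by ring

/-- Measure in degree `m` from Pade approximants. -/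
theorem meas_of_pade (m : ℕ) (hm : 1 ≤ m) (θ : ℝ) (hθ0 : 0 ≤ θ) (hθ1 : θ ≤ 1) (Cc : ℝ)
    (hC : 1 ≤ Cc) (M : ℕ) (hM2 : 2 ≤ M) (hM : Cc ^ (m + 1) ≤ M)
    (h : ∀ n : ℕ, 1 ≤ n → ∃ Q : ℤ[X], Q.natDegree ≤ 2 * m ∧
      (∀ i, |(Q.coeff i : ℝ)| ≤ (Cc * M) ^ n) ∧
      1 ≤ |aeval θ Q| * (Cc * (M : ℝ) ^ (2 * m)) ^ n ∧
      |aeval θ Q| * ((M : ℝ) ^ (2 * m)) ^ n ≤ Cc ^ n) :
    ∃ c : ℝ, 0 < c ∧ ∀ P : ℤ[X], IrrQ P → P.natDegree = m →
      c ≤ |aeval θ P| * (ht P : ℝ) ^ (4 * m + 4) := by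
  have hθ : |θ| ≤ 1 := by rw [abs_of_nonneg hθ0]; exact hθ1
  set F : ℝ := ((3 * m).factorial : ℝ) with hF
  have hF1 : 1 ≤ F := by
    rw [hF]; exact_mod_cast Nat.one_le_iff_ne_zero.mpr (Nat.factorial_ne_zero _)
  have hMr : (2 : ℝ) ≤ M := by exact_mod_cast hM2
  have hMr1 : (1 : ℝ) ≤ M := by linarith
  have hCm : Cc ^ m ≤ M := le_trans (pow_le_pow_right₀ hC (by omega)) hM
  have hC2 : Cc ^ 2 ≤ M := le_trans (pow_le_pow_right₀ hC (by omega)) hM
  set K1 : ℝ := (((2 * m : ℕ) : ℝ) + 1) ^ 2 * 2 ^ (2 * m) with hK1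
  have hK1pos : 0 < K1 := by rw [hK1]; positivity
  set D1 : ℝ := F * (M * F) ^ (m + 1) with hD1
  set D2 : ℝ := K1 * (M * F) ^ (2 * m + 2) with hD2
  have hD1pos : 0 < D1 := by rw [hD1]; positivity
  have hD2pos : 0 < D2 := by rw [hD2]; positivity
  refine ⟨1 / (D1 + D2), by positivity, fun P hP hPd => ?_⟩
  have hH1 : 1 ≤ ht P := ht_pos hP.ne_zero
  set H : ℝ := (ht P : ℝ) with hH
  have hHr : 1 ≤ H := by rw [hH]; exact_mod_cast hH1
  rw [div_le_iff₀ (by positivity)]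
  -- choice of n
  have hex : ∃ n : ℕ, F * H ^ 2 < (M : ℝ) ^ n := pow_unbounded_of_one_lt _ (by linarith)
  obtain ⟨hn1, hn2⟩ : F * H ^ 2 < (M : ℝ) ^ (Nat.find hex) ∧
      ∀ i < Nat.find hex, ¬ (F * H ^ 2 < (M : ℝ) ^ i) :=
    ⟨Nat.find_spec hex, fun i hi => Nat.find_min hex hi⟩
  set n := Nat.find hex with hn
  have hn0 : 1 ≤ n := by
    by_contra hc
    have : n = 0 := by omega
    rw [this, pow_zero] at hn1
    have : 1 ≤ F * H ^ 2 := by
      have : 1 ≤ H ^ 2 := one_le_pow₀ hHr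
      nlinarith
    linarith
  have hMn : (M : ℝ) ^ n ≤ M * F * H ^ 2 := by
    have h1 := hn2 (n - 1) (by omega)
    push Not at h1
    have e : (M : ℝ) ^ n = M * (M : ℝ) ^ (n - 1) := by
      rw [← pow_succ']; congr 1; omega
    rw [e, mul_assoc]
    gcongr
  obtain ⟨Q, hQd, hQc, hQlo, hQhi⟩ := h n hn0
  have hMn0 : (0 : ℝ) < (M : ℝ) ^ n := by positivity
  have hB0 : 0 < (Cc * M) ^ n := by positivity
  have hB1 : 1 ≤ (Cc * M) ^ n := one_le_pow₀ (by nlinarith)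
  have hQ0 : Q ≠ 0 := by
    rintro rfl
    simp at hQlo
    linarith
  by_cases hcop : IsCoprime (P.map (Int.castRingHom ℚ)) (Q.map (Int.castRingHom ℚ))
  · -- coprime case
    set ε : ℝ := max (|aeval θ P| / H) (|aeval θ Q| / (Cc * M) ^ n) with hε
    have hε0 : 0 ≤ ε := le_trans (by positivity) (le_max_left _ _)
    have hPε : |aeval θ P| ≤ H * ε := by
      have := le_max_left (|aeval θ P| / H) (|aeval θ Q| / (Cc * M) ^ n)
      rw [div_le_iff₀ (by linarith), mul_comm] at this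
      exact this
    have hQε : |aeval θ Q| ≤ (Cc * M) ^ n * ε := by
      have := le_max_right (|aeval θ P| / H) (|aeval θ Q| / (Cc * M) ^ n)
      rw [div_le_iff₀ (by linarith), mul_comm] at this
      exact this
    have key := one_le_res2 P Q hcop (by omega) θ hθ H ((Cc * M) ^ n) ε (by linarith) hB0
      (fun i => abs_coeff_le_ht P i) hQc hPε hQε
    rw [hPd] at key
    have hfac : (((m + Q.natDegree).factorial : ℕ) : ℝ) ≤ F := by
      rw [hF]; exact_mod_cast Nat.factorial_le (by omega)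
    have hHq : H ^ Q.natDegree ≤ H ^ (2 * m) := pow_le_pow_right₀ hHr hQd
    have key2 : 1 ≤ F * (H ^ (2 * m) * ((Cc * M) ^ n) ^ m) * ε := by
      refine key.trans ?_
      gcongr
    rcases max_choice (|aeval θ P| / H) (|aeval θ Q| / (Cc * M) ^ n) with hc | hc
    · -- ε from P
      rw [← hε] at hc
      rw [hc] at key2
      have e1 : H ^ (2 * m) = H ^ (2 * m - 1) * H := by rw [← pow_succ]; congr 1; omega
      have key3 : 1 ≤ F * (H ^ (2 * m - 1) * ((Cc * M) ^ n) ^ m) * |aeval θ P| := by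
        have : F * (H ^ (2 * m) * ((Cc * M) ^ n) ^ m) * (|aeval θ P| / H) =
            F * (H ^ (2 * m - 1) * ((Cc * M) ^ n) ^ m) * |aeval θ P| := by
          rw [e1]; field_simp
        rw [this] at key2
        exact key2
      have hBm : ((Cc * M) ^ n) ^ m ≤ (M * F * H ^ 2) ^ (m + 1) := by
        calc ((Cc * M) ^ n) ^ m = (Cc ^ m) ^ n * ((M : ℝ) ^ n) ^ m := by
              rw [mul_pow, mul_pow, ← pow_mul, ← pow_mul, ← pow_mul, mul_comm n m]
          _ ≤ (M : ℝ) ^ n * ((M : ℝ) ^ n) ^ m := by gcongr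
          _ = ((M : ℝ) ^ n) ^ (m + 1) := by ring
          _ ≤ _ := by gcongr
      have hP0 : 0 ≤ |aeval θ P| := abs_nonneg _
      calc (1 : ℝ) ≤ F * (H ^ (2 * m - 1) * ((Cc * M) ^ n) ^ m) * |aeval θ P| := key3
        _ ≤ F * (H ^ (2 * m - 1) * (M * F * H ^ 2) ^ (m + 1)) * |aeval θ P| := by gcongr
        _ = |aeval θ P| * H ^ (4 * m + 1) * D1 := by
            rw [hD1]
            have e2 : H ^ (4 * m + 1) = H ^ (2 * m - 1) * (H ^ 2) ^ (m + 1) := by
              rw [← pow_mul, ← pow_add]; congr 1; omega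
            rw [e2, mul_pow]; ring
        _ ≤ |aeval θ P| * H ^ (4 * m + 4) * (D1 + D2) := by
            have : H ^ (4 * m + 1) ≤ H ^ (4 * m + 4) := pow_le_pow_right₀ hHr (by omega)
            gcongr
            linarith
    · -- ε from Q : impossible
      exfalso
      rw [← hε] at hc
      rw [hc] at key2
      have e1 : ((Cc * M) ^ n) ^ m = ((Cc * M) ^ n) ^ (m - 1) * (Cc * M) ^ n := by
        rw [← pow_succ]; congr 1; omega
      have key3 : 1 ≤ F * (H ^ (2 * m) * ((Cc * M) ^ n) ^ (m - 1)) * |aeval θ Q| := by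
        have : F * (H ^ (2 * m) * ((Cc * M) ^ n) ^ m) * (|aeval θ Q| / (Cc * M) ^ n) =
            F * (H ^ (2 * m) * ((Cc * M) ^ n) ^ (m - 1)) * |aeval θ Q| := by
          rw [e1]; field_simp
        rw [this] at key2
        exact key2
      have key4 : (((M : ℝ)) ^ (2 * m)) ^ n ≤
          F * (H ^ (2 * m) * ((Cc * M) ^ n) ^ (m - 1)) * Cc ^ n := by
        calc (((M : ℝ)) ^ (2 * m)) ^ n = 1 * (((M : ℝ)) ^ (2 * m)) ^ n := (one_mul _).symm
          _ ≤ (F * (H ^ (2 * m) * ((Cc * M) ^ n) ^ (m - 1)) * |aeval θ Q|) *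
              (((M : ℝ)) ^ (2 * m)) ^ n := by gcongr
          _ = (F * (H ^ (2 * m) * ((Cc * M) ^ n) ^ (m - 1))) *
              (|aeval θ Q| * (((M : ℝ)) ^ (2 * m)) ^ n) := by ring
          _ ≤ _ := by gcongr
      have e2 : (((M : ℝ)) ^ (2 * m)) ^ n = (((M : ℝ) ^ n) ^ (m - 1)) * ((M : ℝ) ^ n) ^ m *
          (M : ℝ) ^ n := by
        rw [← pow_mul, ← pow_mul, ← pow_mul, ← pow_add, ← pow_add]
        congr 1
        obtain ⟨k, rfl⟩ : ∃ k, m = k + 1 := ⟨m - 1, by omega⟩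
        simp only [Nat.add_sub_cancel]
        ring
      have e3 : ((Cc * M) ^ n) ^ (m - 1) * Cc ^ n = (Cc ^ m) ^ n * ((M : ℝ) ^ n) ^ (m - 1) := by
        rw [mul_pow, mul_pow, ← pow_mul Cc n (m - 1), ← pow_mul Cc m n]
        have : Cc ^ (m * n) = Cc ^ (n * (m - 1)) * Cc ^ n := by
          rw [← pow_add]; congr 1
          obtain ⟨k, rfl⟩ : ∃ k, m = k + 1 := ⟨m - 1, by omega⟩
          simp only [Nat.add_sub_cancel]
          ring
        rw [this]; ring
      have key5 : ((M : ℝ) ^ n) ^ m ≤ F * H ^ (2 * m) := by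
        have h6 : (((M : ℝ) ^ n) ^ (m - 1)) * ((M : ℝ) ^ n) ^ m * (M : ℝ) ^ n ≤
            F * H ^ (2 * m) * ((M : ℝ) ^ n * ((M : ℝ) ^ n) ^ (m - 1)) := by
          rw [← e2]
          calc (((M : ℝ)) ^ (2 * m)) ^ n ≤
              F * (H ^ (2 * m) * ((Cc * M) ^ n) ^ (m - 1)) * Cc ^ n := key4
            _ = F * H ^ (2 * m) * (((Cc * M) ^ n) ^ (m - 1) * Cc ^ n) := by ring
            _ = F * H ^ (2 * m) * ((Cc ^ m) ^ n * ((M : ℝ) ^ n) ^ (m - 1)) := by rw [e3]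
            _ ≤ _ := by gcongr
        have h7 : 0 < (M : ℝ) ^ n * ((M : ℝ) ^ n) ^ (m - 1) := by positivity
        have h8 : (((M : ℝ) ^ n) ^ m) * ((M : ℝ) ^ n * ((M : ℝ) ^ n) ^ (m - 1)) ≤
            F * H ^ (2 * m) * ((M : ℝ) ^ n * ((M : ℝ) ^ n) ^ (m - 1)) := by
          calc _ = (((M : ℝ) ^ n) ^ (m - 1)) * ((M : ℝ) ^ n) ^ m * (M : ℝ) ^ n := by ring
            _ ≤ _ := h6
        exact le_of_mul_le_mul_right h8 h7
      have h9 : (F * H ^ 2) ^ m < ((M : ℝ) ^ n) ^ m :=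
        pow_lt_pow_left₀ hn1 (by positivity) (by omega)
      have h10 : F * H ^ (2 * m) ≤ (F * H ^ 2) ^ m := by
        rw [mul_pow, ← pow_mul]
        have : F ≤ F ^ m := le_self_pow₀ hF1 (by omega)
        gcongr
      linarith
  · -- non-coprime case
    obtain ⟨g, P0, R, hg, hPg, hQR, hP00, hR0⟩ := exists_prim_dvd P Q hP hQ0 hcop
    have hbound := factor_bound P0 R θ hθ hP00 hR0 (2 * m) (by rw [← hQR]; exact hQd)
    rw [← hQR] at hbound
    have hhtQ : (ht Q : ℝ) ≤ (Cc * M) ^ n := by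
      have h1 : ∃ i, ht Q ≤ (Q.coeff i).natAbs := by
        have hne : Q.support.Nonempty := by
          rwa [Finset.nonempty_iff_ne_empty, Ne, support_eq_empty]
        obtain ⟨i, _, hi⟩ := Finset.exists_mem_eq_sup Q.support hne
          (fun i => (Q.coeff i).natAbs)
        exact ⟨i, hi.le⟩
      obtain ⟨i, hi⟩ := h1
      have h2 : (ht Q : ℝ) ≤ |(Q.coeff i : ℝ)| := by
        have h3 : |(Q.coeff i : ℝ)| = (((Q.coeff i).natAbs : ℕ) : ℝ) := by
          rw [Nat.cast_natAbs]; simp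
        rw [h3]; exact_mod_cast hi
      exact h2.trans (hQc i)
    have hval : |aeval θ Q| = |aeval θ P0| * |aeval θ R| := by
      rw [hQR, map_mul, abs_mul]
    have hPP0 : |aeval θ P0| ≤ |aeval θ P| := by
      rw [hPg, map_mul, abs_mul, aeval_C]
      have : (1 : ℝ) ≤ |(algebraMap ℤ ℝ) g| := by
        simp only [algebraMap_int_eq, eq_intCast]
        exact_mod_cast Int.one_le_abs hg
      nlinarith [abs_nonneg (aeval θ P0)]
    have hP0 : 0 ≤ |aeval θ P| := abs_nonneg _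
    calc (1 : ℝ) ≤ |aeval θ Q| * (Cc * (M : ℝ) ^ (2 * m)) ^ n := hQlo
      _ = (|aeval θ P0| * |aeval θ R|) * (Cc * (M : ℝ) ^ (2 * m)) ^ n := by rw [hval]
      _ ≤ (|aeval θ P| * (K1 * (Cc * M) ^ n)) * (Cc * (M : ℝ) ^ (2 * m)) ^ n := by
          have : |aeval θ R| ≤ K1 * (Cc * M) ^ n := by
            refine hbound.trans ?_
            rw [← hK1]
            gcongr
          gcongr
      _ = |aeval θ P| * K1 * ((Cc ^ 2) ^ n * ((M : ℝ) ^ n) ^ (2 * m + 1)) := by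
          rw [mul_pow, mul_pow]
          have : (((M : ℝ)) ^ (2 * m)) ^ n = ((M : ℝ) ^ n) ^ (2 * m) := by
            rw [← pow_mul, ← pow_mul, mul_comm]
          rw [this]; ring
      _ ≤ |aeval θ P| * K1 * ((M : ℝ) ^ n * ((M : ℝ) ^ n) ^ (2 * m + 1)) := by gcongr
      _ = |aeval θ P| * K1 * ((M : ℝ) ^ n) ^ (2 * m + 2) := by ring
      _ ≤ |aeval θ P| * K1 * (M * F * H ^ 2) ^ (2 * m + 2) := by gcongr
      _ = |aeval θ P| * H ^ (4 * m + 4) * D2 := by
          rw [hD2, mul_pow, ← pow_mul]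
          have : 2 * (2 * m + 2) = 4 * m + 4 := by ring
          rw [this]; ring
      _ ≤ |aeval θ P| * H ^ (4 * m + 4) * (D1 + D2) := by
          gcongr
          linarith

end Pool.Agent.Helper35
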