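import Mathlib
import Pool.Agent.Helper35.Meas

set_option autoImplicit false

namespace Pool.Agent.Helper35

open Polynomial

theorem ht_le_of_real (Q : ℤ[X]) (hQ : Q ≠ 0) (B : ℝ) (h : ∀ i, |(Q.coeff i : ℝ)| ≤ B) :
    (ht Q : ℝ) ≤ B := by
  have h1 : ∃ i, ht Q ≤ (Q.coeff i).natAbs := by
    have hne : Q.support.Nonempty := by
      rwa [Finset.nonempty_iff_ne_empty, Ne, support_eq_empty]
    obtain ⟨i, _, hi⟩ := Finset.exists_mem_eq_sup Q.support hne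
      (fun i => (Q.coeff i).natAbs)
    exact ⟨i, hi.le⟩
  obtain ⟨i, hi⟩ := h1
  have h2 : (ht Q : ℝ) ≤ |(Q.coeff i : ℝ)| := by
    have h3 : |(Q.coeff i : ℝ)| = (((Q.coeff i).natAbs : ℕ) : ℝ) := by
      rw [Nat.cast_natAbs]; simp
    rw [h3]; exact_mod_cast hi
  exact h2.trans (h i)

/-- Sharp measure for linear polynomials. -/
theorem meas_one (r : ℕ) (hr : 1 ≤ r) (θ : ℝ) (hθ0 : 0 ≤ θ) (hθ1 : θ ≤ 1) (Cc : ℝ)
    (hC : 1 ≤ Cc) (M : ℕ) (hM2 : 2 ≤ M) (hM : Cc ^ (4 * r + 1) ≤ M)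
    (h : ∀ n : ℕ, 1 ≤ n → ∃ Q : ℤ[X], Q.natDegree ≤ 1 ∧
      (∀ i, |(Q.coeff i : ℝ)| ≤ (Cc * M) ^ n) ∧
      1 ≤ |aeval θ Q| * (Cc * (M : ℝ)) ^ n ∧
      |aeval θ Q| * (M : ℝ) ^ n ≤ Cc ^ n) :
    ∃ c : ℝ, 0 < c ∧ ∀ P : ℤ[X], IrrQ P → P.natDegree = 1 →
      c ≤ |aeval θ P| ^ r * (ht P : ℝ) ^ (r + 1) := by
  have hθ : |θ| ≤ 1 := by rw [abs_of_nonneg hθ0]; exact hθ1
  have hMr : (2 : ℝ) ≤ M := by exact_mod_cast hM2
  have hC0 : 0 < Cc := by linarith
  set Z : ℝ := M / Cc with hZ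
  have hCZ : Cc * Z = M := by rw [hZ]; field_simp
  have hC4 : Cc ^ (4 * r) ≤ Z := by
    rw [hZ, le_div_iff₀ hC0, ← pow_succ]; exact hM
  have hZ1 : 1 < Z := by
    have h1 : 1 ≤ Cc ^ (4 * r) := one_le_pow₀ hC
    by_contra hc
    push Not at hc
    have h2 : Cc ^ (4 * r) ≤ 1 := hC4.trans hc
    have h3 : Cc ≤ Cc ^ (4 * r) := le_self_pow₀ hC (by omega)
    have h4 : Cc ≤ 1 := h3.trans h2
    have : (M : ℝ) ≤ 1 := by
      rw [← hCZ]
      have hZ0 : 0 ≤ Z := by rw [hZ]; positivity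
      nlinarith
    linarith
  have hZ0 : 0 < Z := by linarith
  have hCM : (Cc * M) ^ (4 * r) ≤ Z ^ (4 * r + 2) := by
    have e : (Cc * M) ^ (4 * r) = (Cc ^ (4 * r)) ^ 2 * Z ^ (4 * r) := by
      rw [← hCZ]; ring
    rw [e]
    calc (Cc ^ (4 * r)) ^ 2 * Z ^ (4 * r) ≤ Z ^ 2 * Z ^ (4 * r) := by gcongr
      _ = _ := by ring
  set c1 : ℝ := 1 / (2 ^ (4 * r) * (2 * Z) ^ (4 * r + 2) + (2 * Z) ^ (8 * r + 4)) with hc1
  have hc1pos : 0 < c1 := by rw [hc1]; positivity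
  refine ⟨min c1 1, lt_min hc1pos one_pos, fun P hP hPd => ?_⟩
  have hH1 : 1 ≤ ht P := ht_pos hP.ne_zero
  set H : ℝ := (ht P : ℝ) with hH
  have hHr : 1 ≤ H := by rw [hH]; exact_mod_cast hH1
  set X0 : ℝ := |aeval θ P| with hX0
  have hX0n : 0 ≤ X0 := abs_nonneg _
  -- reduction to the fourth power
  suffices hs : c1 ≤ (X0 ^ r * H ^ (r + 1)) ^ 4 by
    have hy : 0 ≤ X0 ^ r * H ^ (r + 1) := by positivity
    by_cases hy1 : 1 ≤ X0 ^ r * H ^ (r + 1)
    · exact (min_le_right _ _).trans hy1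
    · push Not at hy1
      refine (min_le_left _ _).trans (hs.trans ?_)
      exact pow_le_of_le_one hy hy1.le (by norm_num)
  have e4 : (X0 ^ r * H ^ (r + 1)) ^ 4 = X0 ^ (4 * r) * H ^ (4 * r + 4) := by
    rw [mul_pow, ← pow_mul, ← pow_mul]; congr 2 <;> ring
  rw [e4, hc1, div_le_iff₀ (by positivity)]
  -- choice of n
  have hex : ∃ n : ℕ, 2 * H < Z ^ n := pow_unbounded_of_one_lt _ hZ1
  obtain ⟨hn1, hn2⟩ : 2 * H < Z ^ (Nat.find hex) ∧
      ∀ i < Nat.find hex, ¬ (2 * H < Z ^ i) :=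
    ⟨Nat.find_spec hex, fun i hi => Nat.find_min hex hi⟩
  set n := Nat.find hex with hn
  have hn0 : 1 ≤ n := by
    by_contra hc
    have : n = 0 := by omega
    rw [this, pow_zero] at hn1
    linarith
  have hZn : Z ^ n ≤ 2 * Z * H := by
    have h1 := hn2 (n - 1) (by omega)
    push Not at h1
    have e : Z ^ n = Z * Z ^ (n - 1) := by
      rw [← pow_succ']; congr 1; omega
    rw [e]
    nlinarith
  have hCMn : ((Cc * M) ^ n) ^ (4 * r) ≤ (2 * Z * H) ^ (4 * r + 2) := by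
    calc ((Cc * M) ^ n) ^ (4 * r) = ((Cc * M) ^ (4 * r)) ^ n := by
          rw [← pow_mul, ← pow_mul, mul_comm n (4 * r)]
      _ ≤ (Z ^ (4 * r + 2)) ^ n := by gcongr
      _ = (Z ^ n) ^ (4 * r + 2) := by rw [← pow_mul, ← pow_mul, mul_comm n (4 * r + 2)]
      _ ≤ _ := by gcongr
  obtain ⟨Q, hQd, hQc, hQlo, hQhi⟩ := h n hn0
  have hB0 : 0 < (Cc * M) ^ n := by positivity
  have hB1 : 1 ≤ (Cc * M) ^ n := one_le_pow₀ (by nlinarith)
  have hQ0 : Q ≠ 0 := by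
    rintro rfl
    simp at hQlo
    linarith
  by_cases hcop : IsCoprime (P.map (Int.castRingHom ℚ)) (Q.map (Int.castRingHom ℚ))
  · set ε : ℝ := max (X0 / H) (|aeval θ Q| / (Cc * M) ^ n) with hε
    have hε0 : 0 ≤ ε := le_trans (by positivity) (le_max_left _ _)
    have hPε : |aeval θ P| ≤ H * ε := by
      have := le_max_left (X0 / H) (|aeval θ Q| / (Cc * M) ^ n)
      rw [div_le_iff₀ (by linarith), mul_comm] at this
      exact this
    have hQε : |aeval θ Q| ≤ (Cc * M) ^ n * ε := by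
      have := le_max_right (X0 / H) (|aeval θ Q| / (Cc * M) ^ n)
      rw [div_le_iff₀ (by linarith), mul_comm] at this
      exact this
    have key := one_le_res2 P Q hcop (by omega) θ hθ H ((Cc * M) ^ n) ε (by linarith) hB0
      (fun i => abs_coeff_le_ht P i) hQc hPε hQε
    rw [hPd] at key
    have hfac : (((1 + Q.natDegree).factorial : ℕ) : ℝ) ≤ 2 := by
      have : (1 + Q.natDegree).factorial ≤ (1 + 1).factorial := Nat.factorial_le (by omega)
      exact_mod_cast this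
    have hHq : H ^ Q.natDegree ≤ H ^ 1 := pow_le_pow_right₀ hHr hQd
    have key2 : 1 ≤ 2 * (H * (Cc * M) ^ n) * ε := by
      refine key.trans ?_
      rw [pow_one] at hHq ⊢
      gcongr
    rcases max_choice (X0 / H) (|aeval θ Q| / (Cc * M) ^ n) with hc | hc
    · rw [← hε] at hc
      rw [hc] at key2
      have key3 : 1 ≤ 2 * (Cc * M) ^ n * X0 := by
        have : 2 * (H * (Cc * M) ^ n) * (X0 / H) = 2 * (Cc * M) ^ n * X0 := by
          field_simp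
        rw [this] at key2
        exact key2
      calc (1 : ℝ) = 1 ^ (4 * r) := (one_pow _).symm
        _ ≤ (2 * (Cc * M) ^ n * X0) ^ (4 * r) := by gcongr
        _ = 2 ^ (4 * r) * ((Cc * M) ^ n) ^ (4 * r) * X0 ^ (4 * r) := by
            rw [mul_pow, mul_pow]
        _ ≤ 2 ^ (4 * r) * (2 * Z * H) ^ (4 * r + 2) * X0 ^ (4 * r) := by gcongr
        _ = X0 ^ (4 * r) * H ^ (4 * r + 2) * (2 ^ (4 * r) * (2 * Z) ^ (4 * r + 2)) := by
            rw [mul_pow (2 * Z) H]; ring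
        _ ≤ X0 ^ (4 * r) * H ^ (4 * r + 4) *
            (2 ^ (4 * r) * (2 * Z) ^ (4 * r + 2) + (2 * Z) ^ (8 * r + 4)) := by
            have h5 : H ^ (4 * r + 2) ≤ H ^ (4 * r + 4) := pow_le_pow_right₀ hHr (by omega)
            have h6 : 0 ≤ (2 * Z) ^ (8 * r + 4) := by positivity
            gcongr
            linarith
    · exfalso
      rw [← hε] at hc
      rw [hc] at key2
      have key3 : 1 ≤ 2 * H * |aeval θ Q| := by
        have : 2 * (H * (Cc * M) ^ n) * (|aeval θ Q| / (Cc * M) ^ n) = 2 * H * |aeval θ Q| := by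
          field_simp
        rw [this] at key2
        exact key2
      have hMn : 0 < (M : ℝ) ^ n := by positivity
      have h5 : (M : ℝ) ^ n ≤ 2 * H * Cc ^ n := by
        calc (M : ℝ) ^ n = 1 * (M : ℝ) ^ n := (one_mul _).symm
          _ ≤ (2 * H * |aeval θ Q|) * (M : ℝ) ^ n := by gcongr
          _ = 2 * H * (|aeval θ Q| * (M : ℝ) ^ n) := by ring
          _ ≤ _ := by gcongr
      have h6 : (M : ℝ) ^ n = Cc ^ n * Z ^ n := by rw [← hCZ, mul_pow]
      rw [h6] at h5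
      have h7 : 0 < Cc ^ n := by positivity
      nlinarith
  · obtain ⟨g, P0, R, hg, hPg, hQR, hP00, hR0⟩ := exists_prim_dvd P Q hP hQ0 hcop
    have hdP0 : P0.natDegree = 1 := by
      rw [← hPd, hPg, natDegree_C_mul hg]
    have hdR : R.natDegree = 0 := by
      have := natDegree_mul hP00 hR0
      rw [← hQR] at this
      omega
    obtain ⟨s, rfl⟩ : ∃ s, R = C s := ⟨_, eq_C_of_natDegree_eq_zero hdR⟩
    have hhtP : (ht P : ℝ) = |(g : ℝ)| * ht P0 := by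
      rw [hPg, ht_intCast_mul]
      push_cast
      rw [Nat.cast_natAbs]
      simp
    have hhtQ : (ht Q : ℝ) = |(s : ℝ)| * ht P0 := by
      rw [hQR, mul_comm, ht_intCast_mul]
      push_cast
      rw [Nat.cast_natAbs]
      simp
    have hXP : X0 = |(g : ℝ)| * |aeval θ P0| := by
      rw [hX0, hPg, map_mul, abs_mul, aeval_C]; simp
    have hXQ : |aeval θ Q| = |aeval θ P0| * |(s : ℝ)| := by
      rw [hQR, map_mul, abs_mul, aeval_C]; simp
    have hprop : X0 * ht Q = |aeval θ Q| * H := by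
      rw [hXP, hhtQ, hXQ, hH, hhtP]; ring
    have hhtQ2 : (ht Q : ℝ) ≤ (Cc * M) ^ n := ht_le_of_real Q hQ0 _ hQc
    have h5 : H ≤ X0 * ((Cc * M) ^ n * (Cc * M) ^ n) := by
      calc H = H * 1 := (mul_one _).symm
        _ ≤ H * (|aeval θ Q| * (Cc * (M : ℝ)) ^ n) := by gcongr
        _ = (X0 * ht Q) * (Cc * (M : ℝ)) ^ n := by rw [hprop]; ring
        _ ≤ (X0 * (Cc * M) ^ n) * (Cc * (M : ℝ)) ^ n := by gcongr
        _ = _ := by ring
    have h6 : H ^ (4 * r) ≤ X0 ^ (4 * r) * ((2 * Z * H) ^ (4 * r + 2) * (2 * Z * H) ^ (4 * r + 2)) := by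
      calc H ^ (4 * r) ≤ (X0 * ((Cc * M) ^ n * (Cc * M) ^ n)) ^ (4 * r) := by gcongr
        _ = X0 ^ (4 * r) * (((Cc * M) ^ n) ^ (4 * r) * ((Cc * M) ^ n) ^ (4 * r)) := by
            rw [mul_pow, mul_pow]
        _ ≤ _ := by gcongr
    have h7 : (2 * Z * H) ^ (4 * r + 2) * (2 * Z * H) ^ (4 * r + 2) =
        (2 * Z) ^ (8 * r + 4) * H ^ (4 * r + 4) * H ^ (4 * r) := by
      rw [← pow_add, mul_pow]
      have : 4 * r + 2 + (4 * r + 2) = 8 * r + 4 := by ring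
      rw [this]
      have e5 : H ^ (8 * r + 4) = H ^ (4 * r + 4) * H ^ (4 * r) := by rw [← pow_add]; congr 1; ring
      rw [e5]; ring
    rw [h7] at h6
    have h8 : 0 < H ^ (4 * r) := by positivity
    have h9 : 1 * H ^ (4 * r) ≤ (X0 ^ (4 * r) * ((2 * Z) ^ (8 * r + 4) * H ^ (4 * r + 4))) *
        H ^ (4 * r) := by
      rw [one_mul]
      calc H ^ (4 * r) ≤ _ := h6
        _ = _ := by ring
    have h10 := le_of_mul_le_mul_right h9 h8
    calc (1 : ℝ) ≤ X0 ^ (4 * r) * ((2 * Z) ^ (8 * r + 4) * H ^ (4 * r + 4)) := h10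
      _ = X0 ^ (4 * r) * H ^ (4 * r + 4) * (2 * Z) ^ (8 * r + 4) := by ring
      _ ≤ _ := by
          have h11 : 0 ≤ 2 ^ (4 * r) * (2 * Z) ^ (4 * r + 2) := by positivity
          gcongr
          linarith

end Pool.Agent.Helper35
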