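import Mathlib
import Pool.Agent.Helper35.Count

set_option autoImplicit false

namespace Pool.Agent.Helper35

open Polynomial

/-- Counting the translated grid points at which an irreducible polynomial is small. -/
theorem count_grid' (θ : ℝ) {P : ℤ[X]} (h : IrrQ P) (N : ℕ) (hN : 0 < N) (δ : ℝ)
    (hδ0 : 0 ≤ δ)
    (hδ : Kc P.natDegree * (ht P : ℝ) ^ (2 * P.natDegree) * δ < 1) (s : Finset ℤ)
    (hs : ∀ p ∈ s, |θ + (p : ℝ) / N| ≤ 1 ∧ |aeval (θ + (p : ℝ) / N) P| ≤ δ) :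
    (s.card : ℝ) ≤ P.natDegree * (2 * (P.natDegree * δ *
      (Kc P.natDegree * (ht P : ℝ) ^ (2 * P.natDegree))) * N + 1) := by
  classical
  set m := P.natDegree with hm
  have hmpos : 0 < m := h.natDegree_pos
  have hH : (1 : ℝ) ≤ ht P := by exact_mod_cast ht_pos h.ne_zero
  set K : ℝ := Kc m * (ht P : ℝ) ^ (2 * m) with hK
  have hKpos : 0 < K := by have := Kc_pos hmpos; positivity
  set ρ : ℝ := m * δ * K with hρ
  have hρ0 : 0 ≤ ρ := by positivity
  set f : ℂ[X] := P.map (Int.castRingHom ℂ) with hf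
  have hnear : ∀ p ∈ s, ∃ z ∈ f.roots.toFinset, |θ + (p : ℝ) / N - z.re| ≤ ρ := by
    intro p hp
    obtain ⟨h1, h2⟩ := hs p hp
    have h3 : 1 / K ≤ |aeval (θ + (p : ℝ) / N) (derivative P)| := by
      by_contra hc
      push Not at hc
      obtain ⟨ε, hε1, hε2⟩ : ∃ ε, max δ |aeval (θ + (p : ℝ) / N) (derivative P)| ≤ ε ∧
          ε < 1 / K := by
        refine ⟨max δ |aeval (θ + (p : ℝ) / N) (derivative P)|, le_rfl, max_lt ?_ hc⟩
        rw [lt_div_iff₀ hKpos]; linarith [mul_comm K δ]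
      have := deriv_bound h _ h1 ε (h2.trans ((le_max_left _ _).trans hε1))
        ((le_max_right _ _).trans hε1)
      rw [← hm, ← hK] at this
      rw [lt_div_iff₀ hKpos] at hε2
      linarith [mul_comm K ε]
    obtain ⟨z, hz1, hz2⟩ := exists_root_near h.ne_zero (θ + (p : ℝ) / N) δ (1 / K) (by positivity)
      h2 h3
    refine ⟨z, Multiset.mem_toFinset.mpr hz1, ?_⟩
    have h4 : |((((θ + (p : ℝ) / N : ℝ) : ℂ) - z).re)| ≤ ‖(((θ + (p : ℝ) / N : ℝ) : ℂ) - z)‖ :=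
      Complex.abs_re_le_norm _
    have h5 : (((θ + (p : ℝ) / N : ℝ) : ℂ) - z).re = θ + (p : ℝ) / N - z.re := by
      rw [Complex.sub_re, Complex.ofReal_re]
    rw [h5] at h4
    refine h4.trans (hz2.trans (le_of_eq ?_))
    rw [hρ, ← hm]; field_simp
  have hsub : s ⊆ f.roots.toFinset.biUnion
      (fun z => s.filter (fun p : ℤ => |θ + (p : ℝ) / N - z.re| ≤ ρ)) := by
    intro p hp
    obtain ⟨z, hz1, hz2⟩ := hnear p hp
    rw [Finset.mem_biUnion]
    exact ⟨z, hz1, Finset.mem_filter.mpr ⟨hp, hz2⟩⟩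
  have hNr : (0 : ℝ) < N := by exact_mod_cast hN
  have hone : ∀ z ∈ f.roots.toFinset,
      ((s.filter (fun p : ℤ => |θ + (p : ℝ) / N - z.re| ≤ ρ)).card : ℝ) ≤ 2 * ρ * N + 1 := by
    intro z _
    have := card_le_of_mem_interval (s.filter (fun p : ℤ => |θ + (p : ℝ) / N - z.re| ≤ ρ))
      (N * (z.re - θ - ρ)) (N * (z.re - θ + ρ)) (by nlinarith) (by
        intro p hp
        have hp2 := (Finset.mem_filter.mp hp).2
        rw [abs_le] at hp2
        constructor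
        · have : z.re - θ - ρ ≤ (p : ℝ) / N := by linarith
          rw [le_div_iff₀ hNr] at this
          linarith
        · have : (p : ℝ) / N ≤ z.re - θ + ρ := by linarith
          rw [div_le_iff₀ hNr] at this
          linarith)
    refine this.trans (le_of_eq ?_)
    ring
  have hcard : (f.roots.toFinset.card : ℝ) ≤ m := by
    have h1 := Multiset.toFinset_card_le f.roots
    have h2 := f.card_roots'
    have h3 : f.natDegree ≤ P.natDegree := natDegree_map_le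
    exact_mod_cast h1.trans (h2.trans h3)
  calc (s.card : ℝ) ≤ ((f.roots.toFinset.biUnion
      (fun z => s.filter (fun p : ℤ => |θ + (p : ℝ) / N - z.re| ≤ ρ))).card : ℝ) := by
        exact_mod_cast Finset.card_le_card hsub
    _ ≤ ((∑ z ∈ f.roots.toFinset,
        (s.filter (fun p : ℤ => |θ + (p : ℝ) / N - z.re| ≤ ρ)).card : ℕ) : ℝ) := by
        exact_mod_cast Finset.card_biUnion_le
    _ = ∑ z ∈ f.roots.toFinset,
        ((s.filter (fun p : ℤ => |θ + (p : ℝ) / N - z.re| ≤ ρ)).card : ℝ) := by push_cast; rfl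
    _ ≤ ∑ z ∈ f.roots.toFinset, (2 * ρ * N + 1) := Finset.sum_le_sum hone
    _ = f.roots.toFinset.card * (2 * ρ * N + 1) := by rw [Finset.sum_const, nsmul_eq_mul]
    _ ≤ m * (2 * ρ * N + 1) := by gcongr

/-- Counting grid points where some irreducible polynomial of given degree and height is small. -/
theorem low_count_one' (θ : ℝ) (m H N : ℕ) (hN : 0 < N) (δ : ℝ) (hδ0 : 0 ≤ δ)
    (hδ : Kc m * (H : ℝ) ^ (2 * m) * δ < 1) (s : Finset ℤ)
    (hs : ∀ n ∈ s, |θ + (n : ℝ) / N| ≤ 1 ∧ ∃ P : ℤ[X], IrrQ P ∧ P.natDegree = m ∧ ht P = H ∧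
      |aeval (θ + (n : ℝ) / N) P| ≤ δ) :
    (s.card : ℝ) ≤ (2 * (H : ℝ) + 1) ^ (m + 1) *
      (m * (2 * (m * δ * (Kc m * (H : ℝ) ^ (2 * m))) * N + 1)) := by
  classical
  set G := (boxF m H).filter (fun P => IrrQ P ∧ P.natDegree = m ∧ ht P = H) with hG
  have hsub : s ⊆ G.biUnion (fun P => s.filter (fun n : ℤ => |aeval (θ + (n : ℝ) / N) P| ≤ δ)) := by
    intro n hn
    obtain ⟨h1, P, hP1, hP2, hP3, hP4⟩ := hs n hn
    rw [Finset.mem_biUnion]
    refine ⟨P, ?_, Finset.mem_filter.mpr ⟨hn, hP4⟩⟩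
    rw [hG, Finset.mem_filter]
    exact ⟨mem_boxF hP2.le hP3.le, hP1, hP2, hP3⟩
  have hnn : 0 ≤ Kc m := by unfold Kc; positivity
  have hone : ∀ P ∈ G, ((s.filter (fun n : ℤ => |aeval (θ + (n : ℝ) / N) P| ≤ δ)).card : ℝ) ≤
      m * (2 * (m * δ * (Kc m * (H : ℝ) ^ (2 * m))) * N + 1) := by
    intro P hP
    rw [hG, Finset.mem_filter] at hP
    obtain ⟨_, h1, h2, h3⟩ := hP
    have := count_grid' θ h1 N hN δ hδ0 (by rw [h2, h3]; exact hδ)
      (s.filter (fun n : ℤ => |aeval (θ + (n : ℝ) / N) P| ≤ δ)) (by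
        intro n hn
        rw [Finset.mem_filter] at hn
        exact ⟨(hs n hn.1).1, hn.2⟩)
    rw [h2, h3] at this
    exact this
  have hcardG : (G.card : ℝ) ≤ (2 * (H : ℝ) + 1) ^ (m + 1) := by
    have h1 : G.card ≤ (2 * H + 1) ^ (m + 1) := (Finset.card_filter_le _ _).trans (card_boxF m H)
    exact_mod_cast h1
  calc (s.card : ℝ) ≤ ((G.biUnion
      (fun P => s.filter (fun n : ℤ => |aeval (θ + (n : ℝ) / N) P| ≤ δ))).card : ℝ) := by
        exact_mod_cast Finset.card_le_card hsub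
    _ ≤ ((∑ P ∈ G, (s.filter (fun n : ℤ => |aeval (θ + (n : ℝ) / N) P| ≤ δ)).card : ℕ) : ℝ) := by
        exact_mod_cast Finset.card_biUnion_le
    _ = ∑ P ∈ G, ((s.filter (fun n : ℤ => |aeval (θ + (n : ℝ) / N) P| ≤ δ)).card : ℝ) := by
        push_cast; rfl
    _ ≤ ∑ P ∈ G, (m * (2 * (m * δ * (Kc m * (H : ℝ) ^ (2 * m))) * N + 1) : ℝ) :=
        Finset.sum_le_sum hone
    _ = G.card * (m * (2 * (m * δ * (Kc m * (H : ℝ) ^ (2 * m))) * N + 1)) := by
        rw [Finset.sum_const, nsmul_eq_mul]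
    _ ≤ _ := by gcongr

end Pool.Agent.Helper35
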