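import Mathlib
import Pool.Agent.Helper35.TCount

set_option autoImplicit false

namespace Pool.Agent.Helper35

open Polynomial

/-- Low regime count for a fixed degree, general version.  Exponent `(t+4)(m+1)`, threshold
`1 ≤ w * H^(t(m+1))`. -/
theorem low_count' (θ : ℝ) (m : ℕ) (hm : 1 ≤ m) (t : ℕ) (ht1 : 1 ≤ t) (N : ℕ) (hN : 0 < N)
    (w Y : ℝ) (hw : 0 < w) (hY : 1 ≤ Y) (hwY : w * Y ^ t ≤ 1)
    (hK : 2 * Kc m < Y) (s : Finset ℤ)
    (hs : ∀ n ∈ s, |θ + (n : ℝ) / N| ≤ 1 ∧ ∃ P : ℤ[X], IrrQ P ∧ P.natDegree = m ∧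
      1 ≤ w * (ht P : ℝ) ^ (t * (m + 1)) ∧ (ht P) ^ (2 * (m + 1)) ≤ N ∧
      |aeval (θ + (n : ℝ) / N) P| ≤ 2 / (ht P : ℝ) ^ ((t + 4) * (m + 1))) :
    (s.card : ℝ) ≤ 2 * cc m * N * w / Y + m * 3 ^ (m + 1) * N / (Nat.sqrt (Nat.sqrt N)) := by
  classical
  have hNr : (1 : ℝ) ≤ N := by exact_mod_cast hN
  have hKn : 0 < Kc m := Kc_pos (by omega)
  set S := Nat.sqrt N with hS
  set T := Nat.sqrt S with hT
  have hS1 : 1 ≤ S := by
    rw [hS, Nat.le_sqrt]; omega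
  have hT1 : 1 ≤ T := by
    rw [hT, Nat.le_sqrt]; omega
  have hSS : S * S ≤ N := Nat.sqrt_le N
  have hTT : T * T ≤ S := Nat.sqrt_le S
  have hTr : (1 : ℝ) ≤ T := by exact_mod_cast hT1
  set SH := (Finset.Ioo 0 (T + 1)).filter (fun H : ℕ => 1 ≤ w * (H : ℝ) ^ (t * (m + 1)) ∧
    H ^ (2 * (m + 1)) ≤ N) with hSH
  set sH : ℕ → Finset ℤ := fun H => s.filter (fun n : ℤ => ∃ P : ℤ[X], IrrQ P ∧ P.natDegree = m ∧
      ht P = H ∧ |aeval (θ + (n : ℝ) / N) P| ≤ 2 / (H : ℝ) ^ ((t + 4) * (m + 1))) with hsH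
  have hsub : s ⊆ SH.biUnion sH := by
    intro n hn
    obtain ⟨h1, P, hP1, hP2, hP3, hP4, hP5⟩ := hs n hn
    rw [Finset.mem_biUnion]
    refine ⟨ht P, ?_, ?_⟩
    · rw [hSH, Finset.mem_filter, Finset.mem_Ioo]
      refine ⟨⟨ht_pos hP1.ne_zero, ?_⟩, hP3, hP4⟩
      have h2 : (ht P) ^ 4 ≤ N := by
        refine le_trans (Nat.pow_le_pow_right (ht_pos hP1.ne_zero) ?_) hP4
        omega
      have h3 : ht P * ht P ≤ S := by
        rw [hS, Nat.le_sqrt]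
        calc ht P * ht P * (ht P * ht P) = (ht P) ^ 4 := by ring
          _ ≤ N := h2
      have h4 : ht P ≤ T := by rw [hT, Nat.le_sqrt]; exact h3
      omega
    · rw [hsH, Finset.mem_filter]
      exact ⟨hn, P, hP1, hP2, rfl, hP5⟩
  have hone : ∀ H ∈ SH, ((sH H).card : ℝ) ≤
      cc m * N * w / Y * ((H : ℝ) ^ 2)⁻¹ + m * 3 ^ (m + 1) * (S : ℝ) := by
    intro H hH
    rw [hSH, Finset.mem_filter, Finset.mem_Ioo] at hH
    obtain ⟨⟨hH0, hHT⟩, hH1, hH2⟩ := hH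
    have hHr : (1 : ℝ) ≤ H := by exact_mod_cast hH0
    have hH3 : H ^ (m + 1) ≤ S := by
      rw [hS, Nat.le_sqrt]
      calc H ^ (m + 1) * H ^ (m + 1) = H ^ (2 * (m + 1)) := by rw [← pow_add]; congr 1; ring
        _ ≤ N := hH2
    have hH3r : (H : ℝ) ^ (m + 1) ≤ S := by exact_mod_cast hH3
    have hYH : Y ≤ (H : ℝ) ^ (m + 1) := by
      have h1 : w * Y ^ t ≤ w * ((H : ℝ) ^ (m + 1)) ^ t := by
        calc w * Y ^ t ≤ 1 := hwY
          _ ≤ w * (H : ℝ) ^ (t * (m + 1)) := hH1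
          _ = w * ((H : ℝ) ^ (m + 1)) ^ t := by rw [← pow_mul, mul_comm t (m + 1)]
      have h2 := le_of_mul_le_mul_left h1 hw
      exact (pow_le_pow_iff_left₀ (by linarith) (by positivity) (by omega)).mp h2
    set δ : ℝ := 2 / (H : ℝ) ^ ((t + 4) * (m + 1)) with hδ
    have hδ0 : 0 ≤ δ := by positivity
    have hexp : (t + 4) * (m + 1) = (m + 1) + 2 * m + (t * (m + 1) + (m + 1) + 2) := by ring
    have hδ1 : Kc m * (H : ℝ) ^ (2 * m) * δ < 1 := by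
      rw [hδ, mul_div_assoc', div_lt_one (by positivity)]
      have e1 : (H : ℝ) ^ ((t + 4) * (m + 1)) = (H : ℝ) ^ (2 * m) * ((H : ℝ) ^ (m + 1) *
          (H : ℝ) ^ (t * (m + 1) + (m + 1) + 2)) := by
        rw [hexp, pow_add, pow_add]; ring
      rw [e1]
      have e2 : 2 * Kc m < (H : ℝ) ^ (m + 1) * (H : ℝ) ^ (t * (m + 1) + (m + 1) + 2) := by
        have h5 : (1 : ℝ) ≤ (H : ℝ) ^ (t * (m + 1) + (m + 1) + 2) := one_le_pow₀ hHr
        have h6 : (0 : ℝ) < (H : ℝ) ^ (m + 1) := by positivity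
        nlinarith
      have e3 : (0 : ℝ) < (H : ℝ) ^ (2 * m) := by positivity
      nlinarith
    have key := low_count_one' θ m H N hN δ hδ0 hδ1 (sH H) (by
      intro n hn
      rw [hsH, Finset.mem_filter] at hn
      exact ⟨(hs n hn.1).1, hn.2⟩)
    refine key.trans ?_
    have h3H : (2 * (H : ℝ) + 1) ^ (m + 1) ≤ 3 ^ (m + 1) * (H : ℝ) ^ (m + 1) := by
      rw [← mul_pow]
      exact pow_le_pow_left₀ (by positivity) (by linarith) _
    have hA : (H : ℝ) ^ ((t + 4) * (m + 1)) = (H : ℝ) ^ (m + 1) * (H : ℝ) ^ (2 * m) *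
        ((H : ℝ) ^ (t * (m + 1)) * (H : ℝ) ^ (m + 1) * (H : ℝ) ^ 2) := by
      rw [hexp, pow_add _ (m + 1 + 2 * m), pow_add _ (m + 1) (2 * m),
        pow_add _ (t * (m + 1) + (m + 1)) 2, pow_add _ (t * (m + 1)) (m + 1)]
    have hB : 1 / w ≤ (H : ℝ) ^ (t * (m + 1)) := by
      rw [div_le_iff₀ hw]; linarith
    have hccn := cc_nonneg m
    calc (2 * (H : ℝ) + 1) ^ (m + 1) *
          (m * (2 * (m * δ * (Kc m * (H : ℝ) ^ (2 * m))) * N + 1))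
        ≤ (3 ^ (m + 1) * (H : ℝ) ^ (m + 1)) *
          (m * (2 * (m * δ * (Kc m * (H : ℝ) ^ (2 * m))) * N + 1)) := by
          gcongr
      _ = cc m * N * ((H : ℝ) ^ (m + 1) * (H : ℝ) ^ (2 * m) / (H : ℝ) ^ ((t + 4) * (m + 1)))
          + m * 3 ^ (m + 1) * (H : ℝ) ^ (m + 1) := by
          rw [hδ, cc]; ring
      _ = cc m * N * ((H : ℝ) ^ (t * (m + 1)))⁻¹ * ((H : ℝ) ^ (m + 1))⁻¹ * ((H : ℝ) ^ 2)⁻¹
          + m * 3 ^ (m + 1) * (H : ℝ) ^ (m + 1) := by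
          rw [hA]
          field_simp
      _ ≤ cc m * N * (1 / w)⁻¹ * Y⁻¹ * ((H : ℝ) ^ 2)⁻¹
          + m * 3 ^ (m + 1) * (S : ℝ) := by
          gcongr
      _ = _ := by
          rw [one_div, inv_inv]; ring
  have hSTN : (T : ℝ) * (S : ℝ) ≤ N / T := by
    rw [le_div_iff₀ (by linarith)]
    have h1 : T * S * T ≤ N := by
      calc T * S * T = (T * T) * S := by ring
        _ ≤ S * S := Nat.mul_le_mul_right _ hTT
        _ ≤ N := hSS
    exact_mod_cast h1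
  calc (s.card : ℝ) ≤ ((SH.biUnion sH).card : ℝ) := by
        exact_mod_cast Finset.card_le_card hsub
    _ ≤ ((∑ H ∈ SH, (sH H).card : ℕ) : ℝ) := by exact_mod_cast Finset.card_biUnion_le
    _ = ∑ H ∈ SH, ((sH H).card : ℝ) := by push_cast; rfl
    _ ≤ ∑ H ∈ SH, (cc m * N * w / Y * ((H : ℝ) ^ 2)⁻¹ +
          m * 3 ^ (m + 1) * (S : ℝ)) := Finset.sum_le_sum hone
    _ ≤ ∑ H ∈ Finset.Ioo 0 (T + 1), (cc m * N * w / Y * ((H : ℝ) ^ 2)⁻¹ +
          m * 3 ^ (m + 1) * (S : ℝ)) := by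
        apply Finset.sum_le_sum_of_subset_of_nonneg (Finset.filter_subset _ _)
        intro H _ _
        have := cc_nonneg m
        positivity
    _ = cc m * N * w / Y * (∑ H ∈ Finset.Ioo 0 (T + 1), ((H : ℝ) ^ 2)⁻¹) +
          T * (m * 3 ^ (m + 1) * (S : ℝ)) := by
        rw [Finset.sum_add_distrib, ← Finset.mul_sum, Finset.sum_const, Nat.card_Ioo,
          nsmul_eq_mul]
        simp
    _ ≤ cc m * N * w / Y * 2 + T * (m * 3 ^ (m + 1) * (S : ℝ)) := by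
        have h1 := sum_Ioo_inv_sq_le (α := ℝ) 0 (T + 1)
        have := cc_nonneg m
        have h2 : (∑ H ∈ Finset.Ioo 0 (T + 1), ((H : ℝ) ^ 2)⁻¹) ≤ 2 := by
          refine h1.trans ?_
          norm_num
        gcongr
    _ = 2 * cc m * N * w / Y + m * 3 ^ (m + 1) * (T * S) := by ring
    _ ≤ 2 * cc m * N * w / Y + m * 3 ^ (m + 1) * (N / T) := by gcongr
    _ = _ := by ring

end Pool.Agent.Helper35
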