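import Mathlib
import Pool.Agent.Helper35.TLow

set_option autoImplicit false

namespace Pool.Agent.Helper35

open Polynomial

theorem card_shift_bad' (θ : ℝ) (m p e A L : ℕ) (hp : p.Prime) (heA : e ≤ A)
    (hL : L ≤ p) (hLe : L ≤ p ^ e) (H : ℕ) (hH : H ^ 2 < (p ^ e) ^ m) (δ : ℝ)
    (hnum : ((2 * m).factorial : ℝ) * (((m : ℝ) + 1) * H * (2 * (p : ℝ) ^ e) ^ m) ^ (2 * m - 1) *
      (((p : ℝ) ^ e) ^ m * δ) < 1) (a w : ℝ) (ha : 0 ≤ a) (hw : 0 ≤ w) (haw : a + w ≤ 1)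
    (B : Finset ℤ)
    (hB : ∀ n ∈ B, a ≤ θ + (n : ℝ) / (p : ℝ) ^ A ∧ θ + (n : ℝ) / (p : ℝ) ^ A ≤ a + w ∧
      ∃ P : ℤ[X], IrrQ P ∧ P.natDegree = m ∧ ht P ≤ H ∧
        |aeval (θ + (n : ℝ) / (p : ℝ) ^ A) P| ≤ δ) :
    (B.card : ℝ) * L ≤ (p : ℝ) ^ A * (w + L / (p : ℝ) ^ e) + 1 := by
  have hp0 : (0 : ℝ) < p := by exact_mod_cast hp.pos
  have hA0 : (0 : ℝ) < (p : ℝ) ^ A := by positivity
  have he0 : (0 : ℝ) < (p : ℝ) ^ e := by positivity
  have hsplit : (p : ℝ) ^ A = (p : ℝ) ^ e * (p : ℝ) ^ (A - e) := by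
    rw [← pow_add]; congr 1; omega
  set F : ℤ × ℕ → ℤ := fun q => q.1 + (q.2 : ℤ) * (p : ℤ) ^ (A - e) with hF
  have hinj : Set.InjOn F (B ×ˢ Finset.range L : Finset (ℤ × ℕ)) := by
    rintro ⟨n, s⟩ h1 ⟨n', s'⟩ h2 heq
    simp only [Finset.coe_product, Set.mem_prod, Finset.mem_coe, Finset.mem_range] at h1 h2
    simp only [hF] at heq
    by_cases hss : s = s'
    · subst hss
      have : n = n' := by linarith
      rw [this]
    · exfalso
      obtain ⟨h1a, h1b, P, hPi, hPd, hPh, hPs⟩ := hB n h1.1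
      obtain ⟨h2a, h2b, Q, hQi, hQd, hQh, hQs⟩ := hB n' h2.1
      have hnn : θ + (n : ℝ) / (p : ℝ) ^ A = θ + (n' : ℝ) / (p : ℝ) ^ A +
          (((s' : ℤ) - (s : ℤ) : ℤ) : ℝ) / (p : ℝ) ^ e := by
        have : (n : ℝ) = n' + ((s' : ℝ) - s) * (p : ℝ) ^ (A - e) := by
          have : (n : ℤ) = n' + ((s' : ℤ) - s) * (p : ℤ) ^ (A - e) := by linarith
          exact_mod_cast this
        rw [this, hsplit]
        push_cast
        field_simp
        ring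
      rw [hnn] at hPs
      have habs : |(((s' : ℤ) - (s : ℤ) : ℤ))| < (L : ℤ) := by
        rw [abs_lt]; constructor <;> omega
      refine shift_pair m p hp e ((s' : ℤ) - s) ?_ ?_ H hH _ δ ?_ P Q hPi hQi hPd hQd hPh hQh
        hQs hPs hnum
      · intro hd
        have hne : ((s' : ℤ) - s) ≠ 0 := by omega
        have h3 := Int.le_of_dvd (abs_pos.mpr hne) ((dvd_abs _ _).mpr hd)
        have h4 : (L : ℤ) ≤ p := by exact_mod_cast hL
        omega
      · have h5 : |((((s' : ℤ) - (s : ℤ) : ℤ)) : ℝ)| < (L : ℝ) := by exact_mod_cast habs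
        have h6 : (L : ℝ) ≤ (p : ℝ) ^ e := by exact_mod_cast hLe
        linarith
      · rw [abs_le]; constructor <;> linarith
  have hcard : ((B ×ˢ Finset.range L).image F).card = B.card * L := by
    rw [Finset.card_image_of_injOn hinj, Finset.card_product, Finset.card_range]
  have hbound := card_le_of_mem_interval ((B ×ˢ Finset.range L).image F)
    ((p : ℝ) ^ A * (a - θ)) ((p : ℝ) ^ A * (a - θ + w + L / (p : ℝ) ^ e))
    (by
      have : (0 : ℝ) ≤ (p : ℝ) ^ A * (w + L / (p : ℝ) ^ e) := by positivity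
      nlinarith) (by
      intro q hq
      rw [Finset.mem_image] at hq
      obtain ⟨⟨n, s⟩, hns, rfl⟩ := hq
      rw [Finset.mem_product, Finset.mem_range] at hns
      obtain ⟨h1, h2⟩ := hns
      simp only at h1 h2
      obtain ⟨h1a, h1b, _⟩ := hB n h1
      have h1a' : a - θ ≤ (n : ℝ) / (p : ℝ) ^ A := by linarith
      have h1b' : (n : ℝ) / (p : ℝ) ^ A ≤ a - θ + w := by linarith
      rw [le_div_iff₀ hA0] at h1a'
      rw [div_le_iff₀ hA0] at h1b'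
      simp only [hF]
      push_cast
      have hs0 : (0 : ℝ) ≤ (s : ℝ) * (p : ℝ) ^ (A - e) := by positivity
      have hs1 : (s : ℝ) * (p : ℝ) ^ (A - e) ≤ (p : ℝ) ^ A * (L / (p : ℝ) ^ e) := by
        have : (p : ℝ) ^ A * (L / (p : ℝ) ^ e) = L * (p : ℝ) ^ (A - e) := by
          rw [hsplit]; field_simp
        rw [this]
        have : (s : ℝ) ≤ L := by exact_mod_cast h2.le
        gcongr
      constructor <;> nlinarith)
  rw [hcard] at hbound
  push_cast at hbound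
  linarith

/-- The constant needed for the shift method in degree `m`. -/
noncomputable def Sc (m : ℕ) : ℝ :=
  ((2 * m).factorial : ℝ) * ((m : ℝ) + 1) ^ (2 * m - 1) * (2 ^ m) ^ (2 * m - 1)

theorem Sc_nonneg (m : ℕ) : 0 ≤ Sc m := by unfold Sc; positivity

/-- Numerical verification for the level `h` of the shift regime. -/
theorem shift_num (m p h : ℕ) (hm : 1 ≤ m) (hp : 2 ≤ p) (hh : 2 * m + 2 ≤ h) (hSc : Sc m < p) :
    (p ^ (h + 1)) ^ 2 < (p ^ (2 * (h + 1) / m + 1)) ^ m ∧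
    ((2 * m).factorial : ℝ) * (((m : ℝ) + 1) * ((p ^ (h + 1) : ℕ) : ℝ) *
      (2 * (p : ℝ) ^ (2 * (h + 1) / m + 1)) ^ m) ^ (2 * m - 1) *
      (((p : ℝ) ^ (2 * (h + 1) / m + 1)) ^ m * (1 / (p : ℝ) ^ (10 * (m + 1) * h))) < 1 := by
  set e := 2 * (h + 1) / m + 1 with he
  have hp1 : (1 : ℝ) < p := by exact_mod_cast (by omega : 1 < p)
  have hp0 : (0 : ℝ) < p := by linarith
  have he1 : 2 * (h + 1) < e * m := by
    have := Nat.lt_mul_div_succ (2 * (h + 1)) (by omega : 0 < m)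
    calc 2 * (h + 1) < m * (2 * (h + 1) / m + 1) := this
      _ = e * m := by rw [he, Nat.mul_comm m]
  have he2 : e * m ≤ 2 * (h + 1) + m := by
    have : 2 * (h + 1) / m * m ≤ 2 * (h + 1) := Nat.div_mul_le_self _ _
    rw [he, add_mul, one_mul]
    omega
  refine ⟨?_, ?_⟩
  · rw [← pow_mul, ← pow_mul]
    apply Nat.pow_lt_pow_right (by omega)
    omega
  · have hexp : (h + 1) * (2 * m - 1) + (e * m) * (2 * m) + 1 ≤ 10 * (m + 1) * h := by
      calc (h + 1) * (2 * m - 1) + (e * m) * (2 * m) + 1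
          ≤ (h + 1) * (2 * m) + (2 * (h + 1) + m) * (2 * m) + 1 := by
            gcongr
            omega
        _ ≤ 10 * (m + 1) * h := by nlinarith
    have hlhs : ((2 * m).factorial : ℝ) * (((m : ℝ) + 1) * ((p ^ (h + 1) : ℕ) : ℝ) *
      (2 * (p : ℝ) ^ e) ^ m) ^ (2 * m - 1) *
      (((p : ℝ) ^ e) ^ m * (1 / (p : ℝ) ^ (10 * (m + 1) * h)))
        = Sc m * (p : ℝ) ^ ((h + 1) * (2 * m - 1) + (e * m) * (2 * m)) /
          (p : ℝ) ^ (10 * (m + 1) * h) := by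
      have e3 : (p : ℝ) ^ ((h + 1) * (2 * m - 1) + (e * m) * (2 * m)) =
          ((p : ℝ) ^ (h + 1)) ^ (2 * m - 1) * (((p : ℝ) ^ e) ^ m) ^ (2 * m - 1) *
            ((p : ℝ) ^ e) ^ m := by
        have e4 : (((p : ℝ) ^ e) ^ m) ^ (2 * m) =
            (((p : ℝ) ^ e) ^ m) ^ (2 * m - 1) * ((p : ℝ) ^ e) ^ m := by
          rw [← pow_succ]; congr 1; omega
        rw [pow_add, pow_mul (p : ℝ) (h + 1), pow_mul (p : ℝ) (e * m), pow_mul (p : ℝ) e m, e4,
          mul_assoc]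
      rw [e3, Sc]
      push_cast
      rw [mul_pow, mul_pow, mul_pow 2 ((p : ℝ) ^ e), mul_pow]
      field_simp
    rw [hlhs, div_lt_one (by positivity)]
    calc Sc m * (p : ℝ) ^ ((h + 1) * (2 * m - 1) + (e * m) * (2 * m))
        < p * (p : ℝ) ^ ((h + 1) * (2 * m - 1) + (e * m) * (2 * m)) := by
          have : (0 : ℝ) < (p : ℝ) ^ ((h + 1) * (2 * m - 1) + (e * m) * (2 * m)) := by positivity
          exact mul_lt_mul_of_pos_right hSc this
      _ = (p : ℝ) ^ ((h + 1) * (2 * m - 1) + (e * m) * (2 * m) + 1) := by ring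
      _ ≤ _ := pow_le_pow_right₀ hp1.le hexp

/-- Shift regime count: points where some irreducible `P` of degree `m` and height in
`[p^h, p^(h+1))` is very small. -/
theorem shift_count (θ : ℝ) (m p h A L : ℕ) (hm : 1 ≤ m) (hp : p.Prime) (hh : 2 * m + 2 ≤ h)
    (hSc : Sc m < p) (hA6 : 6 ≤ A) (hhA : 4 * h ≤ A * m) (hL : L ≤ p) (a w : ℝ) (ha : 0 ≤ a)
    (hw : 0 < w) (haw : a + w ≤ 1) (hLw : (L : ℝ) ≤ w * p)
    (B : Finset ℤ)
    (hB : ∀ n ∈ B, a ≤ θ + (n : ℝ) / (p : ℝ) ^ A ∧ θ + (n : ℝ) / (p : ℝ) ^ A ≤ a + w ∧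
      ∃ P : ℤ[X], IrrQ P ∧ P.natDegree = m ∧ ht P ≤ p ^ (h + 1) ∧
        |aeval (θ + (n : ℝ) / (p : ℝ) ^ A) P| ≤ 1 / (p : ℝ) ^ (10 * (m + 1) * h)) :
    (B.card : ℝ) * L ≤ 2 * w * (p : ℝ) ^ A + 1 := by
  obtain ⟨h1, h2⟩ := shift_num m p h hm hp.two_le hh hSc
  set e := 2 * (h + 1) / m + 1 with he
  have heA : e ≤ A := by
    have h3 : 2 * (h + 1) / m ≤ A - 1 := by
      apply Nat.div_le_of_le_mul
      obtain ⟨A', rfl⟩ : ∃ A', A = A' + 6 := ⟨A - 6, by omega⟩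
      have : A' + 6 - 1 = A' + 5 := by omega
      rw [this]
      nlinarith
    omega
  have hp0 : (0 : ℝ) < p := by exact_mod_cast hp.pos
  have hp1 : (1 : ℝ) ≤ p := by exact_mod_cast hp.one_lt.le
  have he0 : e ≠ 0 := Nat.succ_ne_zero _
  have hLe : L ≤ p ^ e := hL.trans (Nat.le_self_pow he0 p)
  have key := card_shift_bad' θ m p e A L hp heA hL hLe _ h1 _ h2 a w ha hw.le haw B hB
  refine key.trans ?_
  have hpe : (0 : ℝ) < (p : ℝ) ^ e := by positivity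
  have h5 : (L : ℝ) / (p : ℝ) ^ e ≤ w := by
    rw [div_le_iff₀ hpe]
    have : (p : ℝ) ≤ (p : ℝ) ^ e := le_self_pow₀ hp1 he0
    calc (L : ℝ) ≤ w * p := hLw
      _ ≤ w * (p : ℝ) ^ e := by gcongr
  have h6 : (0 : ℝ) < (p : ℝ) ^ A := by positivity
  nlinarith

end Pool.Agent.Helper35
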