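import Mathlib
import Pool.Agent.Helper35.MeasOne

set_option autoImplicit false

namespace Pool.Agent.Helper35

open Polynomial

/-- A real algebraic number `θ ∈ [0,1]` of degree `d`, with minimal polynomial `T`, which is badly
approximable by algebraic numbers in a strong sense (`r` controls the linear measure). -/
structure ThetaData (d r : ℕ) where
  θ : ℝ
  T : ℤ[X]
  nonneg : 0 ≤ θ
  le_one : θ ≤ 1
  irr : IrrQ T
  prim : T.IsPrimitive
  deg : T.natDegree = d
  root : aeval θ T = 0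
  meas : ∀ m : ℕ, 1 ≤ m → ∃ c : ℝ, 0 < c ∧ ∀ P : ℤ[X], IrrQ P → P.natDegree = m →
    aeval θ P ≠ 0 → c ≤ |aeval θ P| * (ht P : ℝ) ^ (4 * m + 4)
  meas_lin : ∃ c : ℝ, 0 < c ∧ ∀ P : ℤ[X], IrrQ P → P.natDegree = 1 →
    aeval θ P ≠ 0 → c ≤ |aeval θ P| ^ r * (ht P : ℝ) ^ (r + 1)

/-- Liouville measure. -/
theorem liouville_meas (θ : ℝ) (hθ : |θ| ≤ 1) (T : ℤ[X]) (hT : IrrQ T) (hroot : aeval θ T = 0)
    (m e : ℕ) (hm : 1 ≤ m) (he : T.natDegree - 1 ≤ e) :
    ∃ c : ℝ, 0 < c ∧ ∀ P : ℤ[X], IrrQ P → P.natDegree = m →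
      aeval θ P ≠ 0 → c ≤ |aeval θ P| * (ht P : ℝ) ^ e := by
  set d := T.natDegree with hd
  have hd1 : 1 ≤ d := hT.natDegree_pos
  have hT1 : (1 : ℝ) ≤ ht T := by exact_mod_cast ht_pos hT.ne_zero
  set D : ℝ := ((m + d).factorial : ℝ) * (ht T : ℝ) ^ m with hD
  have hDpos : 0 < D := by rw [hD]; positivity
  refine ⟨1 / D, by positivity, fun P hP hPd hne => ?_⟩
  have hH1 : (1 : ℝ) ≤ ht P := by exact_mod_cast ht_pos hP.ne_zero
  rw [div_le_iff₀ hDpos]
  have hcop : IsCoprime (P.map (Int.castRingHom ℚ)) (T.map (Int.castRingHom ℚ)) := by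
    by_contra hnc
    obtain ⟨g, P0, R, hg, hPg, hTR, hP00, hR0⟩ := exists_prim_dvd P T hP hT.ne_zero hnc
    -- T irreducible over ℚ, P0 nonconstant divides T so R constant
    have hP0d : 0 < P0.natDegree := by
      have : P.natDegree = P0.natDegree := by rw [hPg, natDegree_C_mul hg]
      have := hP.natDegree_pos
      omega
    have hmap : T.map (Int.castRingHom ℚ) = P0.map (Int.castRingHom ℚ) *
        R.map (Int.castRingHom ℚ) := by rw [hTR, Polynomial.map_mul]
    have hRu : IsUnit (R.map (Int.castRingHom ℚ)) := by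
      rcases hT.isUnit_or_isUnit hmap with h | h
      · exfalso
        have := natDegree_eq_zero_of_isUnit h
        rw [IrrQ.natDegree_map] at this
        omega
      · exact h
    have hRd : R.natDegree = 0 := by
      have := natDegree_eq_zero_of_isUnit hRu
      rwa [IrrQ.natDegree_map] at this
    obtain ⟨s, rfl⟩ : ∃ s, R = C s := ⟨_, eq_C_of_natDegree_eq_zero hRd⟩
    have hs : s ≠ 0 := by rintro rfl; simp at hR0
    apply hne
    rw [hPg, map_mul]
    have h0 : aeval θ P0 * ((s : ℤ) : ℝ) = 0 := by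
      have := hroot
      rw [hTR, map_mul, aeval_C] at this
      simpa using this
    rcases mul_eq_zero.mp h0 with h | h
    · rw [h, mul_zero]
    · exact absurd h (by exact_mod_cast hs)
  have key := one_le_res2 P T hcop (by omega) θ hθ (ht P) (ht T) (|aeval θ P| / ht P)
    (by linarith) (by linarith) (fun i => abs_coeff_le_ht P i) (fun i => abs_coeff_le_ht T i)
    (by rw [mul_div_cancel₀ _ (by positivity)])
    (by rw [hroot, abs_zero]; positivity)
  rw [hPd, ← hd] at key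
  have e1 : (ht P : ℝ) ^ d = (ht P : ℝ) ^ (d - 1) * ht P := by
    rw [← pow_succ]; congr 1; omega
  have key2 : 1 ≤ |aeval θ P| * (ht P : ℝ) ^ (d - 1) * D := by
    have : ((m + d).factorial : ℝ) * ((ht P : ℝ) ^ d * (ht T : ℝ) ^ m) * (|aeval θ P| / ht P) =
        |aeval θ P| * (ht P : ℝ) ^ (d - 1) * D := by
      rw [e1, hD]; field_simp
    rw [this] at key
    exact key
  refine key2.trans ?_
  have h5 : (ht P : ℝ) ^ (d - 1) ≤ (ht P : ℝ) ^ e := pow_le_pow_right₀ hH1 he
  gcongr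

theorem theta_one (r : ℕ) : Nonempty (ThetaData 1 r) := by
  refine ⟨⟨0, X, le_rfl, zero_le_one, ?_, ?_, natDegree_X, by simp, ?_, ?_⟩⟩
  · unfold IrrQ
    rw [map_X]
    exact irreducible_X
  · exact monic_X.isPrimitive
  · intro m hm
    refine ⟨1, one_pos, fun P hP hPd hne => ?_⟩
    have hH1 : (1 : ℝ) ≤ ht P := by exact_mod_cast ht_pos hP.ne_zero
    have h1 : (1 : ℝ) ≤ |aeval (0 : ℝ) P| := by
      have e : aeval (0 : ℝ) P = ((P.coeff 0 : ℤ) : ℝ) := by
        rw [← coeff_zero_eq_aeval_zero' P]; simp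
      rw [e] at hne ⊢
      exact_mod_cast Int.one_le_abs (by exact_mod_cast hne)
    have h2 : (1 : ℝ) ≤ (ht P : ℝ) ^ (4 * m + 4) := one_le_pow₀ hH1
    nlinarith
  · refine ⟨1, one_pos, fun P hP hPd hne => ?_⟩
    have hH1 : (1 : ℝ) ≤ ht P := by exact_mod_cast ht_pos hP.ne_zero
    have h1 : (1 : ℝ) ≤ |aeval (0 : ℝ) P| := by
      have e : aeval (0 : ℝ) P = ((P.coeff 0 : ℤ) : ℝ) := by
        rw [← coeff_zero_eq_aeval_zero' P]; simp
      rw [e] at hne ⊢
      exact_mod_cast Int.one_le_abs (by exact_mod_cast hne)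
    have h2 : (1 : ℝ) ≤ (ht P : ℝ) ^ (r + 1) := one_le_pow₀ hH1
    have h3 : (1 : ℝ) ≤ |aeval (0 : ℝ) P| ^ r := one_le_pow₀ h1
    nlinarith

theorem theta_exists (d r : ℕ) (hd : 1 ≤ d) (hr : 1 ≤ r) : Nonempty (ThetaData d r) := by
  classical
  rcases Nat.lt_or_ge d 2 with h | h
  · have : d = 1 := by omega
    subst this
    exact theta_one r
  -- constants for all K
  have hpade : ∀ K : ℕ, ∃ Cc : ℝ, 1 ≤ Cc ∧ (2 ≤ K → K ≤ d → ∀ M : ℕ, 1 ≤ M →
    ∀ n : ℕ, 1 ≤ n → ∃ Q : ℤ[X], Q.natDegree ≤ K - 1 ∧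
      (∀ i, |(Q.coeff i : ℝ)| ≤ (Cc * M) ^ n) ∧
      1 ≤ |aeval (((M : ℝ) / (M + 1)) ^ ((1 : ℝ) / d)) Q| * (Cc * (M : ℝ) ^ (K - 1)) ^ n ∧
      |aeval (((M : ℝ) / (M + 1)) ^ ((1 : ℝ) / d)) Q| * ((M : ℝ) ^ (K - 1)) ^ n ≤ Cc ^ n) := by
    intro K
    by_cases hK : 2 ≤ K ∧ K ≤ d
    · obtain ⟨Cc, h1, h2⟩ := PadeJob.pade K d hK.1 hK.2
      exact ⟨Cc, h1, fun _ _ => h2⟩
    · exact ⟨1, le_rfl, fun h1 h2 => absurd ⟨h1, h2⟩ hK⟩
  choose Cc hC1 hCc using hpade
  obtain ⟨M, hMbig, hMp⟩ := Nat.exists_infinite_primes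
    (⌈∑ K ∈ Finset.range (d + 1), (Cc K ^ (K + 2) + Cc K ^ (4 * r + 1))⌉₊ + 2)
  have hM2 : 2 ≤ M := by omega
  have hM1 : 1 ≤ M := by omega
  have hMr : (2 : ℝ) ≤ M := by exact_mod_cast hM2
  have hMsum : ∑ K ∈ Finset.range (d + 1), (Cc K ^ (K + 2) + Cc K ^ (4 * r + 1)) ≤ M := by
    refine (Nat.le_ceil _).trans ?_
    exact_mod_cast (by omega : ⌈∑ K ∈ Finset.range (d + 1),
      (Cc K ^ (K + 2) + Cc K ^ (4 * r + 1))⌉₊ ≤ M)
  have hMK : ∀ K, K ≤ d → Cc K ^ (K + 2) + Cc K ^ (4 * r + 1) ≤ M := by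
    intro K hK
    refine le_trans ?_ hMsum
    exact Finset.single_le_sum (f := fun K => Cc K ^ (K + 2) + Cc K ^ (4 * r + 1))
      (fun i _ => by
        have := hC1 i
        positivity) (Finset.mem_range.mpr (by omega))
  set θ : ℝ := ((M : ℝ) / (M + 1)) ^ ((1 : ℝ) / d) with hθ
  have hbase0 : (0 : ℝ) < (M : ℝ) / (M + 1) := by positivity
  have hbase1 : (M : ℝ) / (M + 1) ≤ 1 := by
    rw [div_le_one (by positivity)]; linarith
  have hθ0 : 0 ≤ θ := by rw [hθ]; positivity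
  have hθ1 : θ ≤ 1 := by
    rw [hθ]
    exact Real.rpow_le_one hbase0.le hbase1 (by positivity)
  have hθabs : |θ| ≤ 1 := by rw [abs_of_nonneg hθ0]; exact hθ1
  have hθd : θ ^ d = (M : ℝ) / (M + 1) := by
    rw [hθ, ← Real.rpow_natCast, ← Real.rpow_mul hbase0.le]
    have : (1 : ℝ) / d * (d : ℕ) = 1 := by field_simp
    rw [this, Real.rpow_one]
  set T : ℤ[X] := C ((M : ℤ) + 1) * X ^ d - C (M : ℤ) with hT
  have hM10 : ((M : ℤ) + 1) ≠ 0 := by omega
  have hcoeff : ∀ i, T.coeff i = (if i = d then ((M : ℤ) + 1) else 0) - (if i = 0 then (M : ℤ) else 0) := by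
    intro i
    rw [hT, coeff_sub, coeff_C_mul, coeff_X_pow, coeff_C]
    split_ifs <;> simp
  have hTdeg : T.natDegree = d := by
    apply le_antisymm
    · rw [natDegree_le_iff_coeff_eq_zero]
      intro i hi
      rw [hcoeff]
      have h1 : i ≠ d := by omega
      have h2 : i ≠ 0 := by omega
      simp [h1, h2]
    · apply le_natDegree_of_ne_zero
      rw [hcoeff]
      have h2 : d ≠ 0 := by omega
      simp [h2]
      exact hM10
  have hT0 : T ≠ 0 := by
    rintro h0
    rw [h0, natDegree_zero] at hTdeg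
    omega
  have hlead : T.leadingCoeff = (M : ℤ) + 1 := by
    rw [leadingCoeff, hTdeg, hcoeff]
    have h2 : d ≠ 0 := by omega
    simp [h2]
  have hprim : T.IsPrimitive := by
    intro a ha
    rw [C_dvd_iff_dvd_coeff] at ha
    have h1 := ha d
    have h0 := ha 0
    rw [hcoeff] at h1 h0
    have hd0 : d ≠ 0 := by omega
    have hd0' : (0 : ℕ) ≠ d := by omega
    simp only [hd0, hd0', if_true, if_false, sub_zero, zero_sub, dvd_neg] at h1 h0
    have h3 : a ∣ 1 := by
      have := dvd_sub h1 h0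
      simpa using this
    exact isUnit_of_dvd_one h3
  have hMprime : Prime (M : ℤ) := Nat.prime_iff_prime_int.mp hMp
  have hirrZ : Irreducible T := by
    apply irreducible_of_eisenstein_criterion (P := Ideal.span {(M : ℤ)})
    · rw [Ideal.span_singleton_prime (by exact_mod_cast hMp.ne_zero)]
      exact hMprime
    · rw [hlead, Ideal.mem_span_singleton]
      intro hdvd
      have h3 : (M : ℤ) ∣ 1 := by
        have := dvd_sub hdvd (dvd_refl (M : ℤ))
        simpa using this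
      have := Int.le_of_dvd one_pos h3
      omega
    · intro i hi
      rw [Ideal.mem_span_singleton, hcoeff]
      have h1 : i ≠ d := by
        rintro rfl
        rw [degree_eq_natDegree hT0, hTdeg] at hi
        exact lt_irrefl _ hi
      simp only [h1, if_false, zero_sub, dvd_neg]
      split_ifs
      · exact dvd_refl _
      · exact dvd_zero _
    · rw [degree_eq_natDegree hT0, hTdeg]
      exact_mod_cast (by omega : 0 < d)
    · rw [Ideal.span_singleton_pow, Ideal.mem_span_singleton, hcoeff]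
      have hd0' : (0 : ℕ) ≠ d := by omega
      simp only [hd0', if_true, if_false, zero_sub, dvd_neg]
      intro hdvd
      have := Int.le_of_dvd (by omega) hdvd
      nlinarith
    · exact hprim
  have hirr : IrrQ T := (IsPrimitive.Int.irreducible_iff_irreducible_map_cast hprim).mp hirrZ
  have hroot : aeval θ T = 0 := by
    rw [hT, map_sub, map_mul, map_pow, aeval_X, aeval_C, aeval_C, hθd]
    simp only [algebraMap_int_eq, eq_intCast]
    push_cast
    field_simp
    ring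
  refine ⟨⟨θ, T, hθ0, hθ1, hirr, hprim, hTdeg, hroot, ?_, ?_⟩⟩
  · intro m hm
    by_cases hmd : 2 * m + 1 ≤ d
    · obtain ⟨c, hc, hcc⟩ := meas_of_pade m hm θ hθ0 hθ1 (Cc (2 * m + 1)) (hC1 _) M hM2 (by
        have h1 := hMK (2 * m + 1) hmd
        have h2 : Cc (2 * m + 1) ^ (m + 1) ≤ Cc (2 * m + 1) ^ (2 * m + 1 + 2) :=
          pow_le_pow_right₀ (hC1 _) (by omega)
        have h3 : 0 ≤ Cc (2 * m + 1) ^ (4 * r + 1) := by
          have := hC1 (2 * m + 1)
          positivity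
        linarith) (by
        intro n hn
        have := hCc (2 * m + 1) (by omega) hmd M hM1 n hn
        rw [← hθ] at this
        simpa using this)
      exact ⟨c, hc, fun P h1 h2 _ => hcc P h1 h2⟩
    · exact liouville_meas θ hθabs T hirr hroot m (4 * m + 4) hm (by omega)
  · obtain ⟨c, hc, hcc⟩ := meas_one r hr θ hθ0 hθ1 (Cc 2) (hC1 _) M hM2 (by
      have h1 := hMK 2 h
      have h3 : 0 ≤ Cc 2 ^ (2 + 2) := by
        have := hC1 2
        positivity
      linarith) (by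
      intro n hn
      have := hCc 2 le_rfl h M hM1 n hn
      rw [← hθ] at this
      simpa using this)
    exact ⟨c, hc, fun P h1 h2 _ => hcc P h1 h2⟩

end Pool.Agent.Helper35
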