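import Mathlib
import Pool.Agent.Helper35.TShift
import Pool.Agent.Helper35.Theta

set_option autoImplicit false

namespace Pool.Agent.Helper35

open Polynomial

/-- The measure of `θ` transferred to the translate `θ + n/N`. -/
theorem theta_regime {d r0 : ℕ} (D : ThetaData d r0) (m : ℕ) (hm : 1 ≤ m) :
    ∃ C1 : ℝ, 1 ≤ C1 ∧ ∀ (N : ℕ) (n : ℤ), 1 ≤ N → |D.θ + (n : ℝ) / N| ≤ 1 →
      ∀ P : ℤ[X], IrrQ P → P.natDegree = m → aeval (D.θ + (n : ℝ) / N) P ≠ 0 →
        1 ≤ C1 * (|aeval (D.θ + (n : ℝ) / N) P| * (ht P : ℝ) ^ (4 * m + 4) *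
          (N : ℝ) ^ (m * (4 * m + 5))) := by
  obtain ⟨c, hc, hcc⟩ := D.meas m hm
  set K : ℝ := (((m : ℝ) + 1) * 3 ^ m) ^ (4 * m + 4) with hK
  have hK0 : 0 < K := by rw [hK]; positivity
  refine ⟨max 1 (K / c), le_max_left _ _, fun N n hN hα P hP hPd hne => ?_⟩
  have hNr : (1 : ℝ) ≤ N := by exact_mod_cast hN
  have hN0 : (N : ℤ) ≠ 0 := by exact_mod_cast (by omega : N ≠ 0)
  set P' := shf P N n with hP'
  have hev : aeval D.θ P' = (N : ℝ) ^ m * aeval (D.θ + (n : ℝ) / N) P := by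
    rw [hP', shf_aeval P N n hN0, hPd]; push_cast; rfl
  have hne' : aeval D.θ P' ≠ 0 := by
    rw [hev]; exact mul_ne_zero (by positivity) hne
  have h1 := hcc P' (shf_irr P N n hN0 hP) (by rw [hP', shf_natDegree _ _ _ hN0, hPd]) hne'
  have hn2 : |(n : ℝ)| ≤ 2 * N := by
    have h2 : |(n : ℝ) / N| ≤ 2 := by
      have h3 : |(n : ℝ) / N| ≤ |D.θ + (n : ℝ) / N| + |D.θ| := by
        have := abs_sub (D.θ + (n : ℝ) / N) D.θ
        rwa [add_sub_cancel_left] at this
      have h4 : |D.θ| ≤ 1 := by rw [abs_of_nonneg D.nonneg]; exact D.le_one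
      linarith
    rw [abs_div, abs_of_nonneg (by positivity : (0 : ℝ) ≤ N), div_le_iff₀ (by linarith)] at h2
    exact h2
  have hht : (ht P' : ℝ) ≤ ((m : ℝ) + 1) * ht P * (3 * N) ^ m := by
    apply ht_le_of_real P' (by intro h0; rw [h0] at hne'; simp at hne')
    intro i
    have := shf_coeff P N n i (3 * N) (by
      push_cast
      rw [abs_of_nonneg (by positivity : (0 : ℝ) ≤ N)]; linarith)
    rw [hPd] at this
    exact this
  have hH1 : (1 : ℝ) ≤ ht P := by exact_mod_cast ht_pos hP.ne_zero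
  have h2 : c ≤ K * (|aeval (D.θ + (n : ℝ) / N) P| * (ht P : ℝ) ^ (4 * m + 4) *
          (N : ℝ) ^ (m * (4 * m + 5))) := by
    calc c ≤ |aeval D.θ P'| * (ht P' : ℝ) ^ (4 * m + 4) := h1
      _ ≤ |aeval D.θ P'| * (((m : ℝ) + 1) * ht P * (3 * N) ^ m) ^ (4 * m + 4) := by gcongr
      _ = _ := by
          rw [hev, abs_mul, abs_of_nonneg (by positivity : (0 : ℝ) ≤ (N : ℝ) ^ m), hK,
            mul_pow 3 (N : ℝ) m, mul_pow, mul_pow, mul_pow, mul_pow]
          have e1 : (N : ℝ) ^ (m * (4 * m + 5)) = (N : ℝ) ^ m * ((N : ℝ) ^ m) ^ (4 * m + 4) := by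
            rw [← pow_mul, ← pow_add]; congr 1; ring
          rw [e1]; ring
  have h3 : 1 ≤ (K / c) * (|aeval (D.θ + (n : ℝ) / N) P| * (ht P : ℝ) ^ (4 * m + 4) *
          (N : ℝ) ^ (m * (4 * m + 5))) := by
    rw [div_mul_eq_mul_div, le_div_iff₀ hc, one_mul]; exact h2
  refine h3.trans ?_
  have : 0 ≤ |aeval (D.θ + (n : ℝ) / N) P| * (ht P : ℝ) ^ (4 * m + 4) *
          (N : ℝ) ^ (m * (4 * m + 5)) := by positivity
  exact mul_le_mul_of_nonneg_right (le_max_right _ _) this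

theorem shf_shf (T : ℤ[X]) (D s : ℤ) (hD : D ≠ 0) :
    shf (shf T D s) D (-s) = C (D ^ (2 * T.natDegree)) * T := by
  have hinj : Function.Injective (Int.castRingHom ℚ) := RingHom.injective_int _
  apply Polynomial.map_injective _ hinj
  have hDq : (D : ℚ) ≠ 0 := by exact_mod_cast hD
  rw [shf_map _ _ _ hD, shf_natDegree _ _ _ hD, shf_map _ _ _ hD, mul_comp, C_comp, comp_assoc]
  have e1 : (X + C ((s : ℚ) / D) : ℚ[X]).comp (X + C (((-s : ℤ) : ℚ) / D)) = X := by
    rw [add_comp, X_comp, C_comp, add_assoc, ← C_add]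
    have : ((-s : ℤ) : ℚ) / D + (s : ℚ) / D = 0 := by push_cast; ring
    rw [this, C_0, add_zero]
  rw [e1, comp_X, ← mul_assoc, ← C_mul, Polynomial.map_mul, map_C]
  congr 2
  simp only [eq_intCast]
  push_cast
  ring

theorem shf_prim (T : ℤ[X]) (hT : T.IsPrimitive) (p : ℕ) (hp : p.Prime) (A : ℕ) (hA : 1 ≤ A)
    (s : ℤ) (hs : ¬ (p : ℤ) ∣ s) (hlead : ¬ (p : ℤ) ∣ T.leadingCoeff) :
    (shf T ((p : ℤ) ^ A) s).IsPrimitive := by
  set D : ℤ := (p : ℤ) ^ A with hD
  have hD0 : D ≠ 0 := pow_ne_zero _ (by exact_mod_cast hp.ne_zero)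
  intro r hr
  by_contra hru
  have hr0 : r ≠ 0 := by
    rintro rfl
    rw [C_0, zero_dvd_iff] at hr
    have h1 := shf_shf T D s hD0
    rw [hr] at h1
    have h2 : shf (0 : ℤ[X]) D (-s) = 0 := by
      unfold shf
      simp
    rw [h2] at h1
    have h3 : T ≠ 0 := hT.ne_zero
    exact (mul_ne_zero (by rw [Ne, C_eq_zero]; exact pow_ne_zero _ hD0) h3) h1.symm
  obtain ⟨q, hq, hqr⟩ := WfDvdMonoid.exists_irreducible_factor hru hr0
  have hqp : Prime q := hq.prime
  have hqS : ∀ i, q ∣ (shf T D s).coeff i := by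
    intro i
    rw [C_dvd_iff_dvd_coeff] at hr
    exact hqr.trans (hr i)
  have hpp : Prime (p : ℤ) := Nat.prime_iff_prime_int.mp hp
  by_cases hqpd : q ∣ (p : ℤ)
  · -- q = ± p
    have hassoc : (p : ℤ) ∣ q := by
      have := (hq.dvd_symm hpp.irreducible hqpd)
      exact this
    have h0 := hassoc.trans (hqS 0)
    have e0 : (shf T D s).coeff 0 = ∑ j ∈ Finset.range (T.natDegree + 1),
        T.coeff j * D ^ (T.natDegree - j) * s ^ j := by
      rw [shf, finsetSum_coeff]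
      refine Finset.sum_congr rfl (fun j _ => ?_)
      rw [coeff_C_mul]
      congr 1
      rw [coeff_zero_eq_eval_zero]
      simp
    rw [e0, Finset.sum_range_succ] at h0
    have h1 : (p : ℤ) ∣ ∑ j ∈ Finset.range T.natDegree,
        T.coeff j * D ^ (T.natDegree - j) * s ^ j := by
      apply Finset.dvd_sum
      intro j hj
      have hj' := Finset.mem_range.mp hj
      have h2 : (p : ℤ) ∣ D ^ (T.natDegree - j) :=
        (dvd_pow_self (p : ℤ) (by omega : A ≠ 0)).trans (dvd_pow_self D (by omega))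
      exact Dvd.dvd.mul_right (Dvd.dvd.mul_left h2 _) _
    have h3 := (Int.dvd_iff_dvd_of_dvd_add h0).mp h1
    rw [Nat.sub_self, pow_zero, mul_one] at h3
    rcases hpp.dvd_or_dvd h3 with h4 | h4
    · exact hlead h4
    · exact hs (hpp.dvd_of_dvd_pow h4)
  · have h1 : ∀ i, q ∣ (shf (shf T D s) D (-s)).coeff i := by
      rw [← C_dvd_iff_dvd_coeff]
      unfold shf
      apply Finset.dvd_sum
      intro j _
      apply Dvd.dvd.mul_right
      rw [C_mul]
      apply Dvd.dvd.mul_right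
      exact _root_.map_dvd C (hqS j)
    rw [shf_shf T D s hD0] at h1
    apply hq.not_isUnit
    apply hT q
    rw [C_dvd_iff_dvd_coeff]
    intro i
    have h2 := h1 i
    rw [coeff_C_mul] at h2
    rcases hqp.dvd_or_dvd h2 with h3 | h3
    · exfalso
      exact hqpd (hqp.dvd_of_dvd_pow (hqp.dvd_of_dvd_pow h3))
    · exact h3

/-- An irreducible integer polynomial vanishing at a root of a primitive irreducible `S` is an
integer multiple of `S`. -/
theorem eq_C_mul_of_root (S P : ℤ[X]) (hS : IrrQ S) (hSp : S.IsPrimitive) (hP : IrrQ P) (x : ℝ)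
    (hSx : aeval x S = 0) (hPx : aeval x P = 0) : ∃ g : ℤ, g ≠ 0 ∧ P = C g * S := by
  have hnc : ¬ IsCoprime (S.map (Int.castRingHom ℚ)) (P.map (Int.castRingHom ℚ)) := by
    rintro ⟨u, v, huv⟩
    have h1 := congrArg (fun Q : ℚ[X] => aeval x Q) huv
    simp only [map_add, map_mul, map_one] at h1
    have e : ∀ R : ℤ[X], aeval x (R.map (Int.castRingHom ℚ)) = aeval x R := by
      intro R
      have : (Int.castRingHom ℚ) = algebraMap ℤ ℚ := rfl
      rw [this, aeval_map_algebraMap]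
    rw [e, e, hSx, hPx] at h1
    simp at h1
  have hd : (S.map (Int.castRingHom ℚ)) ∣ (P.map (Int.castRingHom ℚ)) :=
    (Irreducible.dvd_iff_not_isCoprime hS).mpr hnc
  have hd2 : S ∣ P := (IsPrimitive.Int.dvd_iff_map_cast_dvd_map_cast _ _ hSp).mpr hd
  obtain ⟨R, hR⟩ := hd2
  have hmap : P.map (Int.castRingHom ℚ) = S.map (Int.castRingHom ℚ) *
      R.map (Int.castRingHom ℚ) := by rw [hR, Polynomial.map_mul]
  have hRu : IsUnit (R.map (Int.castRingHom ℚ)) := by
    rcases hP.isUnit_or_isUnit hmap with h | h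
    · exact absurd h hS.not_isUnit
    · exact h
  have hRd : R.natDegree = 0 := by
    have := natDegree_eq_zero_of_isUnit hRu
    rwa [IrrQ.natDegree_map] at this
  obtain ⟨g, rfl⟩ : ∃ g, R = C g := ⟨_, eq_C_of_natDegree_eq_zero hRd⟩
  refine ⟨g, ?_, by rw [hR, mul_comm]⟩
  rintro rfl
  rw [C_0, mul_zero] at hR
  exact hP.ne_zero hR

end Pool.Agent.Helper35
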