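import Mathlib
import Pool.Agent.Helper35.TBase

set_option autoImplicit false

namespace Pool.Agent.Helper35

open Polynomial

/-- Homogeneous substitution of a linear fractional map in a polynomial of degree at most `m`. -/
noncomputable def mob (P : ℤ[X]) (m : ℕ) (a b c d : ℤ) : ℤ[X] :=
  ∑ j ∈ Finset.range (m + 1), C (P.coeff j) * (C a * X + C b) ^ j * (C c * X + C d) ^ (m - j)

theorem mob_aeval (P : ℤ[X]) (m : ℕ) (a b c d : ℤ) (hm : P.natDegree ≤ m) (x : ℝ)
    (hx : (c : ℝ) * x + d ≠ 0) :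
    aeval x (mob P m a b c d) =
      ((c : ℝ) * x + d) ^ m * aeval (((a : ℝ) * x + b) / ((c : ℝ) * x + d)) P := by
  rw [aeval_eq_sum_range' (Nat.lt_succ_of_le hm) (((a : ℝ) * x + b) / ((c : ℝ) * x + d)), mob,
    map_sum, Finset.mul_sum]
  refine Finset.sum_congr rfl (fun j hj => ?_)
  have hj' : j ≤ m := by
    have := Finset.mem_range.mp hj
    omega
  have hC : ∀ z : ℤ, aeval x (C z : ℤ[X]) = (z : ℝ) := fun z => by simp
  simp only [map_mul, map_pow, map_add, hC, aeval_X, zsmul_eq_mul]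
  obtain ⟨D, hD⟩ : ∃ D : ℝ, D = (c : ℝ) * x + d := ⟨_, rfl⟩
  rw [← hD] at hx ⊢
  have e1 : D ^ m = D ^ j * D ^ (m - j) := by
    rw [← pow_add]; congr 1; omega
  rw [e1, div_pow]
  field_simp

theorem mob_natDegree_le (P : ℤ[X]) (m : ℕ) (a b c d : ℤ) :
    (mob P m a b c d).natDegree ≤ m := by
  unfold mob
  apply natDegree_sum_le_of_forall_le
  intro j hj
  have hj' : j ≤ m := by
    have := Finset.mem_range.mp hj
    omega
  have h1 : ((C a * X + C b : ℤ[X]) ^ j).natDegree ≤ j := by
    refine (natDegree_pow_le).trans ?_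
    calc j * (C a * X + C b : ℤ[X]).natDegree ≤ j * 1 :=
          Nat.mul_le_mul_left _ natDegree_linear_le
      _ = j := mul_one j
  have h2 : ((C c * X + C d : ℤ[X]) ^ (m - j)).natDegree ≤ m - j := by
    refine (natDegree_pow_le).trans ?_
    calc (m - j) * (C c * X + C d : ℤ[X]).natDegree ≤ (m - j) * 1 :=
          Nat.mul_le_mul_left _ natDegree_linear_le
      _ = m - j := mul_one _
  refine (natDegree_mul_le).trans ?_
  have h3 : (C (P.coeff j) * (C a * X + C b : ℤ[X]) ^ j).natDegree ≤ j :=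
    (natDegree_C_mul_le _ _).trans h1
  omega

theorem mob_C_mul (P : ℤ[X]) (m : ℕ) (a b c d r : ℤ) :
    mob (C r * P) m a b c d = C r * mob P m a b c d := by
  unfold mob
  rw [Finset.mul_sum]
  refine Finset.sum_congr rfl (fun j _ => ?_)
  rw [coeff_C_mul, C_mul]
  ring

theorem eq_of_aeval (P Q : ℤ[X]) (S : Set ℝ) (hS : S.Finite)
    (h : ∀ x : ℝ, x ∉ S → aeval x P = aeval x Q) : P = Q := by
  have hinj : Function.Injective (Int.castRingHom ℝ) := RingHom.injective_int _
  apply Polynomial.map_injective _ hinj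
  apply Polynomial.eq_of_infinite_eval_eq
  apply (hS.infinite_compl).mono
  intro x hx
  have h1 := h x hx
  simp only [Set.mem_ofPred_eq, eval_map]
  simpa [aeval_def] using h1

theorem finite_bad (c d : ℤ) (h : c ≠ 0 ∨ d ≠ 0) : {x : ℝ | (c : ℝ) * x + d = 0}.Finite := by
  by_cases hc : c = 0
  · have hd : d ≠ 0 := by
      rcases h with h | h
      · exact absurd hc h
      · exact h
    convert Set.finite_empty
    ext x
    simp only [Set.mem_ofPred_eq, Set.mem_empty_iff_false, iff_false]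
    rw [hc]
    push_cast
    rw [zero_mul, zero_add]
    exact_mod_cast hd
  · apply (Set.finite_singleton (-(d : ℝ) / c)).subset
    intro x hx
    simp only [Set.mem_ofPred_eq] at hx
    have hcr : (c : ℝ) ≠ 0 := by exact_mod_cast hc
    rw [Set.mem_singleton_iff, eq_div_iff hcr]
    linarith

theorem mob_inv (P : ℤ[X]) (m : ℕ) (a b c d : ℤ) (hm : P.natDegree ≤ m)
    (hdet : a * d - b * c = 1) : mob (mob P m a b c d) m d (-b) (-c) a = P := by
  have hne : (-c) ≠ 0 ∨ a ≠ 0 := by
    by_contra hcon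
    push Not at hcon
    obtain ⟨h1, h2⟩ := hcon
    have h3 : c = 0 := by omega
    rw [h2, h3] at hdet
    simp at hdet
  apply eq_of_aeval _ _ _ (finite_bad (-c) a hne)
  intro x hx
  have hx' : (((-c : ℤ)) : ℝ) * x + a ≠ 0 := hx
  rw [mob_aeval _ m _ _ _ _ (mob_natDegree_le _ _ _ _ _ _) x hx']
  have hdetr : (a : ℝ) * d - b * c = 1 := by exact_mod_cast hdet
  obtain ⟨y, hy⟩ : ∃ y : ℝ, y = ((d : ℝ) * x + ((-b : ℤ) : ℝ)) / (((-c : ℤ) : ℝ) * x + a) := ⟨_, rfl⟩
  obtain ⟨D, hD⟩ : ∃ D : ℝ, D = ((-c : ℤ) : ℝ) * x + a := ⟨_, rfl⟩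
  have hD' : D = -(c : ℝ) * x + a := by rw [hD]; push_cast; ring
  have hb' : ((-b : ℤ) : ℝ) = -(b : ℝ) := by push_cast; ring
  have hcy : (c : ℝ) * y + d = 1 / (((-c : ℤ) : ℝ) * x + a) := by
    rw [hy, ← hD, hb']
    rw [← hD] at hx'
    field_simp
    rw [hD']
    linear_combination hdetr
  have hcy0 : (c : ℝ) * y + d ≠ 0 := by rw [hcy]; exact one_div_ne_zero hx'
  have hay : ((a : ℝ) * y + b) / ((c : ℝ) * y + d) = x := by
    rw [hcy, hy, ← hD, hb']
    rw [← hD] at hx'
    field_simp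
    rw [hD']
    linear_combination x * hdetr
  rw [← hy, mob_aeval _ m _ _ _ _ hm y hcy0, hay, hcy, ← mul_assoc, ← mul_pow,
    mul_one_div_cancel hx', one_pow, one_mul]

theorem mob_mul (F G : ℤ[X]) (f g : ℕ) (a b c d : ℤ) (hf : F.natDegree ≤ f)
    (hg : G.natDegree ≤ g) (h : c ≠ 0 ∨ d ≠ 0) :
    mob (F * G) (f + g) a b c d = mob F f a b c d * mob G g a b c d := by
  apply eq_of_aeval _ _ _ (finite_bad c d h)
  intro x hx
  have hx' : (c : ℝ) * x + d ≠ 0 := hx
  rw [mob_aeval _ _ _ _ _ _ (natDegree_mul_le.trans (add_le_add hf hg)) x hx', map_mul,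
    map_mul, mob_aeval _ _ _ _ _ _ hf x hx', mob_aeval _ _ _ _ _ _ hg x hx', pow_add]
  ring

theorem mob_one (a b c d : ℤ) : mob 1 1 a b c d = C c * X + C d := by
  unfold mob
  rw [Finset.sum_range_succ, Finset.sum_range_one]
  have h1 : (1 : ℤ[X]).coeff 0 = 1 := coeff_one_zero
  have h2 : (1 : ℤ[X]).coeff 1 = 0 := by rw [coeff_one]; simp
  rw [h1, h2]
  simp

theorem mob_prim (P : ℤ[X]) (m : ℕ) (a b c d : ℤ) (hm : P.natDegree ≤ m)
    (hdet : a * d - b * c = 1) (hP : P.IsPrimitive) : (mob P m a b c d).IsPrimitive := by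
  intro r hr
  obtain ⟨Q, hQ⟩ := hr
  have h1 := mob_inv P m a b c d hm hdet
  rw [hQ, mob_C_mul] at h1
  exact hP r ⟨_, h1.symm⟩

theorem det_ne (a b c d : ℤ) (hdet : a * d - b * c = 1) : c ≠ 0 ∨ d ≠ 0 := by
  by_contra hcon
  push Not at hcon
  rw [hcon.1, hcon.2] at hdet
  simp at hdet

/-- The degree does not drop for irreducible polynomials of degree at least 2. -/
theorem mob_natDegree (P : ℤ[X]) (m : ℕ) (a b c d : ℤ) (hP : Irreducible P)
    (hm : P.natDegree = m) (h2 : 2 ≤ m) (hdet : a * d - b * c = 1) :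
    (mob P m a b c d).natDegree = m := by
  by_contra hne
  have hle := mob_natDegree_le P m a b c d
  have hlt : (mob P m a b c d).natDegree ≤ m - 1 := by omega
  have h1 := mob_inv P m a b c d hm.le hdet
  have hdet' : d * a - (-b) * (-c) = 1 := by linarith
  have h3 : mob (mob P m a b c d) m d (-b) (-c) a =
      (C (-c) * X + C a) * mob (mob P m a b c d) (m - 1) d (-b) (-c) a := by
    have h4 := mob_mul 1 (mob P m a b c d) 1 (m - 1) d (-b) (-c) a (by simp) hlt
      (det_ne _ _ _ _ hdet')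
    rw [one_mul, mob_one] at h4
    have e : 1 + (m - 1) = m := by omega
    rw [e] at h4
    exact h4
  rw [h1] at h3
  rcases hP.isUnit_or_isUnit h3 with h | h
  · -- then c = 0 and the degree is at most m - 1
    have h5 := natDegree_eq_zero_of_isUnit h
    have h6 := congrArg natDegree h3
    have h7 : P.natDegree ≤ (C (-c) * X + C a : ℤ[X]).natDegree +
        (mob (mob P m a b c d) (m - 1) d (-b) (-c) a).natDegree := by
      rw [h6]; exact natDegree_mul_le
    have h8 := mob_natDegree_le (mob P m a b c d) (m - 1) d (-b) (-c) a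
    omega
  · have h5 := natDegree_eq_zero_of_isUnit h
    have h7 : P.natDegree ≤ (C (-c) * X + C a : ℤ[X]).natDegree +
        (mob (mob P m a b c d) (m - 1) d (-b) (-c) a).natDegree := by
      have h6 := congrArg natDegree h3
      rw [h6]; exact natDegree_mul_le
    have h8 : (C (-c) * X + C a : ℤ[X]).natDegree ≤ 1 := natDegree_linear_le
    omega

theorem mob_irreducible (P : ℤ[X]) (m : ℕ) (a b c d : ℤ) (hP : Irreducible P)
    (hm : P.natDegree = m) (h2 : 2 ≤ m) (hdet : a * d - b * c = 1) :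
    Irreducible (mob P m a b c d) := by
  have hdeg := mob_natDegree P m a b c d hP hm h2 hdet
  have hdet' : d * a - (-b) * (-c) = 1 := by linarith
  have hinv := mob_inv P m a b c d hm.le hdet
  have hM0 : mob P m a b c d ≠ 0 := by
    intro h0
    rw [h0, natDegree_zero] at hdeg
    omega
  constructor
  · intro hu
    have := natDegree_eq_zero_of_isUnit hu
    omega
  · intro F G hFG
    have hF0 : F ≠ 0 := by rintro rfl; rw [zero_mul] at hFG; exact hM0 hFG
    have hG0 : G ≠ 0 := by rintro rfl; rw [mul_zero] at hFG; exact hM0 hFG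
    have hfg : F.natDegree + G.natDegree = m := by
      rw [← natDegree_mul hF0 hG0, ← hFG, hdeg]
    have h3 : P = mob F F.natDegree d (-b) (-c) a * mob G G.natDegree d (-b) (-c) a := by
      rw [← mob_mul F G _ _ d (-b) (-c) a le_rfl le_rfl (det_ne _ _ _ _ hdet'), ← hFG, hfg]
      exact hinv.symm
    have key : ∀ A B : ℤ[X], A.natDegree + B.natDegree = m →
        P = mob A A.natDegree d (-b) (-c) a * mob B B.natDegree d (-b) (-c) a →
        IsUnit (mob A A.natDegree d (-b) (-c) a) → IsUnit A := by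
      intro A B hAB hPAB hu
      have h5 := natDegree_eq_zero_of_isUnit hu
      have h6 : P.natDegree ≤ (mob A A.natDegree d (-b) (-c) a).natDegree +
          (mob B B.natDegree d (-b) (-c) a).natDegree := by
        rw [hPAB]; exact natDegree_mul_le
      have h8 := mob_natDegree_le B B.natDegree d (-b) (-c) a
      have hA : A.natDegree = 0 := by omega
      have hAC : A = C (A.coeff 0) := eq_C_of_natDegree_eq_zero hA
      have h9 : mob A A.natDegree d (-b) (-c) a = C (A.coeff 0) := by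
        rw [hA]
        unfold mob
        simp
      rw [h9, ← hAC] at hu
      exact hu
    rcases hP.isUnit_or_isUnit h3 with h | h
    · left; exact key F G hfg h3 h
    · right
      refine key G F (by omega) ?_ h
      rw [mul_comm]; exact h3

/-- Transfer of irreducibility over `ℚ`. -/
theorem mob_irr (P : ℤ[X]) (m : ℕ) (a b c d : ℤ) (hP : IrrQ P)
    (hm : P.natDegree = m) (h2 : 2 ≤ m) (hdet : a * d - b * c = 1) :
    IrrQ (mob P m a b c d) ∧ (mob P m a b c d).natDegree = m := by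
  obtain ⟨g, hg, P0, hP0, hPg⟩ : ∃ g : ℤ, g ≠ 0 ∧ ∃ P0 : ℤ[X], P0.IsPrimitive ∧ P = C g * P0 :=
    ⟨P.content, content_eq_zero_iff.not.mpr hP.ne_zero, P.primPart, P.isPrimitive_primPart,
      P.eq_C_content_mul_primPart⟩
  have hP0irr : IrrQ P0 := by
    have h1 := hP
    unfold IrrQ at h1 ⊢
    rw [hPg, Polynomial.map_mul, Polynomial.map_C] at h1
    have hKq : (Int.castRingHom ℚ) g ≠ 0 := by simpa using hg
    rwa [irreducible_isUnit_mul (isUnit_C.mpr (IsUnit.mk0 _ hKq))] at h1
  have hP0d : P0.natDegree = m := by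
    rw [← hm, hPg, natDegree_C_mul hg]
  have hP0i : Irreducible P0 := (IsPrimitive.Int.irreducible_iff_irreducible_map_cast hP0).mpr hP0irr
  have h3 := mob_irreducible P0 m a b c d hP0i hP0d h2 hdet
  have h4 := mob_prim P0 m a b c d hP0d.le hdet hP0
  have h5 : IrrQ (mob P0 m a b c d) :=
    (IsPrimitive.Int.irreducible_iff_irreducible_map_cast h4).mp h3
  have h6 := mob_natDegree P0 m a b c d hP0i hP0d h2 hdet
  have hKq : (Int.castRingHom ℚ) g ≠ 0 := by simpa using hg
  constructor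
  · unfold IrrQ at h5 ⊢
    rw [hPg, mob_C_mul, Polynomial.map_mul, Polynomial.map_C,
      irreducible_isUnit_mul (isUnit_C.mpr (IsUnit.mk0 _ hKq))]
    exact h5
  · rw [hPg, mob_C_mul, natDegree_C_mul hg, h6]

end Pool.Agent.Helper35
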