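import Mathlib
import Pool.Agent.Helper35.MobPoly

set_option autoImplicit false

namespace Pool.Agent.Helper35

open Polynomial

/-- Coefficientwise domination. -/
def Dom (P Q : ℤ[X]) : Prop := ∀ i, |P.coeff i| ≤ Q.coeff i

theorem Dom.mul {P1 P2 Q1 Q2 : ℤ[X]} (h1 : Dom P1 Q1) (h2 : Dom P2 Q2) :
    Dom (P1 * P2) (Q1 * Q2) := by
  intro i
  rw [coeff_mul, coeff_mul]
  refine (Finset.abs_sum_le_sum_abs _ _).trans (Finset.sum_le_sum (fun x _ => ?_))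
  rw [abs_mul]
  exact mul_le_mul (h1 x.1) (h2 x.2) (abs_nonneg _) ((abs_nonneg _).trans (h1 x.1))

theorem Dom.one : Dom 1 1 := by
  intro i
  rw [coeff_one]
  split_ifs <;> simp

theorem Dom.pow {P Q : ℤ[X]} (h : Dom P Q) (k : ℕ) : Dom (P ^ k) (Q ^ k) := by
  induction k with
  | zero => rw [pow_zero, pow_zero]; exact Dom.one
  | succ k ih => rw [pow_succ, pow_succ]; exact ih.mul h

theorem Dom.sum {ι : Type} (s : Finset ι) (F G : ι → ℤ[X]) (h : ∀ i ∈ s, Dom (F i) (G i)) :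
    Dom (∑ i ∈ s, F i) (∑ i ∈ s, G i) := by
  intro k
  rw [finsetSum_coeff, finsetSum_coeff]
  exact (Finset.abs_sum_le_sum_abs _ _).trans (Finset.sum_le_sum (fun i hi => h i hi k))

theorem Dom.linear (a b : ℤ) : Dom (C a * X + C b) (C |a| * X + C |b|) := by
  intro i
  rw [coeff_add, coeff_add, coeff_C_mul, coeff_C_mul, coeff_X, coeff_C, coeff_C]
  refine (abs_add_le _ _).trans ?_
  rw [abs_mul]
  split_ifs <;> simp

theorem Dom.const (a : ℤ) : Dom (C a) (C |a|) := by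
  intro i
  rw [coeff_C, coeff_C]
  split_ifs <;> simp

theorem Dom.coeff_le {P Q : ℤ[X]} (h : Dom P Q) (i : ℕ) : |P.coeff i| ≤ Q.eval 1 := by
  have hQ : ∀ j, 0 ≤ Q.coeff j := fun j => (abs_nonneg _).trans (h j)
  refine (h i).trans ?_
  rw [eval_eq_sum_range]
  by_cases hi : i ≤ Q.natDegree
  · have : Q.coeff i = Q.coeff i * 1 ^ i := by simp
    rw [this]
    exact Finset.single_le_sum (f := fun j => Q.coeff j * 1 ^ j)
      (fun j _ => by have := hQ j; simpa using this) (Finset.mem_range.mpr (by omega))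
  · rw [coeff_eq_zero_of_natDegree_lt (by omega)]
    exact Finset.sum_nonneg (fun j _ => by have := hQ j; simpa using this)

theorem mob_coeff (P : ℤ[X]) (m : ℕ) (a b c d K : ℤ) (h1 : |a| + |b| ≤ K) (h2 : |c| + |d| ≤ K)
    (i : ℕ) : |((mob P m a b c d).coeff i : ℝ)| ≤ ((m : ℝ) + 1) * ht P * (K : ℝ) ^ m := by
  have hK : 0 ≤ K := le_trans (by positivity) h1
  have hdom : Dom (mob P m a b c d) (∑ j ∈ Finset.range (m + 1),
      C |P.coeff j| * (C |a| * X + C |b|) ^ j * (C |c| * X + C |d|) ^ (m - j)) := by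
    unfold mob
    apply Dom.sum
    intro j _
    exact ((Dom.const _).mul ((Dom.linear a b).pow j)).mul ((Dom.linear c d).pow (m - j))
  have h3 := hdom.coeff_le i
  rw [eval_finsetSum] at h3
  have h4 : ∑ j ∈ Finset.range (m + 1), eval 1 (C |P.coeff j| * (C |a| * X + C |b|) ^ j *
      (C |c| * X + C |d|) ^ (m - j)) ≤ ∑ j ∈ Finset.range (m + 1), (ht P : ℤ) * K ^ m := by
    refine Finset.sum_le_sum (fun j hj => ?_)
    have hj' : j ≤ m := by
      have := Finset.mem_range.mp hj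
      omega
    simp only [eval_mul, eval_pow, eval_add, eval_C, eval_X, mul_one]
    calc |P.coeff j| * (|a| + |b|) ^ j * (|c| + |d|) ^ (m - j)
        ≤ (ht P : ℤ) * K ^ j * K ^ (m - j) := by
          have := abs_coeff_le_ht_int P j
          gcongr
      _ = (ht P : ℤ) * K ^ m := by
          rw [mul_assoc, ← pow_add]; congr 2; omega
  have h5 : |(mob P m a b c d).coeff i| ≤ ((m : ℤ) + 1) * ((ht P : ℤ) * K ^ m) := by
    refine (h3.trans h4).trans (le_of_eq ?_)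
    rw [Finset.sum_const, Finset.card_range, nsmul_eq_mul]
    push_cast
    ring
  have h6 : ((|(mob P m a b c d).coeff i| : ℤ) : ℝ) ≤
      ((((m : ℤ) + 1) * ((ht P : ℤ) * K ^ m) : ℤ) : ℝ) := by exact_mod_cast h5
  push_cast at h6
  refine h6.trans (le_of_eq ?_)
  ring

/-- Admissible matrices. -/
structure Adm (q : ℕ) (n p' q' : ℤ) : Prop where
  qpos : 1 ≤ q
  det : n * q' - p' * q = 1
  q'0 : 0 < q'
  q'q : q' ≤ q
  n0 : 0 ≤ n
  nq : n ≤ q
  p'0 : 0 ≤ p'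
  p'q : p' ≤ q

/-- The image of `θ`. -/
noncomputable def mα (θ : ℝ) (q : ℕ) (n p' q' : ℤ) : ℝ :=
  ((n : ℝ) * θ + p') / ((q : ℝ) * θ + q')

theorem Adm.den_pos {q : ℕ} {n p' q' : ℤ} (h : Adm q n p' q') {θ : ℝ} (hθ : 0 ≤ θ) :
    0 < (q : ℝ) * θ + q' := by
  have h1 : (0 : ℝ) < q' := by exact_mod_cast h.q'0
  have : (0 : ℝ) ≤ q := Nat.cast_nonneg q
  positivity

theorem Adm.den_le {q : ℕ} {n p' q' : ℤ} (h : Adm q n p' q') {θ : ℝ} (hθ : θ ≤ 1) :
    (q : ℝ) * θ + q' ≤ 2 * q := by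
  have h1 : (q' : ℝ) ≤ q := by exact_mod_cast h.q'q
  have h2 : (0 : ℝ) ≤ q := Nat.cast_nonneg q
  nlinarith

theorem Adm.den_ge {q : ℕ} {n p' q' : ℤ} (h : Adm q n p' q') {θ : ℝ} :
    (q : ℝ) * θ ≤ (q : ℝ) * θ + q' := by
  have h1 : (0 : ℝ) < q' := by exact_mod_cast h.q'0
  linarith

theorem Adm.mα_sub {q : ℕ} {n p' q' : ℤ} (h : Adm q n p' q') {θ : ℝ} (hθ : 0 ≤ θ) :
    mα θ q n p' q' = (n : ℝ) / q - 1 / (q * ((q : ℝ) * θ + q')) := by
  have h1 := h.den_pos hθ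
  have hq : (0 : ℝ) < q := by exact_mod_cast h.qpos
  have hdet : (n : ℝ) * q' - p' * q = 1 := by exact_mod_cast h.det
  unfold mα
  obtain ⟨D, hD⟩ : ∃ D : ℝ, D = (q : ℝ) * θ + q' := ⟨_, rfl⟩
  rw [← hD] at h1 ⊢
  field_simp
  rw [hD]
  linear_combination -hdet

theorem Adm.mα_nonneg {q : ℕ} {n p' q' : ℤ} (h : Adm q n p' q') {θ : ℝ} (hθ : 0 ≤ θ) :
    0 ≤ mα θ q n p' q' := by
  have h1 := h.den_pos hθ
  have h2 : (0 : ℝ) ≤ n := by exact_mod_cast h.n0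
  have h3 : (0 : ℝ) ≤ p' := by exact_mod_cast h.p'0
  unfold mα
  positivity

theorem Adm.mα_le {q : ℕ} {n p' q' : ℤ} (h : Adm q n p' q') {θ : ℝ} (hθ : 0 ≤ θ) :
    mα θ q n p' q' ≤ 1 := by
  rw [h.mα_sub hθ]
  have h1 := h.den_pos hθ
  have hq : (0 : ℝ) < q := by exact_mod_cast h.qpos
  have h2 : (n : ℝ) / q ≤ 1 := by
    rw [div_le_one hq]
    exact_mod_cast h.nq
  have h3 : 0 < 1 / ((q : ℝ) * ((q : ℝ) * θ + q')) := by positivity
  linarith

/-- The measure of `θ` transferred. -/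
theorem mob_regime {d r0 : ℕ} (D : ThetaData d r0) (m : ℕ) (hm : 2 ≤ m) :
    ∃ C1 : ℝ, 1 ≤ C1 ∧ ∀ (q : ℕ) (n p' q' : ℤ), Adm q n p' q' →
      ∀ P : ℤ[X], IrrQ P → P.natDegree = m → aeval (mα D.θ q n p' q') P ≠ 0 →
        1 ≤ C1 * (|aeval (mα D.θ q n p' q') P| * (ht P : ℝ) ^ (4 * m + 4) *
          (q : ℝ) ^ (m * (4 * m + 5))) := by
  obtain ⟨c, hc, hcc⟩ := D.meas m (by omega)
  obtain ⟨K, hK⟩ : ∃ K : ℝ, K = 2 ^ m * (((m : ℝ) + 1) * 2 ^ m) ^ (4 * m + 4) := ⟨_, rfl⟩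
  have hK0 : 0 < K := by rw [hK]; positivity
  refine ⟨max 1 (K / c), le_max_left _ _, fun q n p' q' hadm P hP hPd hne => ?_⟩
  have hqr : (1 : ℝ) ≤ q := by exact_mod_cast hadm.qpos
  have hdet : n * q' - p' * (q : ℤ) = 1 := hadm.det
  have hden := hadm.den_pos D.nonneg
  have hdenle := hadm.den_le D.le_one
  obtain ⟨P', hP'⟩ : ∃ P' : ℤ[X], P' = mob P m n p' q q' := ⟨_, rfl⟩
  obtain ⟨hirr, hdeg⟩ := mob_irr P m n p' q q' hP hPd hm hdet
  rw [← hP'] at hirr hdeg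
  obtain ⟨α, hα⟩ : ∃ α : ℝ, α = mα D.θ q n p' q' := ⟨_, rfl⟩
  have hev : aeval D.θ P' = ((q : ℝ) * D.θ + q') ^ m * aeval α P := by
    rw [hP', mob_aeval P m n p' q q' hPd.le D.θ (by push_cast; exact hden.ne'), hα]
    unfold mα
    push_cast
    rfl
  rw [← hα] at hne ⊢
  have hne' : aeval D.θ P' ≠ 0 := by
    rw [hev]; exact mul_ne_zero (by positivity) hne
  have h1 := hcc P' hirr hdeg hne'
  have hht : (ht P' : ℝ) ≤ ((m : ℝ) + 1) * ht P * (2 * q) ^ m := by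
    apply ht_le_of_real P' (by intro h0; rw [h0] at hne'; simp at hne')
    intro i
    have h3 : |n| + |p'| ≤ 2 * (q : ℤ) := by
      rw [abs_of_nonneg hadm.n0, abs_of_nonneg hadm.p'0]
      have := hadm.nq
      have := hadm.p'q
      omega
    have h4 : |(q : ℤ)| + |q'| ≤ 2 * (q : ℤ) := by
      rw [abs_of_nonneg (by positivity : (0 : ℤ) ≤ q), abs_of_pos hadm.q'0]
      have := hadm.q'q
      omega
    have h5 := mob_coeff P m n p' q q' (2 * (q : ℤ)) h3 h4 i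
    rw [hP']
    refine h5.trans (le_of_eq ?_)
    push_cast
    ring
  have hH1 : (1 : ℝ) ≤ ht P := by exact_mod_cast ht_pos hP.ne_zero
  have h2 : c ≤ K * (|aeval α P| * (ht P : ℝ) ^ (4 * m + 4) * (q : ℝ) ^ (m * (4 * m + 5))) := by
    calc c ≤ |aeval D.θ P'| * (ht P' : ℝ) ^ (4 * m + 4) := h1
      _ ≤ |aeval D.θ P'| * (((m : ℝ) + 1) * ht P * (2 * q) ^ m) ^ (4 * m + 4) := by gcongr
      _ = ((q : ℝ) * D.θ + q') ^ m * |aeval α P| *
          (((m : ℝ) + 1) * ht P * (2 * q) ^ m) ^ (4 * m + 4) := by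
          rw [hev, abs_mul, abs_of_nonneg (by positivity : (0 : ℝ) ≤ ((q : ℝ) * D.θ + q') ^ m)]
      _ ≤ (2 * (q : ℝ)) ^ m * |aeval α P| *
          (((m : ℝ) + 1) * ht P * (2 * q) ^ m) ^ (4 * m + 4) := by gcongr
      _ = _ := by
          rw [hK, mul_pow 2 (q : ℝ) m, mul_pow, mul_pow, mul_pow, mul_pow]
          have e1 : (q : ℝ) ^ (m * (4 * m + 5)) = (q : ℝ) ^ m * ((q : ℝ) ^ m) ^ (4 * m + 4) := by
            rw [← pow_mul, ← pow_add]; congr 1; ring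
          rw [e1]; ring
  have h3 : 1 ≤ (K / c) * (|aeval α P| * (ht P : ℝ) ^ (4 * m + 4) *
          (q : ℝ) ^ (m * (4 * m + 5))) := by
    rw [div_mul_eq_mul_div, le_div_iff₀ hc, one_mul]; exact h2
  refine h3.trans ?_
  have : 0 ≤ |aeval α P| * (ht P : ℝ) ^ (4 * m + 4) * (q : ℝ) ^ (m * (4 * m + 5)) := by
    positivity
  exact mul_le_mul_of_nonneg_right (le_max_right _ _) this

/-- The special polynomial. -/
noncomputable def MS (T : ℤ[X]) (d : ℕ) (q : ℕ) (n p' q' : ℤ) : ℤ[X] :=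
  mob T d q' (-p') (-(q : ℤ)) n

theorem MS_props {d r0 : ℕ} (D : ThetaData d r0) (hd : 2 ≤ d) (q : ℕ) (n p' q' : ℤ)
    (h : Adm q n p' q') :
    IrrQ (MS D.T d q n p' q') ∧ (MS D.T d q n p' q').IsPrimitive ∧
    (MS D.T d q n p' q').natDegree = d ∧
    (∀ x : ℝ, (n : ℝ) - q * x ≠ 0 → aeval x (MS D.T d q n p' q') =
      ((n : ℝ) - q * x) ^ d * aeval (((q' : ℝ) * x - p') / ((n : ℝ) - q * x)) D.T) ∧
    aeval (mα D.θ q n p' q') (MS D.T d q n p' q') = 0 ∧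
    (ht (MS D.T d q n p' q') : ℝ) ≤ (((d : ℝ) + 1) * ht D.T * 2 ^ d) * (q : ℝ) ^ d := by
  have hdet : q' * n - (-p') * (-(q : ℤ)) = 1 := by
    have := h.det
    linarith
  obtain ⟨h1, h2⟩ := mob_irr D.T d q' (-p') (-(q : ℤ)) n D.irr D.deg hd hdet
  have h3 := mob_prim D.T d q' (-p') (-(q : ℤ)) n D.deg.le hdet D.prim
  have hev : ∀ x : ℝ, (n : ℝ) - q * x ≠ 0 → aeval x (MS D.T d q n p' q') =
      ((n : ℝ) - q * x) ^ d * aeval (((q' : ℝ) * x - p') / ((n : ℝ) - q * x)) D.T := by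
    intro x hx
    have e1 : ((-(q : ℤ) : ℤ) : ℝ) * x + (n : ℝ) = (n : ℝ) - q * x := by push_cast; ring
    have e2 : (q' : ℝ) * x + ((-p' : ℤ) : ℝ) = (q' : ℝ) * x - p' := by push_cast; ring
    have := mob_aeval D.T d q' (-p') (-(q : ℤ)) n D.deg.le x (by rw [e1]; exact hx)
    rw [e1, e2] at this
    exact this
  refine ⟨h1, h3, h2, hev, ?_, ?_⟩
  · have hden := h.den_pos D.nonneg
    have hdetr : (n : ℝ) * q' - p' * q = 1 := by exact_mod_cast h.det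
    have e3 : (n : ℝ) - q * mα D.θ q n p' q' = 1 / ((q : ℝ) * D.θ + q') := by
      unfold mα
      obtain ⟨E, hE⟩ : ∃ E : ℝ, E = (q : ℝ) * D.θ + q' := ⟨_, rfl⟩
      rw [← hE] at hden ⊢
      field_simp
      rw [hE]
      linear_combination hdetr
    have e4 : ((q' : ℝ) * mα D.θ q n p' q' - p') / ((n : ℝ) - q * mα D.θ q n p' q') = D.θ := by
      rw [e3]
      unfold mα
      obtain ⟨E, hE⟩ : ∃ E : ℝ, E = (q : ℝ) * D.θ + q' := ⟨_, rfl⟩
      rw [← hE] at hden ⊢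
      field_simp
      rw [hE]
      linear_combination D.θ * hdetr
    rw [hev _ (by rw [e3]; positivity), e4, D.root, mul_zero]
  · apply ht_le_of_real _ h1.ne_zero
    intro i
    have h4 : |q'| + |(-p')| ≤ 2 * (q : ℤ) := by
      rw [abs_of_pos h.q'0, abs_neg, abs_of_nonneg h.p'0]
      have := h.q'q
      have := h.p'q
      omega
    have h5 : |(-(q : ℤ))| + |n| ≤ 2 * (q : ℤ) := by
      rw [abs_neg, abs_of_nonneg (by positivity : (0 : ℤ) ≤ q), abs_of_nonneg h.n0]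
      have := h.nq
      omega
    have h6 := mob_coeff D.T d q' (-p') (-(q : ℤ)) n (2 * (q : ℤ)) h4 h5 i
    refine h6.trans (le_of_eq ?_)
    push_cast
    ring

end Pool.Agent.Helper35
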