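import Mathlib
import Pool.Agent.Helper35.MobBase

set_option autoImplicit false

namespace Pool.Agent.Helper35

open Polynomial

/-- Counting the translated grid points at which an irreducible polynomial is small. -/
theorem count_gridM (α : ℤ → ℝ) {P : ℤ[X]} (h : IrrQ P) (N : ℕ) (hN : 0 < N) (δ : ℝ)
    (hδ0 : 0 ≤ δ)
    (hδ : Kc P.natDegree * (ht P : ℝ) ^ (2 * P.natDegree) * δ < 1) (s : Finset ℤ)
    (hs : ∀ p ∈ s, |α p| ≤ 1 ∧ |α p - (p : ℝ) / N| ≤ 1 / N ∧ |aeval (α p) P| ≤ δ) :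
    (s.card : ℝ) ≤ P.natDegree * (2 * (P.natDegree * δ *
      (Kc P.natDegree * (ht P : ℝ) ^ (2 * P.natDegree))) * N + 3) := by
  classical
  set m := P.natDegree with hm
  have hmpos : 0 < m := h.natDegree_pos
  have hH : (1 : ℝ) ≤ ht P := by exact_mod_cast ht_pos h.ne_zero
  set K : ℝ := Kc m * (ht P : ℝ) ^ (2 * m) with hK
  have hKpos : 0 < K := by have := Kc_pos hmpos; positivity
  set ρ : ℝ := m * δ * K with hρ
  have hρ0 : 0 ≤ ρ := by positivity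
  set f : ℂ[X] := P.map (Int.castRingHom ℂ) with hf
  have hnear : ∀ p ∈ s, ∃ z ∈ f.roots.toFinset, |α p - z.re| ≤ ρ := by
    intro p hp
    obtain ⟨h1, _, h2⟩ := hs p hp
    have h3 : 1 / K ≤ |aeval (α p) (derivative P)| := by
      by_contra hc
      push Not at hc
      obtain ⟨ε, hε1, hε2⟩ : ∃ ε, max δ |aeval (α p) (derivative P)| ≤ ε ∧
          ε < 1 / K := by
        refine ⟨max δ |aeval (α p) (derivative P)|, le_rfl, max_lt ?_ hc⟩
        rw [lt_div_iff₀ hKpos]; linarith [mul_comm K δ]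
      have := deriv_bound h _ h1 ε (h2.trans ((le_max_left _ _).trans hε1))
        ((le_max_right _ _).trans hε1)
      rw [← hm, ← hK] at this
      rw [lt_div_iff₀ hKpos] at hε2
      linarith [mul_comm K ε]
    obtain ⟨z, hz1, hz2⟩ := exists_root_near h.ne_zero (α p) δ (1 / K) (by positivity)
      h2 h3
    refine ⟨z, Multiset.mem_toFinset.mpr hz1, ?_⟩
    have h4 : |((((α p : ℝ) : ℂ) - z).re)| ≤ ‖(((α p : ℝ) : ℂ) - z)‖ :=
      Complex.abs_re_le_norm _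
    have h5 : (((α p : ℝ) : ℂ) - z).re = α p - z.re := by
      rw [Complex.sub_re, Complex.ofReal_re]
    rw [h5] at h4
    refine h4.trans (hz2.trans (le_of_eq ?_))
    rw [hρ, ← hm]; field_simp
  have hsub : s ⊆ f.roots.toFinset.biUnion
      (fun z => s.filter (fun p : ℤ => |α p - z.re| ≤ ρ)) := by
    intro p hp
    obtain ⟨z, hz1, hz2⟩ := hnear p hp
    rw [Finset.mem_biUnion]
    exact ⟨z, hz1, Finset.mem_filter.mpr ⟨hp, hz2⟩⟩
  have hNr : (0 : ℝ) < N := by exact_mod_cast hN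
  have hone : ∀ z ∈ f.roots.toFinset,
      ((s.filter (fun p : ℤ => |α p - z.re| ≤ ρ)).card : ℝ) ≤ 2 * ρ * N + 3 := by
    intro z _
    have hN1 : (N : ℝ) * (1 / N) = 1 := by field_simp
    have := card_le_of_mem_interval (s.filter (fun p : ℤ => |α p - z.re| ≤ ρ))
      (N * (z.re - ρ) - 1) (N * (z.re + ρ) + 1) (by nlinarith) (by
        intro p hp
        obtain ⟨hps, hp2⟩ := Finset.mem_filter.mp hp
        obtain ⟨_, h3, _⟩ := hs p hps
        rw [abs_le] at hp2 h3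
        have hpe : (p : ℝ) = N * ((p : ℝ) / N) := by field_simp
        constructor
        · have : z.re - ρ - 1 / N ≤ (p : ℝ) / N := by linarith
          calc N * (z.re - ρ) - 1 = N * (z.re - ρ - 1 / N) := by rw [mul_sub _ _ (1 / (N : ℝ)), hN1]
            _ ≤ N * ((p : ℝ) / N) := by gcongr
            _ = p := hpe.symm
        · have : (p : ℝ) / N ≤ z.re + ρ + 1 / N := by linarith
          calc (p : ℝ) = N * ((p : ℝ) / N) := hpe
            _ ≤ N * (z.re + ρ + 1 / N) := by gcongr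
            _ = N * (z.re + ρ) + 1 := by rw [mul_add _ _ (1 / (N : ℝ)), hN1])
    refine this.trans (le_of_eq ?_)
    ring
  have hcard : (f.roots.toFinset.card : ℝ) ≤ m := by
    have h1 := Multiset.toFinset_card_le f.roots
    have h2 := f.card_roots'
    have h3 : f.natDegree ≤ P.natDegree := natDegree_map_le
    exact_mod_cast h1.trans (h2.trans h3)
  calc (s.card : ℝ) ≤ ((f.roots.toFinset.biUnion
      (fun z => s.filter (fun p : ℤ => |α p - z.re| ≤ ρ))).card : ℝ) := by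
        exact_mod_cast Finset.card_le_card hsub
    _ ≤ ((∑ z ∈ f.roots.toFinset,
        (s.filter (fun p : ℤ => |α p - z.re| ≤ ρ)).card : ℕ) : ℝ) := by
        exact_mod_cast Finset.card_biUnion_le
    _ = ∑ z ∈ f.roots.toFinset,
        ((s.filter (fun p : ℤ => |α p - z.re| ≤ ρ)).card : ℝ) := by push_cast; rfl
    _ ≤ ∑ z ∈ f.roots.toFinset, (2 * ρ * N + 3) := Finset.sum_le_sum hone
    _ = f.roots.toFinset.card * (2 * ρ * N + 3) := by rw [Finset.sum_const, nsmul_eq_mul]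
    _ ≤ m * (2 * ρ * N + 3) := by gcongr

/-- Counting grid points where some irreducible polynomial of given degree and height is small. -/
theorem low_count_oneM (α : ℤ → ℝ) (m H N : ℕ) (hN : 0 < N) (δ : ℝ) (hδ0 : 0 ≤ δ)
    (hδ : Kc m * (H : ℝ) ^ (2 * m) * δ < 1) (s : Finset ℤ)
    (hs : ∀ n ∈ s, |α n| ≤ 1 ∧ |α n - (n : ℝ) / N| ≤ 1 / N ∧ ∃ P : ℤ[X], IrrQ P ∧ P.natDegree = m ∧ ht P = H ∧
      |aeval (α n) P| ≤ δ) :
    (s.card : ℝ) ≤ (2 * (H : ℝ) + 1) ^ (m + 1) *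
      (m * (2 * (m * δ * (Kc m * (H : ℝ) ^ (2 * m))) * N + 3)) := by
  classical
  set G := (boxF m H).filter (fun P => IrrQ P ∧ P.natDegree = m ∧ ht P = H) with hG
  have hsub : s ⊆ G.biUnion (fun P => s.filter (fun n : ℤ => |aeval (α n) P| ≤ δ)) := by
    intro n hn
    obtain ⟨h1, _, P, hP1, hP2, hP3, hP4⟩ := hs n hn
    rw [Finset.mem_biUnion]
    refine ⟨P, ?_, Finset.mem_filter.mpr ⟨hn, hP4⟩⟩
    rw [hG, Finset.mem_filter]
    exact ⟨mem_boxF hP2.le hP3.le, hP1, hP2, hP3⟩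
  have hnn : 0 ≤ Kc m := by unfold Kc; positivity
  have hone : ∀ P ∈ G, ((s.filter (fun n : ℤ => |aeval (α n) P| ≤ δ)).card : ℝ) ≤
      m * (2 * (m * δ * (Kc m * (H : ℝ) ^ (2 * m))) * N + 3) := by
    intro P hP
    rw [hG, Finset.mem_filter] at hP
    obtain ⟨_, h1, h2, h3⟩ := hP
    have := count_gridM α h1 N hN δ hδ0 (by rw [h2, h3]; exact hδ)
      (s.filter (fun n : ℤ => |aeval (α n) P| ≤ δ)) (by
        intro n hn
        rw [Finset.mem_filter] at hn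
        exact ⟨(hs n hn.1).1, (hs n hn.1).2.1, hn.2⟩)
    rw [h2, h3] at this
    exact this
  have hcardG : (G.card : ℝ) ≤ (2 * (H : ℝ) + 1) ^ (m + 1) := by
    have h1 : G.card ≤ (2 * H + 1) ^ (m + 1) := (Finset.card_filter_le _ _).trans (card_boxF m H)
    exact_mod_cast h1
  calc (s.card : ℝ) ≤ ((G.biUnion
      (fun P => s.filter (fun n : ℤ => |aeval (α n) P| ≤ δ))).card : ℝ) := by
        exact_mod_cast Finset.card_le_card hsub
    _ ≤ ((∑ P ∈ G, (s.filter (fun n : ℤ => |aeval (α n) P| ≤ δ)).card : ℕ) : ℝ) := by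
        exact_mod_cast Finset.card_biUnion_le
    _ = ∑ P ∈ G, ((s.filter (fun n : ℤ => |aeval (α n) P| ≤ δ)).card : ℝ) := by
        push_cast; rfl
    _ ≤ ∑ P ∈ G, (m * (2 * (m * δ * (Kc m * (H : ℝ) ^ (2 * m))) * N + 3) : ℝ) :=
        Finset.sum_le_sum hone
    _ = G.card * (m * (2 * (m * δ * (Kc m * (H : ℝ) ^ (2 * m))) * N + 3)) := by
        rw [Finset.sum_const, nsmul_eq_mul]
    _ ≤ _ := by gcongr


/-- Low regime count for a fixed degree, general version.  Exponent `(t+4)(m+1)`, threshold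
`1 ≤ w * H^(t(m+1))`. -/
theorem low_countM (α : ℤ → ℝ) (m : ℕ) (hm : 1 ≤ m) (t : ℕ) (ht1 : 1 ≤ t) (N : ℕ) (hN : 0 < N)
    (w Y : ℝ) (hw : 0 < w) (hY : 1 ≤ Y) (hwY : w * Y ^ t ≤ 1)
    (hK : 2 * Kc m < Y) (s : Finset ℤ)
    (hs : ∀ n ∈ s, |α n| ≤ 1 ∧ |α n - (n : ℝ) / N| ≤ 1 / N ∧ ∃ P : ℤ[X], IrrQ P ∧ P.natDegree = m ∧
      1 ≤ w * (ht P : ℝ) ^ (t * (m + 1)) ∧ (ht P) ^ (2 * (m + 1)) ≤ N ∧
      |aeval (α n) P| ≤ 2 / (ht P : ℝ) ^ ((t + 4) * (m + 1))) :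
    (s.card : ℝ) ≤ 2 * cc m * N * w / Y + 3 * m * 3 ^ (m + 1) * N / (Nat.sqrt (Nat.sqrt N)) := by
  classical
  have hNr : (1 : ℝ) ≤ N := by exact_mod_cast hN
  have hKn : 0 < Kc m := Kc_pos (by omega)
  set S := Nat.sqrt N with hS
  set T := Nat.sqrt S with hT
  have hS1 : 1 ≤ S := by
    rw [hS, Nat.le_sqrt]; omega
  have hT1 : 1 ≤ T := by
    rw [hT, Nat.le_sqrt]; omega
  have hSS : S * S ≤ N := Nat.sqrt_le N
  have hTT : T * T ≤ S := Nat.sqrt_le S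
  have hTr : (1 : ℝ) ≤ T := by exact_mod_cast hT1
  set SH := (Finset.Ioo 0 (T + 1)).filter (fun H : ℕ => 1 ≤ w * (H : ℝ) ^ (t * (m + 1)) ∧
    H ^ (2 * (m + 1)) ≤ N) with hSH
  set sH : ℕ → Finset ℤ := fun H => s.filter (fun n : ℤ => ∃ P : ℤ[X], IrrQ P ∧ P.natDegree = m ∧
      ht P = H ∧ |aeval (α n) P| ≤ 2 / (H : ℝ) ^ ((t + 4) * (m + 1))) with hsH
  have hsub : s ⊆ SH.biUnion sH := by
    intro n hn
    obtain ⟨h1, _, P, hP1, hP2, hP3, hP4, hP5⟩ := hs n hn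
    rw [Finset.mem_biUnion]
    refine ⟨ht P, ?_, ?_⟩
    · rw [hSH, Finset.mem_filter, Finset.mem_Ioo]
      refine ⟨⟨ht_pos hP1.ne_zero, ?_⟩, hP3, hP4⟩
      have h2 : (ht P) ^ 4 ≤ N := by
        refine le_trans (Nat.pow_le_pow_right (ht_pos hP1.ne_zero) ?_) hP4
        omega
      have h3 : ht P * ht P ≤ S := by
        rw [hS, Nat.le_sqrt]
        calc ht P * ht P * (ht P * ht P) = (ht P) ^ 4 := by ring
          _ ≤ N := h2
      have h4 : ht P ≤ T := by rw [hT, Nat.le_sqrt]; exact h3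
      omega
    · rw [hsH, Finset.mem_filter]
      exact ⟨hn, P, hP1, hP2, rfl, hP5⟩
  have hone : ∀ H ∈ SH, ((sH H).card : ℝ) ≤
      cc m * N * w / Y * ((H : ℝ) ^ 2)⁻¹ + 3 * m * 3 ^ (m + 1) * (S : ℝ) := by
    intro H hH
    rw [hSH, Finset.mem_filter, Finset.mem_Ioo] at hH
    obtain ⟨⟨hH0, hHT⟩, hH1, hH2⟩ := hH
    have hHr : (1 : ℝ) ≤ H := by exact_mod_cast hH0
    have hH3 : H ^ (m + 1) ≤ S := by
      rw [hS, Nat.le_sqrt]
      calc H ^ (m + 1) * H ^ (m + 1) = H ^ (2 * (m + 1)) := by rw [← pow_add]; congr 1; ring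
        _ ≤ N := hH2
    have hH3r : (H : ℝ) ^ (m + 1) ≤ S := by exact_mod_cast hH3
    have hYH : Y ≤ (H : ℝ) ^ (m + 1) := by
      have h1 : w * Y ^ t ≤ w * ((H : ℝ) ^ (m + 1)) ^ t := by
        calc w * Y ^ t ≤ 1 := hwY
          _ ≤ w * (H : ℝ) ^ (t * (m + 1)) := hH1
          _ = w * ((H : ℝ) ^ (m + 1)) ^ t := by rw [← pow_mul, mul_comm t (m + 1)]
      have h2 := le_of_mul_le_mul_left h1 hw
      exact (pow_le_pow_iff_left₀ (by linarith) (by positivity) (by omega)).mp h2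
    set δ : ℝ := 2 / (H : ℝ) ^ ((t + 4) * (m + 1)) with hδ
    have hδ0 : 0 ≤ δ := by positivity
    have hexp : (t + 4) * (m + 1) = (m + 1) + 2 * m + (t * (m + 1) + (m + 1) + 2) := by ring
    have hδ1 : Kc m * (H : ℝ) ^ (2 * m) * δ < 1 := by
      rw [hδ, mul_div_assoc', div_lt_one (by positivity)]
      have e1 : (H : ℝ) ^ ((t + 4) * (m + 1)) = (H : ℝ) ^ (2 * m) * ((H : ℝ) ^ (m + 1) *
          (H : ℝ) ^ (t * (m + 1) + (m + 1) + 2)) := by
        rw [hexp, pow_add, pow_add]; ring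
      rw [e1]
      have e2 : 2 * Kc m < (H : ℝ) ^ (m + 1) * (H : ℝ) ^ (t * (m + 1) + (m + 1) + 2) := by
        have h5 : (1 : ℝ) ≤ (H : ℝ) ^ (t * (m + 1) + (m + 1) + 2) := one_le_pow₀ hHr
        have h6 : (0 : ℝ) < (H : ℝ) ^ (m + 1) := by positivity
        nlinarith
      have e3 : (0 : ℝ) < (H : ℝ) ^ (2 * m) := by positivity
      nlinarith
    have key := low_count_oneM α m H N hN δ hδ0 hδ1 (sH H) (by
      intro n hn
      rw [hsH, Finset.mem_filter] at hn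
      exact ⟨(hs n hn.1).1, (hs n hn.1).2.1, hn.2⟩)
    refine key.trans ?_
    have h3H : (2 * (H : ℝ) + 1) ^ (m + 1) ≤ 3 ^ (m + 1) * (H : ℝ) ^ (m + 1) := by
      rw [← mul_pow]
      exact pow_le_pow_left₀ (by positivity) (by linarith) _
    have hA : (H : ℝ) ^ ((t + 4) * (m + 1)) = (H : ℝ) ^ (m + 1) * (H : ℝ) ^ (2 * m) *
        ((H : ℝ) ^ (t * (m + 1)) * (H : ℝ) ^ (m + 1) * (H : ℝ) ^ 2) := by
      rw [hexp, pow_add _ (m + 1 + 2 * m), pow_add _ (m + 1) (2 * m),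
        pow_add _ (t * (m + 1) + (m + 1)) 2, pow_add _ (t * (m + 1)) (m + 1)]
    have hB : 1 / w ≤ (H : ℝ) ^ (t * (m + 1)) := by
      rw [div_le_iff₀ hw]; linarith
    have hccn := cc_nonneg m
    calc (2 * (H : ℝ) + 1) ^ (m + 1) *
          (m * (2 * (m * δ * (Kc m * (H : ℝ) ^ (2 * m))) * N + 3))
        ≤ (3 ^ (m + 1) * (H : ℝ) ^ (m + 1)) *
          (m * (2 * (m * δ * (Kc m * (H : ℝ) ^ (2 * m))) * N + 3)) := by
          gcongr
      _ = cc m * N * ((H : ℝ) ^ (m + 1) * (H : ℝ) ^ (2 * m) / (H : ℝ) ^ ((t + 4) * (m + 1)))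
          + 3 * m * 3 ^ (m + 1) * (H : ℝ) ^ (m + 1) := by
          rw [hδ, cc]; ring
      _ = cc m * N * ((H : ℝ) ^ (t * (m + 1)))⁻¹ * ((H : ℝ) ^ (m + 1))⁻¹ * ((H : ℝ) ^ 2)⁻¹
          + 3 * m * 3 ^ (m + 1) * (H : ℝ) ^ (m + 1) := by
          rw [hA]
          field_simp
      _ ≤ cc m * N * (1 / w)⁻¹ * Y⁻¹ * ((H : ℝ) ^ 2)⁻¹
          + 3 * m * 3 ^ (m + 1) * (S : ℝ) := by
          gcongr
      _ = _ := by
          rw [one_div, inv_inv]; ring
  have hSTN : (T : ℝ) * (S : ℝ) ≤ N / T := by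
    rw [le_div_iff₀ (by linarith)]
    have h1 : T * S * T ≤ N := by
      calc T * S * T = (T * T) * S := by ring
        _ ≤ S * S := Nat.mul_le_mul_right _ hTT
        _ ≤ N := hSS
    exact_mod_cast h1
  calc (s.card : ℝ) ≤ ((SH.biUnion sH).card : ℝ) := by
        exact_mod_cast Finset.card_le_card hsub
    _ ≤ ((∑ H ∈ SH, (sH H).card : ℕ) : ℝ) := by exact_mod_cast Finset.card_biUnion_le
    _ = ∑ H ∈ SH, ((sH H).card : ℝ) := by push_cast; rfl
    _ ≤ ∑ H ∈ SH, (cc m * N * w / Y * ((H : ℝ) ^ 2)⁻¹ +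
          3 * m * 3 ^ (m + 1) * (S : ℝ)) := Finset.sum_le_sum hone
    _ ≤ ∑ H ∈ Finset.Ioo 0 (T + 1), (cc m * N * w / Y * ((H : ℝ) ^ 2)⁻¹ +
          3 * m * 3 ^ (m + 1) * (S : ℝ)) := by
        apply Finset.sum_le_sum_of_subset_of_nonneg (Finset.filter_subset _ _)
        intro H _ _
        have := cc_nonneg m
        positivity
    _ = cc m * N * w / Y * (∑ H ∈ Finset.Ioo 0 (T + 1), ((H : ℝ) ^ 2)⁻¹) +
          T * (3 * m * 3 ^ (m + 1) * (S : ℝ)) := by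
        rw [Finset.sum_add_distrib, ← Finset.mul_sum, Finset.sum_const, Nat.card_Ioo,
          nsmul_eq_mul]
        simp
    _ ≤ cc m * N * w / Y * 2 + T * (3 * m * 3 ^ (m + 1) * (S : ℝ)) := by
        have h1 := sum_Ioo_inv_sq_le (α := ℝ) 0 (T + 1)
        have := cc_nonneg m
        have h2 : (∑ H ∈ Finset.Ioo 0 (T + 1), ((H : ℝ) ^ 2)⁻¹) ≤ 2 := by
          refine h1.trans ?_
          norm_num
        gcongr
    _ = 2 * cc m * N * w / Y + 3 * m * 3 ^ (m + 1) * (T * S) := by ring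
    _ ≤ 2 * cc m * N * w / Y + 3 * m * 3 ^ (m + 1) * (N / T) := by gcongr
    _ = _ := by ring

end Pool.Agent.Helper35
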