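import Mathlib
import Pool.Agent.Helper35.MobCount

set_option autoImplicit false

namespace Pool.Agent.Helper35

open Polynomial

theorem irr_linear (s t : ℤ) (hs : s ≠ 0) : IrrQ (C s * X + C t) ∧
    (C s * X + C t : ℤ[X]).natDegree = 1 := by
  refine ⟨?_, natDegree_linear hs⟩
  unfold IrrQ
  apply irreducible_of_degree_eq_one
  have : (C s * X + C t : ℤ[X]).map (Int.castRingHom ℚ) = C (s : ℚ) * X + C (t : ℚ) := by
    simp [Polynomial.map_mul]
  rw [this]
  exact degree_linear (by exact_mod_cast hs)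

theorem theta_no_lin {d r0 : ℕ} (D : ThetaData d r0) (hd : 2 ≤ d) (P : ℤ[X]) (hP : IrrQ P)
    (hP1 : P.natDegree = 1) : aeval D.θ P ≠ 0 := by
  intro h0
  obtain ⟨g, hg, hPg⟩ := eq_C_mul_of_root D.T P D.irr D.prim hP D.θ D.root h0
  have h1 : P.natDegree = D.T.natDegree := by rw [hPg, natDegree_C_mul hg]
  rw [hP1, D.deg] at h1
  omega

theorem theta_pos {d r0 : ℕ} (D : ThetaData d r0) (hd : 2 ≤ d) : 0 < D.θ := by
  rcases lt_or_eq_of_le D.nonneg with h | h
  · exact h
  · exfalso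
    obtain ⟨h1, h2⟩ := irr_linear 1 0 one_ne_zero
    apply theta_no_lin D hd _ h1 h2
    simp [← h]

/-- The measure for integer linear forms in `θ, 1`. -/
theorem lin_form {d : ℕ} (R : ℕ) (D : ThetaData d (2 * R)) (hd : 2 ≤ d) :
    ∃ c : ℝ, 0 < c ∧ c ≤ 1 ∧ ∀ (s t : ℤ) (h : ℝ), (s ≠ 0 ∨ t ≠ 0) → |(s : ℝ)| ≤ h → |(t : ℝ)| ≤ h →
      c ≤ |(s : ℝ) * D.θ + t| ^ (2 * R) * h ^ (2 * R + 1) := by
  obtain ⟨c, hc, hcc⟩ := D.meas_lin
  refine ⟨min c 1, lt_min hc one_pos, min_le_right _ _, ?_⟩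
  intro s t h hst hs ht'
  by_cases hs0 : s = 0
  · have ht0 : t ≠ 0 := by
      rcases hst with h | h
      · exact absurd hs0 h
      · exact h
    have ht1 : (1 : ℝ) ≤ |(t : ℝ)| := by exact_mod_cast Int.one_le_abs ht0
    have hh1 : 1 ≤ h := ht1.trans ht'
    rw [hs0]
    push_cast
    rw [zero_mul, zero_add]
    refine (min_le_right _ _).trans ?_
    calc (1 : ℝ) = 1 ^ (2 * R) * 1 ^ (2 * R + 1) := by simp
      _ ≤ _ := by gcongr
  · obtain ⟨h1, h2⟩ := irr_linear s t hs0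
    have h3 := hcc _ h1 h2 (theta_no_lin D hd _ h1 h2)
    have hev : aeval D.θ (C s * X + C t : ℤ[X]) = (s : ℝ) * D.θ + t := by simp
    rw [hev] at h3
    have h4 : (ht (C s * X + C t) : ℝ) ≤ h := by
      apply ht_le_of_real _ h1.ne_zero
      intro i
      rw [coeff_add, coeff_C_mul, coeff_X, coeff_C]
      have hh0 : 0 ≤ h := (abs_nonneg _).trans hs
      by_cases hi0 : i = 0
      · subst hi0; simpa using ht'
      · by_cases hi1 : 1 = i
        · subst hi1; simpa using hs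
        · simp only [hi1, hi0, if_false, mul_zero, add_zero]; simpa using hh0
    refine (min_le_left _ _).trans (h3.trans ?_)
    gcongr

/-- Deterministic lower bound for the distance to fractions with large denominators. -/
theorem lin_det {d : ℕ} (R : ℕ) (D : ThetaData d (2 * R)) (hd : 2 ≤ d) (_hR : 1 ≤ R) :
    ∃ κ : ℝ, 0 < κ ∧ ∀ (q : ℕ) (n p' q' : ℤ), Adm q n p' q' → ∀ A B : ℤ, 1 ≤ B →
      (q : ℝ) ^ (2 * R) ≤ (B : ℝ) ^ (2 * R + 1) →
      κ ≤ |mα D.θ q n p' q' - (A : ℝ) / B| ^ (2 * R) * (B : ℝ) ^ (4 * R + 1) := by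
  obtain ⟨c, hc, hc1, hcc⟩ := lin_form R D hd
  have hθ := theta_pos D hd
  obtain ⟨Cc, hCc⟩ : ∃ Cc : ℝ, Cc = 3 / D.θ := ⟨_, rfl⟩
  have hCc3 : 3 ≤ Cc := by
    rw [hCc, le_div_iff₀ hθ]
    have := D.le_one
    linarith
  obtain ⟨K, hK⟩ : ∃ K : ℝ, K = 2 ^ (2 * R) * Cc ^ (2 * R + 1) * 2 ^ (2 * R + 1) := ⟨_, rfl⟩
  have hK0 : 0 < K := by rw [hK]; positivity
  refine ⟨min 1 (c / K), lt_min one_pos (by positivity), ?_⟩
  intro q n p' q' hadm A B hB hqB
  obtain ⟨x, hx⟩ : ∃ x : ℝ, x = |mα D.θ q n p' q' - (A : ℝ) / B| := ⟨_, rfl⟩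
  rw [← hx]
  have hx0 : 0 ≤ x := by rw [hx]; exact abs_nonneg _
  have hBr : (1 : ℝ) ≤ B := by exact_mod_cast hB
  have hB0 : (0 : ℝ) < B := by linarith
  have hqr : (1 : ℝ) ≤ q := by exact_mod_cast hadm.qpos
  have hq0 : (0 : ℝ) < q := by linarith
  by_cases hbig : 1 ≤ x ^ (2 * R) * (B : ℝ) ^ (4 * R + 1)
  · exact (min_le_left _ _).trans hbig
  push Not at hbig
  refine (min_le_right _ _).trans ?_
  have hden := hadm.den_pos D.nonneg
  have hdenle := hadm.den_le D.le_one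
  obtain ⟨E, hE⟩ : ∃ E : ℝ, E = (q : ℝ) * D.θ + q' := ⟨_, rfl⟩
  rw [← hE] at hden hdenle
  -- q x B < 1
  have hqxB : (q : ℝ) * x * B < 1 := by
    by_contra hcon
    push Not at hcon
    have h1 : 1 ≤ ((q : ℝ) * x * B) ^ (2 * R) := one_le_pow₀ hcon
    have h2 : ((q : ℝ) * x * B) ^ (2 * R) ≤ x ^ (2 * R) * (B : ℝ) ^ (4 * R + 1) := by
      calc ((q : ℝ) * x * B) ^ (2 * R) = (q : ℝ) ^ (2 * R) * (x ^ (2 * R) * (B : ℝ) ^ (2 * R)) := by
            rw [mul_pow, mul_pow]; ring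
        _ ≤ (B : ℝ) ^ (2 * R + 1) * (x ^ (2 * R) * (B : ℝ) ^ (2 * R)) := by gcongr
        _ = x ^ (2 * R) * (B : ℝ) ^ (4 * R + 1) := by
            have : (B : ℝ) ^ (4 * R + 1) = (B : ℝ) ^ (2 * R + 1) * (B : ℝ) ^ (2 * R) := by
              rw [← pow_add]; congr 1; ring
            rw [this]; ring
    linarith
  obtain ⟨s, hs⟩ : ∃ s : ℤ, s = B * n - A * q := ⟨_, rfl⟩
  obtain ⟨t, ht'⟩ : ∃ t : ℤ, t = B * p' - A * q' := ⟨_, rfl⟩
  have hst : (s : ℝ) * D.θ + t = E * B * (mα D.θ q n p' q' - (A : ℝ) / B) := by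
    rw [hs, ht']
    unfold mα
    rw [← hE]
    push_cast
    field_simp
    rw [hE]
    ring
  have hstabs : |(s : ℝ) * D.θ + t| = E * B * x := by
    rw [hst, abs_mul, abs_of_pos (by positivity : 0 < E * (B : ℝ)), ← hx]
  have hne : s ≠ 0 ∨ t ≠ 0 := by
    by_contra hcon
    push Not at hcon
    obtain ⟨h1, h2⟩ := hcon
    rw [hs] at h1
    rw [ht'] at h2
    have hdet := hadm.det
    -- B = B (n q' - p' q) = q' (A q) - q (A q') = 0
    have : B = 0 := by
      calc B = B * (n * q' - p' * q) := by rw [hdet, mul_one]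
        _ = q' * (B * n - A * q) - q * (B * p' - A * q') := by ring
        _ = 0 := by rw [h1, h2]; ring
    omega
  -- bound for s
  have hsle : |(s : ℝ)| ≤ B / (q * D.θ) + 1 := by
    have e1 : (s : ℝ) = q * B * ((n : ℝ) / q - A / B) := by
      rw [hs]; push_cast; field_simp
    have e2 : (n : ℝ) / q - A / B = (mα D.θ q n p' q' - (A : ℝ) / B) + 1 / (q * E) := by
      rw [hadm.mα_sub D.nonneg, ← hE]; ring
    have h1 : |(n : ℝ) / q - A / B| ≤ x + 1 / (q * E) := by
      rw [e2]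
      refine (abs_add_le _ _).trans ?_
      rw [← hx, abs_of_pos (by positivity : 0 < 1 / ((q : ℝ) * E))]
    have h2 : 1 / ((q : ℝ) * E) ≤ 1 / (q * (q * D.θ)) := by
      apply one_div_le_one_div_of_le (by positivity)
      have := hadm.den_ge (θ := D.θ)
      rw [← hE] at this
      gcongr
    rw [e1, abs_mul, abs_of_pos (by positivity : 0 < (q : ℝ) * B)]
    calc (q : ℝ) * B * |(n : ℝ) / q - A / B| ≤ q * B * (x + 1 / (q * (q * D.θ))) := by
          have := h1.trans (add_le_add_right h2 x)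
          gcongr
      _ = q * x * B + B / (q * D.θ) := by field_simp
      _ ≤ _ := by linarith
  have htle : |(t : ℝ)| ≤ B / (q * D.θ) + 3 := by
    have h1 : (t : ℝ) = ((s : ℝ) * D.θ + t) - s * D.θ := by ring
    have h2 : |(t : ℝ)| ≤ |(s : ℝ) * D.θ + t| + |(s : ℝ) * D.θ| := by
      conv_lhs => rw [h1]
      exact abs_sub _ _
    have h3 : |(s : ℝ) * D.θ| ≤ |(s : ℝ)| := by
      rw [abs_mul, abs_of_pos hθ]
      calc |(s : ℝ)| * D.θ ≤ |(s : ℝ)| * 1 := by
            have := D.le_one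
            gcongr
        _ = _ := mul_one _
    have h4 : E * B * x ≤ 2 := by
      calc E * B * x ≤ (2 * q) * B * x := by gcongr
        _ = 2 * (q * x * B) := by ring
        _ ≤ 2 := by linarith
    rw [hstabs] at h2
    linarith
  have hh : B / (q * D.θ) + 3 ≤ Cc * (1 + B / q) := by
    have h1 : (B : ℝ) / (q * D.θ) ≤ Cc * (B / q) := by
      rw [hCc]
      have : 3 / D.θ * ((B : ℝ) / q) = 3 * (B / (q * D.θ)) := by field_simp
      rw [this]
      have : 0 ≤ (B : ℝ) / (q * D.θ) := by positivity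
      linarith
    linarith
  have h5 := hcc s t (Cc * (1 + B / q)) hne (by linarith) (by linarith)
  rw [hstabs] at h5
  have h6 : (q : ℝ) ^ (2 * R) * (1 + B / q) ^ (2 * R + 1) ≤ 2 ^ (2 * R + 1) * (B : ℝ) ^ (2 * R + 1) := by
    by_cases hcase : (q : ℝ) ≤ B
    · have h7 : 1 + (B : ℝ) / q ≤ 2 * (B / q) := by
        have : 1 ≤ (B : ℝ) / q := by rw [le_div_iff₀ hq0]; linarith
        linarith
      calc (q : ℝ) ^ (2 * R) * (1 + B / q) ^ (2 * R + 1)
          ≤ (q : ℝ) ^ (2 * R) * (2 * (B / q)) ^ (2 * R + 1) := by gcongr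
        _ = 2 ^ (2 * R + 1) * (B : ℝ) ^ (2 * R + 1) / q := by
            rw [mul_pow, div_pow, pow_succ (q : ℝ)]; field_simp
        _ ≤ 2 ^ (2 * R + 1) * (B : ℝ) ^ (2 * R + 1) / 1 := by gcongr
        _ = _ := by rw [div_one]
    · push Not at hcase
      have h7 : 1 + (B : ℝ) / q ≤ 2 := by
        have : (B : ℝ) / q ≤ 1 := by rw [div_le_one hq0]; exact hcase.le
        linarith
      calc (q : ℝ) ^ (2 * R) * (1 + B / q) ^ (2 * R + 1)
          ≤ (B : ℝ) ^ (2 * R + 1) * 2 ^ (2 * R + 1) := by gcongr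
        _ = _ := mul_comm _ _
  rw [div_le_iff₀ hK0]
  calc c ≤ (E * B * x) ^ (2 * R) * (Cc * (1 + B / q)) ^ (2 * R + 1) := h5
    _ ≤ (2 * q * B * x) ^ (2 * R) * (Cc * (1 + B / q)) ^ (2 * R + 1) := by gcongr
    _ = (2 ^ (2 * R) * Cc ^ (2 * R + 1) * ((B : ℝ) ^ (2 * R) * x ^ (2 * R))) *
        ((q : ℝ) ^ (2 * R) * (1 + B / q) ^ (2 * R + 1)) := by
        rw [mul_pow, mul_pow, mul_pow, mul_pow]; ring
    _ ≤ (2 ^ (2 * R) * Cc ^ (2 * R + 1) * ((B : ℝ) ^ (2 * R) * x ^ (2 * R))) *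
        (2 ^ (2 * R + 1) * (B : ℝ) ^ (2 * R + 1)) := by gcongr
    _ = x ^ (2 * R) * (B : ℝ) ^ (4 * R + 1) * K := by
        have e1 : (B : ℝ) ^ (4 * R + 1) = (B : ℝ) ^ (2 * R + 1) * (B : ℝ) ^ (2 * R) := by
          rw [← pow_add]; congr 1; ring
        rw [hK, e1]; ring

/-- Points close to fractions with small denominators: counting with the spacing of fractions. -/
theorem sep_count (α : ℤ → ℝ) (q : ℕ) (hq : 0 < q) (a w ρ Y : ℝ) (hw : 0 < w) (hρ : 0 ≤ ρ)
    (hY : 0 < Y) (s : Finset ℤ)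
    (hs : ∀ n ∈ s, a ≤ α n ∧ α n ≤ a + w ∧ |α n - (n : ℝ) / q| ≤ 1 / q ∧
      ∃ A B : ℤ, 1 ≤ B ∧ (B : ℝ) ^ 2 ≤ Y ∧ |α n - (A : ℝ) / B| ≤ ρ) :
    (s.card : ℝ) ≤ ((w + 2 * ρ) * Y + 2) * (4 * ρ * q + 5) := by
  classical
  have hqr : (0 : ℝ) < q := by exact_mod_cast hq
  choose! h1 h2 h3 A B hB1 hB2 hAB using hs
  obtain ⟨f, hf⟩ : ∃ f : ℤ → ℤ, ∀ n, f n = ⌊((A n : ℝ) / B n) * Y⌋ := ⟨_, fun _ => rfl⟩
  have hfib : ∀ v ∈ s.image f, ((s.filter (fun n => f n = v)).card : ℝ) ≤ 4 * ρ * q + 5 := by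
    intro v hv
    rw [Finset.mem_image] at hv
    obtain ⟨m, hm, hmv⟩ := hv
    have key : ∀ n ∈ s.filter (fun n => f n = v), |(n : ℝ) - m| ≤ 2 * ρ * q + 2 := by
      intro n hn
      obtain ⟨hns, hnv⟩ := Finset.mem_filter.mp hn
      have hBn : (0 : ℝ) < B n := by
        have := hB1 n hns
        exact_mod_cast (by omega : 0 < B n)
      have hBm : (0 : ℝ) < B m := by
        have := hB1 m hm
        exact_mod_cast (by omega : 0 < B m)
      have heq : (A n : ℝ) / B n = (A m : ℝ) / B m := by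
        by_contra hne
        have h4 : |((A n : ℝ) / B n) * Y - ((A m : ℝ) / B m) * Y| < 1 := by
          apply Int.abs_sub_lt_one_of_floor_eq_floor
          rw [← hf, ← hf, hnv, hmv]
        rw [← sub_mul, abs_mul, abs_of_pos hY] at h4
        have h5 : A n * B m - A m * B n ≠ 0 := by
          intro h0
          apply hne
          rw [div_eq_div_iff hBn.ne' hBm.ne']
          have : A n * B m = A m * B n := by linarith
          exact_mod_cast this
        have h6 : (1 : ℝ) ≤ |(A n : ℝ) * B m - A m * B n| := by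
          have := Int.one_le_abs h5
          exact_mod_cast this
        have h7 : |(A n : ℝ) / B n - (A m : ℝ) / B m| = |(A n : ℝ) * B m - A m * B n| /
            (B n * B m) := by
          rw [div_sub_div _ _ hBn.ne' hBm.ne', abs_div, abs_of_pos (by positivity : 0 < (B n : ℝ) * B m)]
          congr 1
          rw [mul_comm (B n : ℝ) (A m : ℝ)]
        rw [h7] at h4
        have h8 : (B n : ℝ) * B m ≤ Y := by
          have h9 := hB2 n hns
          have h10 := hB2 m hm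
          nlinarith [sq_nonneg ((B n : ℝ) - B m)]
        rw [div_mul_eq_mul_div, div_lt_one (by positivity)] at h4
        have h11 : 1 * Y ≤ |(A n : ℝ) * B m - A m * B n| * Y := by gcongr
        linarith
      have h4 : |α n - α m| ≤ 2 * ρ := by
        have h5 := hAB n hns
        have h6 := hAB m hm
        rw [heq] at h5
        have e : α n - α m = (α n - (A m : ℝ) / B m) - (α m - (A m : ℝ) / B m) := by ring
        rw [e]
        refine (abs_sub _ _).trans ?_
        linarith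
      have h5 := h3 n hns
      have h6 := h3 m hm
      have e : (n : ℝ) - m = q * ((α n - α m) - (α n - (n : ℝ) / q) + (α m - (m : ℝ) / q)) := by
        field_simp
        ring
      rw [e, abs_mul, abs_of_pos hqr]
      have h7 : |(α n - α m) - (α n - (n : ℝ) / q) + (α m - (m : ℝ) / q)| ≤
          2 * ρ + 1 / q + 1 / q := by
        refine (abs_add_le _ _).trans (add_le_add ((abs_sub _ _).trans (add_le_add h4 h5)) h6)
      calc (q : ℝ) * |(α n - α m) - (α n - (n : ℝ) / q) + (α m - (m : ℝ) / q)|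
          ≤ q * (2 * ρ + 1 / q + 1 / q) := by gcongr
        _ = 2 * ρ * q + 2 := by field_simp; ring
    have h8 := card_le_of_mem_interval (s.filter (fun n => f n = v)) ((m : ℝ) - (2 * ρ * q + 2))
      ((m : ℝ) + (2 * ρ * q + 2)) (by
        have : 0 ≤ ρ * q := by positivity
        linarith) (by
        intro n hn
        have := key n hn
        rw [abs_le] at this
        constructor <;> linarith)
    linarith
  have himg : ((s.image f).card : ℝ) ≤ (w + 2 * ρ) * Y + 2 := by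
    have h9 := card_le_of_mem_interval (s.image f) ((a - ρ) * Y - 1) ((a + w + ρ) * Y) (by
        have : 0 ≤ (w + 2 * ρ) * Y := by positivity
        linarith) (by
        intro v hv
        rw [Finset.mem_image] at hv
        obtain ⟨n, hn, hnv⟩ := hv
        have h5 := hAB n hn
        rw [abs_le] at h5
        have h6 := h1 n hn
        have h7 := h2 n hn
        have h8 := Int.floor_le (((A n : ℝ) / B n) * Y)
        have h9 := Int.lt_floor_add_one (((A n : ℝ) / B n) * Y)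
        rw [← hf, hnv] at h8 h9
        constructor
        · have : (a - ρ) * Y ≤ ((A n : ℝ) / B n) * Y := by
            have : a - ρ ≤ (A n : ℝ) / B n := by linarith
            gcongr
          linarith
        · have : ((A n : ℝ) / B n) * Y ≤ (a + w + ρ) * Y := by
            have : (A n : ℝ) / B n ≤ a + w + ρ := by linarith
            gcongr
          linarith)
    linarith
  have hsum : (s.card : ℝ) = ∑ v ∈ s.image f, ((s.filter (fun n => f n = v)).card : ℝ) := by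
    have := Finset.card_eq_sum_card_image f s
    exact_mod_cast this
  rw [hsum]
  calc ∑ v ∈ s.image f, ((s.filter (fun n => f n = v)).card : ℝ)
      ≤ ∑ v ∈ s.image f, (4 * ρ * q + 5) := Finset.sum_le_sum hfib
    _ = (s.image f).card * (4 * ρ * q + 5) := by rw [Finset.sum_const, nsmul_eq_mul]
    _ ≤ _ := by gcongr

/-- Residues: for one denominator. -/
theorem pos_count (q : ℕ) (hq : q.Prime) (B : ℤ) (hB1 : 1 ≤ B) (hBq : B < q) (Y : ℝ) (hY : 0 ≤ Y)
    (s : Finset ℤ) (hs : ∀ n ∈ s, 0 < n ∧ n < q ∧ ∃ A : ℤ, |(n : ℝ) * B - A * q| ≤ Y) :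
    (s.card : ℝ) ≤ 2 * Y + 1 := by
  classical
  choose! h1 h2 A hA using hs
  obtain ⟨f, hf⟩ : ∃ f : ℤ → ℤ, ∀ n, f n = n * B - A n * q := ⟨_, fun _ => rfl⟩
  have hqp : Prime (q : ℤ) := Nat.prime_iff_prime_int.mp hq
  have hinj : Set.InjOn f s := by
    intro n hn m hm hnm
    have hn' := Finset.mem_coe.mp hn
    have hm' := Finset.mem_coe.mp hm
    rw [hf, hf] at hnm
    have h3 : (q : ℤ) ∣ (n - m) * B := ⟨A n - A m, by linarith⟩
    rcases hqp.dvd_or_dvd h3 with h4 | h4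
    · have h5 := h1 n hn'
      have h6 := h2 n hn'
      have h7 := h1 m hm'
      have h8 := h2 m hm'
      have : n - m = 0 := by
        apply Int.eq_zero_of_abs_lt_dvd h4
        rw [abs_lt]
        constructor <;> omega
      omega
    · have := Int.le_of_dvd (by omega) h4
      omega
  rw [← Finset.card_image_of_injOn hinj]
  have h3 := card_le_of_mem_interval (s.image f) (-Y) Y (by linarith) (by
    intro v hv
    rw [Finset.mem_image] at hv
    obtain ⟨n, hn, rfl⟩ := hv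
    have h4 := hA n hn
    have e : ((f n : ℤ) : ℝ) = (n : ℝ) * B - A n * q := by rw [hf]; push_cast; ring
    rw [e]
    exact abs_le.mp h4)
  linarith

end Pool.Agent.Helper35
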