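import Mathlib
import Pool.Agent.Helper35.MobLin

set_option autoImplicit false

namespace Pool.Agent.Helper35

open Polynomial

/-- A stage is good for fractions. -/
def LinGood (R : ℕ) (w r α : ℝ) : Prop :=
  ∀ A B : ℤ, 1 ≤ B → (256 : ℝ) ^ R ≤ w ^ R * (B : ℝ) ^ (2 * R + 1) →
    r ^ R * (B : ℝ) ^ (2 * R + 1) < 512 ^ R → ∀ ξ : ℝ, α + r ≤ ξ → ξ ≤ α + 2 * r →
    1 ≤ |ξ - (A : ℝ) / B| ^ R * (B : ℝ) ^ (2 * R + 1)

theorem lin_good (R : ℕ) (_hR : 1 ≤ R) (w r α κ lam : ℝ) (q I2 : ℕ) (hw : 0 < w)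
    (hwR : 16 * w * 4 ^ (2 * R) ≤ 1) (hr0 : 0 < r) (hr1 : 512 * r ≤ w)
    (hr2 : 4 * r * (q : ℝ) ^ 3 ≤ 1) (hlam1 : 1 / 2 ≤ lam) (hlam : lam ^ (2 * R) = 1 / 2)
    (hI1 : 2 ^ I2 ≤ q) (hI2 : (q : ℝ) ^ (2 * R) ≤ ((2 : ℝ) ^ (I2 + 1)) ^ (2 * R + 1))
    (hκ : 0 < κ) (hκI : (2048 : ℝ) ^ (2 * R) ≤ κ * 2 ^ (I2 + 1))
    (T1 : ∀ A B : ℤ, 1 ≤ B → 4 * w * (B : ℝ) ^ 2 < 1 → w / 128 < |α - (A : ℝ) / B|)
    (T2 : ∀ i : ℕ, i ≤ I2 → ∀ A B : ℤ, 2 ^ i ≤ B → B < 2 ^ (i + 1) → 1 ≤ 4 * w * (B : ℝ) ^ 2 →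
      (lam / 4) ^ i < |α - (A : ℝ) / B|)
    (T4 : ∀ A B : ℤ, 1 ≤ B → (q : ℝ) ^ (2 * R) ≤ (B : ℝ) ^ (2 * R + 1) →
      κ ≤ |α - (A : ℝ) / B| ^ (2 * R) * (B : ℝ) ^ (4 * R + 1)) : LinGood R w r α := by
  intro A B hB hstart hend ξ hξ1 hξ2
  have hBr : (1 : ℝ) ≤ B := by exact_mod_cast hB
  have hB0 : (0 : ℝ) < B := by linarith
  have hlam0 : 0 < lam := by linarith
  have hpert : |α - (A : ℝ) / B| - 2 * r ≤ |ξ - (A : ℝ) / B| := by
    have h1 : |α - (A : ℝ) / B| ≤ |ξ - (A : ℝ) / B| + |ξ - α| := by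
      have e : α - (A : ℝ) / B = (ξ - (A : ℝ) / B) - (ξ - α) := by ring
      rw [e]; exact abs_sub _ _
    have h2 : |ξ - α| ≤ 2 * r := by rw [abs_of_nonneg (by linarith)]; linarith
    linarith
  by_cases hc1 : 4 * w * (B : ℝ) ^ 2 < 1
  · have h1 := T1 A B hB hc1
    have h2 : w / 256 ≤ |ξ - (A : ℝ) / B| := by linarith
    calc (1 : ℝ) = 256 ^ R / 256 ^ R := by field_simp
      _ ≤ (w ^ R * (B : ℝ) ^ (2 * R + 1)) / 256 ^ R := by gcongr
      _ = (w / 256) ^ R * (B : ℝ) ^ (2 * R + 1) := by rw [div_pow]; ring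
      _ ≤ _ := by gcongr
  push Not at hc1
  by_cases hc2 : B < 2 ^ (I2 + 1)
  · -- dyadic block
    obtain ⟨i, hi⟩ : ∃ i : ℕ, i = Nat.log 2 B.toNat := ⟨_, rfl⟩
    have hBn : B.toNat ≠ 0 := by omega
    have hBcast : ((B.toNat : ℕ) : ℤ) = B := Int.toNat_of_nonneg (by omega)
    have hb1 : (2 : ℤ) ^ i ≤ B := by
      have := Nat.pow_log_le_self 2 hBn
      rw [← hi] at this
      have h3 : ((2 ^ i : ℕ) : ℤ) ≤ ((B.toNat : ℕ) : ℤ) := by exact_mod_cast this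
      rw [hBcast] at h3
      push_cast at h3
      exact h3
    have hb2 : B < (2 : ℤ) ^ (i + 1) := by
      have := Nat.lt_pow_succ_log_self (b := 2) (by norm_num) B.toNat
      rw [← hi] at this
      have h3 : ((B.toNat : ℕ) : ℤ) < ((2 ^ (i + 1) : ℕ) : ℤ) := by exact_mod_cast this
      rw [hBcast] at h3
      push_cast at h3
      exact h3
    have hiI : i ≤ I2 := by
      by_contra hcon
      push Not at hcon
      have h3 : (2 : ℤ) ^ (I2 + 1) ≤ 2 ^ i := pow_le_pow_right₀ (by norm_num) (by omega)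
      omega
    have h1 := T2 i hiI A B hb1 hb2 hc1
    have hb1r : (2 : ℝ) ^ i ≤ B := by exact_mod_cast hb1
    have hb2r : (B : ℝ) < 2 ^ (i + 1) := by exact_mod_cast hb2
    -- i ≥ 2R
    have hi2R : 2 * R ≤ i := by
      by_contra hcon
      push Not at hcon
      have h3 : (B : ℝ) ^ 2 < (2 ^ (i + 1)) ^ 2 := by gcongr
      have h4 : ((2 : ℝ) ^ (i + 1)) ^ 2 = 4 * 4 ^ i := by
        rw [← pow_mul, mul_comm, pow_mul]; norm_num; ring
      have h5 : (4 : ℝ) ^ i ≤ 4 ^ (2 * R) := pow_le_pow_right₀ (by norm_num) hcon.le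
      have h6 : 4 * w * (B : ℝ) ^ 2 < 1 := by
        calc 4 * w * (B : ℝ) ^ 2 < 4 * w * (2 ^ (i + 1)) ^ 2 := by gcongr
          _ = 16 * w * 4 ^ i := by rw [h4]; ring
          _ ≤ 16 * w * 4 ^ (2 * R) := by gcongr
          _ ≤ 1 := hwR
      linarith
    -- 4 r ≤ (lam/4)^i
    have h8 : 4 * r ≤ (lam / 4) ^ i := by
      have h3 : (1 / 8 : ℝ) ^ i ≤ (lam / 4) ^ i := by
        apply pow_le_pow_left₀ (by norm_num)
        linarith
      have h4 : ((2 : ℝ) ^ i) ≤ q := by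
        have : 2 ^ i ≤ q := (Nat.pow_le_pow_right (by norm_num) hiI).trans hI1
        exact_mod_cast this
      have h5 : (8 : ℝ) ^ i ≤ (q : ℝ) ^ 3 := by
        calc (8 : ℝ) ^ i = ((2 : ℝ) ^ i) ^ 3 := by rw [← pow_mul, mul_comm, pow_mul]; norm_num
          _ ≤ (q : ℝ) ^ 3 := by gcongr
      refine le_trans ?_ h3
      rw [one_div, inv_pow, ← one_div, le_div_iff₀ (by positivity)]
      calc 4 * r * 8 ^ i ≤ 4 * r * (q : ℝ) ^ 3 := by gcongr
        _ ≤ 1 := hr2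
    have h9 : (lam / 4) ^ i / 2 ≤ |ξ - (A : ℝ) / B| := by linarith
    -- the power inequality
    have h10 : (2 : ℝ) ^ R ≤ lam ^ (i * R) * 2 ^ i := by
      have h3 : (2 : ℝ) ^ R * 2 ^ R ≤ (lam ^ (i * R) * 2 ^ i) * (lam ^ (i * R) * 2 ^ i) := by
        have e1 : (lam ^ (i * R) * 2 ^ i) * (lam ^ (i * R) * 2 ^ i) =
            (lam ^ (2 * R)) ^ i * (2 ^ i * 2 ^ i) := by
          rw [← pow_mul]
          have : lam ^ (i * R) * lam ^ (i * R) = lam ^ (2 * R * i) := by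
            rw [← pow_add]; congr 1; ring
          calc _ = (lam ^ (i * R) * lam ^ (i * R)) * (2 ^ i * 2 ^ i) := by ring
            _ = _ := by rw [this]
        rw [e1, hlam]
        have e2 : (1 / 2 : ℝ) ^ i * (2 ^ i * 2 ^ i) = 2 ^ i := by
          rw [← mul_assoc, ← mul_pow]; norm_num
        rw [e2, ← pow_add]
        exact pow_le_pow_right₀ (by norm_num) (by omega)
      by_contra hcon
      push Not at hcon
      have h4 : 0 ≤ lam ^ (i * R) * 2 ^ i := by positivity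
      have h5 : (lam ^ (i * R) * 2 ^ i) * (lam ^ (i * R) * 2 ^ i) < 2 ^ R * 2 ^ R :=
        mul_lt_mul'' hcon hcon h4 h4
      linarith
    calc (1 : ℝ) = 2 ^ R / 2 ^ R := by field_simp
      _ ≤ (lam ^ (i * R) * 2 ^ i) / 2 ^ R := by gcongr
      _ = ((lam / 4) ^ i / 2) ^ R * (2 ^ i) ^ (2 * R + 1) := by
          rw [div_pow, div_pow, div_pow, ← pow_mul lam]
          have e1 : ((2 : ℝ) ^ i) ^ (2 * R + 1) = (4 ^ i) ^ R * 2 ^ i := by
            rw [pow_succ, ← pow_mul, ← pow_mul]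
            congr 1
            have : (4 : ℝ) = 2 ^ 2 := by norm_num
            rw [this, ← pow_mul]; congr 1; ring
          rw [e1]
          field_simp
      _ ≤ _ := by gcongr
  · -- large denominators
    push Not at hc2
    have hc2r : (2 : ℝ) ^ (I2 + 1) ≤ B := by exact_mod_cast hc2
    have hqB : (q : ℝ) ^ (2 * R) ≤ (B : ℝ) ^ (2 * R + 1) := by
      refine hI2.trans ?_
      gcongr
    have h1 := T4 A B hB hqB
    obtain ⟨x, hx⟩ : ∃ x : ℝ, x = |α - (A : ℝ) / B| := ⟨_, rfl⟩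
    rw [← hx] at h1 hpert
    have hx0 : 0 ≤ x := by rw [hx]; exact abs_nonneg _
    have hκB : (2048 : ℝ) ^ (2 * R) ≤ κ * B := hκI.trans (by gcongr)
    have h2 : 4 * r ≤ x := by
      by_contra hcon
      push Not at hcon
      have h3 : κ * B < 2048 ^ (2 * R) := by
        calc κ * B ≤ (x ^ (2 * R) * (B : ℝ) ^ (4 * R + 1)) * B := by gcongr
          _ ≤ ((4 * r) ^ (2 * R) * (B : ℝ) ^ (4 * R + 1)) * B := by gcongr
          _ = 4 ^ (2 * R) * ((r ^ R * (B : ℝ) ^ (2 * R + 1)) ^ 2) := by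
              have e1 : (B : ℝ) ^ (4 * R + 1) * B = ((B : ℝ) ^ (2 * R + 1)) ^ 2 := by
                rw [← pow_succ, ← pow_mul]; congr 1; ring
              have e2 : r ^ (2 * R) = (r ^ R) ^ 2 := by rw [← pow_mul]; congr 1; ring
              rw [mul_pow, mul_pow, e2, mul_assoc, e1]; ring
          _ < 4 ^ (2 * R) * ((512 ^ R) ^ 2) := by gcongr
          _ = 2048 ^ (2 * R) := by
              have e2 : ((512 : ℝ) ^ R) ^ 2 = 512 ^ (2 * R) := by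
                rw [← pow_mul]; congr 1; ring
              rw [e2, ← mul_pow]; norm_num
      linarith
    have h3 : x / 2 ≤ |ξ - (A : ℝ) / B| := by linarith
    have h4 : (2 : ℝ) ^ R ≤ x ^ R * (B : ℝ) ^ (2 * R + 1) := by
      have h5 : (2 : ℝ) ^ R * 2 ^ R ≤ (x ^ R * (B : ℝ) ^ (2 * R + 1)) *
          (x ^ R * (B : ℝ) ^ (2 * R + 1)) := by
        have e1 : (x ^ R * (B : ℝ) ^ (2 * R + 1)) * (x ^ R * (B : ℝ) ^ (2 * R + 1)) =
            (x ^ (2 * R) * (B : ℝ) ^ (4 * R + 1)) * B := by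
          have e2 : x ^ (2 * R) = x ^ R * x ^ R := by rw [← pow_add]; congr 1; ring
          have e3 : (B : ℝ) ^ (4 * R + 1) * B = (B : ℝ) ^ (2 * R + 1) * (B : ℝ) ^ (2 * R + 1) := by
            rw [← pow_succ, ← pow_add]; congr 1; ring
          rw [e2, mul_assoc _ _ (B : ℝ), e3]; ring
        rw [e1]
        calc (2 : ℝ) ^ R * 2 ^ R = 2 ^ (2 * R) := by rw [← pow_add]; congr 1; ring
          _ ≤ 2048 ^ (2 * R) := by gcongr; norm_num
          _ ≤ κ * B := hκB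
          _ ≤ _ := by gcongr
      by_contra hcon
      push Not at hcon
      have h6 : 0 ≤ x ^ R * (B : ℝ) ^ (2 * R + 1) := by positivity
      have h7 := mul_lt_mul'' hcon hcon h6 h6
      linarith
    calc (1 : ℝ) = 2 ^ R / 2 ^ R := by field_simp
      _ ≤ (x ^ R * (B : ℝ) ^ (2 * R + 1)) / 2 ^ R := by gcongr
      _ = (x / 2) ^ R * (B : ℝ) ^ (2 * R + 1) := by rw [div_pow]; ring
      _ ≤ _ := by gcongr

end Pool.Agent.Helper35
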