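import Mathlib
import Pool.Agent.Helper35.MobXi

set_option autoImplicit false

namespace Pool.Agent.Helper35

open Polynomial

/-- Multiplier of the threshold exponent. -/
def tt (m : ℕ) : ℕ := 10 * (m + 1) ^ 2
/-- Threshold exponent in degree `m`. -/
def TT (m : ℕ) : ℕ := tt m * (m + 1)
/-- Final exponent in degree `m`. -/
def EE (m : ℕ) : ℕ := (tt m + 4) * (m + 1)

theorem EE_mono : Monotone EE := by
  intro a b h
  unfold EE tt
  gcongr

theorem TT_facts (m : ℕ) (hm : 2 ≤ m) :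
    4 * m + 4 + 2 * (m + 1) * (m * (4 * m + 5)) + 3 ≤ TT m ∧ TT m ≤ EE m ∧
    6 * (m + 1) + 1 ≤ TT m := by
  have e1 : TT m = 10 * (m + 1) ^ 3 := by unfold TT tt; ring
  have e2 : EE m = TT m + 4 * (m + 1) := by unfold EE TT; ring
  have e3 : 4 * m + 4 + 2 * (m + 1) * (m * (4 * m + 5)) = (m + 1) * (8 * m ^ 2 + 10 * m + 4) := by
    ring
  have e4 : 10 * (m + 1) ^ 3 = (m + 1) * (8 * m ^ 2 + 10 * m + 4) +
      (m + 1) * (2 * m ^ 2 + 10 * m + 6) := by ring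
  have h1 : 3 ≤ (m + 1) * (2 * m ^ 2 + 10 * m + 6) := by
    calc 3 ≤ 1 * 6 := by norm_num
      _ ≤ (m + 1) * (2 * m ^ 2 + 10 * m + 6) := Nat.mul_le_mul (by omega) (by omega)
  have h2 : 6 * (m + 1) + 1 ≤ 10 * (m + 1) ^ 3 := by
    have : (m + 1) ≤ (m + 1) ^ 3 := Nat.le_self_pow (by norm_num) _
    omega
  refine ⟨by rw [e3, e1, e4]; omega, by omega, by rw [e1]; exact h2⟩

/-- A stage is good in the degrees from 2 to `k`. -/
def GoodM (k q : ℕ) (w r α : ℝ) (S : ℤ[X]) : Prop :=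
  ∀ P : ℤ[X], IrrQ P → 2 ≤ P.natDegree → P.natDegree ≤ k →
    1 ≤ w * (ht P : ℝ) ^ (TT P.natDegree) →
    r * (ht P : ℝ) ^ (TT P.natDegree) < 2 →
    (∃ g : ℤ, g ≠ 0 ∧ P = C g * S ∧ q < (ht P) ^ (2 * (P.natDegree + 1))) ∨
    ∀ ξ : ℝ, α + r ≤ ξ → ξ ≤ α + 2 * r → ξ ≤ 1 →
      1 ≤ |aeval ξ P| * (ht P : ℝ) ^ (EE P.natDegree)

theorem good_ofM {d : ℕ} {r0 : ℕ} (D : ThetaData d r0) (hd : 2 ≤ d) (k q : ℕ) (n p' q' : ℤ)
    (hadm : Adm q n p' q') (w : ℝ) (hw : 0 < w) (hwk : 4 * ((k : ℝ) + 1) ^ 2 * w ≤ 1)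
    (C1 : ℕ → ℝ) (hC1 : ∀ m, 2 ≤ m → m ≤ k → 1 ≤ C1 m ∧
      ∀ (q : ℕ) (n p' q' : ℤ), Adm q n p' q' →
      ∀ P : ℤ[X], IrrQ P → P.natDegree = m → aeval (mα D.θ q n p' q') P ≠ 0 →
        1 ≤ C1 m * (|aeval (mα D.θ q n p' q') P| * (ht P : ℝ) ^ (4 * m + 4) *
          (q : ℝ) ^ (m * (4 * m + 5))))
    (hqC : ∀ m, 2 ≤ m → m ≤ k → (2 * C1 m) ^ (2 * (m + 1)) ≤ q)
    (hqk : ∀ m, m ≤ k → (4 * (k + 1) ^ 2) ^ (2 * (m + 1)) ≤ q)
    (hqw : 1 ≤ (q : ℝ) * w ^ 2)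
    (hlowA : ∀ P : ℤ[X], IrrQ P → 2 ≤ P.natDegree → P.natDegree ≤ k →
      1 ≤ w * (ht P : ℝ) ^ (tt P.natDegree * (P.natDegree + 1)) →
      (ht P) ^ (2 * (P.natDegree + 1)) ≤ q →
      2 < |aeval (mα D.θ q n p' q') P| *
        (ht P : ℝ) ^ ((tt P.natDegree + 4) * (P.natDegree + 1)))
    (hlowB : ∀ P : ℤ[X], IrrQ P → 2 ≤ P.natDegree → P.natDegree ≤ k →
      1 ≤ w * (ht P : ℝ) ^ (1 * (P.natDegree + 1)) → (ht P) ^ (2 * (P.natDegree + 1)) ≤ q →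
      2 < |aeval (mα D.θ q n p' q') P| * (ht P : ℝ) ^ ((1 + 4) * (P.natDegree + 1)))
    (r : ℝ) (hr0 : 0 < r) (hr1 : 2 * ((k : ℝ) + 1) ^ 2 * r ≤ w ^ (EE k + 1)) :
    GoodM k q w r (mα D.θ q n p' q') (MS D.T d q n p' q') := by
  obtain ⟨hSirr, hSprim, hSdeg, _, hSroot, _⟩ := MS_props D hd q n p' q' hadm
  obtain ⟨α, hα⟩ : ∃ α : ℝ, α = mα D.θ q n p' q' := ⟨_, rfl⟩
  have hα0 : 0 ≤ α := by rw [hα]; exact hadm.mα_nonneg D.nonneg
  have hα1 : α ≤ 1 := by rw [hα]; exact hadm.mα_le D.nonneg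
  intro P hP hP2 hPk hPw hPr
  rw [← hα] at hSroot hlowA hlowB ⊢
  obtain ⟨m, hm⟩ : ∃ m, m = P.natDegree := ⟨_, rfl⟩
  rw [← hm] at hP2 hPk hPw hPr ⊢
  obtain ⟨H, hH⟩ : ∃ H : ℝ, H = (ht P : ℝ) := ⟨_, rfl⟩
  have hH1 : 1 ≤ ht P := ht_pos hP.ne_zero
  have hHr : 1 ≤ H := by rw [hH]; exact_mod_cast hH1
  have hH0 : 0 < H := by linarith
  rw [← hH] at hPw hPr ⊢
  obtain ⟨hT1, hT2, hT3⟩ := TT_facts m hP2
  by_cases hP0 : aeval α P = 0
  · left
    obtain ⟨g, hg, hPg⟩ := eq_C_mul_of_root _ P hSirr hSprim hP α hSroot hP0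
    refine ⟨g, hg, hPg, ?_⟩
    by_contra hcon
    push Not at hcon
    have h1 := hlowA P hP (by omega) (by omega) (by rw [← hm, ← hH]; exact hPw)
      (by rw [← hm]; exact hcon)
    rw [hP0, abs_zero, zero_mul] at h1
    linarith
  right
  intro ξ hξ1 hξ2 hξle
  have hαabs : |α| ≤ 1 := by rw [abs_of_nonneg hα0]; exact hα1
  have hξabs : |ξ| ≤ 1 := by rw [abs_le]; constructor <;> linarith
  have hmk : (m : ℝ) ≤ k := by exact_mod_cast hPk
  -- perturbation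
  have hpert : |aeval α P| - ((m : ℝ) + 1) ^ 2 * H * (2 * r) ≤ |aeval ξ P| := by
    have h1 := abs_aeval_sub_le P ξ α hξabs hαabs
    rw [← hm, ← hH] at h1
    have h2 : |ξ - α| ≤ 2 * r := by rw [abs_of_nonneg (by linarith)]; linarith
    have h3 : |aeval α P| ≤ |aeval ξ P| + |aeval ξ P - aeval α P| := by
      have := abs_sub_abs_le_abs_sub (aeval α P) (aeval ξ P)
      rw [abs_sub_comm] at this
      linarith
    have h4 : ((m : ℝ) + 1) ^ 2 * H * |ξ - α| ≤ ((m : ℝ) + 1) ^ 2 * H * (2 * r) := by gcongr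
    linarith
  -- a general closing lemma
  have close : ∀ E : ℕ, 2 ≤ |aeval α P| * H ^ E →
      ((m : ℝ) + 1) ^ 2 * H * (2 * r) * H ^ E ≤ 1 → E ≤ EE m →
      1 ≤ |aeval ξ P| * H ^ EE m := by
    intro E h1 h2 h3
    have h5 : (|aeval α P| - ((m : ℝ) + 1) ^ 2 * H * (2 * r)) * H ^ E ≤
        |aeval ξ P| * H ^ E := by gcongr
    rw [sub_mul] at h5
    calc (1 : ℝ) ≤ |aeval ξ P| * H ^ E := by linarith
      _ ≤ |aeval ξ P| * H ^ EE m := by
          have : H ^ E ≤ H ^ EE m := pow_le_pow_right₀ hHr h3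
          gcongr
  by_cases hc1 : w * H ^ (m + 1) < 1
  · -- H < 1 / w
    have hHw : w * H ≤ 1 := by
      have : H ≤ H ^ (m + 1) := le_self_pow₀ hHr (by omega)
      calc w * H ≤ w * H ^ (m + 1) := by gcongr
        _ ≤ 1 := hc1.le
    have hpertA : ((m : ℝ) + 1) ^ 2 * H * (2 * r) * H ^ EE m ≤ 1 := by
      calc ((m : ℝ) + 1) ^ 2 * H * (2 * r) * H ^ EE m =
            (2 * ((m : ℝ) + 1) ^ 2 * r) * H ^ (EE m + 1) := by ring
        _ ≤ (2 * ((k : ℝ) + 1) ^ 2 * r) * H ^ (EE k + 1) := by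
            have h1 : H ^ (EE m + 1) ≤ H ^ (EE k + 1) :=
              pow_le_pow_right₀ hHr (by have := EE_mono hPk; omega)
            gcongr
        _ ≤ w ^ (EE k + 1) * H ^ (EE k + 1) := by gcongr
        _ = (w * H) ^ (EE k + 1) := by rw [mul_pow]
        _ ≤ 1 := pow_le_one₀ (by positivity) hHw
    -- the height is small compared with q
    have hcase : (ht P) ^ (2 * (m + 1)) ≤ q := by
      by_contra hcon
      push Not at hcon
      have h2 : (q : ℝ) < H ^ (2 * (m + 1)) := by rw [hH]; exact_mod_cast hcon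
      have h3 : (q : ℝ) * w ^ 2 < 1 := by
        calc (q : ℝ) * w ^ 2 < H ^ (2 * (m + 1)) * w ^ 2 := by gcongr
          _ = (w * H ^ (m + 1)) ^ 2 := by rw [mul_pow]; ring
          _ ≤ 1 := pow_le_one₀ (by positivity) hc1.le
      linarith
    have h1 := hlowA P hP (by omega) (by omega) (by rw [← hm, ← hH]; exact hPw)
      (by rw [← hm]; exact hcase)
    rw [← hm, ← hH] at h1
    exact close (EE m) h1.le hpertA le_rfl
  push Not at hc1
  by_cases hc2 : (ht P) ^ (2 * (m + 1)) ≤ q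
  · -- low regime, moderately large heights
    have h1 := hlowB P hP (by omega) (by omega) (by rw [← hm, ← hH, one_mul]; exact hc1)
      (by rw [← hm]; exact hc2)
    rw [← hm, ← hH] at h1
    apply close _ h1.le _ (by unfold EE; gcongr; unfold tt; have := Nat.one_le_pow 2 (m + 1) (by omega); omega)
    have h2 : H ^ (6 * (m + 1) + 1) ≤ H ^ TT m := pow_le_pow_right₀ hHr hT3
    have h3 : H ^ (6 * (m + 1) + 1) = H * H ^ ((1 + 4) * (m + 1)) * H ^ (m + 1) := by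
      rw [← pow_succ', ← pow_add]; congr 1; ring
    have h4 : r * (H * H ^ ((1 + 4) * (m + 1))) * H ^ (m + 1) ≤ 2 := by
      calc r * (H * H ^ ((1 + 4) * (m + 1))) * H ^ (m + 1) = r * H ^ (6 * (m + 1) + 1) := by
            rw [h3]; ring
        _ ≤ r * H ^ TT m := by gcongr
        _ ≤ 2 := hPr.le
    have h5 : r * (H * H ^ ((1 + 4) * (m + 1))) ≤ 2 * w := by
      have h6 : 0 ≤ r * (H * H ^ ((1 + 4) * (m + 1))) := by positivity
      calc r * (H * H ^ ((1 + 4) * (m + 1))) = r * (H * H ^ ((1 + 4) * (m + 1))) * 1 := by ring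
        _ ≤ r * (H * H ^ ((1 + 4) * (m + 1))) * (w * H ^ (m + 1)) := by gcongr
        _ = w * (r * (H * H ^ ((1 + 4) * (m + 1))) * H ^ (m + 1)) := by ring
        _ ≤ w * 2 := by gcongr
        _ = 2 * w := by ring
    calc ((m : ℝ) + 1) ^ 2 * H * (2 * r) * H ^ ((1 + 4) * (m + 1))
        = 2 * ((m : ℝ) + 1) ^ 2 * (r * (H * H ^ ((1 + 4) * (m + 1)))) := by ring
      _ ≤ 2 * ((k : ℝ) + 1) ^ 2 * (2 * w) := by gcongr
      _ = 4 * ((k : ℝ) + 1) ^ 2 * w := by ring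
      _ ≤ 1 := hwk
  · -- the transferred measure
    push Not at hc2
    obtain ⟨hC11, hC12⟩ := hC1 m hP2 hPk
    have h1 := hC12 q n p' q' hadm P hP hm.symm (by rw [← hα]; exact hP0)
    rw [← hα, ← hH] at h1
    have hqH : (q : ℝ) ≤ H ^ (2 * (m + 1)) := by rw [hH]; exact_mod_cast hc2.le
    have hCH : 2 * C1 m ≤ H := by
      have h2 := (hqC m hP2 hPk).trans hqH
      exact (pow_le_pow_iff_left₀ (by linarith) hH0.le (by omega)).mp h2
    have hkH : 4 * ((k : ℝ) + 1) ^ 2 ≤ H := by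
      have h2 : ((4 * (k + 1) ^ 2) ^ (2 * (m + 1)) : ℕ) ≤ q := hqk m hPk
      have h3 : (4 * ((k : ℝ) + 1) ^ 2) ^ (2 * (m + 1)) ≤ q := by exact_mod_cast h2
      exact (pow_le_pow_iff_left₀ (by positivity) hH0.le (by omega)).mp (h3.trans hqH)
    obtain ⟨F, hF⟩ : ∃ F : ℕ, F = 4 * m + 4 + 2 * (m + 1) * (m * (4 * m + 5)) := ⟨_, rfl⟩
    rw [← hF] at hT1
    have h3 : 2 ≤ |aeval α P| * H ^ (F + 1) := by
      calc (2 : ℝ) = 2 * 1 := by norm_num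
        _ ≤ 2 * (C1 m * (|aeval α P| * H ^ (4 * m + 4) * (q : ℝ) ^ (m * (4 * m + 5)))) := by gcongr
        _ = (2 * C1 m) * (|aeval α P| * H ^ (4 * m + 4) * (q : ℝ) ^ (m * (4 * m + 5))) := by ring
        _ ≤ H * (|aeval α P| * H ^ (4 * m + 4) * (H ^ (2 * (m + 1))) ^ (m * (4 * m + 5))) := by
            gcongr
        _ = |aeval α P| * H ^ (F + 1) := by
            have : H ^ (F + 1) = H * (H ^ (4 * m + 4) * H ^ (2 * (m + 1) * (m * (4 * m + 5)))) := by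
              rw [← pow_add, ← pow_succ', hF]
            rw [this, ← pow_mul]; ring
    apply close (F + 1) h3 _ (by omega)
    have h4 : H ^ (F + 3) ≤ H ^ TT m := pow_le_pow_right₀ hHr (by omega)
    have h5 : r * (H * H ^ (F + 1)) * H ≤ 2 := by
      calc r * (H * H ^ (F + 1)) * H = r * H ^ (F + 3) := by ring
        _ ≤ r * H ^ TT m := by gcongr
        _ ≤ 2 := hPr.le
    have h6 : 0 ≤ r * (H * H ^ (F + 1)) := by positivity
    have h7 : 4 * ((m : ℝ) + 1) ^ 2 ≤ H := by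
      refine le_trans ?_ hkH
      gcongr
    have h8 : (r * (H * H ^ (F + 1))) * (4 * ((m : ℝ) + 1) ^ 2) ≤ 2 := by
      calc (r * (H * H ^ (F + 1))) * (4 * ((m : ℝ) + 1) ^ 2) ≤ (r * (H * H ^ (F + 1))) * H := by
            gcongr
        _ ≤ 2 := h5
    calc ((m : ℝ) + 1) ^ 2 * H * (2 * r) * H ^ (F + 1)
        = ((r * (H * H ^ (F + 1))) * (4 * ((m : ℝ) + 1) ^ 2)) / 2 := by ring
      _ ≤ 1 := by linarith

end Pool.Agent.Helper35
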