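import Mathlib
import Pool.Agent.Helper35.MobGood

set_option autoImplicit false

namespace Pool.Agent.Helper35

open Polynomial

/-- Inverse of `n` modulo `q`. -/
noncomputable def qq (q : ℕ) (n : ℤ) : ℤ := (((n : ZMod q)⁻¹).val : ℤ)
/-- The companion numerator. -/
noncomputable def pp (q : ℕ) (n : ℤ) : ℤ := (n * qq q n - 1) / q
/-- The family of images of `θ`. -/
noncomputable def fα (θ : ℝ) (q : ℕ) (n : ℤ) : ℝ := mα θ q n (pp q n) (qq q n)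

theorem adm_of (q : ℕ) (hq : q.Prime) (n : ℤ) (hn0 : 0 < n) (hnq : n < q) :
    Adm q n (pp q n) (qq q n) := by
  have : Fact q.Prime := ⟨hq⟩
  have hne : (n : ZMod q) ≠ 0 := by
    intro h0
    rw [ZMod.intCast_zmod_eq_zero_iff_dvd] at h0
    have := Int.le_of_dvd hn0 h0
    omega
  have hqq : ((qq q n : ℤ) : ZMod q) = (n : ZMod q)⁻¹ := by
    unfold qq
    push_cast
    exact ZMod.natCast_zmod_val _
  have hdvd : (q : ℤ) ∣ n * qq q n - 1 := by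
    rw [← ZMod.intCast_zmod_eq_zero_iff_dvd]
    push_cast
    rw [hqq, mul_inv_cancel₀ hne, sub_self]
  have hpp : pp q n * q = n * qq q n - 1 := by
    unfold pp
    exact Int.ediv_mul_cancel hdvd
  have hq0 : 0 ≤ qq q n := by unfold qq; positivity
  have hq1 : qq q n ≠ 0 := by
    intro h0
    rw [h0] at hqq
    push_cast at hqq
    exact inv_ne_zero hne hqq.symm
  have hqlt : qq q n < q := by
    unfold qq
    exact_mod_cast ZMod.val_lt _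
  have hqpos : 0 < (q : ℤ) := by exact_mod_cast hq.pos
  have hqq1 : 1 ≤ qq q n := by omega
  refine ⟨hq.one_lt.le, by linarith, by omega, hqlt.le, hn0.le, hnq.le, ?_, ?_⟩
  · by_contra hcon
    push Not at hcon
    have h1 : pp q n * q ≤ -1 * q := by
      have : pp q n ≤ -1 := by omega
      gcongr
    have h2 : 1 ≤ n * qq q n := by
      calc (1 : ℤ) = 1 * 1 := by norm_num
        _ ≤ n * qq q n := by
            have : 1 ≤ n := by omega
            gcongr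
    omega
  · by_contra hcon
    push Not at hcon
    have h1 : (q : ℤ) * q ≤ pp q n * q := by gcongr
    have h2 : n * qq q n ≤ q * q := by
      gcongr
    omega

theorem Adm.near {q : ℕ} {n p' q' : ℤ} (h : Adm q n p' q') {θ : ℝ} (hθ : 0 ≤ θ) :
    |mα θ q n p' q' - (n : ℝ) / q| ≤ 1 / q := by
  rw [h.mα_sub hθ]
  have h1 := h.den_pos hθ
  have hq : (0 : ℝ) < q := by exact_mod_cast h.qpos
  have e : (n : ℝ) / q - 1 / (q * ((q : ℝ) * θ + q')) - (n : ℝ) / q =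
      -(1 / (q * ((q : ℝ) * θ + q'))) := by ring
  rw [e, abs_neg, abs_of_pos (by positivity)]
  apply one_div_le_one_div_of_le hq
  have h2 : (1 : ℝ) ≤ (q : ℝ) * θ + q' := by
    have h3 : (1 : ℝ) ≤ q' := by exact_mod_cast h.q'0
    have : (0 : ℝ) ≤ q * θ := by positivity
    linarith
  calc (q : ℝ) = q * 1 := (mul_one _).symm
    _ ≤ _ := by gcongr

theorem Adm.near' {q : ℕ} {n p' q' : ℤ} (h : Adm q n p' q') {θ : ℝ} (hθ : 0 < θ) :
    |mα θ q n p' q' - (n : ℝ) / q| ≤ 1 / (q * (q * θ)) := by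
  rw [h.mα_sub hθ.le]
  have h1 := h.den_pos hθ.le
  have hq : (0 : ℝ) < q := by exact_mod_cast h.qpos
  have e : (n : ℝ) / q - 1 / (q * ((q : ℝ) * θ + q')) - (n : ℝ) / q =
      -(1 / (q * ((q : ℝ) * θ + q'))) := by ring
  rw [e, abs_neg, abs_of_pos (by positivity)]
  apply one_div_le_one_div_of_le (by positivity)
  have := h.den_ge (θ := θ)
  gcongr

theorem block_low (θ : ℝ) (hθ : 0 ≤ θ) (q : ℕ) (hq : q.Prime) (a w lam : ℝ) (hw : 0 < w)
    (hlam0 : 0 < lam) (hlam1 : lam ≤ 1) (i : ℕ) (hi : 1 ≤ 16 * w * 4 ^ i) (s : Finset ℤ)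
    (hs : ∀ n ∈ s, 0 < n ∧ n < q ∧ a ≤ fα θ q n ∧ fα θ q n ≤ a + w ∧
      ∃ A B : ℤ, 2 ^ i ≤ B ∧ B < 2 ^ (i + 1) ∧ |fα θ q n - (A : ℝ) / B| ≤ (lam / 4) ^ i) :
    (s.card : ℝ) ≤ 656 * w * q * lam ^ i + 820 * w * 4 ^ i := by
  have hqr : (0 : ℝ) < q := by exact_mod_cast hq.pos
  have h1 := sep_count (fα θ q) q hq.pos a w ((lam / 4) ^ i) (4 ^ (i + 1)) hw (by positivity)
    (by positivity) s (by
      intro n hn
      obtain ⟨hn0, hnq, h1, h2, A, B, hB1, hB2, hAB⟩ := hs n hn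
      have hadm := adm_of q hq n hn0 hnq
      have hBpos : (1 : ℤ) ≤ B := le_trans (one_le_pow₀ (by norm_num)) hB1
      refine ⟨h1, h2, hadm.near hθ, A, B, hBpos, ?_, hAB⟩
      have h3 : (B : ℝ) ≤ 2 ^ (i + 1) := by exact_mod_cast hB2.le
      have h4 : (0 : ℝ) ≤ B := by exact_mod_cast (by omega : 0 ≤ B)
      calc (B : ℝ) ^ 2 ≤ (2 ^ (i + 1)) ^ 2 := by gcongr
        _ = 4 ^ (i + 1) := by rw [← pow_mul, mul_comm, pow_mul]; norm_num)
  refine h1.trans ?_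
  have e1 : (lam / 4) ^ i * 4 ^ i = lam ^ i := by
    rw [← mul_pow]; congr 1; field_simp
  have hli : lam ^ i ≤ 1 := pow_le_one₀ hlam0.le hlam1
  have h2 : (w + 2 * (lam / 4) ^ i) * 4 ^ (i + 1) + 2 ≤ 164 * w * 4 ^ i := by
    have e2 : (w + 2 * (lam / 4) ^ i) * 4 ^ (i + 1) = 4 * (w * 4 ^ i) + 8 * ((lam / 4) ^ i * 4 ^ i) := by
      rw [pow_succ]; ring
    rw [e2, e1]
    have h3 : 1 ≤ 16 * (w * 4 ^ i) := by linarith
    have e3 : 164 * w * 4 ^ i = 164 * (w * 4 ^ i) := by ring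
    rw [e3]
    linarith
  calc ((w + 2 * (lam / 4) ^ i) * 4 ^ (i + 1) + 2) * (4 * (lam / 4) ^ i * q + 5)
      ≤ (164 * w * 4 ^ i) * (4 * (lam / 4) ^ i * q + 5) := by gcongr
    _ = 656 * w * q * ((lam / 4) ^ i * 4 ^ i) + 820 * w * 4 ^ i := by ring
    _ = _ := by rw [e1]

theorem block_high (θ : ℝ) (hθ : 0 < θ) (q : ℕ) (hq : q.Prime) (lam : ℝ)
    (hlam0 : 0 < lam) (i : ℕ) (hi : 2 ^ (i + 1) ≤ q) (s : Finset ℤ)
    (hs : ∀ n ∈ s, 0 < n ∧ n < q ∧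
      ∃ A B : ℤ, 2 ^ i ≤ B ∧ B < 2 ^ (i + 1) ∧ |fα θ q n - (A : ℝ) / B| ≤ (lam / 4) ^ i) :
    (s.card : ℝ) ≤ 4 * q * lam ^ i + (2 / θ + 1) * 2 ^ i := by
  classical
  have hqr : (0 : ℝ) < q := by exact_mod_cast hq.pos
  have hiq : (2 : ℤ) ^ (i + 1) ≤ q := by exact_mod_cast hi
  obtain ⟨Y, hY⟩ : ∃ Y : ℝ, Y = 2 * q * lam ^ i / 2 ^ i + 1 / θ := ⟨_, rfl⟩
  have hY0 : 0 ≤ Y := by rw [hY]; positivity
  obtain ⟨sB, hsB⟩ : ∃ sB : ℤ → Finset ℤ, sB = fun B : ℤ => s.filter (fun n : ℤ =>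
    ∃ A : ℤ, |(n : ℝ) * (B : ℝ) - (A : ℝ) * (q : ℝ)| ≤ Y) := ⟨_, rfl⟩
  have hsub : s ⊆ (Finset.Ico ((2 : ℤ) ^ i) (2 ^ (i + 1))).biUnion sB := by
    intro n hn
    obtain ⟨hn0, hnq, A, B, hB1, hB2, hAB⟩ := hs n hn
    rw [Finset.mem_biUnion]
    refine ⟨B, Finset.mem_Ico.mpr ⟨hB1, hB2⟩, ?_⟩
    rw [hsB, Finset.mem_filter]
    refine ⟨hn, A, ?_⟩
    have hadm := adm_of q hq n hn0 hnq
    have hBpos : (1 : ℤ) ≤ B := le_trans (one_le_pow₀ (by norm_num)) hB1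
    have hBr : (0 : ℝ) < B := by exact_mod_cast (by omega : 0 < B)
    have hB2r : (B : ℝ) ≤ 2 ^ (i + 1) := by exact_mod_cast hB2.le
    have hBq : (B : ℝ) ≤ q := by exact_mod_cast (by omega : B ≤ (q : ℤ))
    have h1 := hadm.near' hθ
    change |fα θ q n - (n : ℝ) / q| ≤ 1 / (q * (q * θ)) at h1
    have e1 : (n : ℝ) * B - A * q = q * B * ((fα θ q n - (A : ℝ) / B) - (fα θ q n - (n : ℝ) / q)) := by
      field_simp
      ring
    rw [e1, abs_mul, abs_of_pos (by positivity : 0 < (q : ℝ) * B)]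
    have h2 : |(fα θ q n - (A : ℝ) / B) - (fα θ q n - (n : ℝ) / q)| ≤
        (lam / 4) ^ i + 1 / (q * (q * θ)) := (abs_sub _ _).trans (add_le_add hAB h1)
    calc (q : ℝ) * B * |(fα θ q n - (A : ℝ) / B) - (fα θ q n - (n : ℝ) / q)|
        ≤ q * B * ((lam / 4) ^ i + 1 / (q * (q * θ))) := by gcongr
      _ = q * B * (lam / 4) ^ i + (B / q) * (1 / θ) := by field_simp
      _ ≤ q * 2 ^ (i + 1) * (lam / 4) ^ i + 1 * (1 / θ) := by
          have h3 : (B : ℝ) / q ≤ 1 := by rw [div_le_one hqr]; exact hBq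
          gcongr
      _ = Y := by
          rw [hY, div_pow]
          have : (4 : ℝ) ^ i = 2 ^ i * 2 ^ i := by rw [← mul_pow]; norm_num
          rw [this, pow_succ]
          field_simp
  have hone : ∀ B ∈ Finset.Ico ((2 : ℤ) ^ i) (2 ^ (i + 1)), ((sB B).card : ℝ) ≤ 2 * Y + 1 := by
    intro B hB
    rw [Finset.mem_Ico] at hB
    have hBpos : (1 : ℤ) ≤ B := le_trans (one_le_pow₀ (by norm_num)) hB.1
    apply pos_count q hq B hBpos (by omega) Y hY0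
    intro n hn
    rw [hsB, Finset.mem_filter] at hn
    obtain ⟨hn0, hnq, _⟩ := hs n hn.1
    exact ⟨hn0, hnq, hn.2⟩
  have hcard : (s.card : ℝ) ≤ ∑ B ∈ Finset.Ico ((2 : ℤ) ^ i) (2 ^ (i + 1)), ((sB B).card : ℝ) := by
    have h1 : s.card ≤ ∑ B ∈ Finset.Ico ((2 : ℤ) ^ i) (2 ^ (i + 1)), (sB B).card :=
      (Finset.card_le_card hsub).trans Finset.card_biUnion_le
    exact_mod_cast h1
  refine hcard.trans ((Finset.sum_le_sum hone).trans (le_of_eq ?_))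
  rw [Finset.sum_const, nsmul_eq_mul, Int.card_Ico]
  have e2 : (((2 : ℤ) ^ (i + 1) - 2 ^ i).toNat : ℝ) = 2 ^ i := by
    have : (2 : ℤ) ^ (i + 1) - 2 ^ i = ((2 ^ i : ℕ) : ℤ) := by push_cast; ring
    rw [this, Int.toNat_natCast]
    push_cast
    rfl
  rw [e2, hY]
  field_simp
  ring

end Pool.Agent.Helper35
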