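import Mathlib
import Pool.Agent.Helper35.MobFam

set_option autoImplicit false

namespace Pool.Agent.Helper35

open Polynomial

theorem exists_I2 (R q : ℕ) (hq : 2 ≤ q) (hR : 1 ≤ R) :
    ∃ I : ℕ, (2 ^ I) ^ (2 * R + 1) ≤ q ^ (2 * R) ∧ q ^ (2 * R) < (2 ^ (I + 1)) ^ (2 * R + 1) := by
  have hex : ∃ j : ℕ, q ^ (2 * R) < (2 ^ j) ^ (2 * R + 1) := by
    refine ⟨q ^ (2 * R), ?_⟩
    calc q ^ (2 * R) < 2 ^ (q ^ (2 * R)) := Nat.lt_two_pow_self
      _ ≤ (2 ^ (q ^ (2 * R))) ^ (2 * R + 1) := Nat.le_self_pow (by omega) _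
  have h1 := Nat.find_spec hex
  have h2 : ∀ i < Nat.find hex, ¬ (q ^ (2 * R) < (2 ^ i) ^ (2 * R + 1)) :=
    fun i hi => Nat.find_min hex hi
  obtain ⟨j, hj⟩ : ∃ j, j = Nat.find hex := ⟨_, rfl⟩
  rw [← hj] at h1 h2
  have hj0 : j ≠ 0 := by
    rintro rfl
    rw [pow_zero, one_pow] at h1
    have : 1 ≤ q ^ (2 * R) := Nat.one_le_pow _ _ (by omega)
    omega
  refine ⟨j - 1, ?_, ?_⟩
  · have := h2 (j - 1) (by omega)
    omega
  · have : j - 1 + 1 = j := by omega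
    rw [this]; exact h1

theorem lam_exists (R : ℕ) (hR : 1 ≤ R) :
    ∃ lam : ℝ, 1 / 2 ≤ lam ∧ lam < 1 ∧ lam ^ (2 * R) = 1 / 2 := by
  have h0 : (0 : ℝ) ≤ 1 / 2 := by norm_num
  have h1 : ((1 / 2 : ℝ) ^ (((2 * R : ℕ) : ℝ)⁻¹)) ^ (2 * R) = 1 / 2 :=
    Real.rpow_inv_natCast_pow h0 (by omega)
  obtain ⟨lam, hlam⟩ : ∃ lam : ℝ, lam = (1 / 2 : ℝ) ^ (((2 * R : ℕ) : ℝ)⁻¹) := ⟨_, rfl⟩
  rw [← hlam] at h1
  have hpos : 0 ≤ lam := by rw [hlam]; positivity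
  have hlt : lam < 1 := by
    by_contra hcon
    push Not at hcon
    have := one_le_pow₀ hcon (n := 2 * R)
    rw [h1] at this
    norm_num at this
  refine ⟨lam, ?_, hlt, h1⟩
  by_contra hcon
  push Not at hcon
  have h2 : lam ^ (2 * R) ≤ lam := pow_le_of_le_one hpos hlt.le (by omega)
  rw [h1] at h2
  linarith

theorem low_total (α : ℤ → ℝ) (k N : ℕ) (hN : 0 < N) (t : ℕ → ℕ) (ht1 : ∀ m, 1 ≤ t m)
    (w Y SK SC SD : ℝ) (hw : 0 < w)
    (hSK : SK = ∑ m ∈ Finset.range (k + 1), Kc m) (hSC : SC = ∑ m ∈ Finset.range (k + 1), cc m)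
    (hSD : SD = ∑ m ∈ Finset.range (k + 1), 3 * (m : ℝ) * 3 ^ (m + 1))
    (hY : Y = 2 * SK + 64 * SC + 1) (hwY : ∀ m, m ≤ k → w * Y ^ (t m) ≤ 1)
    (hT : 32 * SD ≤ w * (Nat.sqrt (Nat.sqrt N) : ℝ)) (hT0 : 0 < (Nat.sqrt (Nat.sqrt N) : ℝ))
    (LB : ℕ → Finset ℤ)
    (hLB : ∀ m, ∀ n ∈ LB m, |α n| ≤ 1 ∧ |α n - (n : ℝ) / N| ≤ 1 / N ∧ ∃ P : ℤ[X], IrrQ P ∧
      P.natDegree = m ∧ 1 ≤ w * (ht P : ℝ) ^ (t m * (m + 1)) ∧ (ht P) ^ (2 * (m + 1)) ≤ N ∧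
      |aeval (α n) P| ≤ 2 / (ht P : ℝ) ^ ((t m + 4) * (m + 1))) :
    ∑ m ∈ Finset.Icc 2 k, ((LB m).card : ℝ) ≤ w * N / 32 + w * N / 32 := by
  have hKnn : ∀ m, 0 ≤ Kc m := fun m => by unfold Kc; positivity
  have hSK0 : 0 ≤ SK := by rw [hSK]; exact Finset.sum_nonneg (fun m _ => hKnn m)
  have hSC0 : 0 ≤ SC := by rw [hSC]; exact Finset.sum_nonneg (fun m _ => cc_nonneg m)
  have hSD0 : 0 ≤ SD := by rw [hSD]; exact Finset.sum_nonneg (fun m _ => by positivity)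
  have hY1 : 1 ≤ Y := by rw [hY]; linarith
  have hNr : (0 : ℝ) < N := by exact_mod_cast hN
  have hcard : ∀ m ∈ Finset.Icc 2 k, ((LB m).card : ℝ) ≤
      2 * cc m * N * w / Y + 3 * m * 3 ^ (m + 1) * N / (Nat.sqrt (Nat.sqrt N)) := by
    intro m hm
    rw [Finset.mem_Icc] at hm
    refine low_countM α m (by omega) (t m) (ht1 m) N hN w Y hw hY1 (hwY m hm.2) ?_ (LB m) (hLB m)
    have h1 : Kc m ≤ SK := by
      rw [hSK]
      exact Finset.single_le_sum (f := Kc) (fun i _ => hKnn i) (Finset.mem_range.mpr (by omega))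
    rw [hY]; linarith
  have hsubset : Finset.Icc 2 k ⊆ Finset.range (k + 1) := by
    intro m hm
    rw [Finset.mem_Icc] at hm
    exact Finset.mem_range.mpr (by omega)
  calc ∑ m ∈ Finset.Icc 2 k, ((LB m).card : ℝ)
      ≤ ∑ m ∈ Finset.Icc 2 k, (2 * cc m * N * w / Y +
        3 * m * 3 ^ (m + 1) * N / (Nat.sqrt (Nat.sqrt N))) := Finset.sum_le_sum hcard
    _ ≤ ∑ m ∈ Finset.range (k + 1), (2 * cc m * N * w / Y +
        3 * m * 3 ^ (m + 1) * N / (Nat.sqrt (Nat.sqrt N))) := by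
        apply Finset.sum_le_sum_of_subset_of_nonneg hsubset
        intro m _ _
        have := cc_nonneg m
        positivity
    _ = 2 * SC * N * w / Y + SD * N / (Nat.sqrt (Nat.sqrt N)) := by
        rw [Finset.sum_add_distrib, hSC, hSD, Finset.mul_sum, Finset.sum_mul, Finset.sum_mul,
          Finset.sum_div, Finset.sum_mul, Finset.sum_div]
    _ ≤ w * N / 32 + w * N / 32 := by
        have h1 : 2 * SC * N * w / Y ≤ w * N / 32 := by
          rw [div_le_div_iff₀ (by linarith) (by norm_num)]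
          have h2 : 64 * SC ≤ Y := by rw [hY]; linarith
          calc 2 * SC * N * w * 32 = (w * N) * (64 * SC) := by ring
            _ ≤ (w * N) * Y := by gcongr
        have h4 : SD * N / (Nat.sqrt (Nat.sqrt N)) ≤ w * N / 32 := by
          rw [div_le_div_iff₀ hT0 (by norm_num)]
          calc SD * N * 32 = N * (32 * SD) := by ring
            _ ≤ N * (w * (Nat.sqrt (Nat.sqrt N) : ℝ)) := by gcongr
            _ = _ := by ring
        linarith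

/-- The total count over the dyadic blocks of denominators. -/
theorem blocks_total (θ : ℝ) (hθ : 0 < θ) (q : ℕ) (hq : q.Prime) (a w lam : ℝ) (hw : 0 < w)
    (hlam0 : 0 < lam) (hlam1 : lam < 1) (i1 I I2 : ℕ)
    (hi1 : 656 * lam ^ i1 / (1 - lam) ≤ 1 / 32)
    (hwi1 : 16 * w * 4 ^ i1 ≤ 1)
    (hI : 4 * lam ^ (I + 1) / (1 - lam) ≤ w / 32)
    (hqI : 820 * 32 * ((I : ℝ) + 1) * 4 ^ I ≤ q)
    (hI2 : 2 ^ (I2 + 1) ≤ q) (hI2w : (2 / θ + 1) * 2 ^ (I2 + 1) ≤ w * q / 32)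
    (B2 : ℕ → Finset ℤ)
    (hB2 : ∀ i, ∀ n ∈ B2 i, 0 < n ∧ n < q ∧ a ≤ fα θ q n ∧ fα θ q n ≤ a + w ∧
      ∃ A B : ℤ, 2 ^ i ≤ B ∧ B < 2 ^ (i + 1) ∧ 1 ≤ 4 * w * (B : ℝ) ^ 2 ∧
        |fα θ q n - (A : ℝ) / B| ≤ (lam / 4) ^ i) :
    (((Finset.range (I2 + 1)).biUnion B2).card : ℝ) ≤ 4 * (w * q / 32) := by
  classical
  have hqr : (0 : ℝ) < q := by exact_mod_cast hq.pos
  have hlow : ∀ i, ∀ n ∈ B2 i, 1 ≤ 16 * w * 4 ^ i ∧ i1 ≤ i := by
    intro i n hn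
    obtain ⟨_, _, _, _, A, B, hB1, hB2, hB3, _⟩ := hB2 i n hn
    have hBpos : (0 : ℝ) ≤ B := by
      have : (0 : ℤ) ≤ B := le_trans (by positivity) hB1
      exact_mod_cast this
    have h3 : (B : ℝ) < 2 ^ (i + 1) := by exact_mod_cast hB2
    have h4 : (1 : ℝ) < 16 * w * 4 ^ i := by
      calc (1 : ℝ) ≤ 4 * w * (B : ℝ) ^ 2 := hB3
        _ < 4 * w * (2 ^ (i + 1)) ^ 2 := by gcongr
        _ = 16 * w * 4 ^ i := by
            have : ((2 : ℝ) ^ (i + 1)) ^ 2 = 4 * 4 ^ i := by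
              rw [← pow_mul, mul_comm, pow_mul]; norm_num; ring
            rw [this]; ring
    refine ⟨h4.le, ?_⟩
    by_contra hcon
    push Not at hcon
    have h5 : (4 : ℝ) ^ i ≤ 4 ^ i1 := pow_le_pow_right₀ (by norm_num) hcon.le
    have h6 : 16 * w * 4 ^ i ≤ 16 * w * 4 ^ i1 := by gcongr
    linarith
  have hsub : (Finset.range (I2 + 1)).biUnion B2 ⊆
      (Finset.Ico i1 (I + 1)).biUnion B2 ∪ (Finset.Ico (I + 1) (I2 + 1)).biUnion B2 := by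
    intro n hn
    rw [Finset.mem_biUnion] at hn
    obtain ⟨i, hi, hni⟩ := hn
    have h1 := (hlow i n hni).2
    have h2 := Finset.mem_range.mp hi
    rw [Finset.mem_union, Finset.mem_biUnion, Finset.mem_biUnion]
    by_cases hiI : i < I + 1
    · left; exact ⟨i, Finset.mem_Ico.mpr ⟨h1, hiI⟩, hni⟩
    · right; exact ⟨i, Finset.mem_Ico.mpr ⟨by omega, h2⟩, hni⟩
  have hc1 : ∀ i ∈ Finset.Ico i1 (I + 1), ((B2 i).card : ℝ) ≤
      656 * w * q * lam ^ i + 820 * w * 4 ^ I := by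
    intro i hi
    rw [Finset.mem_Ico] at hi
    by_cases hne : (B2 i).Nonempty
    · obtain ⟨n, hn⟩ := hne
      have h1 := (hlow i n hn).1
      have h2 := block_low θ hθ.le q hq a w lam hw hlam0 hlam1.le i h1 (B2 i) (by
        intro n hn
        obtain ⟨g1, g2, g3, g4, A, B, g5, g6, _, g7⟩ := hB2 i n hn
        exact ⟨g1, g2, g3, g4, A, B, g5, g6, g7⟩)
      refine h2.trans ?_
      have h3 : (4 : ℝ) ^ i ≤ 4 ^ I := pow_le_pow_right₀ (by norm_num) (by omega)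
      gcongr
    · rw [Finset.not_nonempty_iff_eq_empty] at hne
      rw [hne, Finset.card_empty]
      push_cast
      positivity
  have hc2 : ∀ i ∈ Finset.Ico (I + 1) (I2 + 1), ((B2 i).card : ℝ) ≤
      4 * q * lam ^ i + (2 / θ + 1) * 2 ^ i := by
    intro i hi
    rw [Finset.mem_Ico] at hi
    apply block_high θ hθ q hq lam hlam0 i
    · exact le_trans (Nat.pow_le_pow_right (by norm_num) (by omega)) hI2
    · intro n hn
      obtain ⟨g1, g2, _, _, A, B, g5, g6, _, g7⟩ := hB2 i n hn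
      exact ⟨g1, g2, A, B, g5, g6, g7⟩
  have hcard : (((Finset.range (I2 + 1)).biUnion B2).card : ℝ) ≤
      ∑ i ∈ Finset.Ico i1 (I + 1), ((B2 i).card : ℝ) +
      ∑ i ∈ Finset.Ico (I + 1) (I2 + 1), ((B2 i).card : ℝ) := by
    have h1 : ((Finset.range (I2 + 1)).biUnion B2).card ≤
        ∑ i ∈ Finset.Ico i1 (I + 1), (B2 i).card +
        ∑ i ∈ Finset.Ico (I + 1) (I2 + 1), (B2 i).card :=
      (Finset.card_le_card hsub).trans ((Finset.card_union_le _ _).trans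
        (add_le_add Finset.card_biUnion_le Finset.card_biUnion_le))
    exact_mod_cast h1
  have hs1 : ∑ i ∈ Finset.Ico i1 (I + 1), ((B2 i).card : ℝ) ≤ w * q / 32 + w * q / 32 := by
    calc ∑ i ∈ Finset.Ico i1 (I + 1), ((B2 i).card : ℝ)
        ≤ ∑ i ∈ Finset.Ico i1 (I + 1), (656 * w * q * lam ^ i + 820 * w * 4 ^ I) :=
          Finset.sum_le_sum hc1
      _ = 656 * w * q * (∑ i ∈ Finset.Ico i1 (I + 1), lam ^ i) +
          ((I + 1 - i1 : ℕ) : ℝ) * (820 * w * 4 ^ I) := by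
          rw [Finset.sum_add_distrib, Finset.mul_sum, Finset.sum_const, nsmul_eq_mul, Nat.card_Ico]
      _ ≤ 656 * w * q * (lam ^ i1 / (1 - lam)) + ((I : ℝ) + 1) * (820 * w * 4 ^ I) := by
          have h1 := geom_sum_Ico_le_of_lt_one (m := i1) (n := I + 1) hlam0.le hlam1
          have h2 : ((I + 1 - i1 : ℕ) : ℝ) ≤ (I : ℝ) + 1 := by
            have : I + 1 - i1 ≤ I + 1 := Nat.sub_le _ _
            exact_mod_cast this
          gcongr
      _ = (w * q) * (656 * lam ^ i1 / (1 - lam)) +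
          w * (820 * 32 * ((I : ℝ) + 1) * 4 ^ I) / 32 := by ring
      _ ≤ (w * q) * (1 / 32) + w * q / 32 := by gcongr
      _ = _ := by ring
  have hs2 : ∑ i ∈ Finset.Ico (I + 1) (I2 + 1), ((B2 i).card : ℝ) ≤ w * q / 32 + w * q / 32 := by
    have hpow2 : ∑ i ∈ Finset.Ico (I + 1) (I2 + 1), (2 : ℝ) ^ i ≤ 2 ^ (I2 + 1) := by
      have h1 : Finset.Ico (I + 1) (I2 + 1) ⊆ Finset.range (I2 + 1) := by
        intro i hi
        exact Finset.mem_range.mpr (Finset.mem_Ico.mp hi).2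
      refine (Finset.sum_le_sum_of_subset_of_nonneg h1 (fun i _ _ => by positivity)).trans ?_
      rw [geom_sum_eq (by norm_num)]
      norm_num
    calc ∑ i ∈ Finset.Ico (I + 1) (I2 + 1), ((B2 i).card : ℝ)
        ≤ ∑ i ∈ Finset.Ico (I + 1) (I2 + 1), (4 * q * lam ^ i + (2 / θ + 1) * 2 ^ i) :=
          Finset.sum_le_sum hc2
      _ = 4 * q * (∑ i ∈ Finset.Ico (I + 1) (I2 + 1), lam ^ i) +
          (2 / θ + 1) * (∑ i ∈ Finset.Ico (I + 1) (I2 + 1), (2 : ℝ) ^ i) := by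
          rw [Finset.sum_add_distrib, Finset.mul_sum, Finset.mul_sum]
      _ ≤ 4 * q * (lam ^ (I + 1) / (1 - lam)) + (2 / θ + 1) * 2 ^ (I2 + 1) := by
          have h1 := geom_sum_Ico_le_of_lt_one (m := I + 1) (n := I2 + 1) hlam0.le hlam1
          gcongr
      _ = q * (4 * lam ^ (I + 1) / (1 - lam)) + (2 / θ + 1) * 2 ^ (I2 + 1) := by ring
      _ ≤ q * (w / 32) + w * q / 32 := by gcongr
      _ = _ := by ring
  linarith

end Pool.Agent.Helper35
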