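import Mathlib
import Pool.Agent.Helper35.MobStepA

set_option autoImplicit false

namespace Pool.Agent.Helper35

open Polynomial

theorem stepM {d : ℕ} (R : ℕ) (hR : 1 ≤ R) (D : ThetaData d (2 * R)) (hd : 2 ≤ d) (k : ℕ) :
    ∃ w0 : ℝ, 0 < w0 ∧ ∀ w : ℝ, 0 < w → w ≤ w0 → ∀ a : ℝ, 0 ≤ a → a + w ≤ 1 →
    ∃ Q0 : ℕ, ∀ q : ℕ, q.Prime → Q0 ≤ q → ∃ n : ℤ, 0 < n ∧ n < q ∧
      a ≤ fα D.θ q n ∧ fα D.θ q n ≤ a + w ∧
      ∀ r : ℝ, 0 < r → r * (q : ℝ) ^ 4 ≤ 1 →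
        GoodM k q w r (fα D.θ q n) (MS D.T d q n (pp q n) (qq q n)) ∧
        LinGood R w r (fα D.θ q n) := by
  classical
  have hθ := theta_pos D hd
  obtain ⟨κ, hκ, hdet⟩ := lin_det R D hd hR
  obtain ⟨lam, hlamh, hlam1, hlamR⟩ := lam_exists R hR
  have hlam0 : 0 < lam := by linarith
  have h1lam : 0 < 1 - lam := by linarith
  obtain ⟨SK, hSK⟩ : ∃ SK : ℝ, SK = ∑ m ∈ Finset.range (k + 1), Kc m := ⟨_, rfl⟩
  obtain ⟨SC, hSC⟩ : ∃ SC : ℝ, SC = ∑ m ∈ Finset.range (k + 1), cc m := ⟨_, rfl⟩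
  obtain ⟨SD, hSD⟩ : ∃ SD : ℝ, SD = ∑ m ∈ Finset.range (k + 1), 3 * (m : ℝ) * 3 ^ (m + 1) :=
    ⟨_, rfl⟩
  have hKnn : ∀ m, 0 ≤ Kc m := fun m => by unfold Kc; positivity
  have hSK0 : 0 ≤ SK := by rw [hSK]; exact Finset.sum_nonneg (fun m _ => hKnn m)
  have hSC0 : 0 ≤ SC := by rw [hSC]; exact Finset.sum_nonneg (fun m _ => cc_nonneg m)
  obtain ⟨Y, hY⟩ : ∃ Y : ℝ, Y = 2 * SK + 64 * SC + 1 := ⟨_, rfl⟩
  have hY1 : 1 ≤ Y := by rw [hY]; linarith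
  -- constants of the transferred measure
  have hCex : ∀ m : ℕ, ∃ C : ℝ, 1 ≤ C ∧ (2 ≤ m → ∀ (q : ℕ) (n p' q' : ℤ), Adm q n p' q' →
      ∀ P : ℤ[X], IrrQ P → P.natDegree = m → aeval (mα D.θ q n p' q') P ≠ 0 →
        1 ≤ C * (|aeval (mα D.θ q n p' q') P| * (ht P : ℝ) ^ (4 * m + 4) *
          (q : ℝ) ^ (m * (4 * m + 5)))) := by
    intro m
    by_cases hm : 2 ≤ m
    · obtain ⟨C, h1, h2⟩ := mob_regime D m hm
      exact ⟨C, h1, fun _ => h2⟩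
    · exact ⟨1, le_rfl, fun h => absurd h hm⟩
  choose C1 hC1a hC1b using hCex
  obtain ⟨SQ, hSQ⟩ : ∃ SQ : ℝ, SQ = ∑ m ∈ Finset.range (k + 1), (2 * C1 m) ^ (2 * (m + 1)) :=
    ⟨_, rfl⟩
  -- starting block
  obtain ⟨i1, hi1⟩ : ∃ i1 : ℕ, 656 * lam ^ i1 / (1 - lam) ≤ 1 / 32 := by
    obtain ⟨i, hi⟩ := exists_pow_lt_of_lt_one (show 0 < (1 - lam) / (656 * 32) by positivity) hlam1
    refine ⟨i, ?_⟩
    rw [div_le_div_iff₀ h1lam (by norm_num)]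
    rw [lt_div_iff₀ (by norm_num)] at hi
    linarith
  -- the bound for w
  obtain ⟨w0, hw0pos, hw0a, hw0b, hw0c, hw0d⟩ : ∃ w0 : ℝ, 0 < w0 ∧ 16 * w0 * 4 ^ (2 * R) ≤ 1 ∧
      16 * w0 * 4 ^ i1 ≤ 1 ∧ 4 * ((k : ℝ) + 1) ^ 2 * w0 ≤ 1 ∧ w0 * Y ^ (tt k) ≤ 1 := by
    obtain ⟨Z, hZ⟩ : ∃ Z : ℝ, Z = 16 * 4 ^ (2 * R) + 16 * 4 ^ i1 + 4 * ((k : ℝ) + 1) ^ 2 +
      Y ^ (tt k) := ⟨_, rfl⟩
    have hp1 : (0 : ℝ) < 16 * 4 ^ (2 * R) := by positivity
    have hp2 : (0 : ℝ) < 16 * 4 ^ i1 := by positivity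
    have hp3 : (0 : ℝ) < 4 * ((k : ℝ) + 1) ^ 2 := by positivity
    have hp4 : (0 : ℝ) < Y ^ (tt k) := by positivity
    have hZ0 : 0 < Z := by rw [hZ]; linarith
    refine ⟨1 / Z, by positivity, ?_, ?_, ?_, ?_⟩
    · rw [mul_one_div, div_mul_eq_mul_div, div_le_one hZ0]; linarith
    · rw [mul_one_div, div_mul_eq_mul_div, div_le_one hZ0]; linarith
    · rw [mul_one_div, div_le_one hZ0]; linarith
    · rw [div_mul_eq_mul_div, one_mul, div_le_one hZ0]; linarith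
  refine ⟨w0, hw0pos, fun w hw hww0 a ha haw => ?_⟩
  have hwa : 16 * w * 4 ^ (2 * R) ≤ 1 := le_trans (by gcongr) hw0a
  have hwb : 16 * w * 4 ^ i1 ≤ 1 := le_trans (by gcongr) hw0b
  have hwc : 4 * ((k : ℝ) + 1) ^ 2 * w ≤ 1 := le_trans (by gcongr) hw0c
  have hwd : w * Y ^ (tt k) ≤ 1 := le_trans (by gcongr) hw0d
  have hw1 : w ≤ 1 := by linarith
  -- the splitting block
  obtain ⟨I, hI⟩ : ∃ I : ℕ, 4 * lam ^ (I + 1) / (1 - lam) ≤ w / 32 := by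
    obtain ⟨i, hi⟩ := exists_pow_lt_of_lt_one (show 0 < w * (1 - lam) / (4 * 32) by positivity)
      hlam1
    refine ⟨i, ?_⟩
    rw [div_le_div_iff₀ h1lam (by norm_num)]
    rw [lt_div_iff₀ (by norm_num)] at hi
    have : lam ^ (i + 1) ≤ lam ^ i := pow_le_pow_of_le_one hlam0.le hlam1.le (by omega)
    linarith
  obtain ⟨K3, hK3⟩ : ∃ K3 : ℝ, K3 = 64 * (2 / D.θ + 1) / w + 2 := ⟨_, rfl⟩
  have hK3pos : 0 < K3 := by rw [hK3]; positivity
  obtain ⟨K4, hK4⟩ : ∃ K4 : ℕ, K4 = ⌈(2048 : ℝ) ^ (2 * R) / κ⌉₊ := ⟨_, rfl⟩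
  obtain ⟨Q0, hQ0⟩ : ∃ Q0 : ℕ, Q0 = ⌈2 * ((k : ℝ) + 1) ^ 2 / w ^ (EE k + 1)⌉₊ + ⌈512 / w⌉₊ +
      ⌈SQ⌉₊ + (4 * (k + 1) ^ 2) ^ (2 * (k + 1)) + ⌈1 / w ^ 2⌉₊ + ⌈32 * SD / w⌉₊ ^ 4 +
      ⌈820 * 32 * ((I : ℝ) + 1) * 4 ^ I⌉₊ + ⌈K3 ^ (2 * R + 1)⌉₊ + K4 ^ (2 * R + 1) + 4 := ⟨_, rfl⟩
  refine ⟨Q0, fun q hq hQq => ?_⟩
  have hceil : ∀ x : ℝ, (⌈x⌉₊ : ℕ) ≤ q → x ≤ q := fun x hx =>
    (Nat.le_ceil x).trans (by exact_mod_cast hx)
  have hq4 : 4 ≤ q := by omega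
  have hqr4 : (4 : ℝ) ≤ q := by exact_mod_cast hq4
  have hqpos : (0 : ℝ) < q := by linarith
  have g1 : 2 * ((k : ℝ) + 1) ^ 2 / w ^ (EE k + 1) ≤ q := hceil _ (by omega)
  have g2 : 512 / w ≤ q := hceil _ (by omega)
  have g3 : SQ ≤ q := hceil _ (by omega)
  have g4 : (4 * (k + 1) ^ 2) ^ (2 * (k + 1)) ≤ q := by omega
  have g5 : 1 / w ^ 2 ≤ q := hceil _ (by omega)
  have g6 : ⌈32 * SD / w⌉₊ ^ 4 ≤ q := by omega
  have g7 : 820 * 32 * ((I : ℝ) + 1) * 4 ^ I ≤ q := hceil _ (by omega)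
  have g8 : K3 ^ (2 * R + 1) ≤ q := hceil _ (by omega)
  have g9 : K4 ^ (2 * R + 1) < q := by omega
  have hwq : 512 ≤ w * q := by
    rw [div_le_iff₀ hw] at g2
    linarith
  -- the last block
  obtain ⟨I2, hI2a, hI2b⟩ := exists_I2 R q (by omega) hR
  have hI2ar : ((2 : ℝ) ^ I2) ^ (2 * R + 1) ≤ (q : ℝ) ^ (2 * R) := by exact_mod_cast hI2a
  have hI2br : (q : ℝ) ^ (2 * R) ≤ ((2 : ℝ) ^ (I2 + 1)) ^ (2 * R + 1) := by
    exact_mod_cast hI2b.le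
  have hK3I : K3 * 2 ^ I2 ≤ q := by
    by_contra hcon
    push Not at hcon
    have h1 : (q : ℝ) ^ (2 * R + 1) < (K3 * 2 ^ I2) ^ (2 * R + 1) :=
      pow_lt_pow_left₀ hcon hqpos.le (by omega)
    have h2 : (K3 * 2 ^ I2) ^ (2 * R + 1) ≤ (q : ℝ) * (q : ℝ) ^ (2 * R) := by
      rw [mul_pow]
      gcongr
    rw [← pow_succ'] at h2
    linarith
  have hI2q : 2 ^ (I2 + 1) ≤ q := by
    have h1 : (2 : ℝ) ^ (I2 + 1) ≤ q := by
      calc (2 : ℝ) ^ (I2 + 1) = 2 * 2 ^ I2 := by ring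
        _ ≤ K3 * 2 ^ I2 := by
            have : 2 ≤ K3 := by
              rw [hK3]
              have : 0 ≤ 64 * (2 / D.θ + 1) / w := by positivity
              linarith
            gcongr
        _ ≤ q := hK3I
    exact_mod_cast h1
  have hI2w : (2 / D.θ + 1) * 2 ^ (I2 + 1) ≤ w * q / 32 := by
    have h1 : 64 * (2 / D.θ + 1) / w * 2 ^ I2 ≤ q := by
      refine le_trans ?_ hK3I
      have : 64 * (2 / D.θ + 1) / w ≤ K3 := by rw [hK3]; linarith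
      gcongr
    rw [div_mul_eq_mul_div, div_le_iff₀ hw] at h1
    rw [le_div_iff₀ (by norm_num)]
    calc (2 / D.θ + 1) * 2 ^ (I2 + 1) * 32 = 64 * (2 / D.θ + 1) * 2 ^ I2 := by ring
      _ ≤ q * w := h1
      _ = w * q := mul_comm _ _
  have hκI : (2048 : ℝ) ^ (2 * R) ≤ κ * 2 ^ (I2 + 1) := by
    have h1 : K4 ≤ 2 ^ (I2 + 1) := by
      by_contra hcon
      push Not at hcon
      have h2 : (2 ^ (I2 + 1)) ^ (2 * R + 1) ≤ K4 ^ (2 * R + 1) :=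
        Nat.pow_le_pow_left hcon.le _
      have h3 : q ≤ q ^ (2 * R) := Nat.le_self_pow (by omega) _
      omega
    have h2 : (2048 : ℝ) ^ (2 * R) / κ ≤ 2 ^ (I2 + 1) := by
      refine (Nat.le_ceil _).trans ?_
      rw [← hK4]
      exact_mod_cast h1
    rw [div_le_iff₀ hκ] at h2
    linarith
  -- roots of q
  have hT0 : (0 : ℝ) < (Nat.sqrt (Nat.sqrt q) : ℝ) := by
    have : 1 ≤ Nat.sqrt (Nat.sqrt q) := by
      rw [Nat.le_sqrt, Nat.le_sqrt]; omega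
    exact_mod_cast this
  have hT : 32 * SD ≤ w * (Nat.sqrt (Nat.sqrt q) : ℝ) := by
    have h1 : ⌈32 * SD / w⌉₊ ≤ Nat.sqrt (Nat.sqrt q) := by
      rw [Nat.le_sqrt, Nat.le_sqrt]
      calc ⌈32 * SD / w⌉₊ * ⌈32 * SD / w⌉₊ * (⌈32 * SD / w⌉₊ * ⌈32 * SD / w⌉₊)
          = ⌈32 * SD / w⌉₊ ^ 4 := by ring
        _ ≤ q := g6
    have h2 : 32 * SD / w ≤ (Nat.sqrt (Nat.sqrt q) : ℝ) :=
      (Nat.le_ceil _).trans (by exact_mod_cast h1)
    rw [div_le_iff₀ hw] at h2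
    linarith
  -- the candidates
  obtain ⟨All, hAll⟩ : ∃ All : Finset ℤ, All = Finset.Icc ⌈a * q + 1⌉ ⌊(a + w) * q - 1⌋ := ⟨_, rfl⟩
  have hrange : ∀ n ∈ All, 0 < n ∧ n < q := by
    intro n hn
    rw [hAll, Finset.mem_Icc] at hn
    have h1 : a * q + 1 ≤ n := Int.ceil_le.mp hn.1
    have h2 : (n : ℝ) ≤ (a + w) * q - 1 := Int.le_floor.mp hn.2
    have h3 : (0 : ℝ) ≤ a * q := by positivity
    have h4 : (a + w) * q ≤ 1 * q := by gcongr
    constructor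
    · have : (0 : ℝ) < n := by linarith
      exact_mod_cast this
    · have : (n : ℝ) < q := by linarith
      exact_mod_cast this
  have hmem : ∀ n ∈ All, a ≤ fα D.θ q n ∧ fα D.θ q n ≤ a + w := by
    intro n hn
    obtain ⟨h0, hq'⟩ := hrange n hn
    have hadm := adm_of q hq n h0 hq'
    have hnear := hadm.near D.nonneg
    change |fα D.θ q n - (n : ℝ) / q| ≤ 1 / q at hnear
    rw [hAll, Finset.mem_Icc] at hn
    have h1 : a * q + 1 ≤ n := Int.ceil_le.mp hn.1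
    have h2 : (n : ℝ) ≤ (a + w) * q - 1 := Int.le_floor.mp hn.2
    have h3 : a + 1 / q ≤ (n : ℝ) / q := by
      rw [le_div_iff₀ hqpos, add_mul, one_div_mul_cancel hqpos.ne']; exact h1
    have h4 : (n : ℝ) / q ≤ a + w - 1 / q := by
      rw [div_le_iff₀ hqpos, sub_mul, one_div_mul_cancel hqpos.ne']; exact h2
    rw [abs_le] at hnear
    constructor <;> linarith
  have hcardAll : w * q - 3 ≤ (All.card : ℝ) := by
    rw [hAll, Int.card_Icc]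
    have h1 : ((⌊(a + w) * q - 1⌋ + 1 - ⌈a * q + 1⌉ : ℤ) : ℝ) ≤
        (((⌊(a + w) * q - 1⌋ + 1 - ⌈a * q + 1⌉).toNat : ℕ) : ℝ) := by
      exact_mod_cast Int.self_le_toNat _
    refine le_trans ?_ h1
    push_cast
    have h2 := Int.lt_floor_add_one ((a + w) * q - 1)
    have h3 := Int.ceil_lt_add_one (a * q + 1)
    linarith
  have habs : ∀ n ∈ All, |fα D.θ q n| ≤ 1 ∧ |fα D.θ q n - (n : ℝ) / q| ≤ 1 / q := by
    intro n hn
    obtain ⟨h0, hq'⟩ := hrange n hn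
    have hadm := adm_of q hq n h0 hq'
    refine ⟨?_, hadm.near D.nonneg⟩
    obtain ⟨h1, h2⟩ := hmem n hn
    rw [abs_le]; constructor <;> linarith
  obtain ⟨LA, hLA⟩ : ∃ LA : ℕ → Finset ℤ, LA = fun m => All.filter (fun n : ℤ => ∃ P : ℤ[X],
    IrrQ P ∧ P.natDegree = m ∧ 1 ≤ w * (ht P : ℝ) ^ (tt m * (m + 1)) ∧
      (ht P) ^ (2 * (m + 1)) ≤ q ∧
      |aeval (fα D.θ q n) P| ≤ 2 / (ht P : ℝ) ^ ((tt m + 4) * (m + 1))) := ⟨_, rfl⟩
  obtain ⟨LB, hLB⟩ : ∃ LB : ℕ → Finset ℤ, LB = fun m => All.filter (fun n : ℤ => ∃ P : ℤ[X],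
    IrrQ P ∧ P.natDegree = m ∧ 1 ≤ w * (ht P : ℝ) ^ (1 * (m + 1)) ∧
      (ht P) ^ (2 * (m + 1)) ≤ q ∧
      |aeval (fα D.θ q n) P| ≤ 2 / (ht P : ℝ) ^ ((1 + 4) * (m + 1))) := ⟨_, rfl⟩
  obtain ⟨B1, hB1⟩ : ∃ B1 : Finset ℤ, B1 = All.filter (fun n : ℤ => ∃ A B : ℤ, 1 ≤ B ∧
    4 * w * (B : ℝ) ^ 2 < 1 ∧ |fα D.θ q n - (A : ℝ) / B| ≤ w / 128) := ⟨_, rfl⟩
  obtain ⟨B2, hB2⟩ : ∃ B2 : ℕ → Finset ℤ, B2 = fun i => All.filter (fun n : ℤ => ∃ A B : ℤ,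
    2 ^ i ≤ B ∧ B < 2 ^ (i + 1) ∧ 1 ≤ 4 * w * (B : ℝ) ^ 2 ∧
      |fα D.θ q n - (A : ℝ) / B| ≤ (lam / 4) ^ i) := ⟨_, rfl⟩
  by_contra hcon
  push Not at hcon
  have hsub : All ⊆ (((Finset.Icc 2 k).biUnion LA ∪ (Finset.Icc 2 k).biUnion LB) ∪ B1) ∪
      (Finset.range (I2 + 1)).biUnion B2 := by
    intro n hn
    obtain ⟨hn0, hnq⟩ := hrange n hn
    obtain ⟨hn1, hn2⟩ := hmem n hn
    by_contra hno
    rw [Finset.mem_union, Finset.mem_union, Finset.mem_union, Finset.mem_biUnion,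
      Finset.mem_biUnion, Finset.mem_biUnion] at hno
    push Not at hno
    obtain ⟨⟨⟨hno1, hno2⟩, hno3⟩, hno4⟩ := hno
    obtain ⟨r, hr0, hr1, hr2⟩ := hcon n hn0 hnq hn1 hn2
    have hadm := adm_of q hq n hn0 hnq
    have hrq : r ≤ 1 / q := by
      rw [le_div_iff₀ hqpos]
      have : (q : ℝ) ≤ (q : ℝ) ^ 4 := le_self_pow₀ (by linarith) (by norm_num)
      calc r * q ≤ r * (q : ℝ) ^ 4 := by gcongr
        _ ≤ 1 := hr1
    refine hr2 ?_ ?_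
    · refine good_ofM D hd k q n (pp q n) (qq q n) hadm w hw hwc C1
        (fun m h1 h2 => ⟨hC1a m, hC1b m h1⟩) ?_ ?_ ?_ ?_ ?_ r hr0 ?_
      · intro m h1 h2
        have h3 : (2 * C1 m) ^ (2 * (m + 1)) ≤ SQ := by
          rw [hSQ]
          exact Finset.single_le_sum (f := fun m => (2 * C1 m) ^ (2 * (m + 1))) (fun i _ => by
            have := hC1a i
            positivity) (Finset.mem_range.mpr (by omega))
        linarith
      · intro m hm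
        refine le_trans (Nat.pow_le_pow_right ?_ (by omega)) g4
        have : 0 < (k + 1) ^ 2 := by positivity
        omega
      · rw [div_le_iff₀ (by positivity)] at g5
        exact g5
      · intro P hP1 hP2 hP3 hP4 hP5
        by_contra hP6
        push Not at hP6
        apply hno1 P.natDegree (Finset.mem_Icc.mpr ⟨hP2, hP3⟩)
        rw [hLA, Finset.mem_filter]
        have hhp : (0 : ℝ) < ht P := by exact_mod_cast ht_pos hP1.ne_zero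
        refine ⟨hn, P, hP1, rfl, hP4, hP5, ?_⟩
        rw [le_div_iff₀ (by positivity)]
        exact hP6
      · intro P hP1 hP2 hP3 hP4 hP5
        by_contra hP6
        push Not at hP6
        apply hno2 P.natDegree (Finset.mem_Icc.mpr ⟨hP2, hP3⟩)
        rw [hLB, Finset.mem_filter]
        have hhp : (0 : ℝ) < ht P := by exact_mod_cast ht_pos hP1.ne_zero
        refine ⟨hn, P, hP1, rfl, hP4, hP5, ?_⟩
        rw [le_div_iff₀ (by positivity)]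
        exact hP6
      · rw [div_le_iff₀ (by positivity)] at g1
        calc 2 * ((k : ℝ) + 1) ^ 2 * r ≤ (q * w ^ (EE k + 1)) * (1 / q) := by gcongr
          _ = w ^ (EE k + 1) := by field_simp
    · refine lin_good R hR w r (fα D.θ q n) κ lam q I2 hw hwa hr0 ?_ ?_ hlamh hlamR ?_ hI2br hκ
        hκI ?_ ?_ ?_
      · have h1 : 512 ≤ w * q := hwq
        calc 512 * r ≤ (w * q) * (1 / q) := by gcongr
          _ = w := by field_simp
      · have h1 : 4 * (r * (q : ℝ) ^ 3) ≤ (q : ℝ) * (r * (q : ℝ) ^ 3) := by gcongr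
        calc 4 * r * (q : ℝ) ^ 3 = 4 * (r * (q : ℝ) ^ 3) := by ring
          _ ≤ (q : ℝ) * (r * (q : ℝ) ^ 3) := h1
          _ = r * (q : ℝ) ^ 4 := by ring
          _ ≤ 1 := hr1
      · refine le_trans ?_ hI2q
        exact Nat.pow_le_pow_right (by norm_num) (by omega)
      · intro A B hB hB'
        by_contra hc
        push Not at hc
        apply hno3
        rw [hB1, Finset.mem_filter]
        exact ⟨hn, A, B, hB, hB', hc⟩
      · intro i hi A B h1 h2 h3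
        by_contra hc
        push Not at hc
        apply hno4 i (Finset.mem_range.mpr (by omega))
        rw [hB2, Finset.mem_filter]
        exact ⟨hn, A, B, h1, h2, h3, hc⟩
      · intro A B hB hB'
        exact hdet q n (pp q n) (qq q n) hadm A B hB hB'
  -- the counts
  have hcA := low_total (fα D.θ q) k q hq.pos tt (fun m => by
      unfold tt
      have := Nat.one_le_pow 2 (m + 1) (by omega)
      omega) w Y SK SC SD hw hSK hSC hSD hY (fun m hm => by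
      refine le_trans ?_ hwd
      have h1 : tt m ≤ tt k := by unfold tt; gcongr
      have h2 : Y ^ (tt m) ≤ Y ^ (tt k) := pow_le_pow_right₀ hY1 h1
      gcongr) hT hT0 LA (by
      intro m n hn
      rw [hLA, Finset.mem_filter] at hn
      exact ⟨(habs n hn.1).1, (habs n hn.1).2, hn.2⟩)
  have hcB := low_total (fα D.θ q) k q hq.pos (fun _ => 1) (fun m => le_rfl)
      w Y SK SC SD hw hSK hSC hSD hY (fun m hm => by
      refine le_trans ?_ hwd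
      have h1 : 1 ≤ tt k := by
        unfold tt
        have := Nat.one_le_pow 2 (k + 1) (by omega)
        omega
      have h2 : Y ^ 1 ≤ Y ^ (tt k) := pow_le_pow_right₀ hY1 h1
      gcongr) hT hT0 LB (by
      intro m n hn
      rw [hLB, Finset.mem_filter] at hn
      exact ⟨(habs n hn.1).1, (habs n hn.1).2, hn.2⟩)
  have hc1 : (B1.card : ℝ) ≤ 3 * (w * q / 32 + 5) := by
    have h1 := sep_count (fα D.θ q) q hq.pos a w (w / 128) (1 / (4 * w)) hw (by positivity)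
      (by positivity) B1 (by
        intro n hn
        rw [hB1, Finset.mem_filter] at hn
        obtain ⟨hn, A, B, h1, h2, h3⟩ := hn
        obtain ⟨g1, g2⟩ := hmem n hn
        refine ⟨g1, g2, (habs n hn).2, A, B, h1, ?_, h3⟩
        rw [le_div_iff₀ (by positivity)]
        linarith)
    refine h1.trans ?_
    have h2 : (w + 2 * (w / 128)) * (1 / (4 * w)) + 2 ≤ 3 := by
      have : (w + 2 * (w / 128)) * (1 / (4 * w)) = 65 / 256 := by field_simp; norm_num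
      rw [this]; norm_num
    have h3 : 4 * (w / 128) * q + 5 = w * q / 32 + 5 := by ring
    rw [h3]
    gcongr
  have hc2 := blocks_total D.θ hθ q hq a w lam hw hlam0 hlam1 i1 I I2 hi1 hwb hI g7 hI2q hI2w B2 (by
    intro i n hn
    rw [hB2, Finset.mem_filter] at hn
    obtain ⟨hn, A, B, h1, h2, h3, h4⟩ := hn
    obtain ⟨g1, g2⟩ := hmem n hn
    obtain ⟨g3, g4⟩ := hrange n hn
    exact ⟨g3, g4, g1, g2, A, B, h1, h2, h3, h4⟩)
  have hcardle : (All.card : ℝ) ≤ ((∑ m ∈ Finset.Icc 2 k, ((LA m).card : ℝ) +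
      ∑ m ∈ Finset.Icc 2 k, ((LB m).card : ℝ)) + B1.card) +
      (((Finset.range (I2 + 1)).biUnion B2).card : ℝ) := by
    have h1 : All.card ≤ ((∑ m ∈ Finset.Icc 2 k, (LA m).card +
        ∑ m ∈ Finset.Icc 2 k, (LB m).card) + B1.card) +
        ((Finset.range (I2 + 1)).biUnion B2).card :=
      (Finset.card_le_card hsub).trans ((Finset.card_union_le _ _).trans
        (add_le_add ((Finset.card_union_le _ _).trans
        (add_le_add ((Finset.card_union_le _ _).trans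
        (add_le_add Finset.card_biUnion_le Finset.card_biUnion_le)) le_rfl)) le_rfl))
    exact_mod_cast h1
  linarith

end Pool.Agent.Helper35
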