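import Mathlib
import Pool.Agent.Helper35.MobStepB

set_option autoImplicit false

namespace Pool.Agent.Helper35

open Polynomial

/-- Size of the special polynomial close to its root. -/
theorem mob_local {d r0 : ℕ} (D : ThetaData d r0) (hd : 2 ≤ d) (c Cu η0 : ℝ) (hc : 0 < c)
    (hCu : 0 < Cu)
    (hloc : ∀ η : ℝ, 0 < η → η ≤ η0 → c * η ≤ |aeval (D.θ + η) D.T| ∧
      |aeval (D.θ + η) D.T| ≤ Cu * η)
    (q : ℕ) (n p' q' : ℤ) (h : Adm q n p' q') (r ξ : ℝ) (hr : 0 < r)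
    (hr1 : 8 * (q : ℝ) ^ 2 * r ≤ 1) (hr2 : 16 * (q : ℝ) ^ 2 * r ≤ η0)
    (h1 : mα D.θ q n p' q' + r ≤ ξ) (h2 : ξ ≤ mα D.θ q n p' q' + 2 * r) :
    |aeval ξ (MS D.T d q n p' q')| ≤ 4 * Cu * r ∧
    c * r ≤ |aeval ξ (MS D.T d q n p' q')| * (4 * (q : ℝ)) ^ d := by
  obtain ⟨_, _, _, hev, _, _⟩ := MS_props D hd q n p' q' h
  have hdet : (n : ℝ) * q' - p' * q = 1 := by exact_mod_cast h.det
  have hq : (1 : ℝ) ≤ q := by exact_mod_cast h.qpos
  have hq'1 : (1 : ℝ) ≤ q' := by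
    have := h.q'0
    exact_mod_cast (by omega : (1 : ℤ) ≤ q')
  have hEle := h.den_le D.le_one
  obtain ⟨E, hE⟩ : ∃ E : ℝ, E = (q : ℝ) * D.θ + q' := ⟨_, rfl⟩
  have hE1 : 1 ≤ E := by
    rw [hE]
    have : 0 ≤ (q : ℝ) * D.θ := mul_nonneg (by linarith) D.nonneg
    linarith
  have hE0 : 0 < E := by linarith
  rw [← hE] at hEle
  obtain ⟨α, hα⟩ : ∃ α : ℝ, α = mα D.θ q n p' q' := ⟨_, rfl⟩
  rw [← hα] at h1 h2
  have hαE : α * E = (n : ℝ) * D.θ + p' := by
    rw [hα]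
    unfold mα
    rw [← hE]
    field_simp
  obtain ⟨s, hs⟩ : ∃ s : ℝ, s = ξ - α := ⟨_, rfl⟩
  have hs1 : r ≤ s := by rw [hs]; linarith
  have hs2 : s ≤ 2 * r := by rw [hs]; linarith
  have hs0 : 0 < s := by linarith
  obtain ⟨F, hF⟩ : ∃ F : ℝ, F = (n : ℝ) - q * ξ := ⟨_, rfl⟩
  have hFE : F * E = 1 - q * s * E := by
    have e1 : ξ = α + s := by rw [hs]; ring
    have e2 : F * E = (n : ℝ) * E - q * (α * E) - q * s * E := by rw [hF, e1]; ring
    rw [e2, hαE, hE]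
    linear_combination hdet
  have hqsE : q * s * E ≤ 1 / 2 := by
    calc q * s * E ≤ q * (2 * r) * (2 * q) := by gcongr
      _ = (8 * (q : ℝ) ^ 2 * r) / 2 := by ring
      _ ≤ 1 / 2 := by linarith
  have hqsE0 : 0 < q * s * E := by positivity
  have hFE1 : 1 / 2 ≤ F * E := by linarith
  have hFE2 : F * E ≤ 1 := by linarith
  have hF0 : 0 < F := by
    by_contra hcon
    push Not at hcon
    have : F * E ≤ 0 := mul_nonpos_of_nonpos_of_nonneg hcon hE0.le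
    linarith
  have hF1 : F ≤ 1 := by
    calc F = F * 1 := (mul_one _).symm
      _ ≤ F * E := by gcongr
      _ ≤ 1 := hFE2
  have hF2 : 1 ≤ F * (4 * q) := by
    calc (1 : ℝ) ≤ 2 * (F * E) := by linarith
      _ ≤ 2 * (F * (2 * q)) := by gcongr
      _ = _ := by ring
  -- the point `x'`
  obtain ⟨η, hη⟩ : ∃ η : ℝ, η = E * s / F := ⟨_, rfl⟩
  have hx' : ((q' : ℝ) * ξ - p') / F = D.θ + η := by
    rw [hη]
    have hne : F ≠ 0 := hF0.ne'
    field_simp
    have e1 : ξ = α + s := by rw [hs]; ring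
    have e3 : (q' : ℝ) * ξ - p' - D.θ * F = ξ * E - ((n : ℝ) * D.θ + p') := by
      rw [hF, hE]; ring
    have e4 : ξ * E - ((n : ℝ) * D.θ + p') = E * s := by
      rw [← hαE, e1]; ring
    linear_combination e3 + e4
  have hevξ : aeval ξ (MS D.T d q n p' q') = F ^ d * aeval (D.θ + η) D.T := by
    have := hev ξ (by rw [← hF]; exact hF0.ne')
    rw [← hF, hx'] at this
    exact this
  have hη0 : 0 < η := by rw [hη]; positivity
  have hηlow : s ≤ η := by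
    rw [hη, le_div_iff₀ hF0]
    calc s * F ≤ s * 1 := by gcongr
      _ ≤ s * E := by gcongr
      _ = E * s := mul_comm _ _
  have hηF : η * F = E * s := by rw [hη]; field_simp
  have hηup : η ≤ η0 := by
    refine le_trans ?_ hr2
    have : η * (F * E) = E ^ 2 * s := by rw [← mul_assoc, hηF]; ring
    have h5 : η * (1 / 2) ≤ E ^ 2 * s := by
      calc η * (1 / 2) ≤ η * (F * E) := by gcongr
        _ = _ := this
    have h6 : E ^ 2 * s ≤ (2 * q) ^ 2 * (2 * r) := by gcongr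
    have h7 : (2 * (q : ℝ)) ^ 2 * (2 * r) = 8 * (q : ℝ) ^ 2 * r := by ring
    linarith
  obtain ⟨g1, g2⟩ := hloc η hη0 hηup
  have hFd : F ^ d ≤ F ^ 2 := pow_le_pow_of_le_one hF0.le hF1 hd
  rw [hevξ, abs_mul, abs_of_pos (by positivity : 0 < F ^ d)]
  constructor
  · calc F ^ d * |aeval (D.θ + η) D.T| ≤ F ^ 2 * (Cu * η) := by gcongr
      _ = Cu * ((F * (η * F))) := by ring
      _ = Cu * ((F * E) * s) := by rw [hηF]; ring
      _ ≤ Cu * (1 * (2 * r)) := by gcongr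
      _ ≤ 4 * Cu * r := by nlinarith [mul_pos hCu hr]
  · calc c * r ≤ c * η := by
          have := hs1.trans hηlow
          gcongr
      _ ≤ |aeval (D.θ + η) D.T| := g1
      _ = 1 ^ d * |aeval (D.θ + η) D.T| := by rw [one_pow, one_mul]
      _ ≤ (F * (4 * q)) ^ d * |aeval (D.θ + η) D.T| := by gcongr
      _ = _ := by rw [mul_pow]; ring

end Pool.Agent.Helper35
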