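import Mathlib
import Pool.Agent.Helper35.TBase

set_option autoImplicit false

namespace Pool.Agent.Helper35

open Polynomial

/-- The polynomial vanishing at `θ + n / N`. -/
noncomputable def SP (T : ℤ[X]) (N : ℕ) (n : ℤ) : ℤ[X] := shf T N (-n)

/-- A stage is good: near `α`, irreducible polynomials of degree at most `k` whose height lies in
the range of the stage are not small, except the multiples of `S`. -/
def Good (k : ℕ) (w r α : ℝ) (S : ℤ[X]) : Prop :=
  ∀ P : ℤ[X], IrrQ P → P.natDegree ≤ k →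
    1 ≤ w * (ht P : ℝ) ^ (36 * (P.natDegree + 1)) →
    r * (ht P : ℝ) ^ (36 * (P.natDegree + 1)) < 2 →
    (∃ g : ℤ, g ≠ 0 ∧ P = C g * S) ∨
    ∀ ξ : ℝ, α + r ≤ ξ → ξ ≤ α + 2 * r → ξ ≤ 1 →
      1 ≤ |aeval ξ P| * (ht P : ℝ) ^ (40 * (P.natDegree + 1))

theorem sqrt_sqrt_pow (p : ℕ) (A : ℕ) (hA : 4 ≤ A) (hp : 1 ≤ p) :
    p ≤ Nat.sqrt (Nat.sqrt (p ^ A)) := by
  rw [Nat.le_sqrt, Nat.le_sqrt]
  calc p * p * (p * p) = p ^ 4 := by ring
    _ ≤ p ^ A := Nat.pow_le_pow_right hp hA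

/-- Counting integers divisible by `p` in an interval. -/
theorem card_multiples (s : Finset ℤ) (u v : ℝ) (p : ℕ) (hp : 0 < p) (huv : u ≤ v)
    (h : ∀ n ∈ s, u ≤ (n : ℝ) ∧ (n : ℝ) ≤ v ∧ (p : ℤ) ∣ n) :
    (s.card : ℝ) ≤ (v - u) / p + 1 := by
  classical
  have hpr : (0 : ℝ) < p := by exact_mod_cast hp
  have hinj : Set.InjOn (fun n : ℤ => n / (p : ℤ)) s := by
    intro x hx y hy hxy
    obtain ⟨_, _, hx3⟩ := h x hx
    obtain ⟨_, _, hy3⟩ := h y hy
    simp only at hxy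
    rw [← Int.ediv_mul_cancel hx3, ← Int.ediv_mul_cancel hy3, hxy]
  rw [← Finset.card_image_of_injOn hinj]
  have := card_le_of_mem_interval (s.image (fun n : ℤ => n / (p : ℤ))) (u / p) (v / p)
    (by
      have : u / p ≤ v / p := by gcongr
      linarith) (by
      intro q hq
      rw [Finset.mem_image] at hq
      obtain ⟨n, hn, rfl⟩ := hq
      obtain ⟨h1, h2, h3⟩ := h n hn
      have e : ((n / (p : ℤ) : ℤ) : ℝ) = (n : ℝ) / p := by
        rw [Int.cast_div h3 (by exact_mod_cast hpr.ne')]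
        simp
      rw [e]
      constructor <;> gcongr)
  refine this.trans (le_of_eq ?_)
  ring

end Pool.Agent.Helper35
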