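import Mathlib
import Pool.Agent.Helper35.TStep

set_option autoImplicit false

namespace Pool.Agent.Helper35

open Polynomial

theorem SP_props {d r0 : ℕ} (D : ThetaData d r0) (p A : ℕ) (hp : p.Prime) (hA : 1 ≤ A) (n : ℤ)
    (hn : ¬ (p : ℤ) ∣ n) (hlead : ¬ (p : ℤ) ∣ D.T.leadingCoeff) :
    IrrQ (SP D.T (p ^ A) n) ∧ (SP D.T (p ^ A) n).IsPrimitive ∧
    (SP D.T (p ^ A) n).natDegree = d ∧
    (∀ x : ℝ, aeval x (SP D.T (p ^ A) n) =
      ((p ^ A : ℕ) : ℝ) ^ d * aeval (x - (n : ℝ) / ((p ^ A : ℕ) : ℝ)) D.T) ∧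
    aeval (D.θ + (n : ℝ) / ((p ^ A : ℕ) : ℝ)) (SP D.T (p ^ A) n) = 0 := by
  have hD0 : (((p ^ A : ℕ) : ℤ)) ≠ 0 := by exact_mod_cast pow_ne_zero A hp.ne_zero
  have hev : ∀ x : ℝ, aeval x (SP D.T (p ^ A) n) =
      ((p ^ A : ℕ) : ℝ) ^ d * aeval (x - (n : ℝ) / ((p ^ A : ℕ) : ℝ)) D.T := by
    intro x
    rw [SP, shf_aeval _ _ _ hD0, D.deg]
    have e1 : x + ((-n : ℤ) : ℝ) / (((p ^ A : ℕ) : ℤ) : ℝ) = x - (n : ℝ) / ((p ^ A : ℕ) : ℝ) := by
      rw [Int.cast_neg, neg_div, Int.cast_natCast, sub_eq_add_neg]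
    rw [e1, Int.cast_natCast]
  refine ⟨shf_irr _ _ _ hD0 D.irr, ?_, ?_, hev, ?_⟩
  · have := shf_prim D.T D.prim p hp A hA (-n) (by rwa [dvd_neg]) hlead
    unfold SP
    push_cast
    exact this
  · rw [SP, shf_natDegree _ _ _ hD0, D.deg]
  · rw [hev, add_sub_cancel_right, D.root, mul_zero]

theorem good_of {d r0 : ℕ} (D : ThetaData d r0) (k p A : ℕ) (hp : p.Prime)
    (hA : A = 4 * (k + 2) ^ 2 + 1) (w : ℝ) (n : ℤ)
    (C1 : ℕ → ℝ) (hC1 : ∀ m, 1 ≤ m → m ≤ k → 1 ≤ C1 m ∧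
      ∀ (N : ℕ) (n : ℤ), 1 ≤ N → |D.θ + (n : ℝ) / N| ≤ 1 →
      ∀ P : ℤ[X], IrrQ P → P.natDegree = m → aeval (D.θ + (n : ℝ) / N) P ≠ 0 →
        1 ≤ C1 m * (|aeval (D.θ + (n : ℝ) / N) P| * (ht P : ℝ) ^ (4 * m + 4) *
          (N : ℝ) ^ (m * (4 * m + 5))))
    (hpC : ∀ m, 1 ≤ m → m ≤ k → (2 * C1 m) ^ 4 ≤ p)
    (hpk : 4 * (k + 1) ^ 2 + 2 ≤ p)
    (hn : ¬ (p : ℤ) ∣ n) (hlead : ¬ (p : ℤ) ∣ D.T.leadingCoeff)
    (hα0 : 0 ≤ D.θ + (n : ℝ) / ((p ^ A : ℕ) : ℝ)) (hα1 : D.θ + (n : ℝ) / ((p ^ A : ℕ) : ℝ) ≤ 1)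
    (hlow : ∀ P : ℤ[X], IrrQ P → P.natDegree ≤ k →
      1 ≤ w * (ht P : ℝ) ^ (36 * (P.natDegree + 1)) → (ht P) ^ (2 * (P.natDegree + 1)) ≤ p ^ A →
      2 < |aeval (D.θ + (n : ℝ) / ((p ^ A : ℕ) : ℝ)) P| * (ht P : ℝ) ^ (40 * (P.natDegree + 1)))
    (hshift : ∀ P : ℤ[X], IrrQ P → P.natDegree ≤ k → ∀ h : ℕ, 2 * P.natDegree + 2 ≤ h →
      4 * h ≤ A * P.natDegree → ht P ≤ p ^ (h + 1) →
      1 < |aeval (D.θ + (n : ℝ) / ((p ^ A : ℕ) : ℝ)) P| * (p : ℝ) ^ (10 * (P.natDegree + 1) * h))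
    (r : ℝ) (hr0 : 0 < r) (hr : r * ((p ^ A : ℕ) : ℝ) ^ 22 ≤ 1) :
    Good k w r (D.θ + (n : ℝ) / ((p ^ A : ℕ) : ℝ)) (SP D.T (p ^ A) n) := by
  have hA1 : 1 ≤ A := by omega
  obtain ⟨hSirr, hSprim, hSdeg, _, hSroot⟩ := SP_props D p A hp hA1 n hn hlead
  set N : ℕ := p ^ A with hN
  set α : ℝ := D.θ + (n : ℝ) / (N : ℝ) with hα
  intro P hP hPk hPw hPr
  by_cases hP0 : aeval α P = 0
  · left
    exact eq_C_mul_of_root _ P hSirr hSprim hP α hSroot hP0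
  right
  intro ξ hξ1 hξ2 hξle
  set m := P.natDegree with hm
  have hm1 : 1 ≤ m := hP.natDegree_pos
  set H : ℝ := (ht P : ℝ) with hH
  have hH1 : 1 ≤ ht P := ht_pos hP.ne_zero
  have hHr : 1 ≤ H := by rw [hH]; exact_mod_cast hH1
  have hH0 : 0 < H := by linarith
  have hp1 : (1 : ℝ) < p := by exact_mod_cast hp.one_lt
  have hpr : (4 * ((k : ℝ) + 1) ^ 2 + 2) ≤ p := by exact_mod_cast hpk
  have hmk : (m : ℝ) ≤ k := by exact_mod_cast hPk
  have hm2 : 4 * ((m : ℝ) + 1) ^ 2 ≤ p := by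
    have : ((m : ℝ) + 1) ^ 2 ≤ ((k : ℝ) + 1) ^ 2 := by gcongr
    linarith
  have hNr : (N : ℝ) = (p : ℝ) ^ A := by rw [hN]; push_cast; rfl
  have hN1 : 1 ≤ N := Nat.one_le_iff_ne_zero.mpr (pow_ne_zero A hp.ne_zero)
  have hN1r : (1 : ℝ) ≤ N := by exact_mod_cast hN1
  have hpN : (p : ℝ) ≤ N := by rw [hNr]; exact le_self_pow₀ hp1.le (by omega)
  have hα0' : 0 ≤ α := hα0
  have hαabs : |α| ≤ 1 := by rw [abs_of_nonneg hα0']; exact hα1
  have hξabs : |ξ| ≤ 1 := by rw [abs_le]; constructor <;> linarith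
  -- perturbation
  have hpert : |aeval α P| - ((m : ℝ) + 1) ^ 2 * H * (2 * r) ≤ |aeval ξ P| := by
    have h1 := abs_aeval_sub_le P ξ α hξabs hαabs
    rw [← hm, ← hH] at h1
    have h2 : |ξ - α| ≤ 2 * r := by rw [abs_of_nonneg (by linarith)]; linarith
    have h3 : |aeval α P| ≤ |aeval ξ P| + |aeval ξ P - aeval α P| := by
      have := abs_sub_abs_le_abs_sub (aeval α P) (aeval ξ P)
      rw [abs_sub_comm] at this
      linarith
    have h4 : ((m : ℝ) + 1) ^ 2 * H * |ξ - α| ≤ ((m : ℝ) + 1) ^ 2 * H * (2 * r) := by gcongr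
    linarith
  by_cases hcase : (ht P) ^ (2 * (m + 1)) ≤ N
  · -- low regime
    have h1 := hlow P hP hPk hPw hcase
    rw [← hm, ← hH] at h1
    have hcr : H ^ (2 * (m + 1)) ≤ N := by rw [hH]; exact_mod_cast hcase
    have h2 : H ^ (40 * (m + 1)) ≤ (N : ℝ) ^ 20 := by
      have e1 : H ^ (40 * (m + 1)) = (H ^ (2 * (m + 1))) ^ 20 := by
        rw [← pow_mul]; congr 1; ring
      rw [e1]; gcongr
    have h3 : H ≤ N := (le_self_pow₀ hHr (by omega)).trans hcr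
    have h4 : ((m : ℝ) + 1) ^ 2 * H * (2 * r) * H ^ (40 * (m + 1)) ≤ 1 := by
      calc ((m : ℝ) + 1) ^ 2 * H * (2 * r) * H ^ (40 * (m + 1))
          ≤ ((m : ℝ) + 1) ^ 2 * N * (2 * r) * (N : ℝ) ^ 20 := by gcongr
        _ = (2 * ((m : ℝ) + 1) ^ 2) * (r * (N : ℝ) ^ 21) := by ring
        _ ≤ N * (r * (N : ℝ) ^ 21) := by
            have : 2 * ((m : ℝ) + 1) ^ 2 ≤ N := by
              have : 0 ≤ ((m : ℝ) + 1) ^ 2 := by positivity
              linarith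
            gcongr
        _ = r * (N : ℝ) ^ 22 := by ring
        _ ≤ 1 := hr
    have h5 : (|aeval α P| - ((m : ℝ) + 1) ^ 2 * H * (2 * r)) * H ^ (40 * (m + 1)) ≤
        |aeval ξ P| * H ^ (40 * (m + 1)) := by gcongr
    rw [sub_mul] at h5
    linarith
  · -- the other regimes
    push Not at hcase
    -- level
    obtain ⟨h, hh1, hh2⟩ : ∃ h : ℕ, p ^ h ≤ ht P ∧ ht P < p ^ (h + 1) :=
      ⟨Nat.log p (ht P), Nat.pow_log_le_self p (by omega), Nat.lt_pow_succ_log_self hp.one_lt _⟩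
    have hhbig : 2 * m + 2 ≤ h := by
      by_contra hc
      push Not at hc
      have h1 : (ht P) ^ (2 * (m + 1)) < (p ^ (h + 1)) ^ (2 * (m + 1)) :=
        Nat.pow_lt_pow_left hh2 (by omega)
      rw [← pow_mul] at h1
      have h2 : p ^ A < p ^ ((h + 1) * (2 * (m + 1))) := lt_trans hcase h1
      have h3 := (Nat.pow_lt_pow_iff_right hp.one_lt).mp h2
      have h4 : (h + 1) * (2 * (m + 1)) ≤ (2 * m + 2) * (2 * (m + 1)) :=
        Nat.mul_le_mul_right _ (by omega)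
      have h5 : (2 * m + 2) * (2 * (m + 1)) ≤ 4 * (k + 2) ^ 2 := by nlinarith
      omega
    have hph : (p : ℝ) ^ h ≤ H := by rw [hH]; exact_mod_cast hh1
    have hpH : (p : ℝ) ≤ H := (le_self_pow₀ hp1.le (by omega)).trans hph
    have h2H : 2 ≤ H := by
      have : (2 : ℝ) ≤ p := by exact_mod_cast hp.two_le
      linarith
    -- key lower bound at α
    have hkey : 2 ≤ |aeval α P| * H ^ (25 * (m + 1)) := by
      by_cases hs : 4 * h ≤ A * m
      · have h1 := hshift P hP hPk h hhbig hs hh2.le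
        rw [← hm] at h1
        have h2 : (p : ℝ) ^ (10 * (m + 1) * h) ≤ H ^ (10 * (m + 1)) := by
          have e1 : (p : ℝ) ^ (10 * (m + 1) * h) = ((p : ℝ) ^ h) ^ (10 * (m + 1)) := by
            rw [← pow_mul, mul_comm]
          rw [e1]; gcongr
        have h3 : 1 ≤ |aeval α P| * H ^ (10 * (m + 1)) := by
          refine h1.le.trans ?_
          gcongr
        calc (2 : ℝ) ≤ H := h2H
          _ = 1 * H := (one_mul _).symm
          _ ≤ (|aeval α P| * H ^ (10 * (m + 1))) * H := by gcongr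
          _ = |aeval α P| * H ^ (10 * (m + 1) + 1) := by ring
          _ ≤ _ := by
              have : H ^ (10 * (m + 1) + 1) ≤ H ^ (25 * (m + 1)) :=
                pow_le_pow_right₀ hHr (by omega)
              gcongr
      · push Not at hs
        obtain ⟨hC11, hC12⟩ := hC1 m hm1 hPk
        have h1 := hC12 N n hN1 hαabs P hP rfl hP0
        change 1 ≤ C1 m * (|aeval α P| * H ^ (4 * m + 4) * (N : ℝ) ^ (m * (4 * m + 5))) at h1
        have hNH : (N : ℝ) ^ m ≤ H ^ 4 := by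
          calc (N : ℝ) ^ m = (p : ℝ) ^ (A * m) := by rw [hNr, pow_mul]
            _ ≤ (p : ℝ) ^ (4 * h) := pow_le_pow_right₀ hp1.le hs.le
            _ = ((p : ℝ) ^ h) ^ 4 := by rw [← pow_mul, mul_comm]
            _ ≤ H ^ 4 := by gcongr
        have hCH : 2 * C1 m ≤ H := by
          have h2 := hpC m hm1 hPk
          have h3 : (2 * C1 m) ^ 4 ≤ H ^ 4 := by
            calc (2 * C1 m) ^ 4 ≤ p := h2
              _ ≤ H := hpH
              _ ≤ H ^ 4 := le_self_pow₀ hHr (by norm_num)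
          exact (pow_le_pow_iff_left₀ (by linarith) hH0.le (by norm_num)).mp h3
        calc (2 : ℝ) = 2 * 1 := by norm_num
          _ ≤ 2 * (C1 m * (|aeval α P| * H ^ (4 * m + 4) * (N : ℝ) ^ (m * (4 * m + 5)))) := by
              gcongr
          _ = (2 * C1 m) * (|aeval α P| * H ^ (4 * m + 4) * ((N : ℝ) ^ m) ^ (4 * m + 5)) := by
              rw [pow_mul]; ring
          _ ≤ H * (|aeval α P| * H ^ (4 * m + 4) * (H ^ 4) ^ (4 * m + 5)) := by gcongr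
          _ = |aeval α P| * H ^ (20 * m + 25) := by
              rw [← pow_mul]
              have : H ^ (20 * m + 25) = H * (H ^ (4 * m + 4) * H ^ (4 * (4 * m + 5))) := by
                rw [← pow_add, ← pow_succ']; congr 1; ring
              rw [this]; ring
          _ ≤ _ := by
              have : H ^ (20 * m + 25) ≤ H ^ (25 * (m + 1)) := pow_le_pow_right₀ hHr (by omega)
              gcongr
    have h4 : ((m : ℝ) + 1) ^ 2 * H * (2 * r) * H ^ (25 * (m + 1)) ≤ 1 := by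
      have h5 : H ^ (36 * (m + 1)) = H ^ (25 * (m + 1) + 1) * H ^ (11 * m + 10) := by
        rw [← pow_add]; congr 1; ring
      have h6 : 4 * ((m : ℝ) + 1) ^ 2 ≤ H ^ (11 * m + 10) :=
        (hm2.trans hpH).trans (le_self_pow₀ hHr (by omega))
      have h7 : r * (H ^ (25 * (m + 1) + 1) * H ^ (11 * m + 10)) < 2 := by rw [← h5]; exact hPr
      have h8 : 0 < r * H ^ (25 * (m + 1) + 1) := by positivity
      have h9 : (r * H ^ (25 * (m + 1) + 1)) * (4 * ((m : ℝ) + 1) ^ 2) ≤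
          (r * H ^ (25 * (m + 1) + 1)) * H ^ (11 * m + 10) := by gcongr
      have h10 : ((m : ℝ) + 1) ^ 2 * H * (2 * r) * H ^ (25 * (m + 1)) =
          (r * H ^ (25 * (m + 1) + 1)) * (4 * ((m : ℝ) + 1) ^ 2) / 2 := by ring
      rw [h10]
      linarith
    have h5 : (|aeval α P| - ((m : ℝ) + 1) ^ 2 * H * (2 * r)) * H ^ (25 * (m + 1)) ≤
        |aeval ξ P| * H ^ (25 * (m + 1)) := by gcongr
    rw [sub_mul] at h5
    calc (1 : ℝ) ≤ |aeval ξ P| * H ^ (25 * (m + 1)) := by linarith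
      _ ≤ |aeval ξ P| * H ^ (40 * (m + 1)) := by
          have : H ^ (25 * (m + 1)) ≤ H ^ (40 * (m + 1)) := pow_le_pow_right₀ hHr (by omega)
          gcongr

end Pool.Agent.Helper35
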