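import Mathlib
import Pool.Agent.Helper35.TStepMain

set_option autoImplicit false

namespace Pool.Agent.Helper35

open Polynomial

theorem dep_seq {σ : Type} (Inv : ℕ → σ → Prop) (R : ℕ → σ → σ → Prop) (s0 : σ)
    (h0 : Inv 0 s0) (h : ∀ k s, Inv k s → ∃ s', Inv (k + 1) s' ∧ R k s s') :
    ∃ f : ℕ → σ, f 0 = s0 ∧ ∀ k, Inv k (f k) ∧ R k (f k) (f (k + 1)) := by
  classical
  set g : ℕ → σ → σ := fun k s => if hs : Inv k s then (h k s hs).choose else s with hg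
  set f : ℕ → σ := fun k => Nat.rec s0 (fun k s => g k s) k with hf
  have hf0 : f 0 = s0 := rfl
  have hfs : ∀ k, f (k + 1) = g k (f k) := fun k => rfl
  have hstep : ∀ k s, Inv k s → Inv (k + 1) (g k s) ∧ R k s (g k s) := by
    intro k s hs
    simp only [hg, dif_pos hs]
    exact (h k s hs).choose_spec
  have hinv : ∀ k, Inv k (f k) := by
    intro k
    induction k with
    | zero => rw [hf0]; exact h0
    | succ k ih => rw [hfs]; exact (hstep k _ ih).1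
  exact ⟨f, hf0, fun k => ⟨hinv k, by rw [hfs]; exact (hstep k _ (hinv k)).2⟩⟩

/-- Nested intervals. -/
theorem nested (a w : ℕ → ℝ) (hw : ∀ k, 0 < w k) (h1 : ∀ k, a k ≤ a (k + 1))
    (h2 : ∀ k, a (k + 1) + 2 * w (k + 1) ≤ a k + 2 * w k) :
    ∃ ξ : ℝ, ∀ k, a k ≤ ξ ∧ ξ ≤ a k + 2 * w k := by
  have hmono : Monotone a := monotone_nat_of_le_succ h1
  have hanti : Antitone (fun k => a k + 2 * w k) := antitone_nat_of_succ_le h2
  have hle : ∀ j k, a j ≤ a k + 2 * w k := by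
    intro j k
    rcases le_total j k with h | h
    · have := hmono h
      have := hw k
      linarith
    · have h3 := hanti h
      simp only at h3
      have := hw j
      linarith
  have hbdd : BddAbove (Set.range a) := ⟨a 0 + 2 * w 0, by rintro _ ⟨j, rfl⟩; exact hle j 0⟩
  refine ⟨⨆ j, a j, fun k => ⟨le_ciSup hbdd k, ciSup_le (fun j => hle j k)⟩⟩

/-- The exponent of the prime at stage `k`. -/
def EA (k : ℕ) : ℕ := 4 * (k + 2) ^ 2 + 1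

theorem constrT (d : ℕ → ℕ) {r0 : ℕ} (D : ∀ k, ThetaData (d k) r0) (W M : ℕ → ℕ)
    (hW : ∀ k, 22 ≤ W k) :
    ∃ (ξ : ℝ) (p : ℕ → ℕ) (n : ℕ → ℤ) (w : ℕ → ℝ), 0 ≤ ξ ∧ ξ ≤ 1 ∧ (∀ k, 0 < w k) ∧
      (∀ k, (p k).Prime) ∧ (∀ k, M k ≤ p k) ∧ (∀ k, ¬ ((p k : ℕ) : ℤ) ∣ n k) ∧
      (∀ k, ¬ ((p k : ℕ) : ℤ) ∣ (D k).T.leadingCoeff) ∧
      (∀ k, w (k + 1) = 1 / (((p k) ^ EA k : ℕ) : ℝ) ^ W k / 2) ∧
      (∀ k, 2 * (1 / (((p k) ^ EA k : ℕ) : ℝ) ^ W k) ≤ w k) ∧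
      (∀ k, (D k).θ + (n k : ℝ) / (((p k) ^ EA k : ℕ) : ℝ) +
        1 / (((p k) ^ EA k : ℕ) : ℝ) ^ W k ≤ ξ) ∧
      (∀ k, ξ ≤ (D k).θ + (n k : ℝ) / (((p k) ^ EA k : ℕ) : ℝ) +
        2 * (1 / (((p k) ^ EA k : ℕ) : ℝ) ^ W k)) ∧
      (∀ k, Good k (w k) (1 / (((p k) ^ EA k : ℕ) : ℝ) ^ W k)
        ((D k).θ + (n k : ℝ) / (((p k) ^ EA k : ℕ) : ℝ)) (SP (D k).T ((p k) ^ EA k) (n k))) := by
  choose w0 hw0 hstep using fun k => stepT (D k) k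
  obtain ⟨f, _, hf⟩ := dep_seq (σ := ℝ × ℝ × ℕ × ℤ)
    (fun k s => 0 ≤ s.1 ∧ s.1 + 2 * s.2.1 ≤ 1 ∧ 0 < s.2.1 ∧ s.2.1 ≤ w0 k)
    (fun k s s' => s'.2.2.1.Prime ∧ M k ≤ s'.2.2.1 ∧ ¬ ((s'.2.2.1 : ℕ) : ℤ) ∣ s'.2.2.2 ∧
      ¬ ((s'.2.2.1 : ℕ) : ℤ) ∣ (D k).T.leadingCoeff ∧
      s'.2.1 = 1 / (((s'.2.2.1) ^ EA k : ℕ) : ℝ) ^ W k / 2 ∧
      2 * (1 / (((s'.2.2.1) ^ EA k : ℕ) : ℝ) ^ W k) ≤ s.2.1 ∧
      s'.1 = (D k).θ + (s'.2.2.2 : ℝ) / (((s'.2.2.1) ^ EA k : ℕ) : ℝ) +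
        1 / (((s'.2.2.1) ^ EA k : ℕ) : ℝ) ^ W k ∧
      s.1 ≤ s'.1 ∧ s'.1 + 2 * s'.2.1 ≤ s.1 + 2 * s.2.1 ∧
      Good k s.2.1 (1 / (((s'.2.2.1) ^ EA k : ℕ) : ℝ) ^ W k)
        ((D k).θ + (s'.2.2.2 : ℝ) / (((s'.2.2.1) ^ EA k : ℕ) : ℝ))
        (SP (D k).T ((s'.2.2.1) ^ EA k) (s'.2.2.2)))
    (0, min (w0 0) (1 / 2), 2, 1) (by
      refine ⟨le_rfl, ?_, lt_min (hw0 0) (by norm_num), min_le_left _ _⟩
      have := min_le_right (w0 0) (1 / 2)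
      simp only
      linarith) (by
      rintro k ⟨a, w, q, l⟩ ⟨h1, h2, h3, h4⟩
      simp only at h1 h2 h3 h4
      obtain ⟨p, hp, hpM, n, hn, hlead, hα1, hα2, hgood⟩ := hstep k w h3 h4 a h1 (by linarith)
        (M k + ⌈2 / w⌉₊ + ⌈1 / w0 (k + 1)⌉₊)
      have hp1 : (1 : ℝ) ≤ p := by exact_mod_cast hp.one_lt.le
      change a ≤ (D k).θ + (n : ℝ) / ((p ^ EA k : ℕ) : ℝ) at hα1
      change (D k).θ + (n : ℝ) / ((p ^ EA k : ℕ) : ℝ) ≤ a + w at hα2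
      set N : ℕ := p ^ EA k with hN
      have hNr : (N : ℝ) = (p : ℝ) ^ EA k := by rw [hN]; push_cast; rfl
      have hpN : (p : ℝ) ≤ N := by rw [hNr]; exact le_self_pow₀ hp1 (by unfold EA; omega)
      have hN1 : (1 : ℝ) ≤ N := hp1.trans hpN
      have hN0 : (0 : ℝ) < N := by linarith
      have hWk := hW k
      have hNW : (p : ℝ) ≤ (N : ℝ) ^ W k := hpN.trans (le_self_pow₀ hN1 (by omega))
      have hr0 : 0 < 1 / (N : ℝ) ^ W k := by positivity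
      have hb1 : 2 / w ≤ p := (Nat.le_ceil _).trans (by exact_mod_cast (by omega))
      have hb2 : 1 / w0 (k + 1) ≤ p := (Nat.le_ceil _).trans (by exact_mod_cast (by omega))
      have hr1 : 2 * (1 / (N : ℝ) ^ W k) ≤ w := by
        rw [mul_one_div, div_le_iff₀ (by positivity)]
        rw [div_le_iff₀ h3] at hb1
        nlinarith
      have hr2 : 1 / (N : ℝ) ^ W k / 2 ≤ w0 (k + 1) := by
        have h5 : 1 / (N : ℝ) ^ W k ≤ w0 (k + 1) := by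
          rw [div_le_iff₀ (by positivity)]
          rw [div_le_iff₀ (hw0 (k + 1))] at hb2
          have := hw0 (k + 1)
          nlinarith
        linarith
      refine ⟨((D k).θ + (n : ℝ) / (N : ℝ) + 1 / (N : ℝ) ^ W k, 1 / (N : ℝ) ^ W k / 2, p, n),
        ⟨?_, ?_, ?_, hr2⟩, hp, by simp only; omega, hn, hlead, rfl, hr1, rfl, ?_, ?_, ?_⟩
      · simp only; linarith
      · simp only; linarith
      · simp only; positivity
      · simp only; linarith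
      · simp only; linarith
      · simp only
        apply hgood _ hr0
        change 1 / (N : ℝ) ^ W k * (N : ℝ) ^ 22 ≤ 1
        rw [one_div, inv_mul_le_iff₀ (by positivity), mul_one]
        exact pow_le_pow_right₀ hN1 hWk)
  obtain ⟨ξ, hξ⟩ := nested (fun k => (f k).1) (fun k => (f k).2.1) (fun k => (hf k).1.2.2.1)
    (fun k => (hf k).2.2.2.2.2.2.2.2.1) (fun k => (hf k).2.2.2.2.2.2.2.2.2.1)
  refine ⟨ξ, fun k => (f (k + 1)).2.2.1, fun k => (f (k + 1)).2.2.2, fun k => (f k).2.1,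
    ?_, ?_, fun k => (hf k).1.2.2.1, fun k => (hf k).2.1, fun k => (hf k).2.2.1,
    fun k => (hf k).2.2.2.1, fun k => (hf k).2.2.2.2.1, fun k => (hf k).2.2.2.2.2.1,
    fun k => (hf k).2.2.2.2.2.2.1, fun k => ?_, fun k => ?_, fun k => (hf k).2.2.2.2.2.2.2.2.2.2⟩
  · exact (hf 0).1.1.trans (hξ 0).1
  · exact (hξ 0).2.trans (hf 0).1.2.1
  · have h1 := (hξ (k + 1)).1
    rw [(hf k).2.2.2.2.2.2.2.1] at h1
    exact h1
  · have h1 := (hξ (k + 1)).2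
    rw [(hf k).2.2.2.2.2.2.2.1, (hf k).2.2.2.2.2.1] at h1
    linarith

end Pool.Agent.Helper35
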