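import Mathlib
import Pool.Agent.Helper35.TConstr
import Pool.Agent.Helper35.Exps

set_option autoImplicit false

namespace Pool.Agent.Helper35

open Polynomial

/-- Local two-sided bounds of `T` near its simple root `θ`. -/
theorem theta_local {d r0 : ℕ} (D : ThetaData d r0) : ∃ (c C η0 : ℝ), 0 < c ∧ 0 < C ∧ 0 < η0 ∧
    ∀ η : ℝ, 0 < η → η ≤ η0 → c * η ≤ |aeval (D.θ + η) D.T| ∧ |aeval (D.θ + η) D.T| ≤ C * η := by
  set F : ℝ[X] := D.T.map (Int.castRingHom ℝ) with hF
  have hev : ∀ x : ℝ, F.eval x = aeval x D.T := by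
    intro x
    rw [hF, eval_map]
    simp [aeval_def]
  have hF0 : F.eval D.θ = 0 := by rw [hev]; exact D.root
  -- the derivative does not vanish
  have hder : (derivative F).eval D.θ ≠ 0 := by
    intro h0
    have h1 := deriv_bound D.irr D.θ (by rw [abs_of_nonneg D.nonneg]; exact D.le_one) 0
      (by rw [D.root]; simp) (by
        have : aeval D.θ (derivative D.T) = 0 := by
          have e : (derivative F).eval D.θ = aeval D.θ (derivative D.T) := by
            rw [hF, derivative_map, eval_map]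
            simp [aeval_def]
          rw [← e]; exact h0
        rw [this]; simp)
    rw [mul_zero] at h1
    linarith
  set L : ℝ := (derivative F).eval D.θ with hL
  have hLpos : 0 < |L| := abs_pos.mpr hder
  have hd : HasDerivAt (fun x => F.eval x) L D.θ := F.hasDerivAt D.θ
  have h2 := (hasDerivAt_iff_isLittleO.mp hd).def (show (0 : ℝ) < |L| / 2 by positivity)
  rw [Metric.eventually_nhds_iff] at h2
  obtain ⟨ε, hε, h3⟩ := h2
  refine ⟨|L| / 2, 2 * |L|, ε / 2, by positivity, by positivity, by positivity, ?_⟩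
  intro η hη1 hη2
  have h4 := h3 (y := D.θ + η) (by
    rw [Real.dist_eq, add_sub_cancel_left, abs_of_pos hη1]; linarith)
  simp only [add_sub_cancel_left, hF0, sub_zero, smul_eq_mul, Real.norm_eq_abs,
    abs_of_pos hη1] at h4
  rw [hev] at h4
  have h5 : |η * L| = |L| * η := by rw [abs_mul, abs_of_pos hη1, mul_comm]
  have h6 := abs_sub_abs_le_abs_sub (η * L) (aeval (D.θ + η) D.T)
  have h7 := abs_sub_abs_le_abs_sub (aeval (D.θ + η) D.T) (η * L)
  rw [abs_sub_comm] at h6
  rw [h5] at h6 h7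
  constructor
  · linarith
  · have : |L| / 2 * η ≤ |L| * η := by
      have : 0 < |L| * η := by positivity
      linarith
    linarith

/-- Every irreducible polynomial of large height is either a multiple of one of the special
polynomials or is not small at `ξ`. -/
theorem irr_main {ξ : ℝ} {w r α : ℕ → ℝ} {S : ℕ → ℤ[X]} (hξ1 : ξ ≤ 1) (hw : ∀ k, 0 < w k)
    (_hr : ∀ k, 0 < r k)
    (hwr : ∀ k, w (k + 1) = r k / 2) (hrw : ∀ k, 2 * r k ≤ w k)
    (hlo : ∀ k, α k + r k ≤ ξ) (hhi : ∀ k, ξ ≤ α k + 2 * r k)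
    (hgood : ∀ k, Good k (w k) (r k) (α k) (S k)) (m K : ℕ) (hmK : m ≤ K) :
    ∃ H0 : ℕ, ∀ P : ℤ[X], IrrQ P → P.natDegree = m → H0 ≤ ht P →
      (∃ (k : ℕ) (g : ℤ), K ≤ k ∧ g ≠ 0 ∧ P = C g * S k) ∨
      1 ≤ |aeval ξ P| * (ht P : ℝ) ^ (40 * (m + 1)) := by
  refine ⟨⌈1 / w K⌉₊, fun P hP hPd hH => ?_⟩
  set X : ℝ := (ht P : ℝ) ^ (36 * (m + 1)) with hX
  have hH1 : (1 : ℝ) ≤ ht P := by exact_mod_cast ht_pos hP.ne_zero
  have hHX : (ht P : ℝ) ≤ X := le_self_pow₀ hH1 (by omega)
  have hX0 : 0 < X := by positivity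
  have hwK : 1 ≤ w K * X := by
    have h1 : 1 / w K ≤ ht P := (Nat.le_ceil _).trans (by exact_mod_cast hH)
    rw [div_le_iff₀ (hw K)] at h1
    calc (1 : ℝ) ≤ ht P * w K := h1
      _ = w K * ht P := mul_comm _ _
      _ ≤ w K * X := by
          have := hw K
          gcongr
  have hdec : ∀ k, w (k + 1) ≤ w k / 4 := by
    intro k
    rw [hwr k]
    linarith [hrw k]
  have hpow : ∀ k, w k ≤ w 0 / 4 ^ k := by
    intro k
    induction k with
    | zero => simp
    | succ k ih =>
      calc w (k + 1) ≤ w k / 4 := hdec k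
        _ ≤ (w 0 / 4 ^ k) / 4 := by gcongr
        _ = _ := by rw [pow_succ]; field_simp
  have hex : ∃ k, w k * X < 1 := by
    obtain ⟨k, hk⟩ := pow_unbounded_of_one_lt (w 0 * X) (by norm_num : (1 : ℝ) < 4)
    refine ⟨k, ?_⟩
    calc w k * X ≤ (w 0 / 4 ^ k) * X := by gcongr; exact hpow k
      _ = (w 0 * X) / 4 ^ k := by ring
      _ < 1 := by rw [div_lt_one (by positivity)]; exact hk
  obtain ⟨hj1, hj2⟩ : w (Nat.find hex) * X < 1 ∧ ∀ i < Nat.find hex, ¬ (w i * X < 1) :=
    ⟨Nat.find_spec hex, fun i hi => Nat.find_min hex hi⟩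
  set j := Nat.find hex with hj
  have hanti : Antitone w := antitone_nat_of_succ_le (fun k => by
    have h1 := hdec k
    have h2 := hw k
    linarith)
  have hKj : K < j := by
    by_contra hc
    push Not at hc
    have h1 := hanti hc
    have h2 : w K * X ≤ w j * X := by gcongr
    linarith
  obtain ⟨i, hi⟩ : ∃ i, j = i + 1 := ⟨j - 1, by omega⟩
  have h1 := hj2 i (by omega)
  push Not at h1
  rw [hi, hwr i] at hj1
  have h2 : r i * X < 2 := by linarith
  rcases hgood i P hP (by omega) (by rw [hPd]; exact h1) (by rw [hPd]; exact h2) with h3 | h3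
  · left
    obtain ⟨g, hg, hPg⟩ := h3
    exact ⟨i, g, by omega, hg, hPg⟩
  · right
    have h4 := h3 ξ (hlo i) (hhi i) hξ1
    rw [hPd] at h4
    exact h4

end Pool.Agent.Helper35
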