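import Mathlib
import Pool.Agent.Helper35.MobLocal
import Pool.Agent.Helper35.TConstr
import Pool.Agent.Helper35.TMain

set_option autoImplicit false

namespace Pool.Agent.Helper35

open Polynomial

/-- The fixed algebraic numbers. -/
noncomputable def TDR (R : ℕ) (hR : 1 ≤ R) (j : ℕ) : ThetaData (j + 2) (2 * R) :=
  (theta_exists (j + 2) (2 * R) (by omega) (by omega)).some

theorem constrM (R : ℕ) (hR : 1 ≤ R) (e W M : ℕ → ℕ) (hW : ∀ k, 4 ≤ W k) :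
    ∃ (ξ : ℝ) (w r : ℕ → ℝ) (q : ℕ → ℕ) (n : ℕ → ℤ), 0 ≤ ξ ∧ ξ ≤ 1 ∧ (∀ k, 0 < w k) ∧
      (∀ k, 0 < r k) ∧ (∀ k, w (k + 1) = r k / 2) ∧ (∀ k, 2 * r k ≤ w k) ∧
      (∀ k, fα (TDR R hR (e k)).θ (q k) (n k) + r k ≤ ξ) ∧
      (∀ k, ξ ≤ fα (TDR R hR (e k)).θ (q k) (n k) + 2 * r k) ∧
      (∀ k, GoodM k (q k) (w k) (r k) (fα (TDR R hR (e k)).θ (q k) (n k))
        (MS (TDR R hR (e k)).T (e k + 2) (q k) (n k) (pp (q k) (n k)) (qq (q k) (n k)))) ∧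
      (∀ k, LinGood R (w k) (r k) (fα (TDR R hR (e k)).θ (q k) (n k))) ∧
      (∀ k, (q k).Prime) ∧ (∀ k, M k ≤ q k) ∧ (∀ k, 0 < n k) ∧ (∀ k, n k < q k) ∧
      (∀ k, r k = 1 / (q k : ℝ) ^ W k) := by
  choose w0 hw0pos hstep using fun k => stepM R hR (TDR R hR (e k)) (by omega) k
  obtain ⟨f, _, hf⟩ := dep_seq (σ := ℝ × ℝ)
    (fun k s => 0 ≤ s.1 ∧ s.1 + 2 * s.2 ≤ 1 ∧ 0 < s.2 ∧ s.2 ≤ w0 k)
    (fun k s s' => ∃ (r : ℝ) (q : ℕ) (n : ℤ), 0 < r ∧ s'.2 = r / 2 ∧ 2 * r ≤ s.2 ∧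
      s'.1 = fα (TDR R hR (e k)).θ q n + r ∧ s.1 ≤ s'.1 ∧ s'.1 + 2 * s'.2 ≤ s.1 + 2 * s.2 ∧
      GoodM k q s.2 r (fα (TDR R hR (e k)).θ q n)
        (MS (TDR R hR (e k)).T (e k + 2) q n (pp q n) (qq q n)) ∧
      LinGood R s.2 r (fα (TDR R hR (e k)).θ q n) ∧ q.Prime ∧ M k ≤ q ∧ 0 < n ∧ n < q ∧
      r = 1 / (q : ℝ) ^ W k)
    (0, min (w0 0) (1 / 2)) (by
      refine ⟨le_rfl, ?_, lt_min (hw0pos 0) (by norm_num), min_le_left _ _⟩
      have := min_le_right (w0 0) (1 / 2)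
      simp only
      linarith) (by
      rintro k ⟨a, w⟩ ⟨h1, h2, h3, h4⟩
      simp only at h1 h2 h3 h4
      obtain ⟨Q0, hQ0⟩ := hstep k w h3 h4 a h1 (by linarith)
      obtain ⟨B, hB⟩ : ∃ B : ℕ, B = Q0 + M k + ⌈2 / w⌉₊ + ⌈1 / w0 (k + 1)⌉₊ + 1 := ⟨_, rfl⟩
      obtain ⟨q, hBq, hq⟩ := Nat.exists_infinite_primes B
      obtain ⟨n, hn0, hnq, hα1, hα2, hgood⟩ := hQ0 q hq (by omega)
      have hBN : (B : ℝ) ≤ (q : ℝ) := by exact_mod_cast hBq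
      have key : ∀ (N : ℝ) (v : ℕ), (B : ℝ) ≤ N → 1 ≤ v →
          0 < 1 / N ^ v ∧ 2 * (1 / N ^ v) ≤ w ∧ 1 / N ^ v ≤ w0 (k + 1) := by
        intro N v hN hv
        have hB1 : (1 : ℝ) ≤ B := by exact_mod_cast (by omega : 1 ≤ B)
        have hN1 : 1 ≤ N := hB1.trans hN
        have hb1 : 2 / w ≤ B := (Nat.le_ceil _).trans (by exact_mod_cast (by omega))
        have hb2 : 1 / w0 (k + 1) ≤ B := (Nat.le_ceil _).trans (by exact_mod_cast (by omega))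
        have hNv : N ≤ N ^ v := le_self_pow₀ hN1 (by omega)
        refine ⟨by positivity, ?_, ?_⟩
        · rw [mul_one_div, div_le_iff₀ (by positivity)]
          rw [div_le_iff₀ h3] at hb1
          calc 2 ≤ (B : ℝ) * w := hb1
            _ ≤ N ^ v * w := by
                have := hN.trans hNv
                gcongr
            _ = _ := mul_comm _ _
        · rw [div_le_iff₀ (by positivity)]
          have h5 := hw0pos (k + 1)
          rw [div_le_iff₀ h5] at hb2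
          calc 1 ≤ (B : ℝ) * w0 (k + 1) := hb2
            _ ≤ N ^ v * w0 (k + 1) := by
                have := hN.trans hNv
                gcongr
            _ = _ := mul_comm _ _
      have hWk := hW k
      obtain ⟨g1, g2, g3⟩ := key _ (W k) hBN (by omega)
      have hN1 : (1 : ℝ) ≤ (q : ℝ) := by exact_mod_cast hq.one_lt.le
      obtain ⟨hg1, hg2⟩ := hgood _ g1 (by
        rw [one_div, inv_mul_le_iff₀ (by positivity), mul_one]
        exact pow_le_pow_right₀ hN1 hWk)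
      obtain ⟨r, hr⟩ : ∃ r : ℝ, r = 1 / (q : ℝ) ^ W k := ⟨_, rfl⟩
      rw [← hr] at g1 g2 g3 hg1 hg2
      refine ⟨(fα (TDR R hR (e k)).θ q n + r, r / 2), ⟨?_, ?_, ?_, ?_⟩, r, q, n, g1, rfl, g2,
        rfl, ?_, ?_, hg1, hg2, hq, by omega, hn0, hnq, hr⟩
      · simp only; linarith
      · simp only; linarith
      · simp only; linarith
      · simp only; linarith
      · simp only; linarith
      · simp only; linarith)
  choose r q n hr0 hr1 hr2 hr3 hr4 hr5 hr6 hr7 hr8 hr9 hr10 hr11 hr12 using fun k => (hf k).2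
  obtain ⟨ξ, hξ⟩ := nested (fun k => (f k).1) (fun k => (f k).2) (fun k => (hf k).1.2.2.1)
    (fun k => hr4 k) (fun k => hr5 k)
  refine ⟨ξ, fun k => (f k).2, r, q, n, ?_, ?_, fun k => (hf k).1.2.2.1, hr0, hr1, hr2,
    fun k => ?_, fun k => ?_, hr6, hr7, hr8, hr9, hr10, hr11, hr12⟩
  · exact (hf 0).1.1.trans (hξ 0).1
  · exact (hξ 0).2.trans (hf 0).1.2.1
  · have h1 := (hξ (k + 1)).1
    rw [hr3 k] at h1
    exact h1
  · have h1 := (hξ (k + 1)).2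
    rw [hr3 k, hr1 k] at h1
    linarith

theorem w_decay {w r : ℕ → ℝ} (hwr : ∀ k, w (k + 1) = r k / 2) (hrw : ∀ k, 2 * r k ≤ w k) :
    ∀ k, w k ≤ w 0 / 4 ^ k := by
  intro k
  induction k with
  | zero => simp
  | succ k ih =>
    have hdec : w (k + 1) ≤ w k / 4 := by
      rw [hwr k]
      linarith [hrw k]
    calc w (k + 1) ≤ w k / 4 := hdec
      _ ≤ (w 0 / 4 ^ k) / 4 := by gcongr
      _ = _ := by rw [pow_succ]; field_simp

/-- The chain lemma in degrees at least two. -/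
theorem irr_mainM {ξ : ℝ} {w r α : ℕ → ℝ} {q : ℕ → ℕ} {S : ℕ → ℤ[X]} (hξ1 : ξ ≤ 1)
    (hw : ∀ k, 0 < w k)
    (hwr : ∀ k, w (k + 1) = r k / 2) (hrw : ∀ k, 2 * r k ≤ w k)
    (hlo : ∀ k, α k + r k ≤ ξ) (hhi : ∀ k, ξ ≤ α k + 2 * r k)
    (hgood : ∀ k, GoodM k (q k) (w k) (r k) (α k) (S k)) (m K : ℕ)
    (hm : 2 ≤ m) (hmK : m ≤ K) :
    ∃ H0 : ℕ, ∀ P : ℤ[X], IrrQ P → P.natDegree = m → H0 ≤ ht P →
      (∃ (k : ℕ) (g : ℤ), K ≤ k ∧ g ≠ 0 ∧ P = C g * S k ∧ q k < (ht P) ^ (2 * (m + 1))) ∨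
      1 ≤ |aeval ξ P| * (ht P : ℝ) ^ (EE m) := by
  refine ⟨⌈1 / w K⌉₊, fun P hP hPd hH => ?_⟩
  obtain ⟨X, hX⟩ : ∃ X : ℝ, X = (ht P : ℝ) ^ (TT m) := ⟨_, rfl⟩
  have hH1 : (1 : ℝ) ≤ ht P := by exact_mod_cast ht_pos hP.ne_zero
  have hHX : (ht P : ℝ) ≤ X := by
    rw [hX]
    exact le_self_pow₀ hH1 (by have := (TT_facts m hm).2.2; omega)
  have hX0 : 0 < X := by rw [hX]; positivity
  have hdec : ∀ k, w (k + 1) ≤ w k / 4 := by
    intro k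
    rw [hwr k]
    linarith [hrw k]
  have hanti : Antitone w := antitone_nat_of_succ_le (fun k => by
    have h1 := hdec k
    have h2 := hw k
    linarith)
  have hwK : ∀ i, i ≤ K → 1 ≤ w i * X := by
    intro i hi
    have h1 : 1 / w K ≤ ht P := (Nat.le_ceil _).trans (by exact_mod_cast hH)
    rw [div_le_iff₀ (hw K)] at h1
    calc (1 : ℝ) ≤ ht P * w K := h1
      _ ≤ ht P * w i := by
          have := hanti hi
          gcongr
      _ = w i * ht P := mul_comm _ _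
      _ ≤ w i * X := by
          have := hw i
          gcongr
  have hex : ∃ k, w k * X < 1 := by
    obtain ⟨k, hk⟩ := pow_unbounded_of_one_lt (w 0 * X) (by norm_num : (1 : ℝ) < 4)
    refine ⟨k, ?_⟩
    have h0 := hw 0
    calc w k * X ≤ (w 0 / 4 ^ k) * X := by
          have := w_decay hwr hrw k
          gcongr
      _ = (w 0 * X) / 4 ^ k := by ring
      _ < 1 := by rw [div_lt_one (by positivity)]; exact hk
  obtain ⟨hj1, hj2⟩ : w (Nat.find hex) * X < 1 ∧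
      ∀ i < Nat.find hex, ¬ (w i * X < 1) :=
    ⟨Nat.find_spec hex, fun i hi => Nat.find_min hex hi⟩
  obtain ⟨j, hj⟩ : ∃ j, j = Nat.find hex := ⟨_, rfl⟩
  rw [← hj] at hj1 hj2
  have hKj : K < j := by
    by_contra hc
    push Not at hc
    have := hwK j hc
    linarith
  obtain ⟨i, hi⟩ : ∃ i, j = i + 1 := ⟨j - 1, by omega⟩
  have h1 := hj2 i (by omega)
  push Not at h1
  rw [hi, hwr i, hX] at hj1
  rw [hX] at h1
  have h2 : r i * (ht P : ℝ) ^ (TT m) < 2 := by linarith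
  rcases hgood i P hP (by omega) (by omega) (by rw [hPd]; exact h1) (by rw [hPd]; exact h2) with
    h3 | h3
  · left
    obtain ⟨g, hg, hPg, hq⟩ := h3
    rw [hPd] at hq
    exact ⟨i, g, by omega, hg, hPg, hq⟩
  · right
    have h4 := h3 ξ (hlo i) (hhi i) hξ1
    rw [hPd] at h4
    exact h4

/-- The chain lemma for fractions. -/
theorem lin_chain (R : ℕ) (hR : 1 ≤ R) {ξ : ℝ} {w r α : ℕ → ℝ}
    (hw : ∀ k, 0 < w k)
    (hwr : ∀ k, w (k + 1) = r k / 2) (hrw : ∀ k, 2 * r k ≤ w k)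
    (hlo : ∀ k, α k + r k ≤ ξ) (hhi : ∀ k, ξ ≤ α k + 2 * r k)
    (hgood : ∀ k, LinGood R (w k) (r k) (α k)) :
    ∃ B0 : ℤ, ∀ A B : ℤ, 1 ≤ B → B0 ≤ B → 1 ≤ |ξ - (A : ℝ) / B| ^ R * (B : ℝ) ^ (2 * R + 1) := by
  refine ⟨⌈256 / w 0⌉, fun A B hB1 hB => ?_⟩
  have hBr : (1 : ℝ) ≤ B := by exact_mod_cast hB1
  have hB0 : 256 / w 0 ≤ B := (Int.le_ceil _).trans (by exact_mod_cast hB)
  obtain ⟨X, hX⟩ : ∃ X : ℝ, X = (B : ℝ) ^ (2 * R + 1) := ⟨_, rfl⟩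
  have hX0 : 0 < X := by rw [hX]; positivity
  have h0 : (256 : ℝ) ^ R ≤ w 0 ^ R * X := by
    rw [div_le_iff₀ (hw 0)] at hB0
    have h1 : (256 : ℝ) ^ R ≤ ((B : ℝ) * w 0) ^ R := by gcongr
    have h2 : (B : ℝ) ^ R ≤ X := by rw [hX]; exact pow_le_pow_right₀ hBr (by omega)
    have h3 := hw 0
    calc (256 : ℝ) ^ R ≤ ((B : ℝ) * w 0) ^ R := h1
      _ = w 0 ^ R * (B : ℝ) ^ R := by rw [mul_pow]; ring
      _ ≤ w 0 ^ R * X := by gcongr
  have hex : ∃ k, w k ^ R * X < 256 ^ R := by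
    obtain ⟨k, hk⟩ := pow_unbounded_of_one_lt (w 0 ^ R * X) (by norm_num : (1 : ℝ) < 4)
    refine ⟨k, ?_⟩
    have h1 := hw 0
    have h2 := hw k
    calc w k ^ R * X ≤ (w 0 / 4 ^ k) ^ R * X := by
          have := w_decay hwr hrw k
          gcongr
      _ = (w 0 ^ R * X) / (4 ^ k) ^ R := by rw [div_pow]; ring
      _ ≤ (w 0 ^ R * X) / 4 ^ k := by
          have : (4 : ℝ) ^ k ≤ (4 ^ k) ^ R := le_self_pow₀ (one_le_pow₀ (by norm_num)) (by omega)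
          gcongr
      _ < 1 := by rw [div_lt_one (by positivity)]; exact hk
      _ ≤ 256 ^ R := one_le_pow₀ (by norm_num)
  obtain ⟨hj1, hj2⟩ : w (Nat.find hex) ^ R * X < 256 ^ R ∧
      ∀ i < Nat.find hex, ¬ (w i ^ R * X < 256 ^ R) :=
    ⟨Nat.find_spec hex, fun i hi => Nat.find_min hex hi⟩
  obtain ⟨j, hj⟩ : ∃ j, j = Nat.find hex := ⟨_, rfl⟩
  rw [← hj] at hj1 hj2
  have hj0 : 0 < j := by
    by_contra hc
    have : j = 0 := by omega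
    rw [this] at hj1
    linarith
  obtain ⟨i, hi⟩ : ∃ i, j = i + 1 := ⟨j - 1, by omega⟩
  have h1 := hj2 i (by omega)
  push Not at h1
  rw [hi, hwr i] at hj1
  have h2 : r i ^ R * X < 512 ^ R := by
    have e1 : r i = 2 * (r i / 2) := by ring
    rw [e1, mul_pow]
    calc (2 : ℝ) ^ R * (r i / 2) ^ R * X = 2 ^ R * ((r i / 2) ^ R * X) := by ring
      _ < 2 ^ R * 256 ^ R := by gcongr
      _ = 512 ^ R := by rw [← mul_pow]; norm_num
  rw [hX] at h1 h2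
  exact hgood i A B hB1 h1 h2 ξ (hlo i) (hhi i)

end Pool.Agent.Helper35
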