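import Mathlib
import Pool.Agent.Helper35.NGood

set_option autoImplicit false

namespace Pool.Agent.Helper35

open Polynomial

theorem good_ofB (k N : ℕ) (hN : 2 ≤ N) (hNk : 16 * (k + 1) ^ 2 ≤ N) (w : ℝ) (n : ℤ)
    (hα0 : 0 ≤ (n : ℝ) / N) (hα1 : (n : ℝ) / N ≤ 1)
    (hlow : ∀ P : ℤ[X], IrrQ P → P.natDegree ≤ k →
      1 ≤ w * (ht P : ℝ) ^ (36 * (P.natDegree + 1)) → (ht P) ^ (2 * (P.natDegree + 1)) ≤ N →
      2 < |aeval ((n : ℝ) / N) P| * (ht P : ℝ) ^ (40 * (P.natDegree + 1))) :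
    GoodN 36 60 k w (1 / (N : ℝ) ^ 4) ((n : ℝ) / N) 1 := by
  intro P hP hPk hPw hPr
  right
  intro ξ hξ1 hξ2 hξle
  obtain ⟨r, hr⟩ : ∃ r : ℝ, r = 1 / (N : ℝ) ^ 4 := ⟨_, rfl⟩
  rw [← hr] at hPr hξ1 hξ2
  obtain ⟨α, hα⟩ : ∃ α : ℝ, α = (n : ℝ) / N := ⟨_, rfl⟩
  rw [← hα] at hα0 hα1 hξ1 hξ2
  obtain ⟨m, hm⟩ : ∃ m : ℕ, m = P.natDegree := ⟨_, rfl⟩
  rw [← hm] at hPw hPr hPk ⊢
  obtain ⟨H, hH⟩ : ∃ H : ℝ, H = (ht P : ℝ) := ⟨_, rfl⟩
  have hH1 : 1 ≤ ht P := ht_pos hP.ne_zero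
  have hHr : 1 ≤ H := by rw [hH]; exact_mod_cast hH1
  have hH0 : 0 < H := by linarith
  have hNr : (2 : ℝ) ≤ N := by exact_mod_cast hN
  have hN0 : (0 : ℝ) < N := by linarith
  have hr0 : 0 < r := by rw [hr]; positivity
  -- H^(15(m+1)) < 2N
  have h15 : H ^ (15 * (m + 1)) < 2 * N := by
    rw [← hH, hr, one_div, inv_mul_lt_iff₀ (by positivity)] at hPr
    have e1 : H ^ (60 * (m + 1)) = (H ^ (15 * (m + 1))) ^ 4 := by
      rw [← pow_mul]; congr 1; ring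
    rw [e1] at hPr
    by_contra hc
    push Not at hc
    have h1 : (2 * (N : ℝ)) ^ 4 ≤ (H ^ (15 * (m + 1))) ^ 4 := by gcongr
    have h2 : (N : ℝ) ^ 4 * 2 ≤ (2 * (N : ℝ)) ^ 4 := by
      have : (2 * (N : ℝ)) ^ 4 = 16 * (N : ℝ) ^ 4 := by ring
      rw [this]
      have : 0 < (N : ℝ) ^ 4 := by positivity
      linarith
    linarith
  have hcase : (ht P) ^ (2 * (m + 1)) ≤ N := by
    by_contra hc
    push Not at hc
    have h1 : (N : ℝ) + 1 ≤ H ^ (2 * (m + 1)) := by rw [hH]; exact_mod_cast hc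
    have h2 : (H ^ (2 * (m + 1))) ^ 2 ≤ H ^ (15 * (m + 1)) := by
      rw [← pow_mul]
      exact pow_le_pow_right₀ hHr (by omega)
    have h3 : ((N : ℝ) + 1) ^ 2 ≤ (H ^ (2 * (m + 1))) ^ 2 := by gcongr
    nlinarith
  have h1 := hlow P hP (by omega) (by rw [← hm]; exact hPw) (by rw [← hm]; exact hcase)
  rw [← hm, ← hH, ← hα] at h1
  have hαabs : |α| ≤ 1 := by rw [abs_of_nonneg hα0]; exact hα1
  have hξabs : |ξ| ≤ 1 := by rw [abs_le]; constructor <;> linarith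
  have hpert : |aeval α P| - ((m : ℝ) + 1) ^ 2 * H * (2 * r) ≤ |aeval ξ P| := by
    have h1 := abs_aeval_sub_le P ξ α hξabs hαabs
    rw [← hm, ← hH] at h1
    have h2 : |ξ - α| ≤ 2 * r := by rw [abs_of_nonneg (by linarith)]; linarith
    have h3 : |aeval α P| ≤ |aeval ξ P| + |aeval ξ P - aeval α P| := by
      have := abs_sub_abs_le_abs_sub (aeval α P) (aeval ξ P)
      rw [abs_sub_comm] at this
      linarith
    have h4 : ((m : ℝ) + 1) ^ 2 * H * |ξ - α| ≤ ((m : ℝ) + 1) ^ 2 * H * (2 * r) := by gcongr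
    linarith
  have hmk : 16 * ((m : ℝ) + 1) ^ 2 ≤ N := by
    have h2 : 16 * (m + 1) ^ 2 ≤ N := by
      refine le_trans ?_ hNk
      gcongr
    exact_mod_cast h2
  have h4 : ((m : ℝ) + 1) ^ 2 * H * (2 * r) * H ^ (40 * (m + 1)) ≤ 1 := by
    have h5 : H * H ^ (40 * (m + 1)) ≤ (2 * (N : ℝ)) ^ 3 := by
      calc H * H ^ (40 * (m + 1)) = H ^ (40 * (m + 1) + 1) := by ring
        _ ≤ H ^ (3 * (15 * (m + 1))) := pow_le_pow_right₀ hHr (by omega)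
        _ = (H ^ (15 * (m + 1))) ^ 3 := by rw [← pow_mul]; congr 1; ring
        _ ≤ (2 * (N : ℝ)) ^ 3 := by gcongr
    have h6 : r * (N : ℝ) ^ 4 = 1 := by rw [hr]; field_simp
    calc ((m : ℝ) + 1) ^ 2 * H * (2 * r) * H ^ (40 * (m + 1))
        = (2 * ((m : ℝ) + 1) ^ 2 * r) * (H * H ^ (40 * (m + 1))) := by ring
      _ ≤ (2 * ((m : ℝ) + 1) ^ 2 * r) * (2 * (N : ℝ)) ^ 3 := by gcongr
      _ = (16 * ((m : ℝ) + 1) ^ 2) * (r * (N : ℝ) ^ 3) := by ring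
      _ ≤ (N : ℝ) * (r * (N : ℝ) ^ 3) := by gcongr
      _ = 1 := by rw [← h6]; ring
  have h5 : (|aeval α P| - ((m : ℝ) + 1) ^ 2 * H * (2 * r)) * H ^ (40 * (m + 1)) ≤
      |aeval ξ P| * H ^ (40 * (m + 1)) := by gcongr
  rw [sub_mul] at h5
  rw [← hH]
  calc (1 : ℝ) ≤ |aeval ξ P| * H ^ (40 * (m + 1)) := by linarith
    _ ≤ |aeval ξ P| * H ^ (64 * (m + 1)) := by
        have : H ^ (40 * (m + 1)) ≤ H ^ (64 * (m + 1)) := pow_le_pow_right₀ hHr (by omega)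
        gcongr

theorem exists_pow_ge (b : ℕ) (hb : 2 ≤ b) (M : ℕ) : M ≤ b ^ M :=
  (Nat.lt_pow_self (by omega)).le

theorem stepNB (k : ℕ) : ∃ w0 : ℝ, 0 < w0 ∧ ∀ w : ℝ, 0 < w →
    w ≤ w0 → ∀ a : ℝ, 0 ≤ a → a + w ≤ 1 → ∀ b : ℕ, 2 ≤ b → ∀ M0 : ℕ, ∃ J : ℕ, M0 ≤ J ∧ ∃ n : ℤ,
    a ≤ (n : ℝ) / ((b ^ J : ℕ) : ℝ) ∧ (n : ℝ) / ((b ^ J : ℕ) : ℝ) ≤ a + w ∧
    GoodN 36 60 k w (1 / ((b ^ J : ℕ) : ℝ) ^ 4) ((n : ℝ) / ((b ^ J : ℕ) : ℝ)) 1 := by
  classical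
  obtain ⟨SK, hSK⟩ : ∃ SK : ℝ, SK = ∑ m ∈ Finset.range (k + 1), Kc m := ⟨_, rfl⟩
  obtain ⟨SC, hSC⟩ : ∃ SC : ℝ, SC = ∑ m ∈ Finset.range (k + 1), cc m := ⟨_, rfl⟩
  obtain ⟨SD, hSD⟩ : ∃ SD : ℝ, SD = ∑ m ∈ Finset.range (k + 1), (m : ℝ) * 3 ^ (m + 1) := ⟨_, rfl⟩
  have hKnn : ∀ m, 0 ≤ Kc m := fun m => by unfold Kc; positivity
  have hSK0 : 0 ≤ SK := by rw [hSK]; exact Finset.sum_nonneg (fun m _ => hKnn m)
  have hSC0 : 0 ≤ SC := by rw [hSC]; exact Finset.sum_nonneg (fun m _ => cc_nonneg m)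
  have hSD0 : 0 ≤ SD := by rw [hSD]; exact Finset.sum_nonneg (fun m _ => by positivity)
  obtain ⟨Y, hY⟩ : ∃ Y : ℝ, Y = 2 * SK + 64 * SC + 1 := ⟨_, rfl⟩
  have hY1 : 1 ≤ Y := by rw [hY]; linarith
  refine ⟨1 / Y ^ 36, by positivity, fun w hwpos hw a ha haw b hb M0 => ?_⟩
  have hwY : w * Y ^ 36 ≤ 1 := by
    rw [le_div_iff₀ (by positivity)] at hw
    exact hw
  have hw1 : w ≤ 1 := by linarith
  obtain ⟨B, hB⟩ : ∃ B : ℕ, B = M0 + ⌈32 * SD / w⌉₊ + ⌈64 / w⌉₊ + 16 * (k + 1) ^ 2 + 2 := ⟨_, rfl⟩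
  obtain ⟨J, hJ⟩ : ∃ J : ℕ, J = 4 * B := ⟨_, rfl⟩
  obtain ⟨N, hN⟩ : ∃ N : ℕ, N = b ^ J := ⟨_, rfl⟩
  have hbB : B ≤ b ^ B := exists_pow_ge b hb B
  have hb1 : 1 ≤ b ^ B := Nat.one_le_iff_ne_zero.mpr (pow_ne_zero _ (by omega))
  have hNB : N = (b ^ B) ^ 4 := by rw [hN, hJ, ← pow_mul, mul_comm]
  have hBN : B ≤ N := by
    rw [hNB]
    exact hbB.trans (Nat.le_self_pow (by norm_num) _)
  have hN1 : 1 ≤ N := by omega
  have hNpos : 0 < N := hN1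
  have hNrpos : (0 : ℝ) < N := by exact_mod_cast hNpos
  have hceil : ∀ x : ℝ, (⌈x⌉₊ : ℕ) ≤ B → x ≤ B := fun x hx =>
    (Nat.le_ceil x).trans (by exact_mod_cast hx)
  have hBSD : 32 * SD / w ≤ B := hceil _ (by omega)
  have hBr : (B : ℝ) ≤ N := by exact_mod_cast hBN
  have hwN : 64 ≤ w * N := by
    have h1 := hceil (64 / w) (by omega)
    rw [div_le_iff₀ hwpos] at h1
    have h2 : (B : ℝ) * w ≤ N * w := by gcongr
    linarith
  have hT4 : (B : ℝ) ≤ (Nat.sqrt (Nat.sqrt N) : ℝ) := by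
    have h1 : B ≤ Nat.sqrt (Nat.sqrt N) := by
      rw [Nat.le_sqrt, Nat.le_sqrt]
      calc B * B * (B * B) = B ^ 4 := by ring
        _ ≤ (b ^ B) ^ 4 := Nat.pow_le_pow_left hbB 4
        _ = N := hNB.symm
    exact_mod_cast h1
  have hBpos : (0 : ℝ) < B := by
    have : 0 < B := by omega
    exact_mod_cast this
  have hT4pos : (0 : ℝ) < (Nat.sqrt (Nat.sqrt N) : ℝ) := lt_of_lt_of_le hBpos hT4
  refine ⟨J, by omega, ?_⟩
  rw [← hN]
  by_contra hcon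
  push Not at hcon
  obtain ⟨All, hAll⟩ : ∃ All : Finset ℤ, All = Finset.Icc ⌈a * N⌉ ⌊(a + w) * N⌋ := ⟨_, rfl⟩
  have hmem : ∀ n ∈ All, a ≤ (n : ℝ) / N ∧ (n : ℝ) / N ≤ a + w := by
    intro n hn
    rw [hAll, Finset.mem_Icc] at hn
    refine ⟨?_, ?_⟩
    · rw [le_div_iff₀ hNrpos]; exact Int.ceil_le.mp hn.1
    · rw [div_le_iff₀ hNrpos]; exact Int.le_floor.mp hn.2
  have hcardAll : w * N - 1 ≤ (All.card : ℝ) := by
    rw [hAll, Int.card_Icc]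
    have h1 : ((⌊(a + w) * N⌋ + 1 - ⌈a * N⌉ : ℤ) : ℝ) ≤
        (((⌊(a + w) * N⌋ + 1 - ⌈a * N⌉).toNat : ℕ) : ℝ) := by
      exact_mod_cast Int.self_le_toNat _
    refine le_trans ?_ h1
    push_cast
    have h2 := Int.lt_floor_add_one ((a + w) * N)
    have h3 := Int.ceil_lt_add_one (a * N)
    linarith
  obtain ⟨LB, hLB⟩ : ∃ LB : ℕ → Finset ℤ, LB = fun m => All.filter (fun n : ℤ => ∃ P : ℤ[X],
    IrrQ P ∧ P.natDegree = m ∧ 1 ≤ w * (ht P : ℝ) ^ (36 * (m + 1)) ∧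
      (ht P) ^ (2 * (m + 1)) ≤ N ∧
      |aeval ((0 : ℝ) + (n : ℝ) / N) P| ≤ 2 / (ht P : ℝ) ^ ((36 + 4) * (m + 1))) := ⟨_, rfl⟩
  have hsub : All ⊆ (Finset.Icc 1 k).biUnion LB := by
    intro n hn
    obtain ⟨hn1, hn2⟩ := hmem n hn
    rw [Finset.mem_biUnion]
    have h0 := hcon n hn1 hn2
    by_contra hno
    apply h0
    apply good_ofB k N (by omega) (by omega) w n (by linarith) (by linarith)
    intro P hP1 hP2 hP3 hP4
    by_contra hP5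
    push Not at hP5
    apply hno
    refine ⟨P.natDegree, Finset.mem_Icc.mpr ⟨hP1.natDegree_pos, hP2⟩, ?_⟩
    rw [hLB, Finset.mem_filter]
    refine ⟨hn, P, hP1, rfl, hP3, hP4, ?_⟩
    have hhp : (0 : ℝ) < ht P := by exact_mod_cast ht_pos hP1.ne_zero
    rw [le_div_iff₀ (by positivity), zero_add]
    exact hP5
  have hLBcard : ∀ m ∈ Finset.Icc 1 k, ((LB m).card : ℝ) ≤
      2 * cc m * N * w / Y + m * 3 ^ (m + 1) * N / (Nat.sqrt (Nat.sqrt N)) := by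
    intro m hm
    rw [Finset.mem_Icc] at hm
    refine low_count' 0 m hm.1 36 (by norm_num) N hNpos w Y hwpos hY1 hwY ?_ (LB m) ?_
    · have h1 : Kc m ≤ SK := by
        rw [hSK]
        exact Finset.single_le_sum (f := Kc) (fun i _ => hKnn i)
          (Finset.mem_range.mpr (by omega))
      rw [hY]; linarith
    · intro n hn
      rw [hLB, Finset.mem_filter] at hn
      refine ⟨?_, hn.2⟩
      obtain ⟨g1, g2⟩ := hmem n hn.1
      rw [zero_add, abs_le]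
      constructor <;> linarith
  have hcardle : (All.card : ℝ) ≤ ∑ m ∈ Finset.Icc 1 k, ((LB m).card : ℝ) := by
    have h1 : All.card ≤ ∑ m ∈ Finset.Icc 1 k, (LB m).card :=
      (Finset.card_le_card hsub).trans Finset.card_biUnion_le
    exact_mod_cast h1
  have hs1 : ∑ m ∈ Finset.Icc 1 k, ((LB m).card : ℝ) ≤ w * N / 32 + w * N / 32 := by
    have hsubset : Finset.Icc 1 k ⊆ Finset.range (k + 1) := by
      intro m hm
      rw [Finset.mem_Icc] at hm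
      exact Finset.mem_range.mpr (by omega)
    calc ∑ m ∈ Finset.Icc 1 k, ((LB m).card : ℝ)
        ≤ ∑ m ∈ Finset.Icc 1 k, (2 * cc m * N * w / Y +
          m * 3 ^ (m + 1) * N / (Nat.sqrt (Nat.sqrt N))) := Finset.sum_le_sum hLBcard
      _ ≤ ∑ m ∈ Finset.range (k + 1), (2 * cc m * N * w / Y +
          m * 3 ^ (m + 1) * N / (Nat.sqrt (Nat.sqrt N))) := by
          apply Finset.sum_le_sum_of_subset_of_nonneg hsubset
          intro m _ _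
          have := cc_nonneg m
          positivity
      _ = 2 * SC * N * w / Y + SD * N / (Nat.sqrt (Nat.sqrt N)) := by
          rw [Finset.sum_add_distrib, hSC, hSD, Finset.mul_sum, Finset.sum_mul, Finset.sum_mul,
            Finset.sum_div, Finset.sum_mul, Finset.sum_div]
      _ ≤ w * N / 32 + w * N / 32 := by
          have h1 : 2 * SC * N * w / Y ≤ w * N / 32 := by
            rw [div_le_div_iff₀ (by linarith) (by norm_num)]
            have h2 : 64 * SC ≤ Y := by rw [hY]; linarith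
            calc 2 * SC * N * w * 32 = (w * N) * (64 * SC) := by ring
              _ ≤ (w * N) * Y := by gcongr
          have h4 : SD * N / (Nat.sqrt (Nat.sqrt N)) ≤ w * N / 32 := by
            rw [div_le_div_iff₀ hT4pos (by norm_num)]
            rw [div_le_iff₀ hwpos] at hBSD
            have h5 : 32 * SD ≤ w * (Nat.sqrt (Nat.sqrt N) : ℝ) := by
              calc 32 * SD ≤ B * w := hBSD
                _ ≤ (Nat.sqrt (Nat.sqrt N) : ℝ) * w := by gcongr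
                _ = _ := mul_comm _ _
            calc SD * N * 32 = N * (32 * SD) := by ring
              _ ≤ N * (w * (Nat.sqrt (Nat.sqrt N) : ℝ)) := by gcongr
              _ = _ := by ring
          linarith
  linarith

end Pool.Agent.Helper35
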