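import Mathlib
import Pool.Agent.Helper35.Final

set_option autoImplicit false

namespace Pool.Agent.Helper35

open Polynomial

theorem abs_pow_sub_pow_le2 (x y : ℝ) (hx : |x| ≤ 1) (hy : |y| ≤ 2) (i : ℕ) :
    |x ^ i - y ^ i| ≤ (i : ℝ) * 2 ^ i * |x - y| := by
  induction i with
  | zero => simp
  | succ i ih =>
    have e : x ^ (i + 1) - y ^ (i + 1) = x ^ i * (x - y) + (x ^ i - y ^ i) * y := by ring
    rw [e]
    have h1 : |x ^ i| ≤ 1 := by rw [abs_pow]; exact pow_le_one₀ (abs_nonneg _) hx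
    have h2 : (1 : ℝ) ≤ 2 ^ i := one_le_pow₀ (by norm_num)
    have h3 : 0 ≤ |x - y| := abs_nonneg _
    calc |x ^ i * (x - y) + (x ^ i - y ^ i) * y|
        ≤ |x ^ i * (x - y)| + |(x ^ i - y ^ i) * y| := abs_add_le _ _
      _ = |x ^ i| * |x - y| + |x ^ i - y ^ i| * |y| := by rw [abs_mul, abs_mul]
      _ ≤ 1 * |x - y| + ((i : ℝ) * 2 ^ i * |x - y|) * 2 := by
          gcongr
      _ ≤ 2 ^ (i + 1) * |x - y| + ((i : ℝ) * 2 ^ i * |x - y|) * 2 := by
          gcongr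
          rw [pow_succ]; linarith
      _ = ((i + 1 : ℕ) : ℝ) * 2 ^ (i + 1) * |x - y| := by push_cast; ring

theorem abs_aeval_sub_le2 (P : ℤ[X]) (x y : ℝ) (hx : |x| ≤ 1) (hy : |y| ≤ 2) (n : ℕ)
    (hn : P.natDegree ≤ n) :
    |aeval x P - aeval y P| ≤ (((n : ℝ) + 1) ^ 2 * 2 ^ n) * ht P * |x - y| := by
  have hnr : (P.natDegree : ℝ) ≤ n := by exact_mod_cast hn
  rw [aeval_eq_sum, aeval_eq_sum, ← Finset.sum_sub_distrib]
  calc |∑ i ∈ Finset.range (P.natDegree + 1), ((P.coeff i : ℝ) * x ^ i - (P.coeff i : ℝ) * y ^ i)|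
      ≤ ∑ i ∈ Finset.range (P.natDegree + 1),
          |(P.coeff i : ℝ) * x ^ i - (P.coeff i : ℝ) * y ^ i| := Finset.abs_sum_le_sum_abs _ _
    _ ≤ ∑ i ∈ Finset.range (P.natDegree + 1), (((n : ℝ) + 1) * 2 ^ n) * ht P * |x - y| := by
        refine Finset.sum_le_sum (fun i hi => ?_)
        rw [← mul_sub, abs_mul]
        have hi0 : i ≤ n := by
          have := Finset.mem_range.mp hi
          omega
        have hi' : (i : ℝ) ≤ (n : ℝ) + 1 := by
          have : (i : ℝ) ≤ n := by exact_mod_cast hi0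
          linarith
        have hi2 : (2 : ℝ) ^ i ≤ 2 ^ n := pow_le_pow_right₀ (by norm_num) hi0
        calc |(P.coeff i : ℝ)| * |x ^ i - y ^ i|
            ≤ ht P * ((i : ℝ) * 2 ^ i * |x - y|) :=
              mul_le_mul (abs_coeff_le_ht P i) (abs_pow_sub_pow_le2 x y hx hy i)
                (abs_nonneg _) (Nat.cast_nonneg _)
          _ ≤ ht P * (((n : ℝ) + 1) * 2 ^ n * |x - y|) := by gcongr
          _ = _ := by ring
    _ = ((P.natDegree : ℝ) + 1) * ((((n : ℝ) + 1) * 2 ^ n) * ht P * |x - y|) := by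
        rw [Finset.sum_const, Finset.card_range, nsmul_eq_mul]; push_cast; ring
    _ ≤ ((n : ℝ) + 1) * ((((n : ℝ) + 1) * 2 ^ n) * ht P * |x - y|) := by
        gcongr
    _ = _ := by ring

/-- `P` is the minimal polynomial over the integers of `α`. -/
def IsMinZ (P : ℤ[X]) (α : ℝ) : Prop :=
  Irreducible P ∧ P.IsPrimitive ∧ 0 < P.leadingCoeff ∧ aeval α P = 0

/-- The exponents for algebraic approximation. -/
def SSet (ξ : ℝ) (n : ℕ) : Set ℝ :=
  {w : ℝ | {α : ℝ | ∃ P : ℤ[X], IsMinZ P α ∧ P.natDegree ≤ n ∧ 0 < |ξ - α| ∧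
    |ξ - α| ≤ (ht P : ℝ) ^ (-w - 1)}.Infinite}

theorem exists_ht_gt_alg {n : ℕ} {S : Set ℝ} (hS : S.Infinite) (Q : ℤ[X] → ℝ → Prop)
    (hd : ∀ α ∈ S, ∃ P : ℤ[X], P ≠ 0 ∧ aeval α P = 0 ∧ P.natDegree ≤ n ∧ Q P α)
    (H : ℕ) : ∃ α ∈ S, ∃ P : ℤ[X], P ≠ 0 ∧ aeval α P = 0 ∧ P.natDegree ≤ n ∧ Q P α ∧ H < ht P := by
  classical
  by_contra hcon
  push Not at hcon
  apply hS
  have hfin : (⋃ P ∈ (↑(boxF n H) : Set ℤ[X]), {α : ℝ | P ≠ 0 ∧ aeval α P = 0}).Finite := by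
    apply Set.Finite.biUnion (boxF n H).finite_toSet
    intro P _
    by_cases hP : P = 0
    · simp [hP]
    · have h1 : (P.map (Int.castRingHom ℝ)) ≠ 0 :=
        (Polynomial.map_ne_zero_iff (RingHom.injective_int _)).mpr hP
      apply (P.map (Int.castRingHom ℝ)).roots.toFinset.finite_toSet.subset
      intro α hα
      rw [Finset.mem_coe, Multiset.mem_toFinset, mem_roots h1, IsRoot.def]
      have h2 := hα.2
      rw [eval_map]
      simpa [aeval_def] using h2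
  apply hfin.subset
  intro α hα
  obtain ⟨P, hP0, hPr, hPd, hQ⟩ := hd α hα
  have h3 := hcon α hα P hP0 hPr hPd hQ
  rw [Set.mem_iUnion₂]
  exact ⟨P, mem_boxF hPd h3, hP0, hPr⟩

theorem SSet_le (ξ : ℝ) (hξ0 : 0 ≤ ξ) (hξ1 : ξ ≤ 1) (n E : ℕ) (c : ℝ) (hc : 0 < c)
    (h : ∀ P : ℤ[X], P ≠ 0 → P.natDegree ≤ n → c ≤ |aeval ξ P| * (ht P : ℝ) ^ E)
    (w : ℝ) (hw : w ∈ SSet ξ n) : w ≤ E := by
  by_contra hcon
  push Not at hcon
  have hE0 : (0 : ℝ) ≤ E := Nat.cast_nonneg _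
  set K : ℝ := (((n : ℝ) + 1) ^ 2 * 2 ^ n) with hK
  have hKpos : 0 < K := by rw [hK]; positivity
  have hlim : Filter.Tendsto (fun H : ℕ => (H : ℝ) ^ (w - E)) Filter.atTop Filter.atTop :=
    (tendsto_rpow_atTop (by linarith)).comp tendsto_natCast_atTop_atTop
  obtain ⟨H, hH⟩ := Filter.eventually_atTop.mp (hlim.eventually_gt_atTop (K / c))
  obtain ⟨α, hα, P, hP0, hPr, hPd, ⟨hPpos, hPle⟩, hPH⟩ :=
    exists_ht_gt_alg (n := n) hw (fun P α => 0 < |ξ - α| ∧ |ξ - α| ≤ (ht P : ℝ) ^ (-w - 1))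
      (fun α hα => by
        obtain ⟨P, ⟨h1, h2, h3, h4⟩, h5, h6, h7⟩ := hα
        exact ⟨P, h1.ne_zero, h4, h5, h6, h7⟩) (max H 1)
  have h2 := hH (ht P) (by omega)
  have hhtr : (1 : ℝ) ≤ ht P := by exact_mod_cast ht_pos hP0
  have hhtpos : (0 : ℝ) < ht P := by linarith
  have hξa : |ξ| ≤ 1 := by rw [abs_of_nonneg hξ0]; exact hξ1
  have hdist : |ξ - α| ≤ 1 := by
    refine hPle.trans ?_
    exact Real.rpow_le_one_of_one_le_of_nonpos hhtr (by linarith)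
  have hα2 : |α| ≤ 2 := by
    have : |α| ≤ |ξ| + |ξ - α| := by
      have := abs_sub_abs_le_abs_sub α ξ
      rw [abs_sub_comm α ξ] at this
      linarith
    linarith
  have h1 := h P hP0 hPd
  have h3 : |aeval ξ P| ≤ K * ht P * |ξ - α| := by
    have := abs_aeval_sub_le2 P ξ α hξa hα2 n hPd
    rw [hPr, sub_zero] at this
    exact this
  have h4 : c ≤ (K * ht P * (ht P : ℝ) ^ (-w - 1)) * (ht P : ℝ) ^ E := by
    refine h1.trans ?_
    gcongr
    exact h3.trans (by gcongr)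
  have h5 : (K * ht P * (ht P : ℝ) ^ (-w - 1)) * (ht P : ℝ) ^ E =
      K * ((ht P : ℝ) ^ (w - E))⁻¹ := by
    have e1 : (ht P : ℝ) * (ht P : ℝ) ^ (-w - 1) = (ht P : ℝ) ^ (-w) := by
      have : (ht P : ℝ) * (ht P : ℝ) ^ (-w - 1) =
          (ht P : ℝ) ^ (1 : ℝ) * (ht P : ℝ) ^ (-w - 1) := by rw [Real.rpow_one]
      rw [this, ← Real.rpow_add hhtpos]; congr 1; ring
    rw [mul_assoc K, e1, mul_assoc, ← Real.rpow_natCast (ht P : ℝ) E, ← Real.rpow_add hhtpos,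
      ← Real.rpow_neg hhtpos.le]
    congr 2; ring
  rw [h5] at h4
  have h6 : K * ((ht P : ℝ) ^ (w - E))⁻¹ < c := by
    have hp : 0 < (ht P : ℝ) ^ (w - E) := by positivity
    rw [← div_eq_mul_inv, div_lt_iff₀ hp]
    rw [div_lt_iff₀ hc] at h2
    linarith
  linarith

theorem irreducible_linear_of_coprime (b : ℕ) (a : ℤ) (hb : 1 ≤ b) (hab : IsCoprime a (b : ℤ)) :
    Irreducible (C (b : ℤ) * X - C a : ℤ[X]) ∧ (C (b : ℤ) * X - C a : ℤ[X]).IsPrimitive := by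
  have hb0 : (b : ℤ) ≠ 0 := by exact_mod_cast (by omega : b ≠ 0)
  have hprim : (C (b : ℤ) * X - C a : ℤ[X]).IsPrimitive := by
    intro r hr
    rw [C_dvd_iff_dvd_coeff] at hr
    have h1 := hr 1
    have h0 := hr 0
    have e1 : (C (b : ℤ) * X - C a : ℤ[X]).coeff 1 = b := by
      rw [coeff_sub, coeff_C_mul, coeff_X, coeff_C]; simp
    have e0 : (C (b : ℤ) * X - C a : ℤ[X]).coeff 0 = -a := by
      rw [coeff_sub, coeff_C_mul, coeff_X, coeff_C]; simp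
    rw [e1] at h1
    rw [e0, dvd_neg] at h0
    exact hab.isUnit_of_dvd' h0 h1
  refine ⟨?_, hprim⟩
  rw [hprim.irreducible_iff_irreducible_map_fraction_map (K := ℚ)]
  apply irreducible_of_degree_eq_one
  have : (C (b : ℤ) * X - C a : ℤ[X]).map (algebraMap ℤ ℚ) = C (b : ℚ) * X + C (-(a : ℚ)) := by
    simp [Polynomial.map_mul, sub_eq_add_neg]
  rw [this]
  exact degree_linear (by exact_mod_cast hb0)

theorem minZ_of_frac (N : ℕ) (n : ℤ) (hN : 1 ≤ N) (h0 : 0 ≤ (n : ℝ) / N) (h1 : (n : ℝ) / N ≤ 1) :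
    ∃ P : ℤ[X], IsMinZ P ((n : ℝ) / N) ∧ P.natDegree ≤ 1 ∧ ht P ≤ N := by
  have hNr : (0 : ℝ) < N := by exact_mod_cast hN
  have hNq : (0 : ℚ) < N := by exact_mod_cast hN
  set q : ℚ := (n : ℚ) / N with hq
  have hqr : ((q : ℚ) : ℝ) = (n : ℝ) / N := by rw [hq]; push_cast; ring
  have hden : 1 ≤ q.den := q.pos
  have hdvd : (q.den : ℤ) ∣ N := by
    have h1 := Rat.den_dvd n (N : ℤ)
    have h2 : Rat.divInt n (N : ℤ) = q := by
      rw [hq, Rat.divInt_eq_div]; push_cast; rfl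
    rw [h2] at h1
    exact h1
  have hdenle : q.den ≤ N := by
    have : (q.den : ℤ) ≤ N := Int.le_of_dvd (by exact_mod_cast hN) hdvd
    exact_mod_cast this
  have hnd : ((q.num : ℤ) : ℝ) / (q.den : ℕ) = (n : ℝ) / N := by
    rw [← hqr]
    have := Rat.num_div_den q
    have h2 : ((q.num : ℚ) / (q.den : ℚ) : ℚ) = q := this
    have h3 : (((q.num : ℚ) / (q.den : ℚ) : ℚ) : ℝ) = (q : ℝ) := by rw [h2]
    push_cast at h3
    exact_mod_cast h3
  have hcop : IsCoprime q.num (q.den : ℤ) := by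
    rw [Int.isCoprime_iff_nat_coprime]
    simpa using q.reduced
  obtain ⟨hirr, hprim⟩ := irreducible_linear_of_coprime q.den q.num hden hcop
  have hht := ht_linear q.den q.num hden (by rw [hnd]; exact h0) (by rw [hnd]; exact h1)
  have hdr : (0 : ℝ) < (q.den : ℝ) := by exact_mod_cast hden
  refine ⟨C (q.den : ℤ) * X - C q.num, ⟨hirr, hprim, ?_, ?_⟩, ?_, ?_⟩
  · have hdeg : (C (q.den : ℤ) * X - C q.num : ℤ[X]).leadingCoeff = (q.den : ℤ) := by
      have e : (C (q.den : ℤ) * X - C q.num : ℤ[X]) = C (q.den : ℤ) * X + C (-q.num) := by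
        rw [C_neg, sub_eq_add_neg]
      rw [e]
      exact leadingCoeff_linear (by exact_mod_cast (by omega : q.den ≠ 0))
    rw [hdeg]
    exact_mod_cast hden
  · rw [← hnd]
    have : aeval ((q.num : ℝ) / (q.den : ℝ)) (C (q.den : ℤ) * X - C q.num : ℤ[X]) =
        (q.den : ℝ) * ((q.num : ℝ) / (q.den : ℝ)) - q.num := by
      exact aeval_linear _ _ _
    rw [this]
    field_simp
    ring
  · refine (natDegree_sub_le _ _).trans ?_
    rw [natDegree_C]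
    exact max_le ((natDegree_C_mul_le _ _).trans natDegree_X_le) (Nat.zero_le _)
  · rw [hht]; exact hdenle

theorem SSet_one (ξ : ℝ) (N : ℕ → ℕ) (n : ℕ → ℤ) (hmono : StrictMono N)
    (hN1 : ∀ k, 1 ≤ N k) (hx0 : ∀ k, 0 ≤ (n k : ℝ) / N k) (hx1 : ∀ k, (n k : ℝ) / N k ≤ 1)
    (hpos : ∀ k, 0 < ξ - (n k : ℝ) / N k)
    (hhi : ∀ k, ξ - (n k : ℝ) / N k ≤ 1 / (N k : ℝ) ^ 90) (m : ℕ) (hm : 1 ≤ m) :
    (89 : ℝ) ∈ SSet ξ m := by
  unfold SSet
  intro hfin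
  set S := {α : ℝ | ∃ P : ℤ[X], IsMinZ P α ∧ P.natDegree ≤ m ∧ 0 < |ξ - α| ∧
    |ξ - α| ≤ (ht P : ℝ) ^ (-(89 : ℝ) - 1)} with hS
  have hmem : ∀ k, (n k : ℝ) / N k ∈ S := by
    intro k
    obtain ⟨P, hP, hPd, hPh⟩ := minZ_of_frac (N k) (n k) (hN1 k) (hx0 k) (hx1 k)
    have hNr : (0 : ℝ) < N k := by exact_mod_cast hN1 k
    have hhtr : (1 : ℝ) ≤ ht P := by exact_mod_cast ht_pos hP.1.ne_zero
    refine ⟨P, hP, hPd.trans hm, ?_, ?_⟩
    · rw [abs_of_pos (hpos k)]; exact hpos k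
    · rw [abs_of_pos (hpos k)]
      refine (hhi k).trans ?_
      have e : (ht P : ℝ) ^ (-(89 : ℝ) - 1) = 1 / (ht P : ℝ) ^ 90 := by
        have : (-(89 : ℝ) - 1) = -((90 : ℕ) : ℝ) := by norm_num
        rw [this, Real.rpow_neg (by linarith), Real.rpow_natCast, one_div]
      rw [e]
      apply one_div_le_one_div_of_le (by positivity)
      have : (ht P : ℝ) ≤ N k := by exact_mod_cast hPh
      gcongr
  obtain ⟨α0, hα0, hmin⟩ := Set.exists_min_image S (fun α => |ξ - α|) hfin ⟨_, hmem 0⟩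
  have hα0pos : 0 < |ξ - α0| := by
    obtain ⟨P, _, _, h, _⟩ := hα0
    exact h
  have hlim : Filter.Tendsto (fun H : ℕ => (H : ℝ)) Filter.atTop Filter.atTop :=
    tendsto_natCast_atTop_atTop
  obtain ⟨k, hk⟩ := ((hlim.comp hmono.tendsto_atTop).eventually_gt_atTop (1 / |ξ - α0|)).exists
  simp only [Function.comp_apply] at hk
  have h1 := hmin _ (hmem k)
  rw [abs_of_pos (hpos k)] at h1
  have hNr : (1 : ℝ) ≤ N k := by exact_mod_cast hN1 k
  have h2 : 1 / (N k : ℝ) ^ 90 ≤ 1 / (N k : ℝ) := by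
    apply one_div_le_one_div_of_le (by linarith)
    exact le_self_pow₀ hNr (by norm_num)
  have h3 : 1 / (N k : ℝ) < |ξ - α0| := by
    rw [one_div, inv_lt_comm₀ (by linarith) hα0pos, ← one_div]
    exact hk
  have h4 := hhi k
  linarith

end Pool.Agent.Helper35
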