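import Mathlib
import Pool.Agent.Helper35.TMain

set_option autoImplicit false

namespace Pool.Agent.Helper35

open Polynomial

theorem shf_leadingCoeff (P : ℤ[X]) (D s : ℤ) (hD : D ≠ 0) :
    (shf P D s).leadingCoeff = D ^ P.natDegree * P.leadingCoeff := by
  have hinj : Function.Injective (Int.castRingHom ℚ) := RingHom.injective_int _
  have h1 := congrArg leadingCoeff (shf_map P D s hD)
  rw [leadingCoeff_mul, leadingCoeff_C, leadingCoeff_comp (by simp),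
    leadingCoeff_map_of_injective hinj, leadingCoeff_map_of_injective hinj,
    (monic_X_add_C _).leadingCoeff, one_pow, mul_one] at h1
  simp only [eq_intCast] at h1
  exact_mod_cast h1

theorem ht_SP_lower {d r0 : ℕ} (D : ThetaData d r0) (N : ℕ) (hN : 1 ≤ N) (n : ℤ) :
    N ^ d ≤ ht (SP D.T N n) := by
  have hN0 : (N : ℤ) ≠ 0 := by exact_mod_cast (by omega : N ≠ 0)
  have h1 := natAbs_coeff_le_ht (SP D.T N n) (SP D.T N n).natDegree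
  rw [coeff_natDegree] at h1
  have h2 : (SP D.T N n).leadingCoeff = (N : ℤ) ^ d * D.T.leadingCoeff := by
    rw [SP, shf_leadingCoeff _ _ _ hN0, D.deg]
  rw [h2, Int.natAbs_mul, Int.natAbs_pow, Int.natAbs_natCast] at h1
  have h3 : 1 ≤ D.T.leadingCoeff.natAbs :=
    Int.natAbs_pos.mpr (leadingCoeff_ne_zero.mpr D.irr.ne_zero)
  calc N ^ d = N ^ d * 1 := (mul_one _).symm
    _ ≤ N ^ d * D.T.leadingCoeff.natAbs := Nat.mul_le_mul_left _ h3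
    _ ≤ _ := h1

theorem ht_SP_upper {d r0 : ℕ} (D : ThetaData d r0) (N : ℕ) (hN : 1 ≤ N) (n : ℤ)
    (hα : |D.θ + (n : ℝ) / N| ≤ 1) :
    (ht (SP D.T N n) : ℝ) ≤ (((d : ℝ) + 1) * ht D.T * 3 ^ d) * (N : ℝ) ^ d := by
  have hNr : (1 : ℝ) ≤ N := by exact_mod_cast hN
  have hN0 : (N : ℤ) ≠ 0 := by exact_mod_cast (by omega : N ≠ 0)
  have hn2 : |(n : ℝ)| ≤ 2 * N := by
    have h2 : |(n : ℝ) / N| ≤ 2 := by
      have h3 : |(n : ℝ) / N| ≤ |D.θ + (n : ℝ) / N| + |D.θ| := by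
        have := abs_sub (D.θ + (n : ℝ) / N) D.θ
        rwa [add_sub_cancel_left] at this
      have h4 : |D.θ| ≤ 1 := by rw [abs_of_nonneg D.nonneg]; exact D.le_one
      linarith
    rw [abs_div, abs_of_nonneg (by positivity : (0 : ℝ) ≤ N), div_le_iff₀ (by linarith)] at h2
    exact h2
  apply ht_le_of_real
  · intro h0
    have h1 := shf_leadingCoeff D.T N (-n) hN0
    rw [SP] at h0
    rw [h0, leadingCoeff_zero] at h1
    have h2 : (N : ℤ) ^ D.T.natDegree * D.T.leadingCoeff ≠ 0 :=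
      mul_ne_zero (pow_ne_zero _ hN0) (leadingCoeff_ne_zero.mpr D.irr.ne_zero)
    exact h2 h1.symm
  · intro i
    have := shf_coeff D.T N (-n) i (3 * N) (by
      push_cast
      rw [abs_of_nonneg (by positivity : (0 : ℝ) ≤ N), abs_neg]; linarith)
    rw [D.deg] at this
    refine this.trans (le_of_eq ?_)
    rw [mul_pow]; ring

/-- Lower bound at `ξ` for multiples of the special polynomial. -/
theorem special_lower {d r0 : ℕ} (D : ThetaData d r0) (c Cu η0 : ℝ) (hc : 0 < c)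
    (hloc : ∀ η : ℝ, 0 < η → η ≤ η0 → c * η ≤ |aeval (D.θ + η) D.T| ∧
      |aeval (D.θ + η) D.T| ≤ Cu * η)
    (p A : ℕ) (hp : p.Prime) (hA : 1 ≤ A) (n : ℤ)
    (hn : ¬ (p : ℤ) ∣ n) (hlead : ¬ (p : ℤ) ∣ D.T.leadingCoeff) (V : ℕ) (hd : 1 ≤ d)
    (hN : 1 ≤ c * ((p ^ A : ℕ) : ℝ)) (ξ r : ℝ) (hr : r = 1 / ((p ^ A : ℕ) : ℝ) ^ (d * V))
    (hη : 2 * r ≤ η0)
    (h1 : D.θ + (n : ℝ) / ((p ^ A : ℕ) : ℝ) + r ≤ ξ)
    (h2 : ξ ≤ D.θ + (n : ℝ) / ((p ^ A : ℕ) : ℝ) + 2 * r) (g : ℤ) (hg : g ≠ 0) :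
    1 ≤ |aeval ξ (C g * SP D.T (p ^ A) n)| * (ht (C g * SP D.T (p ^ A) n) : ℝ) ^ V := by
  obtain ⟨_, _, _, hev, _⟩ := SP_props D p A hp hA n hn hlead
  set N : ℕ := p ^ A with hNdef
  have hN1 : 1 ≤ N := Nat.one_le_iff_ne_zero.mpr (pow_ne_zero A hp.ne_zero)
  have hNr : (1 : ℝ) ≤ N := by exact_mod_cast hN1
  have hr0 : 0 < r := by rw [hr]; positivity
  obtain ⟨η, hη1⟩ : ∃ η, η = ξ - (D.θ + (n : ℝ) / (N : ℝ)) := ⟨_, rfl⟩
  have hηr : r ≤ η := by rw [hη1]; linarith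
  have hη2 : η ≤ 2 * r := by rw [hη1]; linarith
  have h3 := (hloc η (by linarith) (by linarith)).1
  have h4 : ξ - (n : ℝ) / (N : ℝ) = D.θ + η := by rw [hη1]; ring
  have h5 : (N : ℝ) ^ d * (c * r) ≤ |aeval ξ (SP D.T N n)| := by
    rw [hev, abs_mul, abs_of_nonneg (by positivity : (0 : ℝ) ≤ (N : ℝ) ^ d), h4]
    have : c * r ≤ c * η := by gcongr
    have h6 := this.trans h3
    gcongr
  have hg1 : (1 : ℝ) ≤ |(g : ℝ)| := by exact_mod_cast Int.one_le_abs hg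
  have hgn : (1 : ℝ) ≤ (g.natAbs : ℝ) := by
    exact_mod_cast Int.natAbs_pos.mpr hg
  have h7 : (N : ℝ) ^ d * (c * r) ≤ |aeval ξ (C g * SP D.T N n)| := by
    rw [map_mul, abs_mul, aeval_C]
    simp only [algebraMap_int_eq, eq_intCast]
    calc (N : ℝ) ^ d * (c * r) = 1 * ((N : ℝ) ^ d * (c * r)) := (one_mul _).symm
      _ ≤ _ := by gcongr
  have h8 : (N : ℝ) ^ d ≤ (ht (C g * SP D.T N n) : ℝ) := by
    rw [ht_intCast_mul]
    push_cast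
    have h9 : ((N : ℝ)) ^ d ≤ ht (SP D.T N n) := by exact_mod_cast ht_SP_lower D N hN1 n
    calc (N : ℝ) ^ d = 1 * (N : ℝ) ^ d := (one_mul _).symm
      _ ≤ _ := by gcongr
  have hN2 : 1 ≤ c * (N : ℝ) ^ d := by
    have : (N : ℝ) ≤ (N : ℝ) ^ d := le_self_pow₀ hNr (by omega)
    calc (1 : ℝ) ≤ c * N := hN
      _ ≤ _ := by gcongr
  calc (1 : ℝ) ≤ c * (N : ℝ) ^ d := hN2
    _ = (N : ℝ) ^ d * (c * r) * ((N : ℝ) ^ d) ^ V := by
        rw [hr, ← pow_mul]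
        field_simp
    _ ≤ _ := by gcongr

/-- Upper bound at `ξ` for the special polynomial. -/
theorem special_upper {d r0 : ℕ} (D : ThetaData d r0) (c Cu η0 : ℝ) (hc : 0 < c)
    (hloc : ∀ η : ℝ, 0 < η → η ≤ η0 → c * η ≤ |aeval (D.θ + η) D.T| ∧
      |aeval (D.θ + η) D.T| ≤ Cu * η)
    (p A : ℕ) (hp : p.Prime) (hA : 1 ≤ A) (n : ℤ)
    (hn : ¬ (p : ℤ) ∣ n) (hlead : ¬ (p : ℤ) ∣ D.T.leadingCoeff) (V : ℕ)
    (ξ r : ℝ) (hr : r = 1 / ((p ^ A : ℕ) : ℝ) ^ (d * V))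
    (hη : 2 * r ≤ η0)
    (h1 : D.θ + (n : ℝ) / ((p ^ A : ℕ) : ℝ) + r ≤ ξ)
    (h2 : ξ ≤ D.θ + (n : ℝ) / ((p ^ A : ℕ) : ℝ) + 2 * r) :
    0 < |aeval ξ (SP D.T (p ^ A) n)| ∧
    |aeval ξ (SP D.T (p ^ A) n)| * ((p ^ A : ℕ) : ℝ) ^ (d * V) ≤
      2 * Cu * ((p ^ A : ℕ) : ℝ) ^ d := by
  obtain ⟨_, _, _, hev, _⟩ := SP_props D p A hp hA n hn hlead
  set N : ℕ := p ^ A with hNdef
  have hN1 : 1 ≤ N := Nat.one_le_iff_ne_zero.mpr (pow_ne_zero A hp.ne_zero)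
  have hNr : (1 : ℝ) ≤ N := by exact_mod_cast hN1
  have hr0 : 0 < r := by rw [hr]; positivity
  obtain ⟨η, hη1⟩ : ∃ η, η = ξ - (D.θ + (n : ℝ) / (N : ℝ)) := ⟨_, rfl⟩
  have hηr : r ≤ η := by rw [hη1]; linarith
  have hη2 : η ≤ 2 * r := by rw [hη1]; linarith
  obtain ⟨h3, h3'⟩ := hloc η (by linarith) (by linarith)
  have h4 : ξ - (n : ℝ) / (N : ℝ) = D.θ + η := by rw [hη1]; ring
  have hηpos : 0 < η := by linarith
  have h6 : |aeval ξ (SP D.T N n)| = (N : ℝ) ^ d * |aeval (D.θ + η) D.T| := by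
    rw [hev, abs_mul, abs_of_nonneg (by positivity : (0 : ℝ) ≤ (N : ℝ) ^ d), h4]
  have hC0 : 0 ≤ Cu := by
    by_contra hcn
    push Not at hcn
    have : Cu * η < 0 := by nlinarith
    have := abs_nonneg (aeval (D.θ + η) D.T)
    linarith
  refine ⟨?_, ?_⟩
  · rw [h6]
    have : 0 < c * η := by positivity
    have : 0 < |aeval (D.θ + η) D.T| := by linarith
    positivity
  · rw [h6]
    have hrN : r * (N : ℝ) ^ (d * V) = 1 := by rw [hr]; field_simp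
    calc (N : ℝ) ^ d * |aeval (D.θ + η) D.T| * (N : ℝ) ^ (d * V)
        ≤ (N : ℝ) ^ d * (Cu * (2 * r)) * (N : ℝ) ^ (d * V) := by
          have : |aeval (D.θ + η) D.T| ≤ Cu * (2 * r) := h3'.trans (by gcongr)
          gcongr
      _ = 2 * Cu * (N : ℝ) ^ d * (r * (N : ℝ) ^ (d * V)) := by ring
      _ = _ := by rw [hrN, mul_one]

end Pool.Agent.Helper35
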