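import Mathlib
import Pool.Agent.Helper35.TFinal

set_option autoImplicit false

namespace Pool.Agent.Helper35

open Polynomial

/-- The output of the construction with degrees `e k + 1`, exponents `V (e k)`. -/
structure SData (e V Mq : ℕ → ℕ) where
  ξ : ℝ
  p : ℕ → ℕ
  n : ℕ → ℤ
  w : ℕ → ℝ
  ξ0 : 0 ≤ ξ
  ξ1 : ξ ≤ 1
  wpos : ∀ k, 0 < w k
  prime : ∀ k, (p k).Prime
  pM : ∀ k, Mq k ≤ p k
  pn : ∀ k, ¬ ((p k : ℕ) : ℤ) ∣ n k
  plead : ∀ k, ¬ ((p k : ℕ) : ℤ) ∣ (TD (e k)).T.leadingCoeff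
  wr : ∀ k, w (k + 1) = 1 / (((p k) ^ EA k : ℕ) : ℝ) ^ ((e k + 1) * V (e k)) / 2
  rw' : ∀ k, 2 * (1 / (((p k) ^ EA k : ℕ) : ℝ) ^ ((e k + 1) * V (e k))) ≤ w k
  lo : ∀ k, (TD (e k)).θ + (n k : ℝ) / (((p k) ^ EA k : ℕ) : ℝ) +
        1 / (((p k) ^ EA k : ℕ) : ℝ) ^ ((e k + 1) * V (e k)) ≤ ξ
  hi : ∀ k, ξ ≤ (TD (e k)).θ + (n k : ℝ) / (((p k) ^ EA k : ℕ) : ℝ) +
        2 * (1 / (((p k) ^ EA k : ℕ) : ℝ) ^ ((e k + 1) * V (e k)))
  good : ∀ k, Good k (w k) (1 / (((p k) ^ EA k : ℕ) : ℝ) ^ ((e k + 1) * V (e k)))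
        ((TD (e k)).θ + (n k : ℝ) / (((p k) ^ EA k : ℕ) : ℝ))
        (SP (TD (e k)).T ((p k) ^ EA k) (n k))

theorem sdata_exists (e V Mq : ℕ → ℕ) (hV : ∀ j, 22 ≤ V j) : Nonempty (SData e V Mq) := by
  obtain ⟨ξ, p, n, w, h1, h2, h3, h4, h5, h6, h7, h8, h9, h10, h11, h12⟩ :=
    constrT (fun k => e k + 1) (fun k => TD (e k)) (fun k => (e k + 1) * V (e k)) Mq
      (fun k => by
        have := hV (e k)
        calc 22 ≤ V (e k) := this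
          _ ≤ (e k + 1) * V (e k) := Nat.le_mul_of_pos_left _ (by omega))
  exact ⟨⟨ξ, p, n, w, h1, h2, h3, h4, h5, h6, h7, h8, h9, h10, h11, h12⟩⟩

namespace SData

variable {e V Mq : ℕ → ℕ} (X : SData e V Mq)

/-- The denominators. -/
def N (k : ℕ) : ℕ := (X.p k) ^ EA k

/-- The radii. -/
noncomputable def r (k : ℕ) : ℝ := 1 / (X.N k : ℝ) ^ ((e k + 1) * V (e k))

/-- The approximants. -/
noncomputable def α (k : ℕ) : ℝ := (TD (e k)).θ + (X.n k : ℝ) / (X.N k : ℝ)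

/-- The special polynomials. -/
noncomputable def S (k : ℕ) : ℤ[X] := SP (TD (e k)).T (X.N k) (X.n k)

theorem EA_pos (k : ℕ) : 1 ≤ EA k := by unfold EA; omega

theorem N_pos (k : ℕ) : 1 ≤ X.N k :=
  Nat.one_le_iff_ne_zero.mpr (pow_ne_zero _ (X.prime k).ne_zero)

theorem N_one_le (k : ℕ) : (1 : ℝ) ≤ X.N k := by exact_mod_cast X.N_pos k

theorem p_le_N (k : ℕ) : X.p k ≤ X.N k :=
  Nat.le_self_pow (by have := EA_pos k; omega) _

theorem M_le_N (k : ℕ) : Mq k ≤ X.N k := (X.pM k).trans (X.p_le_N k)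

theorem r_pos (k : ℕ) : 0 < X.r k := by
  have := X.N_one_le k
  unfold r
  positivity

theorem w_succ (k : ℕ) : X.w (k + 1) = X.r k / 2 := X.wr k

theorem r_le (k : ℕ) : 2 * X.r k ≤ X.w k := X.rw' k

theorem lo' (k : ℕ) : X.α k + X.r k ≤ X.ξ := X.lo k

theorem hi' (k : ℕ) : X.ξ ≤ X.α k + 2 * X.r k := X.hi k

theorem r_succ_lt (k : ℕ) : X.r (k + 1) < X.r k := by
  have h1 := X.r_le (k + 1)
  rw [X.w_succ k] at h1
  have := X.r_pos k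
  linarith

theorem r_strictAnti : StrictAnti X.r := strictAnti_nat_of_succ_lt X.r_succ_lt

theorem S_props (k : ℕ) : IrrQ (X.S k) ∧ (X.S k).IsPrimitive ∧ (X.S k).natDegree = e k + 1 ∧
    (∀ x : ℝ, aeval x (X.S k) = (X.N k : ℝ) ^ (e k + 1) *
      aeval (x - (X.n k : ℝ) / (X.N k : ℝ)) (TD (e k)).T) ∧ aeval (X.α k) (X.S k) = 0 :=
  SP_props (TD (e k)) (X.p k) (EA k) (X.prime k) (EA_pos k) (X.n k) (X.pn k) (X.plead k)

theorem α_abs (hV : ∀ j, 22 ≤ V j) (k : ℕ) : |X.α k| ≤ 1 := by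
  have h1 := X.lo' k
  have h2 := X.hi' k
  have h3 := X.r_pos k
  have h4 : X.r k ≤ 1 / 2 := by
    unfold r
    rw [div_le_div_iff₀ (by have := X.N_one_le k; positivity) (by norm_num)]
    have h5 : (2 : ℝ) ≤ X.p k := by exact_mod_cast (X.prime k).two_le
    have h6 : (X.N k : ℝ) ≤ (X.N k : ℝ) ^ ((e k + 1) * V (e k)) :=
      le_self_pow₀ (X.N_one_le k) (Nat.mul_ne_zero (by omega) (by have := hV (e k); omega))
    have h7 : (X.p k : ℝ) ≤ X.N k := by exact_mod_cast X.p_le_N k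
    linarith
  have := X.ξ0
  have := X.ξ1
  rw [abs_le]
  constructor <;> linarith

theorem ht_S_lower (k : ℕ) : X.N k ^ (e k + 1) ≤ ht (X.S k) :=
  ht_SP_lower (TD (e k)) (X.N k) (X.N_pos k) (X.n k)

/-- The height constant. -/
noncomputable def Ch (j : ℕ) : ℝ := (((j + 1 : ℕ) : ℝ) + 1) * ht (TD j).T * 3 ^ (j + 1)

theorem Ch_one_le (j : ℕ) : 1 ≤ Ch j := by
  unfold Ch
  have hhtT : (1 : ℝ) ≤ ht (TD j).T := by exact_mod_cast ht_pos (TD j).irr.ne_zero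
  have h1 : (1 : ℝ) ≤ 3 ^ (j + 1) := one_le_pow₀ (by norm_num)
  have h2 : (1 : ℝ) ≤ ((j + 1 : ℕ) : ℝ) + 1 := by
    have : (0 : ℝ) ≤ ((j + 1 : ℕ) : ℝ) := by positivity
    linarith
  calc (1 : ℝ) = 1 * 1 * 1 := by norm_num
    _ ≤ _ := by gcongr

theorem ht_S_upper (hV : ∀ j, 22 ≤ V j) (k : ℕ) :
    (ht (X.S k) : ℝ) ≤ Ch (e k) * (X.N k : ℝ) ^ (e k + 1) :=
  ht_SP_upper (TD (e k)) (X.N k) (X.N_pos k) (X.n k) (X.α_abs hV k)

theorem lead_S (k : ℕ) :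
    (X.S k).leadingCoeff = (X.N k : ℤ) ^ (e k + 1) * (TD (e k)).T.leadingCoeff := by
  have hN0 : ((X.N k : ℕ) : ℤ) ≠ 0 := by
    have := X.N_pos k
    exact_mod_cast (by omega : X.N k ≠ 0)
  rw [S, SP, shf_leadingCoeff _ _ _ hN0, (TD (e k)).deg]

theorem S_coeff_zero (k : ℕ) : (X.S k).coeff 0 ≠ 0 := by
  -- modulo p it is lead * (-n)^d
  have hp := X.prime k
  have hpp : Prime ((X.p k : ℕ) : ℤ) := Nat.prime_iff_prime_int.mp hp
  intro h0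
  have e0 : (X.S k).coeff 0 = ∑ j ∈ Finset.range ((TD (e k)).T.natDegree + 1),
      (TD (e k)).T.coeff j * (X.N k : ℤ) ^ ((TD (e k)).T.natDegree - j) * (-(X.n k)) ^ j := by
    rw [S, SP, shf, finsetSum_coeff]
    refine Finset.sum_congr rfl (fun j _ => ?_)
    rw [coeff_C_mul]
    congr 1
    rw [coeff_zero_eq_eval_zero]
    simp
  rw [h0, Finset.sum_range_succ] at e0
  have h1 : ((X.p k : ℕ) : ℤ) ∣ ∑ j ∈ Finset.range (TD (e k)).T.natDegree,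
      (TD (e k)).T.coeff j * (X.N k : ℤ) ^ ((TD (e k)).T.natDegree - j) * (-(X.n k)) ^ j := by
    apply Finset.dvd_sum
    intro j hj
    have hj' := Finset.mem_range.mp hj
    have h2 : ((X.p k : ℕ) : ℤ) ∣ (X.N k : ℤ) := by
      have h3 : X.p k ∣ X.N k := dvd_pow_self _ (by have := EA_pos k; omega)
      exact_mod_cast h3
    have h3 : ((X.p k : ℕ) : ℤ) ∣ (X.N k : ℤ) ^ ((TD (e k)).T.natDegree - j) :=
      h2.trans (dvd_pow_self _ (by omega))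
    exact Dvd.dvd.mul_right (Dvd.dvd.mul_left h3 _) _
  have h3 : ((X.p k : ℕ) : ℤ) ∣ (TD (e k)).T.coeff (TD (e k)).T.natDegree *
      (X.N k : ℤ) ^ ((TD (e k)).T.natDegree - (TD (e k)).T.natDegree) *
      (-(X.n k)) ^ (TD (e k)).T.natDegree := by
    have h4 : ((X.p k : ℕ) : ℤ) ∣ (0 : ℤ) := dvd_zero _
    rw [e0] at h4
    exact (Int.dvd_iff_dvd_of_dvd_add h4).mp h1
  rw [Nat.sub_self, pow_zero, mul_one] at h3
  rcases hpp.dvd_or_dvd h3 with h4 | h4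
  · exact X.plead k h4
  · have := hpp.dvd_of_dvd_pow h4
    rw [dvd_neg] at this
    exact X.pn k this

theorem irr_main' (m K : ℕ) (hmK : m ≤ K) :
    ∃ H0 : ℕ, ∀ P : ℤ[X], IrrQ P → P.natDegree = m → H0 ≤ ht P →
      (∃ (k : ℕ) (g : ℤ), K ≤ k ∧ g ≠ 0 ∧ P = C g * X.S k) ∨
      1 ≤ |aeval X.ξ P| * (ht P : ℝ) ^ (40 * (m + 1)) :=
  irr_main X.ξ1 X.wpos X.r_pos X.w_succ X.r_le X.lo' X.hi' X.good m K hmK

end SData

end Pool.Agent.Helper35
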