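import Mathlib
import Pool.Agent.Helper35.TData
import Pool.Agent.Helper35.Star

set_option autoImplicit false

namespace Pool.Agent.Helper35

open Polynomial

theorem locTD_exists (j : ℕ) : ∃ t : ℝ × ℝ × ℝ, 0 < t.1 ∧ 0 < t.2.1 ∧ 0 < t.2.2 ∧
    ∀ η : ℝ, 0 < η → η ≤ t.2.2 → t.1 * η ≤ |aeval ((TD j).θ + η) (TD j).T| ∧
      |aeval ((TD j).θ + η) (TD j).T| ≤ t.2.1 * η := by
  obtain ⟨c, C, η0, h1, h2, h3, h4⟩ := theta_local (TD j)
  exact ⟨(c, C, η0), h1, h2, h3, h4⟩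

/-- The local constants of the fixed numbers. -/
noncomputable def locTD (j : ℕ) : ℝ × ℝ × ℝ := (locTD_exists j).choose

/-- The lower local constant. -/
noncomputable def cL (j : ℕ) : ℝ := (locTD j).1
/-- The upper local constant. -/
noncomputable def CL (j : ℕ) : ℝ := (locTD j).2.1
/-- The local radius. -/
noncomputable def ηL (j : ℕ) : ℝ := (locTD j).2.2

theorem cL_pos (j : ℕ) : 0 < cL j := (locTD_exists j).choose_spec.1
theorem CL_pos (j : ℕ) : 0 < CL j := (locTD_exists j).choose_spec.2.1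
theorem ηL_pos (j : ℕ) : 0 < ηL j := (locTD_exists j).choose_spec.2.2.1
theorem loc_spec (j : ℕ) : ∀ η : ℝ, 0 < η → η ≤ ηL j →
    cL j * η ≤ |aeval ((TD j).θ + η) (TD j).T| ∧
      |aeval ((TD j).θ + η) (TD j).T| ≤ CL j * η :=
  (locTD_exists j).choose_spec.2.2.2

/-- The demand on the primes. -/
def Demand (e Mq : ℕ → ℕ) : Prop :=
  ∀ k, k + ⌈1 / cL (e k)⌉₊ + ⌈2 / ηL (e k)⌉₊ ≤ Mq k

namespace SData

variable {e V Mq : ℕ → ℕ} (X : SData e V Mq)

theorem k_le_N (hM : Demand e Mq) (k : ℕ) : k ≤ X.N k := by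
  have h1 := hM k
  have h2 := X.M_le_N k
  omega

theorem cN (hM : Demand e Mq) (k : ℕ) : 1 ≤ cL (e k) * (X.N k : ℝ) := by
  have h1 : 1 / cL (e k) ≤ X.N k := (Nat.le_ceil _).trans (by
    exact_mod_cast (by have := hM k; have := X.M_le_N k; omega))
  rw [div_le_iff₀ (cL_pos _)] at h1
  linarith

theorem dV_ne (hV : ∀ j, 22 ≤ V j) (k : ℕ) : (e k + 1) * V (e k) ≠ 0 := by
  have := hV (e k)
  exact Nat.mul_ne_zero (by omega) (by omega)

theorem r_eta (hM : Demand e Mq) (hV : ∀ j, 22 ≤ V j) (k : ℕ) : 2 * X.r k ≤ ηL (e k) := by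
  have h2 : 2 / ηL (e k) ≤ X.N k := (Nat.le_ceil _).trans (by
    exact_mod_cast (by have := hM k; have := X.M_le_N k; omega))
  rw [div_le_iff₀ (ηL_pos _)] at h2
  have h3 : (X.N k : ℝ) ≤ (X.N k : ℝ) ^ ((e k + 1) * V (e k)) :=
    le_self_pow₀ (X.N_one_le k) (dV_ne hV k)
  have h4 := X.N_one_le k
  have h5 := ηL_pos (e k)
  unfold r
  rw [mul_one_div, div_le_iff₀ (by positivity)]
  calc 2 ≤ (X.N k : ℝ) * ηL (e k) := h2
    _ ≤ (X.N k : ℝ) ^ ((e k + 1) * V (e k)) * ηL (e k) := by gcongr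
    _ = _ := mul_comm _ _

theorem spec_lower (hM : Demand e Mq) (hV : ∀ j, 22 ≤ V j) (k : ℕ) (g : ℤ) (hg : g ≠ 0) :
    1 ≤ |aeval X.ξ (C g * X.S k)| * (ht (C g * X.S k) : ℝ) ^ V (e k) :=
  special_lower (TD (e k)) (cL (e k)) (CL (e k)) (ηL (e k)) (cL_pos _) (loc_spec _)
        (X.p k) (EA k) (X.prime k) (EA_pos k) (X.n k) (X.pn k) (X.plead k) (V (e k)) (by omega)
        (X.cN hM k) X.ξ (X.r k) rfl (X.r_eta hM hV k) (X.lo k) (X.hi k) g hg

theorem spec_upper (hM : Demand e Mq) (hV : ∀ j, 22 ≤ V j) (k : ℕ) :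
    0 < |aeval X.ξ (X.S k)| ∧
    |aeval X.ξ (X.S k)| * (X.N k : ℝ) ^ ((e k + 1) * V (e k)) ≤
      2 * CL (e k) * (X.N k : ℝ) ^ (e k + 1) :=
  special_upper (TD (e k)) (cL (e k)) (CL (e k)) (ηL (e k)) (cL_pos _) (loc_spec _)
        (X.p k) (EA k) (X.prime k) (EA_pos k) (X.n k) (X.pn k) (X.plead k) (V (e k))
        X.ξ (X.r k) rfl (X.r_eta hM hV k) (X.lo k) (X.hi k)

/-- General lower bound. -/
theorem bound_all (hM : Demand e Mq) (hV : ∀ j, 22 ≤ V j) (n E : ℕ) (hE1 : 40 * (n + 1) ≤ E)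
    (hE2 : ∀ j, j < n → V j ≤ E) :
    ∃ c : ℝ, 0 < c ∧ ∀ P : ℤ[X], P ≠ 0 → P.natDegree ≤ n →
      c ≤ |aeval X.ξ P| * (ht P : ℝ) ^ E := by
  apply general_bound
  intro m hm hmn
  obtain ⟨H0, hH0⟩ := X.irr_main' m m le_rfl
  refine ⟨H0, fun P hP hPd hH => ?_⟩
  have hHr : (1 : ℝ) ≤ ht P := by exact_mod_cast ht_pos hP.ne_zero
  rcases hH0 P hP hPd hH with ⟨k, g, _, hg, hPg⟩ | h
  · have h1 := X.spec_lower hM hV k g hg
    rw [← hPg] at h1
    have hdeg : P.natDegree = e k + 1 := by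
      rw [hPg, natDegree_C_mul hg]
      exact (X.S_props k).2.2.1
    have h2 : V (e k) ≤ E := hE2 _ (by omega)
    refine h1.trans ?_
    have h3 := pow_le_pow_right₀ hHr h2
    gcongr
  · refine h.trans ?_
    have h3 : (ht P : ℝ) ^ (40 * (m + 1)) ≤ (ht P : ℝ) ^ E :=
      pow_le_pow_right₀ hHr (le_trans (by omega) hE1)
    gcongr

/-- The stages of degree `j + 1` give exponents close to `V j - 1`. -/
theorem mem_WSet (hM : Demand e Mq) (hV : ∀ j, 22 ≤ V j) (j : ℕ)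
    (hj : ∀ K : ℕ, ∃ k, K ≤ k ∧ e k = j) (v : ℝ) (hv : v < (V j : ℝ) - 1) :
    v ∈ WSet X.ξ (j + 1) := by
  classical
  unfold WSet
  set v' : ℝ := max v 0 with hv'
  have hv'0 : 0 ≤ v' := le_max_right _ _
  have hVj := hV j
  have hVr : (22 : ℝ) ≤ V j := by exact_mod_cast hVj
  have hv'1 : v' < V j - 1 := max_lt hv (by linarith)
  have hCh1 := Ch_one_le j
  have hlim : Filter.Tendsto (fun H : ℕ => (H : ℝ) ^ ((V j : ℝ) - 1 - v')) Filter.atTop
      Filter.atTop := (tendsto_rpow_atTop (by linarith)).comp tendsto_natCast_atTop_atTop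
  obtain ⟨H1, hH1⟩ := Filter.eventually_atTop.mp
    (hlim.eventually_ge_atTop (2 * CL j * Ch j ^ v'))
  intro hfin
  set St := {P : ℤ[X] | P ≠ 0 ∧ P.natDegree ≤ j + 1 ∧ 0 < |aeval X.ξ P| ∧
    |aeval X.ξ P| ≤ (ht P : ℝ) ^ (-v)} with hSt
  obtain ⟨B, hB⟩ : ∃ B : ℕ, ∀ P ∈ St, ht P ≤ B := by
    have := hfin.image ht
    obtain ⟨B, hB⟩ := this.bddAbove
    exact ⟨B, fun P hP => hB ⟨P, hP, rfl⟩⟩
  obtain ⟨k, hkK, hek⟩ := hj (H1 + B + 1)
  obtain ⟨_, _, hdegS, _, _⟩ := X.S_props k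
  obtain ⟨hpos1, hpos2⟩ := X.spec_upper hM hV k
  have hup := X.ht_S_upper hV k
  have hlow := X.ht_S_lower k
  have hkN : k ≤ X.N k := X.k_le_N hM k
  have hhtS : B < ht (X.S k) := by
    calc B < k := by omega
      _ ≤ X.N k := hkN
      _ ≤ X.N k ^ (e k + 1) := Nat.le_self_pow (by omega) _
      _ ≤ ht (X.S k) := hlow
  have hSne : X.S k ≠ 0 := by
    intro h0
    rw [h0] at hhtS
    simp [ht] at hhtS
  have hN1 := X.N_one_le k
  have hmem : X.S k ∈ St := by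
    refine ⟨hSne, ?_, hpos1, ?_⟩
    · rw [hdegS, hek]
    · have hhtS1 : (1 : ℝ) ≤ ht (X.S k) := by exact_mod_cast ht_pos hSne
      have h1 : (ht (X.S k) : ℝ) ^ (-v') ≤ (ht (X.S k) : ℝ) ^ (-v) := by
        apply Real.rpow_le_rpow_of_exponent_le hhtS1
        have := le_max_left v 0
        linarith
      refine le_trans ?_ h1
      have hN0 : (0 : ℝ) < X.N k := by linarith
      rw [hek] at hup hpos2
      have h2 : (Ch j * (X.N k : ℝ) ^ (j + 1)) ^ (-v') ≤ (ht (X.S k) : ℝ) ^ (-v') :=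
        Real.rpow_le_rpow_of_nonpos (by linarith) hup (by linarith)
      refine le_trans ?_ h2
      obtain ⟨Z, hZ⟩ : ∃ Z : ℝ, Z = (X.N k : ℝ) ^ (j + 1) := ⟨_, rfl⟩
      have hZ0 : 0 < Z := by rw [hZ]; positivity
      have h3 : (X.N k : ℝ) ^ ((j + 1) * V j) = Z ^ V j := by rw [hZ, pow_mul]
      rw [h3, ← hZ] at hpos2
      rw [← hZ]
      have h4 : |aeval X.ξ (X.S k)| ≤ 2 * CL j * Z / Z ^ V j := by
        rw [le_div_iff₀ (by positivity)]; exact hpos2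
      refine h4.trans ?_
      have h5 : 2 * CL j * Ch j ^ v' ≤ Z ^ ((V j : ℝ) - 1 - v') := by
        have h6 := hH1 (X.N k) (by omega)
        refine h6.trans ?_
        apply Real.rpow_le_rpow hN0.le _ (by linarith)
        rw [hZ]
        exact le_self_pow₀ hN1 (by omega)
      rw [Real.mul_rpow (by linarith) hZ0.le, Real.rpow_neg (by linarith : (0 : ℝ) ≤ Ch j),
        Real.rpow_neg hZ0.le]
      have h7 : Z ^ ((V j : ℝ) - 1 - v') = Z ^ V j / Z / Z ^ v' := by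
        rw [Real.rpow_sub hZ0, Real.rpow_sub hZ0, Real.rpow_one, Real.rpow_natCast]
      rw [h7] at h5
      have hChv : 0 < Ch j ^ v' := by positivity
      have hZv : 0 < Z ^ v' := by positivity
      have hZV : 0 < Z ^ V j := by positivity
      rw [div_le_iff₀ hZV, ← mul_inv, ← one_div, div_mul_eq_mul_div, one_mul,
        le_div_iff₀ (by positivity)]
      rw [le_div_iff₀ hZv, le_div_iff₀ hZ0] at h5
      calc 2 * CL j * Z * (Ch j ^ v' * Z ^ v') = 2 * CL j * Ch j ^ v' * Z ^ v' * Z := by ring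
        _ ≤ Z ^ V j := h5
  have := hB (X.S k) hmem
  omega

theorem ht_neg (P : ℤ[X]) : ht (-P) = ht P := by
  have h := ht_intCast_mul (-1) P
  simpa using h

/-- The stages of degree `j + 1` give Koksma exponents close to `V j - 1`. -/
theorem mem_SSet (hM : Demand e Mq) (hV : ∀ j, 22 ≤ V j) (j : ℕ)
    (hj : ∀ K : ℕ, ∃ k, K ≤ k ∧ e k = j) (v : ℝ) (hv : v < (V j : ℝ) - 1) :
    v ∈ SSet X.ξ (j + 1) := by
  classical
  unfold SSet
  set v' : ℝ := max v 0 with hv'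
  have hv'0 : 0 ≤ v' := le_max_right _ _
  have hVj := hV j
  have hVr : (22 : ℝ) ≤ V j := by exact_mod_cast hVj
  have hv'1 : v' < V j - 1 := max_lt hv (by linarith)
  have hCh1 := Ch_one_le j
  have hlim : Filter.Tendsto (fun H : ℕ => (H : ℝ) ^ ((V j : ℝ) - 1 - v')) Filter.atTop
      Filter.atTop := (tendsto_rpow_atTop (by linarith)).comp tendsto_natCast_atTop_atTop
  obtain ⟨H1, hH1⟩ := Filter.eventually_atTop.mp
    (hlim.eventually_ge_atTop (2 * Ch j ^ (v' + 1)))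
  intro hfin
  set St := {α : ℝ | ∃ P : ℤ[X], IsMinZ P α ∧ P.natDegree ≤ j + 1 ∧ 0 < |X.ξ - α| ∧
    |X.ξ - α| ≤ (ht P : ℝ) ^ (-v - 1)} with hSt
  have hmem : ∀ k, H1 ≤ k → e k = j → X.α k ∈ St := by
    intro k hkK hek
    obtain ⟨hirr, hprim, hdegS, _, hroot⟩ := X.S_props k
    have hup := X.ht_S_upper hV k
    have hkN : k ≤ X.N k := X.k_le_N hM k
    have hSne : X.S k ≠ 0 := hirr.ne_zero
    have hN1 := X.N_one_le k
    have hN0 : (0 : ℝ) < X.N k := by linarith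
    have hlo := X.lo' k
    have hhi := X.hi' k
    have hrp := X.r_pos k
    have hirrZ : Irreducible (X.S k) :=
      (IsPrimitive.Int.irreducible_iff_irreducible_map_cast hprim).mpr hirr
    have hdist : 0 < |X.ξ - X.α k| ∧ |X.ξ - X.α k| ≤ (ht (X.S k) : ℝ) ^ (-v - 1) := by
      rw [abs_of_pos (by linarith)]
      refine ⟨by linarith, ?_⟩
      have hhtS1 : (1 : ℝ) ≤ ht (X.S k) := by exact_mod_cast ht_pos hSne
      have h1 : (ht (X.S k) : ℝ) ^ (-(v' + 1)) ≤ (ht (X.S k) : ℝ) ^ (-v - 1) := by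
        apply Real.rpow_le_rpow_of_exponent_le hhtS1
        have := le_max_left v 0
        linarith
      refine le_trans ?_ h1
      rw [hek] at hup
      have h2 : (Ch j * (X.N k : ℝ) ^ (j + 1)) ^ (-(v' + 1)) ≤
          (ht (X.S k) : ℝ) ^ (-(v' + 1)) :=
        Real.rpow_le_rpow_of_nonpos (by linarith) hup (by linarith)
      refine le_trans ?_ h2
      obtain ⟨Z, hZ⟩ : ∃ Z : ℝ, Z = (X.N k : ℝ) ^ (j + 1) := ⟨_, rfl⟩
      have hZ0 : 0 < Z := by rw [hZ]; positivity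
      have hr : X.r k = 1 / Z ^ V j := by
        unfold r
        rw [hek, hZ, pow_mul]
      have h5 : 2 * Ch j ^ (v' + 1) ≤ Z ^ ((V j : ℝ) - 1 - v') := by
        have h6 := hH1 (X.N k) (by omega)
        refine h6.trans ?_
        apply Real.rpow_le_rpow hN0.le _ (by linarith)
        rw [hZ]
        exact le_self_pow₀ hN1 (by omega)
      rw [← hZ, Real.mul_rpow (by linarith) hZ0.le,
        Real.rpow_neg (by linarith : (0 : ℝ) ≤ Ch j), Real.rpow_neg hZ0.le]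
      have h7 : Z ^ ((V j : ℝ) - 1 - v') = Z ^ V j / Z ^ (v' + 1) := by
        have e1 : (V j : ℝ) - 1 - v' = (V j : ℝ) - (v' + 1) := by ring
        rw [e1, Real.rpow_sub hZ0, Real.rpow_natCast]
      rw [h7] at h5
      have hChv : 0 < Ch j ^ (v' + 1) := by positivity
      have hZv : 0 < Z ^ (v' + 1) := by positivity
      have hZV : 0 < Z ^ V j := by positivity
      have h8 : X.ξ - X.α k ≤ 2 * X.r k := by linarith
      refine h8.trans ?_
      rw [hr, ← mul_inv, ← one_div, mul_one_div, div_le_div_iff₀ hZV (by positivity)]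
      rw [le_div_iff₀ hZv] at h5
      calc 2 * (Ch j ^ (v' + 1) * Z ^ (v' + 1)) = 2 * Ch j ^ (v' + 1) * Z ^ (v' + 1) := by ring
        _ ≤ Z ^ V j := h5
        _ = 1 * Z ^ V j := (one_mul _).symm
    by_cases hl : 0 < (X.S k).leadingCoeff
    · exact ⟨X.S k, ⟨hirrZ, hprim, hl, hroot⟩, by rw [hdegS, hek], hdist⟩
    · have hl2 : (X.S k).leadingCoeff < 0 := by
        have := leadingCoeff_ne_zero.mpr hSne
        omega
      refine ⟨-(X.S k), ⟨(Associated.refl (X.S k)).neg_right.irreducible hirrZ, ?_, ?_, ?_⟩, ?_, ?_⟩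
      · intro r hr
        apply hprim r
        rwa [dvd_neg] at hr
      · rw [leadingCoeff_neg]; omega
      · rw [map_neg, hroot, neg_zero]
      · rw [natDegree_neg, hdegS, hek]
      · rw [ht_neg]; exact hdist
  obtain ⟨k0, hk0, hek0⟩ := hj H1
  obtain ⟨α0, hα0, hmin⟩ := Set.exists_min_image St (fun α => |X.ξ - α|) hfin ⟨_, hmem k0 hk0 hek0⟩
  have hα0pos : 0 < |X.ξ - α0| := by
    obtain ⟨P, _, _, h, _⟩ := hα0
    exact h
  -- a stage with tiny radius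
  obtain ⟨B, hBB⟩ := exists_nat_gt (2 / |X.ξ - α0|)
  obtain ⟨k, hkK, hek⟩ := hj (H1 + B + 1)
  have h1 := hmin _ (hmem k (by omega) hek)
  have h2 := X.lo' k
  have h3 := X.hi' k
  have h4 := X.r_pos k
  rw [abs_of_pos (by linarith : 0 < X.ξ - X.α k)] at h1
  have hkN : (k : ℝ) ≤ X.N k := by exact_mod_cast X.k_le_N hM k
  have hN1 := X.N_one_le k
  have h5 : X.r k ≤ 1 / (X.N k : ℝ) := by
    unfold r
    apply one_div_le_one_div_of_le (by linarith)
    exact le_self_pow₀ hN1 (dV_ne hV k)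
  have h6 : (B : ℝ) ≤ k := by exact_mod_cast (by omega : B ≤ k)
  have h7 : 2 / |X.ξ - α0| < X.N k := by linarith
  rw [div_lt_iff₀ hα0pos] at h7
  have h8 : 2 * (1 / (X.N k : ℝ)) < |X.ξ - α0| := by
    rw [mul_one_div, div_lt_iff₀ (by linarith)]
    linarith
  linarith

end SData

end Pool.Agent.Helper35
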