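import Mathlib
import Pool.Agent.Helper35.NStepT
import Pool.Agent.Helper35.NStepB
import Pool.Agent.Helper35.TDataB

set_option autoImplicit false

namespace Pool.Agent.Helper35

open Polynomial

/-- The threshold exponents: 60 at the even stages, 36 at the odd ones. -/
def tiN (k : ℕ) : ℕ := if Even k then 60 else 36

/-- The shape of an even stage. -/
def TProp (e W M : ℕ → ℕ) (k : ℕ) (r α : ℝ) (S : ℤ[X]) : Prop :=
  ∃ (p : ℕ) (n : ℤ), p.Prime ∧ M k ≤ p ∧ ¬ ((p : ℕ) : ℤ) ∣ n ∧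
    ¬ ((p : ℕ) : ℤ) ∣ (TD (e k)).T.leadingCoeff ∧
    r = 1 / ((p ^ EA k : ℕ) : ℝ) ^ W k ∧
    α = (TD (e k)).θ + (n : ℝ) / ((p ^ EA k : ℕ) : ℝ) ∧
    S = SP (TD (e k)).T (p ^ EA k) n

/-- The shape of an odd stage. -/
def BProp (bb M : ℕ → ℕ) (k : ℕ) (r α : ℝ) (S : ℤ[X]) : Prop :=
  ∃ (J : ℕ) (n : ℤ), M k ≤ J ∧ r = 1 / (((bb k) ^ J : ℕ) : ℝ) ^ 4 ∧
    α = (n : ℝ) / (((bb k) ^ J : ℕ) : ℝ) ∧ S = 1

theorem constrN (e W M bb : ℕ → ℕ) (hW : ∀ k, 34 ≤ W k) (hbb : ∀ k, 2 ≤ bb k) :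
    ∃ (ξ : ℝ) (w r α : ℕ → ℝ) (S : ℕ → ℤ[X]), 0 ≤ ξ ∧ ξ ≤ 1 ∧ (∀ k, 0 < w k) ∧
      (∀ k, 0 < r k) ∧ (∀ k, w (k + 1) = r k / 2) ∧ (∀ k, 2 * r k ≤ w k) ∧
      (∀ k, α k + r k ≤ ξ) ∧ (∀ k, ξ ≤ α k + 2 * r k) ∧
      (∀ k, GoodN (tiN k) (tiN (k + 1)) k (w k) (r k) (α k) (S k)) ∧
      (∀ k, Even k → TProp e W M k (r k) (α k) (S k)) ∧
      (∀ k, ¬ Even k → BProp bb M k (r k) (α k) (S k)) := by
  choose w0T hw0T hstepT using fun k => stepNT (TD (e k)) k
  choose w0B hw0B hstepB using fun k => stepNB k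
  obtain ⟨w0, hw0⟩ : ∃ w0 : ℕ → ℝ, ∀ k, w0 k = min (w0T k) (w0B k) := ⟨_, fun k => rfl⟩
  have hw0pos : ∀ k, 0 < w0 k := fun k => by rw [hw0]; exact lt_min (hw0T k) (hw0B k)
  obtain ⟨f, _, hf⟩ := dep_seq (σ := ℝ × ℝ)
    (fun k s => 0 ≤ s.1 ∧ s.1 + 2 * s.2 ≤ 1 ∧ 0 < s.2 ∧ s.2 ≤ w0 k)
    (fun k s s' => ∃ (r α : ℝ) (S : ℤ[X]), 0 < r ∧ s'.2 = r / 2 ∧ 2 * r ≤ s.2 ∧
      s'.1 = α + r ∧ s.1 ≤ s'.1 ∧ s'.1 + 2 * s'.2 ≤ s.1 + 2 * s.2 ∧
      GoodN (tiN k) (tiN (k + 1)) k s.2 r α S ∧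
      (Even k → TProp e W M k r α S) ∧ (¬ Even k → BProp bb M k r α S))
    (0, min (w0 0) (1 / 2)) (by
      refine ⟨le_rfl, ?_, lt_min (hw0pos 0) (by norm_num), min_le_left _ _⟩
      have := min_le_right (w0 0) (1 / 2)
      simp only
      linarith) (by
      rintro k ⟨a, w⟩ ⟨h1, h2, h3, h4⟩
      simp only at h1 h2 h3 h4
      have hwT : w ≤ w0T k := by rw [hw0] at h4; exact h4.trans (min_le_left _ _)
      have hwB : w ≤ w0B k := by rw [hw0] at h4; exact h4.trans (min_le_right _ _)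
      obtain ⟨B, hB⟩ : ∃ B : ℕ, B = M k + ⌈2 / w⌉₊ + ⌈1 / w0 (k + 1)⌉₊ + 1 := ⟨_, rfl⟩
      -- the two kinds of stage give `r, α, S`
      obtain ⟨r, α, S, hr0, hr1, hr2, hα1, hα2, hgood, hTp, hBp⟩ :
          ∃ (r α : ℝ) (S : ℤ[X]), 0 < r ∧ 2 * r ≤ w ∧ r ≤ w0 (k + 1) ∧ a ≤ α ∧ α ≤ a + w ∧
            GoodN (tiN k) (tiN (k + 1)) k w r α S ∧
            (Even k → TProp e W M k r α S) ∧ (¬ Even k → BProp bb M k r α S) := by
        have key : ∀ (N : ℝ) (v : ℕ), (B : ℝ) ≤ N → 1 ≤ v →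
            0 < 1 / N ^ v ∧ 2 * (1 / N ^ v) ≤ w ∧ 1 / N ^ v ≤ w0 (k + 1) := by
          intro N v hN hv
          have hB1 : (1 : ℝ) ≤ B := by exact_mod_cast (by omega : 1 ≤ B)
          have hN1 : 1 ≤ N := hB1.trans hN
          have hb1 : 2 / w ≤ B := (Nat.le_ceil _).trans (by exact_mod_cast (by omega))
          have hb2 : 1 / w0 (k + 1) ≤ B := (Nat.le_ceil _).trans (by exact_mod_cast (by omega))
          have hNv : N ≤ N ^ v := le_self_pow₀ hN1 (by omega)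
          refine ⟨by positivity, ?_, ?_⟩
          · rw [mul_one_div, div_le_iff₀ (by positivity)]
            rw [div_le_iff₀ h3] at hb1
            calc 2 ≤ (B : ℝ) * w := hb1
              _ ≤ N ^ v * w := by
                  have := hN.trans hNv
                  gcongr
              _ = _ := mul_comm _ _
          · rw [div_le_iff₀ (by positivity)]
            have h5 := hw0pos (k + 1)
            rw [div_le_iff₀ h5] at hb2
            calc 1 ≤ (B : ℝ) * w0 (k + 1) := hb2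
              _ ≤ N ^ v * w0 (k + 1) := by
                  have := hN.trans hNv
                  gcongr
              _ = _ := mul_comm _ _
        by_cases hev : Even k
        · obtain ⟨p, hp, hpM, n, hn, hlead, hα1, hα2, hgood⟩ :=
            hstepT k w h3 hwT a h1 (by linarith) B
          change a ≤ (TD (e k)).θ + (n : ℝ) / ((p ^ EA k : ℕ) : ℝ) at hα1
          change (TD (e k)).θ + (n : ℝ) / ((p ^ EA k : ℕ) : ℝ) ≤ a + w at hα2
          have hpN : p ≤ p ^ EA k := Nat.le_self_pow (by unfold EA; omega) _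
          have hBN : (B : ℝ) ≤ ((p ^ EA k : ℕ) : ℝ) := by exact_mod_cast hpM.trans hpN
          have hWk := hW k
          obtain ⟨g1, g2, g3⟩ := key _ (W k) hBN (by omega)
          have ht1 : tiN k = 60 := by unfold tiN; rw [if_pos hev]
          have ht2 : tiN (k + 1) = 36 := by
            unfold tiN; rw [if_neg]
            rw [Nat.even_add_one]
            exact fun h => h hev
          refine ⟨_, _, SP (TD (e k)).T (p ^ EA k) n, g1, g2, g3, hα1, hα2, ?_, fun _ => ?_,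
            fun h => absurd hev h⟩
          · rw [ht1, ht2]
            apply hgood _ g1
            have hN1 : (1 : ℝ) ≤ ((p ^ EA k : ℕ) : ℝ) := by
              have hB1 : (1 : ℝ) ≤ B := by exact_mod_cast (by omega : 1 ≤ B)
              linarith
            change 1 / ((p ^ EA k : ℕ) : ℝ) ^ W k * ((p ^ EA k : ℕ) : ℝ) ^ 34 ≤ 1
            rw [one_div, inv_mul_le_iff₀ (by positivity), mul_one]
            exact pow_le_pow_right₀ hN1 hWk
          · exact ⟨p, n, hp, by omega, hn, hlead, rfl, rfl, rfl⟩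
        · obtain ⟨J, hJ, n, hα1, hα2, hgood⟩ :=
            hstepB k w h3 hwB a h1 (by linarith) (bb k) (hbb k) B
          have hJN : J ≤ (bb k) ^ J := exists_pow_ge (bb k) (hbb k) J
          have hBN : (B : ℝ) ≤ (((bb k) ^ J : ℕ) : ℝ) := by exact_mod_cast hJ.trans hJN
          obtain ⟨g1, g2, g3⟩ := key _ 4 hBN (by norm_num)
          have ht1 : tiN k = 36 := by unfold tiN; rw [if_neg hev]
          have ht2 : tiN (k + 1) = 60 := by
            unfold tiN; rw [if_pos]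
            rw [Nat.even_add_one]
            exact hev
          refine ⟨_, _, 1, g1, g2, g3, hα1, hα2, ?_, fun h => absurd h hev, fun _ => ?_⟩
          · rw [ht1, ht2]
            exact hgood
          · exact ⟨J, n, by omega, rfl, rfl, rfl⟩
      refine ⟨(α + r, r / 2), ⟨?_, ?_, ?_, ?_⟩, r, α, S, hr0, rfl, hr1, rfl, ?_, ?_, hgood, hTp, hBp⟩
      · simp only; linarith
      · simp only; linarith
      · simp only; linarith
      · simp only; linarith
      · simp only; linarith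
      · simp only; linarith)
  choose r α S hr0 hr1 hr2 hr3 hr4 hr5 hr6 hr7 hr8 using fun k => (hf k).2
  obtain ⟨ξ, hξ⟩ := nested (fun k => (f k).1) (fun k => (f k).2) (fun k => (hf k).1.2.2.1)
    (fun k => hr4 k) (fun k => hr5 k)
  refine ⟨ξ, fun k => (f k).2, r, α, S, ?_, ?_, fun k => (hf k).1.2.2.1, hr0, hr1, hr2,
    fun k => ?_, fun k => ?_, hr6, hr7, hr8⟩
  · exact (hf 0).1.1.trans (hξ 0).1
  · exact (hξ 0).2.trans (hf 0).1.2.1
  · have h1 := (hξ (k + 1)).1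
    rw [hr3 k] at h1
    exact h1
  · have h1 := (hξ (k + 1)).2
    rw [hr3 k, hr1 k] at h1
    linarith

/-- The chain lemma with alternating thresholds. -/
theorem irr_mainN {ξ : ℝ} {w r α : ℕ → ℝ} {S : ℕ → ℤ[X]} (hξ1 : ξ ≤ 1) (hw : ∀ k, 0 < w k)
    (hwr : ∀ k, w (k + 1) = r k / 2) (hrw : ∀ k, 2 * r k ≤ w k)
    (hlo : ∀ k, α k + r k ≤ ξ) (hhi : ∀ k, ξ ≤ α k + 2 * r k)
    (hgood : ∀ k, GoodN (tiN k) (tiN (k + 1)) k (w k) (r k) (α k) (S k)) (m K : ℕ)
    (hmK : m ≤ K) :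
    ∃ H0 : ℕ, ∀ P : ℤ[X], IrrQ P → P.natDegree = m → H0 ≤ ht P →
      (∃ (k : ℕ) (g : ℤ), K ≤ k ∧ g ≠ 0 ∧ P = C g * S k) ∨
      1 ≤ |aeval ξ P| * (ht P : ℝ) ^ (64 * (m + 1)) := by
  refine ⟨⌈1 / w K⌉₊, fun P hP hPd hH => ?_⟩
  obtain ⟨X, hX⟩ : ∃ X : ℕ → ℝ, ∀ k, X k = (ht P : ℝ) ^ (tiN k * (m + 1)) := ⟨_, fun k => rfl⟩
  have hH1 : (1 : ℝ) ≤ ht P := by exact_mod_cast ht_pos hP.ne_zero
  have hti : ∀ k, 36 ≤ tiN k ∧ tiN k ≤ 60 := by
    intro k
    unfold tiN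
    split_ifs <;> omega
  have hHX : ∀ k, (ht P : ℝ) ≤ X k := by
    intro k
    rw [hX]
    refine le_self_pow₀ hH1 ?_
    have := (hti k).1
    exact Nat.mul_ne_zero (by omega) (by omega)
  have hX0 : ∀ k, 0 < X k := fun k => by rw [hX]; positivity
  have hXle : ∀ k, X k ≤ (ht P : ℝ) ^ (60 * (m + 1)) := by
    intro k
    rw [hX]
    exact pow_le_pow_right₀ hH1 (Nat.mul_le_mul_right _ (hti k).2)
  have hdec : ∀ k, w (k + 1) ≤ w k / 4 := by
    intro k
    rw [hwr k]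
    linarith [hrw k]
  have hanti : Antitone w := antitone_nat_of_succ_le (fun k => by
    have h1 := hdec k
    have h2 := hw k
    linarith)
  have hwK : ∀ i, i ≤ K → 1 ≤ w i * X i := by
    intro i hi
    have h1 : 1 / w K ≤ ht P := (Nat.le_ceil _).trans (by exact_mod_cast hH)
    rw [div_le_iff₀ (hw K)] at h1
    calc (1 : ℝ) ≤ ht P * w K := h1
      _ ≤ ht P * w i := by
          have := hanti hi
          gcongr
      _ = w i * ht P := mul_comm _ _
      _ ≤ w i * X i := by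
          have := hw i
          have := hHX i
          gcongr
  have hpow : ∀ k, w k ≤ w 0 / 4 ^ k := by
    intro k
    induction k with
    | zero => simp
    | succ k ih =>
      calc w (k + 1) ≤ w k / 4 := hdec k
        _ ≤ (w 0 / 4 ^ k) / 4 := by gcongr
        _ = _ := by rw [pow_succ]; field_simp
  have hex : ∃ k, w k * X k < 1 := by
    obtain ⟨k, hk⟩ := pow_unbounded_of_one_lt (w 0 * (ht P : ℝ) ^ (60 * (m + 1)))
      (by norm_num : (1 : ℝ) < 4)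
    refine ⟨k, ?_⟩
    have h0 := hw 0
    have h1 := hXle k
    calc w k * X k ≤ (w 0 / 4 ^ k) * (ht P : ℝ) ^ (60 * (m + 1)) := by
          have := hpow k
          have := hX0 k
          gcongr
      _ = (w 0 * (ht P : ℝ) ^ (60 * (m + 1))) / 4 ^ k := by ring
      _ < 1 := by rw [div_lt_one (by positivity)]; exact hk
  obtain ⟨hj1, hj2⟩ : w (Nat.find hex) * X (Nat.find hex) < 1 ∧
      ∀ i < Nat.find hex, ¬ (w i * X i < 1) :=
    ⟨Nat.find_spec hex, fun i hi => Nat.find_min hex hi⟩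
  obtain ⟨j, hj⟩ : ∃ j, j = Nat.find hex := ⟨_, rfl⟩
  rw [← hj] at hj1 hj2
  have hKj : K < j := by
    by_contra hc
    push Not at hc
    have := hwK j hc
    linarith
  obtain ⟨i, hi⟩ : ∃ i, j = i + 1 := ⟨j - 1, by omega⟩
  have h1 := hj2 i (by omega)
  push Not at h1
  rw [hi, hwr i, hX] at hj1
  rw [hX] at h1
  have h2 : r i * (ht P : ℝ) ^ (tiN (i + 1) * (m + 1)) < 2 := by linarith
  rcases hgood i P hP (by omega) (by rw [hPd]; exact h1) (by rw [hPd]; exact h2) with h3 | h3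
  · left
    obtain ⟨g, hg, hPg⟩ := h3
    exact ⟨i, g, by omega, hg, hPg⟩
  · right
    have h4 := h3 ξ (hlo i) (hhi i) hξ1
    rw [hPd] at h4
    exact h4

end Pool.Agent.Helper35
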