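import Mathlib
import Pool.Agent.Helper35.NConstr

set_option autoImplicit false

namespace Pool.Agent.Helper35

open Polynomial

theorem mem_WSet_of (ξ : ℝ) (n V : ℕ) (C1 C2 : ℝ) (hC1 : 0 < C1) (hC2 : 1 ≤ C2) (hV : 2 ≤ V)
    (h : ∀ K : ℕ, ∃ (S : ℤ[X]) (Z : ℝ), S.natDegree ≤ n ∧ K < ht S ∧ (K : ℝ) ≤ Z ∧ 1 ≤ Z ∧
      0 < |aeval ξ S| ∧ |aeval ξ S| * Z ^ V ≤ C1 * Z ∧ (ht S : ℝ) ≤ C2 * Z)
    (v : ℝ) (hv : v < (V : ℝ) - 1) : v ∈ WSet ξ n := by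
  classical
  unfold WSet
  obtain ⟨v', hv'⟩ : ∃ v' : ℝ, v' = max v 0 := ⟨_, rfl⟩
  have hv'0 : 0 ≤ v' := by rw [hv']; exact le_max_right _ _
  have hvv' : v ≤ v' := by rw [hv']; exact le_max_left _ _
  have hVr : (2 : ℝ) ≤ V := by exact_mod_cast hV
  have hv'1 : v' < V - 1 := by rw [hv']; exact max_lt hv (by linarith)
  have hlim : Filter.Tendsto (fun H : ℕ => (H : ℝ) ^ ((V : ℝ) - 1 - v')) Filter.atTop
      Filter.atTop := (tendsto_rpow_atTop (by linarith)).comp tendsto_natCast_atTop_atTop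
  obtain ⟨H1, hH1⟩ := Filter.eventually_atTop.mp
    (hlim.eventually_ge_atTop (C1 * C2 ^ v'))
  intro hfin
  obtain ⟨B, hB⟩ : ∃ B : ℕ, ∀ P ∈ {P : ℤ[X] | P ≠ 0 ∧ P.natDegree ≤ n ∧ 0 < |aeval ξ P| ∧
      |aeval ξ P| ≤ (ht P : ℝ) ^ (-v)}, ht P ≤ B := by
    have := hfin.image ht
    obtain ⟨B, hB⟩ := this.bddAbove
    exact ⟨B, fun P hP => hB ⟨P, hP, rfl⟩⟩
  obtain ⟨S, Z, h1, h2, h3, h4, h5, h6, h7⟩ := h (B + H1)
  have hSne : S ≠ 0 := by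
    intro h0
    rw [h0] at h2
    simp [ht] at h2
  have hmem : S ∈ {P : ℤ[X] | P ≠ 0 ∧ P.natDegree ≤ n ∧ 0 < |aeval ξ P| ∧
      |aeval ξ P| ≤ (ht P : ℝ) ^ (-v)} := by
    refine ⟨hSne, h1, h5, ?_⟩
    have hhtS1 : (1 : ℝ) ≤ ht S := by exact_mod_cast ht_pos hSne
    have g1 : (ht S : ℝ) ^ (-v') ≤ (ht S : ℝ) ^ (-v) := by
      apply Real.rpow_le_rpow_of_exponent_le hhtS1
      linarith
    refine le_trans ?_ g1
    have g2 : (C2 * Z) ^ (-v') ≤ (ht S : ℝ) ^ (-v') :=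
      Real.rpow_le_rpow_of_nonpos (by linarith) h7 (by linarith)
    refine le_trans ?_ g2
    have hZ0 : 0 < Z := by linarith
    have g4 : |aeval ξ S| ≤ C1 * Z / Z ^ V := by
      rw [le_div_iff₀ (by positivity)]; exact h6
    refine g4.trans ?_
    have hH1Z : C1 * C2 ^ v' ≤ Z ^ ((V : ℝ) - 1 - v') := by
      have g6 := hH1 H1 le_rfl
      refine g6.trans ?_
      apply Real.rpow_le_rpow (Nat.cast_nonneg _) _ (by linarith)
      push_cast at h3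
      have : (0 : ℝ) ≤ B := Nat.cast_nonneg _
      linarith
    rw [Real.mul_rpow (by linarith) hZ0.le, Real.rpow_neg (by linarith : (0 : ℝ) ≤ C2),
      Real.rpow_neg hZ0.le]
    have g7 : Z ^ ((V : ℝ) - 1 - v') = Z ^ V / Z / Z ^ v' := by
      rw [Real.rpow_sub hZ0, Real.rpow_sub hZ0, Real.rpow_one, Real.rpow_natCast]
    rw [g7] at hH1Z
    have hChv : 0 < C2 ^ v' := by positivity
    have hZv : 0 < Z ^ v' := by positivity
    have hZV : 0 < Z ^ V := by positivity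
    rw [div_le_iff₀ hZV, ← mul_inv, ← one_div, div_mul_eq_mul_div, one_mul,
      le_div_iff₀ (by positivity)]
    rw [le_div_iff₀ hZv, le_div_iff₀ hZ0] at hH1Z
    calc C1 * Z * (C2 ^ v' * Z ^ v') = C1 * C2 ^ v' * Z ^ v' * Z := by ring
      _ ≤ Z ^ V := hH1Z
  have := hB S hmem
  omega

/-- The general existence theorem with `b`-adic stages. -/
theorem mainN (V : ℕ → ℕ) (hV : ∀ j, 34 ≤ V j) :
    ∃ ξ : ℝ, 0 ≤ ξ ∧ ξ ≤ 1 ∧
      (∀ n E : ℕ, 64 * (n + 1) ≤ E → (∀ j, j < n → V j ≤ E) →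
        ∃ c : ℝ, 0 < c ∧ ∀ P : ℤ[X], P ≠ 0 → P.natDegree ≤ n → c ≤ |aeval ξ P| * (ht P : ℝ) ^ E) ∧
      (∀ (j : ℕ) (v : ℝ), v < (V j : ℝ) - 1 → v ∈ WSet ξ (j + 1)) ∧
      (∀ b : ℕ, 2 ≤ b → ∀ J0 : ℕ, ∃ J : ℕ, J0 ≤ J ∧ ∃ c : ℤ, (c : ℝ) / (b : ℝ) ^ J ≤ ξ ∧
        ξ < (c : ℝ) / (b : ℝ) ^ J + 1 / (b : ℝ) ^ (3 * J)) := by
  classical
  obtain ⟨e, he⟩ : ∃ e : ℕ → ℕ, ∀ k, e k = (Nat.unpair (k / 2)).1 := ⟨_, fun _ => rfl⟩
  obtain ⟨bb, hbbe⟩ : ∃ bb : ℕ → ℕ, ∀ k, bb k = (Nat.unpair (k / 2)).1 + 2 := ⟨_, fun _ => rfl⟩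
  obtain ⟨W, hWe⟩ : ∃ W : ℕ → ℕ, ∀ k, W k = (e k + 1) * V (e k) := ⟨_, fun _ => rfl⟩
  obtain ⟨M, hMe⟩ : ∃ M : ℕ → ℕ, ∀ k, M k = k + ⌈1 / cL (e k)⌉₊ + ⌈2 / ηL (e k)⌉₊ :=
    ⟨_, fun _ => rfl⟩
  have hW : ∀ k, 34 ≤ W k := by
    intro k
    rw [hWe]
    calc 34 ≤ V (e k) := hV _
      _ ≤ (e k + 1) * V (e k) := Nat.le_mul_of_pos_left _ (by omega)
  have hbb : ∀ k, 2 ≤ bb k := fun k => by rw [hbbe]; omega
  obtain ⟨ξ, w, r, α, S, hξ0, hξ1, hw, hr, hwr, hrw, hlo, hhi, hgood, hT, hB⟩ :=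
    constrN e W M bb hW hbb
  -- facts at the even stages
  have hTfacts : ∀ k, Even k → ∃ (p : ℕ) (n : ℤ), p.Prime ∧ k ≤ p ∧
      S k = SP (TD (e k)).T (p ^ EA k) n ∧ (S k).natDegree = e k + 1 ∧
      (∀ g : ℤ, g ≠ 0 → 1 ≤ |aeval ξ (C g * S k)| * (ht (C g * S k) : ℝ) ^ V (e k)) ∧
      0 < |aeval ξ (S k)| ∧
      |aeval ξ (S k)| * (((p ^ EA k : ℕ) : ℝ) ^ (e k + 1)) ^ V (e k) ≤
        2 * CL (e k) * ((p ^ EA k : ℕ) : ℝ) ^ (e k + 1) ∧
      (ht (S k) : ℝ) ≤ SData.Ch (e k) * ((p ^ EA k : ℕ) : ℝ) ^ (e k + 1) ∧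
      (p ^ EA k) ^ (e k + 1) ≤ ht (S k) := by
    intro k hk
    obtain ⟨p, n, hp, hpM, hn, hlead, hr1, hα1, hS1⟩ := hT k hk
    have hEA : 1 ≤ EA k := by unfold EA; omega
    have hN1n : 1 ≤ p ^ EA k := Nat.one_le_iff_ne_zero.mpr (pow_ne_zero _ hp.ne_zero)
    have hN1 : (1 : ℝ) ≤ ((p ^ EA k : ℕ) : ℝ) := by exact_mod_cast hN1n
    have hpN : (p : ℝ) ≤ ((p ^ EA k : ℕ) : ℝ) := by
      have : p ≤ p ^ EA k := Nat.le_self_pow (by omega) _
      exact_mod_cast this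
    have hMk := hMe k
    have hcN : 1 ≤ cL (e k) * ((p ^ EA k : ℕ) : ℝ) := by
      have h1 : 1 / cL (e k) ≤ p := (Nat.le_ceil _).trans (by exact_mod_cast (by omega))
      have h2 := h1.trans hpN
      rw [div_le_iff₀ (cL_pos _)] at h2
      linarith
    have hr1' : r k = 1 / ((p ^ EA k : ℕ) : ℝ) ^ ((e k + 1) * V (e k)) := by rw [hr1, hWe]
    have hWpos : (e k + 1) * V (e k) ≠ 0 := by
      have := hV (e k)
      exact Nat.mul_ne_zero (by omega) (by omega)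
    have hη : 2 * r k ≤ ηL (e k) := by
      have h1 : 2 / ηL (e k) ≤ p := (Nat.le_ceil _).trans (by exact_mod_cast (by omega))
      have h2 := h1.trans hpN
      rw [div_le_iff₀ (ηL_pos _)] at h2
      have h3 : ((p ^ EA k : ℕ) : ℝ) ≤ ((p ^ EA k : ℕ) : ℝ) ^ ((e k + 1) * V (e k)) :=
        le_self_pow₀ hN1 hWpos
      have h5 := ηL_pos (e k)
      rw [hr1', mul_one_div, div_le_iff₀ (by positivity)]
      calc 2 ≤ ((p ^ EA k : ℕ) : ℝ) * ηL (e k) := h2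
        _ ≤ ((p ^ EA k : ℕ) : ℝ) ^ ((e k + 1) * V (e k)) * ηL (e k) := by gcongr
        _ = _ := mul_comm _ _
    have hlo' := hlo k
    have hhi' := hhi k
    rw [hα1] at hlo' hhi'
    obtain ⟨_, _, hdeg, _, _⟩ := SP_props (TD (e k)) p (EA k) hp hEA n hn hlead
    obtain ⟨hpos1, hpos2⟩ := special_upper (TD (e k)) (cL (e k)) (CL (e k)) (ηL (e k)) (cL_pos _)
      (loc_spec _) p (EA k) hp hEA n hn hlead (V (e k)) ξ (r k) hr1' hη hlo' hhi'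
    have hαabs : |(TD (e k)).θ + (n : ℝ) / ((p ^ EA k : ℕ) : ℝ)| ≤ 1 := by
      have h3 := hr k
      have h4 : r k ≤ 1 / 2 := by
        rw [hr1', div_le_div_iff₀ (by positivity) (by norm_num)]
        have h5 : (2 : ℝ) ≤ p := by exact_mod_cast hp.two_le
        have h6 : ((p ^ EA k : ℕ) : ℝ) ≤ ((p ^ EA k : ℕ) : ℝ) ^ ((e k + 1) * V (e k)) :=
          le_self_pow₀ hN1 hWpos
        linarith
      rw [abs_le]
      constructor <;> linarith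
    refine ⟨p, n, hp, by omega, hS1, ?_, ?_, ?_, ?_, ?_, ?_⟩
    · rw [hS1]; exact hdeg
    · intro g hg
      rw [hS1]
      exact special_lower (TD (e k)) (cL (e k)) (CL (e k)) (ηL (e k)) (cL_pos _) (loc_spec _)
        p (EA k) hp hEA n hn hlead (V (e k)) (by omega) hcN ξ (r k) hr1' hη hlo' hhi' g hg
    · rw [hS1]; exact hpos1
    · rw [hS1, ← pow_mul]; exact hpos2
    · rw [hS1]
      exact ht_SP_upper (TD (e k)) (p ^ EA k) hN1n n hαabs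
    · rw [hS1]
      exact ht_SP_lower (TD (e k)) (p ^ EA k) hN1n n
  refine ⟨ξ, hξ0, hξ1, ?_, ?_, ?_⟩
  · intro n' E hE1 hE2
    apply general_bound
    intro m hm hmn
    obtain ⟨H0, hH0⟩ := irr_mainN hξ1 hw hwr hrw hlo hhi hgood m m le_rfl
    refine ⟨H0, fun P hP hPd hH => ?_⟩
    have hHr : (1 : ℝ) ≤ ht P := by exact_mod_cast ht_pos hP.ne_zero
    rcases hH0 P hP hPd hH with ⟨k, g, _, hg, hPg⟩ | h
    · by_cases hk : Even k
      · obtain ⟨p, n, _, _, _, hdeg, hlow, _⟩ := hTfacts k hk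
        have h1 := hlow g hg
        rw [← hPg] at h1
        have hdeg2 : P.natDegree = e k + 1 := by
          rw [hPg, natDegree_C_mul hg, hdeg]
        have h2 : V (e k) ≤ E := hE2 _ (by omega)
        refine h1.trans ?_
        have h3 := pow_le_pow_right₀ hHr h2
        gcongr
      · exfalso
        obtain ⟨J, n, _, _, _, hS1⟩ := hB k hk
        have h1 := hP.natDegree_pos
        rw [hPg, hS1, mul_one, natDegree_C] at h1
        omega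
    · refine h.trans ?_
      have h3 : (ht P : ℝ) ^ (64 * (m + 1)) ≤ (ht P : ℝ) ^ E :=
        pow_le_pow_right₀ hHr (le_trans (by omega) hE1)
      gcongr
  · intro j v hv
    have hVj := hV j
    apply mem_WSet_of ξ (j + 1) (V j) (2 * CL j) (SData.Ch j)
      (by have := CL_pos j; linarith) (SData.Ch_one_le j) (by omega) _ v hv
    intro K
    obtain ⟨k, hk⟩ : ∃ k, k = 2 * Nat.pair j (K + 1) := ⟨_, rfl⟩
    have hek : e k = j := by
      rw [he, hk, Nat.mul_div_cancel_left _ (by norm_num), Nat.unpair_pair]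
    have hKk : K + 1 ≤ k := by
      have := Nat.right_le_pair j (K + 1)
      omega
    obtain ⟨p, n, hp, hkp, _, hdeg, _, hpos1, hpos2, hup, hlow⟩ := hTfacts k (by rw [hk]; simp)
    rw [hek] at hdeg hpos2 hup hlow
    have hN1n : 1 ≤ p ^ EA k := Nat.one_le_iff_ne_zero.mpr (pow_ne_zero _ hp.ne_zero)
    have hN1 : (1 : ℝ) ≤ ((p ^ EA k : ℕ) : ℝ) := by exact_mod_cast hN1n
    have hEA : 1 ≤ EA k := by unfold EA; omega
    have h1 : k ≤ (p ^ EA k) ^ (j + 1) := by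
      calc k ≤ p := hkp
        _ ≤ p ^ EA k := Nat.le_self_pow (by omega) _
        _ ≤ _ := Nat.le_self_pow (by omega) _
    refine ⟨S k, ((p ^ EA k : ℕ) : ℝ) ^ (j + 1), by omega, by omega, ?_, one_le_pow₀ hN1,
      hpos1, hpos2, hup⟩
    have : K ≤ (p ^ EA k) ^ (j + 1) := by omega
    exact_mod_cast this
  · intro b hb J0
    obtain ⟨k, hk⟩ : ∃ k, k = 2 * Nat.pair (b - 2) (J0 + 2) + 1 := ⟨_, rfl⟩
    have hk2 : k / 2 = Nat.pair (b - 2) (J0 + 2) := by omega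
    have hbk : bb k = b := by
      rw [hbbe, hk2, Nat.unpair_pair]
      simp only
      omega
    have hJk : J0 + 2 ≤ k := by
      have := Nat.right_le_pair (b - 2) (J0 + 2)
      omega
    obtain ⟨J, n, hMJ, hr1, hα1, _⟩ := hB k (by
      rw [hk, Nat.not_even_iff_odd]
      exact ⟨_, rfl⟩)
    have hMk := hMe k
    rw [hbk] at hr1 hα1
    refine ⟨J, by omega, n, ?_, ?_⟩
    · have h1 := hlo k
      have h2 := hr k
      rw [hα1] at h1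
      push_cast at h1
      linarith
    · have h1 := hhi k
      rw [hα1, hr1] at h1
      push_cast at h1
      have hbr : (2 : ℝ) ≤ b := by exact_mod_cast hb
      have hbJ : (2 : ℝ) < (b : ℝ) ^ J := by
        calc (2 : ℝ) < 2 ^ 2 := by norm_num
          _ ≤ 2 ^ J := pow_le_pow_right₀ (by norm_num) (by omega)
          _ ≤ (b : ℝ) ^ J := by gcongr
      have h3 : 2 * (1 / ((b : ℝ) ^ J) ^ 4) < 1 / (b : ℝ) ^ (3 * J) := by
        have e1 : (b : ℝ) ^ (3 * J) = ((b : ℝ) ^ J) ^ 3 := by rw [← pow_mul, mul_comm]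
        rw [e1, mul_one_div, div_lt_div_iff₀ (by positivity) (by positivity)]
        calc 2 * ((b : ℝ) ^ J) ^ 3 < (b : ℝ) ^ J * ((b : ℝ) ^ J) ^ 3 := by gcongr
          _ = 1 * ((b : ℝ) ^ J) ^ 4 := by ring
      linarith

end Pool.Agent.Helper35
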