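import Mathlib
import Pool.Agent.Helper35.MobConstr
import Pool.Agent.Helper35.NFinal

set_option autoImplicit false

namespace Pool.Agent.Helper35

open Polynomial

/-- From fractions to linear polynomials. -/
theorem lin_poly (R : ℕ) (_hR : 1 ≤ R) (ξ : ℝ) (hξ0 : 0 ≤ ξ) (hξ1 : ξ ≤ 1)
    (h : ∃ B0 : ℤ, ∀ A B : ℤ, 1 ≤ B → B0 ≤ B →
      1 ≤ |ξ - (A : ℝ) / B| ^ R * (B : ℝ) ^ (2 * R + 1)) :
    ∃ H0 : ℕ, ∀ P : ℤ[X], P.natDegree ≤ 1 → H0 ≤ ht P → P ≠ 0 →
      1 ≤ |aeval ξ P| ^ R * (ht P : ℝ) ^ (R + 1) := by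
  obtain ⟨B0, hB0⟩ := h
  refine ⟨(max B0 0).toNat + 2, fun P hPd hH hP0 => ?_⟩
  have hH1 : (1 : ℝ) ≤ ht P := by exact_mod_cast ht_pos hP0
  obtain ⟨a, ha⟩ : ∃ a : ℤ, a = P.coeff 0 := ⟨_, rfl⟩
  obtain ⟨b, hb⟩ : ∃ b : ℤ, b = P.coeff 1 := ⟨_, rfl⟩
  have hev : aeval ξ P = (a : ℝ) + b * ξ := by
    rw [ha, hb, aeval_eq_sum_range' (n := 2) (by omega)]
    simp [Finset.sum_range_succ]
  have hhb : |(b : ℝ)| ≤ ht P := by
    have h1 := natAbs_coeff_le_ht P 1
    rw [← hb] at h1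
    rw [← Int.cast_abs, Int.abs_eq_natAbs]
    exact_mod_cast h1
  have hone : ∀ x : ℝ, 1 ≤ x → 1 ≤ x ^ R * (ht P : ℝ) ^ (R + 1) := by
    intro x hx
    have h1 := one_le_pow₀ (n := R) hx
    have h2 := one_le_pow₀ (n := R + 1) hH1
    calc (1 : ℝ) = 1 * 1 := (mul_one 1).symm
      _ ≤ _ := mul_le_mul h1 h2 zero_le_one (by positivity)
  by_cases hbB : B0 ≤ |b| ∧ 1 ≤ |b|
  · -- large denominator
    obtain ⟨hb1, hb2⟩ := hbB
    have key : |aeval ξ P| ^ R * |(b : ℝ)| ^ (R + 1) =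
        (|(b : ℝ)| ^ R * |(b : ℝ)| ^ (R + 1)) * |(aeval ξ P / |(b : ℝ)|)| ^ R := by
      have hbpos : (0 : ℝ) < |(b : ℝ)| := by
        rw [← Int.cast_abs]; exact_mod_cast (by omega : 0 < |b|)
      rw [abs_div, abs_abs, div_pow]
      field_simp
    have h1 : 1 ≤ |aeval ξ P| ^ R * |(b : ℝ)| ^ (R + 1) := by
      rcases lt_or_ge b 0 with hneg | hpos
      · have hbabs : |b| = -b := abs_of_neg hneg
        have h2 := hB0 a (-b) (by omega) (by omega)
        have hbr : |(b : ℝ)| = ((-b : ℤ) : ℝ) := by rw [← Int.cast_abs, hbabs]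
        rw [key, hbr]
        have hne : ((-b : ℤ) : ℝ) ≠ 0 := by
          have : (-b) ≠ 0 := by omega
          exact_mod_cast this
        have e1 : aeval ξ P / ((-b : ℤ) : ℝ) = -(ξ - (a : ℝ) / ((-b : ℤ) : ℝ)) := by
          rw [hev]
          field_simp
          push_cast
          ring
        rw [e1, abs_neg]
        refine h2.trans (le_of_eq ?_)
        rw [← pow_add, mul_comm]
        congr 2
        ring
      · have hbabs : |b| = b := abs_of_nonneg hpos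
        have h2 := hB0 (-a) b (by omega) (by omega)
        have hbr : |(b : ℝ)| = (b : ℝ) := by rw [← Int.cast_abs, hbabs]
        rw [key, hbr]
        have hne : (b : ℝ) ≠ 0 := by
          have : b ≠ 0 := by omega
          exact_mod_cast this
        have e1 : aeval ξ P / (b : ℝ) = (ξ - ((-a : ℤ) : ℝ) / (b : ℝ)) := by
          rw [hev]
          field_simp
          push_cast
          ring
        rw [e1]
        refine h2.trans (le_of_eq ?_)
        rw [← pow_add, mul_comm]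
        congr 2
        ring
    refine h1.trans ?_
    gcongr
  · -- small denominator
    apply hone
    have hbs : |b| ≤ max B0 0 := by
      by_contra hcon
      push Not at hcon
      have h1 := lt_of_le_of_lt (le_max_left B0 0) hcon
      have h2 := lt_of_le_of_lt (le_max_right B0 0) hcon
      exact hbB ⟨h1.le, by omega⟩
    have hmax : (((max B0 0).toNat : ℕ) : ℤ) = max B0 0 := Int.toNat_of_nonneg (le_max_right _ _)
    have hab : |b| + 2 ≤ |a| := by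
      have h3 : ht P ≤ max a.natAbs b.natAbs := by
        apply ht_le_of
        intro i
        rcases Nat.lt_or_ge i 2 with hi | hi
        · interval_cases i
          · rw [← ha]; exact le_max_left _ _
          · rw [← hb]; exact le_max_right _ _
        · rw [coeff_eq_zero_of_natDegree_lt (by omega)]
          simp
      have h4 : (max B0 0).toNat + 2 ≤ max a.natAbs b.natAbs := hH.trans h3
      have h5 : (b.natAbs : ℤ) = |b| := Int.natCast_natAbs b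
      have h6 : (a.natAbs : ℤ) = |a| := Int.natCast_natAbs a
      rcases le_max_iff.mp h4 with h7 | h7
      · omega
      · omega
    rw [hev]
    have h1 : |(a : ℝ)| - |(b : ℝ) * ξ| ≤ |(a : ℝ) + b * ξ| := by
      have := abs_sub_abs_le_abs_sub (a : ℝ) (-((b : ℝ) * ξ))
      rw [abs_neg, sub_neg_eq_add] at this
      exact this
    have h2 : |(b : ℝ) * ξ| ≤ |(b : ℝ)| := by
      rw [abs_mul, abs_of_nonneg hξ0]
      calc |(b : ℝ)| * ξ ≤ |(b : ℝ)| * 1 := by gcongr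
        _ = _ := mul_one _
    have h3 : |(b : ℝ)| + 2 ≤ |(a : ℝ)| := by
      rw [← Int.cast_abs, ← Int.cast_abs]
      exact_mod_cast hab
    linarith

/-- The main existence theorem. -/
theorem mainM (R : ℕ) (hR : 1 ≤ R) :
    ∃ ξ : ℝ, 0 ≤ ξ ∧ ξ ≤ 1 ∧
      (∀ n : ℕ, ∃ E : ℕ, ∃ c : ℝ, 0 < c ∧ ∀ P : ℤ[X], P ≠ 0 → P.natDegree ≤ n →
        c ≤ |aeval ξ P| * (ht P : ℝ) ^ E) ∧
      (∀ (j : ℕ) (v : ℝ), v < ((j : ℝ) + 2) ^ 2 + 1 → v ∈ WSet ξ (j + 2)) ∧
      (∃ H0 : ℕ, ∀ P : ℤ[X], P.natDegree ≤ 1 → H0 ≤ ht P → P ≠ 0 →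
        1 ≤ |aeval ξ P| ^ R * (ht P : ℝ) ^ (R + 1)) := by
  classical
  obtain ⟨V, hV⟩ : ∃ V : ℕ → ℕ, ∀ j, V j = (j + 2) ^ 2 + 2 := ⟨_, fun _ => rfl⟩
  obtain ⟨e, he⟩ : ∃ e : ℕ → ℕ, ∀ k, e k = (Nat.unpair k).1 := ⟨_, fun _ => rfl⟩
  obtain ⟨W, hWe⟩ : ∃ W : ℕ → ℕ, ∀ k, W k = (e k + 2) * V (e k) := ⟨_, fun _ => rfl⟩
  choose cL CL ηL hcL hCL hηL hloc using fun j => theta_local (TDR R hR j)
  obtain ⟨M, hMe⟩ : ∃ M : ℕ → ℕ, ∀ k, M k = k + ⌈4 ^ (e k + 2) / cL (e k)⌉₊ +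
      ⌈16 / ηL (e k)⌉₊ + 8 := ⟨_, fun _ => rfl⟩
  have hVe : ∀ j, 6 ≤ V j := by
    intro j
    rw [hV]
    have : 2 ^ 2 ≤ (j + 2) ^ 2 := Nat.pow_le_pow_left (by omega) _
    omega
  have hW : ∀ k, 4 ≤ W k := by
    intro k
    rw [hWe]
    have := hVe (e k)
    calc 4 ≤ V (e k) := by omega
      _ ≤ (e k + 2) * V (e k) := Nat.le_mul_of_pos_left _ (by omega)
  obtain ⟨ξ, w, r, q, n, hξ0, hξ1, hw, hr, hwr, hrw, hlo, hhi, hgood, hlin, hq, hMq, hn0, hnq,
    hrW⟩ := constrM R hR e W M hW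
  -- the special polynomials
  obtain ⟨S, hS⟩ : ∃ S : ℕ → ℤ[X], ∀ k, S k = MS (TDR R hR (e k)).T (e k + 2) (q k) (n k)
      (pp (q k) (n k)) (qq (q k) (n k)) := ⟨_, fun _ => rfl⟩
  have hSfacts : ∀ k, (S k).natDegree = e k + 2 ∧
      (ht (S k) : ℝ) ≤ (((e k : ℝ) + 3) * ht (TDR R hR (e k)).T * 2 ^ (e k + 2)) *
        (q k : ℝ) ^ (e k + 2) ∧
      |aeval ξ (S k)| ≤ 4 * CL (e k) * r k ∧
      1 ≤ |aeval ξ (S k)| * (q k : ℝ) ^ (W k + (e k + 2) + 1) := by
    intro k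
    have hadm := adm_of (q k) (hq k) (n k) (hn0 k) (hnq k)
    have hMk := hMe k
    have hqM := hMq k
    have hq1 : (1 : ℝ) ≤ q k := by exact_mod_cast (hq k).one_lt.le
    have hq8 : (8 : ℝ) ≤ q k := by exact_mod_cast (by omega : 8 ≤ q k)
    have hr4 : r k * (q k : ℝ) ^ 4 ≤ 1 := by
      rw [hrW, one_div, inv_mul_le_iff₀ (by positivity), mul_one]
      exact pow_le_pow_right₀ hq1 (hW k)
    have hrpos := hr k
    have hr2q : r k * (q k : ℝ) ^ 3 ≤ 1 := by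
      refine le_trans ?_ hr4
      have : (q k : ℝ) ^ 3 ≤ (q k : ℝ) ^ 4 := pow_le_pow_right₀ hq1 (by norm_num)
      gcongr
    have h8 : 8 * (q k : ℝ) ^ 2 * r k ≤ 1 := by
      calc 8 * (q k : ℝ) ^ 2 * r k ≤ (q k : ℝ) * (q k : ℝ) ^ 2 * r k := by gcongr
        _ = r k * (q k : ℝ) ^ 3 := by ring
        _ ≤ 1 := hr2q
    have h16 : 16 * (q k : ℝ) ^ 2 * r k ≤ ηL (e k) := by
      have h1 : 16 / ηL (e k) ≤ q k := (Nat.le_ceil _).trans (by exact_mod_cast (by omega))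
      rw [div_le_iff₀ (hηL _)] at h1
      have h2 := hηL (e k)
      calc 16 * (q k : ℝ) ^ 2 * r k ≤ ((q k : ℝ) * ηL (e k)) * (q k : ℝ) ^ 2 * r k := by gcongr
        _ = ηL (e k) * (r k * (q k : ℝ) ^ 3) := by ring
        _ ≤ ηL (e k) * 1 := by gcongr
        _ = _ := mul_one _
    obtain ⟨g1, g2⟩ := mob_local (TDR R hR (e k)) (by omega) (cL (e k)) (CL (e k)) (ηL (e k))
      (hcL _) (hCL _) (hloc _) (q k) (n k) (pp (q k) (n k)) (qq (q k) (n k)) hadm (r k) ξ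
      (hr k) h8 h16 (hlo k) (hhi k)
    obtain ⟨_, _, hdeg, _, _, hht⟩ := MS_props (TDR R hR (e k)) (by omega) (q k) (n k)
      (pp (q k) (n k)) (qq (q k) (n k)) hadm
    rw [← hS] at g1 g2 hdeg hht
    refine ⟨hdeg, ?_, g1, ?_⟩
    · refine hht.trans (le_of_eq ?_)
      push_cast
      ring
    · have h1 : 4 ^ (e k + 2) / cL (e k) ≤ q k := by
        have h0 : ⌈4 ^ (e k + 2) / cL (e k)⌉₊ ≤ q k := by omega
        exact (Nat.le_ceil _).trans (Nat.cast_le.mpr h0)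
      rw [div_le_iff₀ (hcL _)] at h1
      have hrq : r k * (q k : ℝ) ^ W k = 1 := by
        rw [hrW]; field_simp
      obtain ⟨x, hx⟩ : ∃ x : ℝ, x = |aeval ξ (S k)| := ⟨_, rfl⟩
      rw [← hx] at g2 ⊢
      have hx0 : 0 ≤ x := by rw [hx]; exact abs_nonneg _
      have h2 : (4 : ℝ) ^ (e k + 2) ≤ 4 ^ (e k + 2) * (x * (q k : ℝ) ^ (W k + (e k + 2) + 1)) := by
        calc (4 : ℝ) ^ (e k + 2) ≤ (q k : ℝ) * cL (e k) := h1
          _ = (q k : ℝ) * (cL (e k) * r k) * (q k : ℝ) ^ W k := by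
              rw [mul_assoc, mul_assoc, hrq, mul_one]
          _ ≤ (q k : ℝ) * (x * (4 * (q k : ℝ)) ^ (e k + 2)) * (q k : ℝ) ^ W k := by gcongr
          _ = _ := by rw [mul_pow, pow_succ, pow_add]; ring
      have h4 : (0 : ℝ) < 4 ^ (e k + 2) := by positivity
      by_contra hcon
      push Not at hcon
      have : (4 : ℝ) ^ (e k + 2) * (x * (q k : ℝ) ^ (W k + (e k + 2) + 1)) < 4 ^ (e k + 2) * 1 := by
        gcongr
      linarith
  have hlinp := lin_poly R hR ξ hξ0 hξ1 (lin_chain R hR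
    (α := fun k => fα (TDR R hR (e k)).θ (q k) (n k)) hw hwr hrw hlo hhi hlin)
  -- the general bound
  have hbound : ∀ n : ℕ, ∃ E : ℕ, ∃ c : ℝ, 0 < c ∧ ∀ P : ℤ[X], P ≠ 0 → P.natDegree ≤ n →
        c ≤ |aeval ξ P| * (ht P : ℝ) ^ E := by
    intro N
    obtain ⟨E, hE⟩ : ∃ E : ℕ, E = EE N + 2 +
        ∑ m ∈ Finset.range (N + 1), 2 * (m + 1) * (m * V (m - 2) + m + 1) := ⟨_, rfl⟩
    refine ⟨E, ?_⟩
    apply general_bound
    intro m hm hmN
    rcases Nat.lt_or_ge m 2 with h2 | h2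
    · have hm1 : m = 1 := by omega
      obtain ⟨H0, hH0⟩ := hlinp
      refine ⟨H0, fun P hP hPd hH => ?_⟩
      have h1 := hH0 P (by omega) hH hP.ne_zero
      have hHr : (1 : ℝ) ≤ ht P := by exact_mod_cast ht_pos hP.ne_zero
      have h3 : 1 ≤ |aeval ξ P| * (ht P : ℝ) ^ 2 := by
        by_contra hcon
        push Not at hcon
        have h4 : (|aeval ξ P| * (ht P : ℝ) ^ 2) ^ R < 1 :=
          pow_lt_one₀ (by positivity) hcon (by omega)
        have h5 : |aeval ξ P| ^ R * (ht P : ℝ) ^ (R + 1) ≤ (|aeval ξ P| * (ht P : ℝ) ^ 2) ^ R := by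
          rw [mul_pow, ← pow_mul]
          have : (ht P : ℝ) ^ (R + 1) ≤ (ht P : ℝ) ^ (2 * R) := pow_le_pow_right₀ hHr (by omega)
          gcongr
        linarith
      refine h3.trans ?_
      have : (ht P : ℝ) ^ 2 ≤ (ht P : ℝ) ^ E := pow_le_pow_right₀ hHr (by omega)
      gcongr
    · obtain ⟨H0, hH0⟩ := irr_mainM (q := q) (S := S)
        (α := fun k => fα (TDR R hR (e k)).θ (q k) (n k)) hξ1 hw hwr hrw hlo hhi
        (fun k => by rw [hS]; exact hgood k) m m h2 le_rfl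
      refine ⟨H0, fun P hP hPd hH => ?_⟩
      have hHr : (1 : ℝ) ≤ ht P := by exact_mod_cast ht_pos hP.ne_zero
      rcases hH0 P hP hPd hH with ⟨k, g, _, hg, hPg, hqP⟩ | h
      · obtain ⟨hdeg, _, _, hlow⟩ := hSfacts k
        have hdeg2 : m = e k + 2 := by
          rw [← hPd, hPg, natDegree_C_mul hg, hdeg]
        have hg1 : (1 : ℝ) ≤ |(g : ℝ)| := by exact_mod_cast Int.one_le_abs hg
        have h5 : |aeval ξ (S k)| ≤ |aeval ξ P| := by
          rw [hPg, map_mul, abs_mul, aeval_C]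
          simp only [algebraMap_int_eq, eq_intCast]
          calc |aeval ξ (S k)| = 1 * |aeval ξ (S k)| := (one_mul _).symm
            _ ≤ _ := by gcongr
        have h6 : (q k : ℝ) ^ (W k + (e k + 2) + 1) ≤ (ht P : ℝ) ^ E := by
          have h7 : (q k : ℝ) ≤ (ht P : ℝ) ^ (2 * (m + 1)) := by exact_mod_cast hqP.le
          calc (q k : ℝ) ^ (W k + (e k + 2) + 1)
              ≤ ((ht P : ℝ) ^ (2 * (m + 1))) ^ (W k + (e k + 2) + 1) := by gcongr
            _ = (ht P : ℝ) ^ (2 * (m + 1) * (m * V (m - 2) + m + 1)) := by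
                rw [← pow_mul, hWe, hdeg2]
                simp
            _ ≤ (ht P : ℝ) ^ E := by
                apply pow_le_pow_right₀ hHr
                rw [hE]
                have := Finset.single_le_sum (f := fun m => 2 * (m + 1) * (m * V (m - 2) + m + 1))
                  (fun _ _ => Nat.zero_le _) (Finset.mem_range.mpr (by omega : m < N + 1))
                omega
        calc (1 : ℝ) ≤ |aeval ξ (S k)| * (q k : ℝ) ^ (W k + (e k + 2) + 1) := hlow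
          _ ≤ _ := by gcongr
      · refine h.trans ?_
        have h3 : (ht P : ℝ) ^ (EE m) ≤ (ht P : ℝ) ^ E :=
          pow_le_pow_right₀ hHr (by
            have := EE_mono hmN
            omega)
        gcongr
  refine ⟨ξ, hξ0, hξ1, hbound, ?_, hlinp⟩
  intro j v hv
  obtain ⟨E, c, hc, hcE⟩ := hbound (j + 2)
  have hVj := hV j
  apply mem_WSet_of ξ (j + 2) (V j) (4 * CL j)
    (max 1 (((j : ℝ) + 3) * ht (TDR R hR j).T * 2 ^ (j + 2)))
    (by have := hCL j; linarith) (le_max_left _ _) (by have := hVe j; omega) _ v (by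
      rw [hVj]; push_cast; linarith)
  intro K
  -- choose a stage with large index
  obtain ⟨L, hL⟩ : ∃ L : ℕ, L = ⌈4 * CL j * ((K : ℝ) + 1) ^ E / c⌉₊ + K + 1 := ⟨_, rfl⟩
  obtain ⟨k, hk⟩ : ∃ k, k = Nat.pair j L := ⟨_, rfl⟩
  have hek : e k = j := by
    rw [he, hk, Nat.unpair_pair]
  have hLk : L ≤ k := by
    have := Nat.right_le_pair j L
    omega
  obtain ⟨hdeg, hup, hsm, hlow⟩ := hSfacts k
  rw [hek] at hdeg hup hsm hlow
  have hMk := hMe k
  have hqM := hMq k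
  have hq1 : (1 : ℝ) ≤ q k := by exact_mod_cast (hq k).one_lt.le
  have hLq : (L : ℝ) ≤ q k := by exact_mod_cast (by omega : L ≤ q k)
  have hpos : 0 < |aeval ξ (S k)| := by
    by_contra hcon
    have h0 : |aeval ξ (S k)| = 0 := le_antisymm (not_lt.mp hcon) (abs_nonneg _)
    rw [h0, zero_mul] at hlow
    linarith
  have hSne : S k ≠ 0 := by
    intro h0
    rw [h0] at hpos
    simp at hpos
  have hrk : r k ≤ 1 / (q k : ℝ) := by
    rw [hrW]
    have h1 : (q k : ℝ) ≤ (q k : ℝ) ^ W k := le_self_pow₀ hq1 (by have := hW k; omega)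
    gcongr
  have hqK : (q k : ℝ) ≤ (q k : ℝ) ^ (j + 2) := le_self_pow₀ hq1 (by omega)
  refine ⟨S k, (q k : ℝ) ^ (j + 2), by omega, ?_, ?_, one_le_pow₀ hq1, hpos, ?_, ?_⟩
  · -- the height is large
    by_contra hcon
    push Not at hcon
    have h1 := hcE (S k) hSne (by omega)
    have h2 : (ht (S k) : ℝ) ≤ K + 1 := by
      have : (ht (S k) : ℝ) ≤ K := by exact_mod_cast hcon
      linarith
    have h3 : 4 * CL j * ((K : ℝ) + 1) ^ E / c ≤ L - 1 := by
      have h4 := Nat.le_ceil (4 * CL j * ((K : ℝ) + 1) ^ E / c)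
      have h5 : ((⌈4 * CL j * ((K : ℝ) + 1) ^ E / c⌉₊ + K + 1 : ℕ) : ℝ) = L := by rw [hL]
      push_cast at h5
      have h6 : (0 : ℝ) ≤ K := Nat.cast_nonneg _
      linarith
    have hCLj := hCL j
    have hrpos := hr k
    have h7 : c ≤ 4 * CL j * (1 / (q k : ℝ)) * ((K : ℝ) + 1) ^ E := by
      calc c ≤ |aeval ξ (S k)| * (ht (S k) : ℝ) ^ E := h1
        _ ≤ (4 * CL j * r k) * ((K : ℝ) + 1) ^ E := by gcongr
        _ ≤ (4 * CL j * (1 / (q k : ℝ))) * ((K : ℝ) + 1) ^ E := by gcongr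
    have h8 : c * q k ≤ 4 * CL j * ((K : ℝ) + 1) ^ E := by
      have hq0 : (0 : ℝ) < q k := by linarith
      calc c * q k ≤ (4 * CL j * (1 / (q k : ℝ)) * ((K : ℝ) + 1) ^ E) * q k := by gcongr
        _ = _ := by field_simp
    rw [div_le_iff₀ hc] at h3
    have h9 : c * (L : ℝ) ≤ c * q k := by gcongr
    linarith
  · have h1 : (K : ℝ) ≤ L := by exact_mod_cast (by omega : K ≤ L)
    linarith
  · have hrq : r k * ((q k : ℝ) ^ (j + 2)) ^ V j = 1 := by
      rw [hrW, hWe, hek, ← pow_mul]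
      field_simp
    have hCLj := hCL j
    calc |aeval ξ (S k)| * ((q k : ℝ) ^ (j + 2)) ^ V j
        ≤ (4 * CL j * r k) * ((q k : ℝ) ^ (j + 2)) ^ V j := by gcongr
      _ = 4 * CL j * (r k * ((q k : ℝ) ^ (j + 2)) ^ V j) := by ring
      _ = 4 * CL j * 1 := by rw [hrq]
      _ ≤ 4 * CL j * (q k : ℝ) ^ (j + 2) := by
          have := one_le_pow₀ (n := j + 2) hq1
          gcongr
  · refine hup.trans ?_
    have := le_max_right 1 (((j : ℝ) + 3) * ht (TDR R hR j).T * 2 ^ (j + 2))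
    gcongr

end Pool.Agent.Helper35
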