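import Mathlib
import Pool.Agent.Helper35.TDataB

set_option autoImplicit false

namespace Pool.Agent.Helper35

open Polynomial

/-- The general bound for polynomials all of whose factors satisfy a hereditary predicate. -/
theorem general_bound_pred (ξ : ℝ) (n E : ℕ) (G : ℤ[X] → Prop)
    (hG : ∀ a b : ℤ[X], G (a * b) → G a ∧ G b)
    (hne : ∀ P : ℤ[X], P ≠ 0 → aeval ξ P ≠ 0)
    (h : ∀ m, 1 ≤ m → m ≤ n → ∃ H0 : ℕ, ∀ P : ℤ[X], G P → IrrQ P → P.natDegree = m →
      H0 ≤ ht P → 1 ≤ |aeval ξ P| * (ht P : ℝ) ^ E) :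
    ∃ c : ℝ, 0 < c ∧ ∀ P : ℤ[X], G P → P ≠ 0 → P.natDegree ≤ n →
      c ≤ |aeval ξ P| * (ht P : ℝ) ^ E := by
  classical
  choose! H0 hH0 using h
  set Hmax : ℕ := ∑ m ∈ Finset.range (n + 1), H0 m with hHmax
  have hHle : ∀ m, m ≤ n → H0 m ≤ Hmax := fun m hm =>
    Finset.single_le_sum (f := H0) (fun _ _ => Nat.zero_le _) (Finset.mem_range.mpr (by omega))
  set S : Finset ℤ[X] := (boxF n Hmax).filter (fun P => aeval ξ P ≠ 0) with hS
  obtain ⟨κ, hκ0, hκ⟩ : ∃ κ : ℝ, 0 < κ ∧ ∀ P ∈ S, κ ≤ |aeval ξ P| := by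
    by_cases hSe : S.Nonempty
    · obtain ⟨P0, hP0, hmin⟩ := S.exists_min_image (fun P => |aeval ξ P|) hSe
      refine ⟨|aeval ξ P0|, ?_, hmin⟩
      rw [hS, Finset.mem_filter] at hP0
      exact abs_pos.mpr hP0.2
    · exact ⟨1, one_pos, fun P hP => absurd ⟨P, hP⟩ hSe⟩
  set c1 : ℝ := 1 / (2 ^ n) ^ E with hc1
  have hc1pos : 0 < c1 := by positivity
  set c : ℝ := min (min c1 κ) 1 with hc
  have hcpos : 0 < c := lt_min (lt_min hc1pos hκ0) one_pos
  have hc_1 : c ≤ 1 := min_le_right _ _
  have hcc1 : c ≤ c1 := (min_le_left _ _).trans (min_le_left _ _)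
  have hcκ : c ≤ κ := (min_le_left _ _).trans (min_le_right _ _)
  have hirr : ∀ q : ℤ[X], G q → IrrQ q → q.natDegree ≤ n → c ≤ |aeval ξ q| * mm q ^ E := by
    intro q hGq hq hqn
    have hmq : 1 ≤ mm q := one_le_mm hq.ne_zero
    by_cases hbig : H0 q.natDegree ≤ ht q
    · have h1 := hH0 q.natDegree hq.natDegree_pos hqn q hGq hq rfl hbig
      have h2 : (ht q : ℝ) ≤ 2 ^ n * mm q := by
        refine (ht_le_mm q).trans ?_
        gcongr
        norm_num
      have h3 : (1 : ℝ) ≤ |aeval ξ q| * ((2 ^ n) ^ E * mm q ^ E) := by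
        calc (1 : ℝ) ≤ |aeval ξ q| * (ht q : ℝ) ^ E := h1
          _ ≤ |aeval ξ q| * (2 ^ n * mm q) ^ E := by gcongr
          _ = _ := by rw [mul_pow]
      refine hcc1.trans ?_
      rw [hc1, div_le_iff₀ (by positivity)]
      linarith
    · push Not at hbig
      have h1 : q ∈ S := by
        rw [hS, Finset.mem_filter]
        refine ⟨mem_boxF hqn ?_, hne q hq.ne_zero⟩
        exact hbig.le.trans (hHle _ hqn)
      calc c ≤ κ := hcκ
        _ ≤ |aeval ξ q| := hκ q h1
        _ = |aeval ξ q| * 1 := (mul_one _).symm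
        _ ≤ |aeval ξ q| * mm q ^ E := by
            gcongr
            exact one_le_pow₀ hmq
  have hall : ∀ P : ℤ[X], G P → P ≠ 0 → P.natDegree ≤ n →
      c ^ P.natDegree ≤ |aeval ξ P| * mm P ^ E := by
    intro P
    induction P using WfDvdMonoid.induction_on_irreducible with
    | zero => intro _ h0; exact absurd rfl h0
    | unit u hu =>
      intro _ _ _
      obtain ⟨r, hr, rfl⟩ := Polynomial.isUnit_iff.mp hu
      rw [natDegree_C, pow_zero]
      have h1 : 1 ≤ mm (C r) := one_le_mm (by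
        intro h0
        exact hr.ne_zero (by simpa using h0))
      have h2 : |aeval ξ (C r : ℤ[X])| = 1 := by
        rcases Int.isUnit_iff.mp hr with h | h <;> simp [h]
      rw [h2, one_mul]
      exact one_le_pow₀ h1
    | mul a q ha hq ih =>
      intro hGP hne0 hdeg
      have hq0 : q ≠ 0 := hq.ne_zero
      have hdeg2 : (q * a).natDegree = q.natDegree + a.natDegree := natDegree_mul hq0 ha
      rw [hdeg2] at hdeg ⊢
      obtain ⟨hGq, hGa⟩ := hG q a hGP
      have iha := ih hGa ha (by omega)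
      rw [map_mul, abs_mul, mm_mul, mul_pow, pow_add]
      have hmq : 1 ≤ mm q := one_le_mm hq0
      have hma : 1 ≤ mm a := one_le_mm ha
      have hfac : c ^ q.natDegree ≤ |aeval ξ q| * mm q ^ E := by
        by_cases hq1 : q.natDegree = 0
        · rw [hq1, pow_zero]
          obtain ⟨r, rfl⟩ : ∃ r, q = C r := ⟨_, eq_C_of_natDegree_eq_zero hq1⟩
          have hr0 : r ≠ 0 := by rintro rfl; simp at hq0
          have h2 : 1 ≤ |aeval ξ (C r : ℤ[X])| := by
            rw [aeval_C]
            simp only [algebraMap_int_eq, eq_intCast]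
            exact_mod_cast Int.one_le_abs hr0
          calc (1 : ℝ) = 1 * 1 := (one_mul 1).symm
            _ ≤ _ := mul_le_mul h2 (one_le_pow₀ hmq) zero_le_one (abs_nonneg _)
        · have hprim : q.IsPrimitive := hq.isPrimitive hq1
          have hirrq : IrrQ q :=
            (IsPrimitive.Int.irreducible_iff_irreducible_map_cast hprim).mp hq
          have h1 := hirr q hGq hirrq (by omega)
          calc c ^ q.natDegree ≤ c ^ 1 :=
                pow_le_pow_of_le_one hcpos.le hc_1 (by omega)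
            _ = c := pow_one c
            _ ≤ _ := h1
      calc c ^ q.natDegree * c ^ a.natDegree ≤
            (|aeval ξ q| * mm q ^ E) * (|aeval ξ a| * mm a ^ E) :=
            mul_le_mul hfac iha (by positivity) (by positivity)
        _ = _ := by ring
  refine ⟨c ^ n / (((n : ℝ) + 1) ^ E), by positivity, ?_⟩
  intro P hGP hP hPn
  have h1 := hall P hGP hP hPn
  have h2 : c ^ n ≤ c ^ P.natDegree := pow_le_pow_of_le_one hcpos.le hc_1 hPn
  have h3 : mm P ≤ ((n : ℝ) + 1) * ht P := by
    refine (mm_le_ht P).trans ?_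
    gcongr
  have hmP : 1 ≤ mm P := one_le_mm hP
  rw [div_le_iff₀ (by positivity)]
  calc c ^ n ≤ |aeval ξ P| * mm P ^ E := h2.trans h1
    _ ≤ |aeval ξ P| * (((n : ℝ) + 1) * ht P) ^ E := by gcongr
    _ = |aeval ξ P| * (ht P : ℝ) ^ E * ((n : ℝ) + 1) ^ E := by rw [mul_pow]; ring

/-- The reflected polynomial `P(-X)`. -/
noncomputable def refl (P : ℤ[X]) : ℤ[X] := P.comp (-X)

theorem refl_refl (P : ℤ[X]) : refl (refl P) = P := by
  unfold refl
  rw [comp_assoc]
  simp

theorem refl_mul (P Q : ℤ[X]) : refl (P * Q) = refl P * refl Q := by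
  unfold refl; rw [mul_comp]

theorem refl_coeff (P : ℤ[X]) (i : ℕ) : (refl P).coeff i = (-1) ^ i * P.coeff i := by
  unfold refl
  have e : (-X : ℤ[X]) = C (-1) * X := by simp
  rw [e, comp_C_mul_X_coeff, mul_comm]

theorem refl_natDegree (P : ℤ[X]) : (refl P).natDegree = P.natDegree := by
  unfold refl
  rw [natDegree_comp]
  simp

theorem refl_leadingCoeff (P : ℤ[X]) :
    (refl P).leadingCoeff = (-1) ^ P.natDegree * P.leadingCoeff := by
  rw [leadingCoeff, refl_natDegree, refl_coeff, leadingCoeff]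

theorem refl_ne_zero {P : ℤ[X]} (hP : P ≠ 0) : refl P ≠ 0 := by
  intro h0
  apply hP
  rw [← refl_refl P, h0]
  unfold refl
  simp

theorem refl_irreducible {P : ℤ[X]} (hP : Irreducible P) : Irreducible (refl P) := by
  have hinj : ∀ A : ℤ[X], IsUnit A → IsUnit (refl A) := by
    intro A hA
    obtain ⟨B, hB⟩ := hA.exists_right_inv
    have : refl A * refl B = 1 := by
      rw [← refl_mul, hB]; unfold refl; simp
    exact IsUnit.of_mul_eq_one _ this
  constructor
  · intro hu
    have := hinj _ hu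
    rw [refl_refl] at this
    exact hP.not_isUnit this
  · intro a b hab
    have h1 : P = refl a * refl b := by rw [← refl_mul, ← hab, refl_refl]
    rcases hP.isUnit_or_isUnit h1 with h | h
    · left
      have := hinj _ h
      rwa [refl_refl] at this
    · right
      have := hinj _ h
      rwa [refl_refl] at this

theorem ht_refl (P : ℤ[X]) : ht (refl P) = ht P := by
  have key : ∀ Q : ℤ[X], ht (refl Q) ≤ ht Q := by
    intro Q
    apply ht_le_of
    intro i
    rw [refl_coeff, Int.natAbs_mul, Int.natAbs_pow]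
    simp only [Int.reduceNeg, Int.natAbs_neg, Int.natAbs_one, one_pow,
      one_mul]
    exact natAbs_coeff_le_ht Q i
  apply le_antisymm (key P)
  have := key (refl P)
  rwa [refl_refl] at this

theorem refl_expand (P : ℤ[X]) : refl (expand ℤ 2 P) = expand ℤ 2 P := by
  ext i
  rw [refl_coeff, coeff_expand (by norm_num)]
  by_cases h : 2 ∣ i
  · rw [if_pos h]
    obtain ⟨j, rfl⟩ := h
    rw [pow_mul]; simp
  · rw [if_neg h]; simp

theorem exists_expand_of_refl (F : ℤ[X]) (h : refl F = F) : ∃ E : ℤ[X], expand ℤ 2 E = F := by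
  refine ⟨contract 2 F, ?_⟩
  ext i
  rw [coeff_expand (by norm_num)]
  by_cases hi : 2 ∣ i
  · rw [if_pos hi, coeff_contract (by norm_num)]
    congr 1
    omega
  · rw [if_neg hi]
    have h1 := congrArg (fun Q : ℤ[X] => Q.coeff i) h
    simp only [refl_coeff] at h1
    have hodd : Odd i := by
      rw [← Nat.not_even_iff_odd, even_iff_two_dvd]
      exact hi
    rw [hodd.neg_one_pow] at h1
    omega

theorem ht_expand (P : ℤ[X]) : ht (expand ℤ 2 P) = ht P := by
  apply le_antisymm
  · apply ht_le_of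
    intro i
    rw [coeff_expand (by norm_num)]
    by_cases h : 2 ∣ i
    · rw [if_pos h]; exact natAbs_coeff_le_ht P _
    · rw [if_neg h]; simp
  · apply ht_le_of
    intro i
    have h := natAbs_coeff_le_ht (expand ℤ 2 P) (2 * i)
    rw [coeff_expand (by norm_num), if_pos (dvd_mul_right 2 i)] at h
    have : 2 * i / 2 = i := by omega
    rw [this] at h
    exact h

end Pool.Agent.Helper35
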