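import Mathlib
import Pool.Agent.Helper35.TSquare

set_option autoImplicit false

namespace Pool.Agent.Helper35

open Polynomial

namespace SData

variable {e V Mq : ℕ → ℕ} (X : SData e V Mq)

theorem S_irr (k : ℕ) : Irreducible (X.S k) :=
  (IsPrimitive.Int.irreducible_iff_irreducible_map_cast (X.S_props k).2.1).mpr (X.S_props k).1

/-- `S_k` and its reflection are not proportional. -/
theorem S_not_refl (hodd : ∀ k, Odd (e k + 1)) (k : ℕ) (t : ℤ)
    (h : X.S k = C t * refl (X.S k)) : False := by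
  have hS0 : X.S k ≠ 0 := (X.S_irr k).ne_zero
  have h1 := congrArg (fun Q : ℤ[X] => Q.coeff 0) h
  have h2 := congrArg leadingCoeff h
  simp only [coeff_C_mul, refl_coeff, pow_zero, one_mul] at h1
  rw [leadingCoeff_mul, leadingCoeff_C, refl_leadingCoeff, (X.S_props k).2.2.1,
    (hodd k).neg_one_pow] at h2
  have h3 : t = 1 := by
    have h4 : (t - 1) * (X.S k).coeff 0 = 0 := by rw [sub_mul, ← h1]; ring
    rcases mul_eq_zero.mp h4 with h5 | h5
    · omega
    · exact absurd h5 (X.S_coeff_zero k)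
  have h4 : (X.S k).leadingCoeff ≠ 0 := leadingCoeff_ne_zero.mpr hS0
  rw [h3] at h2
  omega

/-- No `S_j` divides the reflection of `S_k`. -/
theorem S_not_dvd_refl (hodd : ∀ k, Odd (e k + 1)) (j k : ℕ) : ¬ X.S j ∣ refl (X.S k) := by
  intro hdvd
  obtain ⟨t, ht⟩ := hdvd
  have hirr := refl_irreducible (X.S_irr k)
  have hnu := (X.S_irr j).not_isUnit
  have ht1 : IsUnit t := (hirr.isUnit_or_isUnit ht).resolve_left hnu
  obtain ⟨r, hr, hrt⟩ := Polynomial.isUnit_iff.mp ht1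
  have hr2 := Int.isUnit_iff.mp hr
  have hr0 : r ≠ 0 := hr.ne_zero
  -- degrees
  have hdeg : e j = e k := by
    have h1 := congrArg natDegree ht
    rw [refl_natDegree, (X.S_props k).2.2.1, ← hrt, mul_comm, natDegree_C_mul hr0,
      (X.S_props j).2.2.1] at h1
    omega
  -- leading coefficients
  have hl : (refl (X.S k)).leadingCoeff.natAbs = (X.S j * t).leadingCoeff.natAbs := by rw [ht]
  rw [refl_leadingCoeff, ← hrt, leadingCoeff_mul, leadingCoeff_C, Int.natAbs_mul, Int.natAbs_mul,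
    Int.natAbs_pow, X.lead_S, X.lead_S, hdeg] at hl
  have hr3 : r.natAbs = 1 := by rcases hr2 with h | h <;> simp [h]
  rw [hr3, Int.natAbs_neg, Int.natAbs_one, one_pow, one_mul, mul_one, Int.natAbs_mul,
    Int.natAbs_mul, Int.natAbs_pow, Int.natAbs_pow, Int.natAbs_natCast, Int.natAbs_natCast] at hl
  have hT : 0 < (TD (e k)).T.leadingCoeff.natAbs :=
    Int.natAbs_pos.mpr (leadingCoeff_ne_zero.mpr (TD (e k)).irr.ne_zero)
  have hN : X.N k ^ (e k + 1) = X.N j ^ (e k + 1) := Nat.eq_of_mul_eq_mul_right hT hl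
  have hN2 : X.N k = X.N j := Nat.pow_left_injective (by omega : e k + 1 ≠ 0) hN
  have hr4 : X.r k = X.r j := by
    unfold SData.r
    rw [hN2, hdeg]
  have hjk : k = j := X.r_strictAnti.injective hr4
  subst hjk
  apply X.S_not_refl hodd k r
  have h5 : refl (refl (X.S k)) = refl (X.S k * C r) := by rw [hrt, ← ht]
  have h6 : refl (C r) = C r := by unfold refl; rw [C_comp]
  rw [refl_refl, refl_mul, h6, mul_comm] at h5
  exact h5

/-- The factorisation when some `S_k` divides `P(X^2)`. -/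
theorem split_of_dvd (hodd : ∀ k, Odd (e k + 1)) (P : ℤ[X]) (hP : IrrQ P) (k : ℕ)
    (hdvd : X.S k ∣ expand ℤ 2 P) :
    P.natDegree = e k + 1 ∧ ∃ u : ℤ, u ≠ 0 ∧ expand ℤ 2 P = C u * (X.S k * refl (X.S k)) := by
  have hS := X.S_irr k
  have hS' := refl_irreducible hS
  obtain ⟨A, hA⟩ := hdvd
  have hdvd' : refl (X.S k) ∣ X.S k * A := by
    have h1 : refl (expand ℤ 2 P) = refl (X.S k) * refl A := by rw [hA, refl_mul]
    rw [refl_expand] at h1
    rw [← hA, h1]
    exact dvd_mul_right _ _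
  have hdvdA : refl (X.S k) ∣ A := by
    rcases hS'.prime.dvd_or_dvd hdvd' with h | h
    · exfalso
      obtain ⟨t, ht⟩ := h
      have ht1 : IsUnit t := (hS.isUnit_or_isUnit ht).resolve_left hS'.not_isUnit
      obtain ⟨r, hr, hrt⟩ := Polynomial.isUnit_iff.mp ht1
      apply X.S_not_refl hodd k r
      rw [hrt, mul_comm]
      exact ht
    · exact h
  obtain ⟨B, hB⟩ := hdvdA
  obtain ⟨F, hF⟩ : ∃ F, F = X.S k * refl (X.S k) := ⟨_, rfl⟩
  have hF0 : F ≠ 0 := by
    rw [hF]; exact mul_ne_zero hS.ne_zero hS'.ne_zero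
  have hFe : refl F = F := by rw [hF, refl_mul, refl_refl, mul_comm]
  have hR : expand ℤ 2 P = F * B := by rw [hA, hB, hF]; ring
  have hBe : refl B = B := by
    have h1 : F * refl B = F * B := by
      rw [← hR, ← refl_expand P, hR, refl_mul, hFe]
    exact mul_left_cancel₀ hF0 h1
  obtain ⟨E, hE⟩ := exists_expand_of_refl F hFe
  obtain ⟨B', hB'⟩ := exists_expand_of_refl B hBe
  have hPE : P = E * B' := by
    apply expand_injective (R := ℤ) (n := 2) (by norm_num)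
    rw [map_mul, hE, hB', hR]
  have hP0 : P ≠ 0 := hP.ne_zero
  have hE0 : E ≠ 0 := by rintro rfl; rw [zero_mul] at hPE; exact hP0 hPE
  have hB0 : B' ≠ 0 := by rintro rfl; rw [mul_zero] at hPE; exact hP0 hPE
  have hEdeg : E.natDegree = e k + 1 := by
    have h1 := congrArg natDegree hE
    rw [natDegree_expand, hF, natDegree_mul hS.ne_zero hS'.ne_zero, refl_natDegree,
      (X.S_props k).2.2.1] at h1
    omega
  have hBdeg : B'.natDegree = 0 := by
    have hP' := hP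
    unfold IrrQ at hP'
    rw [hPE, Polynomial.map_mul] at hP'
    rcases hP'.isUnit_or_isUnit rfl with h | h
    · exfalso
      have h2 := natDegree_eq_zero_of_isUnit h
      rw [natDegree_map_eq_of_injective (RingHom.injective_int _)] at h2
      omega
    · have h2 := natDegree_eq_zero_of_isUnit h
      rwa [natDegree_map_eq_of_injective (RingHom.injective_int _)] at h2
  refine ⟨?_, B'.coeff 0, ?_, ?_⟩
  · rw [hPE, natDegree_mul hE0 hB0, hEdeg, hBdeg]
  · intro h0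
    apply hB0
    rw [eq_C_of_natDegree_eq_zero hBdeg, h0, C_0]
  · have h1 : B = C (B'.coeff 0) := by
      rw [← hB', eq_C_of_natDegree_eq_zero hBdeg, expand_C]
      simp
    rw [hR, h1, hF, mul_comm]

/-- The bound at `ζ²`. -/
theorem bound_sq (hodd : ∀ k, Odd (e k + 1)) (hM : Demand e Mq) (hV : ∀ j, 22 ≤ V j)
    (hVe : ∀ j, V j = 200 * (j + 2)) (n : ℕ) :
    ∃ c : ℝ, 0 < c ∧ ∀ P : ℤ[X], P ≠ 0 → P.natDegree ≤ n →
      c ≤ |aeval (X.ξ ^ 2) P| * (ht P : ℝ) ^ (121 * (n + 1)) := by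
  apply general_bound
  intro m hm hmn
  -- nonvanishing at ζ
  have hne : ∀ P : ℤ[X], P ≠ 0 → aeval X.ξ P ≠ 0 := by
    intro P hP h0
    obtain ⟨c, hc, hcc⟩ := X.bound_all hM hV P.natDegree (200 * (P.natDegree + 1)) (by omega)
      (fun j hj => by rw [hVe]; omega)
    have := hcc P hP le_rfl
    rw [h0, abs_zero, zero_mul] at this
    linarith
  -- polynomials not divisible by any S_k
  have hpred : ∀ n' : ℕ, ∃ c : ℝ, 0 < c ∧ ∀ P : ℤ[X], (∀ k, ¬ X.S k ∣ P) → P ≠ 0 →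
      P.natDegree ≤ n' → c ≤ |aeval X.ξ P| * (ht P : ℝ) ^ (40 * (n' + 1)) := by
    intro n'
    apply general_bound_pred X.ξ n' (40 * (n' + 1)) (fun P => ∀ k, ¬ X.S k ∣ P)
    · intro a b hab
      exact ⟨fun k hk => hab k (hk.mul_right b), fun k hk => hab k (hk.mul_left a)⟩
    · exact hne
    · intro m' hm' hmn'
      obtain ⟨H0, hH0⟩ := X.irr_main' m' m' le_rfl
      refine ⟨H0, fun P hGP hP hPd hH => ?_⟩
      have hHr : (1 : ℝ) ≤ ht P := by exact_mod_cast ht_pos hP.ne_zero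
      rcases hH0 P hP hPd hH with ⟨k, g, _, hg, hPg⟩ | h
      · exact absurd ⟨C g, by rw [hPg, mul_comm]⟩ (hGP k)
      · refine h.trans ?_
        have h3 : (ht P : ℝ) ^ (40 * (m' + 1)) ≤ (ht P : ℝ) ^ (40 * (n' + 1)) :=
          pow_le_pow_right₀ hHr (by omega)
        gcongr
  obtain ⟨c1, hc1, hcc1⟩ := hpred (2 * m)
  obtain ⟨c2, hc2, hcc2⟩ := hpred m
  have hCh : 1 ≤ Ch (m - 1) := Ch_one_le _
  set K : ℝ := Ch (m - 1) ^ (240 * (m + 1)) with hK
  have hK0 : 0 < K := by rw [hK]; positivity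
  refine ⟨⌈1 / c1⌉₊ + ⌈K / c2⌉₊, fun P hP hPd hH => ?_⟩
  have hH1 : (1 : ℝ) ≤ ht P := by exact_mod_cast ht_pos hP.ne_zero
  have hHc1 : 1 ≤ c1 * ht P := by
    have h1 : 1 / c1 ≤ ht P := (Nat.le_ceil _).trans (by exact_mod_cast (by omega))
    rw [div_le_iff₀ hc1] at h1
    linarith
  have hHc2 : K ≤ c2 * ht P := by
    have h1 : K / c2 ≤ ht P := (Nat.le_ceil _).trans (by exact_mod_cast (by omega))
    rw [div_le_iff₀ hc2] at h1
    linarith
  have hval : aeval X.ξ (expand ℤ 2 P) = aeval (X.ξ ^ 2) P := expand_aeval 2 P X.ξ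
  by_cases hG : ∀ k, ¬ X.S k ∣ expand ℤ 2 P
  · have hR0 : expand ℤ 2 P ≠ 0 := by
      intro h0
      exact hP.ne_zero ((expand_eq_zero (by norm_num)).mp h0)
    have h1 := hcc1 (expand ℤ 2 P) hG hR0 (by rw [natDegree_expand]; omega)
    rw [hval, ht_expand] at h1
    calc (1 : ℝ) ≤ c1 * ht P := hHc1
      _ ≤ (|aeval (X.ξ ^ 2) P| * (ht P : ℝ) ^ (40 * (2 * m + 1))) * ht P := by gcongr
      _ = |aeval (X.ξ ^ 2) P| * (ht P : ℝ) ^ (40 * (2 * m + 1) + 1) := by ring
      _ ≤ _ := by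
          have : (ht P : ℝ) ^ (40 * (2 * m + 1) + 1) ≤ (ht P : ℝ) ^ (121 * (n + 1)) :=
            pow_le_pow_right₀ hH1 (by omega)
          gcongr
  · push Not at hG
    obtain ⟨k, hk⟩ := hG
    obtain ⟨hdeg, u, hu, hfac⟩ := X.split_of_dvd hodd P hP k hk
    have hek : e k = m - 1 := by omega
    have hS0 := (X.S_irr k).ne_zero
    obtain ⟨hS, hhS⟩ : ∃ a : ℝ, a = (ht (X.S k) : ℝ) := ⟨_, rfl⟩
    have hS1 : 1 ≤ hS := by rw [hhS]; exact_mod_cast ht_pos hS0
    -- bound for S_k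
    have h1 := X.spec_lower hM hV k 1 one_ne_zero
    rw [C_1, one_mul, ← hhS, hVe, hek] at h1
    -- bound for the reflection
    have h2 := hcc2 (refl (X.S k)) (X.S_not_dvd_refl hodd · k) (refl_ne_zero hS0)
      (by rw [refl_natDegree, (X.S_props k).2.2.1]; omega)
    rw [ht_refl, ← hhS] at h2
    -- heights
    have h3 : hS ^ 2 ≤ Ch (m - 1) ^ 2 * ht P := by
      have h4 := X.ht_S_upper hV k
      rw [hek, ← hhS] at h4
      have h5 : hS ^ 2 ≤ (Ch (m - 1) * (X.N k : ℝ) ^ (m - 1 + 1)) ^ 2 := by gcongr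
      refine h5.trans ?_
      rw [mul_pow]
      have h6 : ((X.N k : ℝ) ^ (m - 1 + 1)) ^ 2 ≤ ht P := by
        have h7 := natAbs_coeff_le_ht (expand ℤ 2 P) (expand ℤ 2 P).natDegree
        rw [coeff_natDegree, ht_expand, hfac, leadingCoeff_mul, leadingCoeff_mul, leadingCoeff_C,
          refl_leadingCoeff, X.lead_S, hek, Int.natAbs_mul, Int.natAbs_mul, Int.natAbs_mul,
          Int.natAbs_mul, Int.natAbs_pow, Int.natAbs_pow, Int.natAbs_natCast, Int.natAbs_neg,
          Int.natAbs_one, one_pow, one_mul] at h7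
        have hT : 1 ≤ (TD (m - 1)).T.leadingCoeff.natAbs :=
          Int.natAbs_pos.mpr (leadingCoeff_ne_zero.mpr (TD (m - 1)).irr.ne_zero)
        have hu1 : 1 ≤ u.natAbs := Int.natAbs_pos.mpr hu
        have h8 : (X.N k ^ (m - 1 + 1)) ^ 2 ≤ ht P := by
          refine le_trans ?_ h7
          rw [Int.natAbs_mul ((X.N k : ℤ) ^ (m - 1 + 1)), Int.natAbs_pow, Int.natAbs_natCast]
          calc (X.N k ^ (m - 1 + 1)) ^ 2 =
                1 * ((X.N k ^ (m - 1 + 1) * 1) * (X.N k ^ (m - 1 + 1) * 1)) := by ring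
            _ ≤ _ := by gcongr
        exact_mod_cast h8
      gcongr
    -- combination
    have h9 : |aeval (X.ξ ^ 2) P| = |(u : ℝ)| * (|aeval X.ξ (X.S k)| * |aeval X.ξ (refl (X.S k))|) := by
      rw [← hval, hfac, map_mul, map_mul, abs_mul, abs_mul, aeval_C]
      simp
    have hu1 : (1 : ℝ) ≤ |(u : ℝ)| := by exact_mod_cast Int.one_le_abs hu
    have h10 : c2 ≤ |aeval (X.ξ ^ 2) P| * hS ^ (240 * (m + 1)) := by
      have e1 : hS ^ (240 * (m + 1)) = hS ^ (200 * (m - 1 + 2)) * hS ^ (40 * (m + 1)) := by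
        rw [← pow_add]; congr 1; omega
      rw [h9, e1]
      calc c2 ≤ |aeval X.ξ (refl (X.S k))| * hS ^ (40 * (m + 1)) := h2
        _ = 1 * (1 * (|aeval X.ξ (refl (X.S k))| * hS ^ (40 * (m + 1)))) := by ring
        _ ≤ |(u : ℝ)| * ((|aeval X.ξ (X.S k)| * hS ^ (200 * (m - 1 + 2))) *
              (|aeval X.ξ (refl (X.S k))| * hS ^ (40 * (m + 1)))) := by gcongr
        _ = _ := by ring
    have h11 : hS ^ (240 * (m + 1)) ≤ K * (ht P : ℝ) ^ (120 * (m + 1)) := by
      calc hS ^ (240 * (m + 1)) = (hS ^ 2) ^ (120 * (m + 1)) := by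
            rw [← pow_mul]; congr 1; ring
        _ ≤ (Ch (m - 1) ^ 2 * ht P) ^ (120 * (m + 1)) := by gcongr
        _ = _ := by rw [mul_pow, ← pow_mul, hK]; congr 2; ring
    have h12 : c2 ≤ K * (|aeval (X.ξ ^ 2) P| * (ht P : ℝ) ^ (120 * (m + 1))) := by
      calc c2 ≤ |aeval (X.ξ ^ 2) P| * hS ^ (240 * (m + 1)) := h10
        _ ≤ |aeval (X.ξ ^ 2) P| * (K * (ht P : ℝ) ^ (120 * (m + 1))) := by gcongr
        _ = _ := by ring
    have h13 : K * 1 ≤ K * (|aeval (X.ξ ^ 2) P| * (ht P : ℝ) ^ (120 * (m + 1) + 1)) := by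
      calc K * 1 ≤ c2 * ht P := by linarith
        _ ≤ (K * (|aeval (X.ξ ^ 2) P| * (ht P : ℝ) ^ (120 * (m + 1)))) * ht P := by gcongr
        _ = _ := by ring
    have h14 := le_of_mul_le_mul_left h13 hK0
    refine h14.trans ?_
    have : (ht P : ℝ) ^ (120 * (m + 1) + 1) ≤ (ht P : ℝ) ^ (121 * (n + 1)) :=
      pow_le_pow_right₀ hH1 (by omega)
    gcongr

end SData

end Pool.Agent.Helper35
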