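import Pool.Agent.Helper35.URDir

/-! Directed repetitions at large multiples of `M`, and the pair analysis. -/

namespace Pool.Agent.Helper35.UR

variable {r s M : ℕ}

theorem read (D : Dat r s M) (x ν : ℕ) (h1 : 1 ≤ ν) (h2 : ν ≤ 2 * r + 1) :
    ∃ y R j, x ≤ y ∧ y < x + M + 5 ∧ IsLane r s M y R j ∧ R + fI r j = x / M + ν := by
  have hr := D.hr
  have hs := D.hs
  have hMM := D.hM
  have hM := M_ge D
  have hcl := col_last D
  have hx : x = (x / M) * M + x % M := by
    have := Nat.div_add_mod x M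
    rw [Nat.mul_comm]; exact this.symm
  have hc : x % M < M := Nat.mod_lt _ (by omega)
  generalize hR0 : x / M = R0 at *
  generalize hc0 : x % M = c0 at *
  have e1 : (R0 + 1) * M = R0 * M + M := by rw [Nat.add_mul, Nat.one_mul]
  have e2 : (R0 + 2) * M = R0 * M + 2 * M := by rw [Nat.add_mul]
  have c1 : col s 1 = 1 := by unfold col sg; omega
  have c2 : col s 2 = 3 := by unfold col sg; omega
  have f1 : fI r 1 = r := by unfold fI; split_ifs <;> omega
  have f2 : fI r 2 = 2 * r := by unfold fI; rw [if_neg (by decide)]; omega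
  by_cases hq : ν = 2 * r + 1
  · exact ⟨(R0 + 1) * M + col s 2, R0 + 1, 2, by omega, by omega, ⟨by omega, by omega, rfl⟩, by omega⟩
  by_cases hr1 : ν = r + 1
  · exact ⟨(R0 + 1) * M + col s 1, R0 + 1, 1, by omega, by omega, ⟨by omega, by omega, rfl⟩, by omega⟩
  by_cases hle : ν ≤ r
  · obtain ⟨j, hj⟩ : ∃ j, j = 2 * r + 1 - 2 * ν := ⟨_, rfl⟩
    have hf : fI r j = ν := by unfold fI; split_ifs <;> omega
    have hcj := col_ltM D j (by omega) (by omega)
    by_cases hcc : c0 ≤ col s j
    · exact ⟨R0 * M + col s j, R0, j, by omega, by omega, ⟨by omega, by omega, rfl⟩, by omega⟩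
    · have hν : 2 ≤ ν := by
        by_contra hcon
        have : j = 2 * r - 1 := by omega
        rw [this] at hcc
        omega
      have hf2 : fI r (j + 2) + 1 = ν := by unfold fI; split_ifs <;> omega
      have hc2 : col s (j + 2) ≤ col s j + 4 := by unfold col sg; omega
      have hcj2 := col_ltM D (j + 2) (by omega) (by omega)
      exact ⟨(R0 + 1) * M + col s (j + 2), R0 + 1, j + 2, by omega, by omega,
        ⟨by omega, by omega, rfl⟩, by omega⟩
  · obtain ⟨j, hj⟩ : ∃ j, j = 4 * r + 2 - 2 * ν := ⟨_, rfl⟩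
    have hf : fI r j = ν := by unfold fI; split_ifs <;> omega
    have hcj := col_ltM D j (by omega) (by omega)
    by_cases hcc : c0 ≤ col s j
    · exact ⟨R0 * M + col s j, R0, j, by omega, by omega, ⟨by omega, by omega, rfl⟩, by omega⟩
    · by_cases hν : ν = r + 2
      · have d1 : col s (2 * r - 2) + 3 = M := by unfold col sg; omega
        have : j = 2 * r - 2 := by omega
        rw [this] at hcc
        exact ⟨(R0 + 2) * M + col s 1, R0 + 2, 1, by omega, by omega, ⟨by omega, by omega, rfl⟩, by omega⟩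
      · have hf2 : fI r (j + 2) + 1 = ν := by unfold fI; split_ifs <;> omega
        have hc2 : col s (j + 2) ≤ col s j + 4 := by unfold col sg; omega
        have hcj2 := col_ltM D (j + 2) (by omega) (by omega)
        exact ⟨(R0 + 1) * M + col s (j + 2), R0 + 1, j + 2, by omega, by omega,
          ⟨by omega, by omega, rfl⟩, by omega⟩

theorem dir_big (D : Dat r s M) (x m e : ℕ) (h1 : (e + 1) * (4 * r - 2) + 4 ≤ m)
    (h2 : m < (e + 2) * (4 * r - 2) + 4)
    (h : ∀ i < (e + 1) * M + 5, D.w (x + i + m * M) = D.w (x + i)) : False := by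
  have hM := M_ge D
  have hr := D.hr
  apply D.W4 e (x / M + 1) m h1 h2
  intro i hi
  obtain ⟨i', ν, hi', hν1, hν2, hsum⟩ : ∃ i' ν, i' ≤ e ∧ 1 ≤ ν ∧ ν ≤ 2 * r + 1 ∧ i' + ν = i + 1 := by
    by_cases hc : i < 2 * r + 1
    · exact ⟨0, i + 1, by omega, by omega, by omega, by omega⟩
    · exact ⟨i - 2 * r, 2 * r + 1, by omega, by omega, by omega, by omega⟩
  obtain ⟨y, R, j, hy1, hy2, hl, hf⟩ := read D (x + i' * M) ν hν1 hν2
  have hdiv : (x + i' * M) / M = x / M + i' := by
    rw [Nat.add_mul_div_right _ _ (by omega)]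
  rw [hdiv] at hf
  have hmul : i' * M ≤ e * M := Nat.mul_le_mul_right M hi'
  have he : (e + 1) * M = e * M + M := by rw [Nat.add_mul, Nat.one_mul]
  have := lane_step D h (y := y) (by omega) (by omega) hl (n := x / M + 1 + i) (by omega)
  exact this

/-- All directed coincidences at a multiple of `M`. -/
theorem dir_mult (D : Dat r s M) (x m L : ℕ) (hm : 1 ≤ m) (hmL : m < L)
    (h : ∀ i < L, D.w (x + i + m * M) = D.w (x + i)) : False := by
  have hM := M_ge D
  have hr := D.hr
  have hMM := D.hM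
  by_cases h1 : m < 2 * r + 1
  · exact dir_small_m D x m hm h1 (fun i hi => h i (by omega))
  · by_cases h2 : m < 2 * (2 * r + 1)
    · exact dir_mid D x m (by omega) h2 (fun i hi => h i (by omega))
    · obtain ⟨e, he⟩ : ∃ e, (m - 4) / (4 * r - 2) = e + 1 := by
        have : 1 ≤ (m - 4) / (4 * r - 2) := by
          rw [Nat.le_div_iff_mul_le (by omega)]
          omega
        exact ⟨(m - 4) / (4 * r - 2) - 1, by omega⟩
      have hdm := Nat.div_add_mod (m - 4) (4 * r - 2)
      have hlt := Nat.mod_lt (m - 4) (show 0 < 4 * r - 2 by omega)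
      rw [he] at hdm
      have a1 : (4 * r - 2) * (e + 1) = (e + 1) * (4 * r - 2) := Nat.mul_comm _ _
      have a2 : (e + 2) * (4 * r - 2) = (e + 1) * (4 * r - 2) + (4 * r - 2) := by
        rw [show e + 2 = (e + 1) + 1 by omega, Nat.add_mul (e + 1) 1, Nat.one_mul]
      have a3 : (e + 1) * M ≤ (e + 1) * (4 * r - 2) := Nat.mul_le_mul_left _ (by omega)
      exact dir_big D x m e (by omega) (by omega) (fun i hi => h i (by omega))

end Pool.Agent.Helper35.UR
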