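import Mathlib

/-! Counting argument: existence of the word `W`. -/

namespace Pool.Agent.Helper35.UR

section
variable (q : ℕ)

theorem exists_miss (u : ℕ → Fin (q + 1)) : ∃ z, ∀ i < q, u i ≠ z := by
  by_contra h
  push Not at h
  have hsub : (Finset.univ : Finset (Fin (q + 1))) ⊆ (Finset.range q).image u := by
    intro z _
    obtain ⟨i, hi, rfl⟩ := h z
    exact Finset.mem_image.mpr ⟨i, Finset.mem_range.mpr hi, rfl⟩
  have h1 := Finset.card_le_card hsub
  have h2 : ((Finset.range q).image u).card ≤ (Finset.range q).card := Finset.card_image_le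
  rw [Finset.card_univ, Fintype.card_fin] at h1
  rw [Finset.card_range] at h2
  omega

/-- a letter missing among the first `q` -/
noncomputable def miss (u : ℕ → Fin (q + 1)) : Fin (q + 1) := (exists_miss q u).choose

theorem miss_spec (u : ℕ → Fin (q + 1)) (i : ℕ) (hi : i < q) : u i ≠ miss q u :=
  (exists_miss q u).choose_spec i hi

/-- the word (read backwards) coded by a list of booleans -/
noncomputable def U : List Bool → ℕ → Fin (q + 1)
  | [], i => ⟨(i % q) % (q + 1), Nat.mod_lt _ (Nat.succ_pos q)⟩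
  | b :: c, 0 => if b = true then miss q (U c) else U c (q - 1)
  | _ :: c, i + 1 => U c i

theorem U_ne (hq : 2 ≤ q) : ∀ (c : List Bool) (i d : ℕ), 0 < d → d < q → U q c (i + d) ≠ U q c i := by
  intro c
  induction c with
  | nil =>
    intro i d h1 h2 h
    simp only [U, Fin.mk.injEq] at h
    have a1 := Nat.mod_lt i (show 0 < q by omega)
    have a2 := Nat.mod_lt (i + d) (show 0 < q by omega)
    have b1 : i % q % (q + 1) = i % q := Nat.mod_eq_of_lt (by omega)
    have b2 : (i + d) % q % (q + 1) = (i + d) % q := Nat.mod_eq_of_lt (by omega)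
    rw [b1, b2] at h
    have : (i + d) ≡ i + 0 [MOD q] := h
    have h3 := Nat.ModEq.add_left_cancel' i this
    have h4 : d % q = 0 % q := h3
    rw [Nat.mod_eq_of_lt h2, Nat.zero_mod] at h4
    omega
  | cons b c ih =>
    intro i d h1 h2
    rcases i with _ | i
    · obtain ⟨d', rfl⟩ : ∃ d', d = d' + 1 := ⟨d - 1, by omega⟩
      rw [Nat.zero_add]
      show U q c d' ≠ (if b = true then miss q (U q c) else U q c (q - 1))
      split_ifs with hb
      · exact miss_spec q _ _ (by omega)
      · have := ih d' (q - 1 - d') (by omega) (by omega)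
        rw [show d' + (q - 1 - d') = q - 1 by omega] at this
        exact this.symm
    · rw [show i + 1 + d = (i + d) + 1 by omega]
      show U q c (i + d) ≠ U q c i
      exact ih i d h1 h2

theorem U_drop : ∀ (k : ℕ) (C : List Bool) (i : ℕ), k ≤ C.length → U q C (k + i) = U q (C.drop k) i := by
  intro k
  induction k with
  | zero => intro C i _; simp
  | succ k ih =>
    intro C i h
    rcases C with _ | ⟨b, c⟩
    · simp at h
    · rw [show k + 1 + i = (k + i) + 1 by omega]
      show U q c (k + i) = U q (c.drop k) i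
      exact ih c i (by simpa using h)

theorem U_cons_zero_false (b : Bool) (c : List Bool) (hq : 2 ≤ q) (h : U q (b :: c) 0 = U q c (q - 1)) :
    b = false := by
  by_contra hb
  have hb : b = true := by simpa using hb
  subst hb
  have h2 : U q (true :: c) 0 = miss q (U q c) := rfl
  rw [h2] at h
  exact miss_spec q (U q c) (q - 1) (by omega) h.symm

theorem U_inj (hq : 2 ≤ q) : ∀ (C1 C2 : List Bool), C1.length = C2.length →
    (∀ i, U q C1 i = U q C2 i) → C1 = C2 := by
  intro C1
  induction C1 with
  | nil =>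
    intro C2 h _
    exact (List.length_eq_zero_iff.mp h.symm).symm
  | cons b c ih =>
    intro C2 h hU
    rcases C2 with _ | ⟨b2, c2⟩
    · simp at h
    · have hc : c = c2 := ih c2 (by simpa using h) (fun i => hU (i + 1))
      subst hc
      have h0 := hU 0
      have hb : b = b2 := by
        cases b <;> cases b2
        · rfl
        · exfalso
          have h2 : U q (true :: c) 0 = U q c (q - 1) := h0.symm
          have := U_cons_zero_false q true c hq h2
          simp at this
        · exfalso
          have h2 : U q (true :: c) 0 = U q c (q - 1) := h0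
          have := U_cons_zero_false q true c hq h2
          simp at this
        · rfl
      rw [hb]

/-- long repetitions -/
def Bad4 (C : List Bool) (e : ℕ) : Prop :=
  ∃ m, (e + 1) * (2 * q - 4) + 4 ≤ m ∧ m < (e + 2) * (2 * q - 4) + 4 ∧
    ∀ i < q + e, U q C i = U q C (i + m)

/-- runs of length four in the code -/
def BadRun (C : List Bool) : Prop := ∃ b C', C = b :: b :: b :: b :: C'

/-- newly added letter is fine -/
def Ok (C : List Bool) : Prop := ¬ BadRun C ∧ ∀ e, q + e ≤ C.length → ¬ Bad4 q C e

/-- all one-letter extensions -/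
def Ext (S : Finset (List Bool)) : Finset (List Bool) :=
  (S ×ˢ (Finset.univ : Finset Bool)).image (fun p => p.2 :: p.1)

theorem card_Ext (S : Finset (List Bool)) : (Ext S).card = 2 * S.card := by
  unfold Ext
  rw [Finset.card_image_of_injective, Finset.card_product, Finset.card_univ, Fintype.card_bool,
    Nat.mul_comm]
  rintro ⟨a, b⟩ ⟨a', b'⟩ h
  simp only [List.cons.injEq] at h
  exact Prod.ext h.2 h.1

theorem mem_Ext {S : Finset (List Bool)} {C : List Bool} :
    C ∈ Ext S ↔ ∃ b c, c ∈ S ∧ C = b :: c := by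
  unfold Ext
  simp only [Finset.mem_image, Finset.mem_product, Finset.mem_univ, and_true, Prod.exists]
  constructor
  · rintro ⟨c, b, h1, rfl⟩; exact ⟨b, c, h1, rfl⟩
  · rintro ⟨b, c, h1, rfl⟩; exact ⟨c, b, h1, rfl⟩

open Classical in
/-- good codes of length `n` -/
noncomputable def G : ℕ → Finset (List Bool)
  | 0 => {[]}
  | n + 1 => (Ext (G n)).filter (fun C => Ok q C)

theorem mem_G_succ {n : ℕ} {C : List Bool} : C ∈ G q (n + 1) ↔ C ∈ Ext (G q n) ∧ Ok q C := by
  classical
  show C ∈ (Ext (G q n)).filter (fun C => Ok q C) ↔ _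
  rw [Finset.mem_filter]

theorem G_length : ∀ (n : ℕ) (C : List Bool), C ∈ G q n → C.length = n := by
  intro n
  induction n with
  | zero =>
    intro C h
    have : C = [] := by simpa [G] using h
    rw [this]; rfl
  | succ n ih =>
    intro C h
    rw [mem_G_succ] at h
    obtain ⟨b, c, h1, rfl⟩ := mem_Ext.mp h.1
    simp [ih c h1]

theorem G_drop : ∀ (k n : ℕ) (C : List Bool), C ∈ G q (n + k) → C.drop k ∈ G q n := by
  intro k
  induction k with
  | zero => intro n C h; simpa using h
  | succ k ih =>
    intro n C h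
    rw [← Nat.add_assoc, mem_G_succ] at h
    obtain ⟨b, c, h1, rfl⟩ := mem_Ext.mp h.1
    exact ih n c h1

open Classical in
theorem run_bound (n : ℕ) (hn : 3 ≤ n) :
    ((Ext (G q n)).filter (fun C => BadRun C)).card ≤ 2 * (G q (n - 4)).card := by
  have : 2 * (G q (n - 4)).card = (Ext (G q (n - 4))).card := (card_Ext _).symm
  rw [this]
  apply Finset.card_le_card_of_injOn (fun C => C.headD true :: C.drop 5)
  · intro C hC
    simp only [Finset.coe_filter, Set.mem_ofPred_eq] at hC
    obtain ⟨h1, b, C', rfl⟩ := hC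
    obtain ⟨b0, c, hc, e⟩ := mem_Ext.mp h1
    have hlen := G_length q n c hc
    simp only [List.cons.injEq] at e
    obtain ⟨rfl, rfl⟩ := e
    show _ ∈ Ext (G q (n - 4))
    rw [mem_Ext]
    refine ⟨_, _, ?_, rfl⟩
    show (C'.drop 1) ∈ G q (n - 4)
    rcases Nat.eq_or_lt_of_le hn with h3 | h3
    · subst h3
      have : C' = [] := by
        have : C'.length = 0 := by simpa using hlen
        exact List.length_eq_zero_iff.mp this
      subst this
      show ([] : List Bool) ∈ G q 0
      simp [G]
    · have := G_drop q 4 (n - 4) _ (by rw [show n - 4 + 4 = n by omega]; exact hc)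
      simpa using this
  · intro C1 hC1 C2 hC2 hE
    simp only [Finset.coe_filter, Set.mem_ofPred_eq] at hC1 hC2
    obtain ⟨h1, b1, C1', rfl⟩ := hC1
    obtain ⟨h2, b2, C2', rfl⟩ := hC2
    obtain ⟨b0, c, hc, e⟩ := mem_Ext.mp h1
    obtain ⟨b0', c', hc', e'⟩ := mem_Ext.mp h2
    simp only [List.cons.injEq] at e e'
    obtain ⟨rfl, rfl⟩ := e
    obtain ⟨rfl, rfl⟩ := e'
    have hE' : b1 :: C1'.drop 1 = b2 :: C2'.drop 1 := hE
    simp only [List.cons.injEq] at hE'
    obtain ⟨hb, hd⟩ := hE'
    subst hb
    have hl1 := G_length q n _ hc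
    have hl2 := G_length q n _ hc'
    have key : ∀ C' : List Bool, b1 :: b1 :: b1 :: C' ∈ G q n → C' = [] ∨ ∃ C'', C' = (!b1) :: C'' := by
      intro C' hC'
      rcases C' with _ | ⟨b, C''⟩
      · left; rfl
      · right
        refine ⟨C'', ?_⟩
        have hlen := G_length q n _ hC'
        obtain ⟨n', rfl⟩ : ∃ n', n = n' + 1 := ⟨n - 1, by omega⟩
        rw [mem_G_succ] at hC'
        have hrun := hC'.2.1
        have : b = !b1 := by
          by_contra hne
          have hbb : b = b1 := by cases b <;> cases b1 <;> simp_all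
          apply hrun
          exact ⟨b1, C'', by rw [hbb]⟩
        rw [this]
    rcases key C1' hc with h1 | ⟨D1, h1⟩ <;> rcases key C2' hc' with h2 | ⟨D2, h2⟩
    · rw [h1, h2]
    · subst h1; subst h2; simp at hl1 hl2; omega
    · subst h1; subst h2; simp at hl1 hl2; omega
    · subst h1; subst h2
      have : D1 = D2 := by simpa using hd
      rw [this]

open Classical in
theorem run_empty (n : ℕ) (hn : n < 3) :
    ((Ext (G q n)).filter (fun C => BadRun C)).card = 0 := by
  rw [Finset.card_eq_zero, Finset.filter_eq_empty_iff]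
  rintro C hC ⟨b, C', rfl⟩
  obtain ⟨b0, c, hc, e⟩ := mem_Ext.mp hC
  have := G_length q n c hc
  simp only [List.cons.injEq] at e
  obtain ⟨-, rfl⟩ := e
  simp at this
  omega

open Classical in
theorem bad4_bound (hq : 4 ≤ q) (n e : ℕ) (he : q + e ≤ n + 1) :
    ((Ext (G q n)).filter (fun C => Bad4 q C e)).card ≤ 2 * (G q (n + 2 - q - e)).card := by
  have : 2 * (G q (n + 2 - q - e)).card = (Ext (G q (n + 2 - q - e))).card := (card_Ext _).symm
  rw [this]
  have hA : (e + 1) * (2 * q - 4) = e * (2 * q - 4) + (2 * q - 4) := by rw [Nat.add_mul, Nat.one_mul]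
  have hB : (e + 2) * (2 * q - 4) = e * (2 * q - 4) + 2 * (2 * q - 4) := by rw [Nat.add_mul]
  have hEe : e ≤ e * (2 * q - 4) := Nat.le_mul_of_pos_right e (by omega)
  -- choice of the shift
  let mm : List Bool → ℕ := fun C => if h : Bad4 q C e then h.choose else 0
  have hmm : ∀ C, Bad4 q C e → (e + 1) * (2 * q - 4) + 4 ≤ mm C ∧ mm C < (e + 2) * (2 * q - 4) + 4 ∧
      ∀ i < q + e, U q C i = U q C (i + mm C) := by
    intro C h
    have : mm C = h.choose := by simp only [mm]; rw [dif_pos h]
    rw [this]
    exact h.choose_spec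
  apply Finset.card_le_card_of_injOn
    (fun C => (decide (mm C < (e + 1) * (2 * q - 4) + 4 + (q - 2))) :: C.drop (q + e - 1))
  · intro C hC
    simp only [Finset.coe_filter, Set.mem_ofPred_eq] at hC
    obtain ⟨h1, h2⟩ := hC
    obtain ⟨b0, c, hc, rfl⟩ := mem_Ext.mp h1
    show _ ∈ Ext (G q (n + 2 - q - e))
    rw [mem_Ext]
    refine ⟨_, _, ?_, rfl⟩
    obtain ⟨k, hk⟩ : ∃ k, q + e - 1 = k + 1 := ⟨q + e - 2, by omega⟩
    rw [hk]
    show c.drop k ∈ _
    apply G_drop q k
    rw [show n + 2 - q - e + k = n by omega]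
    exact hc
  · intro C1 hC1 C2 hC2 hE
    simp only [Finset.coe_filter, Set.mem_ofPred_eq] at hC1 hC2
    obtain ⟨h1, b1⟩ := hC1
    obtain ⟨h2, b2⟩ := hC2
    obtain ⟨x1, c1, hc1, e1⟩ := mem_Ext.mp h1
    obtain ⟨x2, c2, hc2, e2⟩ := mem_Ext.mp h2
    have l1 : C1.length = n + 1 := by rw [e1]; simp [G_length q n c1 hc1]
    have l2 : C2.length = n + 1 := by rw [e2]; simp [G_length q n c2 hc2]
    have hE' : (decide (mm C1 < (e + 1) * (2 * q - 4) + 4 + (q - 2))) :: C1.drop (q + e - 1) =
      (decide (mm C2 < (e + 1) * (2 * q - 4) + 4 + (q - 2))) :: C2.drop (q + e - 1) := hE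
    simp only [List.cons.injEq] at hE'
    obtain ⟨hh, hd⟩ := hE'
    obtain ⟨p1, p2, p3⟩ := hmm C1 b1
    obtain ⟨r1, r2, r3⟩ := hmm C2 b2
    have hhalf : mm C1 < (e + 1) * (2 * q - 4) + 4 + (q - 2) ↔
        mm C2 < (e + 1) * (2 * q - 4) + 4 + (q - 2) := by
      rw [← decide_eq_decide]
      exact hh
    have D1 : ∀ i, U q C1 (q + e - 1 + i) = U q (C1.drop (q + e - 1)) i := fun i =>
      U_drop q _ C1 i (by omega)
    have D2 : ∀ i, U q C2 (q + e - 1 + i) = U q (C1.drop (q + e - 1)) i := fun i => by
      rw [hd]; exact U_drop q _ C2 i (by omega)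
    have hm : mm C1 = mm C2 := by
      have a1 : U q (C1.drop (q + e - 1)) 0 = U q (C1.drop (q + e - 1)) (mm C1) := by
        rw [← D1 0, ← D1 (mm C1)]
        exact p3 (q + e - 1) (by omega)
      have a2 : U q (C1.drop (q + e - 1)) 0 = U q (C1.drop (q + e - 1)) (mm C2) := by
        rw [← D2 0, ← D2 (mm C2)]
        exact r3 (q + e - 1) (by omega)
      by_contra hne
      rcases Nat.lt_or_gt_of_ne hne with hl | hl
      · have := U_ne q (by omega) (C1.drop (q + e - 1)) (mm C1) (mm C2 - mm C1) (by omega) (by omega)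
        rw [show mm C1 + (mm C2 - mm C1) = mm C2 by omega] at this
        exact this (a2.symm.trans a1)
      · have := U_ne q (by omega) (C1.drop (q + e - 1)) (mm C2) (mm C1 - mm C2) (by omega) (by omega)
        rw [show mm C2 + (mm C1 - mm C2) = mm C1 by omega] at this
        exact this (a1.symm.trans a2)
    apply U_inj q (by omega) C1 C2 (by omega)
    intro i
    by_cases hi : i < q + e - 1
    · rw [p3 i (by omega), r3 i (by omega), ← hm,
        show i + mm C1 = q + e - 1 + (i + mm C1 - (q + e - 1)) by omega, D1, D2]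
    · rw [show i = q + e - 1 + (i - (q + e - 1)) by omega, D1, D2]

open Classical in
theorem recursion (hq : 4 ≤ q) (n : ℕ) :
    2 * (G q n).card ≤ (G q (n + 1)).card + ((Ext (G q n)).filter (fun C => BadRun C)).card
      + ∑ e ∈ Finset.range (n + 2 - q), 2 * (G q (n + 2 - q - e)).card := by
  rw [← card_Ext]
  have hsub : Ext (G q n) ⊆ (G q (n + 1) ∪ (Ext (G q n)).filter (fun C => BadRun C)) ∪
      (Finset.range (n + 2 - q)).biUnion (fun e => (Ext (G q n)).filter (fun C => Bad4 q C e)) := by
    intro C hC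
    by_cases hr : BadRun C
    · exact Finset.mem_union_left _ (Finset.mem_union_right _ (Finset.mem_filter.mpr ⟨hC, hr⟩))
    · by_cases h4 : ∃ e, q + e ≤ C.length ∧ Bad4 q C e
      · obtain ⟨e, he, hb⟩ := h4
        obtain ⟨b0, c, hc, rfl⟩ := mem_Ext.mp hC
        have := G_length q n c hc
        simp only [List.length_cons] at he
        refine Finset.mem_union_right _ (Finset.mem_biUnion.mpr ⟨e, Finset.mem_range.mpr (by omega), ?_⟩)
        exact Finset.mem_filter.mpr ⟨hC, hb⟩
      · push Not at h4
        exact Finset.mem_union_left _ (Finset.mem_union_left _ ((mem_G_succ q).mpr ⟨hC, hr, h4⟩))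
  refine (Finset.card_le_card hsub).trans ((Finset.card_union_le _ _).trans ?_)
  refine Nat.add_le_add (Finset.card_union_le _ _) ?_
  refine Finset.card_biUnion_le.trans (Finset.sum_le_sum ?_)
  intro e he
  rw [Finset.mem_range] at he
  exact bad4_bound q hq n e (by omega)

end

end Pool.Agent.Helper35.UR
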