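import Pool.Agent.Helper35.URLay

/-! Directed repetitions at distance a multiple of `M`. -/

namespace Pool.Agent.Helper35.UR

variable {r s M : ℕ}

theorem succ_reg (D : Dat r s M) {x R : ℕ} (h : IsReg M x R) : IsLane r s M (x + 1) R 1 := by
  have := D.hr
  unfold IsReg at h
  refine ⟨le_refl _, by omega, ?_⟩
  have : col s 1 = 1 := by unfold col sg; omega
  omega

theorem succ_lane (D : Dat r s M) {x R j : ℕ} (h : IsLane r s M x R j) :
    (j = 2 * r - 1 ∧ IsReg M (x + 1) (R + 1)) ∨ IsFix r s M (x + 1) R j ∨
    (j + 1 ≤ 2 * r - 1 ∧ sg s (j + 1) = sg s j + 1 ∧ IsLane r s M (x + 1) R (j + 1)) := by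
  have hM := M_ge D
  obtain ⟨h1, h2, h3⟩ := h
  rcases Nat.eq_or_lt_of_le h2 with hj | hj
  · left
    refine ⟨hj, ?_⟩
    have := col_last D
    rw [← hj] at this
    unfold IsReg
    rw [Nat.add_mul, Nat.one_mul]
    omega
  · right
    rcases col_succ s j h1 with h | h
    · left
      exact ⟨h1, hj, h.1, by omega⟩
    · right
      exact ⟨by omega, h.1, by omega, by omega, by omega⟩

theorem succ_fix (D : Dat r s M) {x R j : ℕ} (h : IsFix r s M x R j) :
    IsLane r s M (x + 1) R (j + 1) := by
  obtain ⟨h1, h2, h3, h4⟩ := h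
  rcases col_succ s j h1 with h | h
  · exact ⟨by omega, by omega, by omega⟩
  · omega

theorem lane_in_two (D : Dat r s M) (x : ℕ) :
    (∃ R j, IsLane r s M x R j) ∨ (∃ R j, IsLane r s M (x + 1) R j) := by
  rcases cls D x with ⟨R, h⟩ | ⟨R, j, h⟩ | ⟨R, j, h⟩
  · exact Or.inr ⟨R, 1, succ_reg D h⟩
  · exact Or.inl ⟨R, j, h⟩
  · exact Or.inr ⟨R, j + 1, succ_fix D h⟩

theorem shift_lane {x R j : ℕ} (m : ℕ) (h : IsLane r s M x R j) :
    IsLane r s M (x + m * M) (R + m) j := by
  obtain ⟨h1, h2, h3⟩ := h
  refine ⟨h1, h2, ?_⟩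
  rw [Nat.add_mul]; omega

theorem shift_reg {x R : ℕ} (m : ℕ) (h : IsReg M x R) : IsReg M (x + m * M) (R + m) := by
  unfold IsReg at *
  rw [Nat.add_mul]; omega

theorem fix_eq (D : Dat r s M) {x y R j : ℕ} (h : IsFix r s M x R j) (hw : D.w y = D.w x) :
    ∃ R', IsFix r s M y R' j := by
  rw [w_fix D h] at hw
  obtain ⟨h1, h2, h3, h4⟩ := h
  have hs1 : sg s j < j := by unfold sg; omega
  rcases cls D y with ⟨R', h'⟩ | ⟨R', j', h'⟩ | ⟨R', j', h'⟩
  · rw [w_reg D h'] at hw
    have := D.rholt R'
    omega
  · rw [w_lane D h'] at hw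
    have := D.Wlt (R' + fI r j')
    omega
  · rw [w_fix D h'] at hw
    have : j' = j := by
      obtain ⟨k1, k2, k3, k4⟩ := h'
      unfold sg at *
      omega
    subst this
    exact ⟨R', h'⟩

/-- pigeonhole -/
theorem pig (D : Dat r s M) (n X Y : ℕ) (hX : X ≤ 2 * r + 1) (hY : Y ≤ 2 * r + 1) (hXY : X ≠ Y)
    (h : ∀ i < 2 * r + 1, D.W (n + i) ≠ X ∧ D.W (n + i) ≠ Y) : False := by
  have hinj : Set.InjOn (fun i => D.W (n + i)) (Finset.range (2 * r + 1) : Set ℕ) := by
    intro a ha b hb hab
    simp only [Finset.coe_range, Set.mem_Iio] at ha hb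
    by_contra hne
    rcases Nat.lt_or_gt_of_ne hne with hl | hl
    · have := D.W1 (n + a) (b - a) (by omega) (by omega)
      rw [show n + a + (b - a) = n + b by omega] at this
      exact this hab.symm
    · have := D.W1 (n + b) (a - b) (by omega) (by omega)
      rw [show n + b + (a - b) = n + a by omega] at this
      exact this hab
  have hcard : ((Finset.range (2 * r + 1)).image (fun i => D.W (n + i))).card = 2 * r + 1 := by
    rw [Finset.card_image_of_injOn hinj, Finset.card_range]
  have hsub : (Finset.range (2 * r + 1)).image (fun i => D.W (n + i)) ⊆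
      ((Finset.range (2 * r + 2)).erase X).erase Y := by
    intro z hz
    simp only [Finset.mem_image, Finset.mem_range] at hz
    obtain ⟨i, hi, rfl⟩ := hz
    have h1 := h i hi
    have h2 := D.Wlt (n + i)
    simp only [Finset.mem_erase, Finset.mem_range]
    exact ⟨h1.2, h1.1, by omega⟩
  have := Finset.card_le_card hsub
  rw [hcard, Finset.card_erase_of_mem, Finset.card_erase_of_mem, Finset.card_range] at this
  · omega
  · simp; omega
  · simp only [Finset.mem_erase, Finset.mem_range]
    exact ⟨hXY.symm, by omega⟩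

theorem WA (D : Dat r s M) (n m : ℕ) (h1 : 2 * r + 3 ≤ m) (h2 : m < 2 * (2 * r + 1))
    (e0 : D.W (n + m) = D.W n) (e1 : D.W (n + 1 + m) = D.W (n + 1)) : False := by
  have hr := D.hr
  refine pig D (n + 2) (D.W n) (D.W (n + 1)) (D.Wlt _) (D.Wlt _) ?_ ?_
  · exact (D.W1 n 1 (by omega) (by omega)).symm
  · intro i hi
    constructor
    · by_cases hc : 2 + i < 2 * r + 1
      · have := D.W1 n (2 + i) (by omega) hc
        rwa [← Nat.add_assoc] at this
      · have := D.W1 (n + 2 + i) (m - (2 + i)) (by omega) (by omega)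
        rw [show n + 2 + i + (m - (2 + i)) = n + m by omega, e0] at this
        exact this.symm
    · by_cases hc : 1 + i < 2 * r + 1
      · have := D.W1 (n + 1) (1 + i) (by omega) hc
        rwa [show n + 1 + (1 + i) = n + 2 + i by omega] at this
      · have := D.W1 (n + 2 + i) (m - (1 + i)) (by omega) (by omega)
        rw [show n + 2 + i + (m - (1 + i)) = n + 1 + m by omega, e1] at this
        exact this.symm

theorem WB (D : Dat r s M) (R : ℕ) (h : D.rho (R + (2 * r + 1)) = D.rho R) : False := by
  have hr := D.hr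
  apply D.W2 R
  intro i hi
  by_contra hne
  refine pig D (R + i + 1) (D.W (R + i)) (D.rho R) (D.Wlt _) (D.rholt _) (D.rhomiss R i (by omega)) ?_
  intro k hk
  constructor
  · by_cases hc : k + 1 < 2 * r + 1
    · have := D.W1 (R + i) (k + 1) (by omega) hc
      rwa [show R + i + (k + 1) = R + i + 1 + k by omega] at this
    · rw [show R + i + 1 + k = R + i + (2 * r + 1) by omega]
      exact hne
  · by_cases hc : i + 1 + k < 2 * r + 1
    · have := D.rhomiss R (i + 1 + k) hc
      rwa [show R + (i + 1 + k) = R + i + 1 + k by omega] at this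
    · have := D.rhomiss (R + (2 * r + 1)) (i + 1 + k - (2 * r + 1)) (by omega)
      rw [show R + (2 * r + 1) + (i + 1 + k - (2 * r + 1)) = R + i + 1 + k by omega, h] at this
      exact this

theorem dir_small_m (D : Dat r s M) (x m : ℕ) (hm : 1 ≤ m) (hm2 : m < 2 * r + 1)
    (h : ∀ i < 2, D.w (x + i + m * M) = D.w (x + i)) : False := by
  rcases lane_in_two D x with ⟨R, j, hl⟩ | ⟨R, j, hl⟩
  · have h0 := h 0 (by omega)
    rw [Nat.add_zero, w_lane D (shift_lane m hl), w_lane D hl,
      show R + m + fI r j = R + fI r j + m by omega] at h0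
    exact D.W1 _ m (by omega) hm2 h0
  · have h0 := h 1 (by omega)
    rw [w_lane D (shift_lane m hl), w_lane D hl,
      show R + m + fI r j = R + fI r j + m by omega] at h0
    exact D.W1 _ m (by omega) hm2 h0

/-- equality of `W` at a lane in the block -/
theorem lane_step (D : Dat r s M) {x m L y R j : ℕ} (h : ∀ i < L, D.w (x + i + m * M) = D.w (x + i))
    (hy : x ≤ y) (hy2 : y < x + L) (hl : IsLane r s M y R j) {n : ℕ} (hn : R + fI r j = n) :
    D.W (n + m) = D.W n := by
  have h0 := h (y - x) (by omega)
  rw [show x + (y - x) = y by omega, w_lane D (shift_lane m hl), w_lane D hl,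
      show R + m + fI r j = R + fI r j + m by omega, hn] at h0
  exact h0

/-- three consecutive equalities, with `m ≥ q + 1` -/
theorem three (D : Dat r s M) (n m : ℕ) (h1 : 2 * r + 2 ≤ m) (h2 : m < 2 * (2 * r + 1))
    (e0 : D.W (n + m) = D.W n) (e1 : D.W (n + 1 + m) = D.W (n + 1))
    (e2 : D.W (n + 2 + m) = D.W (n + 2)) : False := by
  rcases Nat.eq_or_lt_of_le h1 with h | h
  · apply D.W3 n
    intro i hi
    rw [h]
    interval_cases i
    · exact e0
    · exact e1
    · exact e2
  · exact WA D n m (by omega) h2 e0 e1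

theorem fI_odd (r i : ℕ) (hi : 1 ≤ i) : fI r (2 * i - 1) = r + 1 - i := by
  unfold fI; split_ifs <;> omega

theorem fI_even (r i : ℕ) : fI r (2 * i) = 2 * r + 1 - i := by
  unfold fI; split_ifs <;> omega

/-- non-crossing case: seven consecutive lanes -/
theorem seven (D : Dat r s M) (x m R j : ℕ) (hm : 2 * r + 1 ≤ m) (hm2 : m < 2 * (2 * r + 1))
    (h : ∀ i < 14, D.w (x + i + m * M) = D.w (x + i))
    (hj : 1 ≤ j) (hj2 : j + 6 ≤ 2 * r - 1) (hx : x ≤ R * M + col s j)
    (hx2 : R * M + col s (j + 6) < x + 14) : False := by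
  have hr := D.hr
  have c1 := col_lt s j (j + 2) hj (by omega)
  have c2 := col_lt s (j + 2) (j + 4) (by omega) (by omega)
  have c3 := col_lt s (j + 4) (j + 6) (by omega) (by omega)
  have f2 : fI r (j + 2) + 1 = fI r j := by unfold fI; split_ifs <;> omega
  have f4 : fI r (j + 4) + 2 = fI r j := by unfold fI; split_ifs <;> omega
  have f6 : fI r (j + 6) + 3 = fI r j := by unfold fI; split_ifs <;> omega
  have e0 := lane_step D (n := R + fI r (j + 6)) h (y := R * M + col s (j + 6)) (by omega) (by omega)
    ⟨by omega, hj2, rfl⟩ rfl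
  have e1 := lane_step D (n := R + fI r (j + 6) + 1) h (y := R * M + col s (j + 4)) (by omega) (by omega)
    ⟨by omega, by omega, rfl⟩ (by omega)
  have e2 := lane_step D (n := R + fI r (j + 6) + 2) h (y := R * M + col s (j + 2)) (by omega) (by omega)
    ⟨by omega, by omega, rfl⟩ (by omega)
  have e3 := lane_step D (n := R + fI r (j + 6) + 3) h (y := R * M + col s j) (by omega) (by omega)
    ⟨by omega, by omega, rfl⟩ (by omega)
  rcases Nat.eq_or_lt_of_le hm with hq | hq
  · apply D.W2 (R + fI r (j + 6))
    intro i hi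
    rw [hq]
    interval_cases i
    · exact e0
    · exact e1
    · exact e2
    · exact e3
  · exact three D _ m (by omega) hm2 e0 e1 e2

theorem dir_mid (D : Dat r s M) (x m : ℕ) (hm : 2 * r + 1 ≤ m) (hm2 : m < 2 * (2 * r + 1))
    (h : ∀ i < 14, D.w (x + i + m * M) = D.w (x + i)) : False := by
  have hr := D.hr
  have hs := D.hs
  have hMM := D.hM
  have hM := M_ge D
  have hcl := col_last D
  by_cases hreg : ∃ u < 14, ∃ R, IsReg M (x + u) R
  · obtain ⟨u, hu, R, hR⟩ := hreg
    rcases Nat.eq_or_lt_of_le hm with hq | hq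
    · have h0 := h u hu
      rw [w_reg D (shift_reg m hR), w_reg D hR, ← hq] at h0
      exact WB D R h0
    · unfold IsReg at hR
      have c1 : col s 1 = 1 := by unfold col sg; omega
      have c3 : col s 3 = 5 := by unfold col sg; omega
      have c5 : col s 5 ≤ 9 := by unfold col sg; omega
      have f1 : fI r 1 = r := by unfold fI; split_ifs <;> omega
      have f3 : fI r 3 + 1 = r := by unfold fI; split_ifs <;> omega
      have f5 : fI r 5 + 2 = r := by unfold fI; split_ifs <;> omega
      have g1 : fI r (2 * r - 2) = r + 2 := by unfold fI; split_ifs <;> omega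
      have g3 : fI r (2 * r - 4) = r + 3 := by unfold fI; split_ifs <;> omega
      have g5 : fI r (2 * r - 6) = r + 4 := by unfold fI; split_ifs <;> omega
      have d1 : col s (2 * r - 2) + 3 = M := by unfold col sg; omega
      have d3 : M ≤ col s (2 * r - 4) + 7 := by unfold col sg; omega
      have d5 : M ≤ col s (2 * r - 6) + 11 := by unfold col sg; omega
      have d3' : col s (2 * r - 4) < M := by unfold col sg; omega
      have d5' : col s (2 * r - 6) < M := by unfold col sg; omega
      by_cases hu4 : u ≤ 4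
      · have e0 := lane_step D (n := R + fI r 5) h (y := R * M + col s 5) (by omega) (by omega)
          ⟨by omega, by omega, rfl⟩ rfl
        have e1 := lane_step D (n := R + fI r 5 + 1) h (y := R * M + col s 3) (by omega) (by omega)
          ⟨by omega, by omega, rfl⟩ (by omega)
        have e2 := lane_step D (n := R + fI r 5 + 2) h (y := R * M + col s 1) (by omega) (by omega)
          ⟨by omega, by omega, rfl⟩ (by omega)
        exact three D _ m (by omega) hm2 e0 e1 e2
      · -- previous row exists
        have hRpos : 1 ≤ R := by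
          rcases Nat.eq_zero_or_pos R with h0 | h0
          · subst h0; omega
          · exact h0
        obtain ⟨R', rfl⟩ : ∃ R', R = R' + 1 := ⟨R - 1, by omega⟩
        have hRM : (R' + 1) * M = R' * M + M := by rw [Nat.add_mul, Nat.one_mul]
        by_cases hu8 : u ≤ 8
        · have e0 := lane_step D (n := R' + 1 + fI r 3) h (y := (R' + 1) * M + col s 3) (by omega)
            (by omega) ⟨by omega, by omega, rfl⟩ rfl
          have e1 := lane_step D (n := R' + 1 + fI r 3 + 1) h (y := (R' + 1) * M + col s 1) (by omega)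
            (by omega) ⟨by omega, by omega, rfl⟩ (by omega)
          have e2 := lane_step D (n := R' + 1 + fI r 3 + 2) h (y := R' * M + col s (2 * r - 2))
            (by omega) (by omega) ⟨by omega, by omega, rfl⟩ (by omega)
          exact three D _ m (by omega) hm2 e0 e1 e2
        · by_cases hu12 : u ≤ 12
          · have e0 := lane_step D (n := R' + 1 + fI r 1) h (y := (R' + 1) * M + col s 1) (by omega)
              (by omega) ⟨by omega, by omega, rfl⟩ rfl
            have e1 := lane_step D (n := R' + 1 + fI r 1 + 1) h (y := R' * M + col s (2 * r - 2))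
              (by omega) (by omega) ⟨by omega, by omega, rfl⟩ (by omega)
            have e2 := lane_step D (n := R' + 1 + fI r 1 + 2) h (y := R' * M + col s (2 * r - 4))
              (by omega) (by omega) ⟨by omega, by omega, rfl⟩ (by omega)
            exact three D _ m (by omega) hm2 e0 e1 e2
          · have e0 := lane_step D (n := R' + fI r (2 * r - 2)) h (y := R' * M + col s (2 * r - 2))
              (by omega) (by omega) ⟨by omega, by omega, rfl⟩ rfl
            have e1 := lane_step D (n := R' + fI r (2 * r - 2) + 1) h (y := R' * M + col s (2 * r - 4))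
              (by omega) (by omega) ⟨by omega, by omega, rfl⟩ (by omega)
            have e2 := lane_step D (n := R' + fI r (2 * r - 2) + 2) h (y := R' * M + col s (2 * r - 6))
              (by omega) (by omega) ⟨by omega, by omega, rfl⟩ (by omega)
            exact three D _ m (by omega) hm2 e0 e1 e2
  · have hno : ∀ u < 14, ∀ R, ¬ IsReg M (x + u) R := by
      intro u hu R hR
      exact hreg ⟨u, hu, R, hR⟩
    have key : ∀ R j y, x ≤ y → y ≤ x + 1 → IsLane r s M y R j → False := by
      intro R j y hy1 hy2 hl
      obtain ⟨l1, l2, l3⟩ := hl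
      have hc6 : col s (j + 6) ≤ col s j + 12 := by unfold col sg; omega
      by_cases hj6 : j + 6 ≤ 2 * r - 1
      · exact seven D x m R j hm hm2 h l1 hj6 (by omega) (by omega)
      · have hcj : M ≤ col s j + 11 := by
          have : col s (2 * r - 1) ≤ col s j + 10 := by unfold col sg; omega
          omega
        have hcj2 := col_ltM D j l1 l2
        refine hno (R * M + M - x) (by omega) (R + 1) ?_
        unfold IsReg
        rw [Nat.add_mul, Nat.one_mul]
        omega
    rcases lane_in_two D x with ⟨R, j, hl⟩ | ⟨R, j, hl⟩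
    · exact key R j x (le_refl _) (by omega) hl
    · exact key R j (x + 1) (by omega) (le_refl _) hl

end Pool.Agent.Helper35.UR
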