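import Pool.Agent.Helper35.URPair

/-! The word `w` has no short undirected repetitions. -/

namespace Pool.Agent.Helper35.UR

variable {r s M : ℕ}

theorem row_lt {R R' c c' : ℕ} (hc : c < M) (h : R * M + c' < R' * M + c) (h0 : c ≤ c') : R < R' := by
  by_contra hcon
  have : R' * M ≤ R * M := Nat.mul_le_mul_right M (by omega)
  omega

theorem lt_row {R R' : ℕ} (h : R < R') : R * M + M ≤ R' * M := by
  have : (R + 1) * M ≤ R' * M := Nat.mul_le_mul_right M (by omega)
  rw [Nat.add_mul, Nat.one_mul] at this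
  exact this

theorem fI_all (r j : ℕ) (hj : 1 ≤ j) (hj2 : j ≤ 2 * r - 1) (hr : 6 ≤ r) :
    1 ≤ fI r j ∧ fI r j ≤ 2 * r := by
  unfold fI; split_ifs <;> omega

theorem dist (D : Dat r s M) (x t : ℕ) (h1 : 1 ≤ t) (h2 : t < M) : D.w (x + t) ≠ D.w x := by
  intro h
  have hr := D.hr
  have hM := M_ge D
  by_cases hf : Fx r s M x
  · obtain ⟨R, j, hf⟩ := hf
    obtain ⟨R', hf'⟩ := fix_eq D hf h
    obtain ⟨-, -, -, a⟩ := hf
    obtain ⟨-, -, -, b⟩ := hf'
    rcases Nat.lt_trichotomy R R' with h | h | h
    · have := lt_row (M := M) h; omega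
    · subst h; omega
    · have := lt_row (M := M) h; omega
  · have hf2 := not_fix_of_eq D hf h
    rcases cls D x with ⟨R, a⟩ | ⟨R, j, a⟩ | ⟨R, j, a⟩
    · rcases cls D (x + t) with ⟨R', b⟩ | ⟨R', j', b⟩ | ⟨R', j', b⟩
      · unfold IsReg at a b
        rcases Nat.lt_trichotomy R R' with h | h | h
        · have := lt_row (M := M) h; omega
        · subst h; omega
        · have := lt_row (M := M) h; omega
      · rw [w_reg D a, w_lane D b] at h
        obtain ⟨b1, b2, b3⟩ := b
        unfold IsReg at a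
        have hcj := col_ltM D j' b1 b2
        have hcp := col_pos s j' b1
        have hR : R' = R := by
          rcases Nat.lt_trichotomy R R' with h | h | h
          · have := lt_row (M := M) h; omega
          · exact h.symm
          · have := lt_row (M := M) h; omega
        subst hR
        obtain ⟨g1, g2⟩ := fI_all r j' b1 b2 hr
        exact rho_ne D _ _ (by omega) (by omega) h
      · exact hf2 ⟨R', j', b⟩
    · rcases cls D (x + t) with ⟨R', b⟩ | ⟨R', j', b⟩ | ⟨R', j', b⟩
      · rw [w_lane D a, w_reg D b] at h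
        obtain ⟨a1, a2, a3⟩ := a
        unfold IsReg at b
        have hcj := col_ltM D j a1 a2
        have hcp := col_pos s j a1
        obtain ⟨g1, g2⟩ := fI_all r j a1 a2 hr
        rcases rows (M := M) (R := R) (R' := R') (cx := col s j) (cy := 0)
          (by omega) (by omega) (by omega) (by omega) (by omega) with ⟨e, e'⟩ | ⟨e, e'⟩ | ⟨e, e'⟩
        · omega
        · subst e
          exact rho_ne D _ _ (by omega) (by omega) h.symm
        · omega
      · rw [w_lane D a, w_lane D b] at h
        obtain ⟨a1, a2, a3⟩ := a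
        obtain ⟨b1, b2, b3⟩ := b
        have hcj := col_ltM D j a1 a2
        have hcj' := col_ltM D j' b1 b2
        obtain ⟨g1, g2⟩ := fI_all r j a1 a2 hr
        obtain ⟨g3, g4⟩ := fI_all r j' b1 b2 hr
        have hcc : j ≤ j' → col s j ≤ col s j' := by
          intro h; unfold col sg; omega
        rcases rows (M := M) (R := R) (R' := R') (cx := col s j) (cy := col s j')
          (by omega) (by omega) (by omega) (by omega) (by omega) with ⟨e, e'⟩ | ⟨e, e'⟩ | ⟨e, e'⟩
        · have E : R' + fI r j' = R + fI r j := by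
            by_contra hne
            exact W_ne D _ _ hne (by omega) (by omega) h
          have hjj : j ≠ j' := by rintro rfl; omega
          unfold fI at E
          split_ifs at E <;> omega
        · have E : R' + fI r j' = R + fI r j := by
            by_contra hne
            exact W_ne D _ _ hne (by omega) (by omega) h
          have hjj : ¬ j ≤ j' := by intro hle; have := hcc hle; omega
          unfold fI at E
          split_ifs at E <;> omega
        · omega
      · exact hf2 ⟨R', j', b⟩
    · exact hf ⟨R, j, a⟩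

/-- three consecutive non-fixed positions are centred at the register -/
theorem triple (D : Dat r s M) (x : ℕ) (n0 : ¬ Fx r s M x) (n1 : ¬ Fx r s M (x + 1))
    (n2 : ¬ Fx r s M (x + 2)) : ∃ R, PA r s M x R ∧ IsLane r s M (x + 2) (R + 1) 1 := by
  have hr := D.hr
  rcases pair_types D x n0 n1 with ⟨R, h⟩ | ⟨R, h⟩ | ⟨R, j, h⟩
  · exact ⟨R, h, succ_reg D h.2⟩
  · exfalso
    rcases succ_lane D h.2 with ⟨a, -⟩ | a | ⟨-, a, -⟩
    · omega
    · exact n2 ⟨R, 1, a⟩
    · have := seam_bounds D 1 a; omega
  · exfalso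
    obtain ⟨s1, s2, s3, s4⟩ := seam_bounds D j h.2.2
    rcases succ_lane D h.2.1 with ⟨a, -⟩ | a | ⟨-, a, -⟩
    · omega
    · exact n2 ⟨R, j + 1, a⟩
    · have e1 : sg s (j + 1 + 1) = sg s (j + 2) := rfl
      omega

theorem reg_succ_ne (D : Dat r s M) {x R R' : ℕ} (h : IsReg M x R) (h' : IsReg M (x + 1) R') : False := by
  have hM := M_ge D
  unfold IsReg at h h'
  rcases Nat.lt_trichotomy R R' with h | h | h
  · have := lt_row (M := M) h; omega
  · subst h; omega
  · have := lt_row (M := M) h; omega

theorem four (D : Dat r s M) (x : ℕ) : ∃ i < 4, Fx r s M (x + i) := by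
  by_contra hcon
  push Not at hcon
  obtain ⟨R, a, -⟩ := triple D x (hcon 0 (by omega)) (hcon 1 (by omega)) (hcon 2 (by omega))
  obtain ⟨R', b, -⟩ := triple D (x + 1) (hcon 1 (by omega)) (hcon 2 (by omega)) (hcon 3 (by omega))
  exact reg_succ_ne D a.2 b.2

theorem six (D : Dat r s M) (x : ℕ) : ∃ i1 i2, i1 < i2 ∧ i2 < 6 ∧ Fx r s M (x + i1) ∧ Fx r s M (x + i2) := by
  have hr := D.hr
  by_cases h0 : Fx r s M x
  · obtain ⟨i, hi, hf⟩ := four D (x + 1)
    exact ⟨0, 1 + i, by omega, by omega, h0, by rwa [← Nat.add_assoc]⟩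
  by_cases h1 : Fx r s M (x + 1)
  · obtain ⟨i, hi, hf⟩ := four D (x + 2)
    exact ⟨1, 2 + i, by omega, by omega, h1, by rwa [← Nat.add_assoc]⟩
  by_cases h2 : Fx r s M (x + 2)
  · rcases pair_types D x h0 h1 with ⟨R, h⟩ | ⟨R, h⟩ | ⟨R, j, h⟩
    · exfalso
      obtain ⟨R', j', hf⟩ := h2
      have hl := succ_reg D h.2
      have e1 := w_lane D hl
      have e2 := w_fix D hf
      have := D.Wlt (R + 1 + fI r 1)
      have hs1 : sg s j' < j' := by have := hf.1; unfold sg; omega
      rw [show x + 1 + 1 = x + 2 by rfl] at e1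
      omega
    · rcases succ_lane D h.2 with ⟨a, -⟩ | a | ⟨-, a, -⟩
      · omega
      · have b := succ_fix D a
        rcases succ_lane D b with ⟨c, -⟩ | c | ⟨-, c, -⟩
        · omega
        · exact ⟨2, 4, by omega, by omega, h2, ⟨R, 2, c⟩⟩
        · have := seam_bounds D 2 c; omega
      · have := seam_bounds D 1 a; omega
    · obtain ⟨s1, s2, s3, s4⟩ := seam_bounds D j h.2.2
      rcases succ_lane D h.2.1 with ⟨a, -⟩ | a | ⟨-, a, -⟩
      · omega
      · have b := succ_fix D a
        rcases succ_lane D b with ⟨c, -⟩ | c | ⟨-, c, -⟩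
        · omega
        · exact ⟨2, 4, by omega, by omega, h2, ⟨R, j + 1 + 1, c⟩⟩
        · have e1 : sg s (j + 1 + 1 + 1) = sg s (j + 3) := rfl
          have e2 : sg s (j + 1 + 1) = sg s (j + 2) := rfl
          omega
      · have e1 : sg s (j + 1 + 1) = sg s (j + 2) := rfl
        omega
  · obtain ⟨R, a, b⟩ := triple D x h0 h1 h2
    rcases succ_lane D b with ⟨c, -⟩ | c | ⟨-, c, -⟩
    · omega
    · have d := succ_fix D c
      rcases succ_lane D d with ⟨e, -⟩ | e | ⟨-, e, -⟩
      · omega
      · exact ⟨3, 5, by omega, by omega, ⟨R + 1, 1, c⟩, ⟨R + 1, 1 + 1, e⟩⟩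
      · have := seam_bounds D (1 + 1) e; omega
    · have := seam_bounds D 1 c; omega

theorem no_dir (D : Dat r s M) (x L t : ℕ) (h1 : 1 ≤ L) (h2 : L ≤ t) (h3 : t < L * M) :
    ¬ (∀ i < L, D.w (x + t + i) = D.w (x + i)) := by
  intro h
  have hM := M_ge D
  have hr := D.hr
  rcases Nat.eq_or_lt_of_le h1 with hL | hL
  · subst hL
    have := h 0 (by omega)
    exact dist D x t (by omega) (by omega) this
  -- a multiple of `M`
  have mult : ∀ R R', t + R * M = R' * M → False := by
    intro R R' hR
    have hlt : R < R' := by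
      by_contra hcon
      have : R' * M ≤ R * M := Nat.mul_le_mul_right M (by omega)
      omega
    obtain ⟨m, rfl⟩ : ∃ m, R' = R + m := ⟨R' - R, by omega⟩
    rw [Nat.add_mul] at hR
    have ht : t = m * M := by omega
    have hmL : m < L := by
      by_contra hcon
      have : L * M ≤ m * M := Nat.mul_le_mul_right M (by omega)
      omega
    refine dir_mult D x m L (by omega) hmL ?_
    intro i hi
    have := h i hi
    rw [show x + i + m * M = x + t + i by omega]
    exact this
  by_cases hfx : ∃ i < L, Fx r s M (x + i)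
  · obtain ⟨i, hi, R, j, hf⟩ := hfx
    obtain ⟨R', hf'⟩ := fix_eq D hf (h i hi)
    obtain ⟨-, -, -, a⟩ := hf
    obtain ⟨-, -, -, b⟩ := hf'
    exact mult R R' (by omega)
  · push Not at hfx
    have hL4 : L < 4 := by
      by_contra hcon
      obtain ⟨i, hi, hf⟩ := four D x
      exact hfx i (by omega) hf
    by_cases hL2 : L = 2
    · subst hL2
      refine (pair_ne D x (x + t) (hfx 0 (by omega)) (hfx 1 (by omega)) (by omega) (by omega)).1 ⟨?_, ?_⟩
      · exact h 0 (by omega)
      · exact h 1 (by omega)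
    · have hL3 : L = 3 := by omega
      subst hL3
      obtain ⟨R, a, -⟩ := triple D x (hfx 0 (by omega)) (hfx 1 (by omega)) (hfx 2 (by omega))
      obtain ⟨R', b, -⟩ := triple D (x + t) (not_fix_of_eq D (hfx 0 (by omega)) (h 0 (by omega)))
        (not_fix_of_eq D (hfx 1 (by omega)) (h 1 (by omega)))
        (not_fix_of_eq D (hfx 2 (by omega)) (h 2 (by omega)))
      have a2 := a.2
      have b2 := b.2
      unfold IsReg at a2 b2
      exact mult (R + 1) (R' + 1) (by omega)

theorem no_rev (D : Dat r s M) (x L t : ℕ) (h1 : 1 ≤ L) (h2 : L ≤ t) (h3 : t < L * M) :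
    ¬ (∀ i < L, D.w (x + t + i) = D.w (x + (L - 1 - i))) := by
  intro h
  have hM := M_ge D
  have hr := D.hr
  rcases Nat.eq_or_lt_of_le h1 with hL | hL
  · subst hL
    have := h 0 (by omega)
    exact dist D x t (by omega) (by omega) this
  -- mirror of fixed positions
  have mirror : ∀ i < L, ∀ R j, IsFix r s M (x + i) R j →
      ∃ a, IsFix r s M (x + t + (L - 1 - i)) (R + a) j ∧ t + (L - 1) = 2 * i + a * M ∧ 1 ≤ a := by
    intro i hi R j hf
    have e := h (L - 1 - i) (by omega)
    rw [show L - 1 - (L - 1 - i) = i by omega] at e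
    obtain ⟨R', hf'⟩ := fix_eq D hf e
    have a4 := hf.2.2.2
    have b4 := hf'.2.2.2
    have hlt : R < R' := by
      by_contra hcon
      have : R' * M ≤ R * M := Nat.mul_le_mul_right M (by omega)
      omega
    obtain ⟨m, rfl⟩ : ∃ m, R' = R + m := ⟨R' - R, by omega⟩
    rw [Nat.add_mul] at b4
    exact ⟨m, hf', by omega, by omega⟩
  by_cases hfx : ∃ i < L, Fx r s M (x + i)
  · have hL6 : L < 6 := by
      by_contra hcon
      obtain ⟨i1, i2, hi, hi6, ⟨R1, j1, f1⟩, ⟨R2, j2, f2⟩⟩ := six D x
      obtain ⟨a1, -, e1, -⟩ := mirror i1 (by omega) R1 j1 f1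
      obtain ⟨a2, -, e2, -⟩ := mirror i2 (by omega) R2 j2 f2
      have hlt : a2 < a1 := by
        by_contra hcon
        have : a1 * M ≤ a2 * M := Nat.mul_le_mul_right M (by omega)
        omega
      have := lt_row (M := M) hlt
      omega
    obtain ⟨i, hi, R, j, hf⟩ := hfx
    obtain ⟨a, hf', e, ha⟩ := mirror i hi R j hf
    have ha5 : a ≤ 5 := by
      by_contra hcon
      have k1 : 6 * M ≤ a * M := Nat.mul_le_mul_right M (by omega)
      have k2 : L * M ≤ 5 * M := Nat.mul_le_mul_right M (by omega)
      omega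
    have hlane' := succ_fix D hf'
    have hlane := succ_fix D hf
    have hj1 := hf.1
    have hj2 := hf.2.1
    obtain ⟨g1, g2⟩ := fI_all r j (by omega) (by omega) hr
    obtain ⟨g3, g4⟩ := fI_all r (j + 1) (by omega) (by omega) hr
    have hff : fI r j + r = fI r (j + 1) ∨ fI r j = fI r (j + 1) + r + 1 := by
      unfold fI; split_ifs <;> omega
    by_cases hi1 : i + 1 < L
    · have e0 := h (L - 1 - (i + 1)) (by omega)
      rw [show L - 1 - (L - 1 - (i + 1)) = i + 1 by omega] at e0
      have hl : IsLane r s M (x + t + (L - 1 - (i + 1))) (R + a) j := by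
        obtain ⟨c1, c2, c3, c4⟩ := hf'
        exact ⟨c1, by omega, by omega⟩
      rw [w_lane D hl, show x + (i + 1) = x + i + 1 by rfl, w_lane D hlane] at e0
      exact W_ne D _ _ (by omega) (by omega) (by omega) e0
    · have e0 := h (L - 1 - (i - 1)) (by omega)
      rw [show L - 1 - (L - 1 - (i - 1)) = i - 1 by omega] at e0
      have hl : IsLane r s M (x + (i - 1)) R j := by
        obtain ⟨c1, c2, c3, c4⟩ := hf
        exact ⟨c1, by omega, by omega⟩
      rw [show x + t + (L - 1 - (i - 1)) = x + t + (L - 1 - i) + 1 by omega, w_lane D hlane',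
        w_lane D hl] at e0
      exact W_ne D _ _ (by omega) (by omega) (by omega) e0
  · push Not at hfx
    have hL4 : L < 4 := by
      by_contra hcon
      obtain ⟨i, hi, hf⟩ := four D x
      exact hfx i (by omega) hf
    by_cases hL2 : L = 2
    · subst hL2
      refine (pair_ne D x (x + t) (hfx 0 (by omega)) (hfx 1 (by omega)) (by omega) (by omega)).2 ⟨?_, ?_⟩
      · exact h 0 (by omega)
      · exact h 1 (by omega)
    · have hL3 : L = 3 := by omega
      subst hL3
      obtain ⟨R, a, a'⟩ := triple D x (hfx 0 (by omega)) (hfx 1 (by omega)) (hfx 2 (by omega))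
      obtain ⟨R', b, b'⟩ := triple D (x + t) (not_fix_of_eq D (hfx 2 (by omega)) (h 0 (by omega)))
        (not_fix_of_eq D (hfx 1 (by omega)) (h 1 (by omega)))
        (not_fix_of_eq D (hfx 0 (by omega)) (h 2 (by omega)))
      have a2 := a.2
      have b2 := b.2
      unfold IsReg at a2 b2
      have hlt : R < R' := by
        by_contra hcon
        have : (R' + 1) * M ≤ (R + 1) * M := Nat.mul_le_mul_right M (by omega)
        omega
      have hlt3 : R' < R + 3 := by
        by_contra hcon
        have : (R + 1 + 3) * M ≤ (R' + 1) * M := Nat.mul_le_mul_right M (by omega)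
        rw [Nat.add_mul (R + 1) 3] at this
        omega
      have e0 := h 0 (by omega)
      rw [Nat.add_zero, w_lane D b.1, show x + (3 - 1 - 0) = x + 2 by rfl, w_lane D a', fI_one,
        fI_last r hr] at e0
      exact W_ne D _ _ (by omega) (by omega) (by omega) e0

end Pool.Agent.Helper35.UR
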