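import Pool.Agent.Helper35.URCnt
import Pool.Agent.Helper35.URMain

/-! Growth, compactness, and the data for the construction. -/

namespace Pool.Agent.Helper35.UR

section growth
variable (q : ℕ)

/-- number of good codes -/
noncomputable def Ac (n : ℕ) : ℝ := ((G q n).card : ℝ)

theorem Ac_nonneg (n : ℕ) : 0 ≤ Ac q n := Nat.cast_nonneg _

theorem Ac_zero : Ac q 0 = 1 := by
  unfold Ac
  simp [G]

theorem rec_small (hq : 13 ≤ q) (n : ℕ) (hn : n < 3) : 2 * Ac q n ≤ Ac q (n + 1) := by
  have h := recursion q (by omega) n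
  rw [run_empty q n hn, show n + 2 - q = 0 by omega, Finset.range_zero, Finset.sum_empty] at h
  have h' : ((2 * (G q n).card : ℕ) : ℝ) ≤ (((G q (n + 1)).card + 0 + 0 : ℕ) : ℝ) := by exact_mod_cast h
  unfold Ac
  push_cast at h'
  linarith

theorem rec_big (hq : 13 ≤ q) (n : ℕ) (hn : 3 ≤ n) :
    2 * Ac q n ≤ Ac q (n + 1) + 2 * Ac q (n - 4) +
      2 * ∑ e ∈ Finset.range (n + 2 - q), Ac q (n + 2 - q - e) := by
  have h := recursion q (by omega) n
  have h2 := run_bound q n hn
  have h3 : 2 * (G q n).card ≤ (G q (n + 1)).card + 2 * (G q (n - 4)).card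
      + ∑ e ∈ Finset.range (n + 2 - q), 2 * (G q (n + 2 - q - e)).card := by
    refine h.trans ?_
    exact Nat.add_le_add_right (Nat.add_le_add_left h2 _) _
  have h4 : ((2 * (G q n).card : ℕ) : ℝ) ≤ (((G q (n + 1)).card + 2 * (G q (n - 4)).card
      + ∑ e ∈ Finset.range (n + 2 - q), 2 * (G q (n + 2 - q - e)).card : ℕ) : ℝ) := by exact_mod_cast h3
  push_cast at h4
  rw [← Finset.mul_sum] at h4
  unfold Ac
  exact h4

theorem growth (hq : 13 ≤ q) : ∀ n, 7 * Ac q n ≤ 4 * Ac q (n + 1) := by
  intro n
  induction n using Nat.strong_induction_on with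
  | _ n ih =>
    have h0 := Ac_nonneg q n
    rcases Nat.lt_or_ge n 3 with hn | hn
    · have := rec_small q hq n hn
      linarith
    have hpow : ∀ k ≤ n, (7 / 4 : ℝ) ^ k * Ac q (n - k) ≤ Ac q n := by
      intro k
      induction k with
      | zero => intro _; simp
      | succ k ihk =>
        intro hk
        have e1 := ihk (by omega)
        have e2 := ih (n - (k + 1)) (by omega)
        rw [show n - (k + 1) + 1 = n - k by omega] at e2
        have hp : (0 : ℝ) ≤ (7 / 4 : ℝ) ^ k := by positivity
        calc (7 / 4 : ℝ) ^ (k + 1) * Ac q (n - (k + 1))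
            = (7 / 4 : ℝ) ^ k * ((7 / 4) * Ac q (n - (k + 1))) := by ring
          _ ≤ (7 / 4 : ℝ) ^ k * Ac q (n - k) := by
              apply mul_le_mul_of_nonneg_left _ hp
              linarith
          _ ≤ Ac q n := e1
    have hsum : ∀ K ≤ n, ∑ e ∈ Finset.range K, Ac q (K - e) ≤ (7 / 3 : ℝ) * Ac q K := by
      intro K
      induction K with
      | zero => intro _; simp; exact Ac_nonneg q 0
      | succ K ihK =>
        intro hK
        rw [Finset.sum_range_succ']
        have e1 := ihK (by omega)
        have e2 := ih K (by omega)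
        have e3 : ∑ k ∈ Finset.range K, Ac q (K + 1 - (k + 1)) = ∑ e ∈ Finset.range K, Ac q (K - e) := by
          apply Finset.sum_congr rfl
          intro k _
          rw [show K + 1 - (k + 1) = K - k by omega]
        rw [e3, Nat.sub_zero]
        linarith
    have hrec := rec_big q hq n hn
    rcases Nat.eq_or_lt_of_le hn with h3 | h3
    · subst h3
      rw [show 3 + 2 - q = 0 by omega, Finset.range_zero, Finset.sum_empty] at hrec
      rw [show 3 - 4 = 0 by rfl, Ac_zero] at hrec
      have r0 := rec_small q hq 0 (by omega)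
      have r1 := rec_small q hq 1 (by omega)
      have r2 := rec_small q hq 2 (by omega)
      rw [Ac_zero] at r0
      norm_num at r0 r1 r2 hrec ⊢
      linarith
    · have p4 := hpow 4 (by omega)
      have hK : ∑ e ∈ Finset.range (n + 2 - q), Ac q (n + 2 - q - e) ≤
          (7 / 3 : ℝ) * (4194304 / 1977326743 * Ac q n) := by
        rcases Nat.eq_zero_or_pos (n + 2 - q) with hz | hz
        · rw [hz, Finset.range_zero, Finset.sum_empty]
          positivity
        · have e1 := hsum (n + 2 - q) (by omega)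
          have e2 := hpow (q - 2) (by omega)
          rw [show n - (q - 2) = n + 2 - q by omega] at e2
          have e3 : (7 / 4 : ℝ) ^ 11 ≤ (7 / 4 : ℝ) ^ (q - 2) :=
            pow_le_pow_right₀ (by norm_num) (by omega)
          have e4 : (7 / 4 : ℝ) ^ 11 * Ac q (n + 2 - q) ≤ Ac q n :=
            (mul_le_mul_of_nonneg_right e3 (Ac_nonneg q _)).trans e2
          norm_num at e4
          linarith
      norm_num at p4
      linarith

theorem Ac_pos (hq : 13 ≤ q) : ∀ n, 0 < Ac q n := by
  intro n
  induction n with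
  | zero => rw [Ac_zero]; norm_num
  | succ n ih => have := growth q hq n; linarith

theorem G_nonempty (hq : 13 ≤ q) (n : ℕ) : (G q n).Nonempty := by
  have := Ac_pos q hq n
  unfold Ac at this
  rw [← Finset.card_pos]
  exact_mod_cast this

/-- infinitely extendable codes -/
def Extb (n : ℕ) (c : List Bool) : Prop := ∀ N, ∃ C ∈ G q (n + N), C.drop N = c

theorem Extb_succ (n : ℕ) (c : List Bool) (h : Extb q n c) : ∃ b, Extb q (n + 1) (b :: c) := by
  by_contra hcon
  push Not at hcon
  have ht := hcon true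
  have hf := hcon false
  unfold Extb at ht hf
  push Not at ht hf
  obtain ⟨N1, h1⟩ := ht
  obtain ⟨N2, h2⟩ := hf
  obtain ⟨C, hC, hd⟩ := h (N1 + N2 + 1)
  have hlen := G_length q _ C hC
  -- split off
  have hd2 : (C.drop (N1 + N2)).drop 1 = c := by
    rw [List.drop_drop]; exact hd
  have hl : (C.drop (N1 + N2)).length = n + 1 := by
    rw [List.length_drop]; omega
  obtain ⟨b, c', hbc⟩ : ∃ b c', C.drop (N1 + N2) = b :: c' := by
    rcases hX : C.drop (N1 + N2) with _ | ⟨b, c'⟩
    · rw [hX] at hl; simp at hl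
    · exact ⟨b, c', rfl⟩
  have hcc : c' = c := by rw [hbc] at hd2; simpa using hd2
  subst hcc
  cases b
  · apply h2 (C.drop N1) _ _
    · apply G_drop q N1
      rw [show n + 1 + N2 + N1 = n + (N1 + N2 + 1) by omega]; exact hC
    · rw [List.drop_drop]; exact hbc
  · apply h1 (C.drop N2) _ _
    · apply G_drop q N2
      rw [show n + 1 + N1 + N2 = n + (N1 + N2 + 1) by omega]; exact hC
    · rw [List.drop_drop, Nat.add_comm N2 N1]; exact hbc

theorem exists_code (hq : 13 ≤ q) : ∃ Γ : ℕ → List Bool, ∃ γ : ℕ → Bool,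
    Γ 0 = [] ∧ (∀ n, Γ (n + 1) = γ n :: Γ n) ∧ ∀ n, Γ n ∈ G q n := by
  classical
  let nxt : (n : ℕ) → List Bool → Bool := fun n c => if h : ∃ b, Extb q (n + 1) (b :: c) then h.choose else true
  let Γ : ℕ → List Bool := fun n => Nat.rec [] (fun n c => nxt n c :: c) n
  have hΓ : ∀ n, Extb q n (Γ n) := by
    intro n
    induction n with
    | zero =>
      intro N
      obtain ⟨C, hC⟩ := G_nonempty q hq N
      refine ⟨C, by rwa [Nat.zero_add], ?_⟩
      have := G_length q N C hC
      rw [← this]
      simp [Γ]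
    | succ n ih =>
      have h := Extb_succ q n (Γ n) ih
      have e : Γ (n + 1) = nxt n (Γ n) :: Γ n := rfl
      have e2 : nxt n (Γ n) = h.choose := by simp only [nxt]; rw [dif_pos h]
      rw [e, e2]
      exact h.choose_spec
  refine ⟨Γ, fun n => nxt n (Γ n), rfl, fun n => rfl, ?_⟩
  intro n
  obtain ⟨C, hC, hd⟩ := hΓ n 0
  simp at hd
  rw [← hd]
  simpa using hC

end growth

/-- the required data exist -/
theorem exists_dat (r s M : ℕ) (hr : 6 ≤ r) (hs : 3 * s + 5 ≤ 2 * r) (hM : M + s + 2 = 4 * r) :
    Nonempty (Dat r s M) := by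
  obtain ⟨q, hqr⟩ : ∃ q, q = 2 * r + 1 := ⟨_, rfl⟩
  have hq : 13 ≤ q := by omega
  obtain ⟨Γ, γ, h0, hsucc, hG⟩ := exists_code q hq
  have hlen : ∀ n, (Γ n).length = n := fun n => G_length q n _ (hG n)
  let V : ℕ → Fin (q + 1) := fun n => U q (Γ (n + 1)) 0
  have hV : ∀ n i, U q (Γ (n + 1 + i)) i = V n := by
    intro n i
    induction i with
    | zero => rfl
    | succ i ih =>
      rw [show n + 1 + (i + 1) = (n + 1 + i) + 1 by omega, hsucc]
      show U q (Γ (n + 1 + i)) i = V n
      exact ih
  have hW1 : ∀ n d, 0 < d → d < q → V (n + d) ≠ V n := by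
    intro n d hd hd2 h
    have := U_ne q (by omega) (Γ (n + 1 + d)) 0 d hd hd2
    rw [Nat.zero_add, hV n d] at this
    apply this
    rw [← h]
    show U q (Γ (n + d + 1)) 0 = _
    rw [show n + d + 1 = n + 1 + d by omega]
  have hfalse : ∀ p, γ (p + q) = false → V (p + q) = V p := by
    intro p hp
    show U q (Γ (p + q + 1)) 0 = V p
    rw [hsucc, hp]
    show U q (Γ (p + q)) (q - 1) = V p
    rw [← hV p (q - 1), show p + 1 + (q - 1) = p + q by omega]
  have htrue : ∀ p, γ (p + q) = true → V (p + q) ≠ V p := by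
    intro p hp h
    have h1 : U q (γ (p + q) :: Γ (p + q)) 0 = U q (Γ (p + q)) (q - 1) := by
      rw [← hsucc]
      show V (p + q) = _
      rw [h, ← hV p (q - 1), show p + 1 + (q - 1) = p + q by omega]
    have := U_cons_zero_false q _ _ (by omega) h1
    rw [hp] at this
    simp at this
  have hrun : ∀ p b, ¬ (γ p = b ∧ γ (p + 1) = b ∧ γ (p + 2) = b ∧ γ (p + 3) = b) := by
    rintro p b ⟨e0, e1, e2, e3⟩
    have hm := hG (p + 3 + 1)
    rw [mem_G_succ] at hm
    apply hm.2.1
    refine ⟨b, Γ p, ?_⟩
    rw [hsucc, show p + 3 = p + 2 + 1 by rfl, hsucc, show p + 2 = p + 1 + 1 by rfl, hsucc, hsucc]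
    rw [show p + 1 + 1 + 1 = p + 3 by rfl, show p + 1 + 1 = p + 2 by rfl, e0, e1, e2, e3]
  have hW2 : ∀ n, ¬ ∀ i < 4, V (n + i + q) = V (n + i) := by
    intro n h
    apply hrun (n + q) false
    have key : ∀ i < 4, γ (n + i + q) = false := by
      intro i hi
      by_contra hne
      exact htrue (n + i) (by simpa using hne) (h i hi)
    refine ⟨by simpa using key 0 (by omega), ?_, ?_, ?_⟩
    · have := key 1 (by omega); rwa [show n + q + 1 = n + 1 + q by omega]
    · have := key 2 (by omega); rwa [show n + q + 2 = n + 2 + q by omega]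
    · have := key 3 (by omega); rwa [show n + q + 3 = n + 3 + q by omega]
  have hW3 : ∀ n, ¬ ∀ i < 3, V (n + i + (q + 1)) = V (n + i) := by
    intro n h
    apply hrun (n + q) true
    have keyA : ∀ i < 3, γ (n + i + q) = true := by
      intro i hi
      by_contra hne
      have h1 := hfalse (n + i) (by simpa using hne)
      have h2 := h i hi
      exact hW1 (n + i + q) 1 (by omega) (by omega) (by rw [show n + i + q + 1 = n + i + (q + 1) by omega, h2, h1])
    have keyB : ∀ i < 3, γ (n + i + 1 + q) = true := by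
      intro i hi
      by_contra hne
      have h1 := hfalse (n + i + 1) (by simpa using hne)
      have h2 := h i hi
      rw [show n + i + (q + 1) = n + i + 1 + q by omega, h1] at h2
      exact hW1 (n + i) 1 (by omega) (by omega) h2
    refine ⟨by simpa using keyA 0 (by omega), ?_, ?_, ?_⟩
    · have := keyA 1 (by omega); rwa [show n + q + 1 = n + 1 + q by omega]
    · have := keyA 2 (by omega); rwa [show n + q + 2 = n + 2 + q by omega]
    · have := keyB 2 (by omega); rwa [show n + q + 3 = n + 2 + 1 + q by omega]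
  have hW4 : ∀ e n m, (e + 1) * (2 * q - 4) + 4 ≤ m → m < (e + 2) * (2 * q - 4) + 4 →
      ¬ ∀ i < q + e, V (n + i + m) = V (n + i) := by
    intro e n m h1 h2 h
    have hm := hG (n + m + q + e - 1 + 1)
    rw [mem_G_succ] at hm
    apply hm.2.2 e (by rw [hlen]; omega)
    refine ⟨m, h1, h2, ?_⟩
    intro i hi
    have a1 := hV (n + m + q + e - 1 - i) i
    have a2 := hV (n + q + e - 1 - i) (i + m)
    rw [show n + m + q + e - 1 - i + 1 + i = n + m + q + e - 1 + 1 by omega] at a1
    rw [show n + q + e - 1 - i + 1 + (i + m) = n + m + q + e - 1 + 1 by omega] at a2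
    rw [a1, a2]
    have := h (q + e - 1 - i) (by omega)
    rw [show n + (q + e - 1 - i) + m = n + m + q + e - 1 - i by omega,
      show n + (q + e - 1 - i) = n + q + e - 1 - i by omega] at this
    exact this
  let P : ℕ → Fin (q + 1) := fun R => miss q (fun i => V (R + i))
  have hP : ∀ R i, i < q → V (R + i) ≠ P R := fun R i hi => miss_spec q (fun i => V (R + i)) i hi
  refine ⟨{
    W := fun n => (V n).val
    rho := fun R => (P R).val
    hr := hr
    hs := hs
    hM := hM
    W1 := ?_
    Wlt := ?_
    rholt := ?_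
    rhomiss := ?_
    W2 := ?_
    W3 := ?_
    W4 := ?_ }⟩
  · intro n d h1 h2 h
    exact hW1 n d h1 (by omega) (Fin.ext h)
  · intro n; have := (V n).isLt; omega
  · intro n; have := (P n).isLt; omega
  · intro R i hi h
    exact hP R i (by omega) (Fin.ext h)
  · intro n h
    apply hW2 n
    intro i hi
    have := h i hi
    rw [← hqr] at this
    exact Fin.ext this
  · intro n h
    apply hW3 n
    intro i hi
    have := h i hi
    rw [show 2 * r + 2 = q + 1 by omega] at this
    exact Fin.ext this
  · intro e n m h1 h2 h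
    rw [show 4 * r - 2 = 2 * q - 4 by omega] at h1 h2
    apply hW4 e n m h1 h2
    intro i hi
    have := h i (by omega)
    exact Fin.ext this

end Pool.Agent.Helper35.UR
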