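import Pool.Agent.Helper35.URExist

/-! Index form of the two bounds. -/

namespace Pool.Agent.Helper35.UR

/-- directed repetition -/
def Rep {A : Type} (w : ℕ → A) (i L t : ℕ) : Prop := ∀ j < L, w (i + t + j) = w (i + j)
/-- reversed repetition -/
def RevRep {A : Type} (w : ℕ → A) (i L t : ℕ) : Prop := ∀ j < L, w (i + t + j) = w (i + (L - 1 - j))

/-- Upper bound: for every `k ≥ 22` there is a word over `k` letters in which all undirected
repetitions satisfy `t ≥ L (k - 2)`. -/
theorem upper (k : ℕ) (hk : 22 ≤ k) : ∃ w : ℕ → Fin k, ∀ i L t, 1 ≤ L → L ≤ t → t < L * (k - 2) →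
    ¬ Rep w i L t ∧ ¬ RevRep w i L t := by
  obtain ⟨s, hs⟩ : ∃ s, s = (4 - k % 4) % 4 := ⟨_, rfl⟩
  obtain ⟨r, hr⟩ : ∃ r, r = (k + s) / 4 := ⟨_, rfl⟩
  obtain ⟨D⟩ := exists_dat r s (k - 2) (by omega) (by omega) (by omega)
  have hr6 := D.hr
  have hs2 := D.hs
  have hM := D.hM
  have hlt : ∀ x, D.w x < k := by
    intro x
    rcases cls D x with ⟨R, h⟩ | ⟨R, j, h⟩ | ⟨R, j, h⟩
    · rw [w_reg D h]; have := D.rholt R; omega
    · rw [w_lane D h]; have := D.Wlt (R + fI r j); omega
    · rw [w_fix D h]
      obtain ⟨h1, h2, h3, h4⟩ := h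
      unfold sg at *
      omega
  refine ⟨fun x => ⟨D.w x, hlt x⟩, ?_⟩
  intro i L t h1 h2 h3
  constructor
  · intro h
    apply no_dir D i L t h1 h2 h3
    intro j hj
    exact congrArg Fin.val (h j hj)
  · intro h
    apply no_rev D i L t h1 h2 h3
    intro j hj
    exact congrArg Fin.val (h j hj)

/-- Lower bound -/
theorem lower (k : ℕ) (hk : 4 ≤ k) (w : ℕ → Fin k) : ∃ i L t, 1 ≤ L ∧ L ≤ t ∧ t ≤ L * (k - 2) ∧
    (Rep w i L t ∨ RevRep w i L t) := by
  by_contra hcon
  push Not at hcon
  obtain ⟨K, hK⟩ : ∃ K, k = K + 1 := ⟨k - 1, by omega⟩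
  have ha : ∀ n d, 1 ≤ d → d < K → w (n + d) ≠ w n := by
    intro n d h1 h2 h
    apply (hcon n 1 d (le_refl _) h1 (by omega)).1
    intro j hj
    have : j = 0 := by omega
    subst this
    simpa using h
  have hb : ∀ n t, 2 ≤ t → t ≤ K + 1 → ¬ (w (n + t) = w n ∧ w (n + t + 1) = w (n + 1)) := by
    rintro n t h1 h2 ⟨e0, e1⟩
    apply (hcon n 2 t (by omega) h1 (by omega)).1
    intro j hj
    interval_cases j
    · simpa using e0
    · exact e1
  have hc : ∀ n t, 2 ≤ t → t ≤ K + 1 → ¬ (w (n + t) = w (n + 1) ∧ w (n + t + 1) = w n) := by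
    rintro n t h1 h2 ⟨e0, e1⟩
    apply (hcon n 2 t (by omega) h1 (by omega)).2
    intro j hj
    interval_cases j
    · simpa using e0
    · simpa using e1
  -- surjectivity of a full window
  have hfull : ∀ n, w (n + K) ≠ w n → ∀ z, ∃ i ≤ K, w (n + i) = z := by
    intro n hn z
    let f : Fin k → Fin k := fun i => w (n + i.val)
    have hinj : Function.Injective f := by
      intro a b hab
      have key : ∀ p p' : ℕ, p < p' → p' ≤ K → w (n + p) = w (n + p') → False := by
        intro p p' hp hp' h
        by_cases hq : p' - p < K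
        · have := ha (n + p) (p' - p) (by omega) hq
          rw [show n + p + (p' - p) = n + p' by omega] at this
          exact this h.symm
        · have h0 : p = 0 := by omega
          have h1 : p' = K := by omega
          subst h0; subst h1
          exact hn (by simpa using h.symm)
      have ha' := a.isLt
      have hb' := b.isLt
      rcases Nat.lt_trichotomy a.val b.val with h | h | h
      · exact (key _ _ h (by omega) hab).elim
      · exact Fin.ext h
      · exact (key _ _ h (by omega) hab.symm).elim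
    have hsurj := Finite.surjective_of_injective hinj
    obtain ⟨a, ha'⟩ := hsurj z
    exact ⟨a.val, by have := a.isLt; omega, ha'⟩
  have L1 : ∀ n, w (n + K) ≠ w n → w (n + K + 1) = w (n + 1) ∨ w (n + K + 1) = w n := by
    intro n hn
    obtain ⟨i, hi, hz⟩ := hfull n hn (w (n + K + 1))
    by_cases h2 : 2 ≤ i
    · exfalso
      have := ha (n + i) (K + 1 - i) (by omega) (by omega)
      rw [show n + i + (K + 1 - i) = n + K + 1 by omega] at this
      exact this hz.symm
    · have : i = 0 ∨ i = 1 := by omega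
      rcases this with rfl | rfl
      · right; simpa using hz.symm
      · left; exact hz.symm
  have L2 : ∀ n, w (n + K) ≠ w n → w (n + K + 1) = w (n + 1) →
      w (n + K + 2) = w (n + 2) ∨ w (n + K + 2) = w n := by
    intro n hn h1
    obtain ⟨i, hi, hz⟩ := hfull n hn (w (n + K + 2))
    by_cases h3 : 3 ≤ i
    · exfalso
      have := ha (n + i) (K + 2 - i) (by omega) (by omega)
      rw [show n + i + (K + 2 - i) = n + K + 2 by omega] at this
      exact this hz.symm
    · have : i = 0 ∨ i = 1 ∨ i = 2 := by omega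
      rcases this with rfl | rfl | rfl
      · right; simpa using hz.symm
      · exfalso
        rw [← h1] at hz
        have := ha (n + K + 1) 1 (le_refl _) (by omega)
        exact this hz.symm
      · left; exact hz.symm
  have hmain : ∀ n, w (n + K) ≠ w n → w (n + K + 1) = w (n + 1) → False := by
    intro n hn h1
    rcases L2 n hn h1 with h2 | h2
    · refine hb (n + 1) K (by omega) (by omega) ⟨?_, ?_⟩
      · rw [show n + 1 + K = n + K + 1 by omega]; exact h1
      · rw [show n + 1 + K + 1 = n + K + 2 by omega]; exact h2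
    · exact hc n (K + 1) (by omega) (by omega) ⟨h1, h2⟩
  have hstart : ∀ n, w (n + K) ≠ w n → False := by
    intro n hn
    rcases L1 n hn with h1 | h1
    · exact hmain n hn h1
    · have hn1 : w (n + 1 + K) ≠ w (n + 1) := by
        rw [show n + 1 + K = n + K + 1 by omega, h1]
        exact (ha n 1 (le_refl _) (by omega)).symm
      rcases L1 (n + 1) hn1 with h2 | h2
      · exact hmain (n + 1) hn1 h2
      · refine hb n (K + 1) (by omega) (by omega) ⟨h1, ?_⟩
        rw [show n + (K + 1) + 1 = n + 1 + K + 1 by omega]; exact h2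
  have h0 : w (0 + K) = w 0 := by
    by_contra h; exact hstart 0 h
  have h1 : w (0 + 1 + K) = w (0 + 1) := by
    by_contra h; exact hstart (0 + 1) h
  refine hb 0 K (by omega) (by omega) ⟨h0, ?_⟩
  rw [show 0 + K + 1 = 0 + 1 + K by omega]; exact h1

end Pool.Agent.Helper35.UR
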