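import Mathlib

/-! Layout of lanes and columns for the two-speed construction. -/

namespace Pool.Agent.Helper35.UR

/-- number of seams up to lane `j` -/
def sg (s j : ℕ) : ℕ := min s ((j - 2) / 3)

/-- column of lane `j` -/
def col (s j : ℕ) : ℕ := 2 * j - 1 - sg s j

/-- offset of the letter of `W` read in lane `j` -/
def fI (r j : ℕ) : ℕ := if j % 2 = 1 then r + 1 - (j + 1) / 2 else 2 * r + 1 - j / 2

/-- The data of the construction. -/
structure Dat (r s M : ℕ) where
  W : ℕ → ℕ
  rho : ℕ → ℕ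
  hr : 6 ≤ r
  hs : 3 * s + 5 ≤ 2 * r
  hM : M + s + 2 = 4 * r
  W1 : ∀ n d, 0 < d → d < 2 * r + 1 → W (n + d) ≠ W n
  Wlt : ∀ n, W n ≤ 2 * r + 1
  rholt : ∀ R, rho R ≤ 2 * r + 1
  rhomiss : ∀ R i, i < 2 * r + 1 → W (R + i) ≠ rho R
  W2 : ∀ n, ¬ ∀ i < 4, W (n + i + (2 * r + 1)) = W (n + i)
  W3 : ∀ n, ¬ ∀ i < 3, W (n + i + (2 * r + 2)) = W (n + i)
  W4 : ∀ e n m, (e + 1) * (4 * r - 2) + 4 ≤ m → m < (e + 2) * (4 * r - 2) + 4 →
    ¬ ∀ i < 2 * r + 1 + e, W (n + i + m) = W (n + i)

/-- last lane weakly to the left of column `c` -/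
def jl (r s c : ℕ) : ℕ := Nat.findGreatest (fun j => col s j ≤ c) (2 * r - 1)

variable {r s M : ℕ}

/-- the letter at position `x` -/
def Dat.w (D : Dat r s M) (x : ℕ) : ℕ :=
  if x % M = 0 then D.rho (x / M)
  else if col s (jl r s (x % M)) = x % M then D.W (x / M + fI r (jl r s (x % M)))
  else 2 * r + 1 + jl r s (x % M) - sg s (jl r s (x % M))

/-- register position -/
def IsReg (M x R : ℕ) : Prop := x = R * M
/-- lane position -/
def IsLane (r s M x R j : ℕ) : Prop := 1 ≤ j ∧ j ≤ 2 * r - 1 ∧ x = R * M + col s j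
/-- fixed position -/
def IsFix (r s M x R j : ℕ) : Prop :=
  1 ≤ j ∧ j < 2 * r - 1 ∧ sg s (j + 1) = sg s j ∧ x = R * M + col s j + 1

theorem sg_spec (s j : ℕ) : (sg s j = (j - 2) / 3 ∧ (j - 2) / 3 ≤ s) ∨ (sg s j = s ∧ s < (j - 2) / 3) := by
  unfold sg; omega

theorem sg_succ (s j : ℕ) : sg s (j + 1) = sg s j ∨ sg s (j + 1) = sg s j + 1 := by
  unfold sg; omega

theorem col_succ (s j : ℕ) (hj : 1 ≤ j) :
    (sg s (j + 1) = sg s j ∧ col s (j + 1) = col s j + 2) ∨
    (sg s (j + 1) = sg s j + 1 ∧ col s (j + 1) = col s j + 1) := by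
  unfold col sg; omega

theorem col_pos (s j : ℕ) (hj : 1 ≤ j) : 1 ≤ col s j := by
  unfold col sg; omega

theorem col_lt (s i j : ℕ) (hi : 1 ≤ i) (hij : i < j) : col s i < col s j := by
  unfold col sg; omega

theorem col_last (D : Dat r s M) : col s (2 * r - 1) = M - 1 := by
  have := D.hr; have := D.hs; have := D.hM
  unfold col sg; omega

theorem col_ltM (D : Dat r s M) (j : ℕ) (hj : 1 ≤ j) (hj2 : j ≤ 2 * r - 1) : col s j < M := by
  have := D.hr; have := D.hs; have := D.hM
  unfold col sg; omega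

theorem jl_lane (D : Dat r s M) (j : ℕ) (hj : 1 ≤ j) (hj2 : j ≤ 2 * r - 1) : jl r s (col s j) = j := by
  unfold jl
  rw [Nat.findGreatest_eq_iff]
  refine ⟨hj2, fun _ => le_refl _, fun n hn hn2 => ?_⟩
  have := col_lt s j n hj hn
  omega

theorem jl_fix (D : Dat r s M) (j : ℕ) (hj : 1 ≤ j) (hj2 : j < 2 * r - 1) (hs : sg s (j + 1) = sg s j) :
    jl r s (col s j + 1) = j := by
  unfold jl
  rw [Nat.findGreatest_eq_iff]
  refine ⟨by omega, fun _ => by omega, fun n hn hn2 => ?_⟩
  rcases Nat.lt_or_ge (j + 1) n with h | h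
  · have h1 := col_lt s (j + 1) n (by omega) h
    rcases col_succ s j hj with h2 | h2 <;> omega
  · have : n = j + 1 := by omega
    subst this
    rcases col_succ s j hj with h2 | h2 <;> omega

theorem M_ge (D : Dat r s M) : 20 ≤ M := by
  have := D.hr; have := D.hs; have := D.hM
  omega

theorem w_reg (D : Dat r s M) {x R : ℕ} (h : IsReg M x R) : D.w x = D.rho R := by
  have hM := M_ge D
  unfold IsReg at h
  subst h
  unfold Dat.w
  rw [if_pos (Nat.mul_mod_left R M), Nat.mul_div_cancel _ (by omega)]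

theorem div_mod_aux {M R c : ℕ} (hM : 0 < M) (hc : c < M) : (R * M + c) / M = R ∧ (R * M + c) % M = c := by
  constructor
  · rw [Nat.mul_comm, Nat.mul_add_div hM, Nat.div_eq_of_lt hc, Nat.add_zero]
  · rw [Nat.mul_comm, Nat.mul_add_mod, Nat.mod_eq_of_lt hc]

theorem w_lane (D : Dat r s M) {x R j : ℕ} (h : IsLane r s M x R j) : D.w x = D.W (R + fI r j) := by
  have hM := M_ge D
  obtain ⟨h1, h2, h3⟩ := h
  subst h3
  have hc := col_ltM D j h1 h2
  have hp := col_pos s j h1
  obtain ⟨e1, e2⟩ := div_mod_aux (R := R) (by omega : 0 < M) hc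
  unfold Dat.w
  rw [e1, e2, jl_lane D j h1 h2, if_neg (by omega), if_pos rfl]

theorem w_fix (D : Dat r s M) {x R j : ℕ} (h : IsFix r s M x R j) :
    D.w x = 2 * r + 1 + j - sg s j := by
  have hM := M_ge D
  obtain ⟨h1, h2, h3, h4⟩ := h
  subst h4
  have hc : col s j + 1 < M := by
    have := col_ltM D (j + 1) (by omega) (by omega)
    rcases col_succ s j h1 with h | h <;> omega
  obtain ⟨e1, e2⟩ := div_mod_aux (R := R) (by omega : 0 < M) hc
  unfold Dat.w
  rw [Nat.add_assoc, e1, e2, jl_fix D j h1 h2 h3, if_neg (by omega), if_neg (by omega)]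

/-- classification of positions -/
theorem cls (D : Dat r s M) (x : ℕ) :
    (∃ R, IsReg M x R) ∨ (∃ R j, IsLane r s M x R j) ∨ (∃ R j, IsFix r s M x R j) := by
  have hM := M_ge D
  have hx : x = (x / M) * M + x % M := by
    have := Nat.div_add_mod x M
    rw [Nat.mul_comm]; exact this.symm
  have hc : x % M < M := Nat.mod_lt _ (by omega)
  rcases Nat.eq_zero_or_pos (x % M) with h0 | h0
  · left
    exact ⟨x / M, by unfold IsReg; omega⟩
  · right
    set c := x % M with hcdef
    set j := jl r s c with hj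
    have hj1 : 1 ≤ j := by
      have h1 : col s 1 ≤ c := by
        have : col s 1 = 1 := by unfold col sg; omega
        omega
      exact Nat.le_findGreatest (by have := D.hr; omega) h1
    have hjN : j ≤ 2 * r - 1 := Nat.findGreatest_le _
    have hjc : col s j ≤ c := by
      have := @Nat.findGreatest_spec 1 (fun j => col s j ≤ c) _ (2 * r - 1) (by have := D.hr; omega)
        (by show col s 1 ≤ c; have : col s 1 = 1 := by unfold col sg; omega
            omega)
      exact this
    rcases Nat.eq_or_lt_of_le hjc with he | hl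
    · left
      exact ⟨x / M, j, hj1, hjN, by omega⟩
    · right
      have hjN2 : j < 2 * r - 1 := by
        rcases Nat.eq_or_lt_of_le hjN with h | h
        · have := col_last D
          rw [h] at hl
          omega
        · exact h
      have hnext : c < col s (j + 1) := by
        by_contra hcon
        have := Nat.le_findGreatest (P := fun j => col s j ≤ c) (n := 2 * r - 1) (m := j + 1)
          (by omega) (by show col s (j+1) ≤ c; omega)
        have h3 : jl r s c = Nat.findGreatest (fun j => col s j ≤ c) (2 * r - 1) := rfl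
        omega
      rcases col_succ s j hj1 with h | h
      · exact ⟨x / M, j, hj1, hjN2, h.1, by omega⟩
      · omega

end Pool.Agent.Helper35.UR
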