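import Pool.Agent.Helper35.URBig

/-! Analysis of adjacent pairs of non-fixed letters. -/

namespace Pool.Agent.Helper35.UR

variable {r s M : ℕ}

theorem W_ne (D : Dat r s M) (a b : ℕ) (hab : a ≠ b) (h1 : a < b + (2 * r + 1))
    (h2 : b < a + (2 * r + 1)) : D.W a ≠ D.W b := by
  rcases Nat.lt_or_gt_of_ne hab with h | h
  · have := D.W1 a (b - a) (by omega) (by omega)
    rw [show a + (b - a) = b by omega] at this
    exact this.symm
  · have := D.W1 b (a - b) (by omega) (by omega)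
    rwa [show b + (a - b) = a by omega] at this

theorem rho_ne (D : Dat r s M) (R n : ℕ) (h1 : R ≤ n) (h2 : n < R + (2 * r + 1)) :
    D.W n ≠ D.rho R := by
  have := D.rhomiss R (n - R) (by omega)
  rwa [show R + (n - R) = n by omega] at this

/-- type A: last lane followed by the register -/
def PA (r s M x R : ℕ) : Prop := IsLane r s M x R (2 * r - 1) ∧ IsReg M (x + 1) (R + 1)
/-- type B: register followed by the first lane -/
def PB (r s M x R : ℕ) : Prop := IsReg M x R ∧ IsLane r s M (x + 1) R 1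
/-- type C: seam -/
def PC (r s M x R j : ℕ) : Prop :=
  IsLane r s M x R j ∧ IsLane r s M (x + 1) R (j + 1) ∧ sg s (j + 1) = sg s j + 1

/-- fixed position predicate -/
def Fx (r s M x : ℕ) : Prop := ∃ R j, IsFix r s M x R j

theorem pair_types (D : Dat r s M) (x : ℕ) (h1 : ¬ Fx r s M x) (h2 : ¬ Fx r s M (x + 1)) :
    (∃ R, PA r s M x R) ∨ (∃ R, PB r s M x R) ∨ (∃ R j, PC r s M x R j) := by
  rcases cls D x with ⟨R, h⟩ | ⟨R, j, h⟩ | ⟨R, j, h⟩
  · exact Or.inr (Or.inl ⟨R, h, succ_reg D h⟩)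
  · rcases succ_lane D h with ⟨h3, h4⟩ | h3 | ⟨h3, h4, h5⟩
    · subst h3; exact Or.inl ⟨R, h, h4⟩
    · exact absurd ⟨R, j, h3⟩ h2
    · exact Or.inr (Or.inr ⟨R, j, h, h5, h4⟩)
  · exact absurd ⟨R, j, h⟩ h1

theorem seam_bounds (D : Dat r s M) (j : ℕ) (h : sg s (j + 1) = sg s j + 1) :
    4 ≤ j ∧ j + 1 ≤ 2 * r - 3 ∧ sg s (j + 3) = sg s (j + 2) ∧ sg s (j + 2) = sg s (j + 1) := by
  have := D.hr
  have := D.hs
  unfold sg at *
  omega

theorem rows {R R' cx cy : ℕ} (hM : 0 < M) (hcx : cx < M) (hcy : cy < M)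
    (h1 : R * M + cx ≤ R' * M + cy) (h2 : R' * M + cy < R * M + cx + 2 * M) :
    (R' = R ∧ R' * M = R * M) ∨ (R' = R + 1 ∧ R' * M = R * M + M) ∨
    (R' = R + 2 ∧ R' * M = R * M + 2 * M) := by
  have hle : R ≤ R' := by
    by_contra hcon
    have : (R' + 1) * M ≤ R * M := Nat.mul_le_mul_right M (by omega)
    rw [Nat.add_mul, Nat.one_mul] at this
    omega
  obtain ⟨d, rfl⟩ : ∃ d, R' = R + d := ⟨R' - R, by omega⟩
  have hd : d ≤ 2 := by
    by_contra hcon
    have : 3 * M ≤ d * M := Nat.mul_le_mul_right M (by omega)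
    rw [Nat.add_mul] at h2
    omega
  interval_cases d
  · left; simp
  · right; left; exact ⟨rfl, by rw [Nat.add_mul, Nat.one_mul]⟩
  · right; right; exact ⟨rfl, by rw [Nat.add_mul]⟩

/-- values of `fI` at seams and ends -/
theorem fI_bounds (r j : ℕ) (hj : 4 ≤ j) (hj2 : j ≤ 2 * r - 3) : 2 ≤ fI r j ∧ fI r j + 1 ≤ 2 * r := by
  unfold fI; split_ifs <;> omega

theorem fI_one (r : ℕ) : fI r 1 = r := by unfold fI; split_ifs <;> omega
theorem fI_last (r : ℕ) (hr : 6 ≤ r) : fI r (2 * r - 1) = 1 := by unfold fI; split_ifs <;> omega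

section pairs

variable (D : Dat r s M) {x y : ℕ}

theorem pAA {R R' : ℕ} (hx : PA r s M x R) (hy : PA r s M y R') (h1 : x + 2 ≤ y) (h2 : y < x + 2 * M) :
    ¬ (D.w y = D.w x ∧ D.w (y + 1) = D.w (x + 1)) ∧ ¬ (D.w y = D.w (x + 1) ∧ D.w (y + 1) = D.w x) := by
  have hr := D.hr
  have hM := M_ge D
  have hcl := col_last D
  obtain ⟨a1, a2⟩ := hx
  obtain ⟨b1, b2⟩ := hy
  rw [w_lane D a1, w_reg D a2, w_lane D b1, w_reg D b2, fI_last r hr]
  obtain ⟨-, -, a3⟩ := a1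
  obtain ⟨-, -, b3⟩ := b1
  rcases rows (M := M) (R := R) (R' := R') (cx := col s (2 * r - 1)) (cy := col s (2 * r - 1))
    (by omega) (by omega) (by omega) (by omega) (by omega) with ⟨e, e'⟩ | ⟨e, e'⟩ | ⟨e, e'⟩
  · omega
  · subst e
    constructor
    · rintro ⟨h, -⟩
      exact W_ne D _ _ (by omega) (by omega) (by omega) h
    · rintro ⟨h, -⟩
      exact rho_ne D _ _ (by omega) (by omega) h
  · omega

theorem pAB {R R' : ℕ} (hx : PA r s M x R) (hy : PB r s M y R') (h1 : x + 2 ≤ y) (h2 : y < x + 2 * M) :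
    ¬ (D.w y = D.w x ∧ D.w (y + 1) = D.w (x + 1)) ∧ ¬ (D.w y = D.w (x + 1) ∧ D.w (y + 1) = D.w x) := by
  have hr := D.hr
  have hM := M_ge D
  have hcl := col_last D
  obtain ⟨a1, a2⟩ := hx
  obtain ⟨b1, b2⟩ := hy
  rw [w_lane D a1, w_reg D a2, w_reg D b1, w_lane D b2, fI_last r hr, fI_one]
  obtain ⟨-, -, a3⟩ := a1
  unfold IsReg at b1
  rcases rows (M := M) (R := R) (R' := R') (cx := col s (2 * r - 1)) (cy := 0)
    (by omega) (by omega) (by omega) (by omega) (by omega) with ⟨e, e'⟩ | ⟨e, e'⟩ | ⟨e, e'⟩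
  · omega
  · omega
  · subst e
    constructor
    · rintro ⟨-, h⟩
      exact rho_ne D _ _ (by omega) (by omega) h
    · rintro ⟨-, h⟩
      exact W_ne D _ _ (by omega) (by omega) (by omega) h

theorem pAC {R R' j : ℕ} (hx : PA r s M x R) (hy : PC r s M y R' j) (h1 : x + 2 ≤ y) (h2 : y < x + 2 * M) :
    ¬ (D.w y = D.w x ∧ D.w (y + 1) = D.w (x + 1)) ∧ ¬ (D.w y = D.w (x + 1) ∧ D.w (y + 1) = D.w x) := by
  have hr := D.hr
  have hM := M_ge D
  have hcl := col_last D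
  obtain ⟨a1, a2⟩ := hx
  obtain ⟨b1, b2, b3⟩ := hy
  obtain ⟨s1, s2, s3, s4⟩ := seam_bounds D j b3
  obtain ⟨g1, g2⟩ := fI_bounds r j (by omega) (by omega)
  obtain ⟨g3, g4⟩ := fI_bounds r (j + 1) (by omega) (by omega)
  have hcj := col_ltM D j (by omega) (by omega)
  rw [w_lane D a1, w_reg D a2, w_lane D b1, w_lane D b2, fI_last r hr]
  obtain ⟨-, -, a3⟩ := a1
  obtain ⟨-, -, b4⟩ := b1
  rcases rows (M := M) (R := R) (R' := R') (cx := col s (2 * r - 1)) (cy := col s j)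
    (by omega) (by omega) (by omega) (by omega) (by omega) with ⟨e, e'⟩ | ⟨e, e'⟩ | ⟨e, e'⟩
  · omega
  · subst e
    constructor
    · rintro ⟨-, h⟩
      exact rho_ne D _ _ (by omega) (by omega) h
    · rintro ⟨h, -⟩
      exact rho_ne D _ _ (by omega) (by omega) h
  · subst e
    constructor
    · rintro ⟨-, h⟩
      exact rho_ne D _ _ (by omega) (by omega) h
    · rintro ⟨h, -⟩
      exact rho_ne D _ _ (by omega) (by omega) h

theorem pBA {R R' : ℕ} (hx : PB r s M x R) (hy : PA r s M y R') (h1 : x + 2 ≤ y) (h2 : y < x + 2 * M) :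
    ¬ (D.w y = D.w x ∧ D.w (y + 1) = D.w (x + 1)) ∧ ¬ (D.w y = D.w (x + 1) ∧ D.w (y + 1) = D.w x) := by
  have hr := D.hr
  have hM := M_ge D
  have hcl := col_last D
  obtain ⟨a1, a2⟩ := hx
  obtain ⟨b1, b2⟩ := hy
  rw [w_reg D a1, w_lane D a2, w_lane D b1, w_reg D b2, fI_last r hr, fI_one]
  unfold IsReg at a1
  obtain ⟨-, -, b3⟩ := b1
  rcases rows (M := M) (R := R) (R' := R') (cx := 0) (cy := col s (2 * r - 1))
    (by omega) (by omega) (by omega) (by omega) (by omega) with ⟨e, e'⟩ | ⟨e, e'⟩ | ⟨e, e'⟩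
  · subst e
    constructor
    · rintro ⟨h, -⟩
      exact rho_ne D _ _ (by omega) (by omega) h
    · rintro ⟨h, -⟩
      exact W_ne D _ _ (by omega) (by omega) (by omega) h
  · subst e
    constructor
    · rintro ⟨h, -⟩
      exact rho_ne D _ _ (by omega) (by omega) h
    · rintro ⟨h, -⟩
      exact W_ne D _ _ (by omega) (by omega) (by omega) h
  · omega

theorem pBB {R R' : ℕ} (hx : PB r s M x R) (hy : PB r s M y R') (h1 : x + 2 ≤ y) (h2 : y < x + 2 * M) :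
    ¬ (D.w y = D.w x ∧ D.w (y + 1) = D.w (x + 1)) ∧ ¬ (D.w y = D.w (x + 1) ∧ D.w (y + 1) = D.w x) := by
  have hr := D.hr
  have hM := M_ge D
  obtain ⟨a1, a2⟩ := hx
  obtain ⟨b1, b2⟩ := hy
  rw [w_reg D a1, w_lane D a2, w_reg D b1, w_lane D b2, fI_one]
  unfold IsReg at a1 b1
  rcases rows (M := M) (R := R) (R' := R') (cx := 0) (cy := 0)
    (by omega) (by omega) (by omega) (by omega) (by omega) with ⟨e, e'⟩ | ⟨e, e'⟩ | ⟨e, e'⟩
  · omega
  · subst e
    constructor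
    · rintro ⟨-, h⟩
      exact W_ne D _ _ (by omega) (by omega) (by omega) h
    · rintro ⟨-, h⟩
      exact rho_ne D _ _ (by omega) (by omega) h
  · omega

theorem pBC {R R' j : ℕ} (hx : PB r s M x R) (hy : PC r s M y R' j) (h1 : x + 2 ≤ y) (h2 : y < x + 2 * M) :
    ¬ (D.w y = D.w x ∧ D.w (y + 1) = D.w (x + 1)) ∧ ¬ (D.w y = D.w (x + 1) ∧ D.w (y + 1) = D.w x) := by
  have hr := D.hr
  have hM := M_ge D
  obtain ⟨a1, a2⟩ := hx
  obtain ⟨b1, b2, b3⟩ := hy
  obtain ⟨s1, s2, s3, s4⟩ := seam_bounds D j b3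
  obtain ⟨g1, g2⟩ := fI_bounds r j (by omega) (by omega)
  obtain ⟨g3, g4⟩ := fI_bounds r (j + 1) (by omega) (by omega)
  have hcj := col_ltM D j (by omega) (by omega)
  rw [w_reg D a1, w_lane D a2, w_lane D b1, w_lane D b2, fI_one]
  unfold IsReg at a1
  obtain ⟨-, -, b4⟩ := b1
  rcases rows (M := M) (R := R) (R' := R') (cx := 0) (cy := col s j)
    (by omega) (by omega) (by omega) (by omega) (by omega) with ⟨e, e'⟩ | ⟨e, e'⟩ | ⟨e, e'⟩
  · subst e
    constructor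
    · rintro ⟨h, -⟩
      exact rho_ne D _ _ (by omega) (by omega) h
    · rintro ⟨-, h⟩
      exact rho_ne D _ _ (by omega) (by omega) h
  · subst e
    constructor
    · rintro ⟨h, -⟩
      exact rho_ne D _ _ (by omega) (by omega) h
    · rintro ⟨-, h⟩
      exact rho_ne D _ _ (by omega) (by omega) h
  · omega

theorem pCA {R R' j : ℕ} (hx : PC r s M x R j) (hy : PA r s M y R') (h1 : x + 2 ≤ y) (h2 : y < x + 2 * M) :
    ¬ (D.w y = D.w x ∧ D.w (y + 1) = D.w (x + 1)) ∧ ¬ (D.w y = D.w (x + 1) ∧ D.w (y + 1) = D.w x) := by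
  have hr := D.hr
  have hM := M_ge D
  have hcl := col_last D
  obtain ⟨a1, a2, a3⟩ := hx
  obtain ⟨b1, b2⟩ := hy
  obtain ⟨s1, s2, s3, s4⟩ := seam_bounds D j a3
  obtain ⟨g1, g2⟩ := fI_bounds r j (by omega) (by omega)
  obtain ⟨g3, g4⟩ := fI_bounds r (j + 1) (by omega) (by omega)
  have hcj := col_ltM D j (by omega) (by omega)
  rw [w_lane D a1, w_lane D a2, w_lane D b1, w_reg D b2, fI_last r hr]
  obtain ⟨-, -, a4⟩ := a1
  obtain ⟨-, -, b3⟩ := b1
  rcases rows (M := M) (R := R) (R' := R') (cx := col s j) (cy := col s (2 * r - 1))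
    (by omega) (by omega) (by omega) (by omega) (by omega) with ⟨e, e'⟩ | ⟨e, e'⟩ | ⟨e, e'⟩
  · subst e
    constructor
    · rintro ⟨-, h⟩
      exact rho_ne D _ _ (by omega) (by omega) h.symm
    · rintro ⟨-, h⟩
      exact rho_ne D _ _ (by omega) (by omega) h.symm
  · subst e
    constructor
    · rintro ⟨-, h⟩
      exact rho_ne D _ _ (by omega) (by omega) h.symm
    · rintro ⟨-, h⟩
      exact rho_ne D _ _ (by omega) (by omega) h.symm
  · omega

theorem pCB {R R' j : ℕ} (hx : PC r s M x R j) (hy : PB r s M y R') (h1 : x + 2 ≤ y) (h2 : y < x + 2 * M) :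
    ¬ (D.w y = D.w x ∧ D.w (y + 1) = D.w (x + 1)) ∧ ¬ (D.w y = D.w (x + 1) ∧ D.w (y + 1) = D.w x) := by
  have hr := D.hr
  have hM := M_ge D
  obtain ⟨a1, a2, a3⟩ := hx
  obtain ⟨b1, b2⟩ := hy
  obtain ⟨s1, s2, s3, s4⟩ := seam_bounds D j a3
  obtain ⟨g1, g2⟩ := fI_bounds r j (by omega) (by omega)
  obtain ⟨g3, g4⟩ := fI_bounds r (j + 1) (by omega) (by omega)
  have hcj := col_ltM D j (by omega) (by omega)
  rw [w_lane D a1, w_lane D a2, w_reg D b1, w_lane D b2, fI_one]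
  obtain ⟨-, -, a4⟩ := a1
  unfold IsReg at b1
  rcases rows (M := M) (R := R) (R' := R') (cx := col s j) (cy := 0)
    (by omega) (by omega) (by omega) (by omega) (by omega) with ⟨e, e'⟩ | ⟨e, e'⟩ | ⟨e, e'⟩
  · omega
  · subst e
    constructor
    · rintro ⟨h, -⟩
      exact rho_ne D _ _ (by omega) (by omega) h.symm
    · rintro ⟨h, -⟩
      exact rho_ne D _ _ (by omega) (by omega) h.symm
  · subst e
    constructor
    · rintro ⟨h, -⟩
      exact rho_ne D _ _ (by omega) (by omega) h.symm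
    · rintro ⟨h, -⟩
      exact rho_ne D _ _ (by omega) (by omega) h.symm

theorem pCC {R R' j j' : ℕ} (hx : PC r s M x R j) (hy : PC r s M y R' j') (h1 : x + 2 ≤ y)
    (h2 : y < x + 2 * M) :
    ¬ (D.w y = D.w x ∧ D.w (y + 1) = D.w (x + 1)) ∧ ¬ (D.w y = D.w (x + 1) ∧ D.w (y + 1) = D.w x) := by
  have hr := D.hr
  have hM := M_ge D
  obtain ⟨a1, a2, a3⟩ := hx
  obtain ⟨b1, b2, b3⟩ := hy
  obtain ⟨s1, s2, s3, s4⟩ := seam_bounds D j a3
  obtain ⟨t1, t2, t3, t4⟩ := seam_bounds D j' b3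
  obtain ⟨g1, g2⟩ := fI_bounds r j (by omega) (by omega)
  obtain ⟨g3, g4⟩ := fI_bounds r (j + 1) (by omega) (by omega)
  obtain ⟨k1, k2⟩ := fI_bounds r j' (by omega) (by omega)
  obtain ⟨k3, k4⟩ := fI_bounds r (j' + 1) (by omega) (by omega)
  have hcj := col_ltM D j (by omega) (by omega)
  have hcj' := col_ltM D j' (by omega) (by omega)
  rw [w_lane D a1, w_lane D a2, w_lane D b1, w_lane D b2]
  obtain ⟨-, -, a4⟩ := a1
  obtain ⟨-, -, b4⟩ := b1
  have hcc : j ≤ j' → col s j ≤ col s j' := by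
    intro h; unfold col sg; omega
  have hne : j' ≠ j + 2 := by
    rintro rfl
    have e1 : sg s (j + 2 + 1) = sg s (j + 3) := rfl
    omega
  have hsep : R' ≤ R + 2 ∧ R ≤ R' ∧ (R' = R → j' ≠ j) ∧ (R' = R + 2 → j' < j) := by
    rcases rows (M := M) (R := R) (R' := R') (cx := col s j) (cy := col s j')
      (by omega) (by omega) (by omega) (by omega) (by omega) with ⟨e, e'⟩ | ⟨e, e'⟩ | ⟨e, e'⟩
    · refine ⟨by omega, by omega, ?_, by omega⟩
      rintro - rfl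
      omega
    · exact ⟨by omega, by omega, by omega, by omega⟩
    · refine ⟨by omega, by omega, by omega, ?_⟩
      intro _
      by_contra hcon
      have := hcc (by omega)
      omega
  obtain ⟨q1, q2, q3, q4⟩ := hsep
  constructor
  · rintro ⟨e1, e2⟩
    have E1 : R' + fI r j' = R + fI r j := by
      by_contra hne
      exact W_ne D _ _ hne (by omega) (by omega) e1
    have E2 : R' + fI r (j' + 1) = R + fI r (j + 1) := by
      by_contra hne
      exact W_ne D _ _ hne (by omega) (by omega) e2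
    unfold fI at E1 E2
    split_ifs at E1 E2 <;> omega
  · rintro ⟨e1, e2⟩
    have E1 : R' + fI r j' = R + fI r (j + 1) := by
      by_contra hne
      exact W_ne D _ _ hne (by omega) (by omega) e1
    have E2 : R' + fI r (j' + 1) = R + fI r j := by
      by_contra hne
      exact W_ne D _ _ hne (by omega) (by omega) e2
    unfold fI at E1 E2
    split_ifs at E1 E2 <;> omega

end pairs

theorem not_fix_of_eq (D : Dat r s M) {x y : ℕ} (hx : ¬ Fx r s M x) (h : D.w y = D.w x) :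
    ¬ Fx r s M y := by
  rintro ⟨R, j, hf⟩
  obtain ⟨R', hf'⟩ := fix_eq D hf h.symm
  exact hx ⟨R', j, hf'⟩

/-- adjacent pairs of non-fixed letters do not come back within `2 M` -/
theorem pair_ne (D : Dat r s M) (x y : ℕ) (n1 : ¬ Fx r s M x) (n2 : ¬ Fx r s M (x + 1))
    (h1 : x + 2 ≤ y) (h2 : y < x + 2 * M) :
    ¬ (D.w y = D.w x ∧ D.w (y + 1) = D.w (x + 1)) ∧ ¬ (D.w y = D.w (x + 1) ∧ D.w (y + 1) = D.w x) := by
  have key : ∀ (m1 : ¬ Fx r s M y) (m2 : ¬ Fx r s M (y + 1)),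
      ¬ (D.w y = D.w x ∧ D.w (y + 1) = D.w (x + 1)) ∧ ¬ (D.w y = D.w (x + 1) ∧ D.w (y + 1) = D.w x) := by
    intro m1 m2
    rcases pair_types D x n1 n2 with ⟨R, hx⟩ | ⟨R, hx⟩ | ⟨R, j, hx⟩ <;>
    rcases pair_types D y m1 m2 with ⟨R', hy⟩ | ⟨R', hy⟩ | ⟨R', j', hy⟩
    · exact pAA D hx hy h1 h2
    · exact pAB D hx hy h1 h2
    · exact pAC D hx hy h1 h2
    · exact pBA D hx hy h1 h2
    · exact pBB D hx hy h1 h2
    · exact pBC D hx hy h1 h2
    · exact pCA D hx hy h1 h2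
    · exact pCB D hx hy h1 h2
    · exact pCC D hx hy h1 h2
  constructor
  · rintro ⟨e1, e2⟩
    exact (key (not_fix_of_eq D n1 e1) (not_fix_of_eq D n2 e2)).1 ⟨e1, e2⟩
  · rintro ⟨e1, e2⟩
    exact (key (not_fix_of_eq D n2 e1) (not_fix_of_eq D n1 e2)).2 ⟨e1, e2⟩

end Pool.Agent.Helper35.UR
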